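import Mathlib

/-! The area formula in Euclidean space for maps which are not injective. -/

set_option autoImplicit false

open Set Filter Function MeasureTheory
open scoped Topology NNReal ENNReal

namespace Pool.Agent.Lib.MP_029589_gt

variable {E : Type} [NormedAddCommGroup E] [NormedSpace ℝ E] [FiniteDimensional ℝ E]
  [MeasurableSpace E] [BorelSpace E] (μ : Measure E) [μ.IsAddHaarMeasure] {s : Set E} {f : E → E}

lemma exists_pieces {f' : E → E →L[ℝ] E} (hs : MeasurableSet s)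
    (hf : ∀ x ∈ s, HasFDerivWithinAt f (f' x) s x) (hd : ∀ x ∈ s, (f' x).det ≠ 0) :
    ∃ t : ℕ → Set E, Pairwise (Disjoint on t) ∧ (∀ n, MeasurableSet (t n)) ∧ ⋃ n, t n = s ∧
      ∀ n, InjOn f (t n) := by
  have h : ∀ A : E →L[ℝ] E, ∃ c : ℝ≥0, c ≠ 0 ∧
      (A.det ≠ 0 → ∀ t, ApproximatesLinearOn f A t c → InjOn f t) := fun A => by
    by_cases hA : A.det = 0
    · exact ⟨1, one_ne_zero, fun h => absurd hA h⟩
    let B := A.toContinuousLinearEquivOfDetNeZero hA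
    rcases B.subsingleton_or_nnnorm_symm_pos with h | h
    · exact ⟨1, one_ne_zero, fun _ t _ a _ b _ _ => Subsingleton.elim a b⟩
    · have h1 := inv_pos.2 h
      exact ⟨_, (half_pos h1).ne', fun _ t ht =>
        ApproximatesLinearOn.injOn (f' := B) ht (Or.inr (half_lt_self h1))⟩
  choose r h1 h2 using h
  obtain ⟨t, A, a1, a2, a3, a4, a5⟩ :=
    exists_partition_approximatesLinearOn_of_hasFDerivWithinAt f s f' hf r h1
  refine ⟨fun n => s ∩ t n, a1.mono fun _ _ h => h.mono inter_subset_right inter_subset_right,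
    fun n => hs.inter (a2 n), by rw [← inter_iUnion, inter_eq_left.2 a3], fun n => ?_⟩
  rcases s.eq_empty_or_nonempty with rfl | h
  · simp
  · obtain ⟨y, hy, e⟩ := a5 h n
    exact h2 _ (e ▸ hd y hy) _ (a4 n)

theorem area_reg {f' : E → E →L[ℝ] E} (hs : MeasurableSet s)
    (hf : ∀ x ∈ s, HasFDerivWithinAt f (f' x) s x) (hd : ∀ x ∈ s, (f' x).det ≠ 0)
    (hi : IntegrableOn (fun x => (f' x).det) s μ) {ψ : E → ℝ}
    (hψ : IntegrableOn (fun x => |(f' x).det| * ψ x) s μ) :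
    (∀ᵐ z ∂μ, (s ∩ f ⁻¹' {z}).Finite) ∧ Integrable (fun z => ∑ᶠ u ∈ s ∩ f ⁻¹' {z}, ψ u) μ ∧
      ∫ x in s, |(f' x).det| * ψ x ∂μ = ∫ z, ∑ᶠ u ∈ s ∩ f ⁻¹' {z}, ψ u ∂μ := by
  obtain ⟨t, a1, a2, rfl, a4⟩ := exists_pieces hs hf hd
  have b1 : ∀ n, ∀ x ∈ t n, HasFDerivWithinAt f (f' x) (t n) x := fun n x hx =>
    (hf x (mem_iUnion.2 ⟨n, hx⟩)).mono (subset_iUnion t n)
  have b2 := fun n => measurable_image_of_fderivWithin (a2 n) (b1 n) (a4 n)
  let Ψ : ℕ → E → ℝ := fun n => (f '' t n).indicator (ψ ∘ invFunOn f (t n))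
  have b3 : ∀ n, EqOn (fun x => |(f' x).det| • (ψ ∘ invFunOn f (t n)) (f x))
      (fun x => |(f' x).det| * ψ x) (t n) := fun n x hx => by
    simp only [comp, (a4 n).leftInvOn_invFunOn hx, smul_eq_mul]
  have b4 : ∀ n, Integrable (Ψ n) μ := fun n => (integrable_indicator_iff (b2 n)).2
    ((integrableOn_image_iff_integrableOn_abs_det_fderiv_smul μ (a2 n) (b1 n) (a4 n) _).2
      ((hψ.mono_set (subset_iUnion t n)).congr_fun (b3 n).symm (a2 n)))
  have b5 : ∑' n, ∫⁻ z, ‖Ψ n z‖ₑ ∂μ ≠ ∞ := by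
    refine ne_of_lt (lt_of_eq_of_lt ?_ hψ.2)
    rw [lintegral_iUnion a2 a1]
    refine tsum_congr fun n => ?_
    simp only [Ψ, enorm_indicator_eq_indicator_enorm, lintegral_indicator (b2 n)]
    rw [lintegral_image_eq_lintegral_abs_det_fderiv_mul μ (a2 n) (b1 n) (a4 n)]
    refine setLIntegral_congr_fun (a2 n) fun x hx => ?_
    simp only [comp, (a4 n).leftInvOn_invFunOn hx, enorm_mul, Real.enorm_eq_ofReal (abs_nonneg _)]
  have b6 : ∀ᵐ z ∂μ, {n | z ∈ f '' t n}.Finite := by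
    refine ae_finite_setOfPred_mem (ne_of_lt (lt_of_eq_of_lt ?_ hi.2))
    rw [lintegral_iUnion a2 a1]
    refine tsum_congr fun n => ?_
    simp only [← lintegral_abs_det_fderiv_eq_addHaar_image μ (a2 n) (b1 n) (a4 n),
      Real.enorm_eq_ofReal_abs]
  have b7 : ∀ z, (⋃ n, t n) ∩ f ⁻¹' {z} = (fun n => invFunOn f (t n) z) '' {n | z ∈ f '' t n} :=
    fun z => by
      ext u
      constructor
      · rintro ⟨h1, rfl⟩
        obtain ⟨n, hn⟩ := mem_iUnion.1 h1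
        exact ⟨n, ⟨u, hn, rfl⟩, (a4 n).leftInvOn_invFunOn hn⟩
      · rintro ⟨n, hn, rfl⟩
        exact ⟨mem_iUnion.2 ⟨n, invFunOn_mem hn⟩, invFunOn_eq hn⟩
  have b8 : (fun z => ∑' n, Ψ n z) =ᵐ[μ] fun z => ∑ᶠ u ∈ (⋃ n, t n) ∩ f ⁻¹' {z}, ψ u := by
    filter_upwards [b6] with z hz
    have hj : InjOn (fun n => invFunOn f (t n) z) {n | z ∈ f '' t n} := fun a ha b hb e =>
      by_contra fun h => disjoint_left.1 (a1 h) (invFunOn_mem ha)
        ((show invFunOn f (t a) z = invFunOn f (t b) z from e) ▸ invFunOn_mem hb)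
    rw [b7, finsum_mem_image hj, finsum_mem_def,
      tsum_eq_finsum (hz.subset fun n hn => support_indicator_subset (f := _) (by exact hn))]
    refine finsum_congr fun n => ?_
    by_cases h : z ∈ f '' t n
    · rw [indicator_of_mem (by exact h)]; exact indicator_of_mem h _
    · rw [indicator_of_notMem (by exact h)]; exact indicator_of_notMem h _
  refine ⟨b6.mono fun z hz => b7 z ▸ hz.image _, Integrable.congr ⟨(AEMeasurable.tsum
    fun n => (b4 n).aemeasurable).aestronglyMeasurable, ?_⟩ b8, ?_⟩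
  · refine (lintegral_mono fun z => enorm_tsum_le_tsum_enorm).trans_lt ?_
    rw [lintegral_tsum fun n => (b4 n).1.enorm]
    exact b5.lt_top
  · rw [← integral_congr_ae b8, integral_tsum (fun n => (b4 n).1) b5, integral_iUnion a2 a1 hψ]
    refine tsum_congr fun n => ?_
    rw [integral_indicator (b2 n), integral_image_eq_integral_abs_det_fderiv_smul μ (a2 n) (b1 n)
      (a4 n), setIntegral_congr_fun (a2 n) (b3 n)]

/-- The signed area formula. -/
theorem area_signed (hs : MeasurableSet s) (hf : ∀ x ∈ s, DifferentiableAt ℝ f x)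
    (hi : IntegrableOn (fun x => (fderiv ℝ f x).det) s μ) {ψ : E → ℝ}
    (hψ : IntegrableOn (fun x => (fderiv ℝ f x).det * ψ x) s μ) :
    (∀ᵐ z ∂μ, (s ∩ f ⁻¹' {z}).Finite ∧ ∀ u ∈ s, f u = z → (fderiv ℝ f u).det ≠ 0) ∧
    Integrable (fun z => ∑ᶠ u ∈ s ∩ f ⁻¹' {z}, SignType.sign (fderiv ℝ f u).det * ψ u) μ ∧
      ∫ x in s, (fderiv ℝ f x).det * ψ x ∂μ =
        ∫ z, ∑ᶠ u ∈ s ∩ f ⁻¹' {z}, SignType.sign (fderiv ℝ f u).det * ψ u ∂μ := by
  have hm : MeasurableSet {x | (fderiv ℝ f x).det ≠ 0} := (measurableSet_eq_fun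
    (ContinuousLinearMap.continuous_det.measurable.comp (measurable_fderiv ℝ f))
    measurable_const).compl
  have e : ∀ x, |(fderiv ℝ f x).det| * (SignType.sign (fderiv ℝ f x).det * ψ x) =
      (fderiv ℝ f x).det * ψ x := fun x => by rw [← mul_assoc, abs_mul_sign]
  obtain ⟨h1, h2, h3⟩ := area_reg μ (hs.inter hm)
    (fun x hx => (hf x hx.1).hasFDerivAt.hasFDerivWithinAt) (fun x hx => hx.2)
    (hi.mono_set inter_subset_left) (ψ := fun x => SignType.sign (fderiv ℝ f x).det * ψ x)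
    (by simpa only [e] using hψ.mono_set inter_subset_left)
  have h4 : ∀ᵐ z ∂μ, z ∉ f '' {x ∈ s | (fderiv ℝ f x).det = 0} :=
    measure_eq_zero_iff_ae_notMem.1 (addHaar_image_eq_zero_of_det_fderivWithin_eq_zero μ
      (fun x hx => (hf x hx.1).hasFDerivAt.hasFDerivWithinAt) fun x hx => hx.2)
  have h5 : ∀ᵐ z ∂μ, s ∩ {x | (fderiv ℝ f x).det ≠ 0} ∩ f ⁻¹' {z} = s ∩ f ⁻¹' {z} :=
    h4.mono fun z hz => Set.ext fun u =>
      ⟨fun h => ⟨h.1.1, h.2⟩, fun h => ⟨⟨h.1, fun h' => hz ⟨u, ⟨h.1, h'⟩, h.2⟩⟩, h.2⟩⟩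
  refine ⟨?_, h2.congr (h5.mono fun z hz => by simp only [hz]), ?_⟩
  · filter_upwards [h1, h4, h5] with z a b c
    exact ⟨c ▸ a, fun u hu e h => b ⟨u, ⟨hu, h⟩, e⟩⟩
  · simp only [e] at h3
    refine Eq.trans ?_ (h3.trans (integral_congr_ae (h5.mono fun z hz => by simp only [hz])))
    refine setIntegral_eq_of_subset_of_forall_sdiff_eq_zero hs inter_subset_left fun x hx => ?_
    rw [not_not.1 fun h => hx.2 ⟨hx.1, h⟩, zero_mul]

end Pool.Agent.Lib.MP_029589_gt
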