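import Pool.Agent.Lib.MP_029589_gt.DegA

/-! Homotopy invariance of the signed number of preimages on an oriented charted space. -/

set_option autoImplicit false

open MeasureTheory Set Filter Topology Function Metric

namespace Pool.Agent.Lib.MP_029589_gt

variable {V W : Type} [NormedAddCommGroup V] [NormedSpace ℝ V] [FiniteDimensional ℝ V]
  [NormedAddCommGroup W] [NormedSpace ℝ W]

/-- The almost everywhere filter of Haar measure. -/
noncomputable def aeV (V : Type) [NormedAddCommGroup V] [NormedSpace ℝ V]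
    [FiniteDimensional ℝ V] : Filter V :=
  letI := borel V
  haveI : BorelSpace V := ⟨rfl⟩
  ae (Measure.addHaar : Measure V)

instance : CountableInterFilter (aeV V) := by
  unfold aeV
  infer_instance

lemma exists_of_ae {y : V} {P : V → Prop} (h : ∀ᶠ z in 𝓝 y ⊓ aeV V, P z) : ∃ z, P z := by
  letI := borel V
  haveI : BorelSpace V := ⟨rfl⟩
  obtain ⟨U, hU, T, hT, hUT⟩ := mem_inf_iff.1 h
  by_contra hc
  push Not at hc
  have : U ⊆ Tᶜ := fun z hz hz' => hc z (show z ∈ {z | P z} from hUT ▸ ⟨hz, hz'⟩)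
  exact (Measure.measure_pos_of_mem_nhds (Measure.addHaar : Measure V) hU).ne'
    (measure_mono_null this hT)

lemma sard (f : V → V) (s : Set V) (hf : ∀ x ∈ s, DifferentiableAt ℝ f x) :
    ∀ᶠ z in aeV V, ∀ x ∈ s, f x = z → (fderiv ℝ f x).det ≠ 0 := by
  letI := borel V
  haveI : BorelSpace V := ⟨rfl⟩
  have h := addHaar_image_eq_zero_of_det_fderivWithin_eq_zero (Measure.addHaar : Measure V)
    (s := {x ∈ s | (fderiv ℝ f x).det = 0}) (f := f) (f' := fun x => fderiv ℝ f x)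
    (fun y hy => (hf y hy.1).hasFDerivAt.hasFDerivWithinAt) fun x hx => hx.2
  refine measure_mono_null (fun z hz => ?_) h
  simp only [mem_compl_iff, mem_setOf_eq] at hz
  push Not at hz
  obtain ⟨x, h1, h2, h3⟩ := hz
  exact ⟨x, ⟨h1, h3⟩, h2⟩

lemma ae_notMem_sphere (f : V → V) (c : V) {r : ℝ} (hr : r ≠ 0)
    (hf : ∀ x ∈ sphere c r, DifferentiableAt ℝ f x) : ∀ᶠ z in aeV V, z ∉ f '' sphere c r := by
  letI := borel V
  haveI : BorelSpace V := ⟨rfl⟩
  have h := addHaar_image_eq_zero_of_differentiableOn_of_addHaar_eq_zero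
    (Measure.addHaar : Measure V) (f := f) (s := sphere c r)
    (fun x hx => (hf x hx).differentiableWithinAt)
    (Measure.addHaar_sphere_of_ne_zero _ c hr)
  exact measure_mono_null (fun z hz => by simpa using hz) h

/-- An oriented atlas of class two, with one chart for each point. -/
structure Atl (Q V : Type) [TopologicalSpace Q] [NormedAddCommGroup V] [NormedSpace ℝ V] where
  e : Q → OpenPartialHomeomorph Q V
  mem : ∀ x, x ∈ (e x).source
  sm : ∀ a b x, x ∈ (e a).source → x ∈ (e b).source →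
    ContDiffAt ℝ 2 (e b ∘ (e a).symm) (e a x)
  pos : ∀ a b x, x ∈ (e a).source → x ∈ (e b).source →
    0 < (fderiv ℝ (e b ∘ (e a).symm) (e a x)).det

variable {Q : Type} [TopologicalSpace Q] (A : Atl Q V)

namespace Atl

/-- Smoothness in the charts. -/
def Sm (φ : Q → W) : Prop := ∀ x, ContDiffAt ℝ 2 (φ ∘ (A.e x).symm) (A.e x x)

/-- Local sign. -/
noncomputable def sgn (G : Q → V) (x : Q) : ℤ := sg (fderiv ℝ (G ∘ (A.e x).symm) (A.e x x))

/-- Signed number of preimages. -/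
noncomputable def cnt (G : Q → V) (y : V) : ℤ := ∑ᶠ x ∈ G ⁻¹' {y}, A.sgn G x

/-- Regular values. -/
def Reg (G : Q → V) (y : V) : Prop := ∀ x, G x = y → A.sgn G x ≠ 0

/-- The two maps have the same signed counts at almost all small values. -/
def Eqv (G G' : Q → V) : Prop := ∀ᶠ y in 𝓝 0 ⊓ aeV V, A.cnt G y = A.cnt G' y

variable {A}

omit [FiniteDimensional ℝ V] [NormedAddCommGroup W] [NormedSpace ℝ W] in
lemma ev_chart (φ : Q → W) {a b x : Q} (ha : x ∈ (A.e a).source) (hb : x ∈ (A.e b).source) :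
    φ ∘ (A.e a).symm =ᶠ[𝓝 (A.e a x)] (φ ∘ (A.e b).symm) ∘ (A.e b ∘ (A.e a).symm) := by
  have h1 : ContinuousAt (A.e a).symm (A.e a x) :=
    (A.e a).continuousAt_symm ((A.e a).map_source ha)
  have h2 : (A.e b).source ∈ 𝓝 ((A.e a).symm (A.e a x)) := by
    rw [(A.e a).left_inv ha]
    exact (A.e b).open_source.mem_nhds hb
  filter_upwards [h1 h2] with u hu
  simp only [comp]
  rw [(A.e b).left_inv hu]

omit [FiniteDimensional ℝ V] in
lemma Sm.at {φ : Q → W} (h : A.Sm φ) {a x : Q} (ha : x ∈ (A.e a).source) :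
    ContDiffAt ℝ 2 (φ ∘ (A.e a).symm) (A.e a x) := by
  refine ContDiffAt.congr_of_eventuallyEq ?_ (ev_chart φ ha (A.mem x))
  refine ContDiffAt.comp _ ?_ (A.sm a x x ha (A.mem x))
  simpa [(A.e a).left_inv ha] using h x

omit [FiniteDimensional ℝ V] in
lemma Sm.tgt {φ : Q → W} (h : A.Sm φ) {a : Q} {u : V} (hu : u ∈ (A.e a).target) :
    ContDiffAt ℝ 2 (φ ∘ (A.e a).symm) u := by
  have := h.at ((A.e a).map_target hu)
  rwa [(A.e a).right_inv hu] at this

omit [FiniteDimensional ℝ V] in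
lemma Sm.continuous {φ : Q → W} (h : A.Sm φ) : Continuous φ := by
  refine continuous_iff_continuousAt.2 fun x => ?_
  have h1 := (h x).continuousAt.comp ((A.e x).continuousAt (A.mem x))
  refine h1.congr ?_
  filter_upwards [(A.e x).open_source.mem_nhds (A.mem x)] with z hz
  simp [(A.e x).left_inv hz]

omit [FiniteDimensional ℝ V] in
lemma Sm.sgn_eq {G : Q → V} (h : A.Sm G) {a x : Q} (ha : x ∈ (A.e a).source) :
    A.sgn G x = sg (fderiv ℝ (G ∘ (A.e a).symm) (A.e a x)) := by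
  have h1 : DifferentiableAt ℝ (G ∘ (A.e x).symm) ((A.e x ∘ (A.e a).symm) (A.e a x)) := by
    simpa [(A.e a).left_inv ha] using (h x).differentiableAt two_ne_zero
  rw [(ev_chart G ha (A.mem x)).fderiv_eq, fderiv_comp _ h1
    ((A.sm a x x ha (A.mem x)).differentiableAt two_ne_zero), sg_comp,
    sg_pos (A.pos a x x ha (A.mem x)), mul_one]
  simp [sgn, (A.e a).left_inv ha]

omit [FiniteDimensional ℝ V] in
lemma sgn_congr {G G' : Q → V} {x : Q} (h : G =ᶠ[𝓝 x] G') : A.sgn G x = A.sgn G' x := by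
  unfold sgn
  have h1 : ContinuousAt (A.e x).symm (A.e x x) :=
    (A.e x).continuousAt_symm ((A.e x).map_source (A.mem x))
  have h2 : Tendsto (A.e x).symm (𝓝 (A.e x x)) (𝓝 x) := by
    have := h1.tendsto
    rwa [(A.e x).left_inv (A.mem x)] at this
  rw [(h.comp_tendsto h2).fderiv_eq]

omit [FiniteDimensional ℝ V] in
lemma sgn_sub (G : Q → V) (y : V) (x : Q) : A.sgn (fun z => G z - y) x = A.sgn G x := by
  unfold sgn
  congr 1
  exact fderiv_sub_const (f := G ∘ (A.e x).symm) y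

lemma Sm.finite {G : Q → V} (h : A.Sm G) {y : V} (hr : A.Reg G y) {K : Set Q} (hK : IsCompact K)
    (hy : ∀ x, G x = y → x ∈ K) : (G ⁻¹' {y}).Finite := by
  refine (hK.of_isClosed_subset (isClosed_singleton.preimage h.continuous) hy).finite
    (isDiscrete_iff_nhdsNE.2 fun x hx => ?_)
  rw [inf_principal_eq_bot]
  have h1 := eventually_ne_of_det ((h x).differentiableAt two_ne_zero)
    (sg_ne_zero.1 (hr x hx)) y
  rw [eventually_nhdsWithin_iff] at h1
  have h2 := (A.e x).continuousAt (A.mem x) h1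
  rw [mem_nhdsWithin_iff_eventually]
  filter_upwards [h2, (A.e x).open_source.mem_nhds (A.mem x)] with z hz hz' hne h3
  refine hz (fun h4 => hne ((A.e x).injOn hz' (A.mem x) h4)) ?_
  simpa [(A.e x).left_inv hz'] using h3

lemma Sm.sard {G : Q → V} (h : A.Sm G) {K : Set Q} (hK : IsCompact K) :
    ∀ᶠ y in aeV V, ∀ x ∈ K, G x = y → A.sgn G x ≠ 0 := by
  obtain ⟨t, -, ht⟩ := hK.elim_nhds_subcover (fun x => (A.e x).source)
    fun x _ => (A.e x).open_source.mem_nhds (A.mem x)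
  have := (eventually_all_finset t).2 fun a _ => MP_029589_gt.sard (G ∘ (A.e a).symm)
    (A.e a).target fun u hu => (h.tgt hu).differentiableAt two_ne_zero
  filter_upwards [this] with y hy x hx hxy
  obtain ⟨a, ha, hxa⟩ := mem_iUnion₂.1 (ht hx)
  rw [h.sgn_eq hxa, sg_ne_zero]
  exact hy a ha _ ((A.e a).map_source hxa) (by simpa [(A.e a).left_inv hxa] using hxy)

omit [FiniteDimensional ℝ V] in
lemma cnt_chart {G : Q → V} (h : A.Sm G) (a : Q) {B : Set V} (hB : B ⊆ (A.e a).target) (y : V) :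
    ∑ᶠ x ∈ G ⁻¹' {y} ∩ (A.e a).symm '' B, A.sgn G x =
      ∑ᶠ u ∈ {u ∈ B | (G ∘ (A.e a).symm) u = y}, sg (fderiv ℝ (G ∘ (A.e a).symm) u) := by
  have : G ⁻¹' {y} ∩ (A.e a).symm '' B =
      (A.e a).symm '' {u ∈ B | (G ∘ (A.e a).symm) u = y} := by
    ext x
    constructor
    · rintro ⟨h1, u, hu, rfl⟩
      exact ⟨u, ⟨hu, h1⟩, rfl⟩
    · rintro ⟨u, ⟨hu, h1⟩, rfl⟩
      exact ⟨h1, u, hu, rfl⟩
  rw [this, finsum_mem_image ((A.e a).symm.injOn.mono fun u hu => hB hu.1)]
  refine finsum_mem_congr rfl fun u hu => ?_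
  rw [h.sgn_eq ((A.e a).map_target (hB hu.1)), (A.e a).right_inv (hB hu.1)]

variable [T2Space Q]

lemma step {G G' : Q → V} (h : A.Sm G) (h' : A.Sm G') {K : Set Q} (hK : IsCompact K) {η : ℝ}
    (hG : ∀ x, ‖G x‖ < η → x ∈ K) (hG' : ∀ x, ‖G' x‖ < η → x ∈ K) (a : Q) {c : V} {r : ℝ}
    (hr : 0 < r) (hc : closedBall c (3 * r) ⊆ (A.e a).target)
    (he : ∀ x, x ∉ (A.e a).symm '' closedBall c (3 / 2 * r) → G x = G' x) :
    ∀ᶠ y in aeV V, ‖y‖ < η → A.cnt G y = A.cnt G' y := by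
  have s1 : closedBall c (2 * r) ⊆ (A.e a).target :=
    (closedBall_subset_closedBall (by linarith)).trans hc
  have s2 : closedBall c (3 / 2 * r) ⊆ (A.e a).target :=
    (closedBall_subset_closedBall (by linarith)).trans hc
  have s3 : ball c (2 * r) ⊆ (A.e a).target := ball_subset_closedBall.trans s1
  have hC : IsClosed ((A.e a).symm '' closedBall c (3 / 2 * r)) :=
    ((isCompact_closedBall _ _).image_of_continuousOn
      ((A.e a).continuousOn_symm.mono s2)).isClosed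
  filter_upwards [h.sard hK, h'.sard hK, ae_notMem_sphere (G ∘ (A.e a).symm) c
    (r := 2 * r) (by positivity) fun u hu =>
      (h.tgt (s1 (sphere_subset_closedBall hu))).differentiableAt two_ne_zero] with y r1 r2 r3 hy
  have k1 : ∀ x, G x = y → x ∈ K := fun x hx => hG x (hx ▸ hy)
  have k2 : ∀ x, G' x = y → x ∈ K := fun x hx => hG' x (hx ▸ hy)
  have R1 : A.Reg G y := fun x hx => r1 x (k1 x hx) hx
  have R2 : A.Reg G' y := fun x hx => r2 x (k2 x hx) hx
  have f1 := h.finite R1 hK k1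
  have f2 := h'.finite R2 hK k2
  set B := (A.e a).symm '' ball c (2 * r) with hB
  have hCB : (A.e a).symm '' closedBall c (3 / 2 * r) ⊆ B :=
    image_mono (closedBall_subset_ball (by linarith))
  unfold cnt
  rw [← finsum_mem_inter_add_sdiff B f1, ← finsum_mem_inter_add_sdiff B f2, cnt_chart h a s3,
    cnt_chart h' a s3]
  congr 1
  · refine local_homotopy hr (fun u hu => h.tgt (hc hu)) (fun u hu => h'.tgt (hc hu))
      (fun u hu hu' => he _ ?_) r3 (fun u hu huy => ?_) (fun u hu huy => ?_)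
    · rintro ⟨v, hv, hvu⟩
      exact hu' ((A.e a).symm.injOn (s2 hv) (s3 hu) hvu ▸ hv)
    · have := R1 _ huy
      rwa [h.sgn_eq ((A.e a).map_target (s3 hu)), (A.e a).right_inv (s3 hu), sg_ne_zero] at this
    · have := R2 _ huy
      rwa [h'.sgn_eq ((A.e a).map_target (s3 hu)), (A.e a).right_inv (s3 hu), sg_ne_zero] at this
  · refine finsum_mem_congr ?_ fun x hx => sgn_congr ?_
    · ext x
      simp only [mem_diff, mem_preimage, mem_singleton_iff]
      refine and_congr_left fun hx => ?_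
      rw [he x fun h => hx (hCB h)]
    · filter_upwards [hC.isOpen_compl.mem_nhds fun h => hx.2 (hCB h)] with z hz using he z hz

lemma exists_bump (a : Q) {c : V} {r : ℝ} (hr : 0 < r)
    (hc : closedBall c (3 * r) ⊆ (A.e a).target) :
    ∃ χ : Q → ℝ, A.Sm χ ∧ (∀ x, χ x ∈ Icc (0 : ℝ) 1) ∧
      (∀ x, x ∉ (A.e a).symm '' closedBall c (3 / 2 * r) → χ x = 0) ∧
      ∀ x ∈ (A.e a).source, A.e a x ∈ ball c r → χ x = 1 := by
  classical
  let β : ContDiffBump c := ⟨r, 3 / 2 * r, hr, by linarith⟩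
  have s2 : closedBall c (3 / 2 * r) ⊆ (A.e a).target :=
    (closedBall_subset_closedBall (by linarith)).trans hc
  have hC : IsClosed ((A.e a).symm '' closedBall c (3 / 2 * r)) :=
    ((isCompact_closedBall _ _).image_of_continuousOn
      ((A.e a).continuousOn_symm.mono s2)).isClosed
  let χ : Q → ℝ := fun x => if x ∈ (A.e a).source then β (A.e a x) else 0
  have h0 : ∀ x, x ∉ (A.e a).symm '' closedBall c (3 / 2 * r) → χ x = 0 := by
    intro x hx
    simp only [χ]
    split_ifs with h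
    · refine β.zero_of_le_dist (le_of_not_ge fun h' => hx ⟨_, h', (A.e a).left_inv h⟩)
    · rfl
  refine ⟨χ, fun x => ?_, fun x => ?_, h0, fun x hx hb => ?_⟩
  · have h2 : Tendsto (A.e x).symm (𝓝 (A.e x x)) (𝓝 x) := by
      have := ((A.e x).continuousAt_symm ((A.e x).map_source (A.mem x))).tendsto
      rwa [(A.e x).left_inv (A.mem x)] at this
    by_cases hx : x ∈ (A.e a).source
    · refine (β.contDiff.contDiffAt.comp _ (A.sm x a x (A.mem x) hx)).congr_of_eventuallyEq ?_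
      filter_upwards [h2 ((A.e a).open_source.mem_nhds hx)] with u hu
      exact if_pos hu
    · refine (contDiffAt_const (c := (0 : ℝ))).congr_of_eventuallyEq ?_
      have : x ∉ (A.e a).symm '' closedBall c (3 / 2 * r) := by
        rintro ⟨u, hu, rfl⟩
        exact hx ((A.e a).map_target (s2 hu))
      filter_upwards [h2 (hC.isOpen_compl.mem_nhds this)] with u hu using h0 _ hu
  · simp only [χ]
    split_ifs
    · exact ⟨β.nonneg, β.le_one⟩
    · exact ⟨le_rfl, zero_le_one⟩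
  · simp only [χ]
    rw [if_pos hx]
    exact β.one_of_mem_closedBall (ball_subset_closedBall hb)

/-- Homotopy invariance. -/
theorem eqv_homotopy (H : ℝ → Q → V)
    (hH : ∀ t x, ContDiffAt ℝ 2 (fun p : ℝ × V => H p.1 ((A.e x).symm p.2)) (t, A.e x x))
    {K : Set Q} (hK : IsCompact K) {η : ℝ} (hη : 0 < η)
    (hK' : ∀ t ∈ Icc (0 : ℝ) 1, ∀ x, ‖H t x‖ < η → x ∈ K) : A.Eqv (H 0) (H 1) := by
  classical
  have hs : ∀ τ : Q → ℝ, A.Sm τ → A.Sm fun x => H (τ x) x := by
    intro τ hτ x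
    have h1 : ContDiffAt ℝ 2 (fun u => ((τ ∘ (A.e x).symm) u, u)) (A.e x x) :=
      (hτ x).prodMk contDiffAt_id
    have h2 := hH (τ x) x
    have h3 : ((τ ∘ (A.e x).symm) (A.e x x), A.e x x) = (τ x, A.e x x) := by
      simp [(A.e x).left_inv (A.mem x)]
    rw [← h3] at h2
    exact ContDiffAt.comp (g := fun p : ℝ × V => H p.1 ((A.e x).symm p.2))
      (f := fun u => ((τ ∘ (A.e x).symm) u, u)) _ h2 h1
  have hr : ∀ a : Q, ∃ r > 0, closedBall (A.e a a) (3 * r) ⊆ (A.e a).target := by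
    intro a
    obtain ⟨ε, hε, h⟩ := Metric.isOpen_iff.1 (A.e a).open_target _ ((A.e a).map_source (A.mem a))
    exact ⟨ε / 4, by positivity, (closedBall_subset_ball (by linarith)).trans h⟩
  choose r hr0 hr using hr
  let U : Q → Set Q := fun a => (A.e a).source ∩ A.e a ⁻¹' ball (A.e a a) (r a)
  have hU : ∀ a, IsOpen (U a) := fun a => (A.e a).isOpen_inter_preimage isOpen_ball
  obtain ⟨t, -, ht⟩ := hK.elim_nhds_subcover U
    fun x _ => (hU x).mem_nhds ⟨A.mem x, mem_ball_self (hr0 x)⟩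
  have main : ∀ s : Finset Q, ∃ τ : Q → ℝ, A.Sm τ ∧ (∀ x, τ x ∈ Icc (0 : ℝ) 1) ∧
      (∀ a ∈ s, ∀ x ∈ U a, τ x = 1) ∧
      ∀ᶠ y in aeV V, ‖y‖ < η → A.cnt (H 0) y = A.cnt (fun x => H (τ x) x) y := by
    intro s
    induction s using Finset.induction_on with
    | empty =>
      exact ⟨fun _ => 0, fun x => contDiffAt_const, fun _ => ⟨le_rfl, zero_le_one⟩, by simp,
        Eventually.of_forall fun _ _ => rfl⟩
    | insert a s _ ih =>
      obtain ⟨τ, h1, h2, h3, h4⟩ := ih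
      obtain ⟨χ, c1, c2, c3, c4⟩ := exists_bump a (hr0 a) (hr a)
      have h5 : A.Sm fun x => τ x + χ x * (1 - τ x) := fun x =>
        (h1 x).add ((c1 x).mul (contDiffAt_const.sub (h1 x)))
      have h6 : ∀ x, τ x + χ x * (1 - τ x) ∈ Icc (0 : ℝ) 1 := fun x => by
        obtain ⟨a1, a2⟩ := h2 x
        obtain ⟨b1, b2⟩ := c2 x
        constructor <;> nlinarith
      refine ⟨_, h5, h6, fun b hb x hx => ?_, ?_⟩
      · rcases Finset.mem_insert.1 hb with rfl | hb
        · rw [c4 x hx.1 hx.2]; ring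
        · rw [h3 b hb x hx]; ring
      · filter_upwards [h4, step (hs _ h1) (hs _ h5) hK (fun x => hK' _ (h2 x) x)
          (fun x => hK' _ (h6 x) x) a (hr0 a) (hr a) fun x hx => by
            simp only [c3 x hx, zero_mul, add_zero]] with y e1 e2 hy
        exact (e1 hy).trans (e2 hy)
  obtain ⟨τ, h1, h2, h3, h4⟩ := main t
  have ev : ∀ x ∈ K, (fun x => H (τ x) x) =ᶠ[𝓝 x] H 1 := by
    intro x hx
    obtain ⟨a, ha, hxa⟩ := mem_iUnion₂.1 (ht hx)
    filter_upwards [(hU a).mem_nhds hxa] with z hz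
    rw [h3 a ha z hz]
  have hb : ∀ᶠ y in 𝓝 (0 : V), ‖y‖ < η := by
    filter_upwards [ball_mem_nhds (0 : V) hη] with y hy using mem_ball_zero_iff.1 hy
  filter_upwards [mem_inf_of_left hb, mem_inf_of_right h4] with y hy e1
  rw [e1 hy]
  refine finsum_mem_congr ?_ fun x hx => sgn_congr (ev x (hK' 1 ⟨zero_le_one, le_rfl⟩ x ?_))
  · ext x
    simp only [mem_preimage, mem_singleton_iff]
    constructor
    · intro h
      exact (ev x (hK' _ (h2 x) x (by rw [h]; exact hy))).self_of_nhds.symm.trans h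
    · intro h
      exact (ev x (hK' 1 ⟨zero_le_one, le_rfl⟩ x (by rw [h]; exact hy))).self_of_nhds.trans h
  · rw [show H 1 x = y from hx]
    exact hy

/-- Local constancy of the signed count at a regular value. -/
theorem cnt_eventually {G : Q → V} (h : A.Sm G) (hr : A.Reg G 0) {K : Set Q} (hK : IsCompact K)
    {η : ℝ} (hη : 0 < η) (hK' : ∀ x, ‖G x‖ < η → x ∈ K) :
    ∀ᶠ y in 𝓝 (0 : V), A.cnt G y = A.cnt G 0 := by
  classical
  have hfin := h.finite hr hK fun x hx => hK' x (by simpa [hx] using hη)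
  obtain ⟨O, hO, hOd⟩ := hfin.t2_separation
  have h1 : ∀ x : G ⁻¹' {0}, ∃ U, IsOpen U ∧ x.1 ∈ U ∧ U ⊆ O x ∧ InjOn G U ∧ G '' U ∈ 𝓝 (0 : V) ∧
      ∀ z ∈ U, A.sgn G z = A.sgn G x := by
    rintro ⟨x, hx⟩
    set g := G ∘ (A.e x).symm with hg
    have hd : (fderiv ℝ g (A.e x x)).det ≠ 0 := sg_ne_zero.1 (hr x hx)
    let L : V ≃L[ℝ] V := (fderiv ℝ g (A.e x x)).toContinuousLinearEquivOfDetNeZero hd
    have hs : HasStrictFDerivAt g (L : V →L[ℝ] V) (A.e x x) := by
      simpa [L] using (h x).hasStrictFDerivAt two_ne_zero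
    have hc : ContinuousAt (fun u => (fderiv ℝ g u).det) (A.e x x) :=
      ContinuousLinearMap.continuous_det.continuousAt.comp
        ((h x).fderiv_right (m := 1) (by norm_num)).continuousAt
    have e1 : ∀ᶠ u in 𝓝 (A.e x x), sg (fderiv ℝ g u) = sg (fderiv ℝ g (A.e x x)) := by
      rcases lt_or_gt_of_ne hd with h' | h'
      · filter_upwards [hc.eventually_lt continuousAt_const h'] with u hu
        simp [sg, sign_neg h', sign_neg hu]
      · filter_upwards [continuousAt_const.eventually_lt hc h'] with u hu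
        simp [sg, sign_pos h', sign_pos hu]
    have e2 : (hs.toOpenPartialHomeomorph g).source ∈ 𝓝 (A.e x x) :=
      (hs.toOpenPartialHomeomorph g).open_source.mem_nhds hs.mem_toOpenPartialHomeomorph_source
    have e3 := (A.e x).continuousAt (A.mem x) (inter_mem e1 e2)
    obtain ⟨U, hU, hUo, hxU⟩ := _root_.mem_nhds_iff.1 (inter_mem (inter_mem e3
      ((A.e x).open_source.mem_nhds (A.mem x))) ((hO x).2.mem_nhds (hO x).1))
    have gG : ∀ z ∈ U, g (A.e x z) = G z := fun z hz => by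
      simp [hg, (A.e x).left_inv (hU hz).1.2]
    refine ⟨U, hUo, hxU, fun z hz => (hU hz).2, fun z hz w hw hzw => ?_, ?_, fun z hz => ?_⟩
    · refine (A.e x).injOn (hU hz).1.2 (hU hw).1.2 ?_
      refine (hs.toOpenPartialHomeomorph g).injOn (hU hz).1.1.2 (hU hw).1.1.2 ?_
      change g _ = g _
      rw [gG z hz, gG w hw, hzw]
    · have e4 : A.e x '' U ∈ 𝓝 (A.e x x) :=
        (A.e x).image_mem_nhds (A.mem x) (hUo.mem_nhds hxU)
      have e5 := image_mem_map (m := g) e4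
      rw [hs.map_nhds_eq_of_equiv, gG x hxU, show G x = 0 from hx] at e5
      refine mem_of_superset e5 ?_
      rintro _ ⟨_, ⟨z, hz, rfl⟩, rfl⟩
      exact ⟨z, hz, (gG z hz).symm⟩
    · rw [h.sgn_eq (hU hz).1.2]
      exact (hU hz).1.1.1
  choose U hUo hxU hUO hUi hUn hUs using h1
  haveI := hfin.to_subtype
  have hc : IsCompact (K \ ⋃ x, U x) := hK.diff (isOpen_iUnion hUo)
  have h2 : (G '' (K \ ⋃ x, U x))ᶜ ∈ 𝓝 (0 : V) := by
    refine (hc.image h.continuous).isClosed.isOpen_compl.mem_nhds ?_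
    rintro ⟨y, hy, hyz⟩
    exact hy.2 (mem_iUnion.2 ⟨⟨y, hyz⟩, hxU _⟩)
  filter_upwards [h2, iInter_mem.2 hUn, ball_mem_nhds (0 : V) hη] with y y1 y2 y3
  choose w hw hw' using fun x => mem_iInter.1 y2 x
  have : G ⁻¹' {y} = range w := by
    ext z
    constructor
    · intro hz
      have hz' : G z = y := hz
      have hzK := hK' z (by rw [hz']; exact mem_ball_zero_iff.1 y3)
      by_cases hzU : z ∈ ⋃ x, U x
      · obtain ⟨x, hx⟩ := mem_iUnion.1 hzU
        exact ⟨x, hUi x (hw x) hx ((hw' x).trans hz'.symm)⟩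
      · exact absurd ⟨z, ⟨hzK, hzU⟩, hz'⟩ y1
    · rintro ⟨x, rfl⟩
      exact hw' x
  have inj : Injective w := by
    intro x x' hx
    by_contra hne
    exact Set.disjoint_left.1 (hOd x.2 x'.2 fun h => hne (Subtype.ext h)) (hUO x (hw x))
      (hx ▸ hUO x' (hw x'))
  unfold cnt
  rw [this, finsum_mem_range inj, ← finsum_set_coe_eq_finsum_mem]
  exact finsum_congr fun x => hUs x _ (hw x)

theorem Eqv.cnt_eq {G G' : Q → V} (e : A.Eqv G G') (h : A.Sm G) (h' : A.Sm G') (hr : A.Reg G 0)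
    (hr' : A.Reg G' 0) {K K' : Set Q} (hK : IsCompact K) (hK' : IsCompact K') {η η' : ℝ}
    (hη : 0 < η) (hη' : 0 < η') (k : ∀ x, ‖G x‖ < η → x ∈ K) (k' : ∀ x, ‖G' x‖ < η' → x ∈ K') :
    A.cnt G 0 = A.cnt G' 0 := by
  have h1 := cnt_eventually h hr hK hη k
  have h2 := cnt_eventually h' hr' hK' hη' k'
  obtain ⟨y, a, b, c⟩ := exists_of_ae (e.and ((h1.and h2).filter_mono inf_le_left))
  rw [← b, a, c]

/-- Homotopy invariance between two maps having zero as a regular value. -/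
theorem cnt_homotopy (H : ℝ → Q → V)
    (hH : ∀ t x, ContDiffAt ℝ 2 (fun p : ℝ × V => H p.1 ((A.e x).symm p.2)) (t, A.e x x))
    {K : Set Q} (hK : IsCompact K) {η : ℝ} (hη : 0 < η)
    (hK' : ∀ t ∈ Icc (0 : ℝ) 1, ∀ x, ‖H t x‖ < η → x ∈ K) (r₀ : A.Reg (H 0) 0)
    (r₁ : A.Reg (H 1) 0) : A.cnt (H 0) 0 = A.cnt (H 1) 0 := by
  have hs : ∀ t, A.Sm (H t) := fun t x =>
    (hH t x).comp (A.e x x) (contDiffAt_const.prodMk contDiffAt_id)
  exact (eqv_homotopy H hH hK hη hK').cnt_eq (hs 0) (hs 1) r₀ r₁ hK hK hη hη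
    (hK' 0 ⟨le_rfl, zero_le_one⟩) (hK' 1 ⟨zero_le_one, le_rfl⟩)

end Atl

end Pool.Agent.Lib.MP_029589_gt
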