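import Pool.Agent.Lib.MP_029589_gt.Defs
import Pool.Agent.Lib.MP_029589_gt.DegB

/-! Differentials in the preferred charts, signed counts, and determinant lemmas. -/

set_option autoImplicit false

open scoped Manifold ContDiff Topology
open Set Filter

namespace Pool.Agent.Lib.MP_029589_gt

/-- The differential in the preferred charts. -/
noncomputable def md (V W : Type) [NormedAddCommGroup V] [NormedSpace ℝ V] [NormedAddCommGroup W]
    [NormedSpace ℝ W] {M N : Type} [TopologicalSpace M] [ChartedSpace V M] [TopologicalSpace N]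
    [ChartedSpace W N] (f : M → N) (x : M) : V →L[ℝ] W := mfderiv 𝓘(ℝ, V) 𝓘(ℝ, W) f x

variable {V W U : Type} [NormedAddCommGroup V] [NormedSpace ℝ V] [NormedAddCommGroup W]
  [NormedSpace ℝ W] [NormedAddCommGroup U] [NormedSpace ℝ U]
  {M N P : Type} [TopologicalSpace M] [ChartedSpace V M] [TopologicalSpace N] [ChartedSpace W N]
  [TopologicalSpace P] [ChartedSpace U P]

lemma md_comp {g : N → P} {f : M → N} {x : M} (hg : MDifferentiableAt 𝓘(ℝ, W) 𝓘(ℝ, U) g (f x))
    (hf : MDifferentiableAt 𝓘(ℝ, V) 𝓘(ℝ, W) f x) :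
    md V U (g ∘ f) x = (md W U g (f x)).comp (md V W f x) := mfderiv_comp x hg hf

lemma md_eq_fderiv (f : V → W) (x : V) : md V W f x = fderiv ℝ f x := mfderiv_eq_fderiv

lemma md_congr {f g : M → N} {x : M} (h : f =ᶠ[𝓝 x] g) : md V W f x = md V W g x :=
  h.mfderiv_eq

lemma md_id (x : M) : md V V (id : M → M) x = ContinuousLinearMap.id ℝ V := mfderiv_id

lemma md_chart_self [IsManifold 𝓘(ℝ, V) ∞ M] (x : M) :
    md V V (extChartAt 𝓘(ℝ, V) x) x = ContinuousLinearMap.id ℝ V := mfderiv_extChartAt_self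

lemma extChart_coe (x : M) : ⇑(extChartAt 𝓘(ℝ, V) x) = chartAt V x := by simp

lemma md_clm_comp {f : M → W} {x : M} (hf : MDifferentiableAt 𝓘(ℝ, V) 𝓘(ℝ, W) f x)
    {g : W → U} (hg : DifferentiableAt ℝ g (f x)) :
    md V U (g ∘ f) x = (fderiv ℝ g (f x)).comp (md V W f x) := by
  rw [md_comp hg.mdifferentiableAt hf, md_eq_fderiv]

/-- The Jacobian determinant of a map to the model space. -/
noncomputable def jd (G : M → V) (x : M) : ℝ := (md V V G x).det

/-- Orientations. -/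
def Ori (V : Type) [NormedAddCommGroup V] [NormedSpace ℝ V] {M : Type} [TopologicalSpace M]
    [ChartedSpace V M] (o : M → ℝ) : Prop :=
  (∀ x, o x = 1 ∨ o x = -1) ∧ ∀ x, ∀ᶠ y in 𝓝 x, 0 < o x * o y * jd (extChartAt 𝓘(ℝ, V) x) y

/-- Regular values. -/
def Reg (O : Set M) (G : M → V) (z : V) : Prop := ∀ x ∈ O, G x = z → jd G x ≠ 0

/-- The signed number of preimages. -/
noncomputable def cnt (o : M → ℝ) (O : Set M) (G : M → V) (z : V) : ℝ :=
  ∑ᶠ x ∈ {x | x ∈ O ∧ G x = z}, o x * (SignType.sign (jd G x) : ℝ)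

lemma det_comp' (A B : V →L[ℝ] V) : (A.comp B).det = A.det * B.det := LinearMap.det_comp _ _

lemma det_conj' (A : V →L[ℝ] V) (e : V ≃L[ℝ] W) :
    ((e : V →L[ℝ] W).comp (A.comp (e.symm : W →L[ℝ] V))).det = A.det :=
  LinearMap.det_conj (A : V →ₗ[ℝ] V) e.toLinearEquiv

lemma det_ne_zero_iff [FiniteDimensional ℝ V] (A : V →L[ℝ] V) :
    A.det ≠ 0 ↔ Function.Injective A := by
  rw [ne_eq, LinearMap.det_eq_zero_iff_ker_ne_bot, not_not]
  exact LinearMap.ker_eq_bot

lemma det_tri [FiniteDimensional ℝ V] [FiniteDimensional ℝ W] (T : V × W →L[ℝ] V × W)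
    (A : V →L[ℝ] V) (B : W →L[ℝ] W) (h1 : ∀ a, T (a, 0) = (A a, 0))
    (h2 : ∀ b, (T (0, b)).2 = B b) : T.det = A.det * B.det := by
  classical
  let b := Module.finBasis ℝ V
  let c := Module.finBasis ℝ W
  let C : W →ₗ[ℝ] V := LinearMap.fst ℝ V W ∘ₗ (T : V × W →ₗ[ℝ] V × W) ∘ₗ LinearMap.inr ℝ V W
  have : LinearMap.toMatrix (b.prod c) (b.prod c) (T : V × W →ₗ[ℝ] V × W) =
      Matrix.fromBlocks (LinearMap.toMatrix b b A) (LinearMap.toMatrix c b C) 0
        (LinearMap.toMatrix c c B) := by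
    ext (i | i) (j | j) <;> simp [LinearMap.toMatrix_apply, h1, h2, C]
  rw [ContinuousLinearMap.det, ← LinearMap.det_toMatrix (b.prod c), this,
    Matrix.det_fromBlocks_zero₂₁, LinearMap.det_toMatrix, LinearMap.det_toMatrix]

lemma det_tri' [FiniteDimensional ℝ V] [FiniteDimensional ℝ W] (T : V × W →L[ℝ] V × W)
    (A : V →L[ℝ] V) (B : W →L[ℝ] W) (h1 : ∀ a, (T (a, 0)).1 = A a)
    (h2 : ∀ b, T (0, b) = (0, B b)) : T.det = A.det * B.det := by
  rw [← det_conj' T (ContinuousLinearEquiv.prodComm ℝ V W), mul_comm]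
  refine det_tri _ B A (fun a => ?_) fun b => ?_
  · simp [h2]
  · simp [h1]

lemma sign_mul_pos {c : ℝ} (hc : 0 < c) (a : ℝ) : SignType.sign (c * a) = SignType.sign a := by
  rw [sign_mul, sign_pos hc, one_mul]

end Pool.Agent.Lib.MP_029589_gt
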