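import Pool.Agent.Lib.MP_029589_gt.EbdE

/-! Smoothing of the function on the etale space over the nilmanifold. -/

set_option autoImplicit false

open scoped Manifold ContDiff Topology
open Set Filter Function Topology

namespace Pool.Agent.Lib.MP_029589_gt.Eb

section Rep

variable {P Y F E : Type} [TopologicalSpace P] [TopologicalSpace Y] [TopologicalSpace F]
  {ϖ : P → Y} {π : F → Y} {f : F → E} {e : F} {g : P} {φ : P → E}

lemma sec_cont (loc : IsLocalHomeomorph π) (hϖ : Continuous ϖ) (he : ϖ g = π e) :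
    ContinuousAt (loc.localInverseAt e ∘ ϖ) g ∧ (loc.localInverseAt e ∘ ϖ) g = e ∧
      π ∘ loc.localInverseAt e ∘ ϖ =ᶠ[𝓝 g] ϖ := by
  have h1 : ϖ g ∈ (loc.localInverseAt e).source := he ▸ loc.apply_self_mem_localInverseAt_source
  refine ⟨((loc.localInverseAt e).continuousAt h1).comp hϖ.continuousAt, by simp [he], ?_⟩
  filter_upwards [hϖ.continuousAt.eventually ((loc.localInverseAt e).open_source.mem_nhds h1)]
    with u hu using loc.apply_localInverseAt_of_mem hu

lemma Rep.eq (h : Rep ϖ π f e g φ) (loc : IsLocalHomeomorph π) (hϖ : Continuous ϖ)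
    (he : ϖ g = π e) : f ∘ loc.localInverseAt e ∘ ϖ =ᶠ[𝓝 g] φ := by
  obtain ⟨h1, h2, h3⟩ := sec_cont loc hϖ he
  have h4 : Tendsto (fun u => (u, (loc.localInverseAt e ∘ ϖ) u)) (𝓝 g) (𝓝 (g, e)) := by
    simpa only [ContinuousAt, h2, id] using continuousAt_id.prodMk h1
  filter_upwards [h4.eventually h, h3] with u h5 h6 using h5 h6.symm

lemma rep_self (loc : IsLocalHomeomorph π) : Rep ϖ π f e g (f ∘ loc.localInverseAt e ∘ ϖ) := by
  filter_upwards [continuousAt_snd.eventually ((loc.localInverseAt e).open_target.mem_nhds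
    loc.self_mem_localInverseAt_target)] with z h1 h2
  have := (loc.localInverseAt e).right_inv h1
  rw [IsLocalHomeomorph.localInverseAt_symm, ← h2] at this
  exact congrArg f this.symm

end Rep

lemma gf_smooth (x : Gf) : ContMDiff 𝓘(ℝ, GR) 𝓘(ℝ, GR) ∞ fun u : GR => x • u :=
  (contDiff_gf x).contMDiff

lemma sec_ld {F : Type} [TopologicalSpace F] [ChartedSpace GR F] {π : F → BB}
    (loc : IsLocalHomeomorph π) (h : ∀ e, LD GR π e) {e : F} {g : GR} (he : qm Gf g = π e) :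
    LD GR (loc.localInverseAt e ∘ qm Gf) g := by
  obtain ⟨h1, -, h3⟩ := sec_cont loc (qm_cov GR Gf).continuous he
  exact LD.lift h1 (h _) ((qm_ld gf_smooth g).congr h3)

theorem exists_smooth : ∃ (X : Pre BB) (c : ℝ), 0 < c ∧ IsCompact {e | ‖X.f e‖ ≤ 1} ∧
    (∀ e (g : GR), qm Gf g = X.π e →
      ContDiffAt ℝ ∞ (X.f ∘ X.loc.localInverseAt e ∘ qm Gf) g) ∧
    (∀ e (g : GR), g.2 = 0 → qm Gf g = X.π e →
      ∃ α, Rep (qm Gf) X.π X.f e g fun g' => X.f e + c • lam α (g'.1 - g.1)) ∧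
    ∀ α : Fin 4, α = 0 ∨ α = 1 → ∃ e, qm Gf (0 : GR) = X.π e ∧ X.f e = 0 ∧
      Rep (qm Gf) X.π X.f e (0 : GR) fun g' => c • lam α g'.1 := by
  obtain ⟨X, h1, h2, h3⟩ := exists_pre
  have hq := (qm_cov GR Gf).continuous
  have := qm_manifold gf_smooth
  have : LocallyCompactSpace X.F := by
    obtain ⟨_, -, -⟩ := exists_pull (V := GR) X.loc
    exact ChartedSpace.locallyCompactSpace GR X.F
  obtain ⟨ρ, r1, -, r2, -⟩ := exists_continuous_one_zero_of_isCompact h1 isClosed_empty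
    (disjoint_empty _)
  have hO : IsOpen {e | 0 < ρ e} := isOpen_lt continuous_const ρ.continuous
  have hK : {e | 0 < ρ e} ⊆ tsupport ρ := fun e he => subset_tsupport _ (ne_of_gt he)
  obtain ⟨η, hη, r3⟩ := (r2.isCompact.inter_right (isClosed_le ρ.continuous
    (continuous_const (y := 0)))).exists_forall_le' X.cf.norm.continuousOn (a := 0)
    fun e he => norm_pos_iff.2 fun h => by linarith [show ρ e = 1 from r1 h, show ρ e ≤ 0 from he.2]
  let Y := X.res _ hO
  have : SigmaCompactSpace Y.F := isSigmaCompact_iff_sigmaCompactSpace.1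
    ⟨fun n => {e | 1 / ((n : ℝ) + 1) ≤ ρ e}, fun n => r2.isCompact.of_isClosed_subset
      (isClosed_le continuous_const ρ.continuous) fun e he =>
        hK (show 0 < ρ e from Nat.one_div_pos_of_nat.trans_le he),
      Set.ext fun e => mem_iUnion.trans ⟨fun ⟨n, hn⟩ =>
        show 0 < ρ e from Nat.one_div_pos_of_nat.trans_le hn,
        fun he => (exists_nat_one_div_lt (show 0 < ρ e from he)).imp fun n hn => hn.le⟩⟩
  obtain ⟨_, _, hld⟩ := exists_pull (V := GR) Y.loc
  have hN : IsClosed (Ht (Icc (-1 / 8) (1 / 8))) := by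
    refine (IsCompact.image ?_ qc_loc.continuous).isClosed
    rw [← univ_prod]
    exact isCompact_univ.prod isCompact_Icc
  have hR : ∀ {e : Y.F} {g : GR} {φ : GR → ℂ}, Rep (qm Gf) X.π X.f e.1 g φ →
      Rep (qm Gf) Y.π Y.f e g φ := fun {e g φ} h =>
    ((continuous_id.prodMap continuous_subtype_val).tendsto (g, e)).eventually h
  obtain ⟨f', hf⟩ := exists_contMDiffMap_forall_mem_convex_of_local (n := ⊤) 𝓘(ℝ, GR)
    (t := fun e : Y.F => Metric.ball (Y.f e) (η / 3) ∩
      {y | Y.π e ∈ Ht (Icc (-1 / 8) (1 / 8)) → y = Y.f e})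
    (fun e => (convex_ball _ _).inter (by
      by_cases h : Y.π e ∈ Ht (Icc (-1 / 8) (1 / 8)) <;> simp [-one_div, h, convex_univ]))
    fun e => by
      by_cases h : Y.π e ∈ Ht (Ioo (-1 / 4) (1 / 4))
      · refine ⟨_, ((Ht_open isOpen_Ioo).preimage Y.loc.continuous).mem_nhds h, Y.f, ?_,
          fun y _ => ⟨Metric.mem_ball_self (by linarith), fun _ => rfl⟩⟩
        rintro y ⟨⟨b, t⟩, ht, hy⟩
        obtain ⟨x, rfl⟩ := w8_oq.surjective b
        have hy' := (qc_w8 (x, t)).symm.trans hy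
        obtain ⟨α, hα⟩ := h2 y.1 (x, t) ht hy'
        have := (sec_ld Y.loc hld hy').desc (G := Y.f) (W := ℂ) (ContDiffAt.contMDiffAt
          (ContDiffAt.congr_of_eventuallyEq (by fun_prop) ((hR hα).eq Y.loc hq hy')))
        rw [(sec_cont Y.loc hq hy').2.1] at this
        exact this.contMDiffWithinAt
      · refine ⟨_, inter_mem ((hN.isOpen_compl.preimage Y.loc.continuous).mem_nhds
          fun a => h (Ht_mono (Icc_subset_Ioo (by norm_num) (by norm_num)) a))
          (Y.cf.continuousAt.preimage_mem_nhds (Metric.ball_mem_nhds _ (show 0 < η / 3 by linarith))),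
          fun _ => Y.f e, contMDiffOn_const, fun y hy => ⟨Metric.mem_ball_comm.1 hy.2,
            fun a => absurd a hy.1⟩⟩
  have hc : 0 < (η / 3)⁻¹ := by positivity
  have key : ∀ (e : Y.F) (g : GR) (φ : GR → ℂ), g.2 = 0 → qm Gf g = Y.π e →
      Rep (qm Gf) X.π X.f e.1 g φ → f' e = Y.f e ∧
      Rep (qm Gf) Y.π (fun e => (η / 3)⁻¹ • f' e) e g fun g' => (η / 3)⁻¹ • φ g' := by
    intro e g φ hg he h
    have a : Y.π e ∈ Ht (Ioo (-1 / 8) (1 / 8)) :=
      ⟨(w8 g.1, g.2), show g.2 ∈ Ioo _ _ by rw [hg]; norm_num, (qc_w8 g).trans he⟩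
    refine ⟨(hf e).2 (Ht_mono Ioo_subset_Icc_self a), ?_⟩
    filter_upwards [hR h, ((Ht_open isOpen_Ioo).preimage
      (Y.loc.continuous.comp continuous_snd)).mem_nhds (show (g, e) ∈ _ from a)] with z h4 h5 h6
    rw [(hf z.2).2 (Ht_mono Ioo_subset_Icc_self h5), h4 h6]
  have hf' : Continuous fun e => (η / 3)⁻¹ • f' e := f'.contMDiff.continuous.const_smul (η / 3)⁻¹
  refine ⟨⟨Y.F, Y.π, Y.loc, _, hf'⟩,
    (η / 3)⁻¹, hc, ?_, fun e g he => ?_, fun e g hg he => ?_, fun α hα => ?_⟩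
  · refine (cpt_val (O := {e | 0 < ρ e}) (r2.isCompact.inter_right (isClosed_le X.cf.norm
      (continuous_const (y := 2 * η / 3)))) fun e he =>
        show 0 < ρ e from not_le.1 fun a => ?_).of_isClosed_subset
      (isClosed_le hf'.norm continuous_const)
      fun e he => ⟨hK e.2, ?_⟩
    · linarith [r3 e ⟨he.1, a⟩, show ‖X.f e‖ ≤ 2 * η / 3 from he.2]
    · have a : ‖f' e‖ ≤ η / 3 := by
        have : ‖(η / 3)⁻¹ • f' e‖ ≤ 1 := he
        rwa [norm_smul, Real.norm_of_nonneg hc.le, inv_mul_le_iff₀ (by linarith), mul_one] at this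
      have b := mem_ball_iff_norm.1 (hf e).1
      have c := norm_sub_norm_le (Y.f e) (f' e)
      rw [norm_sub_rev] at c
      change ‖Y.f e‖ ≤ _
      linarith
  · exact (contMDiffAt_iff_contDiffAt.1 ((f'.contMDiff _).comp g
      (sec_ld Y.loc hld he).contMDiffAt)).const_smul _
  · obtain ⟨α, hα⟩ := h2 e.1 g (by rw [hg]; norm_num) he
    obtain ⟨a, b⟩ := key e g _ hg he hα
    exact ⟨α, by simpa only [smul_add, a] using b⟩
  · obtain ⟨e, a, b, c⟩ := h3 α hα
    obtain ⟨d, d'⟩ := key ⟨e, show 0 < ρ e by rw [r1 b]; exact one_pos⟩ 0 _ rfl a c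
    exact ⟨_, a, by simp only [d.trans b, smul_zero], d'⟩

end Pool.Agent.Lib.MP_029589_gt.Eb
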