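import Pool.Agent.Lib.MP_029589_gt.Et
import Pool.Agent.Lib.MP_029589_gt.EbdF

/-! JOB E: the etale multivalued map. -/

set_option autoImplicit false

open scoped Manifold ContDiff Topology
open Set Filter Function Topology

namespace Pool.Agent.Lib.MP_029589_gt

namespace Eb

/-- The identification of two complex numbers with a point of four-space. -/
noncomputable def c4 : ℂ × ℂ →L[ℝ] Euc 4 :=
  LinearMap.toContinuousLinearMap
    { toFun := fun z => !₂[z.1.re, z.1.im, z.2.re, z.2.im]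
      map_add' := fun z w => by ext i; fin_cases i <;> simp
      map_smul' := fun c z => by ext i; fin_cases i <;> simp }

lemma c4_apply (z : ℂ × ℂ) : c4 z = !₂[z.1.re, z.1.im, z.2.re, z.2.im] := rfl

lemma c4_le {z : ℂ × ℂ} (h : ‖c4 z‖ ≤ 1) : ‖z.1‖ ≤ 1 ∧ ‖z.2‖ ≤ 1 := by
  have h1 : ‖c4 z‖ ^ 2 = ‖z.1‖ ^ 2 + ‖z.2‖ ^ 2 := by
    rw [EuclideanSpace.real_norm_sq_eq, Complex.sq_norm, Complex.sq_norm]
    simp [c4_apply, Fin.sum_univ_four, Complex.normSq_apply, sq, add_assoc]
  constructor <;> nlinarith [norm_nonneg z.1, norm_nonneg z.2, norm_nonneg (c4 z)]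

/-- The inclusion of the four directions as a linear map. -/
noncomputable def ioL : Euc 4 →L[ℝ] GR :=
  LinearMap.toContinuousLinearMap
    { toFun := tor fun u => u
      map_add' := fun z w => Prod.ext (by ext i; fin_cases i <;> simp [tor, io]) (by simp [tor])
      map_smul' := fun c z => Prod.ext (by ext i; fin_cases i <;> simp [tor, io]) (by simp [tor]) }

lemma fderiv_tor (u : Euc 4) : fderiv ℝ (tor fun u => u) u = ioL := ioL.fderiv

/-- The differential on a pair of sheets. -/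
noncomputable def dd (c : ℝ) (α β : Fin 4) : GR →L[ℝ] Euc 4 :=
  c4.comp (((c • lam α).prod (c • lam β)).comp (ContinuousLinearMap.fst ℝ _ _))

lemma det_dd (c : ℝ) (α β : Fin 4) : ((dd c α β).comp ioL).det =
    if (α = 0 ∧ β = 1) ∨ (α = 1 ∧ β = 0) then -7 * c ^ 4 else 0 := by
  rw [ContinuousLinearMap.det, ← LinearMap.det_toMatrix (EuclideanSpace.basisFun (Fin 4) ℝ).toBasis]
  have : LinearMap.toMatrix (EuclideanSpace.basisFun (Fin 4) ℝ).toBasis
      (EuclideanSpace.basisFun (Fin 4) ℝ).toBasis ((dd c α β).comp ioL : Euc 4 →L[ℝ] Euc 4) =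
      Matrix.of ![fun j => c * (cA α * io (Pi.single j 1) (iA α)), fun j => c * io (Pi.single j 1) (jA α),
        fun j => c * (cA β * io (Pi.single j 1) (iA β)), fun j => c * io (Pi.single j 1) (jA β)] := by
    ext i j
    fin_cases i <;>
      simp [LinearMap.toMatrix_apply, dd, c4_apply, ioL, tor, lam_re, lam_im]
  rw [this]
  fin_cases α <;> fin_cases β <;>
    simp [Matrix.det_succ_row_zero, Fin.sum_univ_succ, cA, iA, jA, io, Fin.succAbove] <;> ring

lemma Rep.pair {F : Type} [TopologicalSpace F] {π : F → BB} {f : F → ℂ} {z : Pb π π} {g : GR}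
    {φ ψ : GR → ℂ} (h : Rep (qm Gf) π f z.1.1 g φ) (h' : Rep (qm Gf) π f z.1.2 g ψ) :
    Rep (qm Gf) (fun z : Pb π π => π z.1.1) (fun z => c4 (f z.1.1, f z.1.2)) z g
      fun u => c4 (φ u, ψ u) := by
  filter_upwards [((continuous_id.prodMap continuous_subtype_val.fst).tendsto (g, z)).eventually h,
    ((continuous_id.prodMap continuous_subtype_val.snd).tendsto (g, z)).eventually h']
    with w h1 h2 h3
  exact congrArg c4 (Prod.ext (h1 h3) (h2 (h3.trans w.2.2)))

end Eb

open Eb hiding lam Rep in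
theorem exists_et : ∃ D : Et 4 (qm Gf : GR → BB), D.Pos := by
  obtain ⟨X, c, hc, h1, h2, h3, h4⟩ := exists_smooth
  have hq := (qm_cov GR Gf).continuous
  have hπ := X.loc.continuous
  have loc : IsLocalHomeomorph fun z : Pb X.π X.π => X.π z.1.1 := X.loc.comp (pb_loc hπ X.loc)
  have hf : Continuous fun z : Pb X.π X.π => c4 (X.f z.1.1, X.f z.1.2) := by
    have := X.cf
    fun_prop
  let D : Et 4 (qm Gf : GR → BB) :=
    { F := Pb X.π X.π
      π := fun z => X.π z.1.1
      loc := loc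
      f := fun z => c4 (X.f z.1.1, X.f z.1.2)
      sm := fun z g hg => (c4.contDiff.contDiffAt.comp g ((h2 _ g hg).prodMk
        (h2 _ g (hg.trans z.2)))).congr_of_eventuallyEq
        (((rep_self X.loc).pair (rep_self X.loc)).eq loc hq hg)
      prop := fun K hK => (hK.prod ((isClosed_eq (hπ.comp continuous_fst) (hπ.comp continuous_snd)
        ).isClosedEmbedding_subtypeVal.isCompact_preimage (h1.prod h1))).of_isClosed_subset
        ((hK.isClosed.preimage continuous_fst).inter ((isClosed_eq (hq.comp continuous_fst)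
          (loc.continuous.comp continuous_snd)).inter
          (isClosed_le (hf.comp continuous_snd).norm continuous_const)))
        fun z hz => ⟨hz.1, c4_le hz.2.2⟩ }
  have key : ∀ (z : D.F) (g : GR) (α β : Fin 4) (a b : ℂ), qm Gf g = D.π z →
      Eb.Rep (qm Gf) X.π X.f z.1.1 g (fun u => a + c • Eb.lam α (u.1 - g.1)) →
      Eb.Rep (qm Gf) X.π X.f z.1.2 g (fun u => b + c • Eb.lam β (u.1 - g.1)) →
      D.df z g = dd c α β := by
    intro z g α β a b hg ha hb
    refine ((ha.pair hb).eq loc hq hg).fderiv_eq.trans (HasFDerivAt.fderiv ?_)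
    refine (((dd c α β).hasFDerivAt (x := g)).const_add (c4 (a, b) - dd c α β g)
      ).congr_of_eventuallyEq (Eventually.of_forall fun u => ?_)
    simp only
    rw [sub_add_eq_add_sub, add_sub_assoc, ← map_sub]
    exact c4.map_add (a, b) (c • Eb.lam α (u.1 - g.1), c • Eb.lam β (u.1 - g.1))
  refine ⟨D, -1, fun u z hz _ => ?_, ?_⟩
  · obtain ⟨α, hα⟩ := h3 z.1.1 _ rfl hz
    obtain ⟨β, hβ⟩ := h3 z.1.2 _ rfl (hz.trans z.2)
    rw [key z _ α β _ _ hz hα hβ, fderiv_tor, det_dd]
    split_ifs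
    · have := pow_pos hc 4
      linarith
    · simp
  · obtain ⟨e, a1, a2, a3⟩ := h4 0 (Or.inl rfl)
    obtain ⟨e', b1, b2, b3⟩ := h4 1 (Or.inr rfl)
    have h0 : tor (fun u => u) 0 = 0 := ioL.map_zero
    refine ⟨0, ⟨(e, e'), a1.symm.trans b1⟩, (congrArg _ h0).trans a1, ?_, ?_⟩
    · change c4 (X.f e, X.f e') = 0
      rw [a2, b2]
      exact c4.map_zero
    · rw [h0, key ⟨(e, e'), a1.symm.trans b1⟩ 0 0 1 0 0 a1 (by simpa using a3) (by simpa using b3),
        fderiv_tor, det_dd, if_pos (Or.inl ⟨rfl, rfl⟩)]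
      have := pow_pos hc 4
      linarith

end Pool.Agent.Lib.MP_029589_gt
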