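import Pool.Agent.Lib.MP_029589_gt.VposA

/-! JOB V1: dilation of etale multivalued maps. -/

set_option autoImplicit false

open scoped Manifold ContDiff Topology Matrix
open Set Filter Function Topology MeasureTheory

namespace Pool.Agent.Lib.MP_029589_gt

section

variable {k : ℕ} (D : Et k (qm Gf : GR → BB)) {m : ℕ} (hm : m ≠ 0)
include hm

lemma Et.dil_sheet {e : D.F} {g : GR} {μ : Gf} (h : qm Gf (dlt (m : ℝ)⁻¹ (μ • g)) = D.π e) :
    D.f ∘ ((dlB_loc hm).comp D.loc).localInverseAt e ∘ qm Gf =ᶠ[𝓝 g]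
      (D.f ∘ D.sec e) ∘ fun b : GR => dlt (m : ℝ)⁻¹ (μ • b) := by
  have hc : Continuous fun b : GR => dlt (m : ℝ)⁻¹ (μ • b) :=
    (dlt _).continuous.comp (continuous_const_smul μ)
  have h1 : qm Gf (dlt (m : ℝ)⁻¹ (μ • g)) ∈ (D.loc.localInverseAt e).source :=
    h ▸ D.loc.apply_self_mem_localInverseAt_source
  have h2 := linv_eq ((dlB_loc hm).comp D.loc) (s := fun b => D.sec e (dlt (m : ℝ)⁻¹ (μ • b)))
    (w := qm Gf) (z := g) ((D.sec_cont cont_qm h1).comp_of_eq hc.continuousAt rfl)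
    ((hc.continuousAt.eventually (D.sec_ev cont_qm h1)).mono fun y hy => by
      rw [comp, Et.sec, D.loc.apply_localInverseAt_of_mem hy, dlB_qm, dlt_inv hm, qm_smul])
  rw [D.sec_self h] at h2
  exact h2.fun_comp D.f

/-- The dilated multivalued map. -/
noncomputable def Et.dil : Et k (qm Gf : GR → BB) where
  F := D.F
  π := dlB m ∘ D.π
  loc := (dlB_loc hm).comp D.loc
  f := D.f
  sm e g h := by
    obtain ⟨R, -, -, h1, -⟩ := exists_reps hm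
    obtain ⟨μ, -, h2⟩ := (h1 _ _).1 h
    exact ContDiffAt.congr_of_eventuallyEq ((D.sm' h2).comp g
      ((dlt _).contDiff.comp (contDiff_gf μ)).contDiffAt) (D.dil_sheet hm h2)
  prop K hK := by
    obtain ⟨R, hR, -, h1, -⟩ := exists_reps hm
    have h2 := hR.isCompact_biUnion fun μ _ => (D.prop _ (hK.image
      ((dlt (m : ℝ)⁻¹).continuous.comp (continuous_const_smul μ)))).image
      (f := fun z => (μ⁻¹ • dlt m z.1, z.2)) (by fun_prop)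
    refine (congrArg IsCompact (Set.ext fun z => ?_)).mp h2
    simp only [mem_iUnion₂]
    constructor
    · rintro ⟨μ, hμ, ⟨_, e⟩, ⟨⟨g, hg, rfl⟩, h3, h4⟩, rfl⟩
      simp only [comp, dlt_inv hm, inv_smul_smul]
      exact ⟨hg, (h1 _ _).2 ⟨μ, hμ, h3⟩, h4⟩
    · rintro ⟨hg, h3, h4⟩
      obtain ⟨μ, hμ, h5⟩ := (h1 _ _).1 h3
      exact ⟨μ, hμ, (_, z.2), ⟨⟨z.1, hg, rfl⟩, h5, h4⟩, by
        simp only [dlt_inv hm, inv_smul_smul]⟩

lemma Et.dil_df {e : D.F} {g : GR} {μ : Gf} (h : qm Gf (dlt (m : ℝ)⁻¹ (μ • g)) = D.π e) (v : GR) :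
    (D.dil hm).df e g v = D.df e (dlt (m : ℝ)⁻¹ (μ • g)) (dlt (m : ℝ)⁻¹ (pl μ.k v)) := by
  have h1 := (((D.sm' h).differentiableAt (by simp)).hasFDerivAt.comp g
    ((dlt (m : ℝ)⁻¹).hasFDerivAt.comp g (hasFDerivAt_gf μ g))).fderiv
  exact congrArg (fun A : GR →L[ℝ] Euc k => A v) ((D.dil_sheet hm h).fderiv_eq.trans h1)

lemma Et.dil_le {C : ℝ} (h0 : 0 ≤ C)
    (hC : ∀ g, ∀ e ∈ D.fib g, ∀ v, ‖D.df e g v‖ ≤ C * ‖pl (-g.2) v‖) {g : GR} {e : D.F}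
    (he : e ∈ (D.dil hm).fib g) (v : GR) :
    ‖(D.dil hm).df e g v‖ ≤ C * (m : ℝ)⁻¹ * ‖pl (-g.2) v‖ := by
  obtain ⟨R, -, -, h1, -⟩ := exists_reps hm
  obtain ⟨μ, -, h2⟩ := (h1 _ _).1 he.1
  rw [D.dil_df hm h2, mul_assoc]
  refine (hC _ e ⟨h2, he.2⟩ _).trans (mul_le_mul_of_nonneg_left ?_ h0)
  have h3 : pl (-(dlt (m : ℝ)⁻¹ (μ • g)).2) (dlt (m : ℝ)⁻¹ (pl μ.k v)) =
      dlt (m : ℝ)⁻¹ (pl (-g.2) v) := by
    rw [dlt_pl, dlt_pl, pl_pl, dlt_apply, gf_smul]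
    congr 2
    ring
  rw [h3]
  exact norm_dlt (by positivity) (inv_le_one_of_one_le₀ (Nat.one_le_cast.2 (Nat.pos_of_ne_zero hm)))
    _

variable {b : Euc k → ℝ} (hb : ContDiff ℝ ∞ b) (hb' : ∀ y, b y ≠ 0 → ‖y‖ ≤ 3 / 4)
include hb'

lemma Et.dil_form : ∃ R : Finset Gf, R.Nonempty ∧ ∀ g v, (D.dil hm).form b g v =
    ∑ μ ∈ R, D.form b (dlt (m : ℝ)⁻¹ (μ • g)) fun j => dlt (m : ℝ)⁻¹ (pl μ.k (v j)) := by
  obtain ⟨R, hR, h0, h1, h2⟩ := exists_reps hm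
  refine ⟨hR.toFinset, hR.toFinset_nonempty.2 h0, fun g v => ?_⟩
  have h3 : (D.dil hm).fib g = ⋃ μ ∈ R, D.fib (dlt (m : ℝ)⁻¹ (μ • g)) := by
    ext e
    refine ⟨fun h => ?_, fun h => ?_⟩
    · obtain ⟨μ, hμ, h4⟩ := (h1 _ _).1 h.1
      exact mem_iUnion₂.2 ⟨μ, hμ, h4, h.2⟩
    · obtain ⟨μ, hμ, h4⟩ := mem_iUnion₂.1 h
      exact ⟨(h1 _ _).2 ⟨μ, hμ, h4.1⟩, h4.2⟩
  rw [Et.form_apply _ hb', h3]
  refine (finsum_mem_biUnion (fun μ a μ' a' hne => disjoint_left.2 fun e x x' =>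
    hne (h2 g a a' (x.1.trans x'.1.symm))) hR fun μ _ => D.fib_finite _).trans ?_
  rw [finsum_mem_eq_finite_toFinset_sum _ hR]
  refine Finset.sum_congr rfl fun μ _ => ?_
  rw [D.form_apply hb']
  exact finsum_mem_congr rfl fun e he => by simp only [D.dil_df hm he.1]; rfl

include hb

lemma Et.dil_avg : ∃ c : ℝ, c ≠ 0 ∧ ∀ v, avg ((D.dil hm).form b) 0 v =
    c * avg (D.form b) 0 fun j => dgl (m : ℝ)⁻¹ (v j) := by
  obtain ⟨R, h0, h1⟩ := D.dil_form hm hb'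
  refine ⟨R.card, Nat.cast_ne_zero.2 h0.card_ne_zero, fun v => ?_⟩
  have h := D.perForm hb hb'
  have h' := (D.dil hm).perForm hb hb'
  have hc := h.sm.continuous
  have hc' := h'.sm.continuous
  have hm' : (m : ℝ) ≠ 0 := Nat.cast_ne_zero.2 hm
  rw [avg_apply hc', ← integral_per_lin (by fun_prop) (fun a x => by rw [h'.per])
    (((m : ℝ) ^ 8) • ContinuousLinearMap.id ℝ (Fin 8 → ℝ))
    (fun y => ⟨((m : ℝ) ^ 8)⁻¹ • y, by simp [smul_smul, hm']⟩)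
    (fun a => ⟨(m : ℤ) ^ 8 • a, by ext i; simp⟩) 0]
  simp only [h1]
  rw [integral_finsetSum _ fun μ _ => ContinuousOn.integrableOn_compact isCompact_Icc
    (Continuous.continuousOn (by fun_prop)), ← nsmul_eq_mul, ← Finset.sum_const]
  refine Finset.sum_congr rfl fun μ _ => ?_
  rw [← D.avg_pas hb hb' ((m : ℝ)⁻¹ * μ.k), h.avg_const 0 ((m : ℝ)⁻¹ * (μ.k + 0)), avg_apply hc]
  refine Eq.trans ?_ (integral_per_lin (by fun_prop) (fun a x => by rw [h.per])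
      ((dgl (m : ℝ)⁻¹).comp ((LinearMap.toContinuousLinearMap (pas (μ.k : ℝ)).mulVecLin).comp
        (((m : ℝ) ^ 8) • ContinuousLinearMap.id ℝ (Fin 8 → ℝ))))
      (fun y => ⟨((m : ℝ) ^ 8)⁻¹ • pas (-(μ.k : ℝ)) *ᵥ dgl m y, ?_⟩)
      (fun a => ⟨fun i => m ^ (7 - (i : ℕ)) * (pas μ.k *ᵥ a) i, ?_⟩) (dgl (m : ℝ)⁻¹ (cz μ.a)))
  · refine integral_congr_ae (Eventually.of_forall fun x => ?_)
    simp [gf_smul, dlt_apply, pl_apply, dgl_pas, Matrix.mulVec_smul]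
  · simp [smul_smul, hm', pas_mul, pas_zero_mulVec, dgl_dgl, dgl_one]
  · ext i
    have : (m : ℝ) ^ 8 = m ^ (7 - (i : ℕ)) * m ^ ((i : ℕ) + 1) := by
      rw [← pow_add]; congr 1; omega
    simp only [ContinuousLinearMap.comp_apply, smul_apply, map_smul,
      ContinuousLinearMap.id_apply, LinearMap.coe_toContinuousLinearMap', Matrix.mulVecLin_apply,
      ← cz_pas, Pi.smul_apply, dgl_apply, cz_apply, smul_eq_mul, this, inv_pow]
    push_cast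
    field_simp

end

lemma Et.Pos.avg_ne {D : Et 4 (qm Gf : GR → BB)} (hD : D.Pos) {b : Euc 4 → ℝ} (hb : ContDiff ℝ ∞ b)
    (hb' : ∀ y, b y ≠ 0 → ‖y‖ ≤ 3 / 4) (h0 : ∀ y, 0 ≤ b y) (h1 : 0 < b 0) :
    avg (D.form b) 0 (fun j => Pi.single (ix4 j) 1) ≠ 0 := by
  obtain ⟨s, h2, u₀, e₀, h3, h4, h5⟩ := hD
  have hκ : Eqv4 fun u => u := ⟨by fun_prop, fun u a => rfl⟩
  have h := D.perForm hb hb'
  let φ := fun u => s * D.form b (tor (fun u => u) u)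
    fun j => fderiv ℝ (tor fun u => u) u (EuclideanSpace.single j 1)
  have hφ : Continuous φ := continuous_const.mul (D.cont_area cont_qm hb hb' hκ.contDiff_tor)
  have a1 : ∀ u, φ u = ∑ e ∈ (D.fib_finite (tor (fun u => u) u)).toFinset, b (D.f e) *
      (s * ((D.df e (tor (fun u => u) u)).comp (fderiv ℝ (tor fun u => u) u)).det) := fun u => by
    simp only [φ]
    rw [D.form_apply hb', finsum_mem_eq_finite_toFinset_sum _ (D.fib_finite _), Finset.mul_sum]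
    refine Finset.sum_congr rfl fun e _ => ?_
    rw [← vol_apply, mul_left_comm]
    rfl
  have a2 : ∀ u, ∀ e ∈ (D.fib_finite (tor (fun u => u) u)).toFinset, 0 ≤ b (D.f e) *
      (s * ((D.df e (tor (fun u => u) u)).comp (fderiv ℝ (tor fun u => u) u)).det) :=
    fun u e he => mul_nonneg (h0 _) (h2 u e ((Finite.mem_toFinset _).1 he).1
      ((Finite.mem_toFinset _).1 he).2)
  have a3 : ∀ u, 0 ≤ φ u := fun u => a1 u ▸ Finset.sum_nonneg (a2 u)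
  have a4 : 0 < φ u₀ := a1 u₀ ▸ Finset.sum_pos' (a2 u₀)
    ⟨e₀, (Finite.mem_toFinset _).2 ⟨h3, by simp [h4]⟩, mul_pos (h4 ▸ h1) h5⟩
  have a5 : ∀ u, fderiv ℝ (tor fun u => u) u =
      (ioL.comp (EuclideanSpace.equiv (Fin 4) ℝ : Euc 4 →L[ℝ] Fin 4 → ℝ)).prod 0 := fun u =>
    ContinuousLinearMap.fderiv ((ioL.comp
      (EuclideanSpace.equiv (Fin 4) ℝ : Euc 4 →L[ℝ] Fin 4 → ℝ)).prod (0 : Euc 4 →L[ℝ] ℝ))
  have a6 := integral_per_add (f := fun x => φ (WithLp.toLp 2 x)) (fun a x => by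
    simp only [φ, a5, tor, ← ioL_apply, map_add, ioL_cz, h.per]) (u₀.ofLp - fun _ => 1 / 2)
  have a7 : Continuous fun x : Fin 4 → ℝ => φ (WithLp.toLp 2 ((u₀.ofLp - fun _ => 1 / 2) + x)) := by
    fun_prop
  have a8 := (setIntegral_pos_iff_support_of_nonneg_ae (Eventually.of_forall fun x => a3 _)
    (a7.continuousOn.integrableOn_compact (μ := volume)
      (isCompact_Icc (a := (0 : Fin 4 → ℝ)) (b := 1)))).2 (Measure.measure_pos_of_mem_nhds _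
        (x := fun _ => 1 / 2) (inter_mem (a7.isOpen_support.mem_nhds (by simpa using a4.ne'))
          (pi_Icc_mem_nhds (fun _ => by norm_num) fun _ => by norm_num)))
  rw [a6, ← integral_cube φ, integral_const_mul, h.pull hκ] at a8
  exact right_ne_zero_of_mul a8.ne'

theorem dilate {D : Et 4 (qm Gf : GR → BB)} (hD : D.Pos) {η : ℝ} (hη : 0 < η) :
    ∃ D' : Et 4 (qm Gf : GR → BB),
      (∀ e g, qm Gf g = D'.π e → ‖D'.f e‖ ≤ 1 → ∀ v, ‖D'.df e g v‖ ≤ η * ‖pl (-g.2) v‖) ∧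
      ∀ κ, Eqv4 κ → ∀ N : ℝ,
        (∀ᶠ y in aeV (Euc 4), ‖y‖ < 1 / 2 → D'.num (tor κ) y = N) → N ≠ 0 := by
  obtain ⟨C, h0, hC⟩ := D.df_le
  obtain ⟨m, h1⟩ := exists_nat_gt (C / η)
  have h2 : (0 : ℝ) < m := (div_nonneg h0 hη.le).trans_lt h1
  have hm : m ≠ 0 := Nat.cast_ne_zero.1 h2.ne'
  refine ⟨D.dil hm, fun e g h3 h4 v => (D.dil_le hm h0 hC ⟨h3, h4⟩ v).trans
    (mul_le_mul_of_nonneg_right ?_ (norm_nonneg _)), fun κ hκ N hN h5 => ?_⟩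
  · rw [div_lt_iff₀ hη] at h1
    rw [← div_eq_mul_inv, div_le_iff₀ h2, mul_comm]
    exact h1.le
  let b : ContDiffBump (0 : Euc 4) := ⟨1 / 4, 1 / 2, by norm_num, by norm_num⟩
  have b1 : ∀ y, b y ≠ 0 → ‖y‖ < 1 / 2 := fun y hy =>
    mem_ball_zero_iff.1 (b.support_eq ▸ (hy : y ∈ support b))
  have b2 : ∀ y, b y ≠ 0 → ‖y‖ ≤ 3 / 4 := fun y hy => (b1 y hy).le.trans (by norm_num)
  obtain ⟨c, hc, h6⟩ := D.dil_avg hm b.contDiff b2
  have h7 := (D.dil hm).area cont_qm b.contDiff b2 hκ.contDiff_tor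
  rw [((D.dil hm).perForm b.contDiff b2).pull hκ, h6, integral_eq_zero_of_ae] at h7
  · have h8 : ∀ j, dgl (m : ℝ)⁻¹ (Pi.single (ix4 j) 1) =
        ((m : ℝ)⁻¹ ^ ((ix4 j : ℕ) + 1)) • (Pi.single (ix4 j) 1 : Fin 8 → ℝ) := fun j => by
      ext i
      by_cases h : i = ix4 j <;> simp [dgl_apply, h]
    simp only [h8, ContinuousAlternatingMap.map_smul_univ] at h7
    exact mul_ne_zero hc (smul_ne_zero (by positivity) (hD.avg_ne b.contDiff b2 (fun _ => b.nonneg)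
      (b.pos_of_mem_ball (Metric.mem_ball_self b.rOut_pos)))) h7
  · rw [aeV_eq] at hN
    filter_upwards [hN] with y hy
    by_cases h : b y = 0
    · rw [h, zero_mul]; rfl
    · rw [hy (b1 y h), h5, mul_zero]; rfl

end Pool.Agent.Lib.MP_029589_gt
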