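import Pool.Agent.Lib.MP_029589_gt.BrgA
import Pool.Agent.Lib.MP_029589_gt.Vpos
import Pool.Agent.Lib.MP_029589_gt.Ebd

/-! Models are iso-enlargeable. -/

set_option autoImplicit false

open scoped Manifold ContDiff Topology
open Set Filter Function Topology

namespace Pool.Agent.Lib.MP_029589_gt

lemma bg_qm_surj (b : BB) : ∃ g, qm Gf g = b := Quotient.mk_surjective b

lemma bg_et_cont (D : Et 4 (qm Gf : GR → BB)) : Continuous D.f :=
  continuous_iff_continuousAt.2 fun e => by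
    obtain ⟨g, hg⟩ := bg_qm_surj (D.π e)
    have hq := (qm_cov GR Gf).isLocalHomeomorph
    have h0 : D.π e ∈ (hq.localInverseAt g).source := hg ▸ hq.apply_self_mem_localInverseAt_source
    have h1 : ContinuousAt (hq.localInverseAt g ∘ D.π) e :=
      ((hq.localInverseAt g).continuousAt h0).comp D.loc.continuous.continuousAt
    have h2 : (hq.localInverseAt g ∘ D.π) e = g := by
      rw [comp, ← hg, hq.localInverseAt_apply_self]
    refine (ContinuousAt.comp (h2.symm ▸ (D.sm e g hg).continuousAt) h1).congr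
      (D.lift_eq (s := id) continuousAt_id ?_).symm
    filter_upwards [D.loc.continuous.continuousAt.eventually
      ((hq.localInverseAt g).open_source.mem_nhds h0)] with w hw
    exact (hq.apply_localInverseAt_of_mem hw).symm

lemma bg_et_cpt (D : Et 4 (qm Gf : GR → BB)) : IsCompact {e | ‖D.f e‖ ≤ 1} := by
  obtain ⟨R, hR⟩ := gf_cocompact
  convert (D.prop _ (isCompact_closedBall 0 R)).image continuous_snd using 1
  ext e
  refine ⟨fun h => ?_, ?_⟩
  · obtain ⟨g, hg⟩ := bg_qm_surj (D.π e)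
    obtain ⟨a, ha⟩ := hR g
    exact ⟨(a • g, e), ⟨mem_closedBall_zero_iff.2 ha, (qm_smul a g).trans hg, h⟩, rfl⟩
  · rintro ⟨z, hz, rfl⟩
    exact hz.2.2

variable {X : Mfd 4} {o : X.M → ℝ} {Φ : X.M → BB}

lemma bg_et_sm (D : Et 4 (qm Gf : GR → BB)) {Z : Type} [TopologicalSpace Z]
    [ChartedSpace (Euc 4) Z] {q : Z → X.M} {s : Z → D.F} {z : Z} (hq : LD (Euc 4) q z)
    (hs : ContinuousAt s z) (h : ∀ w, Φ (q w) = D.π (s w)) {Φ' : X.M → GR}
    (hl : LocLift Φ Φ' (q z)) : ContMDiffAt (𝓡 4) (𝓡 4) ∞ (D.f ∘ s) z ∧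
      ∀ v, md (Euc 4) (Euc 4) (D.f ∘ s) z v =
        D.df (s z) (Φ' (q z)) (md (Euc 4) GR Φ' (q z) (md (Euc 4) (Euc 4) q z v)) := by
  have h1 := D.lift_eq (m := Φ' ∘ q) hs ((hq.contMDiffAt.continuousAt.eventually hl).mono
    fun w hw => (hw.2.trans (h w)).symm)
  have h2 := D.sm (s z) _ (hl.self_of_nhds.2.trans (h z))
  have h3 := hl.self_of_nhds.1.comp z hq.contMDiffAt
  refine ⟨(h2.contMDiffAt.comp z h3).congr_of_eventuallyEq h1, fun v => ?_⟩
  rw [md_congr h1, md_clm_comp (h3.mdifferentiableAt (by simp)) (h2.differentiableAt (by simp)),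
    md_comp (hl.self_of_nhds.1.mdifferentiableAt (by simp)) hq.mdiff]
  rfl

theorem bg_iso [CompactSpace X.M] (h : IsModel X o Φ) (ho : Ori (Euc 4) o) (g : X.Metric) :
    IsoEnlargeable X g o := by
  intro ε hε
  obtain ⟨C, hC, hcol⟩ := collapse 4
  obtain ⟨B, hB, hb⟩ := h.bound g
  obtain ⟨D0, hD0⟩ := exists_et
  obtain ⟨D, d1, d2⟩ := dilate hD0 (η := ε / (C * (2 * B))) (by positivity)
  obtain ⟨κ, hκ, hcnt⟩ := h.count
  have fc := bg_et_cont D
  have hop : IsOpen {e | ‖D.f e‖ < 1} := isOpen_lt fc.norm continuous_const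
  let π' : {e | ‖D.f e‖ < 1} → BB := D.π ∘ Subtype.val
  have hπ : IsLocalHomeomorph π' := D.loc.comp hop.isOpenEmbedding_subtypeVal.isLocalHomeomorph
  let p : Pb Φ π' → X.M := fun z => z.1.1
  let s : Pb Φ π' → D.F := fun z => z.1.2.1
  have hs : Continuous s := by fun_prop
  obtain ⟨_, _, hp⟩ := exists_pull (V := Euc 4) (p := p) (pb_loc h.cont hπ)
  have hK : ∀ r < 1, IsCompact {z | z ∈ (univ : Set (Pb Φ π')) ∧ ‖(D.f ∘ s) z‖ ≤ r} := fun r hr => by
    have := bg_cpt h.cont hπ.continuous (cpt_sub (O := {e | ‖D.f e‖ < 1})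
      ((bg_et_cpt D).of_isClosed_subset (isClosed_le fc.norm (continuous_const (y := r)))
        fun e he => le_trans he hr.le) fun e he => lt_of_le_of_lt he hr)
    simp only [mem_univ, true_and]
    exact this
  have : SigmaCompactSpace (Pb Φ π') := ⟨⟨fun n => _, fun n => hK (1 - 1 / (n + 1))
    (sub_lt_self _ Nat.one_div_pos_of_nat), eq_univ_of_forall fun z => by
      obtain ⟨n, hn⟩ := exists_nat_one_div_lt (sub_pos.2 (show ‖(D.f ∘ s) z‖ < 1 from z.1.2.2))
      exact mem_iUnion.2 ⟨n, trivial, by linarith⟩⟩⟩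
  have := ChartedSpace.secondCountable_of_sigmaCompact (Euc 4) (Pb Φ π')
  have hG : ContMDiff (𝓡 4) (𝓡 4) ∞ (D.f ∘ s) := fun z =>
    (bg_et_sm D (hp z) hs.continuousAt (fun w => w.2) (h.sm _).choose_spec).1
  have dG := fun z => (hG z).mdifferentiableAt (by simp)
  obtain ⟨k1, k2, ⟨y, hy, k3⟩, k4⟩ := bg_deg (ori_pull ho hp) isOpen_univ hG.contMDiffOn
    (r := 3 / 4) (by norm_num) (hK _ (by norm_num))
  have hN := d2 κ hκ (cnt (opull (Euc 4) o p) univ (D.f ∘ s) y) (by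
    filter_upwards [k2] with y' a1 a2
    refine Eq.trans ?_ (k1 y y' (by linarith) a2.le k3 (a1 a2))
    exact (hcnt (f := fun e => D.f ∘ D.loc.localInverseAt e ∘ qm Gf)
      (c := fun g e => qm Gf g = D.π e ∧ D.f e = y') (fun z _ e => s z = e) hp (fun z _ => dG z)
      (a1 a2) (fun z _ e g hg => ⟨_, ⟨hg.trans z.2, e⟩, rfl⟩)
      (fun x g e b1 b2 => ⟨⟨(x, ⟨e, show ‖D.f e‖ < 1 by rw [b2.2]; linarith⟩), b1.symm.trans b2.1⟩,
        trivial, b2.2, rfl, rfl⟩)
      (fun z z' _ _ b1 b2 b3 => Subtype.ext (Prod.ext b1 (Subtype.ext (b2.trans b3.symm))))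
      (fun _ _ _ _ b1 b2 => b1.symm.trans b2)
      (fun g e b => (D.sm e g b.1).differentiableAt (by simp))
      fun z g e b W _ l m w b1 _ b3 _ b5 => by
        subst b3 b
        exact D.lift_eq (s := s ∘ l) (hs.continuousAt.comp b1)
          (b5.mono fun v hv => (hv.trans (l v).2).symm)).symm)
  obtain ⟨z, hz⟩ := cnt_component (k4 y (by linarith) k3) hN
  obtain ⟨Y, i, i1, i2, i3⟩ := exists_piece (n := 4) z
  have hq : ∀ x, LD (Euc 4) (p ∘ i) x := fun x => (i3 x).cmp (hp _)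
  have hG' : ContMDiff (𝓡 4) (𝓡 4) ∞ ((D.f ∘ s) ∘ i) := hG.comp fun x => (i3 x).contMDiffAt
  obtain ⟨t1, t2⟩ := cnt_transfer (o := opull (Euc 4) o p) (i := i) (O := univ)
    (O' := univ ∩ connectedComponent z) (G := D.f ∘ s) (G' := (D.f ∘ s) ∘ i) (y := y)
    ⟨fun x hx => ⟨⟨trivial, i2 ▸ mem_range_self x⟩, hx.2⟩, i1.injective.injOn, fun w hw => by
      obtain ⟨x, rfl⟩ : w ∈ range i := i2 ▸ hw.1.2
      exact ⟨x, ⟨trivial, hw.2⟩, rfl⟩⟩ fun x _ _ => ⟨i3 x, dG _, EventuallyEq.rfl⟩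
  obtain ⟨s1, s2⟩ := bg_scale (o := opull (Euc 4) o (p ∘ i)) (O := univ)
    (fun x _ => (hG' x).mdifferentiableAt (by simp)) two_pos y
  refine ⟨Y, p ∘ i, hq, ?_⟩
  rw [show ε = C * (2 * (ε / (C * (2 * B)) * B)) by field_simp]
  refine hcol g (O := univ) (G := fun x => (2 : ℝ) • ((D.f ∘ s) ∘ i) x) (y := (2 : ℝ) • y)
    (by positivity) isOpen_univ (((2 : ℝ) • ContinuousLinearMap.id ℝ (Euc 4)).contMDiff.comp
      hG').contMDiffOn ?_ (fun x _ _ v => ?_)
    (by rw [norm_smul, Real.norm_two]; linarith) (s2.2 (t2.2 fun x hx => k3 x trivial)) ?_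
  · have := (IsClosedEmbedding.mk i1.isEmbedding (i2 ▸ isClosed_connectedComponent)
      ).isCompact_preimage (hK (1 / 2) (by norm_num))
    refine (congrArg _ (Set.ext fun x => ?_)).mp this
    simp only [mem_preimage, mem_ofPred_eq, norm_smul, Real.norm_two, mem_univ, true_and, comp]
    constructor <;> intro <;> linarith
  · obtain ⟨Φ', b1, b2⟩ := hb (p (i x))
    have b3 := (bg_et_sm D (s := s ∘ i) (hq x) (hs.comp i1.continuous).continuousAt
      (fun w => (i w).2) b1).2 v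
    have b4 := DFunLike.congr_fun (md_clm ((2 : ℝ) • ContinuousLinearMap.id ℝ (Euc 4))
      ((hG' x).mdifferentiableAt (by simp))) v
    have b5 := (d1 _ _ (b1.self_of_nhds.2.trans (i x).2) (le_of_lt (i x).1.2.2) _).trans
      (mul_le_mul_of_nonneg_left (b2 (md (Euc 4) (Euc 4) (p ∘ i) x v)) (by positivity))
    refine (congrArg norm b4).trans_le ?_
    change ‖(2 : ℝ) • md (Euc 4) (Euc 4) (D.f ∘ s ∘ i) x v‖ ≤ _
    rw [norm_smul, Real.norm_two, b3, mul_assoc, mul_assoc]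
    exact mul_le_mul_of_nonneg_left b5 two_pos.le
  · rw [s1, show opull (Euc 4) o (p ∘ i) = _ from funext fun x => opull_comp (i3 x) (hp _), t1]
    exact hz

end Pool.Agent.Lib.MP_029589_gt
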