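import Pool.Agent.Lib.MP_029589_gt.BrgA

/-! Approximation of Lipschitz maps on coverings of a model by maps on the group. -/

set_option autoImplicit false

open scoped Manifold ContDiff Topology
open Set Filter Function Topology

namespace Pool.Agent.Lib.MP_029589_gt

variable {W : Type} [NormedAddCommGroup W] [NormedSpace ℝ W]

lemma bg_move (R S : ℝ) : {γ : Gf | ∃ x : GR, ‖x‖ ≤ R ∧ ‖γ • x‖ ≤ S}.Finite :=
  (gf_finite (max R S)).subset fun _ ⟨x, h1, h2⟩ =>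
    ⟨x, h1.trans (le_max_left _ _), h2.trans (le_max_right _ _)⟩

lemma bg_gsum {R : ℝ} {f : Gf → GR → W} (hf : ∀ γ, ContDiff ℝ ∞ (f γ))
    (h : ∀ γ x, f γ x ≠ 0 → ‖γ⁻¹ • x‖ ≤ R) : ContDiff ℝ ∞ fun x => ∑ᶠ γ, f γ x := by
  refine contMDiff_iff_contDiff.1 (contMDiff_finsum (fun γ => (hf γ).contMDiff) fun x => ?_)
  refine ⟨Metric.closedBall 0 (‖x‖ + 1), Metric.closedBall_mem_nhds_of_mem (by simp),
    (bg_move R (‖x‖ + 1)).subset ?_⟩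
  rintro γ ⟨y, h1, h2⟩
  exact ⟨γ⁻¹ • y, h γ y h1, by simpa using h2⟩

lemma bg_weights : ∃ (R : ℝ) (φ : GR → ℝ), ContDiff ℝ ∞ φ ∧ (∀ x, 0 ≤ φ x) ∧
    (∀ x, φ x ≠ 0 → ‖x‖ ≤ R) ∧ ∀ x, ∑ᶠ γ : Gf, φ (γ⁻¹ • x) = 1 := by
  obtain ⟨R, hR⟩ := gf_cocompact
  let ψ : ContDiffBump (0 : GR) := ⟨|R| + 1, |R| + 2, by positivity, by linarith⟩
  have h1 : ∀ x, ψ x ≠ 0 → ‖x‖ ≤ |R| + 2 := fun x hx => by
    have : x ∈ Metric.ball (0 : GR) (|R| + 2) := ψ.support_eq ▸ hx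
    exact (mem_ball_zero_iff.1 this).le
  let Φ : GR → ℝ := fun x => ∑ᶠ γ : Gf, ψ (γ⁻¹ • x)
  have h2 : ContDiff ℝ ∞ Φ := bg_gsum (f := fun γ x => ψ (γ⁻¹ • x))
    (fun γ => ψ.contDiff.comp (contDiff_gf _)) fun γ x => h1 _
  have h3 : ∀ x, HasFiniteSupport fun γ : Gf => ψ (γ⁻¹ • x) := fun x =>
    (bg_move (|R| + 2) ‖x‖).subset fun γ h => ⟨_, h1 _ h, by simp⟩
  have h4 : ∀ x, 0 < Φ x := fun x => by
    obtain ⟨a, ha⟩ := hR x
    refine finsum_pos (fun _ => ψ.nonneg) ⟨a⁻¹, ?_⟩ (h3 x)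
    rw [inv_inv, ψ.one_of_mem_closedBall (mem_closedBall_zero_iff.2
      (ha.trans ((le_abs_self R).trans (le_add_of_nonneg_right zero_le_one))))]
    exact one_pos
  have h5 : ∀ (a : Gf) x, Φ (a • x) = Φ x := fun a x => by
    simp only [Φ]
    rw [← finsum_comp_equiv (Equiv.mulLeft a)]
    simp [mul_smul]
  refine ⟨|R| + 2, fun x => ψ x / Φ x, ψ.contDiff.div h2 fun x => (h4 x).ne',
    fun x => div_nonneg ψ.nonneg (h4 x).le, fun x hx => h1 x fun h => hx (by simp [h]), fun x => ?_⟩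
  simp only [h5, div_eq_mul_inv]
  rw [← finsum_mul' _ _ (h3 x)]
  exact mul_inv_cancel₀ (h4 x).ne'

variable (W) in
lemma bg_smooth : ∃ (R : ℝ) (T : (Gf → W) → GR → W), (∀ a, ContDiff ℝ ∞ (T a)) ∧
    (∀ a (b : Gf) x, T (fun γ => a (b⁻¹ * γ)) (b • x) = T a x) ∧
    (∀ a x s, Convex ℝ s → (∀ γ : Gf, ‖γ⁻¹ • x‖ ≤ R → a γ ∈ s) → T a x ∈ s) ∧
    ∀ x : GR, ∃ γ : Gf, ‖γ⁻¹ • x‖ ≤ R := by
  obtain ⟨R, φ, h1, h2, h3, h4⟩ := bg_weights
  refine ⟨R, fun a x => ∑ᶠ γ : Gf, φ (γ⁻¹ • x) • a γ, fun a => bg_gsum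
    (f := fun γ x => φ (γ⁻¹ • x) • a γ) (fun γ => (h1.comp (contDiff_gf _)).smul contDiff_const)
    fun γ x h => h3 _ (left_ne_zero_of_smul h), fun a b x => ?_,
    fun a x s hs h => hs.finsum_mem (fun _ => h2 _) (h4 x) fun γ hγ => h γ (h3 _ hγ), fun x => ?_⟩
  · simp only
    rw [← finsum_comp_equiv (Equiv.mulLeft b)]
    simp [mul_smul]
  · by_contra h
    have := h4 x
    rw [finsum_eq_zero_of_forall_eq_zero fun γ => by_contra fun h' => h ⟨γ, h3 _ h'⟩] at this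
    exact zero_ne_one this

variable {X : Mfd 4} {o : X.M → ℝ} {Φ : X.M → BB}

/-- The deck transformations. -/
def bgAct (a : Gf) (z : Pb Φ (qm Gf : GR → BB)) : Pb Φ (qm Gf : GR → BB) :=
  ⟨(z.1.1, a • z.1.2), z.2.trans (qm_smul a _).symm⟩

lemma bgAct_mul (a b : Gf) (z : Pb Φ (qm Gf : GR → BB)) :
    bgAct (a * b) z = bgAct a (bgAct b z) := Subtype.ext (Prod.ext rfl (mul_smul _ _ _))

lemma bgAct_one (z : Pb Φ (qm Gf : GR → BB)) : bgAct 1 z = z :=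
  Subtype.ext (Prod.ext rfl (one_smul _ _))

lemma bgAct_cont (a : Gf) : Continuous (bgAct (Φ := Φ) a) := by
  unfold bgAct
  fun_prop

/-- Lifts of the projection. -/
def BgSec (C : Cover X) (Φ : X.M → BB) : Type :=
  {s : Pb Φ (qm Gf : GR → BB) → C.Y.M // Continuous s ∧ ∀ z, C.p (s z) = z.1.1}

variable {C : Cover X}

instance : MulAction Gf (BgSec C Φ) where
  smul a s := ⟨s.1 ∘ bgAct a⁻¹, s.2.1.comp (bgAct_cont _), fun _ => s.2.2 _⟩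
  one_smul s := Subtype.ext (funext fun z => congrArg s.1 (bgAct_one z))
  mul_smul a b s := Subtype.ext (funext fun z => congrArg s.1
    (show bgAct (a * b)⁻¹ z = _ by rw [mul_inv_rev, bgAct_mul]))

lemma bgSec_smul (a : Gf) (s : BgSec C Φ) (z : Pb Φ (qm Gf : GR → BB)) :
    (a • s).1 z = s.1 (bgAct a⁻¹ z) := rfl

lemma bgSec_act (a : Gf) (s : BgSec C Φ) (z : Pb Φ (qm Gf : GR → BB)) :
    (a • s).1 (bgAct a z) = s.1 z := by
  rw [bgSec_smul, ← bgAct_mul, inv_mul_cancel, bgAct_one]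

lemma IsModel.sec_eq (h : IsModel X o Φ) {s s' : BgSec C Φ} {z : Pb Φ (qm Gf : GR → BB)}
    (e : s.1 z = s'.1 z) : s = s' :=
  have := h.conn
  Subtype.ext (C.cov.eq_of_comp_eq s.2.1 s'.2.1
    (funext fun w => (s.2.2 w).trans (s'.2.2 w).symm) z e)

lemma IsModel.sec_ex (h : IsModel X o Φ) {y : C.Y.M} {z : Pb Φ (qm Gf : GR → BB)}
    (e : C.p y = z.1.1) : ∃ s : BgSec C Φ, s.1 z = y := by
  obtain ⟨s, h1, h2, h3⟩ := h.triv _ C.p C.cov z trivial y e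
  exact ⟨⟨s, continuousOn_univ.1 h1, fun z => h2 z trivial⟩, h3⟩

lemma IsModel.sec_surj (h : IsModel X o Φ) (y : C.Y.M) :
    ∃ (s : BgSec C Φ) (z : Pb Φ (qm Gf : GR → BB)), s.1 z = y := by
  obtain ⟨g, hg⟩ : ∃ g, qm Gf g = Φ (C.p y) := Quotient.mk_surjective _
  exact (h.sec_ex (z := ⟨(C.p y, g), hg.symm⟩) rfl).imp fun _ h => ⟨_, h⟩

lemma IsModel.sec_ev (h : IsModel X o Φ) {s : BgSec C Φ} {z : Pb Φ (qm Gf : GR → BB)} {Z : Type}
    [TopologicalSpace Z] {l : Z → C.Y.M} {m : Z → GR} {w : Z} (hl : ContinuousAt l w)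
    (hm : ContinuousAt m w) (e1 : l w = s.1 z) (e2 : m w = z.1.2)
    (he : ∀ᶠ v in 𝓝 w, qm Gf (m v) = Φ (C.p (l v))) :
    ∀ᶠ v in 𝓝 w, ∃ z', z'.1.2 = m v ∧ s.1 z' = l v := by
  obtain ⟨_, -, hp⟩ := exists_pull (V := Euc 4)
    (pb_loc h.cont (qm_cov GR Gf).isLocalHomeomorph)
  obtain ⟨k, k1, rfl, k3⟩ := bg_exists_lift (hp z) (C.cov.continuous.continuousAt.comp hl)
    ((congrArg C.p e1).trans (s.2.2 z))
  have h1 := bg_lift_ev (qm_cov GR Gf).isLocalHomeomorph (s := fun v => (k v).1.2)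
    (continuous_subtype_val.snd.continuousAt.comp k1) hm e2.symm (by
      filter_upwards [he, k3] with v a1 a2
      exact (k v).2.symm.trans ((congrArg Φ a2).trans a1.symm))
  have h2 := bg_lift_ev C.cov.isLocalHomeomorph (s := fun v => s.1 (k v))
    (s.2.1.continuousAt.comp k1) hl e1.symm (k3.mono fun v a => (s.2.2 _).trans a)
  filter_upwards [h1, h2] with v a1 a2 using ⟨k v, a1, a2⟩

variable (W) in
theorem IsModel.approx [CompactSpace X.M] (h : IsModel X o Φ) (g : X.Metric) :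
    ∃ D > 0, ∀ ε ≥ 0, ∀ (C : Cover X) (f : C.Y.M → W), Lip g C.p ε f →
      ∃ (F : BgSec C Φ → GR → W) (f' : C.Y.M → W) (R : ℝ) (z0 : Pb Φ (qm Gf : GR → BB)),
        (∀ s, ContDiff ℝ ∞ (F s)) ∧ (∀ (γ : Gf) s x, F (γ • s) (γ • x) = F s x) ∧
        ContMDiff (𝓡 4) 𝓘(ℝ, W) ∞ f' ∧ (∀ s z, f' (s.1 z) = F s z.1.2) ∧
        (∀ y, ‖f' y - f y‖ ≤ D * ε) ∧ (∀ s x, ∃ y, ‖F s x - f y‖ ≤ D * ε) ∧
        ∀ b s x, F s x ≠ b → ∃ γ : Gf, ‖γ • x‖ ≤ R ∧ f ((γ • s).1 z0) ≠ b := by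
  have := h.conn
  have hq := (qm_cov GR Gf).isLocalHomeomorph
  obtain ⟨_, _, hp⟩ := exists_pull (V := Euc 4) (pb_loc h.cont hq)
  obtain ⟨R, T, t1, t2, t3, t4⟩ := bg_smooth W
  obtain ⟨x0⟩ : Nonempty X.M := inferInstance
  obtain ⟨g0, hg0⟩ : ∃ g, qm Gf g = Φ x0 := Quotient.mk_surjective _
  let z0 : Pb Φ (qm Gf : GR → BB) := ⟨(x0, g0), hg0.symm⟩
  obtain ⟨D, hD, h2⟩ := osc_cpt (W := W) g (fun z => (hp z).contMDiffAt)
    ((bg_cpt h.cont hq.continuous (isCompact_closedBall 0 R)).union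
      (((bg_move R R).image fun a : Gf => bgAct a z0).insert z0).isCompact)
  refine ⟨D, hD, fun ε hε C f hf => ?_⟩
  have l1 : ∀ (s : BgSec C Φ) z, LD (Euc 4) s.1 z := fun s z =>
    LD.lift s.2.1.continuousAt (C.loc _) ((funext s.2.2 : C.p ∘ s.1 = _) ▸ hp z)
  have l2 : ∀ s : BgSec C Φ, Lip g (fun z => z.1.1) ε (f ∘ s.1) := fun s =>
    ⟨hf.1.comp fun z => (l1 s z).contMDiffAt, fun z v => by
      have a1 := md_comp ((hf.1 _).mdifferentiableAt (by simp)) (l1 s z).mdiff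
      have a2 := md_comp (LD.mdiff (C.loc (s.1 z))) (l1 s z).mdiff
      rw [(funext s.2.2 : C.p ∘ s.1 = _)] at a2
      rw [a1, a2]
      exact (hf.2 _ _).trans_eq (congrArg (fun x => ε * nrm g x _) (s.2.2 z))⟩
  let F : BgSec C Φ → GR → W := fun s => T fun γ => f (s.1 (bgAct γ z0))
  have f1 : ∀ (γ : Gf) s x, F (γ • s) (γ • x) = F s x := fun γ s x => by
    simp only [F, bgSec_smul, ← bgAct_mul]
    exact t2 (fun γ => f (s.1 (bgAct γ z0))) γ x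
  choose σ ζ hσ using h.sec_surj (C := C)
  have f2 : ∀ (s : BgSec C Φ) z, F (σ (s.1 z)) (ζ (s.1 z)).1.2 = F s z.1.2 := fun s z => by
    have a1 : (ζ (s.1 z)).1.1 = z.1.1 := by rw [← (σ _).2.2, hσ, s.2.2]
    obtain ⟨a, ha⟩ := qm_eq.1 ((ζ (s.1 z)).2.symm.trans ((congrArg Φ a1).trans z.2))
    have a2 : ζ (s.1 z) = bgAct a z := Subtype.ext (Prod.ext a1 ha.symm)
    rw [← ha, h.sec_eq (s := σ (s.1 z)) (s' := a • s) (z := bgAct a z)
      (by rw [bgSec_act, ← a2, hσ]), f1]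
  have f3 : ContMDiff (𝓡 4) 𝓘(ℝ, GR) ∞ fun z : Pb Φ (qm Gf : GR → BB) => z.1.2 := fun z => by
    obtain ⟨Φ', a1⟩ := h.sm z.1.1
    obtain ⟨a, ha⟩ := qm_eq.1 (z.2.symm.trans a1.self_of_nhds.2.symm)
    have a2 := (contDiff_gf a).contMDiff.contMDiffAt.comp z
      (a1.self_of_nhds.1.comp z (hp z).contMDiffAt)
    refine a2.congr_of_eventuallyEq (bg_lift_ev hq continuous_subtype_val.snd.continuousAt
      a2.continuousAt ha.symm (((hp z).contMDiffAt.continuousAt.eventually a1).mono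
        fun w hw => w.2.symm.trans (hw.2.symm.trans (qm_smul a _).symm)))
  refine ⟨F, fun y => F (σ y) (ζ y).1.2, R, z0, fun s => t1 _, f1, fun y => ?_, f2, fun y => ?_,
    fun s x => ?_, fun b s x hb => ?_⟩
  · obtain ⟨s, z, rfl⟩ := h.sec_surj y
    exact (l1 s z).desc (((t1 _).contMDiff.contMDiffAt.comp z (f3 z)).congr_of_eventuallyEq
      (Eventually.of_forall (f2 s)))
  · refine mem_closedBall_iff_norm.1 (t3 _ _ _ (convex_closedBall _ _)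
      fun γ hγ => mem_closedBall_iff_norm.2 ?_)
    have := h2 ε hε _ (l2 (γ⁻¹ • σ y)) z0 (Or.inr (Or.inl rfl)) (bgAct γ⁻¹ (ζ y))
      (Or.inl (mem_closedBall_zero_iff.2 hγ))
    rwa [comp, comp, bgSec_act, hσ, bgSec_smul, inv_inv] at this
  · obtain ⟨β, hβ⟩ := t4 x
    refine ⟨s.1 (bgAct β z0), mem_closedBall_iff_norm.1 (t3 _ _ _ (convex_closedBall _ _)
      fun γ hγ => mem_closedBall_iff_norm.2 ?_)⟩
    have := h2 ε hε _ (l2 (β⁻¹ • s)) (bgAct (β⁻¹ * γ) z0) (Or.inr (Or.inr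
      ⟨_, ⟨_, hγ, by simpa [mul_smul] using hβ⟩, rfl⟩)) z0 (Or.inr (Or.inl rfl))
    rwa [comp, comp, bgAct_mul, bgSec_act, bgSec_smul, inv_inv] at this
  · by_contra h0
    refine hb (t3 _ _ {b} (convex_singleton b) fun γ hγ => by_contra fun h1 => h0 ⟨γ⁻¹, hγ, ?_⟩)
    rwa [bgSec_smul, inv_inv]

end Pool.Agent.Lib.MP_029589_gt
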