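import Pool.Agent.Lib.MP_029589_gt.Vneg
import Pool.Agent.Lib.MP_029589_gt.BrgB
import Pool.Agent.Lib.MP_029589_gt.BrgC

/-! JOB B: models are iso-enlargeable and not enlargeable. -/

set_option autoImplicit false

open scoped Manifold ContDiff Topology RealInnerProductSpace
open Set Filter Function Topology

namespace Pool.Agent.Lib.MP_029589_gt

lemma bg_nrm {w a : Euc 5} (ha : ‖a‖ = 1) (h : ‖w - a‖ ≤ 1 / 10) :
    w ≠ 0 ∧ ‖‖w‖⁻¹ • w‖ = 1 ∧ ‖a - ‖w‖⁻¹ • w‖ ≤ 1 / 5 := by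
  have h1 := abs_le.1 ((abs_norm_sub_norm_le w a).trans h)
  have h2 : 0 < ‖w‖ := by linarith [h1.1]
  refine ⟨norm_pos_iff.1 h2, norm_smul_inv_norm (norm_pos_iff.1 h2), ?_⟩
  have h3 : ‖w - ‖w‖⁻¹ • w‖ = |‖w‖ - 1| := by
    rw [show w - ‖w‖⁻¹ • w = (1 - ‖w‖⁻¹) • w by module, norm_smul, Real.norm_eq_abs,
      ← abs_of_pos h2, ← abs_mul, abs_of_pos h2, sub_mul, inv_mul_cancel₀ h2.ne', one_mul]
  have h4 : |‖w‖ - 1| ≤ 1 / 10 := abs_le.2 (ha ▸ h1)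
  linarith [norm_sub_le_norm_sub_add_norm_sub a w (‖w‖⁻¹ • w), norm_sub_rev a w]

lemma bg_nrm_sm {w : Euc 5} (h : w ≠ 0) : ContDiffAt ℝ ∞ (fun w : Euc 5 => ‖w‖⁻¹ • w) w :=
  ((contDiffAt_norm ℝ h).inv (norm_ne_zero_iff.2 h)).smul contDiffAt_id

lemma bg_const {q : Sph 4} (hq : q ≠ base 4) {P : Euc 5 →L[ℝ] Euc 4}
    (hP : ∀ y, ‖P y‖ ^ 2 = ‖y‖ ^ 2 - ⟪(q : Euc 5), y⟫ ^ 2) : ⟪q.1, q.1⟫ = 1 ∧ P q = 0 ∧
    ∃ c : ℝ, 0 < c ∧ ∀ w, ‖w‖ = 1 → ((1 / 4 < ⟪q.1, w⟫ ∧ ‖c • P w‖ ≤ 1) ↔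
      (1 / 2 ≤ ⟪q.1, w⟫ ∧ ‖c • P w‖ ≤ 1)) ∧ (1 / 4 < ⟪q.1, w⟫ → ‖c • P w‖ ≤ 1 → w ≠ base 4) := by
  have hqq : ⟪q.1, q.1⟫ = 1 := by rw [real_inner_self_eq_norm_sq, norm_eq_of_mem_sphere]; simp
  have hP0 : P q = 0 := by
    rw [← norm_eq_zero, ← sq_eq_zero_iff, hP, hqq, norm_eq_of_mem_sphere, sub_self]
  refine ⟨hqq, hP0, 2 + ‖P (base 4)‖⁻¹, by positivity, fun w hw => ?_⟩
  have h0 : 0 ≤ ‖P (base 4)‖⁻¹ := by positivity
  rw [norm_smul, Real.norm_of_nonneg (by positivity)]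
  refine ⟨and_congr_left fun h => ⟨fun h1 => ?_, fun h1 => by linarith⟩, fun h1 h2 e => ?_⟩
  · have h2 := hP w
    have h3 : ‖P w‖ ≤ 1 / 2 := by nlinarith [norm_nonneg (P w)]
    rw [hw] at h2
    nlinarith [norm_nonneg (P w)]
  · subst e
    have h3 : P (base 4) ≠ 0 := fun h =>
      hq (proj_inj hP (hP0.trans h.symm) (by linarith) (by linarith))
    rw [add_mul, inv_mul_cancel₀ (norm_ne_zero_iff.2 h3)] at h2
    linarith [norm_pos_iff.2 h3]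

variable {X : Mfd 4} [CompactSpace X.M] {o : X.M → ℝ} {Φ : X.M → BB}

theorem IsModel.iso (h : IsModel X o Φ) (ho : Ori (Euc 4) o) (g : X.Metric) :
    IsoEnlargeable X g o := bg_iso h ho g

theorem IsModel.not_enl (h : IsModel X o Φ) (ho : Ori (Euc 4) o) (g : X.Metric) :
    ¬Enlargeable X g o := by
  intro he
  obtain ⟨D, hD, happ⟩ := h.approx (Euc 5) g
  obtain ⟨κ, hκ, hcnt⟩ := h.count
  obtain ⟨C, f, f1, f2, ⟨K, hK, f3⟩, q0, hq0, f4, f5⟩ := he (1 / 10 / D) (by positivity)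
  obtain ⟨F, f', R, z0, a1, a2, a3, a4, a5, a6, a7⟩ := happ (1 / 10 / D) (by positivity) C
    (fun y => (f y : Euc 5)) ⟨smooth_coe.comp f1, fun y v =>
      (le_nrm_iff g _ _ (norm_nonneg _) (by positivity)).1 (f2 y v)⟩
  rw [mul_div_cancel₀ _ hD.ne'] at a5 a6
  let N : Euc 5 → Euc 5 := fun w => ‖w‖⁻¹ • w
  have n1 := fun y => bg_nrm (norm_eq_of_mem_sphere (f y)) (a5 y)
  have n2 : ∀ s x, F s x ≠ 0 ∧ ‖N (F s x)‖ = 1 := fun s x => (a6 s x).elim fun y hy =>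
    ⟨(bg_nrm (norm_eq_of_mem_sphere (f y)) hy).1, (bg_nrm (norm_eq_of_mem_sphere (f y)) hy).2.1⟩
  have n3 : ∀ s, ContDiff ℝ ∞ fun x => N (F s x) := fun s => contDiff_iff_contDiffAt.2 fun x =>
    (bg_nrm_sm (n2 s x).1).comp x (a1 s).contDiffAt
  have n4 : N (base 4) = base 4 := by simp only [N, norm_eq_of_mem_sphere, inv_one, one_smul]
  let fn : C.Y.M → Sph 4 := fun y => ⟨N (f' y), mem_sphere_zero_iff_norm.2 (n1 y).2.1⟩
  have sN : ContMDiff (𝓡 4) (𝓡 5) ∞ fun y => N (f' y) := fun y =>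
    (bg_nrm_sm (n1 y).1).contMDiffAt.comp y (a3 y)
  have sn : ContMDiff (𝓡 4) (𝓡 4) ∞ fn :=
    have : Fact (Module.finrank ℝ (Euc 5) = 4 + 1) := ⟨finrank_euclideanSpace_fin⟩
    sN.codRestrict_sphere (n := 4) fun y => (fn y).2
  have hT : {s : BgSec C Φ | s.1 z0 ∈ K}.Finite := by
    have b1 : IsDiscrete (C.p ⁻¹' {z0.1.1}) := ⟨(C.cov z0.1.1).discreteTopology_fiber⟩
    exact (((hK.inter_right (isClosed_singleton.preimage C.cov.continuous)).finite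
      (b1.mono inter_subset_right)).preimage (f := fun s : BgSec C Φ => s.1 z0)
      fun s _ s' _ => h.sec_eq).subset fun s hs => ⟨hs, s.2.2 z0⟩
  have b2 : ∀ s x, F s x ≠ base 4 → ∃ γ : Gf, ‖γ • x‖ ≤ R ∧ (γ • s).1 z0 ∈ K := fun s x hx =>
    (a7 _ s x hx).imp fun γ hγ => ⟨hγ.1, by_contra fun h0 => hγ.2 (by rw [f3 _ h0])⟩
  have hK' := hK.union (hT.isCompact_biUnion fun s _ =>
    (bg_cpt h.cont (qm_cov GR Gf).continuous (isCompact_closedBall 0 R)).image s.2.1)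
  have b3 : ∀ y ∉ K ∪ ⋃ s ∈ {s : BgSec C Φ | s.1 z0 ∈ K},
      s.1 '' {z | z.1.2 ∈ Metric.closedBall 0 R}, f y = base 4 ∧ fn y = base 4 := fun y hy => by
    refine ⟨f3 y fun h0 => hy (Or.inl h0), Subtype.ext ?_⟩
    obtain ⟨s, z, rfl⟩ := h.sec_surj y
    have : F s z.1.2 = base 4 := by_contra fun h0 => (b2 s _ h0).elim fun γ hγ => hy (Or.inr
      (mem_biUnion hγ.2 ⟨bgAct γ z, mem_closedBall_zero_iff.2 hγ.1, bgSec_act γ s z⟩))
    exact (congrArg N ((a4 s z).trans this)).trans n4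
  have ho' := ori_pull ho (p := C.p) C.loc
  obtain ⟨q, hq, g4, g5⟩ := perturb ho' f1 sn (fun y => (n1 y).2.2) hK' b3 hq0 f4 f5
  obtain ⟨P, hP⟩ := exists_proj q
  obtain ⟨hqq, hP0, c, hc, hcw⟩ := bg_const hq hP
  obtain ⟨r1, r2⟩ := cnt_proj sn hP (a := q) (by linarith) (opull (Euc 4) o C.p)
  have c1 : Continuous fun y => ⟪q.1, (fn y).1⟫ := continuous_const.inner sN.continuous
  have sG : ContMDiff (𝓡 4) (𝓡 4) ∞ fun y => c • P (fn y) := (c • P).contMDiff.comp sN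
  obtain ⟨s1, s2⟩ := bg_scale (o := opull (Euc 4) o C.p) (O := {y | 1 / 4 < ⟪q.1, (fn y).1⟫})
    (fun y _ => (P.contMDiff.comp sN y).mdifferentiableAt (by simp)) hc (P q)
  obtain ⟨k1, k2, -⟩ := bg_deg ho' (isOpen_lt continuous_const c1) sG.contMDiffOn
    (r := 1) (by norm_num) (hK'.of_isClosed_subset (by
      simp only [mem_ofPred_eq, fun y => (hcw _ (norm_eq_of_mem_sphere (fn y))).1]
      exact (isClosed_le continuous_const c1).inter (isClosed_le sG.continuous.norm continuous_const))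
      fun y hy => by_contra fun h0 => (hcw _ (norm_eq_of_mem_sphere (fn y))).2 hy.1 hy.2
        (congrArg _ (b3 y h0).2))
  have n5 : ∀ s, ContDiff ℝ ∞ fun x => c • P (N (F s x)) := fun s => (c • P).contDiff.comp (n3 s)
  have c2 : ∀ s, Continuous fun x => ⟪q.1, N (F s x)⟫ := fun s =>
    continuous_const.inner (n3 s).continuous
  refine r2.2 g5 (s1.symm.trans (vanish8 (G := fun x s => c • P (N (F s x)))
    (O := fun s => {x | 1 / 4 < ⟪q.1, N (F s x)⟫}) (fun s => isOpen_lt continuous_const (c2 s))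
    (fun γ x s => by simp only [mem_ofPred_eq, a2]) (fun γ x s => by simp only [a2])
    (fun s => (n5 s).contDiffOn) (fun s => ?_) ⟨R, hT.toFinset, fun x s h1 h2 => ?_⟩ hκ ?_))
  · simp only [mem_ofPred_eq, fun x => (hcw _ (n2 s x).2).1]
    exact (isClosed_le continuous_const (c2 s)).inter
      (isClosed_le (n5 s).continuous.norm continuous_const)
  · exact (b2 s x fun h0 => (hcw _ (n2 s x).2).2 h1 h2 ((congrArg N h0).trans n4)).imp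
      fun γ hγ => ⟨hγ.1, hT.mem_toFinset.2 hγ.2⟩
  filter_upwards [k2] with y b4 b5
  refine Eq.trans ?_ (k1 _ y (by simp [hP0]) b5.le (s2.2 (r1.2 g4)) (b4 b5))
  refine (Eq.trans (hcnt (f := fun s x => c • P (N (F s x)))
    (c := fun x s => 1 / 4 < ⟪q.1, N (F s x)⟫ ∧ c • P (N (F s x)) = y)
    (fun y' x s => ∃ z, z.1.2 = x ∧ s.1 z = y') C.loc
    (fun y' _ => (sG y').mdifferentiableAt (by simp)) (b4 b5) (fun y' h1 h2 x hx => ?_)
    (fun x' x s h1 h2 => ?_) ?_ ?_ (fun x s _ => (n5 s).differentiable (by simp) x) ?_)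
    (finsum_mem_congr rfl fun t _ => ?_)).symm
  · obtain ⟨s, hs⟩ := h.sec_ex (y := y') (z := ⟨(C.p y', x), hx.symm⟩) rfl
    have e : F s x = f' y' := by rw [← hs, a4]
    exact ⟨s, by rw [e]; exact ⟨h1, h2⟩, _, rfl, hs⟩
  · have e := a4 s ⟨(x', x), h1.symm⟩
    exact ⟨s.1 ⟨(x', x), h1.symm⟩, show _ < ⟪q.1, N (f' _)⟫ from e ▸ h2.1,
      show c • P (N (f' _)) = y from e ▸ h2.2, s.2.2 _, _, rfl, rfl⟩
  · rintro _ _ _ s e ⟨z, rfl, rfl⟩ ⟨z', h1, rfl⟩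
    rw [s.2.2, s.2.2] at e
    rw [show z = z' from Subtype.ext (Prod.ext e h1.symm)]
  · rintro _ _ s s' ⟨z, rfl, rfl⟩ ⟨z', h1, h2⟩
    have e : z'.1.1 = z.1.1 := by rw [← s'.2.2, h2, s.2.2]
    rw [show z' = z from Subtype.ext (Prod.ext e h1)] at h2
    exact h.sec_eq h2.symm
  · rintro _ _ s ⟨z, rfl, rfl⟩ W _ l m w h1 h2 h3 h4 h5
    filter_upwards [h.sec_ev h1 h2 h3 h4 h5] with v ⟨z', e1, e2⟩
    change c • P (N (f' (l v))) = c • P (N (F s (m v)))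
    rw [← e1, ← e2, a4]
  · rw [← fderiv_comp _ ((n5 _).differentiable (by simp) _)
      ((bg_tor hκ).differentiable (by simp) _)]
    rfl

end Pool.Agent.Lib.MP_029589_gt
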