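import Pool.Agent.Lib.MP_029589_gt.Et

/-! Counting lemmas for models. -/

set_option autoImplicit false

open scoped Manifold ContDiff Topology
open Set Filter Function Topology

namespace Pool.Agent.Lib.MP_029589_gt

lemma bg_finsum {α β : Type} {s : Set α} {t : Set β} {f : α → ℝ} {g : β → ℝ} (R : α → β → Prop)
    (h1 : ∀ a ∈ s, ∃ b ∈ t, R a b) (h2 : ∀ b ∈ t, g b ≠ 0 → ∃ a ∈ s, R a b)
    (h3 : ∀ a a' b, R a b → R a' b → a = a')
    (h4 : ∀ a, ∀ b ∈ t, ∀ b' ∈ t, R a b → R a b' → b = b')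
    (h5 : ∀ a ∈ s, ∀ b ∈ t, R a b → f a = g b) : ∑ᶠ a ∈ s, f a = ∑ᶠ b ∈ t, g b := by
  rcases s.eq_empty_or_nonempty with rfl | ⟨a0, ha0⟩
  · rw [finsum_mem_empty]
    refine (finsum_mem_of_eqOn_zero fun b hb => by_contra fun h => ?_).symm
    obtain ⟨a, ha, -⟩ := h2 b hb h
    exact ha
  have : Nonempty β := ⟨(h1 a0 ha0).choose⟩
  choose! φ p1 p2 using h1
  have hi : InjOn φ s := fun a ha a' ha' e => h3 a a' _ (p2 a ha) (e ▸ p2 a' ha')
  rw [finsum_mem_eq_of_bijOn φ hi.bijOn_image fun a ha => h5 a ha _ (p1 a ha) (p2 a ha)]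
  refine finsum_mem_inter_support_eq' _ _ _ fun b hb => ⟨?_, fun h => ?_⟩
  · rintro ⟨a, ha, rfl⟩
    exact p1 a ha
  · obtain ⟨a, ha, hr⟩ := h2 b h hb
    exact ⟨a, ha, h4 a _ (p1 a ha) _ h (p2 a ha) hr⟩

lemma bg_lift_ev {F B Z : Type} [TopologicalSpace F] [TopologicalSpace B] [TopologicalSpace Z]
    {π : F → B} (h : IsLocalHomeomorph π) {s s' : Z → F} {z : Z} (hs : ContinuousAt s z)
    (hs' : ContinuousAt s' z) (e : s z = s' z) (he : ∀ᶠ w in 𝓝 z, π (s w) = π (s' w)) :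
    s =ᶠ[𝓝 z] s' := by
  obtain ⟨U, h1, h2, h3⟩ := h.isLocallyInjective (s z)
  filter_upwards [he, hs.eventually (h1.mem_nhds h2), hs'.eventually (h1.mem_nhds (e ▸ h2))]
    with w a1 a2 a3 using h3 a2 a3 a1

section
variable {V : Type} [NormedAddCommGroup V] [NormedSpace ℝ V]
  {M N P : Type} [TopologicalSpace M] [ChartedSpace V M] [TopologicalSpace N] [ChartedSpace V N]

lemma bg_exists_lift [TopologicalSpace P] {p : M → N} {z : M} (hp : LD V p z) {j : P → N} {u : P}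
    (hj : ContinuousAt j u) (e : j u = p z) :
    ∃ l : P → M, ContinuousAt l u ∧ l u = z ∧ p ∘ l =ᶠ[𝓝 u] j := by
  refine ⟨hp.localInverse ∘ j, ContinuousAt.comp (e ▸ hp.localInverse_contMDiffAt.continuousAt) hj,
    ?_, ?_⟩
  · rw [comp, e]
    exact hp.localInverse_left_inv hp.localInverse_mem_target
  · exact hj.eventually (e ▸ hp.localInverse_eventuallyEq_right)

lemma bg_sign {o : N → ℝ} {p : M → N} {j : V → N} {l : V → M} {u : V} {G : M → V}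
    (hp : LD V p (l u)) (hj : LD V j u) (ho : opull V o j u = 1) (hl : ContinuousAt l u)
    (e : p ∘ l =ᶠ[𝓝 u] j) (hG : MDifferentiableAt 𝓘(ℝ, V) 𝓘(ℝ, V) G (l u)) :
    opull V o p (l u) * (SignType.sign (jd G (l u)) : ℝ) =
      SignType.sign (fderiv ℝ (G ∘ l) u).det := by
  have h1 : LD V l u := LD.lift hl hp (hj.congr e)
  have h2 : p (l u) = j u := e.self_of_nhds
  rw [opull, ← md_congr e, md_comp hp.mdiff h1.mdiff, det_comp', sign_mul, ← h2] at ho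
  rw [← md_eq_fderiv, md_comp hG h1.mdiff, det_comp', sign_mul, opull, jd]
  push_cast at ho ⊢
  rcases h1.det_ne.lt_or_gt with h | h
  · rw [sign_neg h, SignType.coe_neg_one] at ho ⊢
    linear_combination -(SignType.sign (md V V G (l u)).det : ℝ) * ho
  · rw [sign_pos h, SignType.coe_one] at ho ⊢
    linear_combination (SignType.sign (md V V G (l u)).det : ℝ) * ho

variable [FiniteDimensional ℝ V] {o : M → ℝ} {O : Set M} {G : M → V}

lemma bg_scale (hG : ∀ x ∈ O, MDifferentiableAt 𝓘(ℝ, V) 𝓘(ℝ, V) G x) {c : ℝ} (hc : 0 < c) (y : V) :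
    cnt o O (fun x => c • G x) (c • y) = cnt o O G y ∧
      (Reg O (fun x => c • G x) (c • y) ↔ Reg O G y) := by
  have h1 : ∀ x ∈ O, jd (fun x => c • G x) x = c ^ Module.finrank ℝ V * jd G x := fun x hx => by
    have := jd_clm (c • ContinuousLinearMap.id ℝ V) (hG x hx)
    rwa [show (c • ContinuousLinearMap.id ℝ V).det = c ^ Module.finrank ℝ V from by
      simp [ContinuousLinearMap.det]] at this
  have h2 : ∀ x, c • G x = c • y ↔ G x = y := fun x => smul_right_inj hc.ne'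
  refine ⟨finsum_mem_congr (by simp only [h2]) fun x hx => ?_, forall₂_congr fun x hx => ?_⟩
  · rw [h1 x hx.1, sign_mul_pos (pow_pos hc _)]
  · rw [h1 x hx, h2, mul_ne_zero_iff_left (pow_pos hc _).ne']

omit [FiniteDimensional ℝ V] in
lemma bg_jd_add {x : M} (hG : MDifferentiableAt 𝓘(ℝ, V) 𝓘(ℝ, V) G x) (c : V) :
    jd (fun x => G x + c) x = jd G x := by
  have := md_clm_comp hG (g := fun v => v + c) (differentiableAt_id.add_const c)
  rw [fderiv_add_const, fderiv_fun_id] at this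
  exact congrArg ContinuousLinearMap.det this

variable [IsManifold 𝓘(ℝ, V) ∞ M] [T2Space M]

lemma bg_deg (ho : Ori V o) (hO : IsOpen O) (hG : ContMDiffOn 𝓘(ℝ, V) 𝓘(ℝ, V) ∞ G O) {r : ℝ}
    (hr : 1 / 2 < r) (hK : IsCompact {x | x ∈ O ∧ ‖G x‖ ≤ r}) :
    (∀ y y', ‖y‖ ≤ 1 / 2 → ‖y'‖ ≤ 1 / 2 → Reg O G y → Reg O G y' → cnt o O G y' = cnt o O G y) ∧
      (∀ᶠ y in aeV V, ‖y‖ < 1 / 2 → Reg O G y) ∧ (∃ y, ‖y‖ ≤ 1 / 4 ∧ Reg O G y) ∧
      ∀ y, ‖y‖ ≤ 1 / 2 → Reg O G y → {x | x ∈ O ∧ G x = y}.Finite := by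
  have hKO : {x | x ∈ O ∧ ‖G x‖ ≤ r} ⊆ O := fun x hx => hx.1
  have h0 : ∀ x ∈ O, x ∉ {x | x ∈ O ∧ ‖G x‖ ≤ r} → r < ‖G x‖ := fun x h1 h2 =>
    not_le.1 fun h => h2 ⟨h1, h⟩
  have d : ∀ x ∈ O, MDifferentiableAt 𝓘(ℝ, V) 𝓘(ℝ, V) G x := fun x hx =>
    (hG.contMDiffAt (hO.mem_nhds hx)).mdifferentiableAt (by simp)
  refine ⟨fun y y' h1 h2 r1 r2 => ?_, ?_, ?_, fun y h1 r1 =>
    kit_finite hO hK hKO hG (fun x a b e => by linarith [h0 x a b, e ▸ h1]) r1⟩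
  · have e : ∀ x, G x + (y - y') = y ↔ G x = y' := fun x => by
      rw [← sub_eq_zero, ← sub_eq_zero (a := G x)]
      congr! 1
      abel
    rw [kit_main ho hO hK hKO hG (G1 := fun x => G x + (y - y')) (hG.add contMDiffOn_const)
      (sub_pos.2 hr) (fun x a b τ hτ => ?_) r1 fun x a b => by
        rw [bg_jd_add (d x a)]; exact r2 x a ((e x).1 b)]
    · exact finsum_mem_congr (by simp only [e]) fun x hx => by rw [bg_jd_add (d x hx.1)]
    · have e1 : (1 - τ) • G x + τ • (G x + (y - y')) - y = G x - ((1 - τ) • y + τ • y') := by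
        module
      have e2 := mem_closedBall_zero_iff.1 ((convex_closedBall (0 : V) (1 / 2))
        (mem_closedBall_zero_iff.2 h1) (mem_closedBall_zero_iff.2 h2) (sub_nonneg.2 hτ.2) hτ.1
        (sub_add_cancel _ _))
      rw [e1]
      linarith [h0 x a b, norm_sub_norm_le (G x) ((1 - τ) • y + τ • y')]
  · filter_upwards [kit_ae hO hK hKO hG] with y hy h x hx e
    exact hy x ⟨hx, by rw [e]; linarith⟩ e
  · obtain ⟨y, h1, h2⟩ := kit_sard hO hK hKO hG (z := 0) (δ := r) (by linarith)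
      (fun x a b => by simpa using (h0 x a b).le) (Metric.closedBall_mem_nhds 0 (by norm_num :
        (0 : ℝ) < 1 / 4))
    exact ⟨y, mem_closedBall_zero_iff.1 h1, h2⟩

end

lemma bg_io : ContDiff ℝ ∞ fun w : Fin 4 → ℝ => ((io w, 0) : GR) := by
  refine ContDiff.prodMk (contDiff_pi.2 fun i => ?_) contDiff_const
  fin_cases i <;> simp [io] <;> fun_prop

lemma bg_tor {κ : Euc 4 → Fin 4 → ℝ} (hκ : Eqv4 κ) : ContDiff ℝ ∞ (tor κ) := bg_io.comp hκ.1

lemma bg_tor_det {κ : Euc 4 → Fin 4 → ℝ} (hκ : Eqv4 κ) {u : Euc 4}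
    (h : ¬Injective (fderiv ℝ κ u)) (L : GR →L[ℝ] Euc 4) :
    (L.comp (fderiv ℝ (tor κ) u)).det = 0 := by
  by_contra h1
  have h2 := (det_ne_zero_iff _).1 h1
  have h3 := fderiv_comp u (bg_io.differentiable (by simp) (κ u)) (hκ.1.differentiable (by simp) u)
  rw [show tor κ = (fun w : Fin 4 → ℝ => ((io w, 0) : GR)) ∘ κ from rfl, h3] at h2
  exact h (Injective.of_comp (Injective.of_comp (f := L) h2))

lemma bg_cube (u : Euc 4) : ∃ a, u + lat a ∈ cube := ⟨fun i => -⌊u i⌋, fun i => by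
  have h : (u + lat fun i => -⌊u i⌋) i = Int.fract (u i) := by
    simp [Int.fract, sub_eq_add_neg]
  rw [h]
  exact ⟨Int.fract_nonneg _, Int.fract_lt_one _⟩⟩

lemma bg_cube_eq {u : Euc 4} {a : Fin 4 → ℤ} (h : u ∈ cube) (h' : u + lat a ∈ cube) :
    u + lat a = u := by
  have : a = 0 := funext fun i => by
    have h1 := h i
    have h2 := h' i
    simp only [PiLp.add_apply, lat_apply, mem_Ico] at h1 h2
    have h3 : (a i : ℝ) < 1 := by linarith
    have h4 : (-1 : ℝ) < a i := by linarith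
    have h5 : a i < 1 := by exact_mod_cast h3
    have h6 : -1 < a i := by exact_mod_cast h4
    simp only [Pi.zero_apply]
    omega
  rw [this, lat_zero, add_zero]

variable {X : Mfd 4} {o : X.M → ℝ} {Φ : X.M → BB}

lemma IsModel.cont (h : IsModel X o Φ) : Continuous Φ := continuous_iff_continuousAt.2 fun x => by
  obtain ⟨Φ', h1⟩ := h.sm x
  exact ((qm_cov GR Gf).continuous.continuousAt.comp
    h1.self_of_nhds.1.continuousAt).congr (h1.mono fun y hy => hy.2)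

lemma IsModel.bound [CompactSpace X.M] (h : IsModel X o Φ) (g : X.Metric) :
    ∃ C > 0, ∀ x, ∃ Φ', LocLift Φ Φ' x ∧
      ∀ v, ‖pl (-(Φ' x).2) (md (Euc 4) GR Φ' x v)‖ ≤ C * nrm g x v := by
  let Q : ℝ → X.M → Prop := fun C x => ∃ Φ', LocLift Φ Φ' x ∧
      ∀ v, ‖pl (-(Φ' x).2) (md (Euc 4) GR Φ' x v)‖ ≤ C * nrm g x v
  have mo : ∀ C D x, C ≤ D → Q C x → Q D x := fun C D x hC ⟨Φ', a, b⟩ =>
    ⟨Φ', a, fun v => (b v).trans (mul_le_mul_of_nonneg_right hC (nrm_nonneg _ _ _))⟩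
  obtain ⟨C, hC⟩ : ∃ C, ∀ x ∈ (univ : Set X.M), Q C x := by
    refine isCompact_univ.induction_on (p := fun L => ∃ C, ∀ x ∈ L, Q C x) ⟨0, by simp⟩
      (fun s t hst ⟨C, hC⟩ => ⟨C, fun c hc => hC c (hst hc)⟩)
      (fun s t ⟨C, hC⟩ ⟨D, hD⟩ => ⟨max C D, fun c hc => hc.elim
        (fun h => mo _ _ _ (le_max_left _ _) (hC c h))
        fun h => mo _ _ _ (le_max_right _ _) (hD c h)⟩) fun x _ => ?_
    obtain ⟨Φ', h1⟩ := h.sm x
    obtain ⟨C, hC, h2⟩ := met_upper g (h1.mono fun y hy => hy.1)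
    have h3 : ContinuousAt (fun y => ‖pl (-(Φ' y).2)‖) x := (continuous_pl.continuousAt.comp
      h1.self_of_nhds.1.continuousAt.snd.neg).norm
    refine ⟨_, nhdsWithin_le_nhds ((h1.eventually_nhds.and h2).and
      (h3.eventually_lt continuousAt_const (lt_add_one _))), (‖pl (-(Φ' x).2)‖ + 1) * C,
      fun y hy => ⟨Φ', hy.1.1, fun v => ?_⟩⟩
    rw [mul_assoc]
    exact (ContinuousLinearMap.le_opNorm _ _).trans
      (mul_le_mul hy.2.le (hy.1.2 v) (norm_nonneg _) (by positivity))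
  exact ⟨max C 1, lt_max_of_lt_right one_pos, fun x => mo _ _ _ (le_max_left _ _) (hC x trivial)⟩

lemma bg_cpt [CompactSpace X.M] (hΦ : Continuous Φ) {F : Type} [TopologicalSpace F] {π : F → BB}
    (hπ : Continuous π) {K : Set F} (hK : IsCompact K) : IsCompact {z : Pb Φ π | z.1.2 ∈ K} := by
  have := (isClosed_eq (hΦ.comp continuous_fst) (hπ.comp continuous_snd)
    ).isClosedEmbedding_subtypeVal.isCompact_preimage (isCompact_univ.prod hK)
  exact (Set.ext fun z => ⟨fun h => ⟨trivial, h⟩, fun h => h.2⟩ :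
    {z : Pb Φ π | z.1.2 ∈ K} = Subtype.val ⁻¹' univ ×ˢ K) ▸ this

theorem IsModel.count (h : IsModel X o Φ) : ∃ κ, Eqv4 κ ∧ ∀ {Z : Type} [TopologicalSpace Z]
    [ChartedSpace (Euc 4) Z] {p : Z → X.M} {O : Set Z} {G : Z → Euc 4} {y : Euc 4} {A : Type}
    {f : A → GR → Euc 4} {c : GR → A → Prop} (R : Z → GR → A → Prop), (∀ z, LD (Euc 4) p z) →
    (∀ z ∈ O, MDifferentiableAt (𝓡 4) (𝓡 4) G z) → Reg O G y →
    (∀ z ∈ O, G z = y → ∀ g, qm Gf g = Φ (p z) → ∃ a, c g a ∧ R z g a) →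
    (∀ x g a, qm Gf g = Φ x → c g a → ∃ z ∈ O, G z = y ∧ p z = x ∧ R z g a) →
    (∀ z z' g a, p z = p z' → R z g a → R z' g a → z = z') →
    (∀ z g a a', R z g a → R z g a' → a = a') → (∀ g a, c g a → DifferentiableAt ℝ (f a) g) →
    (∀ z g a, R z g a → ∀ (W : Type) [TopologicalSpace W] (l : W → Z) (m : W → GR) w,
      ContinuousAt l w → ContinuousAt m w → l w = z → m w = g →
      (∀ᶠ v in 𝓝 w, qm Gf (m v) = Φ (p (l v))) → G ∘ l =ᶠ[𝓝 w] f a ∘ m) →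
    cnt (opull (Euc 4) o p) O G y = ∑ᶠ t ∈ {t : Euc 4 × A | t.1 ∈ cube ∧ c (tor κ t.1) t.2},
      (SignType.sign ((fderiv ℝ (f t.2) (tor κ t.1)).comp (fderiv ℝ (tor κ) t.1)).det : ℝ) := by
  obtain ⟨U, j, κ, hU, hκ, u1, u2, u3, u4, u5, u6⟩ := h.par
  refine ⟨κ, hκ, fun {Z} _ _ {p O G y A f c} R hp hG hr r1 r2 r3 r4 r5 r6 => ?_⟩
  refine bg_finsum (fun z t => t.1 ∈ U ∧ p z = j t.1 ∧ R z (tor κ t.1) t.2) (fun z hz => ?_)
    (fun t ht h1 => ?_) (fun z z' t h1 h2 => r3 z z' _ _ (h1.2.1.trans h2.2.1.symm) h1.2.2 h2.2.2)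
    (fun z t ht t' ht' h1 h2 => ?_) fun z hz t ht h1 => ?_
  · obtain ⟨u, hu, e⟩ : p z ∈ j '' U := by
      by_contra h0
      obtain ⟨Φ', h1, h2⟩ := u6 _ h0
      obtain ⟨a, a1, a2⟩ := r1 z hz.1 hz.2 _ h1.self_of_nhds.2
      have hc := (hp z).contMDiffAt.continuousAt
      have d := h1.self_of_nhds.1.mdifferentiableAt (by simp)
      have h3 := md_congr (V := Euc 4) (W := Euc 4) (r6 z _ a a2 Z id (Φ' ∘ p) z continuousAt_id
        (d.continuousAt.comp hc) rfl rfl (hc.eventually (h1.mono fun _ h => h.2)))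
      rw [md_clm_comp (d.comp z (hp z).mdiff) (r5 _ _ a1), md_comp d (hp z).mdiff] at h3
      have h4 := (det_ne_zero_iff _).1 (hr z hz.1 hz.2)
      rw [show md (Euc 4) (Euc 4) G z = _ from h3] at h4
      exact h2 (Injective.of_comp_right (g := md (Euc 4) (Euc 4) p z)
        (Injective.of_comp (f := fderiv ℝ (f a) _) h4) (hp z).surj)
    obtain ⟨b, hb⟩ := bg_cube u
    have e' := (u2 u b).trans e
    obtain ⟨a, a1, a2⟩ := r1 z hz.1 hz.2 _ (e' ▸ (u3 _ ((u1 u b).2 hu)).2.2.symm)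
    exact ⟨(u + lat b, a), ⟨hb, a1⟩, (u1 u b).2 hu, e'.symm, a2⟩
  · have hu : t.1 ∈ U := by_contra fun h0 => h1 (by rw [bg_tor_det hκ (u5 _ h0)]; simp)
    obtain ⟨z, a1, a2, a3⟩ := r2 _ _ _ (u3 _ hu).2.2.symm ht.2
    exact ⟨z, ⟨a1, a2⟩, hu, a3⟩
  · obtain ⟨a, e⟩ := u4 _ h1.1 _ h2.1 (h1.2.1.symm.trans h2.2.1)
    have e' : t'.1 = t.1 := e.trans (bg_cube_eq ht.1 (e ▸ ht'.1))
    exact Prod.ext e'.symm (r4 z _ _ _ h1.2.2 (e' ▸ h2.2.2))
  · obtain ⟨a1, a2, -⟩ := u3 _ h1.1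
    obtain ⟨l, l1, rfl, l3⟩ := bg_exists_lift (hp z) a1.contMDiffAt.continuousAt h1.2.1.symm
    have d := (bg_tor hκ).differentiable (by simp) t.1
    rw [bg_sign (hp _) a1 a2 l1 l3 (hG _ hz.1), (r6 _ _ _ h1.2.2 _ l (tor κ) t.1 l1 d.continuousAt
      rfl rfl ?_).fderiv_eq, fderiv_comp _ (r5 _ _ ht.2) d]
    filter_upwards [l3, hU.mem_nhds h1.1] with v b1 b2
    rw [← (u3 v b2).2.2, ← b1, comp]

end Pool.Agent.Lib.MP_029589_gt
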