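import Pool.Agent.Lib.MP_029589_gt.Form

/-! Matrices of forms, connections, curvature and transgression. -/

set_option autoImplicit false

open scoped Manifold ContDiff Topology Matrix
open Set Filter Function

namespace Pool.Agent.Lib.MP_029589_gt

variable {n k : ℕ} {M N : Type} [TopologicalSpace M] [ChartedSpace (Euc n) M]
  [TopologicalSpace N] [ChartedSpace (Euc k) N] {κ κ' κ'' : Type}

/-- The relation `X' = dX` near `y`. -/
def HM (y : M) (X X' : M → Matrix κ κ' (Lm n)) : Prop :=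
  ∀ i j, HD y (fun z => X z i j) fun z => X' z i j

variable (n) in
/-- Real matrices as matrices of forms. -/
noncomputable def rm (A : Matrix κ κ' ℝ) : Matrix κ κ' (Lm n) := A.map (algebraMap ℝ _)

variable (n) in
/-- The differential of a matrix valued function. -/
noncomputable def dm (A : M → Matrix κ κ' ℝ) (z : M) : Matrix κ κ' (Lm n) :=
  .of fun i j => df n (fun w => A w i j) z

variable (n) in
/-- Smooth matrix valued functions. -/
def SmM (A : M → Matrix κ κ' ℝ) (y : M) : Prop := ∀ i j, Sm n (fun w => A w i j) y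

/-- The parity involution. -/
noncomputable def im (X : Matrix κ κ' (Lm n)) : Matrix κ κ' (Lm n) := X.map iv

/-- Matrices of covectors. -/
def L1 (X : Matrix κ κ' (Lm n)) : Prop := ∀ i j, X i j ∈ LinearMap.range cov1

variable (n k) in
/-- Pull-back of matrices of forms. -/
noncomputable def pm (f : M → N) (X : N → Matrix κ κ' (Lm k)) (z : M) : Matrix κ κ' (Lm n) :=
  (X (f z)).map (pA (md (Euc n) (Euc k) f z))

variable (n) in
/-- Germs of smooth functions. -/
def smA (y : M) : Subalgebra ℝ (M → ℝ) where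
  carrier := {a | Sm n a y}
  mul_mem' a b := (a.and b).mono fun _ h => h.1.mul h.2
  add_mem' a b := (a.and b).mono fun _ h => h.1.add h.2
  algebraMap_mem' _ := .of_forall fun _ => contMDiffAt_const

lemma Sm.cont {a : M → ℝ} {y : M} (h : Sm n a y) : ContinuousAt a y := h.self_of_nhds.continuousAt

lemma Sm.inv {a : M → ℝ} {y : M} (h : Sm n a y) (h0 : a y ≠ 0) : Sm n (fun z => (a z)⁻¹) y :=
  (h.and (h.cont.eventually_ne h0)).mono fun _ h => h.1.inv₀ h.2

lemma Sm.const (c : ℝ) (y : M) : Sm n (fun _ => c) y := .of_forall fun _ => contMDiffAt_const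

lemma Sm.mul {a b : M → ℝ} {y : M} (h : Sm n a y) (h' : Sm n b y) : Sm n (fun z => a z * b z) y :=
  (smA n y).mul_mem h h'

lemma Sm.sum {ι : Type} [Fintype ι] {a : ι → M → ℝ} {y : M} (h : ∀ i, Sm n (a i) y) :
    Sm n (fun z => ∑ i, a i z) y :=
  Sm.congr ((smA n y).sum_mem (t := Finset.univ) fun i _ => h i) (.of_forall fun z => by simp)

@[simp] lemma im_rm (A : Matrix κ κ' ℝ) : im (rm n A) = rm n A := by
  ext i j; simp [im, rm]

@[simp] lemma im_add (X Y : Matrix κ κ' (Lm n)) : im (X + Y) = im X + im Y := by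
  ext i j; simp [im]

@[simp] lemma im_sub (X Y : Matrix κ κ' (Lm n)) : im (X - Y) = im X - im Y := by
  ext i j; simp [im]

@[simp] lemma im_zero : im (0 : Matrix κ κ' (Lm n)) = 0 := by
  ext i j; simp [im]

lemma L1.im {X : Matrix κ κ' (Lm n)} (h : L1 X) : im X = -X := by
  ext i j
  obtain ⟨v, hv⟩ := h i j
  simp [MP_029589_gt.im, ← hv]

lemma L1.add {X Y : Matrix κ κ' (Lm n)} (h : L1 X) (h' : L1 Y) : L1 (X + Y) :=
  fun i j => add_mem (h i j) (h' i j)

lemma L1.sub {X Y : Matrix κ κ' (Lm n)} (h : L1 X) (h' : L1 Y) : L1 (X - Y) :=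
  fun i j => sub_mem (h i j) (h' i j)

lemma L1.smul {X : Matrix κ κ' (Lm n)} (h : L1 X) (c : ℝ) : L1 (c • X) :=
  fun i j => Submodule.smul_mem _ c (h i j)

lemma L1.zero : L1 (0 : Matrix κ κ' (Lm n)) := fun _ _ => zero_mem _

lemma L1.dm (A : M → Matrix κ κ' ℝ) (z : M) : L1 (dm n A z) := fun _ _ => ⟨_, rfl⟩

lemma L1.map {X : Matrix κ κ' (Lm k)} (h : L1 X) (T : Euc n →L[ℝ] Euc k) : L1 (X.map (pA T)) :=
  fun i j => (h i j).elim fun v hv => ⟨_, by rw [Matrix.map_apply, ← hv, pA_io]⟩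

lemma dm_congr {A B : M → Matrix κ κ' ℝ} {y : M} (h : A =ᶠ[𝓝 y] B) : dm n A y = dm n B y :=
  Matrix.ext fun i j => df_congr (h.mono fun _ h => congrFun₂ h i j)

lemma dm_const (A : Matrix κ κ' ℝ) (y : M) : dm n (fun _ => A) y = 0 :=
  Matrix.ext fun _ _ => congrFun (df_const _) y

lemma SmM.const (A : Matrix κ κ' ℝ) (y : M) : SmM n (fun _ => A) y := fun _ _ => Sm.const _ _

lemma SmM.congr {A B : M → Matrix κ κ' ℝ} {y : M} (h : SmM n A y) (e : B =ᶠ[𝓝 y] A) : SmM n B y :=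
  fun i j => (h i j).congr (e.mono fun _ h => congrFun₂ h i j)

lemma SmM.cmp {A : N → Matrix κ κ' ℝ} {f : M → N} {y : M} (h : SmM k A (f y)) (hf : SmF n k f y) :
    SmM n (fun z => A (f z)) y := fun i j => (h i j).cmp hf

lemma pm_rm (f : M → N) (A : N → Matrix κ κ' ℝ) (z : M) :
    pm n k f (fun w => rm k (A w)) z = rm n (A (f z)) := Matrix.ext fun _ _ => AlgHom.commutes _ _

lemma pm_dm {f : M → N} {A : N → Matrix κ κ' ℝ} {y : M} (h : SmM k A (f y)) (hf : SmF n k f y) :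
    pm n k f (dm k A) y = dm n (fun z => A (f z)) y :=
  Matrix.ext fun i j => pull_df ((h i j).self_of_nhds.mdifferentiableAt (by simp)) hf.mdiff

variable [Fintype κ] [Fintype κ'] {y : M}

omit [Fintype κ] in
lemma rm_mul (A : Matrix κ κ' ℝ) (B : Matrix κ' κ'' ℝ) : rm n (A * B) = rm n A * rm n B :=
  Matrix.map_mul

omit [Fintype κ] in
@[simp] lemma im_mul (X : Matrix κ κ' (Lm n)) (Y : Matrix κ' κ'' (Lm n)) :
    im (X * Y) = im X * im Y := Matrix.map_mul

omit [Fintype κ] in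
lemma L1.rmul {X : Matrix κ' κ'' (Lm n)} (h : L1 X) (A : Matrix κ κ' ℝ) : L1 (rm n A * X) :=
  fun i j => sum_mem fun l _ => by
    change algebraMap _ _ (A i l) * X l j ∈ _
    rw [← Algebra.smul_def]
    exact Submodule.smul_mem _ _ (h l j)

omit [Fintype κ] in
lemma L1.mulr {X : Matrix κ κ' (Lm n)} (h : L1 X) (A : Matrix κ' κ'' ℝ) : L1 (X * rm n A) :=
  fun i j => sum_mem fun l _ => by
    change X i l * algebraMap _ _ (A l j) ∈ _
    rw [← Algebra.commutes, ← Algebra.smul_def]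
    exact Submodule.smul_mem _ _ (h i l)

lemma L1.trace {X : Matrix κ κ' (Lm n)} (h : L1 X) (Y : Matrix κ' κ (Lm n)) :
    (X * Y).trace = (MP_029589_gt.im Y * X).trace :=
  trace_tw iv X (fun i j x => (h i j).elim fun v hv => hv ▸ io_mul v x) Y

lemma trace_rm (A : Matrix κ κ' ℝ) (Y : Matrix κ' κ (Lm n)) :
    (rm n A * Y).trace = (Y * rm n A).trace :=
  (trace_tw id (rm n A) (fun i j x => Algebra.commutes (A i j) x) Y).trans (by rw [Matrix.map_id])

lemma SmM.ev {A : M → Matrix κ κ' ℝ} (h : SmM n A y) : ∀ᶠ z in 𝓝 y, SmM n A z :=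
  eventually_all.2 fun i => eventually_all.2 fun j => (h i j).ev

omit [Fintype κ] in
lemma SmM.mul {A : M → Matrix κ κ' ℝ} {B : M → Matrix κ' κ'' ℝ} (h : SmM n A y) (h' : SmM n B y) :
    SmM n (fun z => A z * B z) y := fun i j => Sm.sum fun l => (h i l).mul (h' l j)

namespace HM

variable {X X' Y Y' : M → Matrix κ κ' (Lm n)}

omit [Fintype κ] [Fintype κ'] in
lemma congr (h : HM y X X') (e : X =ᶠ[𝓝 y] Y) (e' : X' =ᶠ[𝓝 y] Y') : HM y Y Y' := fun i j =>
  (h i j).congr (e.mono fun _ h => congrFun₂ h i j) (e'.mono fun _ h => congrFun₂ h i j)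

omit [Fintype κ] [Fintype κ'] in
lemma add (h : HM y X X') (h' : HM y Y Y') : HM y (fun z => X z + Y z) fun z => X' z + Y' z :=
  fun i j => (h i j).add (h' i j)

omit [Fintype κ] [Fintype κ'] in
lemma sub (h : HM y X X') (h' : HM y Y Y') : HM y (fun z => X z - Y z) fun z => X' z - Y' z :=
  fun i j => (h i j).sub (h' i j)

omit [Fintype κ] [Fintype κ'] in
lemma smul (h : HM y X X') (c : ℝ) : HM y (fun z => c • X z) fun z => c • X' z :=
  fun i j => (h i j).smul c

omit [Fintype κ] [Fintype κ'] in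
lemma fn {A : M → Matrix κ κ' ℝ} (h : SmM n A y) : HM y (fun z => rm n (A z)) (dm n A) :=
  fun i j => HD.fn (h i j)

omit [Fintype κ] [Fintype κ'] in
lemma dd (h : HM y X X') : HM y X' fun _ => 0 := fun i j => (h i j).dd

omit [Fintype κ] in
lemma mul {Y Y' : M → Matrix κ' κ'' (Lm n)} (h : HM y X X') (h' : HM y Y Y') :
    HM y (fun z => X z * Y z) fun z => X' z * Y z + im (X z) * Y' z := fun i j =>
  (HD.sum (s := Finset.univ) fun l _ => (h i l).mul (h' l j)).cg
    (fun z => by simp [Matrix.mul_apply])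
    fun z => by simp [Matrix.mul_apply, im, ivf, Finset.sum_add_distrib]

lemma ev (h : HM y X X') : ∀ᶠ z in 𝓝 y, HM z X X' :=
  eventually_all.2 fun i => eventually_all.2 fun j => (h i j).ev

omit [Fintype κ] [Fintype κ'] in
lemma pul {f : M → N} (hf : SmF n k f y) {X X' : N → Matrix κ κ' (Lm k)} (h : HM (f y) X X') :
    HM y (pm n k f X) (pm n k f X') := fun i j => (h i j).pul hf

lemma trace {X X' : M → Matrix κ κ (Lm n)} (h : HM y X X') :
    HD y (fun z => (X z).trace) fun z => (X' z).trace :=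
  (HD.sum (s := Finset.univ) fun i _ => h i i).cg (fun z => by simp [Matrix.trace])
    fun z => by simp [Matrix.trace]

lemma uniq [IsManifold (𝓡 n) ∞ M] (h : HM y X X') (h' : HM y X Y') : X' =ᶠ[𝓝 y] Y' :=
  (eventually_all.2 fun i => eventually_all.2 fun j => (h i j).uniq (h' i j)).mono
    fun _ h => Matrix.ext h

end HM

variable [DecidableEq κ] [DecidableEq κ']

omit [Fintype κ] in
@[simp] lemma rm_one : rm n (1 : Matrix κ κ ℝ) = 1 := Matrix.map_one _ (map_zero _) (map_one _)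

@[simp] lemma im_pow (X : Matrix κ κ (Lm n)) (m : ℕ) : im (X ^ m) = im X ^ m :=
  map_pow iv.mapMatrix X m

lemma SmM.inv {A : M → Matrix κ κ ℝ} (h : SmM n A y) (hu : IsUnit (A y)) :
    SmM n (fun z => (A z)⁻¹) y ∧ ∀ᶠ z in 𝓝 y, IsUnit (A z) := by
  let B : Matrix κ κ (smA n y) := .of fun i j => ⟨_, h i j⟩
  let e : M → smA n y →+* ℝ := fun z => (Pi.evalRingHom _ z).comp (smA n y).val.toRingHom
  have h1 : Sm n (fun z => (A z).det) y :=
    Sm.congr B.det.2 (.of_forall fun z => ((e z).map_det B).symm)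
  have h2 := ((Matrix.isUnit_iff_isUnit_det _).1 hu).ne_zero
  refine ⟨fun i j => ((h1.inv h2).mul (B.adjugate i j).2).congr (.of_forall fun z => ?_),
    (h1.cont.eventually_ne h2).mono fun z h => (Matrix.isUnit_iff_isUnit_det _).2 h.isUnit⟩
  simp only [Matrix.inv_def, Ring.inverse_eq_inv', Matrix.smul_apply, smul_eq_mul]
  exact congrArg _ (congrFun₂ ((e z).map_adjugate B) i j).symm

lemma inv_mul' {A : Matrix κ κ ℝ} (h : IsUnit A) : A⁻¹ * A = 1 :=
  A.nonsing_inv_mul ((Matrix.isUnit_iff_isUnit_det _).1 h)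

lemma mul_inv' {A : Matrix κ κ ℝ} (h : IsUnit A) : A * A⁻¹ = 1 :=
  A.mul_nonsing_inv ((Matrix.isUnit_iff_isUnit_det _).1 h)

lemma trace_conj {A : Matrix κ κ ℝ} (h : IsUnit A) {X Y : Matrix κ κ (Lm n)}
    (e : SemiconjBy (rm n A) X Y) : X.trace = Y.trace := by
  have h1 := trace_rm A⁻¹ (Y * rm n A)
  rwa [mul_assoc, ← rm_mul, mul_inv' h, ← e.eq, ← mul_assoc, ← rm_mul, inv_mul' h, rm_one,
    one_mul, mul_one] at h1

/-- The connection matrix `θ` has curvature `F` near `y`. -/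
def One (y : M) (θ F : M → Matrix κ κ (Lm n)) : Prop :=
  HM y θ (fun z => F z - θ z * θ z) ∧ ∀ᶠ z in 𝓝 y, L1 (θ z)

/-- Gauge equivalence. -/
def Gau (y : M) (A : M → Matrix κ κ ℝ) (θ φ : M → Matrix κ κ (Lm n)) : Prop :=
  ∀ᶠ z in 𝓝 y, rm n (A z) * φ z = θ z * rm n (A z) + dm n A z

/-- Covariant derivatives. -/
def Cov (y : M) (θ X X' : M → Matrix κ κ (Lm n)) : Prop :=
  HM y X fun z => X' z - θ z * X z + im (X z) * θ z

variable {θ φ F F' X X' Y Y' : M → Matrix κ κ (Lm n)} {A S S' : M → Matrix κ κ ℝ}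

omit [DecidableEq κ] in
lemma One.ev (h : One y θ F) : ∀ᶠ z in 𝓝 y, One z θ F := h.1.ev.and h.2.eventually_nhds

omit [DecidableEq κ] in
lemma One.congr (h : One y θ F) (e : θ =ᶠ[𝓝 y] φ) (e' : F =ᶠ[𝓝 y] F') : One y φ F' :=
  ⟨h.1.congr e ((e.and e').mono fun z h => by simp only [h.1, h.2]),
    (h.2.and e).mono fun _ h => h.2 ▸ h.1⟩

omit [DecidableEq κ] in
lemma One.pul {f : M → N} (hf : SmF n k f y) {θ F : N → Matrix κ κ (Lm k)} (h : One (f y) θ F) :
    One y (pm n k f θ) (pm n k f F) :=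
  ⟨(h.1.pul hf).congr .rfl (.of_forall fun z => by
      simp only [pm]; rw [Matrix.map_sub _ (map_sub _), Matrix.map_mul]),
    (hf.cont.eventually h.2).mono fun _ h => h.map _⟩

omit [DecidableEq κ] in
lemma One.zero : One y (fun _ => (0 : Matrix κ κ (Lm n))) fun _ => 0 :=
  ⟨fun _ _ => HD.zero.cg (fun _ => rfl) fun _ => by simp, .of_forall fun _ => L1.zero⟩

omit [DecidableEq κ] in
lemma Gau.congr (h : Gau y A θ φ) {θ' φ' : M → Matrix κ κ (Lm n)} (e : A =ᶠ[𝓝 y] S)
    (e1 : θ =ᶠ[𝓝 y] θ') (e2 : φ =ᶠ[𝓝 y] φ') : Gau y S θ' φ' := by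
  filter_upwards [h, e.eventuallyEq_nhds, e1, e2] with z h1 h2 h3 h4
  rw [← dm_congr h2, ← h2.self_of_nhds, ← h3, ← h4, h1]

omit [DecidableEq κ] in
lemma Gau.pul {f : M → N} (hf : SmF n k f y) {θ φ : N → Matrix κ κ (Lm k)}
    {A : N → Matrix κ κ ℝ} (hA : SmM k A (f y)) (h : Gau (f y) A θ φ) :
    Gau y (fun z => A (f z)) (pm n k f θ) (pm n k f φ) := by
  filter_upwards [hf.ev, hf.cont.eventually h, hf.cont.eventually hA.ev] with z h1 h2 h3
  rw [← pm_dm h3 h1, ← pm_rm (k := k) f A]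
  simp only [pm]
  rw [← Matrix.map_mul, h2, Matrix.map_add _ (map_add _), Matrix.map_mul]

omit [DecidableEq κ] in
lemma Cov.mul (h : Cov y θ X X') (h' : Cov y θ Y Y') :
    Cov y θ (fun z => X z * Y z) fun z => X' z * Y z + im (X z) * Y' z :=
  (HM.mul h h').congr .rfl (.of_forall fun z => by simp only [im_mul]; noncomm_ring)

omit [DecidableEq κ] in
lemma Cov.add (h : Cov y θ X X') (h' : Cov y θ Y Y') :
    Cov y θ (fun z => X z + Y z) fun z => X' z + Y' z :=
  (HM.add h h').congr .rfl (.of_forall fun z => by simp only [im_add]; noncomm_ring)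

omit [DecidableEq κ] in
lemma Cov.congr (h : Cov y θ X X') (e : X' =ᶠ[𝓝 y] Y') : Cov y θ X Y' :=
  HM.congr h .rfl (e.mono fun z h => by simp only [h])

omit [DecidableEq κ] in
lemma Cov.trace (h : Cov y θ X X') (h1 : ∀ᶠ z in 𝓝 y, L1 (θ z)) :
    HD y (fun z => (X z).trace) fun z => (X' z).trace :=
  (HM.trace h).congr .rfl (h1.mono fun z h => by simp [h.trace])

lemma Cov.pow (h : Cov y θ X fun _ => 0) (m : ℕ) : Cov y θ (fun z => X z ^ m) fun _ => 0 := by
  induction m with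
  | zero =>
    exact (HM.fn (SmM.const 1 y)).congr (.of_forall fun z => by simp) (.of_forall fun z => by
      simp [dm_const, ← rm_one (n := n), -rm_one, im_rm]; simp)
  | succ m ih => simpa [pow_succ] using ih.mul h

/-- The derivative of a power. -/
def cs {R : Type} [Ring R] (F δ : R) : ℕ → R
  | 0 => 0
  | m + 1 => cs F δ m * F + F ^ m * δ

lemma cs_conj {R : Type} [Ring R] {A F F' δ δ' : R} (h : SemiconjBy A F F') (h' : SemiconjBy A δ δ')
    (m : ℕ) : SemiconjBy A (cs F δ m) (cs F' δ' m) := by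
  induction m with
  | zero => exact SemiconjBy.zero_right _
  | succ m ih => exact (ih.mul_right h).add_right ((h.pow_right m).mul_right h')

lemma cs_apply {ι R : Type} [Ring R] (F δ : ι → R) (m : ℕ) (z : ι) :
    cs F δ m z = cs (F z) (δ z) m := by
  induction m with
  | zero => rfl
  | succ m ih => simp [cs, ih]

lemma cs_deriv {R : Type} [Ring R] [Algebra ℝ R] (a b c : R) (t : ℝ) (m : ℕ) (μ : R →ₗ[ℝ] ℝ) :
    HasDerivAt (fun s : ℝ => μ ((a + s • b + s ^ 2 • c) ^ m))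
      (μ (cs (a + t • b + t ^ 2 • c) (b + (2 * t) • c) m)) t := by
  induction m generalizing μ with
  | zero => simpa [cs] using hasDerivAt_const t _
  | succ m ih =>
    have h := fun x => ih (μ ∘ₗ LinearMap.mulRight ℝ x)
    refine ((((h a).fun_add ((hasDerivAt_id' t).fun_mul (h b))).fun_add ((hasDerivAt_pow 2 t).fun_mul
      (h c))).congr_deriv ?_).congr_of_eventuallyEq (.of_forall fun s => ?_)
    · simp [cs, mul_add]
      ring
    · simp [pow_succ _ m, mul_add]

lemma Cov.cs (h : Cov y θ F fun _ => 0) (e : ∀ᶠ z in 𝓝 y, im (F z) = F z) (h' : Cov y θ X X')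
    (m : ℕ) : Cov y θ (fun z => cs (F z) (X z) m) fun z => cs (F z) (X' z) m := by
  induction m with
  | zero => exact fun _ _ => HD.zero.cg (fun _ => rfl) fun _ => by simp [MP_029589_gt.cs]
  | succ m ih =>
    exact ((ih.mul h).add ((h.pow m).mul h')).congr (e.mono fun z h => by simp [h, MP_029589_gt.cs])

variable (n M) in
/-- Exact forms. -/
def Ex : Submodule ℝ (M → Lm n) where
  carrier := {θ | ∃ η, ∀ y, HD y η θ}
  add_mem' := fun ⟨_, a⟩ ⟨_, b⟩ => ⟨_, fun y => (a y).add (b y)⟩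
  zero_mem' := ⟨_, fun _ => HD.zero⟩
  smul_mem' := fun c _ ⟨_, a⟩ => ⟨_, fun y => (a y).smul c⟩

variable [IsManifold (𝓡 n) ∞ M]

omit [DecidableEq κ] [DecidableEq κ'] in
lemma dm_mul [Fintype κ''] {A : M → Matrix κ κ' ℝ} {B : M → Matrix κ' κ'' ℝ} (h : SmM n A y)
    (h' : SmM n B y) :
    dm n (fun z => A z * B z) y = dm n A y * rm n (B y) + rm n (A y) * dm n B y := by
  have := ((HM.fn (h.mul h')).uniq (((HM.fn h).mul (HM.fn h')).congr
    (.of_forall fun z => (rm_mul _ _).symm) .rfl)).self_of_nhds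
  simpa using this

omit [DecidableEq κ] in
lemma One.even (h : One y θ F) : ∀ᶠ z in 𝓝 y, im (F z) = F z := by
  have h1 : HM y (fun z => im (θ z)) fun z => -im (F z - θ z * θ z) := fun i j => (h.1 i j).inv
  filter_upwards [h1.uniq ((h.1.smul (-1)).congr (h.2.mono fun z h => by simp [h.im]) .rfl), h.2]
    with z h2 h3
  simpa [h3.im] using h2

omit [DecidableEq κ] [IsManifold (𝓡 n) ∞ M] in
lemma One.bianchi (h : One y θ F) (e : ∀ᶠ z in 𝓝 y, im (F z) = F z) : Cov y θ F fun _ => 0 :=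
  (h.1.dd.add (h.1.mul h.1)).congr (.of_forall fun z => by simp)
    ((h.2.and e).mono fun z h => by simp only [h.1.im, h.2]; noncomm_ring)

omit [DecidableEq κ] in
lemma Gau.conj (h : Gau y A θ φ) (hA : SmM n A y) (h1 : One y θ F) (h2 : One y φ F') :
    SemiconjBy (rm n (A y)) (F' y) (F y) := by
  have h3 := ((((HM.fn hA).mul h2.1).congr h .rfl).uniq
    ((h1.1.mul (HM.fn hA)).add (HM.fn hA).dd)).self_of_nhds
  have h4 := h.self_of_nhds
  simp only [im_rm, h1.2.self_of_nhds.im] at h3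
  have h5 : rm n (A y) * (φ y * φ y) = θ y * (θ y * rm n (A y) + dm n A y) + dm n A y * φ y := by
    rw [← mul_assoc, h4, add_mul, mul_assoc, h4]
  rw [mul_sub, h5] at h3
  rw [SemiconjBy, ← sub_eq_zero, ← sub_eq_zero.2 h3]
  noncomm_ring

variable (n) in
/-- The connection matrix of a frame. -/
noncomputable def frc (S : M → Matrix κ κ ℝ) (z : M) : Matrix κ κ (Lm n) := rm n (S z)⁻¹ * dm n S z

lemma One.fr (h : SmM n S y) (hu : IsUnit (S y)) : One y (frc n S) fun _ => 0 := by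
  obtain ⟨h1, h2⟩ := h.inv hu
  refine ⟨((HM.fn h1).mul (HM.fn h).dd).congr .rfl ?_, .of_forall fun z => (L1.dm _ _).rmul _⟩
  filter_upwards [h.ev, h1.ev, h2.eventually_nhds] with z a b c
  have h3 := dm_mul b a
  rw [dm_congr (c.mono fun w => inv_mul'), dm_const, eq_comm, add_eq_zero_iff_neg_eq] at h3
  simp only [MP_029589_gt.frc]
  rw [mul_zero, add_zero, zero_sub]
  nth_rw 1 [← h3]
  rw [neg_mul, neg_neg, mul_assoc, ← mul_assoc (rm n (S z)), ← rm_mul, mul_inv' c.self_of_nhds,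
    rm_one, one_mul]

lemma Gau.fr (h : SmM n S y) (hA : SmM n A y) (hu : IsUnit (S' y))
    (e : ∀ᶠ z in 𝓝 y, S' z = S z * A z) : Gau y A (frc n S) (frc n S') := by
  filter_upwards [h.ev, hA.ev, e.eventually_nhds, (((h.mul hA).congr e).inv hu).2] with z a b c d
  rw [c.self_of_nhds] at d
  simp only [MP_029589_gt.frc]
  rw [dm_congr c, dm_mul a b, c.self_of_nhds, Matrix.mul_inv_rev, ← mul_assoc, ← rm_mul,
    ← mul_assoc, mul_inv' (isUnit_of_mul_isUnit_right d), one_mul, mul_add, ← mul_assoc,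
    ← mul_assoc, ← rm_mul, inv_mul' (isUnit_of_mul_isUnit_left d), rm_one, one_mul]

theorem transgress {θ0 θ1 F0 F1 : M → M → Matrix κ κ (Lm n)}
    (h : ∀ y, One y (θ0 y) (F0 y) ∧ One y (θ1 y) (F1 y) ∧ ∀ᶠ z in 𝓝 y, ∃ A, SmM n A z ∧
      IsUnit (A z) ∧ Gau z A (θ0 y) (θ0 z) ∧ Gau z A (θ1 y) (θ1 z)) (m : ℕ) :
    (fun y => (F1 y y ^ m).trace - (F0 y y ^ m).trace) ∈ Ex n M := by
  let δ := fun y z => θ1 y z - θ0 y z
  let b := fun y z => F1 y z - F0 y z - δ y z * δ y z
  let c := fun y z => δ y z * δ y z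
  have h1 : ∀ t : ℝ, (fun y => (cs (F0 y y + t • b y y + t ^ 2 • c y y)
      (b y y + (2 * t) • c y y) m).trace) ∈ Ex n M := fun t => by
    refine ⟨fun y => (cs (F0 y y + t • b y y + t ^ 2 • c y y) (δ y y) m).trace, fun y => ?_⟩
    obtain ⟨a0, a1, a2⟩ := h y
    have hδ : ∀ᶠ z in 𝓝 y, L1 (δ y z) := (a1.2.and a0.2).mono fun z h => h.1.sub h.2
    have o : One y (fun z => θ0 y z + t • δ y z) fun z => F0 y z + t • b y z + t ^ 2 • c y z :=
      ⟨(a0.1.add ((a1.1.sub a0.1).smul t)).congr .rfl (.of_forall fun z => by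
        simp only [δ, b, c, mul_add, add_mul, mul_sub, sub_mul, smul_mul_assoc, mul_smul_comm]
        module), (a0.2.and hδ).mono fun z h => h.1.add (h.2.smul t)⟩
    have o' : Cov y (fun z => θ0 y z + t • δ y z) (δ y) fun z => b y z + (2 * t) • c y z :=
      (a1.1.sub a0.1).congr .rfl (hδ.mono fun z h => by
        simp only [h.im]
        simp only [δ, b, c, mul_add, add_mul, mul_sub, sub_mul, smul_mul_assoc, mul_smul_comm,
          neg_mul]
        module)
    have e : ∀ᶠ z in 𝓝 y, ∃ A, IsUnit A ∧ SemiconjBy (rm n A) (δ z z) (δ y z) ∧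
        SemiconjBy (rm n A) (F0 z z) (F0 y z) ∧ SemiconjBy (rm n A) (b z z) (b y z) ∧
        SemiconjBy (rm n A) (c z z) (c y z) := by
      filter_upwards [a0.ev, a1.ev, a2] with z b0 b1 ⟨A, b2, b3, b4, b5⟩
      have c1 : SemiconjBy (rm n (A z)) (δ z z) (δ y z) := by
        simp only [SemiconjBy, δ, mul_sub, b4.self_of_nhds, b5.self_of_nhds]; noncomm_ring
      have c2 := b4.conj b2 b0 (h z).1
      exact ⟨_, b3, c1, c2, ((b5.conj b2 b1 (h z).2.1).sub_right c2).sub_right (c1.mul_right c1),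
        c1.mul_right c1⟩
    refine (((o.bianchi o.even).cs o.even o' m).trace o.2).congr (e.mono ?_) (e.mono ?_) <;>
      rintro z ⟨A, b0, b1, b2, b3, b4⟩ <;>
      refine (trace_conj b0 (cs_conj ((b2.add_right (b3.smul_right _)).add_right
        (b4.smul_right _)) ?_ m)).symm
    exacts [b1, b3.add_right (b4.smul_right _)]
  refine (Subspace.forall_mem_dualAnnihilator_apply_eq_zero_iff _ _).1 fun μ hμ => ?_
  let τ : (M → Matrix κ κ (Lm n)) →ₗ[ℝ] M → Lm n := (Matrix.traceLinearMap κ ℝ _).compLeft M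
  have h2 := is_const_of_deriv_eq_zero (f := fun s : ℝ => (μ ∘ₗ τ)
    (((fun y => F0 y y) + s • (fun y => b y y) + s ^ 2 • fun y => c y y) ^ m))
    (fun t => (cs_deriv _ _ _ t m _).differentiableAt) (fun t => by
      rw [(cs_deriv _ _ _ t m _).deriv]
      refine Eq.trans (congrArg μ (funext fun y => ?_))
        ((Submodule.mem_dualAnnihilator μ).1 hμ _ (h1 t))
      exact congrArg Matrix.trace (cs_apply _ _ _ _)) 1 0
  refine Eq.trans (congrArg μ ?_) (((map_sub μ _ _).trans (sub_eq_zero.2 h2)))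
  ext y
  simp [τ, b, c]
  congr 2
  abel

end Pool.Agent.Lib.MP_029589_gt
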