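import Pool.Agent.Lib.MP_029589_gt.Defs

/-! Hypereuclidean coverings and iso-enlargeability (plain versions). -/

set_option autoImplicit false

open scoped Manifold ContDiff Topology

namespace Pool.Agent.Lib.MP_029589_gt

variable {n : ℕ}

/-- The manifold `Y`, with the metric and the orientation pulled back from `(X, g, o)` along the
local diffeomorphism `p`, is `ε`-hyperspherical. -/
def EpsSph {X Y : Mfd n} (p : Y.M → X.M) (g : X.Metric) (o : X.M → ℝ) (ε : ℝ) : Prop :=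
  ∃ f : Y.M → Sph n, ContMDiff (𝓡 n) (𝓡 n) ∞ f ∧
    (∀ y v, ‖dif n (n + 1) (fun y => (f y : Euc (n + 1))) y v‖ ^ 2 ≤
      ε ^ 2 * lenSq g (p y) (dif n n p y v)) ∧
    (∃ K, IsCompact K ∧ ∀ y ∉ K, f y = base n) ∧
    ∃ q, q ≠ base n ∧ (∀ y, f y = q → jdet n f y ≠ 0) ∧
      ∑ᶠ y ∈ f ⁻¹' {q}, o (p y) * (SignType.sign (jdet n p y) : ℝ) *
        (SignType.sign (jdet n f y) : ℝ) ≠ 0

/-- The covering `C`, with the metric and the orientation pulled back from `(X, g, o)`, is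
hypereuclidean: there is a smooth proper Lipschitz map to Euclidean space of non-zero degree
(signed number of preimages of a regular value). -/
def Cover.Hypereuclidean {X : Mfd n} (C : Cover X) (g : X.Metric) (o : X.M → ℝ) : Prop :=
  ∃ F : C.Y.M → Euc n, ContMDiff (𝓡 n) (𝓡 n) ∞ F ∧ IsProperMap F ∧
    (∃ L : ℝ, ∀ y v, ‖dif n n F y v‖ ^ 2 ≤ L ^ 2 * lenSq g (C.p y) (dif n n C.p y v)) ∧
    ∃ q, (∀ y, F y = q → jdet n F y ≠ 0) ∧
      ∑ᶠ y ∈ F ⁻¹' {q}, o (C.p y) * (SignType.sign (jdet n C.p y) : ℝ) *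
        (SignType.sign (jdet n F y) : ℝ) ≠ 0

/-- Property (A): some connected covering of `X` is hypereuclidean. -/
def HasHypereuclideanCover (X : Mfd n) (g : X.Metric) (o : X.M → ℝ) : Prop :=
  ∃ C : Cover X, C.Hypereuclidean g o

/-- Property (D), with pieces without boundary: for every `ε > 0` there is a local isometry to `X`
from an `ε`-hyperspherical, possibly incomplete manifold. -/
def IsoEnlargeable (X : Mfd n) (g : X.Metric) (o : X.M → ℝ) : Prop :=
  ∀ ε > 0, ∃ (Y : Mfd n) (p : Y.M → X.M), IsLocalDiffeomorph (𝓡 n) (𝓡 n) ∞ p ∧ EpsSph p g o ε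

lemma Cover.epsSpherical_iff {X : Mfd n} (C : Cover X) (g : X.Metric) (o : X.M → ℝ) (ε : ℝ) :
    C.EpsSpherical g o ε ↔ EpsSph C.p g o ε := Iff.rfl

end Pool.Agent.Lib.MP_029589_gt
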