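import Pool.Agent.Lib.MP_029589_gt.Vanish

/-! No connected covering of the example is hyperspherical. -/

set_option autoImplicit false

open scoped Manifold ContDiff Topology RealInnerProductSpace
open Set Filter Function

namespace Pool.Agent.Lib.MP_029589_gt

lemma ori_pull {V M N : Type} [NormedAddCommGroup V] [NormedSpace ℝ V] [FiniteDimensional ℝ V]
    [TopologicalSpace M] [ChartedSpace V M] [IsManifold 𝓘(ℝ, V) ∞ M] [TopologicalSpace N]
    [ChartedSpace V N] [IsManifold 𝓘(ℝ, V) ∞ N] {o : N → ℝ} (ho : Ori V o) {p : M → N}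
    (hp : ∀ x, LD V p x) : Ori V fun x => o (p x) * (SignType.sign (md V V p x).det : ℝ) := by
  refine ⟨fun x => ?_, fun x => ?_⟩
  · rcases ho.1 (p x) with h | h <;> rcases (hp x).det_ne.lt_or_gt with h' | h' <;>
      simp [h, sign_pos, sign_neg, h']
  have hc := (hp x).contMDiffAt.continuousAt
  have h1 : ∀ y, p y ∈ (chartAt V (p x)).source →
      ContMDiffAt 𝓘(ℝ, V) 𝓘(ℝ, V) ∞ (chartAt V (p x) ∘ p) y ∧ jd (chartAt V (p x) ∘ p) y =
        jd (chartAt V (p x)) (p y) * (md V V p y).det := fun y hy =>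
    ⟨(cm_chart hy).comp y (hp y).contMDiffAt, by
      rw [jd, md_comp ((cm_chart hy).mdifferentiableAt (by simp)) (hp y).mdiff, det_comp', jd]⟩
  have hx := mem_chart_source V x
  obtain ⟨h2, h3⟩ := h1 x (mem_chart_source V _)
  have e : ∀ {M : Type} [TopologicalSpace M] [ChartedSpace V M] [IsManifold 𝓘(ℝ, V) ∞ M] (a : M),
      jd (chartAt V a) a = 1 := fun a =>
    (congrArg ContinuousLinearMap.det (md_chart_self a)).trans det_id'
  rw [jd_chart h2 hx, e, e, mul_one, one_mul] at h3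
  have h4 := ((ContinuousLinearMap.continuous_det.continuousAt.comp
    ((sm_chart h2 hx).continuousAt_fderiv (by simp))).comp
      ((chartAt V x).continuousAt hx)).mul_const (md V V p x).det
  filter_upwards [continuousAt_const.eventually_lt h4 (show 0 < _ * _ from by
      simp only [comp, h3]; exact mul_self_pos.2 (hp x).det_ne), hc.eventually (ho.2 (p x)),
    hc.eventually (chart_source_mem_nhds V (p x)), chart_source_mem_nhds V x] with y a1 a2 a3 a4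
  obtain ⟨a5, a6⟩ := h1 y a3
  rw [jd_chart a5 a4] at a6
  rw [jd_ext] at a2 ⊢
  refine (mul_pos_iff_of_pos_right a1).1 ?_
  have a7 := mul_pos (mul_pos (abs_pos.2 (hp x).det_ne) (abs_pos.2 (hp y).det_ne)) a2
  rw [← sign_mul_self, ← sign_mul_self] at a7
  simp only [comp]
  convert a7 using 1
  linear_combination (o (p x) * o (p y) * (SignType.sign (md V V p x).det : ℝ) *
    (SignType.sign (md V V p y).det : ℝ) * (md V V p x).det) * a6

variable {n : ℕ}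

lemma exists_proj (q : Sph n) : ∃ P : Euc (n + 1) →L[ℝ] Euc n,
    ∀ y, ‖P y‖ ^ 2 = ‖y‖ ^ 2 - ⟪(q : Euc (n + 1)), y⟫ ^ 2 := by
  have : Fact (Module.finrank ℝ (Euc (n + 1)) = n + 1) := ⟨finrank_euclideanSpace_fin⟩
  let U := (OrthonormalBasis.fromOrthogonalSpanSingleton (𝕜 := ℝ) n
    (ne_zero_of_mem_unit_sphere q)).repr
  refine ⟨(U.toContinuousLinearEquiv : _ →L[ℝ] _).comp
    (ℝ ∙ (q : Euc (n + 1)))ᗮ.orthogonalProjectionOnto, fun y => ?_⟩
  have h := (ℝ ∙ (q : Euc (n + 1))).norm_sq_eq_add_norm_sq_starProjection y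
  rw [Submodule.starProjection_unit_singleton ℝ (norm_eq_of_mem_sphere q), norm_smul,
    norm_eq_of_mem_sphere q, mul_one, Real.norm_eq_abs, sq_abs] at h
  rw [h, add_sub_cancel_left]
  simp

/-- The differential of the inclusion of the sphere. -/
noncomputable def tS (q : Sph n) : Euc n →L[ℝ] Euc (n + 1) :=
  md (Euc n) (Euc (n + 1)) (fun y : Sph n => (y : Euc (n + 1))) q

lemma smooth_coe : ContMDiff (𝓡 n) (𝓡 (n + 1)) ∞ fun y : Sph n => (y : Euc (n + 1)) :=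
  have : Fact (Module.finrank ℝ (Euc (n + 1)) = n + 1) := ⟨finrank_euclideanSpace_fin⟩
  contMDiff_coe_sphere

section Proj

variable {q : Sph n} {P : Euc (n + 1) →L[ℝ] Euc n}
  (hP : ∀ y, ‖P y‖ ^ 2 = ‖y‖ ^ 2 - ⟪(q : Euc (n + 1)), y⟫ ^ 2)
include hP

lemma proj_le (y : Euc (n + 1)) : ‖P y‖ ≤ ‖y‖ :=
  (sq_le_sq₀ (norm_nonneg _) (norm_nonneg _)).1 (by rw [hP]; linarith [sq_nonneg ⟪q.1, y⟫])

lemma proj_zero {y : Euc (n + 1)} (h : P y = 0) : y = ⟪q.1, y⟫ • q.1 := by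
  have h1 := hP y
  rw [h, norm_zero, real_inner_comm] at h1
  rw [← sub_eq_zero, ← norm_eq_zero, ← sq_eq_zero_iff, norm_sub_sq_real, inner_smul_right,
    norm_smul, norm_eq_of_mem_sphere q, mul_one, Real.norm_eq_abs, sq_abs, real_inner_comm]
  linarith

lemma proj_inj {a b : Sph n} (h : P a = P b) (ha : 0 < ⟪q.1, a.1⟫) (hb : 0 < ⟪q.1, b.1⟫) :
    a = b := by
  have h1 := hP a
  rw [h, hP b, norm_eq_of_mem_sphere, norm_eq_of_mem_sphere] at h1
  have h2 : ⟪q.1, a.1⟫ = ⟪q.1, b.1⟫ := (sq_eq_sq₀ ha.le hb.le).1 (by linarith)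
  have h3 := proj_zero hP (y := a - b) (by rw [map_sub, h, sub_self])
  rw [inner_sub_right, h2, sub_self, zero_smul] at h3
  exact Subtype.ext (sub_eq_zero.1 h3)

lemma proj_det {a : Sph n} (ha : ⟪q.1, a.1⟫ ≠ 0) : (P.comp (tS a)).det ≠ 0 := by
  have : Fact (Module.finrank ℝ (Euc (n + 1)) = n + 1) := ⟨finrank_euclideanSpace_fin⟩
  rw [det_ne_zero_iff, injective_iff_map_eq_zero]
  intro v hv
  have h1 := proj_zero hP (y := tS a v) hv
  have h2 : tS a v ∈ (ℝ ∙ (a : Euc (n + 1)))ᗮ := range_mvfderiv_subtypeVal (n := n) a ▸ ⟨v, rfl⟩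
  rw [Submodule.mem_orthogonal_singleton_iff_inner_left, h1, real_inner_smul_left] at h2
  rw [(mul_eq_zero.1 h2).resolve_right ha, zero_smul] at h1
  exact injective_mvfderiv_subtypeVal_sphere (n := n) a (h1.trans (map_zero _).symm)

end Proj

lemma jd_proj {M : Type} [TopologicalSpace M] [ChartedSpace (Euc n) M] {f : M → Sph n}
    (hf : ContMDiff (𝓡 n) (𝓡 n) ∞ f) (P : Euc (n + 1) →L[ℝ] Euc n) (y : M) :
    jd (fun y => P (f y)) y = (P.comp (tS (f y))).det * jdet n f y := by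
  have d1 := (hf y).mdifferentiableAt (by simp)
  have d2 := (smooth_coe (f y)).mdifferentiableAt (by simp)
  have h := md_clm P (d2.comp y d1)
  rw [md_comp d2 d1, ← ContinuousLinearMap.comp_assoc] at h
  exact (congrArg ContinuousLinearMap.det h).trans (det_comp' _ _)

lemma cnt_proj {M : Type} [TopologicalSpace M] [ChartedSpace (Euc n) M] {f : M → Sph n}
    (hf : ContMDiff (𝓡 n) (𝓡 n) ∞ f) {q a : Sph n} {P : Euc (n + 1) →L[ℝ] Euc n}
    (hP : ∀ y, ‖P y‖ ^ 2 = ‖y‖ ^ 2 - ⟪(q : Euc (n + 1)), y⟫ ^ 2) (ha : 1 / 4 < ⟪q.1, a.1⟫)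
    (o : M → ℝ) :
    (Reg {y | 1 / 4 < ⟪q.1, (f y).1⟫} (fun y => P (f y)) (P a) ↔ ∀ y, f y = a → jdet n f y ≠ 0) ∧
    (cnt o {y | 1 / 4 < ⟪q.1, (f y).1⟫} (fun y => P (f y)) (P a) ≠ 0 ↔
      ∑ᶠ y ∈ f ⁻¹' {a}, o y * (SignType.sign (jdet n f y) : ℝ) ≠ 0) := by
  have h1 : ∀ y, (1 / 4 < ⟪q.1, (f y).1⟫ ∧ P (f y) = P a) ↔ f y = a := fun y =>
    ⟨fun h => proj_inj hP h.2 (by linarith [h.1]) (by linarith), fun h => by rw [h]; exact ⟨ha, rfl⟩⟩
  have h2 := proj_det hP (a := a) (by linarith)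
  refine ⟨⟨fun r y e => ?_, fun r y a1 a2 => ?_⟩, ?_⟩
  · have := r y ((h1 y).2 e).1 ((h1 y).2 e).2
    rw [jd_proj hf] at this
    exact right_ne_zero_of_mul this
  · have e := (h1 y).1 ⟨a1, a2⟩
    rw [jd_proj hf, e]
    exact mul_ne_zero h2 (r y e)
  · have e : cnt o {y | 1 / 4 < ⟪q.1, (f y).1⟫} (fun y => P (f y)) (P a) =
        (SignType.sign (P.comp (tS a)).det : ℝ) *
          ∑ᶠ y ∈ f ⁻¹' {a}, o y * (SignType.sign (jdet n f y) : ℝ) := by
      rw [mul_finsum_mem]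
      refine finsum_mem_congr (Set.ext h1) fun y hy => ?_
      rw [jd_proj hf, show f y = a from hy, sign_mul]
      push_cast
      ring
    rw [e]
    refine mul_ne_zero_iff_left ?_
    rcases h2.lt_or_gt with h | h
    · simp [sign_neg h]
    · simp [sign_pos h]

theorem not_hyperspherical (g : (XX ⊤).Metric) :
    ¬HasHypersphericalCover (XX ⊤) g fun _ => 1 := by
  rintro ⟨C, hC⟩
  obtain ⟨H, l, hl, m⟩ := exists_model C
  obtain ⟨D, hD, happ⟩ := approx g H (Euc 24)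
  obtain ⟨f, f1, f2, ⟨K, hK, f3⟩, q, hq, f4, f5⟩ := hC (1 / 10 / D) (by positivity)
  have f6 := smooth_coe.comp f1
  obtain ⟨F, a1, a2, a3, a4, a5, a6⟩ := happ (1 / 10 / D) (by positivity) (fun z => f (l z))
    ⟨f6.comp fun z => (m.ld z).contMDiffAt, fun z v => by
      have h1 := md_comp ((f6 _).mdifferentiableAt (by simp)) (m.ld z).mdiff
      have h2 := md_comp (LD.mdiff (C.loc (l z))) (m.ld z).mdiff
      rw [hl] at h2
      rw [h2, ← congrFun hl z]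
      exact (congrArg norm (DFunLike.congr_fun h1 v)).trans_le
        ((le_nrm_iff g _ _ (norm_nonneg _) (by positivity)).1 (f2 _ _))⟩
    fun h z => by rw [(m.orb _ _).2 ⟨h, rfl⟩]
  rw [mul_div_cancel₀ _ hD.ne'] at a4 a5
  obtain ⟨P, hP⟩ := exists_proj q
  obtain ⟨KZ, hKZ, hKl⟩ := m.cpt hK
  obtain ⟨KN, hKN, a7⟩ := a6 KZ hKZ
  have a8 : ∀ x, (∀ h : H, h • x ∉ KN) → F x = base 23 := fun x hx => (a7 x hx).2 _ fun z hz => by
    rw [f3 _ fun h => ?_]
    obtain ⟨z', h1, h2⟩ := hKl h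
    obtain ⟨h, rfl⟩ := (m.orb _ _).1 h2
    exact hz h h1
  have hqq : ⟪q.1, q.1⟫ = 1 := by rw [real_inner_self_eq_norm_sq, norm_eq_of_mem_sphere]; simp
  have hP0 : P q = 0 := by
    rw [← norm_eq_zero, ← sq_eq_zero_iff, hP, hqq, norm_eq_of_mem_sphere, sub_self]
  obtain ⟨β, hβ, hβ1, hβ2⟩ : ∃ β > 0, β ≤ 1 / 10 ∧ (1 / 4 < ⟪q.1, (base 23).1⟫ →
      2 * β ≤ ‖P (base 23)‖) := by
    by_cases h : P (base 23) = 0
    · exact ⟨1 / 10, by norm_num, le_rfl, fun h' => absurd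
        (proj_inj hP (hP0.trans h.symm) (by linarith) (by linarith)) hq⟩
    · exact ⟨min (1 / 10) (‖P (base 23)‖ / 2), lt_min (by norm_num) (half_pos (norm_pos_iff.2 h)),
        min_le_left _ _, fun _ => by linarith [min_le_right (1 / 10) (‖P (base 23)‖ / 2)]⟩
  have b1 : ∀ w : Euc 24, 9 / 10 ≤ ‖w‖ → 1 / 4 < ⟪q.1, w⟫ → ⟪q.1, w⟫ < 1 / 2 → 1 / 2 ≤ ‖P w‖ :=
    fun w h1 h2 h3 => (sq_le_sq₀ (by norm_num) (norm_nonneg _)).1 (by rw [hP]; nlinarith)
  have b2 : ∀ x, 9 / 10 ≤ ‖F x‖ := fun x => by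
    obtain ⟨z, hz⟩ := a5 x
    have := norm_sub_norm_le (f (l z)).1 (F x)
    rw [norm_eq_of_mem_sphere, norm_sub_rev] at this
    linarith
  let Fb : C.Y.M → Euc 24 := fun y => F (surjInv m.surj y).1
  have b3 : ∀ z, Fb (l z) = F z.1 := fun z => by
    obtain ⟨h, e⟩ := (m.orb _ _).1 (surjInv_eq m.surj (l z))
    simp only [Fb, ← e]
    exact a2 h z.1
  have b4 : ContMDiff (𝓡 23) (𝓡 24) ∞ Fb := fun y => by
    obtain ⟨z, rfl⟩ := m.surj y
    exact (m.ld z).desc ((funext b3 : Fb ∘ l = _) ▸ a1.contMDiff.contMDiffAt.comp z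
      (LS.contMDiff_val z))
  have ho := ori_pull (oriZ ⊤) (p := C.p) C.loc
  have c1 : Continuous fun y => ⟪q.1, (f y).1⟫ := continuous_const.inner f6.continuous
  have hO := isOpen_lt (continuous_const (y := (1 / 4 : ℝ))) c1
  have hl' : Continuous l := continuous_iff_continuousAt.2 fun z =>
    (m.ld z).contMDiffAt.continuousAt
  have hK1 := (hK.union (((isClosed_eq contDiff_ss.continuous continuous_const
    ).isClosedEmbedding_subtypeVal.isCompact_preimage hKN).image hl')).inter_right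
    (isClosed_le (continuous_const (y := (1 / 2 : ℝ))) c1)
  have hKO : (K ∪ l '' (Subtype.val ⁻¹' KN)) ∩ {y | 1 / 2 ≤ ⟪q.1, (f y).1⟫} ⊆
      {y | 1 / 4 < ⟪q.1, (f y).1⟫} := fun y hy =>
    lt_of_lt_of_le (by norm_num : (1 / 4 : ℝ) < 1 / 2) hy.2
  have g0 := (P.contMDiff.comp f6).contMDiffOn (s := {y | 1 / 4 < ⟪q.1, (f y).1⟫})
  have g1 := (P.contMDiff.comp b4).contMDiffOn (s := {y | 1 / 4 < ⟪q.1, (f y).1⟫})
  have far : ∀ y ∈ {y | 1 / 4 < ⟪q.1, (f y).1⟫}, y ∉ (K ∪ l '' (Subtype.val ⁻¹' KN)) ∩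
      {y | 1 / 2 ≤ ⟪q.1, (f y).1⟫} → ∀ τ ∈ Icc (0 : ℝ) 1,
      2 * β ≤ ‖(1 - τ) • P (f y) + τ • P (Fb y)‖ := fun y h1 h2 τ hτ => by
    obtain ⟨z, rfl⟩ := m.surj y
    rw [b3]
    rcases not_and_or.1 h2 with h | h
    · have e1 := f3 _ fun h' => h (Or.inl h')
      rw [a8 _ fun c hc => h (Or.inr ⟨c • z, hc, (m.orb _ _).2 ⟨c, rfl⟩⟩), e1, ← add_smul,
        sub_add_cancel, one_smul]
      exact hβ2 (e1 ▸ h1)
    · have h3 := b1 _ (by rw [norm_eq_of_mem_sphere]; norm_num) h1 (not_le.1 h)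
      have h4 := (proj_le hP _).trans (a4 z)
      have e : (1 - τ) • P (f (l z)) + τ • P (F z.1) = P (f (l z)) + τ • P (F z.1 - f (l z)) := by
        rw [map_sub]; module
      have h5 := norm_sub_le (P (f (l z)) + τ • P (F z.1 - f (l z))) (τ • P (F z.1 - f (l z)))
      rw [add_sub_cancel_right, norm_smul, Real.norm_of_nonneg hτ.1] at h5
      have := mul_le_of_le_one_left (norm_nonneg (P (F z.1 - f (l z)))) hτ.2
      rw [e]
      linarith
  obtain ⟨r1, r2⟩ := cnt_proj f1 hP (a := q) (by linarith)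
    fun y => 1 * (SignType.sign (jdet 23 C.p y) : ℝ)
  rw [hP0] at r1 r2
  have k1 := kit_near ho hO hK1 hKO g0 (z := 0) (δ := 2 * β) (by positivity)
    (fun y h1 h2 => by simpa using far y h1 h2 0 (by simp)) (r1.2 f4)
  obtain ⟨y, ⟨⟨k2, k3⟩, k4⟩, k5⟩ := kit_sard hO hK1 hKO g1 (z := 0) (δ := 2 * β) (by positivity)
    (fun y h1 h2 => by simpa using far y h1 h2 1 (by simp))
    (inter_mem k1 (Metric.closedBall_mem_nhds 0 hβ))
  rw [mem_closedBall_zero_iff] at k4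
  have k6 := kit_main ho hO hK1 hKO g0 g1 hβ (fun x h1 h2 τ hτ => by
    simp only [comp]
    linarith [far x h1 h2 τ hτ, norm_sub_norm_le ((1 - τ) • P (f x) + τ • P (Fb x)) y]) k2 k5
  have c2 : Continuous fun w : Euc 24 => ⟪q.1, w⟫ := continuous_const.inner continuous_id
  have k7 := vanish m a1 a2 a3 P (fun z => congrArg P (b3 z))
    (isOpen_lt (continuous_const (y := (1 / 4 : ℝ))) c2) (O1 := {y | 1 / 4 < ⟪q.1, (f y).1⟫})
    (y := y) (fun z hz => ?_)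
    (hKN.inter_right (isClosed_le (continuous_const (y := (1 / 2 : ℝ))) (c2.comp a1.continuous)))
    (fun x hx => lt_of_lt_of_le (by norm_num : (1 / 4 : ℝ) < 1 / 2) hx.2) hβ (fun x h1 h2 => ?_) k5
  · refine r2.2 f5 (k3.symm.trans (k6.trans ?_))
    simp only [one_mul]
    exact k7
  · have h1 := hP (F z.1)
    have h2 := abs_real_inner_le_norm q.1 (F z.1 - f (l z))
    rw [norm_eq_of_mem_sphere, one_mul, inner_sub_right, abs_le] at h2
    have h3 : ‖y‖ ^ 2 ≤ (1 / 10) ^ 2 := pow_le_pow_left₀ (norm_nonneg _) (k4.trans hβ1) 2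
    have h4 : (9 / 10) ^ 2 ≤ ‖F z.1‖ ^ 2 := pow_le_pow_left₀ (by norm_num) (b2 _) 2
    rw [hz] at h1
    have := a4 z
    simp only [mem_ofPred_eq]
    constructor <;> intro h <;> nlinarith
  · have h3 : 2 * β ≤ ‖P (F x)‖ := by
      by_cases h : ⟪q.1, F x⟫ < 1 / 2
      · linarith [b1 _ (b2 x) h1 h]
      · have e := a8 x fun c hc => h2 c ⟨hc, by simpa [a2] using h⟩
        rw [e] at h1 ⊢
        exact hβ2 h1
    linarith [norm_sub_norm_le (P (F x)) y]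

end Pool.Agent.Lib.MP_029589_gt
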