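import Pool.Agent.Lib.MP_029589_gt.Tool
import Pool.Agent.Lib.MP_029589_gt.NotB
import Pool.Agent.Lib.MP_029589_gt.DefsA

/-! Collapsing to the sphere, perturbation of sphere valued maps, transfer of signed counts. -/

set_option autoImplicit false

open scoped Manifold ContDiff Topology RealInnerProductSpace
open Set Filter Function Topology

namespace Pool.Agent.Lib.MP_029589_gt

section

variable {V : Type} [NormedAddCommGroup V] [NormedSpace ℝ V] [FiniteDimensional ℝ V]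
  {M N : Type} [TopologicalSpace M] [ChartedSpace V M] [IsManifold 𝓘(ℝ, V) ∞ M]
  [TopologicalSpace N] [ChartedSpace V N] [IsManifold 𝓘(ℝ, V) ∞ N]

/-- The pulled back orientation. -/
noncomputable def opull (V : Type) [NormedAddCommGroup V] [NormedSpace ℝ V] {M N : Type}
    [TopologicalSpace M] [ChartedSpace V M] [TopologicalSpace N] [ChartedSpace V N] (o : N → ℝ)
    (p : M → N) (x : M) : ℝ := o (p x) * (SignType.sign (md V V p x).det : ℝ)

lemma sign_sq' {a : ℝ} (h : a ≠ 0) : (SignType.sign a : ℝ) * (SignType.sign a : ℝ) = 1 := by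
  rcases h.lt_or_gt with h | h <;> simp [sign_pos, sign_neg, h]

omit [FiniteDimensional ℝ V] [IsManifold 𝓘(ℝ, V) ∞ M] [IsManifold 𝓘(ℝ, V) ∞ N] in
/-- Transfer of signed counts along a local diffeomorphism which is bijective on preimages. -/
theorem cnt_transfer {o : N → ℝ} {i : M → N} {O : Set M} {O' : Set N} {G : N → V} {G' : M → V}
    {y : V} (hb : BijOn i {x | x ∈ O ∧ G' x = y} {x | x ∈ O' ∧ G x = y})
    (h : ∀ x ∈ O, G' x = y → LD V i x ∧ MDifferentiableAt 𝓘(ℝ, V) 𝓘(ℝ, V) G (i x) ∧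
      G' =ᶠ[𝓝 x] G ∘ i) :
    cnt (opull V o i) O G' y = cnt o O' G y ∧ (Reg O G' y ↔ Reg O' G y) := by
  have key : ∀ x ∈ O, G' x = y → jd G' x = jd G (i x) * (md V V i x).det := fun x h1 h2 => by
    obtain ⟨a, b, c⟩ := h x h1 h2
    rw [jd, md_congr c, md_comp b a.mdiff, det_comp', jd]
  refine ⟨finsum_mem_eq_of_bijOn i hb fun x hx => ?_, fun r z h1 h2 => ?_, fun r x h1 h2 => ?_⟩
  · rw [key x hx.1 hx.2, opull, sign_mul]
    push_cast
    linear_combination o (i x) * (SignType.sign (jd G (i x)) : ℝ) *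
      sign_sq' (h x hx.1 hx.2).1.det_ne
  · obtain ⟨x, hx, rfl⟩ := hb.surjOn ⟨h1, h2⟩
    exact left_ne_zero_of_mul (key x hx.1 hx.2 ▸ r x hx.1 hx.2)
  · rw [key x h1 h2]
    exact mul_ne_zero (r _ (hb.mapsTo ⟨h1, h2⟩).1 (hb.mapsTo ⟨h1, h2⟩).2) (h x h1 h2).1.det_ne

omit [FiniteDimensional ℝ V] [IsManifold 𝓘(ℝ, V) ∞ M] [IsManifold 𝓘(ℝ, V) ∞ N] in
theorem opull_comp {P : Type} [TopologicalSpace P] [ChartedSpace V P] {o : P → ℝ} {p : N → P}
    {i : M → N} {x : M} (hi : LD V i x) (hp : LD V p (i x)) :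
    opull V o (p ∘ i) x = opull V (opull V o p) i x := by
  simp only [opull, md_comp hp.mdiff hi.mdiff, det_comp', sign_mul, comp, SignType.coe_mul,
    mul_assoc]

omit [FiniteDimensional ℝ V] [IsManifold 𝓘(ℝ, V) ∞ M] in
theorem cnt_component {o : M → ℝ} {O : Set M} {G : M → V} {y : V}
    (hf : {x | x ∈ O ∧ G x = y}.Finite) (h : cnt o O G y ≠ 0) :
    ∃ z, cnt o (O ∩ connectedComponent z) G y ≠ 0 := by
  classical
  by_contra! hz
  refine h ?_
  rw [cnt, finsum_mem_eq_finite_toFinset_sum _ hf, ← Finset.sum_fiberwise_of_maps_to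
    (g := ConnectedComponents.mk) fun x hx => Finset.mem_image_of_mem _ hx]
  refine Finset.sum_eq_zero fun c _ => ?_
  obtain ⟨z, rfl⟩ := ConnectedComponents.surjective_coe c
  rw [← hz z, cnt, ← finsum_mem_coe_finset]
  refine finsum_mem_congr (Set.ext fun x => ?_) fun _ _ => rfl
  simp only [Finset.coe_filter, Finite.mem_toFinset, mem_ofPred_eq, mem_inter_iff,
    ConnectedComponents.coe_eq_coe']
  tauto

omit [FiniteDimensional ℝ V] [IsManifold 𝓘(ℝ, V) ∞ M] in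
lemma md_smul {W : Type} [NormedAddCommGroup W] [NormedSpace ℝ W] (t : ℝ) {G : M → W} {x : M}
    (h : MDifferentiableAt 𝓘(ℝ, V) 𝓘(ℝ, W) G x) : md V W (fun x => t • G x) x = t • md V W G x :=
  md_clm (t • ContinuousLinearMap.id ℝ W) h

omit [IsManifold 𝓘(ℝ, V) ∞ M] in
lemma cnt_clm {o : M → ℝ} {O : Set M} {G : M → V} {y : V} {L : V →L[ℝ] V} (hL : 0 < L.det)
    (h : ∀ x ∈ O, G x = y → MDifferentiableAt 𝓘(ℝ, V) 𝓘(ℝ, V) G x) :
    cnt o O (L ∘ G) (L y) = cnt o O G y ∧ (Reg O (L ∘ G) (L y) ↔ Reg O G y) := by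
  have hi := (det_ne_zero_iff L).1 hL.ne'
  refine ⟨finsum_mem_congr (Set.ext fun x => and_congr_right fun _ => hi.eq_iff) fun x hx => ?_,
    forall₂_congr fun x hx => ?_⟩
  · rw [jd_clm L (h x hx.1 hx.2), sign_mul_pos hL]
  · rw [comp, hi.eq_iff]
    exact forall_congr' fun e => by rw [jd_clm L (h x hx e), mul_ne_zero_iff_left hL.ne']

omit [IsManifold 𝓘(ℝ, V) ∞ M] in
lemma cnt_smul {o : M → ℝ} {O : Set M} {G : M → V} {y : V} {t : ℝ} (ht : 0 < t)
    (h : ∀ x ∈ O, G x = y → MDifferentiableAt 𝓘(ℝ, V) 𝓘(ℝ, V) G x) :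
    cnt o O (fun x => t • G x) (t • y) = cnt o O G y ∧
      (Reg O (fun x => t • G x) (t • y) ↔ Reg O G y) :=
  cnt_clm (L := t • ContinuousLinearMap.id ℝ V) (by
    simp [ContinuousLinearMap.det, LinearMap.det_smul, pow_pos ht]) h

lemma sign_loc {e : M → N} {v : M} (h : ∀ᶠ u in 𝓝 v, LD V e u) : ∀ᶠ u in 𝓝 v,
    0 < (md V V e v).det * (md V V e u).det * jd (chartAt V (e v)) (e u) * jd (chartAt V v) u := by
  have hc := h.self_of_nhds.contMDiffAt.continuousAt
  have h1 : ∀ y, LD V e y → e y ∈ (chartAt V (e v)).source →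
      ContMDiffAt 𝓘(ℝ, V) 𝓘(ℝ, V) ∞ (chartAt V (e v) ∘ e) y ∧ jd (chartAt V (e v) ∘ e) y =
        jd (chartAt V (e v)) (e y) * (md V V e y).det := fun y hp hy =>
    ⟨(cm_chart hy).comp y hp.contMDiffAt, by
      rw [jd, md_comp ((cm_chart hy).mdifferentiableAt (by simp)) hp.mdiff, det_comp', jd]⟩
  have hx := mem_chart_source V v
  obtain ⟨h2, h3⟩ := h1 v h.self_of_nhds (mem_chart_source V _)
  have a : ∀ {M : Type} [TopologicalSpace M] [ChartedSpace V M] [IsManifold 𝓘(ℝ, V) ∞ M] (a : M),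
      jd (chartAt V a) a = 1 := fun a =>
    (congrArg ContinuousLinearMap.det (md_chart_self a)).trans det_id'
  rw [jd_chart h2 hx, a, a, mul_one, one_mul] at h3
  have h4 := ((ContinuousLinearMap.continuous_det.continuousAt.comp
    ((sm_chart h2 hx).continuousAt_fderiv (by simp))).comp
      ((chartAt V v).continuousAt hx)).mul_const (md V V e v).det
  filter_upwards [continuousAt_const.eventually_lt h4 (show 0 < _ * _ from by
      simp only [comp, h3]; exact mul_self_pos.2 h.self_of_nhds.det_ne), h,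
    hc.eventually (chart_source_mem_nhds V (e v)), chart_source_mem_nhds V v] with y a1 a2 a3 a4
  obtain ⟨a5, a6⟩ := h1 y a2 a3
  rw [jd_chart a5 a4] at a6
  have a7 := mul_pos a1 (mul_self_pos.2 (jd_chart_ne a4))
  simp only [comp] at a7
  refine a7.trans_eq ?_
  linear_combination ((md V V e v).det * jd (chartAt V v) y) * a6

/-- An orientation is detected in local parametrisations. -/
theorem ori_of_loc {o : N → ℝ} (h : ∀ x, ∃ (e : M → N) (v : M) (o' : M → ℝ), Ori V o' ∧ e v = x ∧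
    ∀ᶠ u in 𝓝 v, LD V e u ∧ opull V o e u = o' u) : Ori V o := by
  refine ⟨fun x => ?_, fun x => ?_⟩
  all_goals obtain ⟨e, v, o', ho, rfl, h⟩ := h x
  · obtain ⟨h1, h2⟩ := h.self_of_nhds
    have := ho.1 v
    rw [← h2, opull] at this
    rcases h1.det_ne.lt_or_gt with h' | h'
    · simpa [sign_neg h', neg_eq_iff_eq_neg, or_comm] using this
    · simpa [sign_pos h'] using this
  · obtain ⟨h1, h2⟩ := h.self_of_nhds
    rw [← h1.map_nhds, eventually_map]
    filter_upwards [h, ho.2 v, sign_loc (h.mono fun _ h => h.1)] with u a1 a2 a3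
    rw [← h2, ← a1.2, opull, opull, jd_ext] at a2
    rw [jd_ext]
    by_contra! a4
    refine (mul_pos a2 a3).not_ge (Eq.trans_le ?_ (mul_nonpos_of_nonpos_of_nonneg a4
      (by positivity : 0 ≤ |(md V V e v).det| * |(md V V e u).det| * jd (chartAt V v) u ^ 2)))
    rw [← sign_mul_self, ← sign_mul_self]
    ring

end

variable {n : ℕ} {X : Mfd n}

lemma exists_col (n : ℕ) : ∃ c : Euc n → Sph n, ContMDiff (𝓡 n) (𝓡 n) ∞ c ∧
    (∀ u, 1 ≤ ‖u‖ → c u = base n) ∧ ∀ y, ‖y‖ ≤ 1 / 2 → c y ≠ base n ∧ jdet n c y ≠ 0 ∧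
      ∀ u, c u = c y → u = y := by
  have : Fact (Module.finrank ℝ (Euc (n + 1)) = n + 1) := ⟨finrank_euclideanSpace_fin⟩
  let χ : ContDiffBump (0 : Euc n) := ⟨3 / 4, 1, by norm_num, by norm_num⟩
  let W : Euc n → Euc (n + 1) := fun u => WithLp.toLp 2 (Fin.cons (1 - 2 * χ u) fun i => χ u * u i)
  have w0 : ∀ u, W u 0 = 1 - 2 * χ u := fun u => rfl
  have w1 : ∀ u i, W u (Fin.succ i) = χ u * u i := fun u i => rfl
  have x1 : ∀ u : Euc n, ‖u‖ ≤ 3 / 4 → χ u = 1 := fun u h =>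
    χ.one_of_mem_closedBall (mem_closedBall_zero_iff.2 h)
  have hW : ContDiff ℝ ∞ W := contDiff_euclidean.2 fun i => by
    have := χ.contDiff (n := ⊤)
    refine Fin.cases ?_ (fun i => ?_) i
    · simp only [w0]; fun_prop
    · simp only [w1]; fun_prop
  have n0 : ∀ u, 0 < ‖W u‖ := fun u => norm_pos_iff.2 fun h => by
    have h1 := w0 u
    have h2 : u = 0 := by
      ext i
      have := w1 u i
      rw [h] at this h1
      exact (mul_eq_zero.1 this.symm).resolve_left fun e => by simp [e] at h1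
    rw [h, x1 u (by rw [h2, norm_zero]; norm_num)] at h1
    norm_num at h1
  have hc : ContDiff ℝ ∞ fun u => ‖W u‖⁻¹ • W u :=
    ((hW.norm ℝ fun u => norm_pos_iff.1 (n0 u)).inv fun u => (n0 u).ne').smul hW
  let c : Euc n → Sph n := fun u => ⟨‖W u‖⁻¹ • W u, mem_sphere_zero_iff_norm.2
    (norm_smul_inv_norm (norm_pos_iff.1 (n0 u)))⟩
  have sc : ContMDiff (𝓡 n) (𝓡 n) ∞ c := hc.contMDiff.codRestrict_sphere fun u => (c u).2
  have c0 : ∀ u, (c u).1 0 = ‖W u‖⁻¹ * (1 - 2 * χ u) := fun u => rfl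
  have c1 : ∀ u i, (c u).1 (Fin.succ i) = ‖W u‖⁻¹ * (χ u * u i) := fun u i => rfl
  refine ⟨c, sc, fun u h => ?_, fun y hy => ⟨fun h => ?_, ?_, fun u h => ?_⟩⟩
  · have h1 : W u = (base n).1 := by
      have := χ.zero_of_le_dist (x := u) (by simpa using h)
      ext i
      refine Fin.cases ?_ (fun i => ?_) i <;> simp [w0, w1, this, base]
    exact Subtype.ext (by simp only [c, h1, norm_eq_of_mem_sphere, inv_one, one_smul])
  · have h1 := c0 y
    rw [h, x1 y (by linarith)] at h1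
    have := inv_pos.2 (n0 y)
    simp only [base, PiLp.single_apply, if_true] at h1
    linarith
  · let L : Euc (n + 1) → Euc n := fun w => WithLp.toLp 2 fun i => -w (Fin.succ i) / w 0
    have h1 : (L ∘ Subtype.val) ∘ c =ᶠ[𝓝 y] id := by
      filter_upwards [Metric.closedBall_mem_nhds_of_mem
        (mem_ball_zero_iff.2 (show ‖y‖ < 3 / 4 by linarith))] with u hu
      ext i
      have := (n0 u).ne'
      simp only [comp, L, c0, c1, x1 u (mem_closedBall_zero_iff.1 hu), id]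
      field_simp
      ring
    have h2 : ContDiffAt ℝ ∞ L (c y) := contDiffAt_euclidean.2 fun i => by
      refine ContDiffAt.div (by fun_prop) (by fun_prop) ?_
      rw [c0, x1 y (by linarith)]
      exact mul_ne_zero (inv_pos.2 (n0 y)).ne' (by norm_num)
    have h3 := md_congr (V := Euc n) (W := Euc n) h1
    rw [md_comp ((h2.contMDiffAt.comp _ (smooth_coe _)).mdifferentiableAt (by simp))
      ((sc y).mdifferentiableAt (by simp)), md_id] at h3
    have h4 := congrArg ContinuousLinearMap.det h3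
    rw [det_comp', det_id'] at h4
    exact right_ne_zero_of_mul (h4.trans_ne one_ne_zero)
  · have h0 := x1 y (by linarith)
    have h1 := c0 u
    rw [h, c0, h0] at h1
    have h2 : ∀ i, χ u * u i = (2 * χ u - 1) * y i := fun i => by
      have h2 := c1 u i
      rw [h, c1, h0] at h2
      refine mul_left_cancel₀ (inv_pos.2 (n0 u)).ne' ?_
      linear_combination -h2 - y i * h1
    have h3 : χ u • u = (2 * χ u - 1) • y := by ext i; exact h2 i
    have h4 : 0 < 2 * χ u - 1 := by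
      have := inv_pos.2 (n0 y)
      exact (mul_pos_iff_of_pos_left (inv_pos.2 (n0 u))).1 (by linarith)
    have h5 := congrArg norm h3
    rw [norm_smul, norm_smul, Real.norm_of_nonneg χ.nonneg, Real.norm_of_nonneg h4.le] at h5
    have h6 := χ.le_one (x := u)
    rw [x1 u (by nlinarith [norm_nonneg y])] at h3
    simpa [show (2 : ℝ) - 1 = 1 by norm_num] using h3

/-- Collapsing a map to Euclidean space which is proper over the unit ball. -/
theorem collapse (n : ℕ) : ∃ C > 0, ∀ {X Y : Mfd n} {p : Y.M → X.M} (g : X.Metric)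
    {o : X.M → ℝ} {O : Set Y.M} {G : Y.M → Euc n} {η : ℝ} {y : Euc n}, 0 ≤ η → IsOpen O →
    ContMDiffOn (𝓡 n) (𝓡 n) ∞ G O → IsCompact {x | x ∈ O ∧ ‖G x‖ ≤ 1} →
    (∀ x ∈ O, ‖G x‖ ≤ 1 → ∀ v, ‖md (Euc n) (Euc n) G x v‖ ≤
      η * nrm g (p x) (md (Euc n) (Euc n) p x v)) → ‖y‖ ≤ 1 / 2 → Reg O G y →
    cnt (opull (Euc n) o p) O G y ≠ 0 → EpsSph p g o (C * η) := by
  classical
  obtain ⟨c, c1, c2, c3⟩ := exists_col n
  have c4 := (smooth_coe.comp c1).contDiff
  obtain ⟨C, hC⟩ := (isCompact_closedBall (0 : Euc n) 1).exists_bound_of_continuousOn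
    (c4.continuous_fderiv (by simp)).continuousOn
  refine ⟨max C 1, lt_max_of_lt_right one_pos, fun {X Y p} g o O G η y hη hO hG hK hL hy r h => ?_⟩
  obtain ⟨c5, c6, c7⟩ := c3 y hy
  let f : Y.M → Sph n := fun x => if x ∈ O then c (G x) else base n
  have f1 : ∀ x ∈ O, f =ᶠ[𝓝 x] c ∘ G := fun x hx => by
    filter_upwards [hO.mem_nhds hx] with z hz using if_pos hz
  have f2 : ∀ x ∉ {x | x ∈ O ∧ ‖G x‖ ≤ 1}, f x = base n := fun x hx => by
    by_cases h : x ∈ O
    · exact (if_pos h).trans (c2 _ (not_le.1 fun h' => hx ⟨h, h'⟩).le)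
    · exact if_neg h
  have f3 : ∀ x ∉ {x | x ∈ O ∧ ‖G x‖ ≤ 1}, f =ᶠ[𝓝 x] fun _ => base n := fun x hx =>
    eventually_of_mem (hK.isClosed.isOpen_compl.mem_nhds hx) f2
  have f4 : ∀ x, f x = c y ↔ x ∈ O ∧ G x = y := fun x => ⟨fun e => by
      by_cases h : x ∈ O
      · exact ⟨h, c7 _ ((if_pos h).symm.trans e)⟩
      · exact absurd (e.symm.trans (if_neg h)) c5,
    fun e => (if_pos e.1).trans (congrArg c e.2)⟩
  have d : ∀ x ∈ O, MDifferentiableAt (𝓡 n) (𝓡 n) G x := fun x hx =>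
    (hG.contMDiffAt (hO.mem_nhds hx)).mdifferentiableAt (by simp)
  have f5 : ∀ x, f x = c y → jdet n f x = jdet n c y * jd G x := fun x e => by
    obtain ⟨h1, rfl⟩ := (f4 x).1 e
    exact (congrArg ContinuousLinearMap.det ((md_congr (f1 x h1)).trans
      (md_comp ((c1 _).mdifferentiableAt (by simp)) (d x h1)))).trans (det_comp' _ _)
  refine ⟨f, fun x => ?_, fun x v => ?_, ⟨_, hK, f2⟩, c y, c5,
    fun x e => f5 x e ▸ mul_ne_zero c6 (r x ((f4 x).1 e).1 ((f4 x).1 e).2), fun e => h ?_⟩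
  · by_cases h : x ∈ O
    · exact ((c1 _).comp x (hG.contMDiffAt (hO.mem_nhds h))).congr_of_eventuallyEq (f1 x h)
    · exact contMDiffAt_const.congr_of_eventuallyEq (f3 x fun h' => h h'.1)
  · refine (le_nrm_iff g _ _ (norm_nonneg _) (by positivity)).2 ?_
    by_cases h : x ∈ O ∧ ‖G x‖ ≤ 1
    · have h1 := (md_congr (V := Euc n) (W := Euc (n + 1))
        ((f1 x h.1).fun_comp Subtype.val)).trans
        (md_clm_comp (d x h.1) (c4.differentiable (by simp) _))
      refine (congrArg norm (DFunLike.congr_fun h1 v)).trans_le ?_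
      rw [mul_assoc, ContinuousLinearMap.comp_apply]
      exact (ContinuousLinearMap.le_opNorm _ _).trans (mul_le_mul
        ((hC _ (mem_closedBall_zero_iff.2 h.2)).trans (le_max_left _ _)) (hL x h.1 h.2 v)
        (norm_nonneg _) (by positivity))
    · have h1 := (md_congr (V := Euc n) (W := Euc (n + 1))
        ((f3 x h).fun_comp Subtype.val)).trans mfderiv_const
      refine (congrArg norm (DFunLike.congr_fun h1 v)).trans_le ?_
      exact norm_zero.trans_le (mul_nonneg (by positivity) (nrm_nonneg _ _ _))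
  · rw [← mul_zero (SignType.sign (jdet n c y) : ℝ), ← e, mul_finsum_mem]
    refine finsum_mem_congr (Set.ext fun x => (f4 x).symm) fun x hx => ?_
    rw [f5 x hx, sign_mul]
    push_cast
    change _ = _ * (opull (Euc n) o p x * _)
    linear_combination -(opull (Euc n) o p x * (SignType.sign (jd G x) : ℝ)) * sign_sq' c6

/-- Nearby maps to the sphere have non-zero degree together. -/
theorem perturb {Y : Type} [TopologicalSpace Y] [ChartedSpace (Euc n) Y] [IsManifold (𝓡 n) ∞ Y]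
    [T2Space Y] {o : Y → ℝ} (ho : Ori (Euc n) o) {f f' : Y → Sph n}
    (hf : ContMDiff (𝓡 n) (𝓡 n) ∞ f) (hf' : ContMDiff (𝓡 n) (𝓡 n) ∞ f')
    (hd : ∀ y, ‖(f y : Euc (n + 1)) - f' y‖ ≤ 1 / 5) {K : Set Y} (hK : IsCompact K)
    (hb : ∀ y ∉ K, f y = base n ∧ f' y = base n) {q : Sph n} (hq : q ≠ base n)
    (hr : ∀ y, f y = q → jdet n f y ≠ 0)
    (hc : ∑ᶠ y ∈ f ⁻¹' {q}, o y * (SignType.sign (jdet n f y) : ℝ) ≠ 0) :
    ∃ q', q' ≠ base n ∧ (∀ y, f' y = q' → jdet n f' y ≠ 0) ∧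
      ∑ᶠ y ∈ f' ⁻¹' {q'}, o y * (SignType.sign (jdet n f' y) : ℝ) ≠ 0 := by
  obtain ⟨P, hP⟩ := exists_proj q
  have hqq : ⟪q.1, q.1⟫ = 1 := by rw [real_inner_self_eq_norm_sq, norm_eq_of_mem_sphere]; simp
  have hP0 : P q = 0 := by
    rw [← norm_eq_zero, ← sq_eq_zero_iff, hP, hqq, norm_eq_of_mem_sphere, sub_self]
  obtain ⟨β, hβ, hβ1, hβ2⟩ : ∃ β > 0, β ≤ 1 / 10 ∧ (1 / 4 < ⟪q.1, (base n).1⟫ →
      2 * β ≤ ‖P (base n)‖) := by
    by_cases h : P (base n) = 0
    · exact ⟨1 / 10, by norm_num, le_rfl, fun h' => absurd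
        (proj_inj hP (hP0.trans h.symm) (by linarith) (by linarith)) hq⟩
    · exact ⟨min (1 / 10) (‖P (base n)‖ / 2), lt_min (by norm_num) (half_pos (norm_pos_iff.2 h)),
        min_le_left _ _, fun _ => by linarith [min_le_right (1 / 10) (‖P (base n)‖ / 2)]⟩
  have f6 := smooth_coe.comp hf
  have c1 : Continuous fun y => ⟪q.1, (f y).1⟫ := continuous_const.inner f6.continuous
  have hO := isOpen_lt (continuous_const (y := (1 / 4 : ℝ))) c1
  have hK1 := hK.inter_right (isClosed_le (continuous_const (y := (1 / 2 : ℝ))) c1)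
  have hKO : K ∩ {y | 1 / 2 ≤ ⟪q.1, (f y).1⟫} ⊆ {y | 1 / 4 < ⟪q.1, (f y).1⟫} := fun y hy =>
    lt_of_lt_of_le (by norm_num : (1 / 4 : ℝ) < 1 / 2) hy.2
  have g0 := (P.contMDiff.comp f6).contMDiffOn (s := {y | 1 / 4 < ⟪q.1, (f y).1⟫})
  have g1 := (P.contMDiff.comp (smooth_coe.comp hf')).contMDiffOn
    (s := {y | 1 / 4 < ⟪q.1, (f y).1⟫})
  have far : ∀ y ∈ {y | 1 / 4 < ⟪q.1, (f y).1⟫}, y ∉ K ∩ {y | 1 / 2 ≤ ⟪q.1, (f y).1⟫} →
      ∀ τ ∈ Icc (0 : ℝ) 1, 2 * β ≤ ‖(1 - τ) • P (f y) + τ • P (f' y)‖ := fun y h1 h2 τ hτ => by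
    rcases not_and_or.1 h2 with h | h
    · rw [(hb y h).1, (hb y h).2, ← add_smul, sub_add_cancel, one_smul]
      exact hβ2 ((hb y h).1 ▸ h1)
    · have h3 : 1 / 2 ≤ ‖P (f y)‖ := (sq_le_sq₀ (by norm_num) (norm_nonneg _)).1 (by
        rw [hP, norm_eq_of_mem_sphere]
        simp only [mem_ofPred_eq, not_le] at h h1
        nlinarith)
      have h4 := (proj_le hP _).trans (hd y)
      have e : (1 - τ) • P (f y) + τ • P (f' y) = P (f y) - τ • P (f y - f' y) := by
        rw [map_sub]; module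
      have h5 := norm_sub_norm_le (P (f y)) (τ • P (f y - f' y))
      rw [norm_smul, Real.norm_of_nonneg hτ.1] at h5
      have := mul_le_of_le_one_left (norm_nonneg (P (f y - f' y))) hτ.2
      rw [e]
      linarith
  obtain ⟨r1, r2⟩ := cnt_proj hf hP (a := q) (by linarith) o
  rw [hP0] at r1 r2
  have k1 := kit_near ho hO hK1 hKO g0 (z := 0) (δ := 2 * β) (by positivity)
    (fun y h1 h2 => by simpa using far y h1 h2 0 (by simp)) (r1.2 hr)
  obtain ⟨y, ⟨⟨k2, k3⟩, k4⟩, k5⟩ := kit_sard hO hK1 hKO g1 (z := 0) (δ := 2 * β) (by positivity)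
    (fun y h1 h2 => by simpa using far y h1 h2 1 (by simp))
    (inter_mem k1 (Metric.closedBall_mem_nhds 0 hβ))
  rw [mem_closedBall_zero_iff] at k4
  have k6 := kit_main ho hO hK1 hKO g0 g1 hβ (fun x h1 h2 τ hτ => by
    simp only [comp]
    linarith [far x h1 h2 τ hτ, norm_sub_norm_le ((1 - τ) • P (f x) + τ • P (f' x)) y]) k2 k5
  have k7 : ∀ x, P (f' x) = y → (1 / 4 < ⟪q.1, (f x).1⟫ ↔ 1 / 4 < ⟪q.1, (f' x).1⟫) := fun x e => by
    have h1 := hP (f' x)
    have h2 := abs_real_inner_le_norm q.1 (f x - f' x)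
    rw [norm_eq_of_mem_sphere, one_mul, inner_sub_right, abs_le] at h2
    have h3 : ‖y‖ ^ 2 ≤ (1 / 10) ^ 2 := pow_le_pow_left₀ (norm_nonneg _) (k4.trans hβ1) 2
    rw [e, norm_eq_of_mem_sphere] at h1
    have := hd x
    constructor <;> intro h <;> nlinarith
  have k8 : cnt o {y | 1 / 4 < ⟪q.1, (f' y).1⟫} (fun y => P (f' y)) y ≠ 0 := fun h =>
    r2.2 hc (k3.symm.trans (k6.trans (h ▸ finsum_mem_congr
      (Set.ext fun x => and_congr_left (k7 x)) fun _ _ => rfl)))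
  obtain ⟨x, a3, rfl⟩ : ∃ x, 1 / 4 < ⟪q.1, (f' x).1⟫ ∧ P (f' x) = y := by
    by_contra h
    exact k8 (cnt_empty fun x a b => h ⟨x, a, b⟩)
  obtain ⟨r3, r4⟩ := cnt_proj hf' hP a3 o
  refine ⟨f' x, fun h => ?_, r3.1 fun z h1 h2 => k5 z ((k7 z h2).2 h1) h2, r4.1 k8⟩
  rw [h] at a3 k4
  linarith [hβ2 a3]

theorem hyperspherical_of_hypereuclidean {g : X.Metric} {o : X.M → ℝ}
    (h : HasHypereuclideanCover X g o) : HasHypersphericalCover X g o := by
  obtain ⟨C, F, h1, h2, ⟨L, h3⟩, q, h4, h5⟩ := h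
  obtain ⟨D, hD, h⟩ := collapse n
  refine ⟨C, fun ε hε => ?_⟩
  obtain ⟨t, ⟨t1, t2⟩, t0⟩ := ((((show ContinuousAt (fun t : ℝ => t * |L|) 0 by
    fun_prop).eventually_lt continuousAt_const (by simpa using div_pos hε hD)).and
    ((show ContinuousAt (fun t : ℝ => t * ‖q‖) 0 by fun_prop).eventually_lt (g := fun _ => 1 / 2)
      continuousAt_const (by simp))).filter_mono nhdsWithin_le_nhds |>.and
      (self_mem_nhdsWithin (s := Ioi 0))).exists
  have d := fun x => (h1 x).mdifferentiableAt (by simp)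
  obtain ⟨h6, h7⟩ := cnt_smul (o := opull (Euc n) o C.p) (O := univ) (y := q) t0 fun x _ _ => d x
  have := h (p := C.p) g (o := o) (η := ε / D) (y := t • q) (G := fun x => t • F x)
    (div_pos hε hD).le isOpen_univ ((t • ContinuousLinearMap.id ℝ _).contMDiff.comp h1).contMDiffOn ?_ (fun x _ _ v => ?_)
    (by rw [norm_smul, Real.norm_of_nonneg t0.le]; exact t2.le) (h7.2 fun x _ => h4 x)
    (h6 ▸ fun e => h5 (e ▸ finsum_mem_congr (by ext; simp) fun _ _ => rfl))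
  · rwa [mul_div_cancel₀ _ hD.ne'] at this
  · convert h2.isCompact_preimage (isCompact_closedBall 0 t⁻¹) using 1
    ext x
    simp [norm_smul, abs_of_pos t0, ← one_div, le_div_iff₀' t0]
  · have h8 := (le_nrm_iff g _ _ (norm_nonneg _) (abs_nonneg L)).1 (sq_abs L ▸ h3 x v)
    rw [md_smul t (d x), smul_apply, norm_smul, Real.norm_of_nonneg t0.le]
    refine (mul_le_mul_of_nonneg_left h8 t0.le).trans ?_
    rw [← mul_assoc]
    exact mul_le_mul_of_nonneg_right t1.le (nrm_nonneg _ _ _)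

/-- Stable framings. -/
def Framed (W : Type) [NormedAddCommGroup W] [NormedSpace ℝ W] (X : Mfd n)
    (θ : X.M → Euc n →L[ℝ] W) (ν : X.M → W) : Prop :=
  ContMDiff (𝓡 n) 𝓘(ℝ, W) ∞ ν ∧
    (∀ a, ∃ B : X.M → Euc n →L[ℝ] W, ∀ᶠ y in 𝓝 a, ContMDiffAt (𝓡 n) 𝓘(ℝ, Euc n →L[ℝ] W) ∞ B y ∧
      θ y = (B y).comp (md (Euc n) (Euc n) (chartAt (Euc n) a) y)) ∧
    ∀ x v (c : ℝ), θ x v + c • ν x = 0 → v = 0 ∧ c = 0

end Pool.Agent.Lib.MP_029589_gt
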