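import Mathlib

/-! Lifting maps through coverings: gluing, homotopy and extension lemmas. -/

set_option autoImplicit false

open Set Filter Topology Function Metric

namespace Pool.Agent.Lib.MP_029589_gt

variable {E X Z Z' : Type} [TopologicalSpace E] [TopologicalSpace X] [TopologicalSpace Z]
  [TopologicalSpace Z'] {p : E → X} {ι : Z → X} {S T Y : Set Z}

/-- The map `ι` lifts on `S` through every admissible starting point. -/
def Lf (p : E → X) (ι : Z → X) (S : Set Z) : Prop :=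
  ∀ a ∈ S, ∀ e, p e = ι a → ∃ s : Z → E, ContinuousOn s S ∧ (∀ b ∈ S, p (s b) = ι b) ∧ s a = e

omit [TopologicalSpace X] in
lemma Lf.mono (h : Lf p ι S) (hT : T ⊆ S) : Lf p ι T := fun a ha e he =>
  let ⟨s, h1, h2, h3⟩ := h a (hT ha) e he
  ⟨s, h1.mono hT, fun b hb => h2 b (hT hb), h3⟩

omit [TopologicalSpace X] in
lemma Lf.comp (h : Lf p ι S) {φ : Z' → Z} {S' : Set Z'} (hφ : ContinuousOn φ S')
    (hm : MapsTo φ S' S) {ι' : Z' → X} (he : ∀ a ∈ S', ι' a = ι (φ a)) : Lf p ι' S' := by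
  intro a ha e he'
  obtain ⟨s, h1, h2, h3⟩ := h (φ a) (hm ha) e (he'.trans (he a ha))
  exact ⟨s ∘ φ, h1.comp hφ hm, fun b hb => (h2 _ (hm hb)).trans (he b hb).symm, h3⟩

omit [TopologicalSpace X] in
lemma lf_singleton (p : E → X) (ι : Z → X) (a : Z) : Lf p ι {a} := by
  rintro _ rfl e he
  exact ⟨fun _ => e, continuousOn_const, by rintro _ rfl; exact he, rfl⟩

lemma lift_unique (cov : IsCoveringMap p) (hS : IsPreconnected S) {s s' : Z → E}
    (h : ContinuousOn s S) (h' : ContinuousOn s' S) (he : ∀ b ∈ S, p (s b) = p (s' b)) {a : Z}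
    (ha : a ∈ S) (hs : s a = s' a) : ∀ b ∈ S, s b = s' b :=
  cov.eqOn_of_comp_eqOn hS h h' he ha hs

lemma Lf.homotopy (cov : IsCoveringMap p) (hι : ContinuousOn ι Y) (hT : Lf p ι T)
    (h : ℝ × Z → Z) (hc : ContinuousOn h (Icc 0 1 ×ˢ S))
    (hY : ∀ t ∈ Icc (0 : ℝ) 1, ∀ a ∈ S, h (t, a) ∈ Y) (h0 : ∀ a ∈ S, h (0, a) = a)
    (h1 : ∀ a ∈ S, h (1, a) ∈ T) : Lf p ι S := by
  intro a ha e he
  have hcc : Continuous fun q : unitInterval × S => ι (h (q.1, q.2)) := by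
    refine hι.comp_continuous (hc.comp_continuous (by fun_prop) fun q => ⟨q.1.2, q.2.2⟩) ?_
    exact fun q => hY _ q.1.2 _ q.2.2
  let γ : C(unitInterval, X) := ⟨fun t => ι (h (t, a)), hcc.comp
    (f := fun t : unitInterval => (t, (⟨a, ha⟩ : S))) (by fun_prop)⟩
  obtain ⟨Γ, g1, g2⟩ := cov.exists_path_lifts γ e (by simp [γ, h0 a ha, he])
  obtain ⟨s, s1, s2, s3⟩ := hT _ (h1 a ha) (Γ 1) (congrFun g1 1)
  let H : C(unitInterval × S, X) := ⟨fun q => ι (h (unitInterval.symm q.1, q.2)),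
    hcc.comp (f := fun q : unitInterval × S => (unitInterval.symm q.1, q.2)) (by fun_prop)⟩
  let f : C(S, E) := ⟨fun b => s (h (1, b)), s1.comp_continuous
    (hc.comp_continuous (by fun_prop) fun b => ⟨⟨zero_le_one, le_rfl⟩, b.2⟩) fun b => h1 _ b.2⟩
  have H0 : ∀ b, H (0, b) = p (f b) := fun b => by
    simp [H, f, s2 _ (h1 _ b.2)]
  let G := cov.liftHomotopy H f H0
  have G1 : ∀ q, p (G q) = H q := congrFun (cov.liftHomotopy_lifts H f H0)
  classical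
  refine ⟨fun b => if hb : b ∈ S then G (1, ⟨b, hb⟩) else e, ?_, fun b hb => ?_, ?_⟩
  · rw [continuousOn_iff_continuous_restrict]
    have : Continuous fun b : S => G (1, b) := by fun_prop
    refine this.congr fun b => ?_
    simp
  · simp [hb, G1, H, h0 b hb]
  · simp only [ha, dif_pos]
    have := cov.eq_of_comp_eq (g₁ := fun t : unitInterval => G (t, ⟨a, ha⟩))
      (g₂ := fun t => Γ (unitInterval.symm t)) (by fun_prop) (by fun_prop)
      (funext fun t => by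
        exact (G1 _).trans (congrFun g1 (unitInterval.symm t)).symm) 0
      (by
        change G (0, ⟨a, ha⟩) = Γ (unitInterval.symm 0)
        rw [unitInterval.symm_zero, ← s3]
        exact cov.liftHomotopy_zero H f H0 _)
    simpa [g2] using congrFun this 1

lemma lf_spine (cov : IsCoveringMap p) {κ : Type} {Λ : Set Z} {T : κ → Set Z} (hΛ : Lf p ι Λ)
    (hT : ∀ l, Lf p ι (T l)) (h0 : ∀ l, IsPreconnected (T l)) (h1 : ∀ l, IsPreconnected (T l ∩ Λ)) (h2 : ∀ l, (T l ∩ Λ).Nonempty)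
    (h3 : ∀ l l', l ≠ l' → IsPreconnected (T l ∩ T l'))
    (h4 : ∀ l l', l ≠ l' → (T l ∩ T l').Nonempty → (T l ∩ T l' ∩ Λ).Nonempty)
    (hS : S = Λ ∪ ⋃ l, T l)
    (glue : ∀ s : Z → E, ContinuousOn s Λ → (∀ l, ContinuousOn s (T l)) → ContinuousOn s S) :
    Lf p ι S := by
  classical
  choose c hc using h2
  have key : ∀ s₀ : Z → E, ContinuousOn s₀ Λ → (∀ b ∈ Λ, p (s₀ b) = ι b) →
      ∃ s : Z → E, ContinuousOn s S ∧ (∀ b ∈ S, p (s b) = ι b) ∧ ∀ b ∈ Λ, s b = s₀ b := by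
    intro s₀ a1 a2
    choose t t1 t2 t3 using fun l => hT l _ (hc l).1 _ (a2 _ (hc l).2)
    have e1 : ∀ l, ∀ b ∈ T l ∩ Λ, t l b = s₀ b := fun l =>
      lift_unique cov (h1 l) ((t1 l).mono inter_subset_left) (a1.mono inter_subset_right)
        (fun b hb => (t2 l b hb.1).trans (a2 b hb.2).symm) (hc l) (t3 l)
    have e2 : ∀ l l', ∀ b ∈ T l ∩ T l', t l b = t l' b := by
      intro l l' b hb
      by_cases hl : l = l'
      · rw [hl]
      obtain ⟨d, hd⟩ := h4 l l' hl ⟨b, hb⟩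
      exact lift_unique cov (h3 l l' hl) ((t1 l).mono inter_subset_left)
        ((t1 l').mono inter_subset_right) (fun b hb => (t2 l b hb.1).trans (t2 l' b hb.2).symm)
        hd.1 ((e1 l d ⟨hd.1.1, hd.2⟩).trans (e1 l' d ⟨hd.1.2, hd.2⟩).symm) b hb
    let s : Z → E := fun b => if h : ∃ l, b ∈ T l then t h.choose b else s₀ b
    have f1 : ∀ l, ∀ b ∈ T l, s b = t l b := fun l b hb => by
      have h : ∃ l, b ∈ T l := ⟨l, hb⟩
      simp only [s, dif_pos h]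
      exact e2 _ _ b ⟨h.choose_spec, hb⟩
    have f2 : ∀ b ∈ Λ, s b = s₀ b := fun b hb => by
      by_cases h : ∃ l, b ∈ T l
      · obtain ⟨l, hl⟩ := h
        rw [f1 l b hl, e1 l b ⟨hl, hb⟩]
      · simp only [s, dif_neg h]
    refine ⟨s, glue s (a1.congr f2) fun l => (t1 l).congr (f1 l), fun b hb => ?_, f2⟩
    rw [hS] at hb
    rcases hb with hb | hb
    · rw [f2 b hb, a2 b hb]
    · obtain ⟨l, hl⟩ := mem_iUnion.1 hb
      rw [f1 l b hl, t2 l b hl]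
  intro a ha e he
  rw [hS] at ha
  rcases ha with ha | ha
  · obtain ⟨s₀, a1, a2, a3⟩ := hΛ a ha e he
    obtain ⟨s, b1, b2, b3⟩ := key s₀ a1 a2
    exact ⟨s, b1, b2, (b3 a ha).trans a3⟩
  · obtain ⟨l, hl⟩ := mem_iUnion.1 ha
    obtain ⟨t, t1, t2, t3⟩ := hT l a hl e he
    obtain ⟨s₀, a1, a2, a3⟩ := hΛ _ (hc l).2 _ (t2 _ (hc l).1)
    obtain ⟨s, b1, b2, b3⟩ := key s₀ a1 a2
    have sub : T l ⊆ S := hS ▸ (subset_iUnion T l).trans subset_union_right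
    refine ⟨s, b1, b2, ?_⟩
    rw [← t3]
    exact lift_unique cov (h0 l) (b1.mono sub) t1 (fun b hb => (b2 b (sub hb)).trans (t2 b hb).symm)
      (hc l).1 ((b3 _ (hc l).2).trans a3) a hl

lemma lf_union (cov : IsCoveringMap p) (hS : Lf p ι S) (hT : Lf p ι T) (h0 : IsPreconnected T)
    (h1 : IsPreconnected (T ∩ S)) (h2 : (T ∩ S).Nonempty)
    (glue : ∀ s : Z → E, ContinuousOn s S → ContinuousOn s T → ContinuousOn s (S ∪ T)) :
    Lf p ι (S ∪ T) :=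
  lf_spine cov (κ := Unit) (T := fun _ => T) hS (fun _ => hT) (fun _ => h0) (fun _ => h1)
    (fun _ => h2) (fun _ _ h => absurd rfl h) (fun _ _ h => absurd rfl h) (by rw [iUnion_const])
    fun s a b => glue s a (b ())

lemma precon_spine {κ : Type} {Λ : Set Z} {T : κ → Set Z} (hΛ : IsPreconnected Λ)
    (h0 : ∀ l, IsPreconnected (T l)) (h2 : ∀ l, (T l ∩ Λ).Nonempty) (hne : Λ.Nonempty)
    (hS : S = Λ ∪ ⋃ l, T l) : IsPreconnected S := by
  obtain ⟨c, hc⟩ := hne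
  refine isPreconnected_of_forall c fun y hy => ?_
  rw [hS] at hy ⊢
  rcases hy with hy | hy
  · exact ⟨Λ, subset_union_left, hc, hy, hΛ⟩
  · obtain ⟨l, hl⟩ := mem_iUnion.1 hy
    obtain ⟨d, hd⟩ := h2 l
    exact ⟨Λ ∪ T l, union_subset_union_right _ (subset_iUnion T l), Or.inl hc, Or.inr hl,
      hΛ.union d hd.2 hd.1 (h0 l)⟩

lemma precon_paths (hT : IsPreconnected T) (hTS : T ⊆ S)
    (h : ∀ a ∈ S, ∃ γ : ℝ → Z, ContinuousOn γ (Icc 0 1) ∧ γ 0 = a ∧ γ 1 ∈ T ∧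
      ∀ t ∈ Icc (0 : ℝ) 1, γ t ∈ S) : IsPreconnected S := by
  rcases S.eq_empty_or_nonempty with rfl | ⟨a, ha⟩
  · exact isPreconnected_empty
  obtain ⟨γ₀, -, -, hc, -⟩ := h a ha
  refine isPreconnected_of_forall (γ₀ 1) fun y hy => ?_
  obtain ⟨γ, h1, h2, h3, h4⟩ := h y hy
  refine ⟨T ∪ γ '' Icc 0 1, union_subset hTS (image_subset_iff.2 h4), Or.inl hc,
    Or.inr ⟨0, ⟨le_rfl, zero_le_one⟩, h2⟩,
    hT.union _ h3 ⟨1, ⟨zero_le_one, le_rfl⟩, rfl⟩ (isPreconnected_Icc.image _ h1)⟩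

/-- Every point of `T` has small neighbourhoods meeting `S` in a connected set. -/
def Acc (S T : Set Z) : Prop :=
  ∀ b ∈ T, b ∉ S → ∀ W ∈ 𝓝 b, ∃ W' ∈ 𝓝 b, W' ∩ T ⊆ W ∧ IsPreconnected (W' ∩ S)

lemma Lf.extend (cov : IsCoveringMap p) (hι : ContinuousOn ι T) (hS : Lf p ι S) (hST : S ⊆ T)
    (hcl : T ⊆ closure S) (hop : ∀ b ∈ S, S ∈ 𝓝[T] b) (hacc : Acc S T) : Lf p ι T := by
  classical
  -- local structure at a point
  have loc : ∀ b ∈ T, b ∉ S → ∀ s : Z → E, ContinuousOn s S → (∀ c ∈ S, p (s c) = ι c) →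
      ∃ W ∈ 𝓝 b, ∃ r : Z → E, ContinuousOn r (W ∩ T) ∧ (∀ c ∈ W ∩ T, p (r c) = ι c) ∧
        ∀ c ∈ W ∩ S, r c = s c := by
    intro b hb hbS s s1 s2
    obtain ⟨_, U, hU, hUo, hpU, H, hH⟩ := cov (ι b)
    obtain ⟨W, hW, hWU⟩ := mem_nhdsWithin_iff_exists_mem_nhds_inter.1
      (hι b hb (hUo.mem_nhds hU))
    obtain ⟨W', w1, w2, w3⟩ := hacc b hb hbS W hW
    obtain ⟨c, hc⟩ := mem_closure_iff_nhds.1 (hcl hb) W' w1
    have hU' : ∀ d ∈ W' ∩ T, ι d ∈ U := fun d hd => hWU ⟨w2 hd, hd.2⟩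
    have hc' : s c ∈ p ⁻¹' U := by
      rw [mem_preimage, s2 c hc.2]
      exact hU' c ⟨hc.1, hST hc.2⟩
    let r : Z → E := fun d => if hd : ι d ∈ U then (H.symm (⟨ι d, hd⟩, (H ⟨s c, hc'⟩).2)).1 else s c
    have r1 : ContinuousOn r (W' ∩ T) := by
      rw [continuousOn_iff_continuous_restrict]
      have h1 : Continuous fun d : ↥(W' ∩ T) => (⟨ι d, hU' d d.2⟩ : U) :=
        ((hι.mono inter_subset_right).restrict).subtype_mk _
      have : Continuous fun d : ↥(W' ∩ T) =>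
          (H.symm (⟨ι d, hU' d d.2⟩, (H ⟨s c, hc'⟩).2)).1 := by fun_prop
      refine this.congr fun d => ?_
      simp [r, hU' d d.2]
    have r2 : ∀ d ∈ W' ∩ T, p (r d) = ι d := fun d hd => by
      simp only [r, dif_pos (hU' d hd)]
      rw [← hH]
      simp
    refine ⟨W', w1, r, r1, r2, lift_unique cov w3 (r1.mono (inter_subset_inter_right _ hST))
      (s1.mono inter_subset_right) (fun d hd => (r2 d ⟨hd.1, hST hd.2⟩).trans (s2 d hd.2).symm)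
      hc ?_⟩
    simp only [r, dif_pos (hU' c ⟨hc.1, hST hc.2⟩)]
    have : (⟨ι c, hU' c ⟨hc.1, hST hc.2⟩⟩ : U) = (H ⟨s c, hc'⟩).1 :=
      Subtype.ext (by rw [hH]; exact (s2 c hc.2).symm)
    rw [this]
    simp
  have uniq : ∀ b ∈ T, ∀ W ∈ 𝓝 b, ∀ r r' : Z → E, ContinuousWithinAt r T b →
      ContinuousWithinAt r' T b → p (r b) = p (r' b) → (∀ c ∈ W ∩ S, r c = r' c) → r b = r' b := by
    intro b hb W hW r r' h1 h2 h3 h4
    by_contra hne
    obtain ⟨u, v, hu, hv, hru, hrv, huv⟩ := cov.isSeparatedMap _ _ h3 hne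
    obtain ⟨W1, a1, a2⟩ := mem_nhdsWithin_iff_exists_mem_nhds_inter.1 (h1 (hu.mem_nhds hru))
    obtain ⟨W2, b1, b2⟩ := mem_nhdsWithin_iff_exists_mem_nhds_inter.1 (h2 (hv.mem_nhds hrv))
    obtain ⟨c, hc⟩ := mem_closure_iff_nhds.1 (hcl hb) _ (inter_mem hW (inter_mem a1 b1))
    exact Set.disjoint_left.1 huv (a2 ⟨hc.1.2.1, hST hc.2⟩)
      (h4 c ⟨hc.1.1, hc.2⟩ ▸ b2 ⟨hc.1.2.2, hST hc.2⟩)
  have ext : ∀ s : Z → E, ContinuousOn s S → (∀ c ∈ S, p (s c) = ι c) →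
      ∃ r : Z → E, ContinuousOn r T ∧ (∀ c ∈ T, p (r c) = ι c) ∧ ∀ c ∈ S, r c = s c := by
    intro s s1 s2
    haveI : Nonempty (Z → E) := ⟨s⟩
    choose! W hW r r1 r2 r3 using fun b hb hbS => loc b hb hbS s s1 s2
    let R : Z → E := fun b => if b ∈ S then s b else r b b
    have R3 : ∀ c ∈ S, R c = s c := fun c hc => if_pos hc
    have R2 : ∀ c ∈ T, p (R c) = ι c := fun c hc => by
      by_cases h : c ∈ S
      · rw [R3 c h, s2 c h]
      · simp only [R, if_neg h]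
        exact r2 c hc h c ⟨mem_of_mem_nhds (hW c hc h), hc⟩
    have cw : ∀ b ∈ T, b ∉ S → ∀ c ∈ T, W b ∈ 𝓝 c → ContinuousWithinAt (r b) T c :=
      fun b hb hbS c hc hW' => (r1 b hb hbS c ⟨mem_of_mem_nhds hW', hc⟩).mono_of_mem_nhdsWithin
        (inter_comm T _ ▸ inter_mem_nhdsWithin T hW')
    refine ⟨R, fun b hb => ?_, R2, R3⟩
    by_cases h : b ∈ S
    · exact ((s1.congr R3) b h).mono_of_mem_nhdsWithin (hop b h)
    · refine (cw b hb h b hb (hW b hb h)).congr_of_eventuallyEq ?_ (if_neg h)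
      filter_upwards [mem_nhdsWithin_of_mem_nhds (eventually_mem_nhds_iff.2 (hW b hb h)),
        self_mem_nhdsWithin] with c hc hcT
      by_cases h' : c ∈ S
      · rw [R3 c h', r3 b hb h c ⟨mem_of_mem_nhds hc, h'⟩]
      · simp only [R, if_neg h']
        refine uniq c hcT _ (inter_mem hc (hW c hcT h')) _ _ (cw c hcT h' c hcT (hW c hcT h'))
          (cw b hb h c hcT hc) ?_ fun d hd => ?_
        · rw [r2 c hcT h' c ⟨mem_of_mem_nhds (hW c hcT h'), hcT⟩,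
            r2 b hb h c ⟨mem_of_mem_nhds hc, hcT⟩]
        · rw [r3 c hcT h' d ⟨hd.1.2, hd.2⟩, r3 b hb h d ⟨hd.1.1, hd.2⟩]
  intro a ha e he
  by_cases haS : a ∈ S
  · obtain ⟨s, s1, s2, s3⟩ := hS a haS e he
    obtain ⟨r, r1, r2, r3⟩ := ext s s1 s2
    exact ⟨r, r1, r2, (r3 a haS).trans s3⟩
  · obtain ⟨f, hf, hpf⟩ := cov.isLocalHomeomorph e
    have h1 : ι a ∈ f.target := by
      rw [← he, hpf]
      exact f.map_source hf
    obtain ⟨W, hW, hWU⟩ := mem_nhdsWithin_iff_exists_mem_nhds_inter.1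
      (hι a ha (f.open_target.mem_nhds h1))
    obtain ⟨W', w1, w2, w3⟩ := hacc a ha haS W hW
    obtain ⟨c, hc⟩ := mem_closure_iff_nhds.1 (hcl ha) W' w1
    have hU' : ∀ d ∈ W' ∩ T, ι d ∈ f.target := fun d hd => hWU ⟨w2 hd, hd.2⟩
    have q1 : ContinuousOn (fun d => f.symm (ι d)) (W' ∩ T) :=
      f.continuousOn_symm.comp (hι.mono inter_subset_right) hU'
    have q2 : ∀ d ∈ W' ∩ T, p (f.symm (ι d)) = ι d := fun d hd => by
      rw [hpf]
      exact f.right_inv (hU' d hd)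
    obtain ⟨s, s1, s2, s3⟩ := hS c hc.2 _ (q2 c ⟨hc.1, hST hc.2⟩)
    obtain ⟨r, r1, r2, r3⟩ := ext s s1 s2
    refine ⟨r, r1, r2, ?_⟩
    have q3 : f.symm (ι a) = e := by
      rw [← he, hpf]
      exact f.left_inv hf
    rw [← q3]
    refine uniq a ha W' w1 r (fun d => f.symm (ι d)) (r1 a ha)
      ((q1 a ⟨mem_of_mem_nhds w1, ha⟩).mono_of_mem_nhdsWithin
        (inter_comm T _ ▸ inter_mem_nhdsWithin T w1))
      ((r2 a ha).trans (q2 a ⟨mem_of_mem_nhds w1, ha⟩).symm) fun d hd => ?_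
    rw [r3 d hd.2]
    exact lift_unique cov w3 (s1.mono inter_subset_right)
      (q1.mono (inter_subset_inter_right _ hST))
      (fun d hd => (s2 d hd.2).trans (q2 d ⟨hd.1, hST hd.2⟩).symm) hc s3 d hd

/-- Locally uniform oscillation bounds give uniform bounds on compact sets. -/
lemma osc_bound {V κ : Type} [SeminormedAddCommGroup V] (hS : IsPreconnected S) (f : κ → Z → V)
    (h : ∀ b ∈ S, ∃ C, ∀ᶠ c in 𝓝[S] b, ∀ k, ‖f k c - f k b‖ ≤ C) {K : Set Z} (hK : IsCompact K)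
    (hKS : K ⊆ S) : ∃ C, ∀ k, ∀ b ∈ K, ∀ c ∈ K, ‖f k b - f k c‖ ≤ C := by
  have rel : ∀ b ∈ S, ∀ c ∈ S, ∃ C, ∀ k, ‖f k c - f k b‖ ≤ C := by
    intro b hb c hc
    refine hS.induction₂ (fun b c => ∃ C, ∀ k, ‖f k c - f k b‖ ≤ C) (fun b hb => ?_) ?_ ?_ hb hc
    · obtain ⟨C, hC⟩ := h b hb
      filter_upwards [hC] with c hc using ⟨C, hc⟩
    · rintro a b c - - - ⟨C, hC⟩ ⟨D, hD⟩
      refine ⟨D + C, fun k => ?_⟩
      exact (norm_sub_le_norm_sub_add_norm_sub _ (f k b) _).trans (add_le_add (hD k) (hC k))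
    · rintro a b - - ⟨C, hC⟩
      exact ⟨C, fun k => by rw [norm_sub_rev]; exact hC k⟩
  rcases K.eq_empty_or_nonempty with rfl | ⟨a, ha⟩
  · exact ⟨0, by simp⟩
  have : ∃ C, ∀ k, ∀ c ∈ K, ‖f k c - f k a‖ ≤ C := by
    refine hK.induction_on (p := fun L => ∃ C, ∀ k, ∀ c ∈ L, ‖f k c - f k a‖ ≤ C) ⟨0, by simp⟩
      (fun s t hst ⟨C, hC⟩ => ⟨C, fun k c hc => hC k c (hst hc)⟩)
      (fun s t ⟨C, hC⟩ ⟨D, hD⟩ => ⟨max C D, fun k c hc => hc.elim
        (fun h => (hC k c h).trans (le_max_left _ _)) fun h => (hD k c h).trans (le_max_right _ _)⟩)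
      fun b hb => ?_
    obtain ⟨C, hC⟩ := h b (hKS hb)
    obtain ⟨D, hD⟩ := rel a (hKS ha) b (hKS hb)
    refine ⟨_, nhdsWithin_mono b hKS hC, C + D, fun k c hc => ?_⟩
    exact (norm_sub_le_norm_sub_add_norm_sub _ (f k b) _).trans (add_le_add (hc k) (hD k))
  obtain ⟨C, hC⟩ := this
  refine ⟨C + C, fun k b hb c hc => ?_⟩
  refine (norm_sub_le_norm_sub_add_norm_sub _ (f k a) _).trans (add_le_add (hC k b hb) ?_)
  rw [norm_sub_rev]
  exact hC k c hc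

end Pool.Agent.Lib.MP_029589_gt
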