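import Pool.Agent.Lib.MP_029589_gt.Met
import Pool.Agent.Lib.MP_029589_gt.Lift

/-! Gluing of spaces and coverings. -/

set_option autoImplicit false

open scoped Manifold ContDiff Topology
open Set Filter Function Topology

namespace Pool.Agent.Lib.MP_029589_gt

section Top

variable {A P E X Z : Type} [TopologicalSpace A] [TopologicalSpace P] [TopologicalSpace E]
  [TopologicalSpace X] [TopologicalSpace Z]

/-- Gluing of two spaces along the graph `R` of a partial homeomorphism between open subsets. -/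
theorem exists_glue (R : A → P → Prop) (h1 : ∀ a p p', R a p → R a p' → p = p')
    (h2 : ∀ a a' p, R a p → R a' p → a = a') (h3 : ∀ U, IsOpen U → IsOpen {p | ∃ a ∈ U, R a p})
    (h4 : ∀ U, IsOpen U → IsOpen {a | ∃ p ∈ U, R a p}) :
    ∃ (Y : Type) (_ : TopologicalSpace Y) (i : A → Y) (j : P → Y), IsOpenEmbedding i ∧
      IsOpenEmbedding j ∧ (∀ y, (∃ a, i a = y) ∨ ∃ p, j p = y) ∧ ∀ a p, i a = j p ↔ R a p := by
  classical
  let Y := A ⊕ {p : P // ¬∃ a, R a p}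
  let i : A → Y := Sum.inl
  let j : P → Y := fun p => if h : ∃ a, R a p then Sum.inl h.choose else Sum.inr ⟨p, h⟩
  have key : ∀ a p, i a = j p ↔ R a p := fun a p => by
    by_cases h : ∃ a, R a p
    · simp only [i, j, dif_pos h]
      exact ⟨fun e => Sum.inl_injective e ▸ h.choose_spec,
        fun r => congrArg Sum.inl (h2 _ _ _ r h.choose_spec)⟩
    · simp only [i, j, dif_neg h]
      exact ⟨fun e => absurd e Sum.inl_ne_inr, fun r => absurd ⟨a, r⟩ h⟩
  have ji : Injective j := fun p p' e => by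
    by_cases h : ∃ a, R a p
    · obtain ⟨a, ha⟩ := h
      exact h1 a _ _ ha ((key a p').1 (((key a p).2 ha).trans e))
    · by_cases h' : ∃ a, R a p'
      · obtain ⟨a, ha⟩ := h'
        exact absurd ⟨a, (key a p).1 (((key a p').2 ha).trans e.symm)⟩ h
      · simp only [j, dif_neg h, dif_neg h'] at e
        exact congrArg Subtype.val (Sum.inr_injective e)
  let t : TopologicalSpace Y :=
    TopologicalSpace.coinduced i inferInstance ⊔ TopologicalSpace.coinduced j inferInstance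
  have op : ∀ s : Set Y, IsOpen[t] s ↔ IsOpen (i ⁻¹' s) ∧ IsOpen (j ⁻¹' s) := fun s => Iff.rfl
  refine ⟨Y, t, i, j, ?_, ?_, fun y => ?_, key⟩
  · refine .of_continuous_injective_isOpenMap ⟨fun s hs => ((op s).1 hs).1⟩ Sum.inl_injective
      fun U hU => (op _).2 ⟨by rwa [preimage_image_eq _ Sum.inl_injective], ?_⟩
    convert h3 U hU using 1
    ext p
    simp only [mem_preimage, mem_image, key, mem_ofPred_eq]
  · refine .of_continuous_injective_isOpenMap ⟨fun s hs => ((op s).1 hs).2⟩ ji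
      fun U hU => (op _).2 ⟨?_, by rwa [preimage_image_eq _ ji]⟩
    convert h4 U hU using 1
    ext a
    simp only [mem_preimage, mem_image, ← key, mem_ofPred_eq, eq_comm]
  · rcases y with a | p
    · exact Or.inl ⟨a, rfl⟩
    · exact Or.inr ⟨p, dif_neg p.2⟩

theorem t2_of_glue [T2Space A] [T2Space P] {i : A → X} {j : P → X} (hi : IsOpenEmbedding i)
    (hj : IsOpenEmbedding j) (h : ∀ y, (∃ a, i a = y) ∨ ∃ p, j p = y)
    (hc : IsClosed {q : A × P | i q.1 = j q.2}) : T2Space X := by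
  have key : ∀ a p, i a ≠ j p → ∃ u v : Set X, IsOpen u ∧ IsOpen v ∧ i a ∈ u ∧ j p ∈ v ∧
      Disjoint u v := fun a p hne => by
    obtain ⟨u, v, hu, hv, ha, hp, huv⟩ := isOpen_prod_iff.1 hc.isOpen_compl a p hne
    refine ⟨i '' u, j '' v, hi.isOpenMap _ hu, hj.isOpenMap _ hv, ⟨a, ha, rfl⟩, ⟨p, hp, rfl⟩,
      Set.disjoint_left.2 ?_⟩
    rintro _ ⟨a', ha', rfl⟩ ⟨p', hp', e⟩
    exact huv (mk_mem_prod ha' hp') e.symm
  refine ⟨fun x y hne => ?_⟩
  rcases h x with ⟨a, rfl⟩ | ⟨a, rfl⟩ <;> rcases h y with ⟨b, rfl⟩ | ⟨b, rfl⟩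
  · exact separated_by_isOpenEmbedding hi fun e => hne (congrArg i e)
  · exact key a b hne
  · obtain ⟨u, v, h1, h2, h3, h4, h5⟩ := key b a hne.symm
    exact ⟨v, u, h2, h1, h4, h3, h5.symm⟩
  · exact separated_by_isOpenEmbedding hj fun e => hne (congrArg j e)

lemma sec_eventually {p : E → X} {e : E} (hp : IsLocalHomeomorphOn p {e}) {s : X → E}
    (hs : ContinuousAt s (p e)) (h1 : s (p e) = e) (h2 : ∀ᶠ y in 𝓝 (p e), p (s y) = y) :
    ∀ᶠ e' in 𝓝 e, s (p e') = e' := by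
  obtain ⟨φ, hφ, rfl⟩ := hp e rfl
  have hc := φ.continuousAt hφ
  filter_upwards [φ.open_source.mem_nhds hφ, hc.eventually h2,
    (hs.comp hc).eventually (φ.open_source.mem_nhds (by rwa [comp, h1]))] with e' a1 a2 a3
  exact φ.injOn a3 a1 a2

theorem evenly_of_sections {p : E → X} {V : Set X} (hV : IsOpen V) (hV' : IsOpen (p ⁻¹' V))
    (hp : IsLocalHomeomorphOn p (p ⁻¹' V)) {κ : Type} (s : κ → X → E)
    (h1 : ∀ k, ContinuousOn (s k) V) (h2 : ∀ k, ∀ y ∈ V, p (s k y) = y)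
    (h3 : ∀ k k', ∀ y ∈ V, s k y = s k' y → k = k') (h4 : ∀ e, p e ∈ V → ∃ k, s k (p e) = e)
    {x : X} (hx : x ∈ V) : IsEvenlyCovered p x (p ⁻¹' {x}) := by
  let : TopologicalSpace κ := ⊥
  have : DiscreteTopology κ := ⟨rfl⟩
  choose k hk using h4
  refine IsEvenlyCovered.to_isEvenlyCovered_preimage (I := κ) ⟨inferInstance, V, hx, hV, hV',
    { toFun e := (⟨p e, e.2⟩, k e e.2)
      invFun q := ⟨s q.2 q.1, by rw [mem_preimage, h2 _ _ q.1.2]; exact q.1.2⟩
      left_inv e := Subtype.ext (hk e e.2)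
      right_inv q := Prod.ext (Subtype.ext (h2 _ _ q.1.2)) (h3 _ _ _ q.1.2 ?_)
      continuous_toFun := ?_
      continuous_invFun := ?_ }, fun _ => rfl⟩
  · have := hk (s q.2 q.1) (by rw [h2 _ _ q.1.2]; exact q.1.2)
    simpa only [h2 _ _ q.1.2] using this
  · refine (hp.continuousOn.domRestrict.subtype_mk _).prodMk
      (continuous_iff_continuousAt.2 fun e => continuousAt_const.congr (f := fun _ => k e e.2) ?_)
    have := sec_eventually (hp.mono (singleton_subset_iff.2 e.2))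
      ((h1 (k e e.2)).continuousAt (hV.mem_nhds e.2)) (hk e e.2)
      (eventually_of_mem (hV.mem_nhds e.2) (h2 _))
    filter_upwards [continuous_subtype_val.continuousAt.eventually this] with e' he'
    exact h3 _ _ _ e'.2 (he'.trans (hk e' e'.2).symm)
  · exact (continuous_prod_of_discrete_right.2 fun k => (h1 k).domRestrict).subtype_mk _

theorem sections_of_cov {p : E → X} (cov : IsCoveringMap p) (x : X) :
    ∃ V, IsOpen V ∧ x ∈ V ∧ ∃ s : p ⁻¹' {x} → X → E, (∀ k, ContinuousOn (s k) V) ∧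
      (∀ k, ∀ y ∈ V, p (s k y) = y) ∧ (∀ k k', ∀ y ∈ V, s k y = s k' y → k = k') ∧
      (∀ e, p e ∈ V → ∃ k, s k (p e) = e) ∧ ∀ k, s k x = k := by
  classical
  obtain ⟨_, V, hx, hV, -, H, hH⟩ := cov x
  have hk : ∀ k : p ⁻¹' {x}, k.1 ∈ p ⁻¹' V := fun k => by
    rw [mem_preimage, show p k = x from k.2]; exact hx
  have h0 : ∀ (e : p ⁻¹' V) (y : V), p e = y → H e = (y, (H e).2) := fun e y h =>
    Prod.ext (Subtype.ext ((hH e).trans h)) rfl
  refine ⟨V, hV, hx, fun k y => if hy : y ∈ V then H.symm (⟨y, hy⟩, (H ⟨k, hk k⟩).2) else k,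
    fun k => ?_, fun k y hy => ?_, fun k k' y hy h => ?_, fun e he => ?_, fun k => ?_⟩
  · rw [continuousOn_iff_continuous_domRestrict]
    have : Continuous fun y : V => (H.symm (y, (H ⟨k, hk k⟩).2)).1 := by fun_prop
    exact this.congr fun y => by simp
  · simp [hy, ← hH]
  · simp only [hy, dif_pos] at h
    have h1 := congrArg Prod.snd (H.symm.injective (Subtype.ext h))
    have h2 := h0 ⟨k, hk k⟩ ⟨x, hx⟩ k.2
    rw [show (H ⟨k, hk k⟩).2 = (H ⟨k', hk k'⟩).2 from h1, ← h0 ⟨k', hk k'⟩ ⟨x, hx⟩ k'.2] at h2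
    exact Subtype.ext (congrArg (fun z : p ⁻¹' V => z.1) (H.injective h2))
  · refine ⟨⟨H.symm (⟨x, hx⟩, (H ⟨e, he⟩).2), by simp [← hH]⟩, ?_⟩
    simp only [he, dif_pos, Subtype.coe_eta, Homeomorph.apply_symm_apply]
    rw [← h0 ⟨e, he⟩ ⟨p e, he⟩ rfl, H.symm_apply_apply]
  · simp only [hx, dif_pos]
    rw [← h0 ⟨k, hk k⟩ ⟨x, hx⟩ k.2, H.symm_apply_apply]

/-- Pull-backs. -/
abbrev Pb (φ : Z → X) (p : E → X) : Type := {z : Z × E // φ z.1 = p z.2}

theorem pb_loc {φ : Z → X} {p : E → X} (hφ : Continuous φ) (hp : IsLocalHomeomorph p) :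
    IsLocalHomeomorph fun z : Pb φ p => z.1.1 := by
  classical
  refine IsLocalHomeomorph.mk _ fun z => ?_
  obtain ⟨ψ, hψ, rfl⟩ := hp z.1.2
  have h1 : ∀ w : Pb φ ψ, w.1.2 ∈ ψ.source → φ w.1.1 ∈ ψ.target := fun w hw => by
    rw [w.2]; exact ψ.map_source hw
  refine ⟨{ toFun w := w.1.1
            invFun y := if h : φ y ∈ ψ.target then ⟨(y, ψ.symm (φ y)),
              (ψ.right_inv h).symm⟩ else z
            source := {w | w.1.2 ∈ ψ.source}
            target := φ ⁻¹' ψ.target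
            map_source' := h1
            map_target' y (hy : φ y ∈ ψ.target) := by
              rw [dif_pos hy]; exact ψ.map_target hy
            left_inv' w hw := by
              rw [dif_pos (h1 w hw)]
              refine Subtype.ext (Prod.ext rfl ?_)
              simp only [w.2]
              exact ψ.left_inv hw
            right_inv' y (hy : φ y ∈ ψ.target) := by rw [dif_pos hy]
            open_source := ψ.open_source.preimage (by fun_prop)
            open_target := ψ.open_target.preimage hφ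
            continuousOn_toFun := by fun_prop
            continuousOn_invFun := ?_ }, hψ, fun _ _ => rfl⟩
  exact IsInducing.subtypeVal.continuousOn_iff.2
    ((continuousOn_id.prodMk (ψ.continuousOn_symm.comp hφ.continuousOn fun _ h => h)).congr
    fun y (hy : φ y ∈ ψ.target) => by simp [hy])

theorem pb_cov {φ : Z → X} {p : E → X} (hφ : Continuous φ) (hp : IsCoveringMap p) :
    IsCoveringMap fun z : Pb φ p => z.1.1 := by
  classical
  intro x
  obtain ⟨V, hV, hx, s, h1, h2, h3, h4, -⟩ := sections_of_cov hp (φ x)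
  have hl := pb_loc hφ hp.isLocalHomeomorph
  refine evenly_of_sections (V := φ ⁻¹' V) (hV.preimage hφ) ((hV.preimage hφ).preimage hl.continuous)
    hl.isLocalHomeomorphOn (fun k y => if h : φ y ∈ V then ⟨(y, s k (φ y)), (h2 k _ h).symm⟩
      else ⟨(x, k), k.2.symm⟩) (fun k => ?_) (fun k y (hy : φ y ∈ V) => by simp [hy])
    (fun k k' y (hy : φ y ∈ V) h => ?_) (fun e (he : φ e.1.1 ∈ V) => ?_) hx
  · refine IsInducing.subtypeVal.continuousOn_iff.2
      ((continuousOn_id.prodMk ((h1 k).comp hφ.continuousOn fun _ h => h)).congr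
      fun y (hy : φ y ∈ V) => by simp [hy])
  · simp only [hy, dif_pos, Subtype.mk.injEq, Prod.mk.injEq, true_and] at h
    exact h3 _ _ _ hy h
  · obtain ⟨k, hk⟩ := h4 e.1.2 (e.2 ▸ he)
    refine ⟨k, ?_⟩
    rw [dif_pos he]
    exact Subtype.ext (Prod.ext rfl ((congrArg (s k) e.2).trans hk))

theorem lf_homotopic {p : E → X} (cov : IsCoveringMap p) {S : Set Z} {H : ℝ × Z → X}
    (hH : ContinuousOn H (Icc 0 1 ×ˢ S)) (h : Lf p (fun z => H (1, z)) S) :
    Lf p (fun z => H (0, z)) S := by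
  have h1 : Lf p H ({1} ×ˢ S) := h.comp (φ := Prod.snd) continuousOn_snd (fun _ h => h.2)
    (by rintro ⟨_, z⟩ ⟨rfl, -⟩; rfl)
  have h2 : Lf p H ({0} ×ˢ S) := Lf.homotopy cov hH h1 (fun q => (q.1, q.2.2)) (by fun_prop)
    (fun t ht a ha => ⟨ht, ha.2⟩) (by rintro ⟨_, z⟩ ⟨rfl, -⟩; rfl) fun a ha => ⟨rfl, ha.2⟩
  exact h2.comp (φ := fun z => (0, z)) (by fun_prop) (fun _ h => ⟨rfl, h⟩) fun _ _ => rfl

theorem precon_homotopic {p : E → X} (cov : IsCoveringMap p) {S : Set Z} {H : ℝ × Z → X}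
    (hH : ContinuousOn H (Icc 0 1 ×ˢ S))
    (h : IsPreconnected {z : Z × E | z.1 ∈ S ∧ H (0, z.1) = p z.2}) :
    IsPreconnected {z : Z × E | z.1 ∈ S ∧ H (1, z.1) = p z.2} := by
  let A := {z : Z × E | z.1 ∈ S ∧ H (0, z.1) = p z.2}
  have := Subtype.preconnectedSpace h
  let K : C(unitInterval × A, X) := ⟨fun q => H (q.1, q.2.1.1),
    hH.comp_continuous (by fun_prop) fun q => ⟨q.1.2, q.2.2.1⟩⟩
  let f : C(A, E) := ⟨fun a => a.1.2, by fun_prop⟩
  let G := cov.liftHomotopy K f fun a => a.2.2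
  have G1 : ∀ q, p (G q) = K q := congrFun (cov.liftHomotopy_lifts K f _)
  convert isPreconnected_range (f := fun a : A => (a.1.1, G (1, a))) (by fun_prop) using 1
  refine Subset.antisymm (fun z hz => ?_) ?_
  · have h1 : Lf p (fun t => H (t, z.1)) (Icc 0 1) :=
      Lf.homotopy cov (hH.comp (by fun_prop) fun t ht => ⟨ht, hz.1⟩) (lf_singleton _ _ 0)
        (fun q => (1 - q.1) * q.2) (by fun_prop) (fun t ht b hb => ⟨mul_nonneg (by linarith [ht.2])
          hb.1, mul_le_one₀ (by linarith [ht.1]) hb.1 hb.2⟩) (by simp) (by simp)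
    obtain ⟨η, h2, h3, h4⟩ := h1 1 (by simp) z.2 hz.2.symm
    let a : A := ⟨(z.1, η 0), hz.1, (h3 0 (by simp)).symm⟩
    have := cov.eq_of_comp_eq (g₁ := fun t : unitInterval => G (t, a)) (g₂ := fun t => η t)
      (by fun_prop) h2.domRestrict (funext fun t => (G1 _).trans (h3 t t.2).symm) 0
      (cov.liftHomotopy_zero K f _ a)
    exact ⟨a, Prod.ext rfl ((congrFun this 1).trans h4)⟩
  · rintro _ ⟨a, rfl⟩
    exact ⟨a.2.1, (G1 (1, a)).symm⟩

theorem lf_star {V : Type} [NormedAddCommGroup V] [NormedSpace ℝ V] {p : E → X}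
    (cov : IsCoveringMap p) {ι : V → X} {S : Set V} (hι : ContinuousOn ι S) {a : V}
    (h : StarConvex ℝ a S) : Lf p ι S :=
  Lf.homotopy cov hι (lf_singleton _ _ a) (fun q => q.1 • a + (1 - q.1) • q.2) (by fun_prop)
    (fun t ht b hb => h hb ht.1 (by linarith [ht.2]) (by ring)) (by simp) (by simp)

lemma star_ray {V : Type} [NormedAddCommGroup V] [NormedSpace ℝ V] {e : V} (he : e ≠ 0) :
    StarConvex ℝ e {v | ∀ t : ℝ, 0 ≤ t → v ≠ -(t • e)} := by
  intro y hy a b ha hb hab t ht h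
  rcases hb.eq_or_lt with rfl | hb'
  · rw [add_zero] at hab
    rw [hab, zero_smul, add_zero, eq_neg_iff_add_eq_zero, ← add_smul] at h
    exact (smul_ne_zero (by linarith) he) h
  · refine hy ((t + a) / b) (by positivity) (smul_right_injective V hb'.ne' ?_)
    simp only [smul_neg, smul_smul, mul_div_cancel₀ _ hb'.ne', add_smul]
    rw [eq_sub_of_add_eq' h]
    abel

lemma isOpen_ray {V : Type} [NormedAddCommGroup V] [NormedSpace ℝ V] {e : V} (he : e ≠ 0) :
    IsOpen {v | ∀ t : ℝ, 0 ≤ t → v ≠ -(t • e)} := by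
  have h := (isClosedEmbedding_smul_left (𝕜 := ℝ) (neg_ne_zero.2 he)).isClosedMap _
    (isClosed_Ici (a := (0 : ℝ)))
  convert h.isOpen_compl using 1
  ext v
  simp [eq_comm]

theorem lf_compl_zero {V : Type} [NormedAddCommGroup V] [NormedSpace ℝ V] [FiniteDimensional ℝ V]
    (hV : 3 ≤ Module.finrank ℝ V) {p : E → X} (cov : IsCoveringMap p) {ι : V → X}
    (hι : ContinuousOn ι {0}ᶜ) : Lf p ι {0}ᶜ := by
  have : Nontrivial V := Module.nontrivial_of_finrank_pos (R := ℝ) (by omega)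
  obtain ⟨e, he⟩ := exists_ne (0 : V)
  have he' := neg_ne_zero.2 he
  have s1 : ∀ e : V, {v | ∀ t : ℝ, 0 ≤ t → v ≠ -(t • e)} ⊆ {0}ᶜ := fun e v hv => by
    simpa using hv 0 le_rfl
  have e1 : {v | ∀ t : ℝ, 0 ≤ t → v ≠ -(t • e)} ∪ {v | ∀ t : ℝ, 0 ≤ t → v ≠ -(t • -e)} = {0}ᶜ := by
    refine Subset.antisymm (union_subset (s1 _) (s1 _)) fun v hv => ?_
    by_contra h
    simp only [mem_union, mem_ofPred_eq, not_or, not_forall, not_not] at h
    obtain ⟨⟨t, ht, h1⟩, s, hs, h2⟩ := h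
    rw [h2, smul_neg, neg_neg, eq_neg_iff_add_eq_zero, ← add_smul] at h1
    have : s = 0 := by linarith [(smul_eq_zero.1 h1).resolve_right he]
    exact hv (by simp [h2, this])
  have e2 : {v | ∀ t : ℝ, 0 ≤ t → v ≠ -(t • -e)} ∩ {v | ∀ t : ℝ, 0 ≤ t → v ≠ -(t • e)} =
      (ℝ ∙ e : Set V)ᶜ := by
    ext v
    simp only [mem_inter_iff, mem_ofPred_eq, mem_compl_iff, SetLike.mem_coe,
      Submodule.mem_span_singleton, not_exists]
    refine ⟨fun h t ht => ?_, fun h => ⟨fun t _ ht => h t (by simp [ht]),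
      fun t _ ht => h (-t) (by simp [ht])⟩⟩
    rcases le_total 0 t with h' | h'
    · exact h.1 t h' (by simp [ht])
    · exact h.2 (-t) (by linarith) (by simp [ht])
  have c : IsPathConnected (ℝ ∙ e : Set V)ᶜ := by
    refine isPathConnected_compl_of_one_lt_codim ?_
    have h1 := (ℝ ∙ e).finrank_quotient_add_finrank
    rw [finrank_span_singleton he] at h1
    rw [← Module.finrank_eq_rank]
    exact_mod_cast (by omega : 1 < Module.finrank ℝ (V ⧸ (ℝ ∙ e)))
  rw [← e1]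
  refine lf_union cov (lf_star cov (hι.mono (s1 _)) (star_ray he))
    (lf_star cov (hι.mono (s1 _)) (star_ray he')) ((star_ray he').isPathConnected
      (fun t ht h => ?_)).isConnected.isPreconnected (e2 ▸ c.isConnected.isPreconnected)
    (e2 ▸ c.nonempty) fun s a b => a.union_of_isOpen b (isOpen_ray he) (isOpen_ray he')
  rw [eq_neg_iff_add_eq_zero, ← one_smul ℝ (-e), smul_smul, ← add_smul] at h
  exact smul_ne_zero (by linarith) he' h

/-- Removing disjoint open pieces with connected remainder keeps a space connected. -/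
theorem precon_remove {S Λ : Set Z} {κ : Type} {T : κ → Set Z} (hS : IsPreconnected S)
    (hΛ : IsOpen Λ) (hT : ∀ k, IsOpen (T k)) (hd : Pairwise (Disjoint on T))
    (hc : ∀ k, IsPreconnected (T k ∩ Λ)) (he : S = Λ ∪ ⋃ k, T k) : IsPreconnected Λ := by
  rw [isPreconnected_iff_subset_of_disjoint]
  intro u v hu hv huv hd'
  have h1 : ∀ k, T k ∩ Λ ⊆ u ∨ T k ∩ Λ ⊆ v := fun k =>
    isPreconnected_iff_subset_of_disjoint.1 (hc k) u v hu hv (inter_subset_right.trans huv)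
      (eq_empty_of_subset_empty ((inter_subset_inter_left _ inter_subset_right).trans hd'.le))
  have h2 : ∀ z ∈ Λ, z ∈ u → z ∉ v := fun z a b c => (hd'.le ⟨a, b, c⟩ :)
  have := isPreconnected_iff_subset_of_disjoint.1 hS
    (Λ ∩ u ∪ ⋃ k ∈ {k | T k ∩ Λ ⊆ u}, T k) (Λ ∩ v ∪ ⋃ k ∈ {k | ¬T k ∩ Λ ⊆ u}, T k)
    ((hΛ.inter hu).union (isOpen_biUnion fun k _ => hT k))
    ((hΛ.inter hv).union (isOpen_biUnion fun k _ => hT k)) (fun z hz => ?_) ?_
  · refine this.imp (fun h z hz => ?_) fun h z hz => ?_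
    · rcases h (he.ge (Or.inl hz)) with h | h
      · exact h.2
      · obtain ⟨k, hk, h⟩ := mem_iUnion₂.1 h
        exact hk ⟨h, hz⟩
    · rcases h (he.ge (Or.inl hz)) with h | h
      · exact h.2
      · obtain ⟨k, hk, h⟩ := mem_iUnion₂.1 h
        exact (h1 k).resolve_left hk ⟨h, hz⟩
  · rw [he] at hz
    rcases hz with hz | hz
    · exact (huv hz).imp (fun h => Or.inl ⟨hz, h⟩) fun h => Or.inl ⟨hz, h⟩
    · obtain ⟨k, hk⟩ := mem_iUnion.1 hz
      by_cases h : T k ∩ Λ ⊆ u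
      · exact Or.inl (Or.inr (mem_biUnion (t := T) h hk))
      · exact Or.inr (Or.inr (mem_biUnion (t := T) h hk))
  · refine eq_empty_of_forall_notMem ?_
    rintro z ⟨-, a | a, b | b⟩
    · exact h2 z a.1 a.2 b.2
    · obtain ⟨k, hk, h⟩ := mem_iUnion₂.1 b
      exact h2 z a.1 a.2 ((h1 k).resolve_left hk ⟨h, a.1⟩)
    · obtain ⟨k, hk, h⟩ := mem_iUnion₂.1 a
      exact h2 z b.1 (hk ⟨h, b.1⟩) b.2
    · obtain ⟨k, hk, h⟩ := mem_iUnion₂.1 a
      obtain ⟨k', hk', h'⟩ := mem_iUnion₂.1 b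
      by_cases e : k = k'
      · exact hk' (e ▸ hk)
      · exact Set.disjoint_left.1 (hd e) h h'

theorem t2_of_cov [T2Space X] {p : E → X} (cov : IsCoveringMap p) : T2Space E :=
  ⟨fun a b h => by
    by_cases e : p a = p b
    · exact cov.isSeparatedMap a b e h
    · exact separated_by_continuous cov.continuous e⟩

theorem Acc.pull {ϖ : Z → X} (h : IsLocalHomeomorph ϖ) {S T : Set X} (hST : S ⊆ T)
    (ha : Acc S T) : Acc (ϖ ⁻¹' S) (ϖ ⁻¹' T) := by
  intro b hb hbS W hW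
  obtain ⟨φ, hφ, rfl⟩ := h b
  have h1 : φ.target ∩ φ.symm ⁻¹' W ∈ 𝓝 (φ b) := inter_mem (φ.open_target.mem_nhds
    (φ.map_source hφ)) (φ.continuousAt_symm (φ.map_source hφ) (by rwa [φ.left_inv hφ]))
  obtain ⟨W', w1, w2, w3⟩ := ha _ hb hbS _ h1
  refine ⟨φ.source ∩ φ ⁻¹' W', inter_mem (φ.open_source.mem_nhds hφ) (φ.continuousAt hφ w1),
    fun z hz => ?_, ?_⟩
  · have := (w2 ⟨hz.1.2, hz.2⟩).2
    rwa [mem_preimage, φ.left_inv hz.1.1] at this
  · have h2 : W' ∩ S ⊆ φ.target := fun y hy => (w2 ⟨hy.1, hST hy.2⟩).1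
    convert w3.image _ (φ.continuousOn_symm.mono h2) using 1
    refine Subset.antisymm (fun z hz => ⟨φ z, ⟨hz.1.2, hz.2⟩, φ.left_inv hz.1.1⟩) ?_
    rintro _ ⟨y, hy, rfl⟩
    refine ⟨⟨φ.map_target (h2 hy), ?_⟩, ?_⟩ <;> rw [mem_preimage, φ.right_inv (h2 hy)]
    exacts [hy.1, hy.2]

lemma isOpen_sec {p : E → X} (hp : IsLocalHomeomorph p) {s : X → E} {V : Set X} (hV : IsOpen V)
    (h1 : ContinuousOn s V) (h2 : ∀ y ∈ V, p (s y) = y) : IsOpen (s '' V) := by
  refine isOpen_iff_mem_nhds.2 ?_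
  rintro _ ⟨y, hy, rfl⟩
  have hy' : V ∈ 𝓝 (p (s y)) := by rw [h2 y hy]; exact hV.mem_nhds hy
  filter_upwards [sec_eventually (e := s y) hp.isLocalHomeomorphOn (s := s)
    (h1.continuousAt hy') (by rw [h2 y hy]) (eventually_of_mem hy' h2),
    hp.continuous.continuousAt hy'] with e a b using ⟨_, b, a⟩

theorem precon_fill {ϖ : Z → X} (_cov : IsCoveringMap ϖ) {O : Set X} {κ : Type} {T : κ → Set X}
    (h0 : ∀ k, IsPreconnected (T k)) (hc : ∀ k, (T k ∩ O).Nonempty) (h2 : ∀ k, Lf ϖ id (T k))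
    (h : IsPreconnected (ϖ ⁻¹' O)) : IsPreconnected (ϖ ⁻¹' (O ∪ ⋃ k, T k)) := by
  have key : ∀ z ∈ ϖ ⁻¹' (O ∪ ⋃ k, T k), ∃ W ⊆ ϖ ⁻¹' (O ∪ ⋃ k, T k), z ∈ W ∧ IsPreconnected W ∧
      (W ∩ ϖ ⁻¹' O).Nonempty := by
    rintro z (hz | hz)
    · exact ⟨{z}, singleton_subset_iff.2 (Or.inl hz), rfl, isPreconnected_singleton, z, rfl, hz⟩
    · obtain ⟨k, hk⟩ := mem_iUnion.1 hz
      obtain ⟨s, s1, s2, s3⟩ := h2 k _ hk z rfl
      obtain ⟨c, c1, c2⟩ := hc k
      refine ⟨s '' T k, ?_, ⟨_, hk, s3⟩, (h0 k).image _ s1, s c, ⟨c, c1, rfl⟩, ?_⟩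
      · rintro _ ⟨y, hy, rfl⟩
        rw [mem_preimage, s2 y hy]
        exact Or.inr (mem_iUnion_of_mem k hy)
      · rwa [mem_preimage, s2 c c1]
  refine isPreconnected_of_forall_pair fun a ha b hb => ?_
  obtain ⟨W, w1, w2, w3, w4⟩ := key a ha
  obtain ⟨W', v1, v2, v3, v4⟩ := key b hb
  refine ⟨W ∪ ϖ ⁻¹' O ∪ W', union_subset (union_subset w1 fun _ h => Or.inl h) v1,
    Or.inl (Or.inl w2), Or.inr v2, (w3.union' w4 h).union' ?_ v3⟩
  obtain ⟨c, c1, c2⟩ := v4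
  exact ⟨c, Or.inr c2, c1⟩

/-- Lifting over a piece on which both coverings are trivial. -/
theorem lf_fill {p : E → X} (cov : IsCoveringMap p) {ϖ : Z → X}
    (cov' : IsCoveringMap ϖ) {O : Set X} (hO : IsOpen O) {κ : Type} {T : κ → Set X}
    (hT : ∀ k, IsOpen (T k)) (hd : Pairwise (Disjoint on T)) (h0 : ∀ k, IsPreconnected (T k))
    (hc : ∀ k, IsConnected (T k ∩ O)) (h1 : ∀ k, Lf p id (T k)) (h2 : ∀ k, Lf ϖ id (T k))
    (h : Lf p ϖ (ϖ ⁻¹' O)) : Lf p ϖ (ϖ ⁻¹' (O ∪ ⋃ k, T k)) := by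
  choose c hc' using fun k => (hc k).nonempty
  choose s s1 s2 s3 using fun q : Σ k, ϖ ⁻¹' {c k} => h2 q.1 _ (hc' q.1).1 q.2 q.2.2
  have e1 : ∀ q, s q '' T q.1 ∩ ϖ ⁻¹' O = s q '' (T q.1 ∩ O) := fun q => by
    refine Subset.antisymm ?_ ?_
    · rintro _ ⟨⟨y, hy, rfl⟩, h⟩
      exact ⟨y, ⟨hy, by rwa [mem_preimage, s2 q y hy] at h⟩, rfl⟩
    · rintro _ ⟨y, hy, rfl⟩
      exact ⟨⟨y, hy.1, rfl⟩, by rw [mem_preimage, s2 q y hy.1]; exact hy.2⟩
  have e2 : ∀ q q', q ≠ q' → s q '' T q.1 ∩ s q' '' T q'.1 = ∅ := by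
    rintro ⟨k, a⟩ ⟨k', a'⟩ hne
    refine eq_empty_of_forall_notMem ?_
    rintro _ ⟨⟨y, hy, rfl⟩, y', hy', e⟩
    have e3 : y' = y := (s2 _ y' hy').symm.trans ((congrArg ϖ e).trans (s2 _ y hy))
    subst e3
    obtain rfl : k = k' := by_contra fun h => Set.disjoint_left.1 (hd h) hy hy'
    have := lift_unique cov' (h0 k) (s1 ⟨k, a'⟩) (s1 ⟨k, a⟩)
      (fun b hb => (s2 _ b hb).trans (s2 ⟨k, a⟩ b hb).symm) hy e _ (hc' k).1
    rw [s3 ⟨k, a'⟩, s3 ⟨k, a⟩] at this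
    exact hne (congrArg _ (Subtype.ext this.symm))
  have op := fun q => isOpen_sec cov'.isLocalHomeomorph (hT q.1) (s1 q) (s2 q)
  have oO := hO.preimage cov'.continuous
  have e3 : ϖ ⁻¹' (O ∪ ⋃ k, T k) = ϖ ⁻¹' O ∪ ⋃ q, s q '' T q.1 := by
    refine Subset.antisymm ?_ (union_subset (fun _ h => Or.inl h) (iUnion_subset ?_))
    · rintro z (hz | hz)
      · exact Or.inl hz
      · obtain ⟨k, hk⟩ := mem_iUnion.1 hz
        obtain ⟨t, t1, t2, t3⟩ := h2 k _ hk z rfl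
        let q : Σ k, ϖ ⁻¹' {c k} := ⟨k, t (c k), t2 _ (hc' k).1⟩
        refine Or.inr (mem_iUnion_of_mem q ⟨_, hk, ?_⟩)
        rw [← t3, t2 _ hk]
        exact lift_unique cov' (h0 k) (s1 q) t1 (fun b hb => (s2 q b hb).trans (t2 b hb).symm)
          (hc' k).1 (s3 q) _ hk
    · rintro q _ ⟨y, hy, rfl⟩
      rw [mem_preimage, s2 q y hy]
      exact Or.inr (mem_iUnion_of_mem q.1 hy)
  refine lf_spine cov (T := fun q => s q '' T q.1) h (fun q => (h1 q.1).comp
    cov'.continuous.continuousOn ?_ fun _ _ => rfl) (fun q => (h0 _).image _ (s1 q))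
    (fun q => e1 q ▸ (hc _).isPreconnected.image _ ((s1 q).mono inter_subset_left))
    (fun q => e1 q ▸ (hc _).nonempty.image _) (fun q q' hne => e2 q q' hne ▸ isPreconnected_empty)
    (fun q q' hne h => absurd h (by simp [e2 q q' hne])) e3 fun t a b z hz => ?_
  · rintro _ ⟨y, hy, rfl⟩
    rwa [s2 q y hy]
  · rw [e3] at hz
    rcases hz with hz | hz
    · exact (a.continuousAt (oO.mem_nhds hz)).continuousWithinAt
    · obtain ⟨q, hq⟩ := mem_iUnion.1 hz
      exact ((b q).continuousAt ((op q).mem_nhds hq)).continuousWithinAt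

lemma lc_of_loc [LocallyConnectedSpace X] {p : E → X} (hp : IsLocalHomeomorph p) :
    LocallyConnectedSpace E := by
  refine locallyConnectedSpace_iff_subsets_isOpen_isConnected.2 fun e U hU => ?_
  obtain ⟨φ, hφ, rfl⟩ := hp e
  have h1 : φ.target ∩ φ.symm ⁻¹' U ∈ 𝓝 (φ e) := inter_mem (φ.open_target.mem_nhds
    (φ.map_source hφ)) (φ.continuousAt_symm (φ.map_source hφ) (by rwa [φ.left_inv hφ]))
  obtain ⟨V, v1, v2, v3, v4⟩ :=
    locallyConnectedSpace_iff_subsets_isOpen_isConnected.1 inferInstance _ _ h1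
  have h2 : V ⊆ φ.target := v1.trans inter_subset_left
  exact ⟨φ.symm '' V, image_subset_iff.2 (v1.trans inter_subset_right),
    φ.isOpen_image_symm_of_subset_target v2 h2, ⟨_, v3, φ.left_inv hφ⟩,
    v4.image _ (φ.continuousOn_symm.mono h2)⟩

lemma sections_conn [LocallyConnectedSpace X] {p : E → X} (cov : IsCoveringMap p) (x : X) :
    ∃ V, IsOpen V ∧ x ∈ V ∧ IsPreconnected V ∧ ∃ s : p ⁻¹' {x} → X → E,
      (∀ k, ContinuousOn (s k) V) ∧
      (∀ k, ∀ y ∈ V, p (s k y) = y) ∧ (∀ k k', ∀ y ∈ V, s k y = s k' y → k = k') ∧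
      (∀ e, p e ∈ V → ∃ k, s k (p e) = e) ∧ ∀ k, s k x = k := by
  obtain ⟨V, hV, hx, s, h1, h2, h3, h4, h5⟩ := sections_of_cov cov x
  obtain ⟨W, v1, v2, v3, v4⟩ :=
    locallyConnectedSpace_iff_subsets_isOpen_isConnected.1 inferInstance _ _ (hV.mem_nhds hx)
  exact ⟨W, v2, v3, v4.isPreconnected, s, fun k => (h1 k).mono v1, fun k y hy => h2 k y (v1 hy),
    fun k k' y hy => h3 k k' y (v1 hy), fun e he => h4 e (v1 he), h5⟩

theorem cov_clopen [LocallyConnectedSpace X] {p : E → X} (cov : IsCoveringMap p) {C : Set E}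
    (hC : IsClopen C) : IsCoveringMap fun e : C => p e := by
  classical
  intro x
  obtain ⟨V, hV, hx, hc, s, h1, h2, h3, h4, h5⟩ := sections_conn cov x
  have hl : IsLocalHomeomorph fun e : C => p e :=
    cov.isLocalHomeomorph.comp hC.isOpen.isOpenEmbedding_subtypeVal.isLocalHomeomorph
  have h6 : ∀ k, ∀ y ∈ V, s k y ∈ C → ∀ y' ∈ V, s k y' ∈ C := fun k y hy h y' hy' =>
    (hc.image _ (h1 k)).subset_isClopen hC ⟨_, ⟨y, hy, rfl⟩, h⟩ ⟨y', hy', rfl⟩
  refine evenly_of_sections hV (hV.preimage hl.continuous) hl.isLocalHomeomorphOn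
    (fun (k : {k // s k x ∈ C}) y => if h : y ∈ V then ⟨s k y, h6 _ _ hx k.2 y h⟩ else ⟨_, k.2⟩)
    (fun k => ?_) (fun k y hy => by simp [hy, h2]) (fun k k' y hy h => ?_) (fun e he => ?_) hx
  · exact IsInducing.subtypeVal.continuousOn_iff.2 ((h1 k).congr fun y hy => by simp [hy])
  · simp only [hy, dif_pos, Subtype.mk.injEq] at h
    exact Subtype.ext (h3 _ _ _ hy h)
  · obtain ⟨k, hk⟩ := h4 e he
    exact ⟨⟨k, h6 _ _ he (hk.symm ▸ e.2) x hx⟩, by rw [dif_pos he]; exact Subtype.ext hk⟩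

theorem cov_component [LocallyConnectedSpace X] {p : E → X} (cov : IsCoveringMap p) (z : E) :
    IsCoveringMap fun e : connectedComponent z => p e :=
  have := lc_of_loc cov.isLocalHomeomorph
  cov_clopen cov isClopen_connectedComponent

theorem sc_of_cov [LocallyConnectedSpace X] [SecondCountableTopology X] [PreconnectedSpace E]
    {p : E → X} (cov : IsCoveringMap p) : SecondCountableTopology E := by
  choose V hV hx hc s h1 h2 h3 h4 h5 using sections_conn cov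
  obtain ⟨I, hI, hU⟩ := TopologicalSpace.countable_cover_nhds fun x => (hV x).mem_nhds (hx x)
  have := hI.to_subtype
  let Q := Σ x : I, p ⁻¹' {x.1}
  let sh : Q → Set E := fun q => s q.1 q.2 '' V q.1
  have op : ∀ q, IsOpen (sh q) := fun q => isOpen_sec cov.isLocalHomeomorph (hV _) (h1 _ _) (h2 _ _)
  have sc : ∀ q, SecondCountableTopology (sh q) := fun q => by
    refine ((cov.isLocalHomeomorph.comp (op q).isOpenEmbedding_subtypeVal.isLocalHomeomorph
      ).isOpenEmbedding_of_injective ?_).isEmbedding.secondCountableTopology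
    rintro ⟨_, y, hy, rfl⟩ ⟨_, y', hy', rfl⟩ h
    simp only [comp, h2 _ _ _ hy, h2 _ _ _ hy'] at h
    simp [h]
  have all : ∀ e, ∃ q, e ∈ sh q := fun e => by
    obtain ⟨x, hx, h⟩ := mem_iUnion₂.1 (hU.ge (mem_univ (p e)))
    obtain ⟨k, hk⟩ := h4 x e h
    exact ⟨⟨⟨x, hx⟩, k⟩, _, h, hk⟩
  have adj : ∀ q, {q' | (sh q ∩ sh q').Nonempty}.Countable := fun q => by
    have h6 : ∀ x : I, {k : p ⁻¹' {x.1} | (sh q ∩ sh ⟨x, k⟩).Nonempty}.Countable := fun x => by
      have := sc q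
      refine PairwiseDisjoint.countable_of_isOpen (s := fun k => (Subtype.val ⁻¹' sh ⟨x, k⟩ :
        Set (sh q))) (fun k _ k' _ hne => Set.disjoint_left.2 ?_)
        (fun k _ => (op _).preimage continuous_subtype_val) fun k ⟨e, a, b⟩ => ⟨⟨e, a⟩, b⟩
      rintro e ⟨y, hy, a⟩ ⟨y', hy', b⟩
      obtain rfl : y = y' :=
        (h2 _ _ _ hy).symm.trans ((congrArg p (a.trans b.symm)).trans (h2 _ _ _ hy'))
      exact hne (h3 _ _ _ _ hy (a.trans b.symm))
    refine (countable_iUnion fun x : I => (h6 x).image fun k => (⟨x, k⟩ : Q)).mono fun q' hq' => ?_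
    exact mem_iUnion_of_mem q'.1 ⟨q'.2, hq', rfl⟩
  rcases isEmpty_or_nonempty E with h | ⟨⟨e₀⟩⟩
  · infer_instance
  obtain ⟨q₀, hq₀⟩ := all e₀
  let R : ℕ → Set Q := fun n => Nat.rec {q₀} (fun _ r => ⋃ q ∈ r, {q' | (sh q ∩ sh q').Nonempty}) n
  have hR : ∀ n, (R n).Countable := fun n => by
    induction n with
    | zero => exact countable_singleton _
    | succ n ih => exact ih.biUnion fun q _ => adj q
  have := (countable_iUnion hR).to_subtype
  have ow : IsOpen (⋃ q : ⋃ n, R n, sh q) := isOpen_iUnion fun q => op _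
  refine TopologicalSpace.secondCountableTopology_of_countable_cover (U := fun q : ⋃ n, R n => sh q)
    (fun q => op _) (IsClopen.eq_univ ⟨?_, ow⟩ ⟨e₀, mem_iUnion_of_mem ⟨q₀, mem_iUnion_of_mem 0 rfl⟩ hq₀⟩)
  refine isOpen_compl_iff.1 (isOpen_iff_mem_nhds.2 fun e he => ?_)
  obtain ⟨q, hq⟩ := all e
  filter_upwards [(op q).mem_nhds hq] with e' h1 h2
  obtain ⟨⟨q', hq'⟩, h3⟩ := mem_iUnion.1 h2
  obtain ⟨n, hn⟩ := mem_iUnion.1 hq'
  exact he (mem_iUnion_of_mem ⟨q, mem_iUnion_of_mem (n + 1) (mem_biUnion hn ⟨e', h3, h1⟩)⟩ hq)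

/-- Extension of a pulled back covering over disjoint open pieces. -/
theorem exists_ext {p : E → X} (cov : IsCoveringMap p) {ι : Z → X} {Λ : Set Z} (hΛ : IsOpen Λ)
    (hι : ContinuousOn ι Λ) {κ : Type} {T : κ → Set Z} (hT : ∀ k, IsOpen (T k))
    (hd : Pairwise (Disjoint on T)) (hc : ∀ k, IsConnected (T k ∩ Λ))
    (hl : ∀ k, Lf p ι (T k ∩ Λ)) (hu : Λ ∪ ⋃ k, T k = univ) [Nonempty E] :
    ∃ (E' : Type) (_ : TopologicalSpace E') (p' : E' → Z) (r : E' → E),
      IsCoveringMap p' ∧ ContinuousOn r (p' ⁻¹' Λ) ∧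
      (∀ b ∈ Λ, BijOn r (p' ⁻¹' {b}) (p ⁻¹' {ι b})) ∧ ∀ k, Lf p' id (T k) := by
  classical
  choose c hc' using fun k => (hc k).nonempty
  choose s s1 s2 s3 using fun (k : κ) (a : p ⁻¹' {ι (c k)}) => hl k _ (hc' k) a a.2
  have dis : ∀ k, DiscreteTopology (p ⁻¹' {ι (c k)}) := fun k => (cov _).1
  have inj : ∀ k a a', ∀ y ∈ T k ∩ Λ, s k a y = s k a' y → a = a' := fun k a a' y hy h => by
    have := lift_unique cov (hc k).isPreconnected (s1 k a) (s1 k a')
      (fun b hb => (s2 k a b hb).trans (s2 k a' b hb).symm) hy h _ (hc' k)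
    rw [s3, s3] at this
    exact Subtype.ext this
  have sur : ∀ k e, ∀ y ∈ T k ∩ Λ, p e = ι y → ∃ a, s k a y = e := fun k e y hy h => by
    obtain ⟨t, t1, t2, t3⟩ := hl k y hy e h
    refine ⟨⟨t (c k), t2 _ (hc' k)⟩, t3 ▸ ?_⟩
    exact lift_unique cov (hc k).isPreconnected (s1 k _) t1
      (fun b hb => (s2 k _ b hb).trans (t2 b hb).symm) (hc' k) (s3 k _) _ hy
  have hφ : Continuous fun z : Λ => ι z := hι.domRestrict
  let A := Pb (fun z : Λ => ι z) p
  let P := Σ k, T k × p ⁻¹' {ι (c k)}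
  have G := exists_glue (A := A) (P := P)
    (fun a q => a.1.1.1 = q.2.1.1 ∧ a.1.2 = s q.1 q.2.2 a.1.1) ?g1 ?g2 ?g3 ?g4
  case g1 =>
    rintro a ⟨k, x, b⟩ ⟨k', x', b'⟩ ⟨h1, h2⟩ ⟨h3, h4⟩
    simp only at h1 h2 h3 h4
    obtain rfl : k = k' := by_contra fun h =>
      Set.disjoint_left.1 (hd h) (h1 ▸ x.2) (h3 ▸ x'.2)
    rw [Subtype.ext (h1.symm.trans h3), inj k b b' _ ⟨h1 ▸ x.2, a.1.1.2⟩ (h2.symm.trans h4)]
  case g2 =>
    rintro a a' q ⟨h1, h2⟩ ⟨h3, h4⟩
    have := h1.trans h3.symm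
    exact Subtype.ext (Prod.ext (Subtype.ext this) (by rw [h2, h4, this]))
  case g3 =>
    intro U hU
    obtain ⟨U', hU', rfl⟩ := isOpen_induced_iff.1 hU
    obtain ⟨U'', h1, rfl⟩ :=
      (IsInducing.subtypeVal.prodMap IsInducing.id).isOpen_iff.1 hU'
    refine isOpen_sigma_iff.2 fun k => isOpen_iff_mem_nhds.2 ?_
    rintro ⟨x, b⟩ ⟨a, h2, h3, h4⟩
    have hx : x.1 ∈ T k ∩ Λ := ⟨x.2, h3 ▸ a.1.1.2⟩
    have h5 := ((hT k).inter hΛ).mem_nhds hx
    have h6 : ContinuousAt (fun y => (y, s k b y)) x.1 :=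
      continuousAt_id.prodMk ((s1 k b).continuousAt h5)
    have h7 : ∀ᶠ y in 𝓝 x.1, (y, s k b y) ∈ U'' := h6 (h1.mem_nhds (by
      simp only at h3 h4 ⊢
      rw [← h3, ← h4]
      exact h2))
    rw [nhds_prod_eq, nhds_discrete (p ⁻¹' {ι (c k)}), prod_pure, mem_map]
    filter_upwards [continuous_subtype_val.continuousAt h5,
      continuous_subtype_val.continuousAt.eventually h7] with y h8 h9
    exact ⟨⟨(⟨y, h8.2⟩, s k b y), (s2 k b y h8).symm⟩, h9, rfl, rfl⟩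
  case g4 =>
    intro U hU
    refine isOpen_iff_mem_nhds.2 ?_
    rintro a ⟨⟨k, x, b⟩, h2, h3, h4⟩
    simp only at h3 h4
    have c1 : Continuous fun a : A => a.1.1.1 := by fun_prop
    have c2 : Continuous fun a : A => a.1.2 := by fun_prop
    have hx : a.1.1.1 ∈ T k ∩ Λ := ⟨h3 ▸ x.2, a.1.1.2⟩
    have h5 := ((hT k).inter hΛ).mem_nhds hx
    obtain ⟨φ, hφ, e⟩ := cov.isLocalHomeomorph a.1.2
    obtain ⟨U', hU', e'⟩ := isOpen_induced_iff.1
      ((isOpen_sigma_iff.1 hU k).preimage (Continuous.prodMk_left b))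
    filter_upwards [c1.continuousAt h5, c2.continuousAt (φ.open_source.mem_nhds hφ),
      (ContinuousAt.comp (f := fun a : A => a.1.1.1) ((s1 k b).continuousAt h5) c1.continuousAt)
        (φ.open_source.mem_nhds (show s k b a.1.1.1 ∈ _ from h4 ▸ hφ)),
      c1.continuousAt (hU'.mem_nhds (h3 ▸ e'.ge h2))] with a' a1 a2 a3 a4
    refine ⟨⟨k, ⟨_, a1.1⟩, b⟩, e'.le a4, rfl, φ.injOn a2 a3 ?_⟩
    rw [← e]
    exact a'.2.symm.trans (s2 k b _ a1).symm
  obtain ⟨Y, _, i, j, hi, hj, hy, hR⟩ := G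
  let p' : Y → Z := fun y => if h : ∃ a, i a = y then h.choose.1.1 else
    ((hy y).resolve_left h).choose.2.1
  have pi : ∀ a, p' (i a) = a.1.1 := fun a => by
    have h : ∃ a', i a' = i a := ⟨a, rfl⟩
    simp only [p', dif_pos h, hi.injective h.choose_spec]
  have pj : ∀ q, p' (j q) = q.2.1 := fun q => by
    by_cases h : ∃ a, i a = j q
    · obtain ⟨a, h⟩ := h
      rw [← h, pi, ((hR _ _).1 h).1]
    · simp only [p', dif_neg h]
      rw [hj.injective ((hy (j q)).resolve_left h).choose_spec]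
  have ri : ∀ y, p' y ∈ Λ → ∃ a, i a = y := fun y h => by
    rcases hy y with h' | ⟨⟨k, x, b⟩, rfl⟩
    · exact h'
    · rw [pj] at h
      exact ⟨⟨(⟨x, h⟩, s k b x), (s2 k b x ⟨x.2, h⟩).symm⟩, (hR _ _).2 ⟨rfl, rfl⟩⟩
  have rj : ∀ k y, p' y ∈ T k → ∃ x b, j ⟨k, x, b⟩ = y := fun k y h => by
    rcases hy y with ⟨a, rfl⟩ | ⟨⟨k', x, b⟩, rfl⟩
    · rw [pi] at h
      obtain ⟨b, hb⟩ := sur k a.1.2 _ ⟨h, a.1.1.2⟩ a.2.symm
      exact ⟨⟨_, h⟩, b, ((hR _ _).2 ⟨rfl, hb.symm⟩).symm⟩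
    · rw [pj] at h
      obtain rfl : k = k' := by_contra fun h' => Set.disjoint_left.1 (hd h') h x.2
      exact ⟨x, b, rfl⟩
  have l1 : IsLocalHomeomorph (p' ∘ i) := by
    rw [show p' ∘ i = Subtype.val ∘ fun a : A => a.1.1 from funext pi]
    exact hΛ.isOpenEmbedding_subtypeVal.isLocalHomeomorph.comp (pb_loc hφ cov.isLocalHomeomorph)
  have l2 : IsLocalHomeomorph (p' ∘ j) := by
    rw [isLocalHomeomorph_iff_isLocalHomeomorphOn_univ]
    rintro ⟨k, x, b⟩ -
    have e1 : IsOpenEmbedding fun x : T k => (⟨k, x, b⟩ : P) :=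
      IsOpenEmbedding.sigmaMk.comp (.of_continuous_injective_isOpenMap (by fun_prop)
        (Prod.mk_left_injective b) fun U hU => by
          rw [← prod_singleton]; exact hU.prod (isOpen_discrete _))
    refine IsLocalHomeomorphOn.of_comp_right (s := univ) (f := fun x : T k => (⟨k, x, b⟩ : P))
      ?_ e1.isLocalHomeomorph.isLocalHomeomorphOn _ ⟨x, trivial, rfl⟩
    rw [show (p' ∘ j) ∘ (fun x : T k => (⟨k, x, b⟩ : P)) = Subtype.val from funext fun x => pj _]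
    exact (hT k).isOpenEmbedding_subtypeVal.isLocalHomeomorph.isLocalHomeomorphOn
  have l3 : IsLocalHomeomorph p' := fun y => by
    rcases hy y with ⟨a, rfl⟩ | ⟨a, rfl⟩
    · exact (l1.isLocalHomeomorphOn (s := univ)).of_comp_right
        hi.isLocalHomeomorph.isLocalHomeomorphOn _ ⟨a, trivial, rfl⟩
    · exact (l2.isLocalHomeomorphOn (s := univ)).of_comp_right
        hj.isLocalHomeomorph.isLocalHomeomorphOn _ ⟨a, trivial, rfl⟩
  let σ : ∀ k, p ⁻¹' {ι (c k)} → Z → Y := fun k b y =>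
    j ⟨k, if h : y ∈ T k then ⟨y, h⟩ else ⟨_, (hc' k).1⟩, b⟩
  have σ1 : ∀ k b, ContinuousOn (σ k b) (T k) := fun k b => by
    rw [continuousOn_iff_continuous_domRestrict]
    have : Continuous fun x : T k => j ⟨k, x, b⟩ :=
      hj.continuous.comp (continuous_sigmaMk.comp (Continuous.prodMk_left b))
    exact this.congr fun x => by simp [σ]
  have σ2 : ∀ k b, ∀ y ∈ T k, p' (σ k b y) = y := fun k b y h => by simp [σ, pj, h]
  have σ3 : ∀ k y, p' y ∈ T k → ∃ b, σ k b (p' y) = y := fun k y h => by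
    obtain ⟨x, b, rfl⟩ := rj k y h
    exact ⟨b, by simp [σ, pj]⟩
  let r : Y → E := fun y => if h : ∃ a, i a = y then h.choose.1.2 else Classical.arbitrary E
  have r1 : ∀ a, r (i a) = a.1.2 := fun a => by
    have h : ∃ a', i a' = i a := ⟨a, rfl⟩
    simp only [r, dif_pos h, hi.injective h.choose_spec]
  refine ⟨Y, inferInstance, p', r, fun x => ?_, fun y h => ?_, fun b hb => ⟨fun y h => ?_,
    fun y h y' h' e => ?_, fun e he => ?_⟩, fun k a ha y h => ?_⟩
  · rcases hu.ge (mem_univ x) with hx | hx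
    · obtain ⟨V, hV, hxV, t, h1, h2, h3, h4, -⟩ := sections_of_cov cov (ι x)
      have oV := hι.isOpen_inter_preimage hΛ hV
      refine evenly_of_sections oV (oV.preimage l3.continuous) l3.isLocalHomeomorphOn
        (fun k y => i (if h : y ∈ Λ ∩ ι ⁻¹' V then ⟨(⟨y, h.1⟩, t k (ι y)), (h2 k _ h.2).symm⟩
          else ⟨(⟨x, hx⟩, k), (k.2 : p k = ι x).symm⟩)) (fun k => ?_)
        (fun k y h => by rw [dif_pos h, pi]) (fun k k' y h e => ?_) (fun y h => ?_) ⟨hx, hxV⟩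
      · rw [continuousOn_iff_continuous_domRestrict]
        have : Continuous fun y : ↥(Λ ∩ ι ⁻¹' V) =>
            i ⟨(⟨y, y.2.1⟩, t k (ι y)), (h2 k _ y.2.2).symm⟩ :=
          hi.continuous.comp (((continuous_subtype_val.subtype_mk _).prodMk
            ((h1 k).comp_continuous (hι.mono inter_subset_left).domRestrict
              fun y => y.2.2)).subtype_mk _)
        exact this.congr fun y => by simp only [domRestrict_apply, dif_pos y.2]
      · rw [dif_pos h, dif_pos h] at e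
        exact h3 _ _ _ h.2 (congrArg (fun a : A => a.1.2) (hi.injective e))
      · obtain ⟨a, rfl⟩ := ri y h.1
        simp only [pi] at h ⊢
        obtain ⟨k, hk⟩ := h4 a.1.2 (a.2 ▸ h.2)
        exact ⟨k, by
          rw [dif_pos h]
          exact congrArg i (Subtype.ext (Prod.ext rfl ((congrArg (t k) a.2).trans hk)))⟩
    · obtain ⟨k, hk⟩ := mem_iUnion.1 hx
      refine evenly_of_sections (hT k) ((hT k).preimage l3.continuous) l3.isLocalHomeomorphOn
        (σ k) (σ1 k) (σ2 k) (fun b b' y _ e => ?_) (σ3 k) hk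
      exact congrArg Prod.snd (eq_of_heq (Sigma.mk.inj (hj.injective e)).2)
  · obtain ⟨a, rfl⟩ := ri y h
    refine (hi.continuousAt_iff.1 ?_).continuousWithinAt
    rw [show r ∘ i = fun a => a.1.2 from funext r1]
    fun_prop
  · obtain ⟨a, rfl⟩ := ri y ((h : p' y = b).symm ▸ hb)
    rw [mem_preimage, r1, ← (h : p' _ = b), pi]
    exact a.2.symm
  · obtain ⟨a, rfl⟩ := ri y ((h : p' y = b).symm ▸ hb)
    obtain ⟨a', rfl⟩ := ri y' ((h' : p' y' = b).symm ▸ hb)
    rw [r1, r1] at e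
    exact congrArg i (Subtype.ext (Prod.ext (Subtype.ext ((pi a).symm.trans
      ((h.trans h'.symm).trans (pi a')))) e))
  · exact ⟨i ⟨(⟨b, hb⟩, e), (he : p e = ι b).symm⟩, pi _, r1 _⟩
  · obtain rfl : p' y = a := h
    obtain ⟨b, hb⟩ := σ3 k y ha
    exact ⟨σ k b, σ1 k b, σ2 k b, hb⟩

end Top

end Pool.Agent.Lib.MP_029589_gt
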