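import Pool.Agent.Lib.MP_029589_gt.Col

/-! The double of a closed manifold with a ball removed. -/

set_option autoImplicit false

open scoped Manifold ContDiff Topology
open Set Filter Function Topology Metric EuclideanGeometry

namespace Pool.Agent.Lib.MP_029589_gt

section Top

variable {E X : Type} [TopologicalSpace E] [TopologicalSpace X]

/-- Complete systems of sections. -/
structure Secs (p : E → X) (U : Set X) {κ : Type} (s : κ → X → E) : Prop where
  cont : ∀ k, ContinuousOn (s k) U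
  sec : ∀ k, ∀ y ∈ U, p (s k y) = y
  inj : ∀ k k', ∀ y ∈ U, s k y = s k' y → k = k'
  sur : ∀ e, p e ∈ U → ∃ k, s k (p e) = e

lemma secs_of_lf {p : E → X} (cov : IsCoveringMap p) {U : Set X} (hU : IsPreconnected U)
    (hl : Lf p id U) {x : X} (hx : x ∈ U) :
    ∃ s : p ⁻¹' {x} → X → E, Secs p U s ∧ ∀ k, s k x = k := by
  choose s s1 s2 s3 using fun a : p ⁻¹' {x} => hl x hx a a.2
  refine ⟨s, ⟨s1, s2, fun a a' y hy h => ?_, fun e he => ?_⟩, s3⟩
  · have := lift_unique cov hU (s1 a) (s1 a')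
      (fun b hb => (s2 a b hb).trans (s2 a' b hb).symm) hy h _ hx
    rw [s3, s3] at this
    exact Subtype.ext this
  · obtain ⟨t, t1, t2, t3⟩ := hl _ he e rfl
    exact ⟨⟨t x, t2 _ hx⟩, (lift_unique cov hU (s1 _) t1
      (fun b hb => (s2 _ b hb).trans (t2 b hb).symm) hx (s3 _) _ he).trans t3⟩

lemma Secs.precon [PreconnectedSpace E] {p : E → X} (hp : IsLocalHomeomorph p) {U O : Set X}
    {κ : Type} {s : κ → X → E} (h : Secs p U s) (hU : IsOpen U) (hO : IsOpen O)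
    (hc : IsPreconnected (U ∩ O)) (hu : O ∪ U = univ) : IsPreconnected (p ⁻¹' O) := by
  refine precon_remove isPreconnected_univ (hO.preimage hp.continuous)
    (fun k => isOpen_sec hp hU (h.cont k) (h.sec k)) (fun k k' hne => Set.disjoint_left.2 ?_)
    (fun k => ?_) (eq_univ_of_forall fun e => ?_).symm
  · rintro _ ⟨y, hy, rfl⟩ ⟨y', hy', e⟩
    obtain rfl : y' = y := (h.sec _ _ hy').symm.trans ((congrArg p e).trans (h.sec _ _ hy))
    exact hne (h.inj _ _ _ hy e.symm)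
  · convert hc.image _ ((h.cont k).mono inter_subset_left) using 1
    ext e
    exact ⟨fun ⟨⟨y, hy, a⟩, b⟩ => ⟨y, ⟨hy, by rwa [← a, mem_preimage, h.sec _ _ hy] at b⟩, a⟩,
      fun ⟨y, hy, a⟩ => ⟨⟨y, hy.1, a⟩, by rw [← a, mem_preimage, h.sec _ _ hy.1]; exact hy.2⟩⟩
  · rcases hu.ge (mem_univ (p e)) with a | a
    · exact Or.inl a
    · obtain ⟨k, hk⟩ := h.sur e a
      exact Or.inr (mem_iUnion_of_mem k ⟨_, a, hk⟩)

end Top

variable {n : ℕ} {X D : Mfd n}

lemma precon_shell (hn : 2 ≤ n) {I : Set ℝ} (hI : IsPreconnected I) (h0 : I ⊆ Ioi 0) :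
    IsPreconnected {v : Euc n | ‖v‖ ∈ I} := by
  have h := (hI.prod (isPreconnected_sphere (E := Euc n) (by
    rw [← Module.finrank_eq_rank, finrank_euclideanSpace_fin]; exact_mod_cast hn) 0 1)).image
    (fun q => q.1 • q.2) (by fun_prop)
  convert h using 1
  ext v
  refine ⟨fun hv => ⟨(‖v‖, ‖v‖⁻¹ • v), ⟨hv, mem_sphere_zero_iff_norm.2
    (norm_smul_inv_norm (norm_pos_iff.1 (h0 hv)))⟩, smul_inv_smul₀ (ne_of_gt (h0 hv)) v⟩, ?_⟩
  rintro ⟨q, ⟨h1, h2⟩, rfl⟩
  rwa [mem_ofPred_eq, norm_smul, mem_sphere_zero_iff_norm.1 h2, mul_one,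
    Real.norm_of_nonneg (le_of_lt (h0 h1))]

lemma norm_inv' (v : Euc n) : ‖inversion 0 1 v‖ = ‖v‖⁻¹ := by
  simpa using dist_inversion_center 0 v 1

lemma det_inv {v : Euc n} (h : v ≠ 0) : (md (Euc n) (Euc n) (inversion 0 1) v).det < 0 := by
  rw [md_eq_fderiv, (hasFDerivAt_inversion h).fderiv, ContinuousLinearMap.det,
    ContinuousLinearMap.toLinearMap_smul, LinearMap.det_smul]
  refine mul_neg_of_pos_of_neg (by have := dist_pos.2 h; positivity) (Eq.trans_lt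
    (Submodule.det_reflection _) ?_)
  rw [Submodule.orthogonal_orthogonal, finrank_span_singleton (sub_ne_zero.2 h)]
  simp

lemma ld_inv {v : Euc n} (h : v ≠ 0) : LD (Euc n) (inversion 0 1) v :=
  LD.of_fderiv (eventually_of_mem (isOpen_compl_singleton.mem_nhds h) fun _ hy =>
    contDiffAt_const.inversion (n := ⊤) contDiffAt_const contDiffAt_id hy)
    (md_eq_fderiv (inversion (0 : Euc n) 1) v ▸ (det_inv h).ne)

/-- A chart onto the whole Euclidean space, centred at `x0`. -/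
structure Big (X : Mfd n) (φ : OpenPartialHomeomorph X.M (Euc n)) (x0 : X.M) : Prop where
  sm : ContMDiffOn (𝓡 n) (𝓡 n) ∞ φ φ.source
  sm' : ContMDiffOn (𝓡 n) (𝓡 n) ∞ φ.symm φ.target
  tg : φ.target = univ
  mem : x0 ∈ φ.source
  zero : φ x0 = 0

theorem exists_big (x0 : X.M) {W : Set X.M} (hW : W ∈ 𝓝 x0) :
    ∃ φ, Big X φ x0 ∧ φ.source ⊆ W := by
  set c := chartAt (Euc n) x0
  have hx := mem_chart_source (Euc n) x0
  obtain ⟨r, hr, h⟩ := Metric.mem_nhds_iff.1 (inter_mem (chart_target_mem_nhds (Euc n) x0)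
    (c.continuousAt_symm (c.map_source hx) (by rwa [c.left_inv hx])))
  obtain ⟨u, u1, u2, u3, u4, u5⟩ : ∃ u : OpenPartialHomeomorph (Euc n) (Euc n), u.source = univ ∧
      u.target = ball (c x0) r ∧ ContDiff ℝ ∞ u ∧ ContDiffOn ℝ ∞ u.symm (ball (c x0) r) ∧
      u.symm (c x0) = 0 := ⟨.univBall (c x0) r, OpenPartialHomeomorph.univBall_source _ _,
    OpenPartialHomeomorph.univBall_target _ hr, OpenPartialHomeomorph.contDiff_univBall,
    OpenPartialHomeomorph.contDiffOn_univBall_symm,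
    OpenPartialHomeomorph.univBall_symm_apply_center _ _⟩
  refine ⟨c.trans u.symm, ⟨u4.contMDiffOn.comp (contMDiffOn_chart.mono inter_subset_left)
    fun x hx => u2.le hx.2, contMDiffOn_chart_symm.comp u3.contMDiff.contMDiffOn fun x hx => hx.2,
    eq_univ_of_forall fun v => ⟨u1.ge trivial, (h (u2.le (u.map_source (u1.ge trivial)))).1⟩,
    ⟨hx, u2.ge (mem_ball_self hr)⟩, u5⟩, fun x hx => ?_⟩
  exact c.left_inv hx.1 ▸ (h (u2.le hx.2)).2

namespace Big

variable {φ : OpenPartialHomeomorph X.M (Euc n)} {x0 : X.M} (h : Big X φ x0)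
include h

lemma src (v : Euc n) : φ.symm v ∈ φ.source := φ.map_target (h.tg.ge trivial)

lemma rinv (v : Euc n) : φ (φ.symm v) = v := φ.right_inv (h.tg.ge trivial)

lemma symm_zero : φ.symm 0 = x0 := h.zero ▸ φ.left_inv h.mem

lemma ld {x : X.M} (hx : x ∈ φ.source) : LD (Euc n) φ x :=
  LD.of_chart φ h.sm h.sm' hx (eqOn_refl _ _)

lemma ld' (v : Euc n) : LD (Euc n) φ.symm v :=
  LD.of_chart φ.symm h.sm' h.sm (h.tg.ge trivial) (eqOn_refl _ _)

lemma cont : Continuous φ.symm :=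
  continuous_iff_continuousAt.2 fun v => (h.ld' v).contMDiffAt.continuousAt

lemma ne {x : X.M} (hx : x ∈ φ.source) : φ x ≠ 0 ↔ x ≠ x0 := by
  rw [← h.zero]; exact (φ.injOn.ne_iff hx h.mem)

lemma mem_img {x : X.M} {B : Set (Euc n)} : x ∈ φ.symm '' B ↔ x ∈ φ.source ∧ φ x ∈ B :=
  ⟨by rintro ⟨v, hv, rfl⟩; exact ⟨h.src v, by rwa [h.rinv]⟩,
    fun a => ⟨_, a.2, φ.left_inv a.1⟩⟩

lemma isOpen_img {B : Set (Euc n)} (hB : IsOpen B) : IsOpen (φ.symm '' B) :=
  φ.isOpen_image_symm_of_subset_target hB (h.tg ▸ subset_univ _)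

lemma shell (hn : 2 ≤ n) {I : Set ℝ} (hI : IsPreconnected I) (h0 : I ⊆ Ioi 0) :
    IsPreconnected (φ.symm '' {v | ‖v‖ ∈ I}) :=
  (precon_shell hn hI h0).image _ h.cont.continuousOn

lemma secs {E : Type} [TopologicalSpace E] {p : E → X.M} (cov : IsCoveringMap p) :
    ∃ s : p ⁻¹' {x0} → X.M → E, Secs p φ.source s ∧ ∀ k, s k x0 = k := by
  refine secs_of_lf cov ?_ ((lf_star cov h.cont.continuousOn (convex_univ.starConvex
    (mem_univ 0))).comp φ.continuousOn (mapsTo_univ _ _) fun a ha => (φ.left_inv ha).symm) h.mem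
  convert isPreconnected_univ.image _ h.cont.continuousOn using 1
  exact Set.ext fun x => by rw [h.mem_img]; simp

lemma isOpen_out (r : ℝ) : IsOpen (φ.symm '' closedBall 0 r)ᶜ :=
  ((isCompact_closedBall 0 r).image h.cont).isClosed.isOpen_compl

lemma precon_out (hn : 2 ≤ n) {E : Type} [TopologicalSpace E] [PreconnectedSpace E] {p : E → X.M}
    (cov : IsCoveringMap p) {r : ℝ} (hr : 0 ≤ r) :
    IsPreconnected (p ⁻¹' (φ.symm '' closedBall 0 r)ᶜ) := by
  obtain ⟨s, hs, -⟩ := h.secs cov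
  refine hs.precon cov.isLocalHomeomorph φ.open_source (h.isOpen_out r) ?_
    (eq_univ_of_forall fun x => ?_)
  · convert h.shell hn isPreconnected_Ioi (Ioi_subset_Ioi hr) using 1
    ext; simp +contextual [h.mem_img]
  · simp only [mem_union, mem_compl_iff, h.mem_img]; tauto

end Big

lemma cov_id {X : Type} [TopologicalSpace X] : IsCoveringMap (id : X → X) := fun x =>
  evenly_of_sections isOpen_univ isOpen_univ
    (Homeomorph.refl X).isLocalHomeomorph.isLocalHomeomorphOn (fun _ : Unit => id)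
    (fun _ => continuousOn_id) (fun _ _ _ => rfl) (fun _ _ _ _ _ => rfl) (fun _ _ => ⟨(), rfl⟩)
    (mem_univ x)

/-- The two copies of the punctured manifold in the double. -/
structure Dbl (φ : OpenPartialHomeomorph X.M (Euc n)) (x0 : X.M) (e : Bool → X.M → D.M) :
    Prop where
  ld : ∀ b x, x ≠ x0 → LD (Euc n) (e b) x
  inj : ∀ b, InjOn (e b) {x0}ᶜ
  sur : ∀ y, ∃ b x, x ≠ x0 ∧ e b x = y
  rel : ∀ x y, x ≠ x0 → y ≠ x0 →
    (e true x = e false y ↔ x ∈ φ.source ∧ y ∈ φ.source ∧ φ y = inversion 0 1 (φ x))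

variable {φ : OpenPartialHomeomorph X.M (Euc n)} {x0 : X.M} {e : Bool → X.M → D.M}

lemma Dbl.rel' (d : Dbl φ x0 e) (b : Bool) {x y : X.M} (hx : x ≠ x0) (hy : y ≠ x0) :
    e b x = e (!b) y ↔ x ∈ φ.source ∧ y ∈ φ.source ∧ φ y = inversion 0 1 (φ x) := by
  cases b
  · rw [eq_comm, Bool.not_false, d.rel y x hy hx, (inversion_involutive 0 one_ne_zero).eq_iff.symm,
      eq_comm]
    tauto
  · exact d.rel x y hx hy

lemma Dbl.swap (d : Dbl φ x0 e) (h : Big X φ x0) (b : Bool) {v : Euc n} (hv : v ≠ 0) :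
    e b (φ.symm v) = e (!b) (φ.symm (inversion 0 1 v)) :=
  (d.rel' b ((h.ne (h.src _)).1 (by rwa [h.rinv])) ((h.ne (h.src _)).1 (by
    rwa [h.rinv, Ne, inversion_eq_center one_ne_zero]))).2 ⟨h.src _, h.src _, by simp [h.rinv]⟩

lemma Dbl.sur' (d : Dbl φ x0 e) (h : Big X φ x0) (y : D.M) :
    ∃ b x, x ∉ φ.symm '' ball 0 1 ∧ e b x = y := by
  obtain ⟨b, x, h1, rfl⟩ := d.sur y
  by_cases h2 : x ∈ φ.symm '' ball 0 1
  · obtain ⟨v, hv, rfl⟩ := h2
    have h3 : v ≠ 0 := fun a => h1 (a ▸ h.symm_zero)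
    refine ⟨_, _, ?_, (d.swap h b h3).symm⟩
    rw [h.mem_img, h.rinv, mem_ball_zero_iff, norm_inv']
    exact fun a => a.2.not_gt ((one_lt_inv₀ (norm_pos_iff.2 h3)).2 (mem_ball_zero_iff.1 hv))
  · exact ⟨b, x, h2, rfl⟩

theorem exists_double (hn : 2 ≤ n) [CompactSpace X.M] (h : Big X φ x0) :
    ∃ (D : Mfd n) (e : Bool → X.M → D.M), CompactSpace D.M ∧ Dbl φ x0 e := by
  let J : X.M → X.M := φ.symm ∘ inversion 0 1 ∘ φ
  have j1 : ∀ x, φ (J x) = inversion 0 1 (φ x) := fun x => h.rinv _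
  have j2 : MapsTo J (φ.source ∩ {x0}ᶜ) {x0}ᶜ := fun x hx => (h.ne (h.src _)).1 (by
    rw [h.rinv, comp, Ne, inversion_eq_center one_ne_zero]; exact (h.ne hx.1).2 hx.2)
  obtain ⟨v, hv⟩ : ∃ v : Euc n, v ≠ 0 := ⟨EuclideanSpace.single ⟨0, by omega⟩ 1, by simp⟩
  have hx1 : φ.symm v ≠ x0 := (h.ne (h.src _)).1 (by rwa [h.rinv])
  obtain ⟨Y, _, _, e0, e1, _, _, _, a1, a2, a3, a4, a5, a6, -⟩ := exists_glue_mfd (V := Euc n)
    (A := X.M) (L := Unit) (P := fun _ => X.M) (A0 := {x0}ᶜ) (P0 := fun _ => {x0}ᶜ)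
    isOpen_compl_singleton ⟨_, hx1⟩ (fun _ => isOpen_compl_singleton)
    (T := fun _ => φ.source ∩ {x0}ᶜ) (fun _ => φ.open_source.inter isOpen_compl_singleton)
    (fun _ => inter_subset_right) Subsingleton.pairwise (J := fun _ => J)
    (fun _ a ha => ((h.ld ha.1).cmp (ld_inv ((h.ne ha.1).2 ha.2))).cmp (h.ld' _))
    (fun _ a ha b hb e => φ.injOn ha.1 hb.1 (inversion_injective 0 one_ne_zero
      ((j1 a).symm.trans ((congrArg φ e).trans (j1 b))))) (fun _ => j2) fun _ a h1 h2 q hq => by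
      refine (disjoint_nhds_nhds.2 (Ne.symm hq)).mono_left (h.symm_zero ▸
        (h.cont.tendsto 0).comp (NormedAddGroup.tendsto_nhds_zero.2 fun r hr => ?_))
      filter_upwards [self_mem_nhdsWithin, nhdsWithin_le_nhds ((h.isOpen_out r⁻¹).mem_nhds
        fun a => h2 ⟨(h.mem_img.1 a).1, h1⟩)] with x b1 b2
      rw [comp, norm_inv']
      exact inv_lt_of_inv_lt₀ hr (not_le.1 fun a => b2 (h.mem_img.2
        ⟨b1.1, mem_closedBall_zero_iff.2 a⟩))
  let e : Bool → X.M → Y := fun b => cond b e0 (e1 ())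
  have c1 : ∀ b x, x ≠ x0 → LD (Euc n) (e b) x := by rintro (_ | _); exacts [a2 (), a1]
  have c2 : ∀ y, ∃ b x, x ≠ x0 ∧ e b x = y := fun y =>
    (a5 y).elim (fun a => ⟨true, a⟩) fun ⟨_, a⟩ => ⟨false, a⟩
  have c3 : ∀ b, ContinuousOn (e b) {x0}ᶜ := fun b x hx =>
    (c1 b x hx).contMDiffAt.continuousAt.continuousWithinAt
  have c4 : IsPreconnected ({x0}ᶜ : Set X.M) := by
    simpa [h.symm_zero] using h.precon_out hn cov_id le_rfl
  have c5 : φ.symm v ∈ φ.source ∩ {x0}ᶜ := ⟨h.src v, hx1⟩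
  have : PreconnectedSpace Y := ⟨by
    convert (c4.image _ (c3 true)).union _ (mem_image_of_mem _ hx1) ((mem_image _ _ _).2
      ⟨_, j2 c5, ((a6 () _ hx1 _ (j2 c5)).2 ⟨c5, rfl⟩).symm⟩) (c4.image _ (c3 false))
    refine (eq_univ_of_forall fun y => ?_).symm
    obtain ⟨_ | _, a⟩ := c2 y
    exacts [Or.inr a, Or.inl a]⟩
  have : ConnectedSpace Y := @ConnectedSpace.mk Y _ this ⟨e0 x0⟩
  have d : Dbl (D := ⟨Y⟩) φ x0 e := ⟨c1, by rintro (_ | _); exacts [a4 (), a3], c2,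
    fun x y hx hy => (a6 () x hx y hy).trans ⟨fun a => ⟨a.1.1, a.2 ▸ h.src _, a.2 ▸ j1 x⟩,
      fun a => ⟨⟨a.1, hx⟩, (congrArg φ.symm a.2.2.symm).trans (φ.left_inv a.2.1)⟩⟩⟩
  refine ⟨⟨Y⟩, e, ⟨?_⟩, d⟩
  convert isCompact_iUnion fun b => (h.isOpen_img (isOpen_ball (x := 0) (ε := 1))
    ).isClosed_compl.isCompact.image_of_continuousOn ((c3 b).mono (compl_subset_compl.2
      (singleton_subset_iff.2 ⟨0, mem_ball_self one_pos, h.symm_zero⟩)))
  exact (eq_univ_of_forall fun y => mem_iUnion.2 (d.sur' h y)).symm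

lemma ori_const {V : Type} [NormedAddCommGroup V] [NormedSpace ℝ V] [FiniteDimensional ℝ V]
    {o : V → ℝ} (ho : Ori V o)
    (v w : V) : o v = o w := by
  refine (IsLocallyConstant.iff_eventually_eq o).2 (fun x => ?_) |>.apply_eq_of_preconnectedSpace v w
  filter_upwards [ho.2 x] with y hy
  rw [jd_ext, jd, show (chartAt V x : V → V) = id from rfl, md_id, det_id', mul_one] at hy
  rcases ho.1 x with a | a <;> rcases ho.1 y with b | b <;> simp_all <;> linarith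

theorem Dbl.ori (d : Dbl φ x0 e) (h : Big X φ x0) {o : X.M → ℝ} (ho : Ori (Euc n) o) :
    ∃ o' : D.M → ℝ, Ori (Euc n) o' ∧
      ∀ b x, x ≠ x0 → opull (Euc n) o' (e b) x = cond b 1 (-1) * o x := by
  choose b x h1 h2 using d.sur
  let w : Bool → X.M → ℝ := fun b x =>
    cond b 1 (-1) * o x * (SignType.sign (md (Euc n) (Euc n) (e b) x).det : ℝ)
  have k1 : ∀ x y, x ≠ x0 → y ≠ x0 → e true x = e false y → w true x = w false y := by
    intro x y hx hy a
    obtain ⟨a1, a2, a3⟩ := (d.rel x y hx hy).1 a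
    have a4 := (h.ne a1).2 hx
    obtain ⟨v, rfl⟩ : ∃ v, φ.symm v = x := ⟨_, φ.left_inv a1⟩
    rw [h.rinv] at a3 a4
    obtain rfl : φ.symm (inversion 0 1 v) = y := a3 ▸ φ.left_inv a2
    have b1 := md_congr (V := Euc n) (W := Euc n) (eventually_of_mem
      (isOpen_compl_singleton.mem_nhds a4) fun u hu => d.swap h true hu :
      e true ∘ φ.symm =ᶠ[𝓝 v] (e false ∘ φ.symm) ∘ inversion 0 1)
    rw [md_comp (d.ld _ _ hx).mdiff (h.ld' _).mdiff,
      md_comp ((h.ld' _).cmp (d.ld _ _ hy)).mdiff (ld_inv a4).mdiff,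
      md_comp (d.ld _ _ hy).mdiff (h.ld' _).mdiff] at b1
    have b2 := congrArg (fun A => (SignType.sign A.det : ℝ)) b1
    simp only [det_comp', sign_mul, SignType.coe_mul, sign_neg (det_inv a4), SignType.coe_neg_one]
      at b2
    have b3 := ori_const (ori_pull ho h.ld') v (inversion 0 1 v)
    have b4 := sign_sq' (h.ld' v).det_ne
    have b5 := sign_sq' (h.ld' (inversion 0 1 v)).det_ne
    simp only [w, cond]
    generalize (SignType.sign (md (Euc n) (Euc n) φ.symm v).det : ℝ) = a,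
      (SignType.sign (md (Euc n) (Euc n) φ.symm (inversion 0 1 v)).det : ℝ) = a',
      (SignType.sign (md (Euc n) (Euc n) (e true) _).det : ℝ) = s,
      (SignType.sign (md (Euc n) (Euc n) (e false) _).det : ℝ) = s' at b2 b3 b4 b5 ⊢
    linear_combination -o (φ.symm v) * s * b4 + o (φ.symm v) * a * b2 - s' * a' * b3 -
      o (φ.symm (inversion 0 1 v)) * s' * b5
  have k2 : ∀ c y, y ≠ x0 → w (b (e c y)) (x (e c y)) = w c y := fun c y hy => by
    have a := h2 (e c y)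
    have a' := h1 (e c y)
    generalize b (e c y) = c', x (e c y) = y' at a a'
    cases c <;> cases c'
    exacts [congrArg _ (d.inj _ a' hy a), k1 _ _ a' hy a, (k1 _ _ hy a' a.symm).symm,
      congrArg _ (d.inj _ a' hy a)]
  have k3 : ∀ c y, y ≠ x0 →
      opull (Euc n) (fun y => w (b y) (x y)) (e c) y = cond c 1 (-1) * o y := fun c y hy => by
    rw [opull, k2 c y hy, mul_assoc, sign_sq' (d.ld c y hy).det_ne, mul_one]
  refine ⟨_, ori_of_loc fun y => ⟨e (b y), x y, fun u => cond (b y) 1 (-1) * o u, ?_, h2 y,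
    eventually_of_mem (isOpen_compl_singleton.mem_nhds (h1 y)) fun u hu =>
      ⟨d.ld _ u hu, k3 _ u hu⟩⟩, k3⟩
  cases b y
  · exact ⟨fun u => by simpa [neg_eq_iff_eq_neg, or_comm] using ho.1 u, fun u => by simpa using ho.2 u⟩
  · simpa using ho

end Pool.Agent.Lib.MP_029589_gt
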