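import Mathlib

/-! Largeness properties of closed Riemannian manifolds (plain versions). -/

set_option autoImplicit false

open scoped Manifold ContDiff Topology

namespace Pool.Agent.Lib.MP_029589_gt

/-- Euclidean `n`-space. -/
abbrev Euc (n : ℕ) := EuclideanSpace ℝ (Fin n)

/-- The round unit `n`-sphere. -/
abbrev Sph (n : ℕ) := Metric.sphere (0 : Euc (n + 1)) 1

/-- The base-point of the sphere. -/
noncomputable def base (n : ℕ) : Sph n := ⟨EuclideanSpace.single 0 1, by simp⟩

/-- A connected smooth `n`-manifold without boundary. -/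
structure Mfd (n : ℕ) where
  /-- The underlying set. -/
  M : Type
  [top : TopologicalSpace M]
  [t2 : T2Space M]
  [sc : SecondCountableTopology M]
  [conn : ConnectedSpace M]
  [chart : ChartedSpace (Euc n) M]
  [smooth : IsManifold (𝓡 n) ∞ M]

attribute [instance] Mfd.top Mfd.t2 Mfd.sc Mfd.conn Mfd.chart Mfd.smooth

variable {n : ℕ}

/-- Smooth Riemannian metrics on a manifold modelled on `E`. -/
abbrev RMet (E M : Type) [NormedAddCommGroup E] [NormedSpace ℝ E] [TopologicalSpace M]
    [ChartedSpace E M] [IsManifold 𝓘(ℝ, E) ∞ M] :=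
  Bundle.ContMDiffRiemannianMetric 𝓘(ℝ, E) ∞ E fun x : M => TangentSpace 𝓘(ℝ, E) x

/-- The squared length of a tangent vector. -/
noncomputable def lenSq {E M : Type} [NormedAddCommGroup E] [NormedSpace ℝ E] [TopologicalSpace M]
    [ChartedSpace E M] [IsManifold 𝓘(ℝ, E) ∞ M] (g : RMet E M) (x : M) (v : E) : ℝ :=
  g.inner x v v

/-- Smooth Riemannian metrics. -/
abbrev Mfd.Metric (X : Mfd n) := RMet (Euc n) X.M

/-- The differential at `x` of a map from an `n`-manifold to a `k`-manifold; the preferred charts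
at `x` and `f x` identify the two tangent spaces with `Euc n` and `Euc k`. -/
noncomputable def dif (n k : ℕ) {M N : Type} [TopologicalSpace M] [ChartedSpace (Euc n) M]
    [TopologicalSpace N] [ChartedSpace (Euc k) N] (f : M → N) (x : M) : Euc n →L[ℝ] Euc k :=
  mfderiv (𝓡 n) (𝓡 k) f x

/-- The determinant of the differential of a map between `n`-manifolds. -/
noncomputable def jdet (n : ℕ) {M N : Type} [TopologicalSpace M] [ChartedSpace (Euc n) M]
    [TopologicalSpace N] [ChartedSpace (Euc n) N] (f : M → N) (x : M) : ℝ :=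
  (dif n n f x).det

/-- An orientation: the tangent space at `x` is oriented by `o x = ±1` times the orientation of
the preferred chart at `x`, and this choice is locally constant when read in one chart. -/
def Mfd.IsOrientation (X : Mfd n) (o : X.M → ℝ) : Prop :=
  (∀ x, o x = 1 ∨ o x = -1) ∧
    ∀ x, ∀ᶠ y in 𝓝 x, 0 < o x * o y * jdet n (extChartAt (𝓡 n) x) y

/-- A connected smooth covering manifold of `X`. -/
structure Cover (X : Mfd n) where
  /-- The total space. -/
  Y : Mfd n
  /-- The projection. -/
  p : Y.M → X.M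
  cov : IsCoveringMap p
  loc : IsLocalDiffeomorph (𝓡 n) (𝓡 n) ∞ p

/-- The covering `C`, with the metric and the orientation pulled back from `(X, g, o)`, is
`ε`-hyperspherical: there is a smooth `ε`-Lipschitz map to the unit sphere which is the
base-point outside a compact set and has non-zero degree (signed number of preimages of a
regular value other than the base-point). -/
def Cover.EpsSpherical {X : Mfd n} (C : Cover X) (g : X.Metric) (o : X.M → ℝ) (ε : ℝ) : Prop :=
  ∃ f : C.Y.M → Sph n, ContMDiff (𝓡 n) (𝓡 n) ∞ f ∧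
    (∀ y v, ‖dif n (n + 1) (fun y => (f y : Euc (n + 1))) y v‖ ^ 2 ≤
      ε ^ 2 * lenSq g (C.p y) (dif n n C.p y v)) ∧
    (∃ K, IsCompact K ∧ ∀ y ∉ K, f y = base n) ∧
    ∃ q, q ≠ base n ∧ (∀ y, f y = q → jdet n f y ≠ 0) ∧
      ∑ᶠ y ∈ f ⁻¹' {q}, o (C.p y) * (SignType.sign (jdet n C.p y) : ℝ) *
        (SignType.sign (jdet n f y) : ℝ) ≠ 0

/-- Property (C): `X` is enlargeable. -/
def Enlargeable (X : Mfd n) (g : X.Metric) (o : X.M → ℝ) : Prop :=
  ∀ ε > 0, ∃ C : Cover X, C.EpsSpherical g o ε

/-- Property (B): some connected covering of `X` is hyperspherical. -/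
def HasHypersphericalCover (X : Mfd n) (g : X.Metric) (o : X.M → ℝ) : Prop :=
  ∃ C : Cover X, ∀ ε > 0, C.EpsSpherical g o ε

end Pool.Agent.Lib.MP_029589_gt
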