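import Pool.Agent.Lib.MP_029589_gt.Defs

/-! The A-hat form, integration of forms, and the A-hat versions of the largeness properties. -/

set_option autoImplicit false

open scoped Manifold ContDiff Topology

namespace Pool.Agent.Lib.MP_029589_gt

variable {n k : ℕ}

/-- Exterior forms on `ℝⁿ`; a covector is given by its values on the standard basis. A
differential form on an `n`-manifold `M` is a map `M → Lm n`, the tangent space at `x` being
identified with `ℝⁿ` by the preferred chart at `x`. -/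
abbrev Lm (n : ℕ) := ExteriorAlgebra ℝ (Fin n → ℝ)

/-- The exterior product of a family of covectors. -/
noncomputable def wedge {V : Type} [AddCommGroup V] [Module ℝ V] {k : ℕ} (v : Fin k → V) :
    ExteriorAlgebra ℝ V := ExteriorAlgebra.ιMulti ℝ k v

/-- The linear form on the exterior algebra which is given by the alternating form `a` in degree
`k` and vanishes in all other degrees. -/
noncomputable def lft {V : Type} [AddCommGroup V] [Module ℝ V] {k : ℕ} (a : V [⋀^Fin k]→ₗ[ℝ] ℝ)
    (x : ExteriorAlgebra ℝ V) : ℝ := ExteriorAlgebra.liftAlternating (Pi.single k a) x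

/-- The standard basis. -/
noncomputable def eb (i : Fin n) : Euc n := EuclideanSpace.single i 1

/-- The form `dx_l ∧ dx_m`. -/
noncomputable def dxx (l m : Fin n) : Lm n := wedge ![Pi.single l 1, Pi.single m 1]

/-- The form `dx₁ ∧ ⋯ ∧ dxₙ`. -/
noncomputable def vtop (n : ℕ) : Lm n := wedge fun i : Fin n => Pi.single i 1

/-- The coefficient of `dx₁ ∧ ⋯ ∧ dxₙ`. -/
noncomputable def top (x : Lm n) : ℝ := lft Matrix.detRowAlternating x

/-- The matrix of a linear map. -/
noncomputable def mat (T : Euc n →L[ℝ] Euc k) : Matrix (Fin k) (Fin n) ℝ :=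
  Matrix.of fun j i => T (eb i) j

/-- Pull-back of exterior forms by a linear map. -/
noncomputable def pb (T : Euc n →L[ℝ] Euc k) (x : Lm k) : Lm n :=
  ExteriorAlgebra.map (mat T).vecMulLinear x

/-- Pull-back of differential forms. -/
noncomputable def pull (n k : ℕ) {M N : Type} [TopologicalSpace M] [ChartedSpace (Euc n) M]
    [TopologicalSpace N] [ChartedSpace (Euc k) N] (f : M → N) (β : N → Lm k) (x : M) : Lm n :=
  pb (dif n k f x) (β (f x))

/-- The differential applied to a tangent vector. -/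
noncomputable def dv (n k : ℕ) {M N : Type} [TopologicalSpace M] [ChartedSpace (Euc n) M]
    [TopologicalSpace N] [ChartedSpace (Euc k) N] (f : M → N) (x : M) (v : Euc n) : Euc k :=
  dif n k f x v

/-- Smooth maps. -/
def Smo (n k : ℕ) {M N : Type} [TopologicalSpace M] [ChartedSpace (Euc n) M]
    [TopologicalSpace N] [ChartedSpace (Euc k) N] (f : M → N) : Prop :=
  ContMDiff (𝓡 n) (𝓡 k) ∞ f

/-- The scalar product of two tangent vectors. -/
noncomputable def ip {E M : Type} [NormedAddCommGroup E] [NormedSpace ℝ E] [TopologicalSpace M]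
    [ChartedSpace E M] [IsManifold 𝓘(ℝ, E) ∞ M] (g : RMet E M) (x : M) (v w : E) : ℝ :=
  g.inner x v w

/-- The coefficients of the metric in a local parametrisation `s`. -/
noncomputable def gm {X : Mfd n} (g : X.Metric) (s : Euc n → X.M) (u : Euc n) :
    Matrix (Fin n) (Fin n) ℝ :=
  Matrix.of fun i j => ip g (s u) (dv n n s u (eb i)) (dv n n s u (eb j))

/-- Partial derivatives. -/
noncomputable def pd (l : Fin n) (F : Euc n → ℝ) (u : Euc n) : ℝ := fderiv ℝ F u (eb l)

/-- The Christoffel symbols: `chr G l u i j = Γⁱ_{lj}(u)`. -/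
noncomputable def chr (G : Euc n → Matrix (Fin n) (Fin n) ℝ) (l : Fin n) (u : Euc n) :
    Matrix (Fin n) (Fin n) ℝ :=
  Matrix.of fun i j => 1 / 2 * ∑ m, (G u)⁻¹ i m *
    (pd l (fun v => G v m j) u + pd j (fun v => G v m l) u - pd m (fun v => G v l j) u)

/-- The curvature matrix `dθ + θ ∧ θ` of the connection matrix `θ = ∑ Γ_l dx_l`. -/
noncomputable def curv (G : Euc n → Matrix (Fin n) (Fin n) ℝ) (u : Euc n) :
    Matrix (Fin n) (Fin n) (Lm n) :=
  Matrix.of fun i j => ∑ l, ∑ m,
    (pd l (fun v => chr G m v i j) u + (chr G l u * chr G m u) i j) • dxx l m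

/-- The coefficient of `tr Ω ^ (2 j)` in the logarithm of `det ((Ω / 4πi) / sinh (Ω / 4πi)) ^ (1/2)`. -/
noncomputable def cA (j : ℕ) : ℝ :=
  -(-1) ^ j * (bernoulli (2 * j) : ℝ) / (4 * j * (2 * j).factorial * (2 * Real.pi) ^ (2 * j))

/-- The A-hat series of a curvature matrix, `exp (∑_{j ≥ 1} cA j • tr Ω ^ (2 j))`; all omitted
terms have degree more than `n`. -/
noncomputable def ahatOf (Ω : Matrix (Fin n) (Fin n) (Lm n)) : Lm n :=
  ∑ m ∈ Finset.range (n + 1), (m.factorial : ℝ)⁻¹ •
    (∑ j ∈ Finset.range n, cA (j + 1) • (Ω ^ (2 * (j + 1))).trace) ^ m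

/-- The total A-hat form of the Levi-Civita connection. -/
noncomputable def ahat {X : Mfd n} (g : X.Metric) (x : X.M) : Lm n :=
  ahatOf (curv (gm g (chartAt (Euc n) x).symm) (chartAt (Euc n) x x))

instance (Y : Mfd n) : LocallyCompactSpace Y.M := ChartedSpace.locallyCompactSpace (Euc n) Y.M

/-- A smooth partition of unity subordinate to the preferred charts. -/
noncomputable def pou (E M : Type) [NormedAddCommGroup E] [NormedSpace ℝ E] [FiniteDimensional ℝ E]
    [TopologicalSpace M] [ChartedSpace E M] [IsManifold 𝓘(ℝ, E) ∞ M] [T2Space M]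
    [SigmaCompactSpace M] (a y : M) : ℝ :=
  (SmoothPartitionOfUnity.exists_isSubordinate_chartAt_source 𝓘(ℝ, E) M).choose a y

/-- The integral over a parametrised piece `s : U → Y`, with the sign of its orientation. -/
noncomputable def intOn {Y : Mfd n} (o : Y.M → ℝ) (α : Y.M → Lm n) (s : Euc n → Y.M)
    (U : Set (Euc n)) : ℝ :=
  ∫ u in U, o (s u) * (SignType.sign (jdet n s u) : ℝ) * top (pull n n s α u)

/-- The integral of the top degree part of a compactly supported form. -/
noncomputable def integ {Y : Mfd n} (o : Y.M → ℝ) (α : Y.M → Lm n) : ℝ :=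
  ∑ᶠ a, intOn o (fun y => pou (Euc n) Y.M a y • α y) (chartAt (Euc n) a).symm (chartAt (Euc n) a).target

/-- Smooth `k`-forms on a `k`-manifold. -/
def IsTopForm (k : ℕ) {N : Type} [TopologicalSpace N] [ChartedSpace (Euc k) N] (β : N → Lm k) :
    Prop :=
  ∀ a : N, ∃ h : Euc k → ℝ, ContDiffOn ℝ ∞ h (chartAt (Euc k) a).target ∧
    ∀ u ∈ (chartAt (Euc k) a).target, pull k k (chartAt (Euc k) a).symm β u = h u • vtop k

/-- The map `f` from `Y` (metric, A-hat form and orientation pulled back from `X` along `p`) to a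
`k`-manifold has non-zero A-hat degree: `∫_Y Â ∧ f^* β ≠ 0` for some compactly supported smooth
`k`-form `β`. -/
def HatDegNe {X Y : Mfd n} (p : Y.M → X.M) (g : X.Metric) (o : X.M → ℝ) (k : ℕ) {N : Type}
    [TopologicalSpace N] [ChartedSpace (Euc k) N] (f : Y.M → N) : Prop :=
  ∃ β : N → Lm k, IsTopForm k β ∧ HasCompactSupport β ∧ HasCompactSupport (pull n k f β) ∧
    integ (fun y => o (p y) * (SignType.sign (jdet n p y) : ℝ))
      (fun y => pull n n p (ahat g) y * pull n k f β y) ≠ 0

/-- The map `F` to Euclidean space is `L`-Lipschitz for the metric pulled back along `p`. -/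
def LipLe {X Y : Mfd n} (p : Y.M → X.M) (g : X.Metric) (F : Y.M → Euc k) (L : ℝ) : Prop :=
  ∀ y v, ‖dv n k F y v‖ ^ 2 ≤ L ^ 2 * lenSq g (p y) (dv n n p y v)

/-- `ε`-A-hat-hyperspherical in dimension `k`. -/
def EpsHat (k : ℕ) {X Y : Mfd n} (p : Y.M → X.M) (g : X.Metric) (o : X.M → ℝ) (ε : ℝ) : Prop :=
  ∃ f : Y.M → Sph k, Smo n k f ∧ LipLe p g (fun y => (f y : Euc (k + 1))) ε ∧
    (∃ K, IsCompact K ∧ ∀ y ∉ K, f y = base k) ∧ HatDegNe p g o k f

/-- Property (A) in some dimension `k ∈ S`. -/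
def PropA (S : Set ℕ) (X : Mfd n) (g : X.Metric) (o : X.M → ℝ) : Prop :=
  ∃ C : Cover X, ∃ k ∈ S, ∃ F : C.Y.M → Euc k, Smo n k F ∧ IsProperMap F ∧
    (∃ L, LipLe C.p g F L) ∧ HatDegNe C.p g o k F

/-- Property (B) in some dimension `k ∈ S`. -/
def PropB (S : Set ℕ) (X : Mfd n) (g : X.Metric) (o : X.M → ℝ) : Prop :=
  ∃ C : Cover X, ∃ k ∈ S, ∀ ε > 0, EpsHat k C.p g o ε

/-- Property (C) in some dimension `k ∈ S`. -/
def PropC (S : Set ℕ) (X : Mfd n) (g : X.Metric) (o : X.M → ℝ) : Prop :=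
  ∃ k ∈ S, ∀ ε > 0, ∃ C : Cover X, EpsHat k C.p g o ε

/-- Property (D) in some dimension `k ∈ S`, with pieces without boundary. -/
def PropD (S : Set ℕ) (X : Mfd n) (g : X.Metric) (o : X.M → ℝ) : Prop :=
  ∃ k ∈ S, ∀ ε > 0, ∃ (Y : Mfd n) (p : Y.M → X.M), IsLocalDiffeomorph (𝓡 n) (𝓡 n) ∞ p ∧
    EpsHat k p g o ε

end Pool.Agent.Lib.MP_029589_gt
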