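import Pool.Agent.Lib.MP_997161_gt.Degree

/-! Local degree theory: block determinants and the local homotopy lemma. -/

set_option autoImplicit false

open MeasureTheory Set Filter Topology Function Metric

namespace Pool.Agent.Lib.MP_029589_gt

variable {V W : Type} [NormedAddCommGroup V] [NormedSpace ℝ V] [FiniteDimensional ℝ V]
  [NormedAddCommGroup W] [NormedSpace ℝ W] [FiniteDimensional ℝ W]

/-- Sign of the determinant. -/
noncomputable def sg (A : V →L[ℝ] V) : ℤ := SignType.sign A.det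

omit [FiniteDimensional ℝ V] in
lemma sg_ne_zero {A : V →L[ℝ] V} : sg A ≠ 0 ↔ A.det ≠ 0 := by
  unfold sg
  rcases lt_trichotomy A.det 0 with h | h | h
  · simp [sign_neg h, h.ne]
  · simp [h]
  · simp [sign_pos h, h.ne']

omit [FiniteDimensional ℝ V] in
lemma det_comp (A B : V →L[ℝ] V) : (A.comp B).det = A.det * B.det :=
  LinearMap.det_comp (A : V →ₗ[ℝ] V) (B : V →ₗ[ℝ] V)

omit [FiniteDimensional ℝ V] in
lemma sg_comp (A B : V →L[ℝ] V) : sg (A.comp B) = sg A * sg B := by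
  simp [sg, det_comp, sign_mul]

omit [FiniteDimensional ℝ V] in
lemma sg_pos {A : V →L[ℝ] V} (h : 0 < A.det) : sg A = 1 := by simp [sg, sign_pos h]

omit [FiniteDimensional ℝ V] [FiniteDimensional ℝ W] in
lemma det_conj (L : V ≃L[ℝ] W) (A : V →L[ℝ] V) :
    ((L : V →L[ℝ] W).comp (A.comp (L.symm : W →L[ℝ] V))).det = A.det :=
  LinearMap.det_conj (A : V →ₗ[ℝ] V) L.toLinearEquiv

omit [FiniteDimensional ℝ V] [FiniteDimensional ℝ W] in
lemma sg_conj (L : V ≃L[ℝ] W) (A : V →L[ℝ] V) :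
    sg ((L : V →L[ℝ] W).comp (A.comp (L.symm : W →L[ℝ] V))) = sg A := by
  simp only [sg, det_conj]

lemma det_ne_zero_of_inj {A : V →L[ℝ] V} (h : ∀ v, A v = 0 → v = 0) : A.det ≠ 0 := by
  intro h0
  have := (LinearMap.det_eq_zero_iff_ker_ne_bot (f := (A : V →ₗ[ℝ] V))).1 h0
  exact this (LinearMap.ker_eq_bot'.2 h)

lemma inj_of_det_ne_zero {A : V →L[ℝ] V} (h : A.det ≠ 0) (v : V) (hv : A v = 0) : v = 0 := by
  by_contra h0
  refine h ((LinearMap.det_eq_zero_iff_ker_ne_bot (f := (A : V →ₗ[ℝ] V))).2 fun hk => h0 ?_)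
  exact LinearMap.ker_eq_bot'.1 hk v hv

lemma det_upper (T : V × W →L[ℝ] V × W) (A : V →L[ℝ] V) (N : W →L[ℝ] W)
    (h1 : ∀ v, T (v, 0) = (A v, 0)) (h2 : ∀ w, (T (0, w)).2 = N w) : T.det = A.det * N.det := by
  classical
  let b := Module.finBasis ℝ V
  let c := Module.finBasis ℝ W
  have : LinearMap.toMatrix (b.prod c) (b.prod c) (T : V × W →ₗ[ℝ] V × W) =
      Matrix.fromBlocks (LinearMap.toMatrix b b (A : V →ₗ[ℝ] V))
        (fun i j => b.repr (T (0, c j)).1 i) 0 (LinearMap.toMatrix c c (N : W →ₗ[ℝ] W)) := by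
    ext (i | i) (j | j) <;> simp [LinearMap.toMatrix_apply, h1, h2]
  unfold ContinuousLinearMap.det
  rw [← LinearMap.det_toMatrix (b.prod c), this, Matrix.det_fromBlocks_zero₂₁,
    LinearMap.det_toMatrix, LinearMap.det_toMatrix]

lemma det_lower (T : V × W →L[ℝ] V × W) (A : V →L[ℝ] V) (N : W →L[ℝ] W)
    (h1 : ∀ v, (T (v, 0)).1 = A v) (h2 : ∀ w, T (0, w) = (0, N w)) : T.det = A.det * N.det := by
  classical
  let b := Module.finBasis ℝ V
  let c := Module.finBasis ℝ W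
  have : LinearMap.toMatrix (b.prod c) (b.prod c) (T : V × W →ₗ[ℝ] V × W) =
      Matrix.fromBlocks (LinearMap.toMatrix b b (A : V →ₗ[ℝ] V))
        0 (fun i j => c.repr (T (b j, 0)).2 i) (LinearMap.toMatrix c c (N : W →ₗ[ℝ] W)) := by
    ext (i | i) (j | j) <;> simp [LinearMap.toMatrix_apply, h1, h2]
  unfold ContinuousLinearMap.det
  rw [← LinearMap.det_toMatrix (b.prod c), this, Matrix.det_fromBlocks_zero₁₂,
    LinearMap.det_toMatrix, LinearMap.det_toMatrix]

lemma det_id' : (ContinuousLinearMap.id ℝ V).det = 1 := LinearMap.det_id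

lemma eventually_ne_of_det {F : V → V} {x : V} (hF : DifferentiableAt ℝ F x)
    (h : (fderiv ℝ F x).det ≠ 0) (z : V) : ∀ᶠ y in 𝓝[≠] x, F y ≠ z :=
  hF.hasFDerivAt.eventually_ne
    ⟨_, ((fderiv ℝ F x).toContinuousLinearEquivOfDetNeZero h).antilipschitz⟩

lemma finite_reg {F : V → V} {K : Set V} (hK : IsCompact K)
    (hF : ∀ x ∈ K, DifferentiableAt ℝ F x) {z : V}
    (hreg : ∀ x ∈ K, F x = z → (fderiv ℝ F x).det ≠ 0) : {x ∈ K | F x = z}.Finite := by
  have hc : IsCompact {x ∈ K | F x = z} := by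
    have : ContinuousOn F K := fun x hx => (hF x hx).continuousAt.continuousWithinAt
    exact hK.of_isClosed_subset
      (this.preimage_isClosed_of_isClosed hK.isClosed isClosed_singleton) fun x hx => hx.1
  refine hc.finite (isDiscrete_iff_nhdsNE.2 fun x hx => ?_)
  rw [inf_principal_eq_bot]
  filter_upwards [eventually_ne_of_det (hF x hx.1) (hreg x hx.1 hx.2) z] with y hy h
  exact hy h.2

open Pool.Agent.Lib.MP_010b1d_an Pool.Agent.Lib.MP_997161_gt in
theorem deg_eq' {F : V → V} (hF : ContDiff ℝ 2 F) {O K A : Set V} (hO : IsOpen O)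
    (hK : IsCompact K) (hKO : K ⊆ O) (hA : IsOpen A) (hAc : IsPreconnected A) {η : ℝ}
    (hη : 0 < η) (H : ∀ x ∈ O, x ∉ K → ∀ z ∈ A, η ≤ ‖F x - z‖) {z z' : V} (hz : z ∈ A)
    (hz' : z' ∈ A) (hreg : ∀ x ∈ K, F x = z → (fderiv ℝ F x).det ≠ 0)
    (hreg' : ∀ x ∈ K, F x = z' → (fderiv ℝ F x).det ≠ 0) :
    ∑ᶠ x ∈ {x ∈ K | F x = z}, sg (fderiv ℝ F x) =
      ∑ᶠ x ∈ {x ∈ K | F x = z'}, sg (fderiv ℝ F x) := by
  classical
  let L : V ≃L[ℝ] E (Module.finrank ℝ V) := ContinuousLinearEquiv.ofFinrankEq (by simp)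
  have hd : Differentiable ℝ F := hF.differentiable two_ne_zero
  let G : E (Module.finrank ℝ V) → E (Module.finrank ℝ V) := L ∘ F ∘ L.symm
  have hG : ContDiff ℝ 2 G := L.contDiff.comp (hF.comp L.symm.contDiff)
  have hj : ∀ x, jac (fderiv ℝ G (L x)) = (fderiv ℝ F x).det := by
    intro x
    have : HasFDerivAt G ((L : V →L[ℝ] _).comp ((fderiv ℝ F x).comp (L.symm : _ →L[ℝ] V)))
        (L x) := by
      refine L.hasFDerivAt.comp _ (HasFDerivAt.comp _ ?_ L.symm.hasFDerivAt)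
      simpa using (hd x).hasFDerivAt
    rw [this.fderiv]
    exact det_conj L _
  have hfin := finite_reg hK (fun x _ => hd x) hreg
  have hfin' := finite_reg hK (fun x _ => hd x) hreg'
  set c := ‖(L.symm : E (Module.finrank ℝ V) →L[ℝ] V)‖ + 1 with hc
  have hc0 : 0 < c := by positivity
  have mem : ∀ (w : V) (hw : {x ∈ K | F x = w}.Finite) x,
      x ∈ hw.toFinset.image L ↔ x ∈ L '' K ∧ G x = L w := by
    intro w hw x
    simp only [Finset.mem_image, Finite.mem_toFinset, mem_setOf_eq, mem_image, G, comp]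
    constructor
    · rintro ⟨a, ⟨h1, h2⟩, rfl⟩
      exact ⟨⟨a, h1, rfl⟩, by simp [h2]⟩
    · rintro ⟨⟨a, h1, rfl⟩, h2⟩
      exact ⟨a, ⟨h1, by simpa using h2⟩, rfl⟩
  have key := deg_eq hG (V := L '' O) (K := L '' K) (A := L '' A)
    (L.toHomeomorph.isOpenMap _ hO) (hK.image L.continuous) (image_mono hKO)
    (L.toHomeomorph.isOpenMap _ hA) (hAc.image _ L.continuous.continuousOn) (η := η / c)
    (by positivity) (by
      rintro _ ⟨x, hx, rfl⟩ hx' _ ⟨w, hw, rfl⟩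
      have h1 := H x hx (fun h => hx' ⟨x, h, rfl⟩) w hw
      have h2 : ‖F x - w‖ ≤ c * ‖G (L x) - L w‖ := by
        have : F x - w = (L.symm : E (Module.finrank ℝ V) →L[ℝ] V) (G (L x) - L w) := by
          simp [G]
        rw [this]
        refine (ContinuousLinearMap.le_opNorm _ _).trans ?_
        gcongr
        linarith
      rw [div_le_iff₀ hc0]
      linarith)
    (z := L z) (z' := L z') ⟨z, hz, rfl⟩ ⟨z', hz', rfl⟩ _ _ (mem z hfin) (mem z' hfin')
    (by
      intro x hx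
      obtain ⟨a, ha, rfl⟩ := Finset.mem_image.1 hx
      rw [hj]
      rw [Finite.mem_toFinset] at ha
      exact hreg a ha.1 ha.2)
    (by
      intro x hx
      obtain ⟨a, ha, rfl⟩ := Finset.mem_image.1 hx
      rw [hj]
      rw [Finite.mem_toFinset] at ha
      exact hreg' a ha.1 ha.2)
  rw [Finset.sum_image L.injective.injOn, Finset.sum_image L.injective.injOn] at key
  simp only [hj] at key
  rw [finsum_mem_eq_finite_toFinset_sum _ hfin, finsum_mem_eq_finite_toFinset_sum _ hfin']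
  have e : ∀ s : Finset V, ((∑ x ∈ s, sg (fderiv ℝ F x) : ℤ) : ℝ) =
      ∑ x ∈ s, (SignType.sign (fderiv ℝ F x).det : ℝ) := by
    intro s
    push_cast
    refine Finset.sum_congr rfl fun x _ => ?_
    simp [sg]
  exact_mod_cast (e _).trans (key.trans (e _).symm)

/-- The local homotopy lemma. -/
theorem local_homotopy {g₀ g₁ : V → V} {c : V} {r : ℝ} (hr : 0 < r)
    (h₀ : ∀ u ∈ closedBall c (3 * r), ContDiffAt ℝ 2 g₀ u)
    (h₁ : ∀ u ∈ closedBall c (3 * r), ContDiffAt ℝ 2 g₁ u)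
    (heq : ∀ u ∈ ball c (2 * r), u ∉ closedBall c (3 / 2 * r) → g₀ u = g₁ u) {y : V}
    (hy : y ∉ g₀ '' sphere c (2 * r))
    (r₀ : ∀ u ∈ ball c (2 * r), g₀ u = y → (fderiv ℝ g₀ u).det ≠ 0)
    (r₁ : ∀ u ∈ ball c (2 * r), g₁ u = y → (fderiv ℝ g₁ u).det ≠ 0) :
    ∑ᶠ u ∈ {u ∈ ball c (2 * r) | g₀ u = y}, sg (fderiv ℝ g₀ u) =
      ∑ᶠ u ∈ {u ∈ ball c (2 * r) | g₁ u = y}, sg (fderiv ℝ g₁ u) := by
  let β : ContDiffBump c := ⟨5 / 2 * r, 3 * r, by positivity, by linarith⟩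
  have cut : ∀ g : V → V, (∀ u ∈ closedBall c (3 * r), ContDiffAt ℝ 2 g u) →
      ContDiff ℝ 2 fun u => β u • g u := by
    intro g hg
    refine contDiff_iff_contDiffAt.2 fun u => ?_
    by_cases hu : u ∈ closedBall c (3 * r)
    · exact β.contDiff.contDiffAt.smul (hg u hu)
    · refine (contDiffAt_const (c := (0 : V))).congr_of_eventuallyEq ?_
      filter_upwards [isClosed_closedBall.isOpen_compl.mem_nhds hu] with v hv
      rw [β.zero_of_le_dist (by simpa using (not_le.1 (mt mem_closedBall.2 hv)).le), zero_smul]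
  have one : ∀ u ∈ ball c (5 / 2 * r), β u = 1 := fun u hu =>
    β.one_of_mem_closedBall (ball_subset_closedBall hu)
  have sub : closedBall c (2 * r) ⊆ closedBall c (3 * r) :=
    closedBall_subset_closedBall (by linarith)
  have c₀ : ContinuousOn g₀ (closedBall c (2 * r)) := fun u hu =>
    (h₀ u (sub hu)).continuousAt.continuousWithinAt
  have hS : IsCompact (g₀ '' sphere c (2 * r)) :=
    (isCompact_sphere _ _).image_of_continuousOn (c₀.mono sphere_subset_closedBall)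
  obtain ⟨δ, hδ, hb⟩ := Metric.isOpen_iff.1 hS.isClosed.isOpen_compl y hy
  let K₀ := (closedBall c (2 * r) ∩ g₀ ⁻¹' closedBall y (δ / 2)) ∪ closedBall c (3 / 2 * r)
  have hK₀ : IsCompact K₀ :=
    ((isCompact_closedBall c (2 * r)).of_isClosed_subset
      (c₀.preimage_isClosed_of_isClosed isClosed_closedBall isClosed_closedBall)
      inter_subset_left).union (isCompact_closedBall _ _)
  have hK₀b : K₀ ⊆ ball c (2 * r) := by
    rintro u (⟨h1, h2⟩ | h)
    · rcases (mem_closedBall.1 h1).lt_or_eq with h | h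
      · exact h
      · exact absurd ⟨u, h, rfl⟩ (hb (closedBall_subset_ball (by linarith) h2))
    · exact closedBall_subset_ball (by linarith) h
  let F : V × ℝ → V × ℝ := fun p =>
    (β p.1 • g₀ p.1 + Real.smoothTransition p.2 • (β p.1 • g₁ p.1 - β p.1 • g₀ p.1), p.2)
  have hF : ContDiff ℝ 2 F := by
    have a := (cut g₀ h₀).comp (contDiff_fst (𝕜 := ℝ) (E := V) (F := ℝ))
    have b := (cut g₁ h₁).comp (contDiff_fst (𝕜 := ℝ) (E := V) (F := ℝ))
    exact (a.add ((Real.smoothTransition.contDiff.comp contDiff_snd).smul (b.sub a))).prodMk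
      contDiff_snd
  have der : ∀ (g : V → V) (u : V) (s : ℝ), DifferentiableAt ℝ g u →
      (F =ᶠ[𝓝 (u, s)] fun p => (g p.1, p.2)) → (fderiv ℝ F (u, s)).det = (fderiv ℝ g u).det := by
    intro g u s hg he
    have : HasFDerivAt (fun p : V × ℝ => (g p.1, p.2))
        (((fderiv ℝ g u).comp (ContinuousLinearMap.fst ℝ V ℝ)).prod
          (ContinuousLinearMap.snd ℝ V ℝ)) (u, s) :=
      (HasFDerivAt.comp (u, s) hg.hasFDerivAt hasFDerivAt_fst).prodMk hasFDerivAt_snd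
    rw [he.fderiv_eq, this.fderiv, det_upper _ (fderiv ℝ g u) (ContinuousLinearMap.id ℝ ℝ)
      (by simp) (by simp), det_id', mul_one]
  have sb : ball c (2 * r) ⊆ ball c (5 / 2 * r) := ball_subset_ball (by linarith)
  have e₀ : ∀ u ∈ ball c (2 * r), F =ᶠ[𝓝 (u, -1)] fun p => (g₀ p.1, p.2) := by
    intro u hu
    have : ball c (2 * r) ×ˢ Iio (0 : ℝ) ∈ 𝓝 (u, (-1 : ℝ)) :=
      (isOpen_ball.prod isOpen_Iio).mem_nhds ⟨hu, by norm_num⟩
    filter_upwards [this] with p hp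
    simp [F, one _ (sb hp.1), Real.smoothTransition.zero_of_nonpos (le_of_lt hp.2)]
  have e₁ : ∀ u ∈ ball c (2 * r), F =ᶠ[𝓝 (u, 2)] fun p => (g₁ p.1, p.2) := by
    intro u hu
    have : ball c (2 * r) ×ˢ Ioi (1 : ℝ) ∈ 𝓝 (u, (2 : ℝ)) :=
      (isOpen_ball.prod isOpen_Ioi).mem_nhds ⟨hu, by norm_num⟩
    filter_upwards [this] with p hp
    simp [F, one _ (sb hp.1), Real.smoothTransition.one_of_one_le (le_of_lt hp.2)]
  have d₀ : ∀ u ∈ ball c (2 * r), (fderiv ℝ F (u, -1)).det = (fderiv ℝ g₀ u).det := fun u hu =>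
    der g₀ u _ ((h₀ u (sub (ball_subset_closedBall hu))).differentiableAt two_ne_zero) (e₀ u hu)
  have d₁ : ∀ u ∈ ball c (2 * r), (fderiv ℝ F (u, 2)).det = (fderiv ℝ g₁ u).det := fun u hu =>
    der g₁ u _ ((h₁ u (sub (ball_subset_closedBall hu))).differentiableAt two_ne_zero) (e₁ u hu)
  have s₀ : {x ∈ K₀ ×ˢ Icc (-3 : ℝ) 4 | F x = (y, -1)} =
      (fun u => (u, (-1 : ℝ))) '' {u ∈ ball c (2 * r) | g₀ u = y} := by
    ext ⟨u, s⟩
    constructor
    · rintro ⟨⟨h1, -⟩, h2⟩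
      obtain rfl : s = -1 := congrArg Prod.snd h2
      rw [(e₀ u (hK₀b h1)).self_of_nhds] at h2
      exact ⟨u, ⟨hK₀b h1, congrArg Prod.fst h2⟩, rfl⟩
    · rintro ⟨v, ⟨h1, h2⟩, h3⟩
      obtain ⟨rfl, rfl⟩ := Prod.mk.inj h3
      refine ⟨⟨Or.inl ⟨ball_subset_closedBall h1, ?_⟩, by norm_num, by norm_num⟩, ?_⟩
      · simp [h2, (half_pos hδ).le]
      · rw [(e₀ v h1).self_of_nhds, ← h2]
  have s₁ : {x ∈ K₀ ×ˢ Icc (-3 : ℝ) 4 | F x = (y, 2)} =
      (fun u => (u, (2 : ℝ))) '' {u ∈ ball c (2 * r) | g₁ u = y} := by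
    ext ⟨u, s⟩
    constructor
    · rintro ⟨⟨h1, -⟩, h2⟩
      obtain rfl : s = 2 := congrArg Prod.snd h2
      rw [(e₁ u (hK₀b h1)).self_of_nhds] at h2
      exact ⟨u, ⟨hK₀b h1, congrArg Prod.fst h2⟩, rfl⟩
    · rintro ⟨v, ⟨h1, h2⟩, h3⟩
      obtain ⟨rfl, rfl⟩ := Prod.mk.inj h3
      refine ⟨⟨?_, by norm_num, by norm_num⟩, ?_⟩
      · by_cases h : v ∈ closedBall c (3 / 2 * r)
        · exact Or.inr h
        · refine Or.inl ⟨ball_subset_closedBall h1, ?_⟩
          simp [heq v h1 h, h2, (half_pos hδ).le]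
      · rw [(e₁ v h1).self_of_nhds, ← h2]
  have key := deg_eq' hF (O := ball c (2 * r) ×ˢ univ) (K := K₀ ×ˢ Icc (-3) 4)
    (A := ball y (δ / 4) ×ˢ Ioo (-2) 3) (isOpen_ball.prod isOpen_univ)
    (hK₀.prod isCompact_Icc) (prod_mono hK₀b (subset_univ _)) (isOpen_ball.prod isOpen_Ioo)
    ((convex_ball _ _).isPreconnected.prod isPreconnected_Ioo) (η := min (δ / 4) 1)
    (by positivity) (by
      rintro ⟨u, s⟩ ⟨hu, -⟩ hK ⟨z, t⟩ ⟨hz, ht⟩
      by_cases hs : s ∈ Icc (-3 : ℝ) 4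
      · have hu' : u ∉ K₀ := fun h => hK ⟨h, hs⟩
        have h1 : g₀ u = g₁ u := heq u hu fun h => hu' (Or.inr h)
        have h2 : δ / 2 < dist (g₀ u) y := by
          by_contra h
          exact hu' (Or.inl ⟨ball_subset_closedBall hu, not_lt.1 h⟩)
        refine (min_le_left _ _).trans (le_trans ?_ (norm_fst_le _))
        simp only [F, one _ (sb hu), one_smul, ← h1, sub_self, smul_zero, add_zero, Prod.fst_sub]
        rw [← dist_eq_norm]
        have := dist_triangle (g₀ u) z y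
        have h3 : dist z y < δ / 4 := hz
        linarith
      · refine (min_le_right _ _).trans (le_trans ?_ (norm_snd_le _))
        simp only [F, Prod.snd_sub, Real.norm_eq_abs]
        simp only [mem_Icc, not_and_or, not_le] at hs
        obtain ⟨h1, h2⟩ := ht
        simp only at h1 h2
        rcases hs with h | h
        · rw [abs_of_neg (by linarith)]; linarith
        · rw [abs_of_pos (by linarith)]; linarith)
    (z := (y, -1)) (z' := (y, 2)) ⟨mem_ball_self (by positivity), by norm_num, by norm_num⟩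
    ⟨mem_ball_self (by positivity), by norm_num, by norm_num⟩
    (by
      intro x hx h
      obtain ⟨u, hu, rfl⟩ := s₀.subset ⟨hx, h⟩
      rw [d₀ u hu.1]
      exact r₀ u hu.1 hu.2)
    (by
      intro x hx h
      obtain ⟨u, hu, rfl⟩ := s₁.subset ⟨hx, h⟩
      rw [d₁ u hu.1]
      exact r₁ u hu.1 hu.2)
  rw [s₀, s₁, finsum_mem_image (fun a _ b _ h => congrArg Prod.fst h),
    finsum_mem_image (fun a _ b _ h => congrArg Prod.fst h)] at key
  refine (finsum_mem_congr rfl fun u hu => ?_).trans (key.trans (finsum_mem_congr rfl fun u hu => ?_))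
  · simp only [sg, d₀ u hu.1]
  · simp only [sg, d₁ u hu.1]

end Pool.Agent.Lib.MP_029589_gt
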