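import Pool.Agent.Lib.MP_029589_gt.Surf

/-! The Jacobian determinant of the equations of the surface on its far part. -/

set_option autoImplicit false

open Set Filter Topology Real Function Complex
open scoped ContDiff ComplexConjugate

namespace Pool.Agent.Lib.MP_029589_gt

/-- Diagonal maps. -/
noncomputable def dg {ι : Type} (d : ι → ℝ) : (ι → ℝ) →L[ℝ] (ι → ℝ) :=
  ContinuousLinearMap.pi fun i =>
    (ContinuousLinearMap.toSpanSingleton ℝ (d i)).comp (ContinuousLinearMap.proj i)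

lemma det_dg {ι : Type} [Fintype ι] (d : ι → ℝ) : (dg d).det = ∏ i, d i := by
  rw [dg, ContinuousLinearMap.det_pi]
  simp only [ContinuousLinearMap.det_toSpanSingleton]

lemma hasFDerivAt_dg {ι : Type} [Fintype ι] {φ : ι → ℝ → ℝ} {d y : ι → ℝ}
    (h : ∀ i, HasDerivAt (φ i) (d i) (y i)) : HasFDerivAt (fun y i => φ i (y i)) (dg d) y :=
  hasFDerivAt_pi.2 fun i => (h i).hasFDerivAt.comp y (hasFDerivAt_apply i y)

/-- The real form of `pair`. -/
noncomputable def rp (α β : ℂ) : ℝ × ℝ →L[ℝ] ℝ × ℝ :=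
  (equivRealProdCLM : ℂ →L[ℝ] ℝ × ℝ).comp (pair α β)

lemma det_rp (α β : ℂ) : (rp α β).det = area α β := by
  rw [ContinuousLinearMap.det, ← LinearMap.det_toMatrix (Module.Basis.finTwoProd ℝ),
    Matrix.det_fin_two]
  simp [LinearMap.toMatrix_apply, rp, area]
  ring

lemma hasDerivAt_sin2 (t : ℝ) :
    HasDerivAt (fun t => Real.sin (2 * π * t)) (Real.cos (2 * π * t) * (2 * π)) t := by
  simpa using ((hasDerivAt_id t).const_mul (2 * π)).sin

lemma det_G1 {p : NN} (h : G1 p = 0) (h0 : G0 p ≤ 0) (hk : 1 / 2 ≤ kpp p.1) :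
    0 < ((fderiv ℝ G1 p).comp (ContinuousLinearMap.inr ℝ (ℝ × ℝ) TTs)).det := by
  have D := (contDiff_G1.differentiable (by simp) p).hasFDerivAt
  have hm := mu_pos' h h0
  obtain ⟨hS, hz⟩ := far_part h h0 hk
  have w1 : ∀ k, HasDerivAt (fun t => (ee (-t) * AA p k).im) (-(2 * π * (WW p k).re)) (p.2.2 k) :=
    fun k => by
      have := imCLM.hasFDerivAt.comp_hasDerivAt _
        (((hasDerivAt_ee (-p.2.2 k)).scomp (p.2.2 k) (hasDerivAt_neg _)).mul_const (AA p k))
      refine this.congr_deriv ?_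
      simp [WW]
      ring
  have d1 := D.comp (f := fun w => (p.1, p.2.1, w)) p.2.2
    ((hasFDerivAt_const p.1 _).prodMk (hasFDerivAt_prodMk_right p.2.1 p.2.2))
  have d2 := (hasFDerivAt_const (G1 p).1 _).prodMk (hasFDerivAt_dg w1)
  have e1 := d1.unique d2
  obtain ⟨-, α, β, a1, a2⟩ := (posAt_sp hz).mul (g := fun y => conj (s0 y))
    ((contDiff_conj.comp contDiff_s0).differentiable (by simp) _) (by simpa using s0_ne hz)
  let φ : Ix' → ℝ → ℝ := fun l t =>
    if l = ir then Real.sin (2 * π * t) ^ 2 - 1 / 4 else Real.sin (2 * π * t)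
  let d : Ix' → ℝ := fun l => (if l = ir then -1 else 1) * (Real.cos (2 * π * p.2.1 l) * (2 * π))
  have w2 : ∀ l, HasDerivAt (φ l) (d l) ((th p.2.1).2 l) := fun l => by
    have := hasDerivAt_sin2 (p.2.1 l)
    by_cases hl : l = ir
    · subst hl
      simp only [φ, d, if_true]
      refine ((this.pow 2).sub_const _).congr_deriv ?_
      rw [show Real.sin (2 * π * p.2.1 ir) = -1 / 2 from hS]
      ring
    · simp only [φ, d, if_neg hl, one_mul]
      exact this
  have hc : Continuous fun y => ((p.1, y, p.2.2) : NN) := by fun_prop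
  have d3 := (D.comp (f := fun y => (p.1, y, p.2.2)) p.2.1 ((hasFDerivAt_const p.1 _).prodMk
    (hasFDerivAt_prodMk_left p.2.1 p.2.2))).fst
  have d4 := th.symm.hasFDerivAt.comp _ ((HasFDerivAt.prodMap (th p.2.1)
    (equivRealProdCLM.hasFDerivAt.comp _ a2) (hasFDerivAt_dg w2)).comp _ th.hasFDerivAt)
  have e2 := d3.unique (d4.congr_of_eventuallyEq (by
      filter_upwards [(contDiff_SS.continuous.comp hc).continuousAt.eventually_lt continuousAt_const
        (show SS p < -1 / 4 by rw [hS]; norm_num)] with y hy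
      have e : HH (p.1, y, p.2.2) = fun l => φ l (y l) := funext fun l => by
        have h1 : st (1 - 4 * (kpp p.1 + kpp (zz (p.1, y, p.2.2)))) = 0 :=
          smoothTransition.zero_of_nonpos (by linarith [kap_nonneg (zz (p.1, y, p.2.2))])
        by_cases hl : l = ir
        · subst hl
          rw [HH_ir, hh, h1]
          simp [φ, SS, ir]
        · rw [HH, if_neg fun h : l.1 = (0, 2) => hl (Subtype.ext h)]
          simp [φ, hl]
      simp only [comp, G1, e, Zc, be_zero hy.le]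
      simp [th_apply, MM, zz]))
  rw [det_tri' _ ((th.symm : _ →L[ℝ] _).comp (((rp α β).prodMap (dg d)).comp
    (th.symm.symm : _ →L[ℝ] _))) (dg fun k => -(2 * π * (WW p k).re))
    (fun a => DFunLike.congr_fun e2 a) (fun b => DFunLike.congr_fun e1 b), det_conj',
    det_tri _ (rp α β) (dg d) (by simp) (by simp), det_rp, det_dg, det_dg, mul_assoc]
  refine mul_pos a1 (mul_pos_of_neg_of_neg ?_ ?_)
  · rw [Finset.prod_mul_distrib, Finset.prod_ite_eq', if_pos (Finset.mem_univ _), neg_one_mul,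
      neg_lt_zero]
    exact Finset.prod_pos fun l _ => mul_pos (hm (.inr (.inl l))) two_pi_pos
  · rw [Finset.prod_neg, Finset.card_univ, Fintype.card_fin]
    exact mul_neg_of_neg_of_pos (by norm_num)
      (Finset.prod_pos fun k _ => mul_pos two_pi_pos (hm (.inl k)))

lemma cos_one {p : NN} (h : G1 p = 0) (h0 : G0 p ≤ 0) {l : Ix} (hl : l.1 ≠ 0) (m : ℕ) :
    Real.cos (2 * π * (m * p.2.1 l)) = 1 := by
  have h1 : ∀ j, l ≠ (0, j) := fun j e => hl (congrArg Prod.fst e)
  have h2 : Real.sin _ = 0 := (if_neg (h1 2)).symm.trans ((G1_eq_zero.1 h).2.1 ⟨l, h1 0, h1 1⟩)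
  have h3 : 0 < Real.cos _ := mu_pos' h h0 (.inr (.inl ⟨l, h1 0, h1 1⟩))
  have h4 : ee (p.2.1 l) = 1 := Complex.ext
    ((ee_re _).trans ((sin_eq_zero_iff_cos_eq.1 h2).resolve_right fun e => by
      rw [e] at h3; norm_num at h3)) ((ee_im _).trans h2)
  rw [← ee_re, ee_nat_mul, h4, one_pow, one_re]

lemma exists_zero {x : ℝ × ℝ} (hk : 1 / 2 ≤ kpp x) : ∃ p : NN, p.1 = x ∧ G1 p = 0 ∧ G0 p < 0 := by
  let y : Ix → ℝ := fun l => if l = (0, 2) then -1 / 12 else 0
  let p : NN := (x, y, fun k => arg (AA (x, y, 0) k) / (2 * π))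
  have hW : ∀ k, WW p k = ‖AA (x, y, 0) k‖ := fun k => by
    have e : ee (arg (AA (x, y, 0) k) / (2 * π)) = Complex.exp (arg (AA (x, y, 0) k) * I) := by
      rw [ee, mul_div_cancel₀ _ two_pi_pos.ne']
    have e' := norm_mul_exp_arg_mul_I (AA (x, y, 0) k)
    rw [← e] at e'
    change ee (-(arg (AA (x, y, 0) k) / (2 * π))) * AA (x, y, 0) k = _
    linear_combination (-ee (-(arg (AA (x, y, 0) k) / (2 * π)))) * e' +
      (‖AA (x, y, 0) k‖ : ℂ) * ee_neg_mul (arg (AA (x, y, 0) k) / (2 * π))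
  have e6 : 2 * π * (-1 / 12) = -(π / 6) := by ring
  have hS : SS p = -1 / 2 := by
    simp only [SS, p, y, if_true, e6, Real.sin_neg, sin_pi_div_six]
    norm_num
  have hb := be_zero (p := p) (by rw [hS]; norm_num)
  have hz : sp (zz p) = 0 := by simpa [sp, zz, p, y] using s0_half
  have h1 : G1 p = 0 := G1_eq_zero.2 ⟨by simp [Zc, hb, MM, hz], fun l => ?_, fun k => by simp [hW]⟩
  · refine ⟨p, rfl, h1, G0_neg (mu_pos h1 ?_)⟩
    rintro (k | l | u)
    · simp [mu, hW]
    · simp only [mu, p, y]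
      split_ifs
      · rw [e6, Real.cos_neg, cos_pi_div_six]; positivity
      · simp
    · simp [mu, nu, hb, hz, normSq_nonneg]
  · rw [HH]
    split_ifs with hl
    · rw [hh, hS, st, smoothTransition.zero_of_nonpos (by linarith [kap_nonneg (zz p)])]
      norm_num
    · simp [p, y, hl]

end Pool.Agent.Lib.MP_029589_gt
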