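import Pool.Agent.Lib.MP_029589_gt.Tool

/-! Etale spaces with a complex function, agreement over open sets, and gluing. -/

set_option autoImplicit false

open scoped Topology
open Set Filter Function Topology

namespace Pool.Agent.Lib.MP_029589_gt.Eb

variable {Y Y' : Type} [TopologicalSpace Y] [TopologicalSpace Y']

lemma loc_of {f : Y → Y'} (hc : Continuous f) (ho : IsOpenMap f)
    (hi : ∀ x, ∃ U, IsOpen U ∧ x ∈ U ∧ InjOn f U) : IsLocalHomeomorph f := by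
  refine isLocalHomeomorph_iff_isOpenEmbedding_restrict.2 fun x => ?_
  obtain ⟨U, h1, h2, h3⟩ := hi x
  exact ⟨U, h1.mem_nhds h2, .of_continuous_injective_isOpenMap (hc.comp continuous_subtype_val)
    (fun a b h => Subtype.ext (h3 a.2 b.2 h)) (ho.comp h1.isOpenMap_subtype_val)⟩

lemma loc_prod {Z Z' : Type} [TopologicalSpace Z] [TopologicalSpace Z'] {f : Y → Y'} {g : Z → Z'}
    (hf : IsLocalHomeomorph f) (hg : IsLocalHomeomorph g) : IsLocalHomeomorph (Prod.map f g) := by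
  refine loc_of (hf.continuous.prodMap hg.continuous) (hf.isOpenMap.prodMap hg.isOpenMap) fun x => ?_
  obtain ⟨U, h1, h2, h3⟩ := hf.isLocallyInjective x.1
  obtain ⟨V, h4, h5, h6⟩ := hg.isLocallyInjective x.2
  exact ⟨U ×ˢ V, h1.prod h4, ⟨h2, h5⟩, h3.prodMap h6⟩

lemma loc_id : IsLocalHomeomorph (id : Y → Y) := (Homeomorph.refl Y).isLocalHomeomorph

lemma loc_sum {Z : Type} [TopologicalSpace Z] {f : Y → Z} {g : Y' → Z}
    (hf : IsLocalHomeomorph f) (hg : IsLocalHomeomorph g) : IsLocalHomeomorph (Sum.elim f g) := by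
  refine loc_of (hf.continuous.sumElim hg.continuous) (hf.isOpenMap.sumElim hg.isOpenMap) ?_
  rintro (x | x)
  · obtain ⟨U, h1, h2, h3⟩ := hf.isLocallyInjective x
    refine ⟨Sum.inl '' U, isOpenMap_inl _ h1, mem_image_of_mem _ h2, ?_⟩
    rintro _ ⟨a, ha, rfl⟩ _ ⟨b, hb, rfl⟩ h
    rw [h3 ha hb h]
  · obtain ⟨U, h1, h2, h3⟩ := hg.isLocallyInjective x
    refine ⟨Sum.inr '' U, isOpenMap_inr _ h1, mem_image_of_mem _ h2, ?_⟩
    rintro _ ⟨a, ha, rfl⟩ _ ⟨b, hb, rfl⟩ h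
    rw [h3 ha hb h]

lemma cpt_val {O C : Set Y} (hC : IsCompact C) (h : C ⊆ O) : IsCompact ((↑) ⁻¹' C : Set O) :=
  (IsInducing.subtypeVal.isCompact_preimage_iff (by rwa [Subtype.range_coe])).2 hC

/-- Etale spaces with a complex valued function. -/
structure Pre (Y : Type) [TopologicalSpace Y] where
  /-- The total space. -/
  F : Type
  [top : TopologicalSpace F]
  [t2 : T2Space F]
  /-- The projection. -/
  π : F → Y
  loc : IsLocalHomeomorph π
  /-- The function. -/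
  f : F → ℂ
  cf : Continuous f

attribute [instance] Pre.top Pre.t2

/-- Restriction to an open subset. -/
@[reducible] def Pre.res (X : Pre Y) (O : Set X.F) (hO : IsOpen O) : Pre Y where
  F := O
  π e := X.π e
  loc := X.loc.comp hO.isOpenEmbedding_subtypeVal.isLocalHomeomorph
  f e := X.f e
  cf := X.cf.comp continuous_subtype_val

/-- Composition with a local homeomorphism of the base. -/
@[reducible] def Pre.push (X : Pre Y) (φ : Y → Y') (hφ : IsLocalHomeomorph φ) : Pre Y' where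
  F := X.F
  π e := φ (X.π e)
  loc := hφ.comp X.loc
  f := X.f
  cf := X.cf

/-- Disjoint union. -/
@[reducible] def Pre.sum (X X' : Pre Y) : Pre Y where
  F := X.F ⊕ X'.F
  π := Sum.elim X.π X'.π
  loc := loc_sum X.loc X'.loc
  f := Sum.elim X.f X'.f
  cf := X.cf.sumElim X'.cf

/-- The product with the time axis, with a time dependent function. -/
@[reducible] def Pre.fam (X : Pre Y) (Φ : X.F × ℝ → ℂ) (hΦ : Continuous Φ) : Pre (Y × ℝ) where
  F := X.F × ℝ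
  π := Prod.map X.π id
  loc := loc_prod X.loc loc_id
  f := Φ
  cf := hΦ

/-- The cylinder. -/
@[reducible] def Pre.cyl (X : Pre Y) : Pre (Y × ℝ) :=
  X.fam (fun z => X.f z.1) (X.cf.comp continuous_fst)

/-- One half of an isomorphism over `U`. -/
structure Half (V W : Pre Y) (U : Set Y) (R : V.F → W.F → Prop) : Prop where
  val : ∀ v w, R v w → V.π v = W.π w ∧ V.f v = W.f w ∧ V.π v ∈ U
  ex : ∀ v, V.π v ∈ U → ∃ w, R v w
  un : ∀ v w w', R v w → R v w' → w = w'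
  op : ∀ O, IsOpen O → IsOpen {w | ∃ v ∈ O, R v w}

/-- Isomorphism over `U`. -/
def Agr (V W : Pre Y) (U : Set Y) : Prop := ∃ R, Half V W U R ∧ Half W V U fun w v => R v w

variable {V W X : Pre Y} {U U' : Set Y}

lemma Half.congr {R R' : V.F → W.F → Prop} (h : Half V W U R) (e : ∀ v w, R' v w ↔ R v w) :
    Half V W U R' := by
  rwa [show R' = R from funext₂ fun v w => propext (e v w)]

lemma Half.trans {R : V.F → W.F → Prop} {S : W.F → X.F → Prop} (h : Half V W U R)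
    (h' : Half W X U S) : Half V X U fun v x => ∃ w, R v w ∧ S w x where
  val := by
    rintro v x ⟨w, h1, h2⟩
    obtain ⟨a, b, c⟩ := h.val v w h1
    obtain ⟨a', b', -⟩ := h'.val w x h2
    exact ⟨a.trans a', b.trans b', c⟩
  ex v hv := by
    obtain ⟨w, hw⟩ := h.ex v hv
    obtain ⟨x, hx⟩ := h'.ex w ((h.val v w hw).1 ▸ hv)
    exact ⟨x, w, hw, hx⟩
  un := by
    rintro v x x' ⟨w, h1, h2⟩ ⟨w', h3, h4⟩
    obtain rfl := h.un v w w' h1 h3
    exact h'.un _ _ _ h2 h4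
  op O hO := by
    convert h'.op _ (h.op O hO) using 1
    ext x
    exact ⟨fun ⟨v, a, w, b, c⟩ => ⟨w, ⟨v, a, b⟩, c⟩, fun ⟨w, ⟨v, a, b⟩, c⟩ => ⟨v, a, w, b, c⟩⟩

lemma Half.push {R : V.F → W.F → Prop} (h : Half V W U R) {φ : Y → Y'} (hφ : IsLocalHomeomorph φ)
    {T : Set Y'} (hT : IsOpen T) (hv : ∀ v, φ (V.π v) ∈ T → V.π v ∈ U) :
    Half (V.push φ hφ) (W.push φ hφ) T fun v w => R v w ∧ φ (V.π v) ∈ T ∧ φ (W.π w) ∈ T where
  val v w hr := ⟨congrArg φ (h.val v w hr.1).1, (h.val v w hr.1).2.1, hr.2.1⟩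
  ex v hv' := by
    obtain ⟨w, hw⟩ := h.ex v (hv v hv')
    exact ⟨w, hw, hv', (h.val v w hw).1 ▸ hv'⟩
  un v w w' h1 h2 := h.un v w w' h1.1 h2.1
  op O hO := by
    convert (h.op O hO).inter (hT.preimage (W.push φ hφ).loc.continuous) using 1
    ext w
    exact ⟨fun ⟨v, a, b, _, c⟩ => ⟨⟨v, a, b⟩, c⟩,
      fun ⟨⟨v, a, b⟩, c⟩ => ⟨v, a, b, (h.val v w b).1 ▸ c, c⟩⟩

lemma Half.union {R R' : V.F → W.F → Prop} (h : Half V W U R) (h' : Half V W U' R')
    (hd : Disjoint U U') : Half V W (U ∪ U') fun v w => R v w ∨ R' v w where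
  val v w hr := hr.elim (fun a => ⟨(h.val v w a).1, (h.val v w a).2.1, Or.inl (h.val v w a).2.2⟩)
    fun a => ⟨(h'.val v w a).1, (h'.val v w a).2.1, Or.inr (h'.val v w a).2.2⟩
  ex v hv := hv.elim (fun a => (h.ex v a).imp fun _ => Or.inl) fun a => (h'.ex v a).imp fun _ => Or.inr
  un := by
    rintro v w w' (a | a) (b | b)
    · exact h.un _ _ _ a b
    · exact (disjoint_left.1 hd (h.val _ _ a).2.2 (h'.val _ _ b).2.2).elim
    · exact (disjoint_left.1 hd (h.val _ _ b).2.2 (h'.val _ _ a).2.2).elim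
    · exact h'.un _ _ _ a b
  op O hO := by
    convert (h.op O hO).union (h'.op O hO) using 1
    ext w
    exact ⟨fun ⟨v, a, b⟩ => b.imp (fun c => ⟨v, a, c⟩) fun c => ⟨v, a, c⟩,
      fun b => b.elim (fun ⟨v, a, c⟩ => ⟨v, a, Or.inl c⟩) fun ⟨v, a, c⟩ => ⟨v, a, Or.inr c⟩⟩

lemma Half.sum {V' W' : Pre Y} {R : V.F → W.F → Prop} {R' : V'.F → W'.F → Prop}
    (h : Half V W U R) (h' : Half V' W' U R') : Half (V.sum V') (W.sum W') U (Sum.LiftRel R R') where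
  val := by
    rintro _ _ (a | a)
    exacts [h.val _ _ a, h'.val _ _ a]
  ex := by
    rintro (v | v) hv
    · obtain ⟨w, hw⟩ := h.ex v hv
      exact ⟨.inl w, .inl hw⟩
    · obtain ⟨w, hw⟩ := h'.ex v hv
      exact ⟨.inr w, .inr hw⟩
  un := by
    rintro _ _ _ (a | a) (b | b)
    · rw [h.un _ _ _ a b]
    · rw [h'.un _ _ _ a b]
  op O hO := by
    rw [isOpen_sum_iff] at hO ⊢
    constructor
    · convert h.op _ hO.1 using 1
      ext w
      constructor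
      · rintro ⟨_, a, (b | b)⟩
        exact ⟨_, a, b⟩
      · rintro ⟨v, a, b⟩
        exact ⟨.inl v, a, .inl b⟩
    · convert h'.op _ hO.2 using 1
      ext w
      constructor
      · rintro ⟨_, a, (b | b)⟩
        exact ⟨_, a, b⟩
      · rintro ⟨v, a, b⟩
        exact ⟨.inr v, a, .inr b⟩

lemma Agr.symm (h : Agr V W U) : Agr W V U := let ⟨_, a, b⟩ := h; ⟨_, b, a⟩

lemma Agr.trans (h : Agr V W U) (h' : Agr W X U) : Agr V X U :=
  let ⟨_, a, b⟩ := h; let ⟨_, c, d⟩ := h'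
  ⟨_, a.trans c, (d.trans b).congr fun _ _ => exists_congr fun _ => and_comm⟩

lemma Agr.push (h : Agr V W U) {φ : Y → Y'} (hφ : IsLocalHomeomorph φ) {T : Set Y'}
    (hT : IsOpen T) (hv : ∀ v, φ (V.π v) ∈ T → V.π v ∈ U) (hw : ∀ w, φ (W.π w) ∈ T → W.π w ∈ U) :
    Agr (V.push φ hφ) (W.push φ hφ) T :=
  let ⟨_, a, b⟩ := h
  ⟨_, a.push hφ hT hv, (b.push hφ hT hw).congr fun _ _ => and_congr_right fun _ => and_comm⟩

lemma Agr.mono (h : Agr V W U) (hU : IsOpen U') (hs : U' ⊆ U) : Agr V W U' :=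
  h.push loc_id hU (fun _ a => hs a) fun _ a => hs a

lemma Agr.union (h : Agr V W U) (h' : Agr V W U') (hd : Disjoint U U') : Agr V W (U ∪ U') :=
  let ⟨_, a, b⟩ := h; let ⟨_, c, d⟩ := h'; ⟨_, a.union c hd, b.union d hd⟩

lemma Agr.sum {V' W' : Pre Y} (h : Agr V W U) (h' : Agr V' W' U) :
    Agr (V.sum V') (W.sum W') U := by
  obtain ⟨_, a, b⟩ := h
  obtain ⟨_, c, d⟩ := h'
  refine ⟨_, a.sum c, (b.sum d).congr fun _ _ => ⟨?_, ?_⟩⟩
  · rintro (e | e)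
    exacts [.inl e, .inr e]
  · rintro (e | e)
    exacts [.inl e, .inr e]

lemma emb_of {α : V.F → W.F} (hc : Continuous α) (hi : Injective α)
    (hπ : ∀ v, W.π (α v) = V.π v) : IsOpenEmbedding α :=
  (IsLocalHomeomorph.of_comp (g := W.π) (by rw [show W.π ∘ α = V.π from funext hπ]; exact V.loc)
    W.loc hc).isOpenEmbedding_of_injective hi

lemma Agr.of_map (hU : IsOpen U) (α : V.F → W.F) (hc : Continuous α) (hi : Injective α)
    (hπ : ∀ v, W.π (α v) = V.π v) (hf : ∀ v, V.π v ∈ U → W.f (α v) = V.f v)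
    (hs : ∀ w, W.π w ∈ U → ∃ v, α v = w) : Agr V W U := by
  have he := emb_of hc hi hπ
  refine ⟨fun v w => α v = w ∧ V.π v ∈ U, ⟨?_, fun v hv => ⟨_, rfl, hv⟩, ?_, fun O hO => ?_⟩,
    ⟨?_, fun w hw => ?_, ?_, fun O hO => ?_⟩⟩
  · rintro v _ ⟨rfl, h⟩
    exact ⟨(hπ v).symm, (hf v h).symm, h⟩
  · rintro v _ _ ⟨rfl, -⟩ ⟨rfl, -⟩
    rfl
  · convert he.isOpenMap _ (hO.inter (hU.preimage V.loc.continuous)) using 1
    ext w
    exact ⟨fun ⟨v, a, b, c⟩ => ⟨v, ⟨a, c⟩, b⟩, fun ⟨v, ⟨a, c⟩, b⟩ => ⟨v, a, b, c⟩⟩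
  · rintro _ v ⟨rfl, h⟩
    exact ⟨hπ v, hf v h, (hπ v).symm ▸ h⟩
  · obtain ⟨v, rfl⟩ := hs w hw
    exact ⟨v, rfl, hπ v ▸ hw⟩
  · rintro w v v' ⟨a, -⟩ ⟨b, -⟩
    exact hi (a.trans b.symm)
  · convert (hO.preimage hc).inter (hU.preimage V.loc.continuous) using 1
    ext v
    exact ⟨fun ⟨w, a, b, c⟩ => ⟨by rwa [← b] at a, c⟩, fun ⟨a, c⟩ => ⟨_, a, rfl, c⟩⟩

lemma Agr.res (hU : IsOpen U) {O : Set V.F} (hO : IsOpen O) (h : ∀ v, V.π v ∈ U → v ∈ O) :
    Agr (V.res O hO) V U :=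
  Agr.of_map (V := V.res O hO) hU (↑) continuous_subtype_val Subtype.val_injective (fun _ => rfl)
    (fun _ _ => rfl) fun w hw => ⟨⟨w, h w hw⟩, rfl⟩

lemma Agr.cpt (h : Agr V W U) {C : Set Y} (hC : C ⊆ U) (hc : IsCompact {v | V.f v = 0 ∧ V.π v ∈ C}) :
    IsCompact {w | W.f w = 0 ∧ W.π w ∈ C} := by
  obtain ⟨R, a, b⟩ := h
  refine isCompact_of_finite_subcover fun O hO hs => ?_
  obtain ⟨t, ht⟩ := hc.elim_finite_subcover _ (fun i => b.op _ (hO i)) fun v hv => by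
    obtain ⟨w, hw⟩ := a.ex v (hC hv.2)
    obtain ⟨h1, h2, -⟩ := a.val v w hw
    obtain ⟨i, hi⟩ := mem_iUnion.1 (hs (show w ∈ _ from ⟨h2 ▸ hv.1, h1 ▸ hv.2⟩))
    exact mem_iUnion.2 ⟨i, w, hi, hw⟩
  refine ⟨t, fun w hw => ?_⟩
  obtain ⟨v, hv⟩ := b.ex w (hC hw.2)
  obtain ⟨h1, h2, -⟩ := a.val v w hv
  obtain ⟨i, hi, w', h3, h4⟩ := mem_iUnion₂.1 (ht (show v ∈ _ from ⟨h2 ▸ hw.1, h1 ▸ hw.2⟩))
  exact mem_iUnion₂.2 ⟨i, hi, a.un _ _ _ h4 hv ▸ h3⟩

lemma Half.closed [T2Space Y] {R : V.F → W.F → Prop} (h : Half V W U R)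
    (h' : Half W V U fun w v => R v w) (hU : ∀ v w, V.π v = W.π w → V.π v ∈ U) :
    IsClosed {q : V.F × W.F | R q.1 q.2} := by
  rw [← isOpen_compl_iff, isOpen_iff_mem_nhds]
  rintro ⟨v, w⟩ hq
  by_cases e : V.π v = W.π w
  · obtain ⟨w', hw⟩ := h.ex v (hU v w e)
    obtain ⟨O, O', h1, h2, h3, h4, h5⟩ := t2_separation (show w' ≠ w by rintro rfl; exact hq hw)
    filter_upwards [prod_mem_nhds ((h'.op O h1).mem_nhds ⟨w', h3, hw⟩) (h2.mem_nhds h4)]
    rintro ⟨a, b⟩ ⟨⟨c, h6, h7⟩, h8⟩ h9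
    exact disjoint_left.1 h5 h6 (h.un _ _ _ h9 h7 ▸ h8)
  · filter_upwards [(isOpen_ne_fun (V.loc.continuous.comp continuous_fst)
      (W.loc.continuous.comp continuous_snd)).mem_nhds (show (v, w) ∈ _ from e)] with q h1 h2
    exact h1 (h.val _ _ h2).1

theorem glue0 [T2Space Y] (h : Agr V W U) (hU : ∀ v w, V.π v = W.π w → V.π v ∈ U) :
    ∃ (X : Pre Y) (i : V.F → X.F) (j : W.F → X.F), IsOpenEmbedding i ∧ IsOpenEmbedding j ∧
      (∀ x, (∃ v, i v = x) ∨ ∃ w, j w = x) ∧ (∀ v, X.π (i v) = V.π v ∧ X.f (i v) = V.f v) ∧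
      (∀ w, X.π (j w) = W.π w ∧ X.f (j w) = W.f w) ∧ (∀ v, V.π v ∈ U → ∃ w, j w = i v) ∧
      ∀ w, W.π w ∈ U → ∃ v, i v = j w := by
  obtain ⟨R, a, b⟩ := h
  obtain ⟨Z, _, i, j, hi, hj, hc, hR⟩ :=
    exists_glue R a.un (fun v v' w h1 h2 => b.un w v v' h1 h2) a.op b.op
  have : T2Space Z := t2_of_glue hi hj hc (by simpa only [hR] using a.closed b hU)
  have key : ∀ x : Z, ∃ y : Y × ℂ, (∀ v, i v = x → y = (V.π v, V.f v)) ∧
      ∀ w, j w = x → y = (W.π w, W.f w) := fun x => by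
    rcases hc x with ⟨v, rfl⟩ | ⟨w, rfl⟩
    · refine ⟨(V.π v, V.f v), fun v' e => by rw [hi.injective e], fun w e => ?_⟩
      obtain ⟨h1, h2, -⟩ := a.val v w ((hR v w).1 e.symm)
      rw [h1, h2]
    · refine ⟨(W.π w, W.f w), fun v e => ?_, fun w' e => by rw [hj.injective e]⟩
      obtain ⟨h1, h2, -⟩ := a.val v w ((hR v w).1 e)
      rw [h1, h2]
  choose G h1 h2 using key
  have e1 : G ∘ i = fun v => (V.π v, V.f v) := funext fun v => h1 _ v rfl
  have e2 : G ∘ j = fun w => (W.π w, W.f w) := funext fun w => h2 _ w rfl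
  have hG : Continuous G := continuous_iff_continuousAt.2 fun x => by
    rcases hc x with ⟨v, rfl⟩ | ⟨w, rfl⟩
    · exact hi.continuousAt_iff.1 (e1 ▸ (V.loc.continuous.prodMk V.cf).continuousAt)
    · exact hj.continuousAt_iff.1 (e2 ▸ (W.loc.continuous.prodMk W.cf).continuousAt)
  have hl : IsLocalHomeomorph fun x => (G x).1 := fun x => by
    rcases hc x with ⟨v, rfl⟩ | ⟨w, rfl⟩
    · exact IsLocalHomeomorphOn.of_comp_right (g := fun x => (G x).1) (s := univ)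
        (by rw [show (fun x => (G x).1) ∘ i = V.π from congrArg (Prod.fst ∘ ·) e1]
            exact V.loc.isLocalHomeomorphOn)
        hi.isLocalHomeomorph.isLocalHomeomorphOn _ ⟨v, trivial, rfl⟩
    · exact IsLocalHomeomorphOn.of_comp_right (g := fun x => (G x).1) (s := univ)
        (by rw [show (fun x => (G x).1) ∘ j = W.π from congrArg (Prod.fst ∘ ·) e2]
            exact W.loc.isLocalHomeomorphOn)
        hj.isLocalHomeomorph.isLocalHomeomorphOn _ ⟨w, trivial, rfl⟩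
  refine ⟨⟨Z, _, hl, fun x => (G x).2, hG.snd⟩, i, j, hi, hj, hc, fun v => ?_, fun w => ?_,
    fun v hv => ?_, fun w hw => ?_⟩
  · exact Prod.ext_iff.1 (congrFun e1 v)
  · exact Prod.ext_iff.1 (congrFun e2 w)
  · exact (a.ex v hv).imp fun w hw => ((hR v w).2 hw).symm
  · exact (b.ex w hw).imp fun v hv => (hR v w).2 hv

/-- Gluing over the union of two open sets. -/
theorem glue [T2Space Y] (hU : IsOpen U) (hU' : IsOpen U') (h : Agr V W (U ∩ U')) :
    ∃ X : Pre Y, Agr V X U ∧ Agr W X U' ∧ ∀ x, X.π x ∈ U ∪ U' := by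
  have o1 := hU.preimage V.loc.continuous
  have o2 := hU'.preimage W.loc.continuous
  have a := ((Agr.res (hU.inter hU') o1 fun _ h => h.1).trans h).trans
    (Agr.res (hU.inter hU') o2 fun _ h => h.2).symm
  obtain ⟨X, i, j, hi, hj, hc, h1, h2, h3, h4⟩ := glue0 a fun v w e => ⟨v.2, e ▸ w.2⟩
  refine ⟨X, (Agr.res hU o1 fun _ h => h).symm.trans (Agr.of_map hU i hi.continuous hi.injective
    (fun v => (h1 v).1) (fun v _ => (h1 v).2) fun x hx => ?_),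
    (Agr.res hU' o2 fun _ h => h).symm.trans (Agr.of_map hU' j hj.continuous hj.injective
    (fun v => (h2 v).1) (fun v _ => (h2 v).2) fun x hx => ?_), fun x => ?_⟩
  · rcases hc x with h | ⟨w, rfl⟩
    · exact h
    · exact h4 w ⟨(h2 w).1 ▸ hx, w.2⟩
  · rcases hc x with ⟨v, rfl⟩ | h
    · exact h3 v ⟨v.2, (h1 v).1 ▸ hx⟩
    · exact h
  · rcases hc x with ⟨v, rfl⟩ | ⟨w, rfl⟩
    · exact Or.inl ((h1 v).1 ▸ v.2)
    · exact Or.inr ((h2 w).1 ▸ w.2)

end Pool.Agent.Lib.MP_029589_gt.Eb
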