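import Pool.Agent.Lib.MP_029589_gt.EbdA

/-! Bordism of etale spaces with a complex function. -/

set_option autoImplicit false

open scoped Topology
open Set Filter Function Topology

namespace Pool.Agent.Lib.MP_029589_gt.Eb

variable {B : Type} [TopologicalSpace B] {X Y Z : Pre B} {W : Pre (B × ℝ)}

/-- The zero set is compact. -/
def Cpt (X : Pre B) : Prop := IsCompact {e | X.f e = 0}

/-- The zero set is compact over compact sets of times. -/
def Prp (W : Pre (B × ℝ)) : Prop :=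
  ∀ K : Set ℝ, IsCompact K → IsCompact {w | W.f w = 0 ∧ W.π w ∈ Prod.snd ⁻¹' K}

/-- Bordism. -/
def Bord (X Y : Pre B) : Prop := ∃ W : Pre (B × ℝ), Prp W ∧ Agr X.cyl W (Prod.snd ⁻¹' Iio 0) ∧
  Agr Y.cyl W (Prod.snd ⁻¹' Ioi 1)

/-- Change of time. -/
@[reducible] def Pre.ret (W : Pre (B × ℝ)) (τ : ℝ ≃ₜ ℝ) : Pre (B × ℝ) :=
  W.push (Prod.map id τ) (loc_prod loc_id τ.isLocalHomeomorph)

/-- Affine changes of time. -/
noncomputable def aff (c d : ℝ) (hc : c ≠ 0) : ℝ ≃ₜ ℝ :=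
  (Homeomorph.mulLeft₀ c hc).trans (Homeomorph.addRight d)

lemma aff_apply (c d : ℝ) (hc : c ≠ 0) (t : ℝ) : aff c d hc t = c * t + d := rfl

lemma Agr.ret {U U' : Set ℝ} (h : Agr X.cyl W (Prod.snd ⁻¹' U)) (τ : ℝ ≃ₜ ℝ) (hU : IsOpen U')
    (hs : ∀ t, τ t ∈ U' → t ∈ U) : Agr X.cyl (W.ret τ) (Prod.snd ⁻¹' U') := by
  have o := hU.preimage (continuous_snd (X := B))
  refine (Agr.of_map (V := X.cyl.ret τ) (W := X.cyl) o (Prod.map id τ) (by fun_prop)
    (injective_id.prodMap τ.injective) (fun _ => rfl) (fun _ _ => rfl) fun w _ =>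
      (surjective_id.prodMap τ.surjective) w).symm.trans ?_
  exact h.push _ o (fun _ a => hs _ a) fun _ a => hs _ a

lemma Prp.ret (h : Prp W) (τ : ℝ ≃ₜ ℝ) : Prp (W.ret τ) := fun K hK =>
  h (τ ⁻¹' K) (τ.isCompact_preimage.2 hK)

lemma Bord.symm (h : Bord X Y) : Bord Y X := by
  obtain ⟨W, h1, h2, h3⟩ := h
  refine ⟨W.ret (aff (-1) 1 (by norm_num)), h1.ret _, h3.ret _ isOpen_Iio fun t ht => ?_,
    h2.ret _ isOpen_Ioi fun t ht => ?_⟩ <;>
  · simp only [aff_apply, mem_Iio, mem_Ioi] at ht ⊢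
    linarith

lemma Bord.trans [T2Space B] (h : Bord X Y) (h' : Bord Y Z) : Bord X Z := by
  obtain ⟨V, h1, h2, h3⟩ := h
  obtain ⟨W, h4, h5, h6⟩ := h'
  have o1 := fun a : ℝ => (isOpen_Iio (a := a)).preimage (continuous_snd (X := B))
  have o2 := fun a : ℝ => (isOpen_Ioi (a := a)).preimage (continuous_snd (X := B))
  have a1 := h5.ret (aff 1 2 one_ne_zero) (isOpen_Iio (a := 2)) fun t ht => by
    simp only [aff_apply, mem_Iio] at ht ⊢
    linarith
  have a2 := h6.ret (aff 1 2 one_ne_zero) (isOpen_Ioi (a := 3)) fun t ht => by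
    simp only [aff_apply, mem_Ioi] at ht ⊢
    linarith
  have a3 := h4.ret (aff 1 2 one_ne_zero)
  obtain ⟨T, b1, b2, -⟩ := glue (o1 2) (o2 1)
    ((h3.mono ((o1 2).inter (o2 1)) inter_subset_right).symm.trans
      (a1.mono ((o1 2).inter (o2 1)) inter_subset_left))
  have b3 : Prp T := fun K hK => by
    convert (b1.cpt (C := Prod.snd ⁻¹' (K ∩ Iic (3 / 2))) (fun z hz => ?_)
      (h1 _ (hK.inter_right isClosed_Iic))).union
      (b2.cpt (C := Prod.snd ⁻¹' (K ∩ Ici (3 / 2))) (fun z hz => ?_)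
        (a3 _ (hK.inter_right isClosed_Ici))) using 1
    · ext w
      simp only [mem_ofPred_eq, mem_preimage, mem_union, mem_inter_iff, mem_Iic, mem_Ici]
      have := le_total (T.π w).2 (3 / 2)
      tauto
    · exact (show z.2 ≤ 3 / 2 from hz.2).trans_lt (by norm_num)
    · exact (show (1 : ℝ) < 3 / 2 by norm_num).trans_le hz.2
  refine ⟨T.ret (aff (1 / 3) 0 (by norm_num)), b3.ret _,
    (h2.trans (b1.mono (o1 0) fun z hz => (show z.2 < 0 from hz).trans two_pos)).ret _ isOpen_Iio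
      fun t ht => ?_,
    (a2.trans (b2.mono (o2 3) fun z hz => (show (1 : ℝ) < 3 by norm_num).trans hz)).ret _ isOpen_Ioi
      fun t ht => ?_⟩ <;>
  · simp only [aff_apply, mem_Iio, mem_Ioi] at ht ⊢
    linarith

lemma cpt_sum {A A' : Type} [TopologicalSpace A] [TopologicalSpace A'] {S : Set (A ⊕ A')}
    (h : IsCompact (Sum.inl ⁻¹' S)) (h' : IsCompact (Sum.inr ⁻¹' S)) : IsCompact S := by
  rw [← image_preimage_inl_union_image_preimage_inr S]
  exact (h.image continuous_inl).union (h'.image continuous_inr)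

lemma Cpt.sum (h : Cpt X) (h' : Cpt Y) : Cpt (X.sum Y) := cpt_sum h h'

lemma cyl_sum {U : Set (B × ℝ)} (hU : IsOpen U) : Agr (X.sum Y).cyl (X.cyl.sum Y.cyl) U :=
  Agr.of_map (V := (X.sum Y).cyl) (W := X.cyl.sum Y.cyl) hU Homeomorph.sumProdDistrib
    (Homeomorph.continuous _) (Homeomorph.injective _) (by rintro ⟨a | a, t⟩ <;> rfl)
    (by rintro ⟨a | a, t⟩ - <;> rfl) fun w _ => Homeomorph.surjective _ w

lemma Bord.sum {X' Y' : Pre B} (h : Bord X X') (h' : Bord Y Y') : Bord (X.sum Y) (X'.sum Y') := by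
  obtain ⟨V, h1, h2, h3⟩ := h
  obtain ⟨W, h4, h5, h6⟩ := h'
  exact ⟨V.sum W, fun K hK => cpt_sum (h1 K hK) (h4 K hK),
    (cyl_sum (isOpen_Iio.preimage continuous_snd)).trans (h2.sum h5),
    (cyl_sum (isOpen_Ioi.preimage continuous_snd)).trans (h3.sum h6)⟩

/-- An open embedding followed by a homotopy. -/
theorem Bord.eh (i : X.F → Y.F) (hc : Continuous i) (hi : Injective i)
    (hπ : ∀ x, Y.π (i x) = X.π x) (Φ : Y.F × ℝ → ℂ) (hΦ : Continuous Φ)
    (h0 : ∀ x, Φ (i x, 0) = X.f x) (h1 : ∀ y, Φ (y, 1) = Y.f y)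
    (hz : ∀ y, Φ (y, 0) = 0 → ∃ x, i x = y) {C : Set Y.F} (hC : IsCompact C)
    (hK : ∀ y, ∀ t ∈ Icc (0 : ℝ) 1, Φ (y, t) = 0 → y ∈ C) : Bord X Y := by
  have hw := Real.smoothTransition.continuous
  let V := Y.fam (fun z => Φ (z.1, Real.smoothTransition z.2)) (by fun_prop)
  have hO : IsOpen {z : V.F | z.1 ∈ range i ∨ 0 < z.2} :=
    ((emb_of hc hi hπ).isOpen_range.preimage continuous_fst).union
      (isOpen_Ioi.preimage continuous_snd)
  refine ⟨V.res _ hO, fun K hK' => ?_, ?_, ?_⟩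
  · refine cpt_val (C := {z : V.F | V.f z = 0 ∧ z.2 ∈ K}) ?_ fun z hz' => ?_
    · exact (hC.prod hK').of_isClosed_subset ((isClosed_eq V.cf continuous_const).inter
        (hK'.isClosed.preimage continuous_snd)) fun z hz' =>
        ⟨hK _ _ ⟨Real.smoothTransition.nonneg _, Real.smoothTransition.le_one _⟩ hz'.1, hz'.2⟩
    · refine (le_or_gt z.2 0).imp_left fun h => hz _ ?_
      rw [← Real.smoothTransition.zero_of_nonpos h]
      exact hz'.1
  · refine Agr.of_map (V := X.cyl) (W := V.res _ hO) (isOpen_Iio.preimage continuous_snd)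
      (fun z => ⟨(i z.1, z.2), Or.inl ⟨_, rfl⟩⟩) (by fun_prop)
      (fun a b h => hi.prodMap injective_id (congrArg Subtype.val h))
      (fun z => Prod.ext (hπ _) rfl) (fun z hz' => ?_) ?_
    · change Φ (i z.1, Real.smoothTransition z.2) = _
      rw [Real.smoothTransition.zero_of_nonpos (x := z.2) (le_of_lt hz'), h0]
    · rintro ⟨⟨y, t⟩, ⟨x, h⟩ | h⟩ h'
      · exact ⟨(x, t), Subtype.ext (Prod.ext h rfl)⟩
      · exact absurd h (lt_asymm h')
  · refine (Agr.of_map (V := V.res _ hO) (W := Y.cyl) (isOpen_Ioi.preimage continuous_snd) (↑)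
      continuous_subtype_val Subtype.val_injective (fun _ => rfl) (fun z hz' => ?_)
      fun z hz' => ⟨⟨z, Or.inr (zero_lt_one.trans hz')⟩, rfl⟩).symm
    change _ = Φ (z.1.1, Real.smoothTransition z.1.2)
    rw [Real.smoothTransition.one_of_one_le (x := z.1.2) (le_of_lt hz'), h1]

lemma Bord.emb (hY : Cpt Y) (i : X.F → Y.F) (hc : Continuous i) (hi : Injective i)
    (hπ : ∀ x, Y.π (i x) = X.π x) (hf : ∀ x, Y.f (i x) = X.f x)
    (hz : ∀ y, Y.f y = 0 → ∃ x, i x = y) : Bord X Y :=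
  Bord.eh i hc hi hπ (fun z => Y.f z.1) (Y.cf.comp continuous_fst) hf (fun _ => rfl) hz hY
    fun _ _ _ h => h

lemma Bord.iso (hY : Cpt Y) (i : X.F ≃ₜ Y.F) (hπ : ∀ x, Y.π (i x) = X.π x)
    (hf : ∀ x, Y.f (i x) = X.f x) : Bord X Y :=
  Bord.emb hY i i.continuous i.injective hπ hf fun y _ => i.surjective y

/-- The empty object. -/
@[reducible] def Pre.emp (B : Type) [TopologicalSpace B] : Pre B where
  F := Empty
  π := Empty.elim
  loc x := x.elim
  f := Empty.elim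
  cf := continuous_of_discreteTopology

lemma cpt_emp : Cpt (Pre.emp B) := (toFinite _).isCompact

variable [T2Space B]

variable (B) in
/-- The bordism relation. -/
def bs : Setoid {X : Pre B // Cpt X} where
  r X Y := Bord X.1 Y.1
  iseqv := ⟨fun X => Bord.iso X.2 (.refl _) (fun _ => rfl) fun _ => rfl, Bord.symm, Bord.trans⟩

variable (B) in
/-- Bordism classes. -/
def Om : Type 1 := Quotient (bs B)

/-- The class of an object. -/
def cl (X : Pre B) (h : Cpt X) : Om B := Quotient.mk (bs B) ⟨X, h⟩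

lemma cl_eq {h : Cpt X} {h' : Cpt Y} : cl X h = cl Y h' ↔ Bord X Y := Quotient.eq

instance : Add (Om B) := ⟨Quotient.map₂ (sa := bs B) (sb := bs B) (sc := bs B)
  (fun X Y => ⟨X.1.sum Y.1, X.2.sum Y.2⟩) fun _ _ h _ _ h' => Bord.sum h h'⟩

instance : Zero (Om B) := ⟨cl (Pre.emp B) cpt_emp⟩

lemma cl_sum (h : Cpt X) (h' : Cpt Y) : cl (X.sum Y) (h.sum h') = cl X h + cl Y h' := rfl

lemma om_comm (a b : Om B) : a + b = b + a := by
  obtain ⟨X, h⟩ := a
  obtain ⟨Y, h'⟩ := b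
  exact (cl_eq (h := h.sum h') (h' := h'.sum h)).2 (Bord.iso (h'.sum h) (Homeomorph.sumComm _ _)
    (by rintro (a | a) <;> rfl) (by rintro (a | a) <;> rfl))

lemma om_zero (a : Om B) : a + 0 = a := by
  obtain ⟨X, h⟩ := a
  exact (cl_eq (h := h.sum cpt_emp) (h' := h)).2 (Bord.iso h (Homeomorph.sumEmpty _ _)
    (by rintro (a | a); exacts [rfl, a.elim]) (by rintro (a | a); exacts [rfl, a.elim]))

instance : AddCommMonoid (Om B) where
  add_assoc a b c := by
    obtain ⟨X, h⟩ := a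
    obtain ⟨Y, h'⟩ := b
    obtain ⟨Z, h''⟩ := c
    exact (cl_eq (h := (h.sum h').sum h'') (h' := h.sum (h'.sum h''))).2
      (Bord.iso (h.sum (h'.sum h'')) (Homeomorph.sumAssoc _ _ _)
        (by rintro ((a | a) | a) <;> rfl) (by rintro ((a | a) | a) <;> rfl))
  zero_add a := (om_comm _ _).trans (om_zero a)
  add_zero := om_zero
  add_comm := om_comm
  nsmul := nsmulRec

lemma cl_zero (h : Cpt X) (hz : ∀ x, X.f x ≠ 0) : cl X h = 0 :=
  (cl_eq.2 (Bord.emb (X := Pre.emp B) h Empty.elim continuous_of_discreteTopology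
    (fun a => a.elim) (fun a => a.elim) (fun a => a.elim) fun y hy => absurd hy (hz y))).symm

/-- The algebra of the classes `L a b c`. -/
theorem inv_alg {M C : Type*} [AddCommMonoid M] [AddCommGroup C] (L : C → C → C → M)
    (r1 : ∀ h g g' l, L h (g + g') l = L h g l + L h g' (l + g)) (r0 : ∀ h l, L h 0 l = 0)
    (tw : ∀ h g l, L h g (l + g) = L h g l) (rot : ∀ g h l, L g h l = L h (-g) l) :
    ∃ β : C →+ C →+ AddUnits M, (∀ a b, (β a b : M) = L a b 0 + L a b 0) ∧ (∀ a, β a a = 0) ∧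
      ∀ a b, β a b = -β b a := by
  have i1 : ∀ h g l, L h g l + L h (-g) l = 0 := fun h g l => by
    have := tw h (-g) (l + g)
    rw [add_neg_cancel_right] at this
    rw [this, ← r1, add_neg_cancel, r0]
  let N : C → C → C → AddUnits M := fun h g l =>
    ⟨L h g l, L h (-g) l, i1 h g l, (add_comm _ _).trans (i1 h g l)⟩
  have n1 : ∀ h g g' l, N h (g + g') l = N h g l + N h g' (l + g) := fun h g g' l =>
    AddUnits.ext (r1 h g g' l)
  have n2 : ∀ g h l, N g h l = -N h g l := fun g h l => AddUnits.ext (rot g h l)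
  have n3 : ∀ a b c, N a b c - N a b 0 = N a c b - N a c 0 := fun a b c => by
    have e1 := n1 a b c 0
    have e2 := n1 a c b 0
    rw [zero_add] at e1 e2
    rw [add_comm c b, e1] at e2
    rw [sub_eq_sub_iff_add_eq_add, add_comm, ← e2, add_comm]
  have n4 : ∀ a b c, N a b c - N a b 0 = -(N b a c - N b a 0) := fun a b c => by
    rw [n2 a b c, n2 a b 0]; abel
  have n5 : ∀ a b c, N a b c + N a b c = N a b 0 + N a b 0 := fun a b c => by
    have : N a b c - N a b 0 = -(N a b c - N a b 0) := by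
      conv_lhs => rw [n3, n4, n3, n4, n3, n4]
      rw [neg_neg]
    rw [← sub_eq_zero, ← add_eq_zero_iff_eq_neg.2 this]
    abel
  have n6 : ∀ a b c, N a (b + c) 0 + N a (b + c) 0 = N a b 0 + N a b 0 + (N a c 0 + N a c 0) :=
    fun a b c => by
      rw [n1, ← n5 a c (0 + b)]; abel
  have n7 : ∀ a b, N a b 0 + N a b 0 = -(N b a 0 + N b a 0) := fun a b => by
    rw [n2 a b]; abel
  refine ⟨AddMonoidHom.mk' (fun a => AddMonoidHom.mk' (fun b => N a b 0 + N a b 0) (n6 a))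
    fun a b => AddMonoidHom.ext fun c => ?_, fun a b => rfl, fun a => ?_, n7⟩
  · change N (a + b) c 0 + N (a + b) c 0 = N a c 0 + N a c 0 + (N b c 0 + N b c 0)
    rw [n7, n6, n7 a, n7 b, neg_add]
  · exact add_eq_zero_iff_eq_neg.2 (n2 a a 0)

end Pool.Agent.Lib.MP_029589_gt.Eb
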