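import Mathlib

/-! Explicit smooth sections of the degree one line bundle over the two-torus. -/

set_option autoImplicit false

open Set Filter Topology Real
open scoped ContDiff ComplexConjugate

namespace Pool.Agent.Lib.MP_029589_gt

/-- `exp (2 π i t)`. -/
noncomputable def ee (t : ℝ) : ℂ := Complex.exp (((2 * π * t : ℝ) : ℂ) * Complex.I)

lemma ee_add (s t : ℝ) : ee (s + t) = ee s * ee t := by
  simp only [ee, ← Complex.exp_add]; congr 1; push_cast; ring

@[simp] lemma ee_zero : ee 0 = 1 := by simp [ee]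

lemma ee_re (t : ℝ) : (ee t).re = cos (2 * π * t) := Complex.exp_ofReal_mul_I_re _

lemma ee_im (t : ℝ) : (ee t).im = sin (2 * π * t) := Complex.exp_ofReal_mul_I_im _

@[simp] lemma norm_ee (t : ℝ) : ‖ee t‖ = 1 := Complex.norm_exp_ofReal_mul_I _

lemma ee_ne (t : ℝ) : ee t ≠ 0 := Complex.exp_ne_zero _

@[simp] lemma ee_int (k : ℤ) : ee k = 1 := by
  have := Complex.exp_int_mul_two_pi_mul_I k
  rw [← this, ee]; congr 1; push_cast; ring

lemma ee_add_int (t : ℝ) (k : ℤ) : ee (t + k) = ee t := by rw [ee_add, ee_int, mul_one]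

lemma ee_congr {s t : ℝ} (k : ℤ) (h : s = t + k) : ee s = ee t := by rw [h, ee_add_int]

lemma ee_neg (t : ℝ) : ee (-t) = conj (ee t) := by
  simp only [ee, ← Complex.exp_conj, map_mul, Complex.conj_ofReal, Complex.conj_I]
  congr 1; push_cast; ring

lemma ee_neg_mul (t : ℝ) : ee (-t) * ee t = 1 := by rw [← ee_add]; simp

lemma ee_half : ee (1 / 2) = -1 := by
  rw [ee, ← Complex.exp_pi_mul_I]; congr 2; push_cast; ring

lemma ee_nat_mul (k : ℕ) (t : ℝ) : ee (k * t) = ee t ^ k := by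
  rw [ee, ee, ← Complex.exp_nat_mul]; congr 1; push_cast; ring

@[fun_prop] lemma contDiff_ee : ContDiff ℝ ∞ ee := by
  unfold ee
  exact Complex.contDiff_exp.comp
    ((Complex.ofRealCLM.contDiff.comp (contDiff_const.mul contDiff_id)).mul contDiff_const)

lemma hasDerivAt_ee (t : ℝ) : HasDerivAt ee (ee t * (2 * π * Complex.I)) t := by
  have h1 : HasDerivAt (fun t : ℝ => ((2 * π * t : ℝ) : ℂ) * Complex.I) (2 * π * Complex.I) t := by
    have := ((hasDerivAt_id t).const_mul (2 * π)).ofReal_comp.mul_const Complex.I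
    simpa using this
  exact h1.cexp

/-- The smooth transition function. -/
noncomputable abbrev st : ℝ → ℝ := Real.smoothTransition

lemma hasDerivAt_glue (x : ℝ) : HasDerivAt expNegInvGlue (x⁻¹ ^ 2 * expNegInvGlue x) x := by
  simpa using expNegInvGlue.hasDerivAt_polynomial_eval_inv_mul 1 x

lemma st_deriv {x : ℝ} (h0 : 0 < x) (h1 : x < 1) : ∃ d, 0 < d ∧ HasDerivAt st d x := by
  have a := hasDerivAt_glue x
  have b := (hasDerivAt_glue (1 - x)).comp x ((hasDerivAt_id x).const_sub 1)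
  have hp := smoothTransition.pos_denom x
  have p1 := expNegInvGlue.pos_of_pos h0
  have p2 := expNegInvGlue.pos_of_pos (sub_pos.2 h1)
  refine ⟨_, ?_, a.div (a.add b) hp.ne'⟩
  refine div_pos ?_ (pow_pos hp 2)
  show 0 < x⁻¹ ^ 2 * expNegInvGlue x * (expNegInvGlue x + expNegInvGlue (1 - x)) -
    expNegInvGlue x * (x⁻¹ ^ 2 * expNegInvGlue x + (1 - x)⁻¹ ^ 2 * expNegInvGlue (1 - x) * (-1))
  have h3 : 0 < x⁻¹ ^ 2 := by positivity
  have h4 : 0 < (1 - x)⁻¹ ^ 2 := pow_pos (inv_pos.2 (sub_pos.2 h1)) 2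
  nlinarith [mul_pos (mul_pos h3 p1) p2, mul_pos (mul_pos h4 p1) p2]

lemma st_half : st (1 / 2) = 1 / 2 := by
  have := expNegInvGlue.pos_of_pos (show (0 : ℝ) < 1 / 2 by norm_num)
  simp only [st, smoothTransition, show (1 : ℝ) - 1 / 2 = 1 / 2 by norm_num]
  field_simp
  norm_num

lemma st_strictMonoOn : StrictMonoOn st (Icc 0 1) := by
  refine strictMonoOn_of_deriv_pos (convex_Icc 0 1) smoothTransition.continuous.continuousOn ?_
  intro x hx
  rw [interior_Icc] at hx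
  obtain ⟨d, hd, h⟩ := st_deriv hx.1 hx.2
  rwa [h.deriv]

lemma st_mem {x : ℝ} (h0 : st x ≠ 0) (h1 : st x ≠ 1) : 0 < x ∧ x < 1 :=
  ⟨not_le.1 fun h => h0 (smoothTransition.zero_of_nonpos h),
    not_le.1 fun h => h1 (smoothTransition.one_of_one_le h)⟩

lemma st_eq_half {x : ℝ} (h : st x = 1 / 2) : x = 1 / 2 := by
  obtain ⟨h0, h1⟩ := st_mem (x := x) (by rw [h]; norm_num) (by rw [h]; norm_num)
  exact st_strictMonoOn.injOn ⟨h0.le, h1.le⟩ (by norm_num) (h.trans st_half.symm)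

/-- A quasi-periodic function built from two profiles. -/
noncomputable def sec (a b : ℝ → ℝ) (x : ℝ × ℝ) : ℂ :=
  ((a (Int.fract x.2) : ℂ) + b (Int.fract x.2) * ee (-x.1)) * ee (-x.1 * ⌊x.2⌋)

/-- Its smooth local form. -/
noncomputable def loc (a b : ℝ → ℝ) (k : ℤ) (x : ℝ × ℝ) : ℂ :=
  ((a (x.2 - k) : ℂ) + b (x.2 - k) * ee (-x.1)) * ee (-x.1 * k)

/-- The matching condition. -/
def Match (a b : ℝ → ℝ) : Prop :=
  ∀ t, -1 / 6 < t → t < 0 → a (t + 1) = 0 ∧ b t = 0 ∧ b (t + 1) = a t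

lemma sec_loc {a b : ℝ → ℝ} (h : Match a b) (x : ℝ × ℝ) : sec a b =ᶠ[𝓝 x] loc a b ⌊x.2⌋ := by
  have h1 : ∀ᶠ y : ℝ × ℝ in 𝓝 x, y.2 ∈ Ioo ((⌊x.2⌋ : ℝ) - 1 / 6) (⌊x.2⌋ + 1) :=
    continuous_snd.continuousAt.eventually (Ioo_mem_nhds (by linarith [Int.floor_le x.2])
      (Int.lt_floor_add_one x.2))
  filter_upwards [h1] with y hy
  set k := ⌊x.2⌋
  by_cases hk : (k : ℝ) ≤ y.2
  · have : ⌊y.2⌋ = k := Int.floor_eq_iff.2 ⟨hk, hy.2⟩
    simp only [sec, loc, Int.fract, this]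
  · push Not at hk
    have : ⌊y.2⌋ = k - 1 := Int.floor_eq_iff.2 ⟨by push_cast; linarith [hy.1], by push_cast; linarith⟩
    obtain ⟨e1, e2, e3⟩ := h (y.2 - k) (by linarith [hy.1]) (by linarith)
    have e4 : y.2 - ((k - 1 : ℤ) : ℝ) = y.2 - k + 1 := by push_cast; ring
    simp only [sec, loc, Int.fract, this, e4, e1, e2, e3]
    have e5 : ee (-y.1) * ee (-y.1 * ((k - 1 : ℤ) : ℝ)) = ee (-y.1 * k) := by
      rw [← ee_add]; congr 1; push_cast; ring
    simp only [Complex.ofReal_zero, zero_add, zero_mul, add_zero, mul_assoc, e5]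

lemma contDiff_real {f : ℝ → ℝ} (hf : ContDiff ℝ ∞ f) : ContDiff ℝ ∞ fun t => (f t : ℂ) :=
  Complex.ofRealCLM.contDiff.comp hf

lemma contDiff_sec {a b : ℝ → ℝ} (h : Match a b) (ha : ContDiff ℝ ∞ a) (hb : ContDiff ℝ ∞ b) :
    ContDiff ℝ ∞ (sec a b) := by
  refine contDiff_iff_contDiffAt.2 fun x => ContDiffAt.congr_of_eventuallyEq ?_ (sec_loc h x)
  refine ContDiff.contDiffAt ?_
  unfold loc
  have h1 := contDiff_real ha
  have h2 := contDiff_real hb
  refine ((h1.comp (by fun_prop)).add ((h2.comp (by fun_prop)).mul ?_)).mul ?_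
  · exact contDiff_ee.comp (by fun_prop)
  · exact contDiff_ee.comp (by fun_prop)

lemma sec_shift (a b : ℝ → ℝ) (x : ℝ × ℝ) (k l : ℤ) :
    sec a b (x.1 + k, x.2 + l) = ee (-(l * x.1)) * sec a b x := by
  simp only [sec, Int.fract_add_intCast, Int.floor_add_intCast]
  rw [ee_congr (s := -(x.1 + k)) (t := -x.1) (-k) (by push_cast; ring),
    ee_congr (s := -(x.1 + k) * _) (t := -(l * x.1) + -x.1 * ⌊x.2⌋) (-k * (⌊x.2⌋ + l))
      (by push_cast; ring), ee_add]
  ring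

/-- First profile. -/
noncomputable def lam (t : ℝ) : ℝ := st (3 * t - 1)

/-- Second profile. -/
noncomputable def chi (t : ℝ) : ℝ := st (6 * t - 1) * st (5 - 6 * t)

/-- The section with one simple zero. -/
noncomputable def s0 : ℝ × ℝ → ℂ := sec (fun t => 1 - lam t) lam

/-- The section which is a unit near the zero of `s0`. -/
noncomputable def s1 : ℝ × ℝ → ℂ := sec chi fun _ => 0

lemma lam_zero {t : ℝ} (h : t ≤ 1 / 3) : lam t = 0 :=
  smoothTransition.zero_of_nonpos (by linarith)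

lemma lam_one {t : ℝ} (h : 2 / 3 ≤ t) : lam t = 1 :=
  smoothTransition.one_of_one_le (by linarith)

lemma contDiff_lam : ContDiff ℝ ∞ lam := smoothTransition.contDiff.comp (by fun_prop)

lemma contDiff_chi : ContDiff ℝ ∞ chi :=
  (smoothTransition.contDiff.comp (by fun_prop)).mul (smoothTransition.contDiff.comp (by fun_prop))

lemma match0 : Match (fun t => 1 - lam t) lam := fun t h1 h2 => by
  simp [lam_zero (t := t) (by linarith), lam_one (t := t + 1) (by linarith)]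

lemma match1 : Match chi fun _ => 0 := fun t h1 h2 => by
  have a : st (5 - 6 * (t + 1)) = 0 := smoothTransition.zero_of_nonpos (by linarith)
  have b : st (6 * t - 1) = 0 := smoothTransition.zero_of_nonpos (by linarith)
  simp [chi, a, b]

@[fun_prop] lemma contDiff_s0 : ContDiff ℝ ∞ s0 :=
  contDiff_sec match0 (contDiff_const.sub contDiff_lam) contDiff_lam

@[fun_prop] lemma contDiff_s1 : ContDiff ℝ ∞ s1 :=
  contDiff_sec match1 contDiff_chi contDiff_const

lemma s0_shift (x : ℝ × ℝ) (k l : ℤ) : s0 (x.1 + k, x.2 + l) = ee (-(l * x.1)) * s0 x :=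
  sec_shift _ _ x k l

lemma s1_shift (x : ℝ × ℝ) (k l : ℤ) : s1 (x.1 + k, x.2 + l) = ee (-(l * x.1)) * s1 x :=
  sec_shift _ _ x k l

lemma norm_s1_le (x : ℝ × ℝ) : ‖s1 x‖ ≤ 1 := by
  have a := smoothTransition.nonneg (6 * Int.fract x.2 - 1)
  have b := smoothTransition.nonneg (5 - 6 * Int.fract x.2)
  have c := smoothTransition.le_one (6 * Int.fract x.2 - 1)
  have d := smoothTransition.le_one (5 - 6 * Int.fract x.2)
  simp only [s1, sec, chi, norm_mul, norm_ee, Complex.ofReal_zero, zero_mul, add_zero, mul_one,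
    Complex.norm_real, Real.norm_eq_abs]
  rw [abs_of_nonneg a, abs_of_nonneg b]
  nlinarith

lemma s1_int (p : ℝ) (l : ℤ) : s1 (p, l) = 0 := by
  have b : st (-1) = 0 := smoothTransition.zero_of_nonpos (by norm_num)
  simp [s1, sec, chi, b]

lemma norm_s0_sq (x : ℝ × ℝ) : ‖s0 x‖ ^ 2 =
    1 - 2 * (lam (Int.fract x.2) * (1 - lam (Int.fract x.2))) * (1 - cos (2 * π * x.1)) := by
  simp only [s0, sec, norm_mul, norm_ee, mul_one]
  rw [Complex.sq_norm, Complex.normSq_apply]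
  simp only [Complex.add_re, Complex.add_im, Complex.ofReal_re, Complex.ofReal_im, Complex.mul_re,
    Complex.mul_im, ee_re, ee_im, mul_neg, cos_neg, sin_neg]
  linear_combination (lam (Int.fract x.2)) ^ 2 * sin_sq_add_cos_sq (2 * π * x.1)

lemma lam_mul_nonneg (t : ℝ) : 0 ≤ lam t * (1 - lam t) :=
  mul_nonneg (smoothTransition.nonneg _) (sub_nonneg.2 (smoothTransition.le_one _))

lemma norm_s0_le (x : ℝ × ℝ) : ‖s0 x‖ ≤ 1 := by
  have h := norm_s0_sq x
  have h1 := mul_nonneg (lam_mul_nonneg (Int.fract x.2)) (sub_nonneg.2 (cos_le_one (2 * π * x.1)))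
  exact abs_le_one_iff_mul_self_le_one.2 (by nlinarith) |> le_of_abs_le

lemma norm_s0_fst (k : ℤ) (q : ℝ) : ‖s0 (k, q)‖ = 1 := by
  have h := norm_s0_sq (k, q)
  have : cos (2 * π * (k : ℝ)) = 1 := by rw [← ee_re, ee_int]; rfl
  simp only [this, sub_self, mul_zero, sub_zero] at h
  exact (sq_eq_sq₀ (norm_nonneg _) zero_le_one).1 (by rw [h]; norm_num)

lemma norm_s0_snd (p : ℝ) (l : ℤ) : ‖s0 (p, l)‖ = 1 := by
  have h := norm_s0_sq (p, l)
  simp only [Int.fract_intCast, lam_zero (t := 0) (by norm_num), zero_mul, mul_zero, sub_zero] at h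
  exact (sq_eq_sq₀ (norm_nonneg _) zero_le_one).1 (by rw [h]; norm_num)

lemma s0_half : s0 (1 / 2, 1 / 2) = 0 := by
  have h := norm_s0_sq (1 / 2, 1 / 2)
  have h1 : Int.fract (1 / 2 : ℝ) = 1 / 2 := Int.fract_eq_self.2 (by norm_num)
  have h2 : lam (1 / 2) = 1 / 2 := by
    rw [lam, show (3 : ℝ) * (1 / 2) - 1 = 1 / 2 by norm_num, st_half]
  have h3 : cos (2 * π * (1 / 2 : ℝ)) = -1 := by rw [← ee_re, ee_half]; rfl
  simp only [h1, h2, h3] at h
  norm_num at h
  exact h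

lemma s0_eq_zero {x : ℝ × ℝ} (h : s0 x = 0) :
    ∃ k l : ℤ, x.1 = k + 1 / 2 ∧ x.2 = l + 1 / 2 := by
  have h1 := norm_s0_sq x
  rw [h, norm_zero] at h1
  set L := lam (Int.fract x.2) with hL
  have h2 := neg_one_le_cos (2 * π * x.1)
  have h3 := lam_mul_nonneg (Int.fract x.2)
  rw [← hL] at h3
  have h4 : L = 1 / 2 := by nlinarith [sq_nonneg (L - 1 / 2)]
  have h5 : cos (2 * π * x.1) = -1 := by rw [h4] at h1; linarith
  obtain ⟨k, hk⟩ := cos_eq_neg_one_iff.1 h5
  refine ⟨k, ⌊x.2⌋, ?_, ?_⟩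
  · have : 2 * π * x.1 = 2 * π * (k + 1 / 2) := by rw [← hk]; ring
    exact mul_left_cancel₀ (by positivity) this
  · have := st_eq_half h4
    have h6 := Int.floor_add_fract x.2
    linarith

/-- The real linear map with columns `α`, `β`. -/
noncomputable def pair (α β : ℂ) : ℝ × ℝ →L[ℝ] ℂ :=
  (ContinuousLinearMap.fst ℝ ℝ ℝ).smulRight α + (ContinuousLinearMap.snd ℝ ℝ ℝ).smulRight β

@[simp] lemma pair_apply (α β : ℂ) (u : ℝ × ℝ) : pair α β u = u.1 * α + u.2 * β := by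
  simp [pair]

/-- Oriented area. -/
def area (α β : ℂ) : ℝ := α.re * β.im - α.im * β.re

lemma area_mul (c α β : ℂ) : area (c * α) (c * β) = Complex.normSq c * area α β := by
  simp only [area, Complex.mul_re, Complex.mul_im, Complex.normSq_apply]; ring

lemma pair_surj {α β : ℂ} (h : area α β ≠ 0) (c : ℂ) : ∃ u, pair α β u = c := by
  refine ⟨(area c β / area α β, area α c / area α β), ?_⟩
  apply Complex.ext
  · simp only [pair_apply, Complex.add_re, Complex.re_ofReal_mul]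
    field_simp
    simp only [area]; ring
  · simp only [pair_apply, Complex.add_im, Complex.im_ofReal_mul]
    field_simp
    simp only [area]; ring

lemma s0_small {x : ℝ × ℝ} (h : ‖s0 x‖ < 1) : ∃ (E τ : ℝ × ℝ → ℂ) (α β : ℂ), 0 < area α β ∧
    HasFDerivAt τ (pair α β) x ∧ DifferentiableAt ℝ E x ∧ E x ≠ 0 ∧
    s0 =ᶠ[𝓝 x] (fun y => E y * τ y) ∧ s1 =ᶠ[𝓝 x] E := by
  have h1 := norm_s0_sq x
  have h2 : ‖s0 x‖ ^ 2 < 1 := by nlinarith [norm_nonneg (s0 x)]
  have h3 : 0 < lam (Int.fract x.2) * (1 - lam (Int.fract x.2)) * (1 - cos (2 * π * x.1)) := by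
    linarith
  set k := ⌊x.2⌋ with hk
  have hf : Int.fract x.2 = x.2 - k := rfl
  rw [hf] at h3
  have h4 : lam (x.2 - k) ≠ 0 := by rintro h; simp [h] at h3
  have h5 : lam (x.2 - k) ≠ 1 := by rintro h; simp [h] at h3
  have h6 : 0 < 1 - cos (2 * π * x.1) :=
    (sub_nonneg.2 (cos_le_one _)).lt_of_ne' (by rintro h; simp [h] at h3)
  obtain ⟨h7, h8⟩ := st_mem h4 h5
  obtain ⟨d, hd, hd'⟩ := st_deriv h7 h8
  have hl : 0 < lam (x.2 - k) := smoothTransition.pos_of_pos h7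
  have d1 : HasFDerivAt (fun y : ℝ × ℝ => (lam (y.2 - k) : ℂ)) (pair 0 (3 * d)) x := by
    have a : HasDerivAt (fun t : ℝ => lam (t - k)) (d * 3) x.2 := by
      have := hd'.comp x.2 (h := fun t : ℝ => 3 * (t - k) - 1)
        ((((hasDerivAt_id x.2).sub_const (k : ℝ)).const_mul 3).sub_const 1)
      simpa [lam, Function.comp_def] using this
    have := a.ofReal_comp.hasFDerivAt.comp x (hasFDerivAt_snd (𝕜 := ℝ) (p := x))
    refine this.congr_fderiv ?_
    ext <;> simp [mul_comm]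
  have d2 : HasFDerivAt (fun y : ℝ × ℝ => ee (-y.1)) (pair (-(ee (-x.1) * (2 * π * Complex.I))) 0)
      x := by
    have := (hasDerivAt_ee (-x.1)).hasFDerivAt.comp x (hasFDerivAt_fst (𝕜 := ℝ) (p := x)).neg
    refine this.congr_fderiv ?_
    ext <;> simp
  refine ⟨fun y => ee (-y.1 * k), fun y => (1 - lam (y.2 - k) : ℝ) + lam (y.2 - k) * ee (-y.1),
    -(lam (x.2 - k) * (ee (-x.1) * (2 * π * Complex.I))), 3 * d * (ee (-x.1) - 1), ?_, ?_, ?_,
    ee_ne _, ?_, ?_⟩
  · have e : area (-(lam (x.2 - k) * (ee (-x.1) * (2 * π * Complex.I)))) (3 * d * (ee (-x.1) - 1)) =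
        6 * π * d * lam (x.2 - k) * (1 - cos (2 * π * x.1)) := by
      simp only [area, Complex.neg_re, Complex.neg_im, Complex.mul_re, Complex.mul_im,
        Complex.ofReal_re, Complex.ofReal_im, Complex.I_re, Complex.I_im, Complex.sub_re,
        Complex.sub_im, Complex.one_re, Complex.one_im, ee_re, ee_im, mul_neg, cos_neg, sin_neg,
        Complex.re_ofNat, Complex.im_ofNat]
      linear_combination (6 * π * d * lam (x.2 - k)) * sin_sq_add_cos_sq (2 * π * x.1)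
    rw [e]
    positivity
  · have := (d1.const_sub 1).add (d1.mul d2)
    refine (this.congr_fderiv ?_).congr_of_eventuallyEq (Eventually.of_forall fun y => by simp)
    ext
    · simp
    · simp; ring
  · exact (contDiff_ee.differentiable (by simp) _).comp x (by fun_prop)
  · filter_upwards [sec_loc match0 x] with y hy
    rw [s0, hy, loc, mul_comm]
  · have h9 : ∀ᶠ y : ℝ × ℝ in 𝓝 x, y.2 ∈ Ioo ((k : ℝ) + 1 / 3) (k + 2 / 3) :=
      continuous_snd.continuousAt.eventually (Ioo_mem_nhds (by linarith) (by linarith))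
    filter_upwards [sec_loc match1 x, h9] with y hy hy'
    have a : st (6 * (y.2 - k) - 1) = 1 := smoothTransition.one_of_one_le (by linarith [hy'.1])
    have b : st (5 - 6 * (y.2 - k)) = 1 := smoothTransition.one_of_one_le (by linarith [hy'.2])
    rw [s1, hy, loc, chi, a, b]
    simp [hk]

lemma s1_ne {x : ℝ × ℝ} (h : s0 x = 0) : s1 x ≠ 0 := by
  obtain ⟨E, τ, α, β, -, -, -, h1, -, h2⟩ := s0_small (x := x) (by simp [h])
  rwa [h2.self_of_nhds]

/-- A simple zero of index one. -/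
def PosAt (f : ℝ × ℝ → ℂ) (x : ℝ × ℝ) : Prop :=
  f x = 0 ∧ ∃ α β, 0 < area α β ∧ HasFDerivAt f (pair α β) x

lemma PosAt.mul {f g : ℝ × ℝ → ℂ} {x : ℝ × ℝ} (h : PosAt f x) (hg : DifferentiableAt ℝ g x)
    (h0 : g x ≠ 0) : PosAt (fun y => g y * f y) x := by
  obtain ⟨h1, α, β, h2, h3⟩ := h
  refine ⟨by simp [h1], g x * α, g x * β, ?_, (hg.hasFDerivAt.mul h3).congr_fderiv ?_⟩
  · rw [area_mul]; exact mul_pos (Complex.normSq_pos.2 h0) h2
  · ext <;> simp [h1]

lemma PosAt.comp {f : ℝ × ℝ → ℂ} {x : ℝ × ℝ} {a : ℝ} (ha : 0 < a) (b c : ℝ)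
    (h : PosAt f (a * x.1 + b, x.2 + c)) : PosAt (fun y => f (a * y.1 + b, y.2 + c)) x := by
  obtain ⟨h1, α, β, h2, h3⟩ := h
  have d : HasFDerivAt (fun y : ℝ × ℝ => (a * y.1 + b, y.2 + c)) _ x :=
    (((hasFDerivAt_fst (𝕜 := ℝ) (p := x)).const_mul a).add_const b).prodMk
      ((hasFDerivAt_snd (𝕜 := ℝ) (p := x)).add_const c)
  refine ⟨h1, a * α, β, ?_, (h3.comp x d).congr_fderiv ?_⟩
  · have : area (a * α) β = a * area α β := by
      simp only [area, Complex.re_ofReal_mul, Complex.im_ofReal_mul]; ring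
    rw [this]; positivity
  · ext <;> simp

lemma posAt_s0 {x : ℝ × ℝ} (h : s0 x = 0) : PosAt s0 x := by
  obtain ⟨E, τ, α, β, h1, h2, h3, h4, h5, -⟩ := s0_small (x := x) (by simp [h])
  have h6 : τ x = 0 := by
    have := h5.self_of_nhds
    rw [h] at this
    exact (mul_eq_zero.1 this.symm).resolve_left h4
  obtain ⟨-, α', β', h7, h8⟩ := PosAt.mul ⟨h6, α, β, h1, h2⟩ h3 h4
  exact ⟨h, α', β', h7, h8.congr_of_eventuallyEq h5⟩

end Pool.Agent.Lib.MP_029589_gt
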