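import Pool.Agent.Lib.MP_029589_gt.EbdB
import Pool.Agent.Lib.MP_029589_gt.Sec

/-! The classes of pairs of circle valued maps and their relations. -/

set_option autoImplicit false

open scoped Topology
open Set Filter Function Topology Complex

namespace Pool.Agent.Lib.MP_029589_gt.Eb

/-- The circle. -/
abbrev S1 := AddCircle (1 : ℝ)

/-- The exponential on the circle. -/
noncomputable def ec (x : S1) : ℂ := AddCircle.toCircle x

lemma ec_coe (t : ℝ) : ec t = ee t := by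
  rw [ec, AddCircle.toCircle_apply_mk, Circle.coe_exp, ee, div_one]

lemma ec_add (x y : S1) : ec (x + y) = ec x * ec y := by
  rw [ec, AddCircle.toCircle_add, Circle.coe_mul]; rfl

lemma norm_ec (x : S1) : ‖ec x‖ = 1 := Circle.norm_coe _

lemma ec_ne (x : S1) : ec x ≠ 0 := Circle.coe_ne_zero _

lemma ec_zero : ec 0 = 1 := by rw [ec, AddCircle.toCircle_zero]; rfl

@[fun_prop] lemma continuous_ec : Continuous ec :=
  continuous_subtype_val.comp AddCircle.continuous_toCircle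

lemma ec_inj : Injective ec := fun _ _ h =>
  AddCircle.injective_toCircle one_ne_zero (Subtype.ext h)

@[fun_prop] lemma continuous_ee : Continuous ee := contDiff_ee.continuous

lemma loc1 : IsLocalHomeomorph ((↑) : ℝ → S1) := AddCircle.isLocalHomeomorph_coe 1

/-- The covering of the two-torus. -/
def p2 (z : ℂ) : S1 × S1 := (z.re, z.im)

lemma loc2 : IsLocalHomeomorph p2 :=
  (loc_prod loc1 loc1).comp equivRealProdCLM.toHomeomorph.isLocalHomeomorph

lemma coe_inj {s t : ℝ} (h : (s : S1) = t) (h' : |s - t| < 1) : s = t := by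
  obtain ⟨n, hn⟩ := (AddCircle.coe_eq_zero_iff 1).1 (show ((s - t : ℝ) : S1) = 0 by
    rw [AddCircle.coe_sub, h, sub_self])
  rw [← hn, zsmul_one, ← Int.cast_abs, ← Int.cast_one, Int.cast_lt, Int.abs_lt_one_iff] at h'
  rw [h', zero_smul] at hn
  linarith

/-- The step function. -/
noncomputable def st (u : ℝ) : ℂ := Real.smoothTransition u

@[fun_prop] lemma continuous_st : Continuous st :=
  continuous_ofReal.comp Real.smoothTransition.continuous

lemma st_zero {u : ℝ} (h : u ≤ 0) : st u = 0 := by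
  rw [st, Real.smoothTransition.zero_of_nonpos h, ofReal_zero]

lemma st_one {u : ℝ} (h : 1 ≤ u) : st u = 1 := by
  rw [st, Real.smoothTransition.one_of_one_le h, ofReal_one]

lemma st_mid {u : ℝ} {x : S1} (h : 1 - st u + st u * ec x = 0) :
    u ∈ Ioo (0 : ℝ) 1 ∧ x = (1 / 2 : ℝ) := by
  refine ⟨⟨not_le.1 fun a => ?_, not_le.1 fun a => ?_⟩, ec_inj ?_⟩
  · simp [st_zero a] at h
  · simp [st_one a, ec_ne] at h
  have h0 := Real.smoothTransition.nonneg u
  have h1 := Real.smoothTransition.le_one u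
  rw [st] at h
  set r := Real.smoothTransition u
  have h2 : (r : ℂ) * ec x = -((1 - r : ℝ) : ℂ) := by push_cast; linear_combination h
  have h3 := congrArg norm h2
  rw [norm_mul, norm_ec, norm_neg, norm_real, norm_real, Real.norm_of_nonneg h0,
    Real.norm_of_nonneg (by linarith)] at h3
  rw [show r = 1 / 2 by linarith] at h
  rw [ec_coe, ee_half]
  push_cast at h
  linear_combination 2 * h

variable {B : Type} [TopologicalSpace B] [T2Space B]

section Pb

variable {T E T' E' : Type} [TopologicalSpace T] [TopologicalSpace E]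
  [T2Space E] [TopologicalSpace T'] [TopologicalSpace E'] [T2Space E']

/-- Pull-backs of open parts of local homeomorphisms. -/
@[reducible] def pb {p : E → T} (hp : IsLocalHomeomorph p) (γ : C(B, T)) {U : Set E} (hU : IsOpen U)
    (φ : B × E → ℂ) (hφ : Continuous φ) : Pre B where
  F := {z : B × E // γ z.1 = p z.2 ∧ z.2 ∈ U}
  π z := z.1.1
  loc := (pb_loc γ.continuous hp).comp (IsOpenEmbedding.inclusion
    (s := {z : B × E | γ z.1 = p z.2 ∧ z.2 ∈ U}) (t := {z : B × E | γ z.1 = p z.2})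
    (fun _ h => h.1) (by
      rw [show (↑) ⁻¹' {z : B × E | γ z.1 = p z.2 ∧ z.2 ∈ U} = (fun z : {z : B × E | γ z.1 = p z.2} =>
        z.1.2) ⁻¹' U from Set.ext fun z => and_iff_right z.2]
      exact hU.preimage (by fun_prop))).isLocalHomeomorph
  f z := φ z.1
  cf := hφ.comp continuous_subtype_val

variable [CompactSpace B] [T2Space T] [T2Space T'] {p : E → T} {hp : IsLocalHomeomorph p}
  {γ : C(B, T)} {U : Set E} {hU : IsOpen U} {φ : B × E → ℂ} {hφ : Continuous φ}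

lemma pb_cpt {K : Set E} (hK : IsCompact K) (hs : K ⊆ U) :
    IsCompact {z : (pb hp γ hU φ hφ).F | z.1.2 ∈ K} := by
  rw [show {z : (pb hp γ hU φ hφ).F | z.1.2 ∈ K} =
      (↑) ⁻¹' (univ ×ˢ K ∩ {z : B × E | γ z.1 = p z.2}) from
    Set.ext fun z => ⟨fun h => ⟨⟨trivial, h⟩, z.2.1⟩, fun h => h.1.2⟩]
  exact cpt_val (O := {z : B × E | γ z.1 = p z.2 ∧ z.2 ∈ U}) ((isCompact_univ.prod hK).inter_right
    (isClosed_eq (by fun_prop) (hp.continuous.comp continuous_snd))) fun z hz => ⟨hz.2, hs hz.1.2⟩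

lemma pb_Cpt {K : Set E} (hK : IsCompact K) (hs : K ⊆ U)
    (h : ∀ b e, γ b = p e → φ (b, e) = 0 → e ∈ K) : Cpt (pb hp γ hU φ hφ) :=
  (pb_cpt hK hs).of_isClosed_subset (isClosed_eq (pb hp γ hU φ hφ).cf continuous_const)
    fun z hz => h _ _ z.2.1 hz

omit [T2Space T] in
theorem pb_eh {p' : E' → T'} {hp' : IsLocalHomeomorph p'} {γ' : C(B, T')} {U' : Set E'}
    {hU' : IsOpen U'} {φ' : B × E' → ℂ} {hφ' : Continuous φ'} (m : E → E') (hm : Continuous m)
    (h1 : ∀ b e, γ b = p e → e ∈ U → γ' b = p' (m e) ∧ m e ∈ U')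
    (h2 : ∀ e e', p e = p e' → e ∈ U → e' ∈ U → m e = m e' → e = e')
    (Φ : (B × E') × ℝ → ℂ) (hΦ : Continuous Φ)
    (h3 : ∀ b e, γ b = p e → Φ ((b, m e), 0) = φ (b, e))
    (h4 : ∀ b e, γ' b = p' e → Φ ((b, e), 1) = φ' (b, e))
    (h5 : ∀ b e', γ' b = p' e' → e' ∈ U' → Φ ((b, e'), 0) = 0 → ∃ e, γ b = p e ∧ e ∈ U ∧ m e = e')
    {K : Set E'} (hK : IsCompact K) (hs : K ⊆ U')
    (h6 : ∀ b e, e ∈ U' → ∀ t ∈ Icc (0 : ℝ) 1, Φ ((b, e), t) = 0 → e ∈ K) :
    Bord (pb hp γ hU φ hφ) (pb hp' γ' hU' φ' hφ') := by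
  refine Bord.eh (fun z => ⟨(z.1.1, m z.1.2), h1 _ _ z.2.1 z.2.2⟩) (by fun_prop) (fun a b h => ?_)
    (fun _ => rfl) (fun z => Φ (z.1.1, z.2)) (by fun_prop) (fun z => h3 _ _ z.2.1)
    (fun z => h4 _ _ z.2.1) (fun z hz => ?_) (pb_cpt hK hs) fun z t ht => h6 _ _ z.2.2 t ht
  · obtain ⟨e1, e2⟩ := Prod.ext_iff.1 (congrArg Subtype.val h)
    exact Subtype.ext (Prod.ext e1
      (h2 _ _ (a.2.1.symm.trans ((congrArg γ e1).trans b.2.1)) a.2.2 b.2.2 e2))
  · obtain ⟨e, a, b, c⟩ := h5 _ _ z.2.1 z.2.2 hz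
    exact ⟨⟨(z.1.1, e), a, b⟩, Subtype.ext (Prod.ext rfl c)⟩

end Pb

variable (g g' h l : C(B, S1))

/-- The linear object. -/
@[reducible] noncomputable def Lo : Pre B :=
  pb loc2 (g.prodMk h) isOpen_univ (fun z => ec (l z.1) * z.2) (by fun_prop)

/-- The object with one family of sheets. -/
@[reducible] noncomputable def So : Pre B :=
  pb loc1 h (isOpen_Ioo (a := -1 / 2) (b := 3 / 2))
    (fun z => ec (l z.1) * (1 - st z.2 + st z.2 * ec (g z.1))) (by fun_prop)

/-- The object with two groups of zeros. -/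
@[reducible] noncomputable def Qo : Pre B :=
  pb loc1 h isOpen_univ (fun z => ec (l z.1) * (1 - st z.2 + (st z.2 - st (z.2 - 2)) * ec (g z.1) +
    st (z.2 - 2) * ec (g z.1 + g' z.1))) (by fun_prop)

variable [CompactSpace B]

lemma Lo_cpt : Cpt (Lo g h l) :=
  pb_Cpt isCompact_singleton (subset_univ {0}) fun _ _ _ hz => by simpa [ec_ne] using hz

lemma So_cpt : Cpt (So g h l) :=
  pb_Cpt isCompact_Icc (Icc_subset_Ioo (show (-1 / 2 : ℝ) < 0 by norm_num)
    (show (1 : ℝ) < 3 / 2 by norm_num)) fun _ _ _ hz =>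
      Ioo_subset_Icc_self (st_mid ((mul_eq_zero.1 hz).resolve_left (ec_ne _))).1

lemma half_zero {u s t : ℝ} (hs : s ∈ Ioo (0 : ℝ) 1) (ht : t ∈ Icc (0 : ℝ) 1)
    (hz : (1 - t : ℂ) * (1 - st u + st u * ee s) - t * (u + s * I - (1 + I) / 2) = 0) :
    u ∈ Icc (0 : ℝ) 1 ∧ s = 1 / 2 := by
  have h0 := Real.smoothTransition.nonneg u
  have h1 := congrArg re hz
  have h2 := congrArg im hz
  simp [st, ee_re, ee_im, -ofReal_sin, -ofReal_cos] at h1 h2
  have h3 := mul_nonneg (sub_nonneg.2 ht.2) h0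
  have h4 : s = 1 / 2 := by
    by_contra hn
    have : t = 0 ∧ Real.sin (2 * Real.pi * s) ≠ 0 := by
      rcases lt_or_gt_of_ne hn with a | a
      · have := Real.sin_pos_of_pos_of_lt_pi (x := 2 * Real.pi * s)
          (by have := hs.1; positivity) (by nlinarith [Real.pi_pos])
        exact ⟨by nlinarith [mul_nonneg h3 this.le, ht.1], this.ne'⟩
      · have := Real.sin_pos_of_pos_of_lt_pi (x := 2 * Real.pi * s - Real.pi)
          (by nlinarith [Real.pi_pos]) (by nlinarith [Real.pi_pos, hs.2])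
        rw [Real.sin_sub_pi] at this
        exact ⟨by nlinarith [mul_nonneg h3 this.le, ht.1], by linarith⟩
    obtain ⟨rfl, a⟩ := this
    simp [a] at h2
    simp [Real.smoothTransition.zero_of_nonpos h2] at h1
  subst h4
  rw [show 2 * Real.pi * (1 / 2) = Real.pi by ring, Real.cos_pi] at h1
  refine ⟨⟨not_lt.1 fun a => ?_, not_lt.1 fun a => ?_⟩, rfl⟩
  · rw [Real.smoothTransition.zero_of_nonpos a.le] at h1
    nlinarith [ht.1, ht.2]
  · rw [Real.smoothTransition.one_of_one_le a.le] at h1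
    nlinarith [ht.1, ht.2]

theorem So_Lo : Bord (So g h l) (Lo h g l) := by
  have o : IsOpen (Ioo (-1 / 2 : ℝ) (3 / 2) ×ℂ Ioo (0 : ℝ) 1) := isOpen_Ioo.reProdIm isOpen_Ioo
  have a1 : Bord (pb loc2 (h.prodMk g) o (fun z => ec (l z.1) * (1 - st z.2.re + st z.2.re *
      ee z.2.im)) (by fun_prop)) (So g h l) := by
    refine pb_eh re continuous_re (fun b e h1 h2 => ⟨congrArg Prod.fst h1, h2.1⟩)
      (fun e e' h1 h2 h3 h4 => Complex.ext h4 (coe_inj (congrArg Prod.snd h1) ?_))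
      (fun z => ec (l z.1.1) * (1 - st z.1.2 + st z.1.2 * ec (g z.1.1))) (by fun_prop)
      (fun b e h1 => ?_) (fun _ _ _ => rfl) (fun b u h1 h2 h3 => ?_) isCompact_Icc
      (Icc_subset_Ioo (show (-1 / 2 : ℝ) < 0 by norm_num) (show (1 : ℝ) < 3 / 2 by norm_num))
      fun _ _ _ _ _ hz => Ioo_subset_Icc_self (st_mid ((mul_eq_zero.1 hz).resolve_left (ec_ne _))).1
    · rw [abs_lt]
      constructor <;> linarith [h2.2.1, h2.2.2, h3.2.1, h3.2.2]
    · simp only [show g b = e.im from congrArg Prod.snd h1, ec_coe]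
    · exact ⟨⟨u, 1 / 2⟩, Prod.ext h1 (st_mid ((mul_eq_zero.1 h3).resolve_left (ec_ne _))).2,
        ⟨h2, by norm_num, by norm_num⟩, rfl⟩
  have a2 : Bord (pb loc2 (h.prodMk g) o (fun z => ec (l z.1) * (1 - st z.2.re + st z.2.re *
      ee z.2.im)) (by fun_prop)) (pb loc2 (h.prodMk g) o
        (fun z => ec (l z.1) * -(z.2 - (1 + I) / 2)) (by fun_prop)) := by
    refine pb_eh id continuous_id (fun b e h1 h2 => ⟨h1, h2⟩) (fun _ _ _ _ _ h4 => h4)
      (fun z => ec (l z.1.1) * ((1 - z.2) * (1 - st z.1.2.re + st z.1.2.re * ee z.1.2.im) -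
        z.2 * (z.1.2 - (1 + I) / 2))) (by fun_prop) (fun b e _ => by simp) (fun b e _ => by simp)
      (fun b e h1 h2 _ => ⟨e, h1, h2, rfl⟩)
      (isCompact_Icc.reProdIm (isCompact_singleton (x := (1 / 2 : ℝ)))) (fun z hz => ?_)
      fun b e h1 t ht hz => half_zero h1.2 ht ?_
    · exact ⟨Icc_subset_Ioo (by norm_num) (by norm_num) hz.1, by
        rw [mem_preimage, show z.im = 1 / 2 from hz.2]; norm_num⟩
    · rw [re_add_im]
      exact (mul_eq_zero.1 hz).resolve_left (ec_ne _)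
  have a3 : Bord (pb loc2 (h.prodMk g) o (fun z => ec (l z.1) * -(z.2 - (1 + I) / 2)) (by fun_prop))
      (Lo h g l) := by
    refine pb_eh id continuous_id (fun b e h1 h2 => ⟨h1, trivial⟩) (fun _ _ _ _ _ h4 => h4)
      (fun z => ec (l z.1.1) * (-ee (z.2 / 2) * (z.1.2 - (1 - z.2) * ((1 + I) / 2)))) (by fun_prop)
      (fun b e _ => by simp) (fun b e _ => by simp only [ee_half]; simp)
      (fun b e h1 _ h3 => ⟨e, h1, ?_, rfl⟩)
      (isCompact_Icc.image (show Continuous fun t : ℝ => (1 - t : ℂ) * ((1 + I) / 2) by fun_prop))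
      (subset_univ _) fun b e _ t ht hz => ⟨t, ht, ?_⟩
    · have : (1 + I) / 2 = e := by simpa [ec_ne, sub_eq_zero] using h3
      rw [← this, mem_reProdIm]
      norm_num
    · symm
      simpa [ec_ne, ee_ne, sub_eq_zero] using hz
  exact a1.symm.trans (a2.trans a3)

theorem So_Qo : Bord (So (g + g') h l) (Qo g g' h l) := by
  refine pb_eh id continuous_id (fun b e h1 h2 => ⟨h1, trivial⟩) (fun _ _ _ _ _ h4 => h4)
    (fun z => ec (l z.1.1) * (1 - st z.1.2 + (st z.1.2 - st (z.1.2 - 2 * z.2)) * ec (g z.1.1) +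
      st (z.1.2 - 2 * z.2) * ec (g z.1.1 + g' z.1.1))) (by fun_prop)
    (fun b e _ => by simp) (fun b e _ => by simp) (fun b e h1 _ h3 => ⟨e, h1, ?_, rfl⟩)
    (isCompact_Icc (a := 0) (b := 3)) (subset_univ _) fun b e _ t ht hz =>
      ⟨not_lt.1 fun a => ?_, not_lt.1 fun a => ?_⟩
  · refine Ioo_subset_Ioo (by norm_num) (by norm_num) (st_mid (x := g b + g' b) ?_).1
    simpa [ec_ne] using h3
  · simp [st_zero a.le, st_zero (show e - 2 * t ≤ 0 by linarith [ht.1]), ec_ne] at hz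
  · simp [st_one (show 1 ≤ e by linarith), st_one (show 1 ≤ e - 2 * t by linarith [ht.2]),
      ec_ne] at hz

lemma coe_two (u : ℝ) : ((u + 2 : ℝ) : S1) = u := by
  rw [← one_add_one_eq_two, ← add_assoc, AddCircle.coe_add_period, AddCircle.coe_add_period]

theorem sum_Qo : Bord ((So g h l).sum (So g' h (l + g))) (Qo g g' h l) := by
  have e1 : ∀ b u, u ≤ 2 → ec (l b) * (1 - st u + (st u - st (u - 2)) * ec (g b) +
      st (u - 2) * ec (g b + g' b)) = ec (l b) * (1 - st u + st u * ec (g b)) := fun b u hu => by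
    simp [st_zero (sub_nonpos.2 hu)]
  have e2 : ∀ b u, -1 ≤ u → ec (l b) * (1 - st (u + 2) + (st (u + 2) - st (u + 2 - 2)) * ec (g b) +
      st (u + 2 - 2) * ec (g b + g' b)) = ec (l b + g b) * (1 - st u + st u * ec (g' b)) :=
    fun b u hu => by
      simp only [st_one (show 1 ≤ u + 2 by linarith), add_sub_cancel_right, ec_add]
      ring
  refine Bord.emb (pb_Cpt (isCompact_Icc (a := 0) (b := 3)) (subset_univ _) fun b e _ hz =>
      ⟨not_lt.1 fun a => ?_, not_lt.1 fun a => ?_⟩)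
    (Sum.elim (fun z => ⟨z.1, z.2.1, trivial⟩)
      fun z => ⟨(z.1.1, z.1.2 + 2), z.2.1.trans (coe_two _).symm, trivial⟩)
    (Continuous.sumElim (by fun_prop) (by fun_prop)) ?_ (by rintro (z | z) <;> rfl) ?_ ?_
  · simp [st_zero a.le, st_zero (show e - 2 ≤ 0 by linarith), ec_ne] at hz
  · simp [st_one (show 1 ≤ e by linarith), st_one (show 1 ≤ e - 2 by linarith), ec_ne] at hz
  · rintro (a | a) (b | b) hab <;> obtain ⟨h1, h2⟩ := Prod.ext_iff.1 (congrArg Subtype.val hab)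
    · exact congrArg _ (Subtype.ext (Prod.ext h1 h2))
    · exact absurd (show a.1.2 = b.1.2 + 2 from h2) (by linarith [a.2.2.2, b.2.2.1])
    · exact absurd (show a.1.2 + 2 = b.1.2 from h2) (by linarith [b.2.2.2, a.2.2.1])
    · exact congrArg _ (Subtype.ext (Prod.ext h1 (add_right_cancel h2)))
  · rintro (a | a)
    · exact e1 a.1.1 a.1.2 (by linarith [a.2.2.2])
    · exact e2 a.1.1 a.1.2 (by linarith [a.2.2.1])
  · rintro ⟨⟨b, u⟩, h1, h0⟩ hz
    rcases le_total u 2 with a | a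
    · have := (st_mid ((mul_eq_zero.1 ((e1 b u a).symm.trans hz)).resolve_left (ec_ne _))).1
      exact ⟨.inl ⟨(b, u), h1, Ioo_subset_Ioo (by norm_num) (by norm_num) this⟩, rfl⟩
    · obtain ⟨v, rfl⟩ : ∃ v, u = v + 2 := ⟨u - 2, by ring⟩
      have := (st_mid ((mul_eq_zero.1 ((e2 b v (by linarith)).symm.trans hz)).resolve_left
        (ec_ne _))).1
      exact ⟨.inr ⟨(b, v), h1.trans (coe_two v), Ioo_subset_Ioo (by norm_num) (by norm_num) this⟩,
        rfl⟩

theorem Lo_tw : Bord (Lo h g l) (Lo h g (l + g)) :=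
  pb_eh id continuous_id (fun b e h1 h2 => ⟨h1, trivial⟩) (fun _ _ _ _ _ h4 => h4)
    (fun z => ec (l z.1.1) * ee (z.2 * z.1.2.im) * z.1.2) (by fun_prop)
    (fun b e _ => by simp) (fun b e h1 => by
      simp [ec_add, show g b = e.im from congrArg Prod.snd h1, ec_coe])
    (fun b e h1 _ _ => ⟨e, h1, trivial, rfl⟩) isCompact_singleton (subset_univ {0})
    fun b e _ t ht hz => by simpa [ec_ne, ee_ne] using hz

theorem Lo_rot : Bord (Lo g h l) (Lo h (-g) l) := by
  refine pb_eh (fun z => -I * z) (by fun_prop) (fun b e h1 h2 => ⟨?_, trivial⟩)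
    (fun _ _ _ _ _ h4 => mul_left_cancel₀ (neg_ne_zero.2 I_ne_zero) h4)
    (fun z => ec (l z.1.1) * (((1 - z.2) * I + z.2) * z.1.2)) (by fun_prop)
    (fun b e _ => by simp [← mul_assoc]) (fun b e h1 => by simp)
    (fun b e h1 _ _ => ⟨I * e, ?_, trivial, by simp [← mul_assoc]⟩) isCompact_singleton
    (subset_univ {0}) fun b e _ t ht hz => ?_
  · obtain ⟨a, b⟩ := Prod.ext_iff.1 h1
    simp [p2] at a b ⊢
    simp [a, b]
  · obtain ⟨a, b⟩ := Prod.ext_iff.1 h1
    simp [p2] at a b ⊢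
    simp [a, ← b]
  · refine (mul_eq_zero.1 ((mul_eq_zero.1 hz).resolve_left (ec_ne _))).resolve_left fun a => ?_
    have h1 := congrArg re a
    have h2 := congrArg im a
    simp at h1 h2
    linarith

/-- The class of the linear object. -/
noncomputable def Lc : Om B := cl (Lo g h l) (Lo_cpt g h l)

lemma Lc_eq : Lc h g l = cl (So g h l) (So_cpt g h l) := (cl_eq.2 (So_Lo g h l)).symm

theorem exists_beta : ∃ β : C(B, S1) →+ C(B, S1) →+ AddUnits (Om B),
    (∀ a b, (β a b : Om B) = Lc a b 0 + Lc a b 0) ∧ (∀ a, β a a = 0) ∧ ∀ a b, β a b = -β b a := by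
  refine inv_alg (fun a b c => Lc a b c) (fun h g g' l => ?_) (fun h l => ?_) (fun h g l => ?_) fun g h l => ?_
  · rw [Lc_eq, Lc_eq, Lc_eq, ← cl_sum]
    exact cl_eq.2 ((So_Qo g g' h l).trans (sum_Qo g g' h l).symm)
  · rw [Lc_eq]
    exact cl_zero _ fun z => by simp [ec_zero, ec_ne]
  · exact cl_eq.2 (Lo_tw g h l).symm
  · exact cl_eq.2 (Lo_rot g h l)

theorem Lo_push (σ : B ≃ₜ B) : Bord ((Lo g h 0).push σ σ.isLocalHomeomorph)
    (Lo (g.comp σ.symm) (h.comp σ.symm) 0) := by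
  refine Bord.emb (Lo_cpt _ _ _) (fun z => ⟨(σ z.1.1, z.1.2), by simpa using z.2.1, trivial⟩)
    (by fun_prop) (fun a b hab => ?_) (fun _ => rfl) (fun _ => rfl) ?_
  · obtain ⟨h1, h2⟩ := Prod.ext_iff.1 (congrArg Subtype.val hab)
    exact Subtype.ext (Prod.ext (σ.injective h1) h2)
  · rintro ⟨⟨b, z⟩, h1, h0⟩ -
    exact ⟨⟨(σ.symm b, z), h1, trivial⟩, Subtype.ext (Prod.ext (σ.apply_symm_apply b) rfl)⟩

end Pool.Agent.Lib.MP_029589_gt.Eb
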