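import Pool.Agent.Lib.MP_029589_gt.Quo

/-! The filiform lattice and its affine action. -/

set_option autoImplicit false

open scoped Manifold ContDiff Topology Matrix
open Set Filter Function

namespace Pool.Agent.Lib.MP_029589_gt

/-- The one parameter group of Pascal matrices. -/
def pas {K : Type} [CommRing K] (t : K) : Matrix (Fin 8) (Fin 8) K :=
  fun i j => (Nat.choose i j : K) * t ^ ((i : ℕ) - j)

section
variable {K : Type} [CommRing K]

lemma pas_mul (s t : K) : pas s * pas t = pas (s + t) := by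
  ext i k
  simp only [pas, Matrix.mul_apply]
  rw [Fin.sum_univ_eq_sum_range (fun j => (Nat.choose i j : K) * s ^ ((i : ℕ) - j) *
    ((Nat.choose j k : K) * t ^ (j - (k : ℕ)))) 8]
  rcases lt_or_ge (i : ℕ) k with h | h
  · rw [Nat.choose_eq_zero_of_lt h, Nat.cast_zero, zero_mul]
    refine Finset.sum_eq_zero fun j _ => ?_
    rcases lt_or_ge (i : ℕ) j with h' | h'
    · simp [Nat.choose_eq_zero_of_lt h']
    · simp [Nat.choose_eq_zero_of_lt (h'.trans_lt h)]
  obtain ⟨r, hr⟩ := Nat.exists_eq_add_of_le h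
  rw [add_comm s t, add_pow, Finset.mul_sum, hr, Nat.add_sub_cancel_left]
  symm
  refine Finset.sum_of_injOn (fun j => k + j) (fun a _ b _ e => by simpa using e)
    (fun j hj => ?_) (fun j _ hj => ?_) fun j hj => ?_
  · have := i.2
    simp only [Finset.coe_range, mem_Iio] at hj ⊢
    omega
  · rcases lt_or_ge j k with h' | h'
    · simp [Nat.choose_eq_zero_of_lt h']
    · obtain ⟨a, rfl⟩ := Nat.exists_eq_add_of_le h'
      have : r < a := by
        by_contra h2
        exact hj ⟨a, by simp; omega, rfl⟩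
      simp [Nat.choose_eq_zero_of_lt (show k + r < k + a by omega)]
  · have h1 := Nat.choose_mul (n := k + r) (k := k + j) (s := k) (by omega)
    simp only [Nat.add_sub_cancel_left] at h1
    have h2 : ((k + r).choose (k + j) : K) * ((k + j).choose k : K) =
        ((k + r).choose k : K) * (r.choose j : K) := by exact_mod_cast congrArg (Nat.cast (R := K)) h1
    simp only [Nat.add_sub_cancel_left, Nat.add_sub_add_left]
    linear_combination (-(t ^ j * s ^ (r - j))) * h2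

lemma pas_zero : pas (0 : K) = 1 := by
  ext i j
  fin_cases i <;> fin_cases j <;> simp [pas, Nat.choose]

lemma pas_pas (s t : K) (v : Fin 8 → K) : pas s *ᵥ (pas t *ᵥ v) = pas (s + t) *ᵥ v := by
  rw [Matrix.mulVec_mulVec, pas_mul]

lemma pas_zero_mulVec (v : Fin 8 → K) : pas (0 : K) *ᵥ v = v := by
  rw [pas_zero, Matrix.one_mulVec]

lemma pas_last (s c : K) : pas s *ᵥ Pi.single 7 c = Pi.single 7 c := by
  ext i
  fin_cases i <;> simp [pas, Matrix.mulVec_single, Nat.choose]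

lemma det_pas (s : K) : (pas s).det = 1 := by
  rw [Matrix.det_of_lowerTriangular]
  · simp [pas]
  · intro i j h
    simp [pas, Nat.choose_eq_zero_of_lt (show (i : ℕ) < j from h)]

end

/-- The lattice. -/
@[ext] structure Gf where
  /-- The component in the normal abelian subgroup. -/
  a : Fin 8 → ℤ
  /-- The height. -/
  k : ℤ

instance : Group Gf where
  mul x y := ⟨x.a + pas x.k *ᵥ y.a, x.k + y.k⟩
  one := ⟨0, 0⟩
  inv x := ⟨-(pas (-x.k) *ᵥ x.a), -x.k⟩
  mul_assoc x y z := by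
    refine Gf.ext ?_ (add_assoc _ _ _)
    change x.a + pas x.k *ᵥ y.a + pas (x.k + y.k) *ᵥ z.a =
      x.a + pas x.k *ᵥ (y.a + pas y.k *ᵥ z.a)
    rw [Matrix.mulVec_add, pas_pas, add_assoc]
  one_mul x := by
    refine Gf.ext ?_ (zero_add _)
    change 0 + pas 0 *ᵥ x.a = x.a
    rw [pas_zero_mulVec, zero_add]
  mul_one x := by
    refine Gf.ext ?_ (add_zero _)
    change x.a + pas x.k *ᵥ 0 = x.a
    simp
  inv_mul_cancel x := by
    refine Gf.ext ?_ (neg_add_cancel _)
    change -(pas (-x.k) *ᵥ x.a) + pas (-x.k) *ᵥ x.a = 0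
    simp

@[simp] lemma Gf.mul_a (x y : Gf) : (x * y).a = x.a + pas x.k *ᵥ y.a := rfl
@[simp] lemma Gf.mul_k (x y : Gf) : (x * y).k = x.k + y.k := rfl
@[simp] lemma Gf.one_a : (1 : Gf).a = 0 := rfl
@[simp] lemma Gf.one_k : (1 : Gf).k = 0 := rfl
@[simp] lemma Gf.inv_a (x : Gf) : x⁻¹.a = -(pas (-x.k) *ᵥ x.a) := rfl
@[simp] lemma Gf.inv_k (x : Gf) : x⁻¹.k = -x.k := rfl

/-- Integer vectors as real vectors. -/
def cz {κ : Type} (a : κ → ℤ) : κ → ℝ := fun i => a i

@[simp] lemma cz_apply {κ : Type} (a : κ → ℤ) (i : κ) : cz a i = a i := rfl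
lemma cz_add {κ : Type} (a b : κ → ℤ) : cz (a + b) = cz a + cz b := by ext; simp
lemma cz_neg {κ : Type} (a : κ → ℤ) : cz (-a) = -cz a := by ext; simp
@[simp] lemma cz_zero {κ : Type} : cz (0 : κ → ℤ) = 0 := by ext; simp
lemma cz_pas (k : ℤ) (a : Fin 8 → ℤ) : cz (pas k *ᵥ a) = pas (k : ℝ) *ᵥ cz a := by
  ext i
  simp [pas, Matrix.mulVec, dotProduct]

/-- The real group, as a vector space. -/
abbrev GR := (Fin 8 → ℝ) × ℝ

instance : MulAction Gf GR where
  smul x g := (cz x.a + pas (x.k : ℝ) *ᵥ g.1, x.k + g.2)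
  one_smul g := by
    change (cz 0 + pas ((0 : ℤ) : ℝ) *ᵥ g.1, ((0 : ℤ) : ℝ) + g.2) = g
    simp [pas_zero_mulVec]
  mul_smul x y g := by
    change (cz (x.a + pas x.k *ᵥ y.a) + pas ((x.k + y.k : ℤ) : ℝ) *ᵥ g.1,
      ((x.k + y.k : ℤ) : ℝ) + g.2) =
      (cz x.a + pas (x.k : ℝ) *ᵥ (cz y.a + pas (y.k : ℝ) *ᵥ g.1), x.k + (y.k + g.2))
    simp only [cz_add, cz_pas, Matrix.mulVec_add, pas_pas, Int.cast_add, add_assoc]

lemma gf_smul (x : Gf) (g : GR) : x • g = (cz x.a + pas (x.k : ℝ) *ᵥ g.1, x.k + g.2) := rfl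

/-- The linear part of the action. -/
noncomputable def pl (t : ℝ) : GR →L[ℝ] GR :=
  (LinearMap.toContinuousLinearMap (Matrix.mulVecLin (pas t))).prodMap (.id ℝ ℝ)

lemma pl_apply (t : ℝ) (g : GR) : pl t g = (pas t *ᵥ g.1, g.2) := rfl

lemma pl_pl (s t : ℝ) (g : GR) : pl s (pl t g) = pl (s + t) g := by
  simp only [pl_apply, pas_pas]

lemma pl_zero (g : GR) : pl 0 g = g := by simp only [pl_apply, pas_zero_mulVec]

lemma contDiff_pl {m : WithTop ℕ∞} : ContDiff ℝ m fun p : ℝ × GR => pl p.1 p.2 := by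
  simp only [pl_apply]
  refine ContDiff.prodMk (contDiff_pi.2 fun i => ?_) (by fun_prop)
  simp only [pas, Matrix.mulVec, dotProduct]
  fun_prop

lemma continuous_pl : Continuous pl := by
  refine continuous_clm_apply.2 fun g => ?_
  simp only [pl_apply]
  refine Continuous.prodMk (continuous_pi fun i => ?_) continuous_const
  simp only [pas, Matrix.mulVec, dotProduct]
  fun_prop

lemma det_pl (t : ℝ) : (pl t).det = 1 := by
  rw [det_tri (pl t) (LinearMap.toContinuousLinearMap (Matrix.mulVecLin (pas t))) (.id ℝ ℝ)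
    (fun _ => rfl) fun _ => rfl, det_id', mul_one]
  exact (LinearMap.det_toLin' _).trans (det_pas t)

lemma gf_smul_eq (x : Gf) (g : GR) : x • g = (cz x.a, (x.k : ℝ)) + pl x.k g := rfl

lemma hasFDerivAt_gf (x : Gf) (g : GR) : HasFDerivAt (fun b : GR => x • b) (pl x.k) g := by
  rw [funext (gf_smul_eq x)]
  exact (pl x.k).hasFDerivAt.const_add _

lemma contDiff_gf {m : WithTop ℕ∞} (x : Gf) : ContDiff ℝ m fun b : GR => x • b := by
  rw [funext (gf_smul_eq x)]
  exact contDiff_const.add (pl x.k).contDiff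

instance : ContinuousConstSMul Gf GR := ⟨fun x => (contDiff_gf (m := 0) x).continuous⟩

instance : IsCancelSMul Gf GR where
  right_cancel' x y g h := by
    have h2 : x.k = y.k := by exact_mod_cast add_right_cancel (congrArg Prod.snd h)
    have h1 := congrArg Prod.fst h
    simp only [gf_smul, h2, add_left_inj] at h1
    ext i
    · exact_mod_cast (show (x.a i : ℝ) = y.a i from congrFun h1 i)
    · exact h2

lemma gf_finite (R : ℝ) : {x : Gf | ∃ g : GR, ‖g‖ ≤ R ∧ ‖x • g‖ ≤ R}.Finite := by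
  obtain ⟨C, hC⟩ := (isCompact_Icc (a := -(2 * R)) (b := 2 * R)).exists_bound_of_continuousOn
    continuous_pl.continuousOn
  obtain ⟨N, hN⟩ := exists_nat_ge (R + C * R)
  have hf : ((Icc (fun _ => -(N : ℤ)) (fun _ => (N : ℤ)) : Set (Fin 8 → ℤ)) ×ˢ
      (Icc (-(N : ℤ)) N)).Finite := (finite_Icc _ _).prod (finite_Icc _ _)
  refine (hf.preimage (f := fun x : Gf => (x.a, x.k))
    (fun a _ b _ h => Gf.ext (congrArg Prod.fst h) (congrArg Prod.snd h))).subset ?_
  rintro x ⟨g, h1, h2⟩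
  have h3 : |(x.k : ℝ)| ≤ 2 * R := by
    have a1 : |g.2| ≤ R := (norm_snd_le g).trans h1
    have a2 : |x.k + g.2| ≤ R := (norm_snd_le (x • g)).trans h2
    rw [abs_le] at *
    constructor <;> linarith
  have h4 : ‖pl x.k g‖ ≤ C * R := ((pl x.k).le_opNorm g).trans
    (mul_le_mul (hC _ (abs_le.1 h3)) h1 (norm_nonneg _) ((norm_nonneg _).trans (hC _ (abs_le.1 h3))))
  have h5 : ‖((cz x.a, (x.k : ℝ)) : GR)‖ ≤ N := by
    have := norm_sub_le (x • g) (pl x.k g)
    rw [gf_smul_eq, add_sub_cancel_right, ← gf_smul_eq] at this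
    linarith
  have h6 : ∀ i, |x.a i| ≤ N := fun i => by
    have := ((norm_le_pi_norm (cz x.a) i).trans (norm_fst_le ((cz x.a, (x.k : ℝ)) : GR))).trans h5
    rw [cz_apply, Real.norm_eq_abs] at this
    exact_mod_cast this
  have h7 : |x.k| ≤ N := by
    have := (norm_snd_le ((cz x.a, (x.k : ℝ)) : GR)).trans h5
    exact_mod_cast (show |(x.k : ℝ)| ≤ N from this)
  exact ⟨⟨fun i => (abs_le.1 (h6 i)).1, fun i => (abs_le.1 (h6 i)).2⟩, abs_le.1 h7⟩

instance : ProperlyDiscontinuousSMul Gf GR where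
  finite_disjoint_inter_image {K L} hK hL := by
    obtain ⟨R, hR⟩ := (hK.union hL).isBounded.exists_norm_le
    refine (gf_finite R).subset ?_
    rintro x ⟨_, ⟨a, ha, rfl⟩, hb⟩
    exact ⟨a, hR _ (Or.inl ha), hR _ (Or.inr hb)⟩

lemma gf_cocompact : ∃ R, ∀ g : GR, ∃ x : Gf, ‖x • g‖ ≤ R :=
  ⟨1, fun g => ⟨⟨fun i => -⌊(pas ((-⌊g.2⌋ : ℤ) : ℝ) *ᵥ g.1) i⌋, -⌊g.2⌋⟩, by
    have key : ∀ r : ℝ, ‖((-⌊r⌋ : ℤ) : ℝ) + r‖ ≤ 1 := fun r => by
      rw [Int.cast_neg, neg_add_eq_sub, Real.norm_eq_abs, abs_le]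
      constructor <;> linarith [Int.floor_le r, Int.lt_floor_add_one r]
    rw [gf_smul, Prod.norm_def]
    exact max_le ((pi_norm_le_iff_of_nonneg zero_le_one).2 fun i => key _) (key _)⟩⟩

/-- The nilmanifold. -/
abbrev BB := MulAction.orbitRel.Quotient Gf GR

/-- The four directions of the torus; the last one is central. -/
def ix4 : Fin 4 → Fin 8 := ![0, 1, 6, 7]

/-- The inclusion of the four directions. -/
def io {K : Type} [Zero K] (u : Fin 4 → K) : Fin 8 → K := ![u 0, u 1, 0, 0, 0, 0, u 2, u 3]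

/-- The inclusion of the rank four lattice. -/
def ioG (l : Fin 4 → ℤ) : Gf := ⟨io l, 0⟩

end Pool.Agent.Lib.MP_029589_gt
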