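import Pool.Agent.Lib.MP_029589_gt.EbdC
import Pool.Agent.Lib.MP_029589_gt.Fil

/-! The invariant class on the eight-torus and its mapping torus. -/

set_option autoImplicit false

open scoped Topology Matrix
open Set Filter Function Topology Complex

namespace Pool.Agent.Lib.MP_029589_gt.Eb

section Rep

variable {P Y F F' E : Type} [TopologicalSpace P] [TopologicalSpace F] [TopologicalSpace F']

/-- The function `f` is given by `φ` on the sheet through `e` near `g`. -/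
def Rep (ϖ : P → Y) (π : F → Y) (f : F → E) (e : F) (g : P) (φ : P → E) : Prop :=
  ∀ᶠ z : P × F in 𝓝 (g, e), ϖ z.1 = π z.2 → f z.2 = φ z.1

variable {ϖ : P → Y} {π : F → Y} {f : F → E} {π' : F' → Y} {f' : F' → E} {e : F} {g : P} {φ : P → E}

lemma Rep.rel (h : Rep ϖ π f e g φ) {R : F → F' → Prop} {e' : F'} (h0 : R e e')
    (h1 : ∀ v w, R v w → π v = π' w ∧ f v = f' w) (h2 : ∀ O, IsOpen O → IsOpen {w | ∃ v ∈ O, R v w}) :
    Rep ϖ π' f' e' g φ := by
  obtain ⟨N, hN, O, hO, h3⟩ := mem_nhds_prod_iff.1 h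
  obtain ⟨O', h4, h5, h6⟩ := mem_nhds_iff.1 hO
  filter_upwards [prod_mem_nhds hN ((h2 O' h5).mem_nhds ⟨e, h6, h0⟩)]
  rintro ⟨a, w⟩ ⟨ha, v, hv, hr⟩ hw
  exact (h1 v w hr).2.symm.trans (h3 (show (a, v) ∈ _ from ⟨ha, h4 hv⟩) (hw.trans (h1 v w hr).1.symm))

lemma Rep.map (h : Rep ϖ π f e g φ) {i : F → F'} (hi : IsOpenMap i) (h1 : ∀ v, π v = π' (i v))
    (h2 : ∀ v, f v = f' (i v)) : Rep ϖ π' f' (i e) g φ :=
  h.rel (R := fun v w => i v = w) rfl (by rintro v _ rfl; exact ⟨h1 v, h2 v⟩) hi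

end Rep

lemma omega_inv {C A : Type*} [AddCommGroup C] [AddCommGroup A] (β : C →+ C →+ A)
    (h0 : ∀ a, β a a = 0) (h1 : ∀ a b, β a b = -β b a) (x y : Fin 8 → C)
    (hy : ∀ i, y i = ∑ j, pas (-1 : ℤ) i j • x j) :
    β ((1 : ℤ) • y 0) (y 7) + β ((-7 : ℤ) • y 1) (y 6) + β ((21 : ℤ) • y 2) (y 5) +
      β ((-35 : ℤ) • y 3) (y 4) = β ((1 : ℤ) • x 0) (x 7) + β ((-7 : ℤ) • x 1) (x 6) +
      β ((21 : ℤ) • x 2) (x 5) + β ((-35 : ℤ) • x 3) (x 4) := by
  simp only [hy, Fin.sum_univ_eight, map_add, map_zsmul, AddMonoidHom.add_apply,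
    AddMonoidHom.zsmul_apply, h0, smul_add]
  simp only [h1 (x 1) (x 0), h1 (x 2) (x 0), h1 (x 3) (x 0), h1 (x 2) (x 1), h1 (x 3) (x 1),
    h1 (x 3) (x 2)]
  simp [pas, Nat.choose]
  module

/-- The eight-torus. -/
abbrev T8 := Fin 8 → S1

/-- Its universal covering. -/
def w8 (x : Fin 8 → ℝ) : T8 := fun i => x i

lemma w8_oq : IsOpenQuotientMap w8 :=
  IsOpenQuotientMap.piMap fun _ => QuotientAddGroup.isOpenQuotientMap_mk

/-- The action of the Pascal matrices on the torus. -/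
noncomputable def sg (k : ℤ) (b : T8) : T8 := fun i => ∑ j, pas k i j • b j

lemma sg_w8 (k : ℤ) (x : Fin 8 → ℝ) : sg k (w8 x) = w8 (pas (k : ℝ) *ᵥ x) := by
  ext i
  simp only [sg, w8, Matrix.mulVec, dotProduct, ← AddCircle.coe_zsmul]
  rw [← QuotientAddGroup.mk_sum]
  simp [pas]

lemma sg_sg (k l : ℤ) (b : T8) : sg k (sg l b) = sg (k + l) b := by
  obtain ⟨x, rfl⟩ := w8_oq.surjective b
  rw [sg_w8, sg_w8, sg_w8, pas_pas, Int.cast_add]

lemma sg_zero (b : T8) : sg 0 b = b := by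
  obtain ⟨x, rfl⟩ := w8_oq.surjective b
  rw [sg_w8, Int.cast_zero, pas_zero_mulVec]

/-- The monodromy. -/
noncomputable def sH : T8 ≃ₜ T8 where
  toFun := sg 1
  invFun := sg (-1)
  left_inv b := by rw [sg_sg]; exact sg_zero b
  right_inv b := by rw [sg_sg]; exact sg_zero b
  continuous_toFun := by unfold sg; fun_prop
  continuous_invFun := by unfold sg; fun_prop

/-- The coordinates. -/
def xc (i : Fin 8) : C(T8, S1) := ⟨fun b => b i, continuous_apply i⟩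

/-- The coefficients of the invariant form. -/
def cA : Fin 4 → ℤ := ![1, -7, 21, -35]

/-- The first indices. -/
def iA : Fin 4 → Fin 8 := ![0, 1, 2, 3]

/-- The second indices. -/
def jA : Fin 4 → Fin 8 := ![7, 6, 5, 4]

/-- The linear forms of the sheets. -/
noncomputable def lam (α : Fin 4) : (Fin 8 → ℝ) →L[ℝ] ℂ :=
  equivRealProdCLM.symm.toContinuousLinearMap.comp
    (((cA α : ℝ) • ContinuousLinearMap.proj (iA α)).prod (ContinuousLinearMap.proj (jA α)))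

lemma lam_re (α : Fin 4) (x : Fin 8 → ℝ) : (lam α x).re = cA α * x (iA α) := rfl

lemma lam_im (α : Fin 4) (x : Fin 8 → ℝ) : (lam α x).im = x (jA α) := rfl

/-- The four linear objects. -/
@[reducible] noncomputable def Lx (α : Fin 4) : Pre T8 := Lo (cA α • xc (iA α)) (xc (jA α)) 0

/-- All sheets are given by one of the four linear forms. -/
def Lin (X : Pre T8) : Prop := ∀ e x, w8 x = X.π e →
  ∃ α, Rep w8 X.π X.f e x fun x' => X.f e + lam α (x' - x)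

/-- The form `α` occurs at the origin. -/
def Has (X : Pre T8) (α : Fin 4) : Prop :=
  ∃ e, w8 0 = X.π e ∧ X.f e = 0 ∧ Rep w8 X.π X.f e 0 (lam α)

lemma p2_lam (α : Fin 4) (x : Fin 8 → ℝ) :
    (cA α • xc (iA α)).prodMk (xc (jA α)) (w8 x) = p2 (lam α x) := by
  refine Prod.ext ?_ rfl
  change cA α • ((x (iA α) : ℝ) : S1) = ((cA α * x (iA α) : ℝ) : S1)
  rw [← AddCircle.coe_zsmul, zsmul_eq_mul]

lemma p2_add (z w : ℂ) : p2 (z + w) = p2 z + p2 w := rfl

lemma p2_sub (z w : ℂ) : p2 (z - w) = p2 z - p2 w := rfl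

lemma Lx_rep (α : Fin 4) (e : (Lx α).F) (x : Fin 8 → ℝ) (h : w8 x = (Lx α).π e) :
    Rep w8 (Lx α).π (Lx α).f e x fun x' => (Lx α).f e + lam α (x' - x) := by
  have hc : Continuous fun z : (Fin 8 → ℝ) × (Lx α).F =>
      ‖z.2.1.2 - (e.1.2 + lam α (z.1 - x))‖ := by fun_prop
  filter_upwards [hc.continuousAt.eventually_lt (continuousAt_const (y := 1))
    (show _ < (1 : ℝ) by simp)] with z h1 h2
  have h3 : p2 z.2.1.2 = p2 (e.1.2 + lam α (z.1 - x)) := by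
    rw [map_sub, p2_add, p2_sub, ← p2_lam, ← p2_lam, h, h2, ← e.2.1, ← z.2.2.1]
    exact (add_sub_cancel _ _).symm
  simp only [ContinuousMap.zero_apply, ec_zero, one_mul]
  exact Complex.ext (coe_inj (congrArg Prod.fst h3) ((abs_re_le_norm _).trans_lt h1))
    (coe_inj (congrArg Prod.snd h3) ((abs_im_le_norm _).trans_lt h1))

lemma Lx_lin (α : Fin 4) : Lin (Lx α) := fun e x h => ⟨α, Lx_rep α e x h⟩

lemma Lx_has (α : Fin 4) : Has (Lx α) α := by
  refine ⟨⟨(w8 0, 0), by rw [p2_lam, map_zero], trivial⟩, rfl, mul_zero _, ?_⟩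
  simpa using Lx_rep α ⟨(w8 0, 0), by rw [p2_lam, map_zero], trivial⟩ 0 rfl

variable {X Y : Pre T8}

lemma Lin.sum (h : Lin X) (h' : Lin Y) : Lin (X.sum Y) := by
  rintro (e | e) x hx
  · exact (h e x hx).imp fun α a => a.map isOpenMap_inl (fun _ => rfl) fun _ => rfl
  · exact (h' e x hx).imp fun α a => a.map isOpenMap_inr (fun _ => rfl) fun _ => rfl

lemma Has.inl {α : Fin 4} (h : Has X α) : Has (X.sum Y) α :=
  let ⟨e, a, b, c⟩ := h; ⟨.inl e, a, b, c.map isOpenMap_inl (fun _ => rfl) fun _ => rfl⟩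

lemma Has.inr {α : Fin 4} (h : Has Y α) : Has (X.sum Y) α :=
  let ⟨e, a, b, c⟩ := h; ⟨.inr e, a, b, c.map isOpenMap_inr (fun _ => rfl) fun _ => rfl⟩

lemma cl_push (h : Cpt X) (h' : Cpt Y) :
    cl ((X.sum Y).push sH sH.isLocalHomeomorph) (h.sum h') =
      cl (X.push sH sH.isLocalHomeomorph) h + cl (Y.push sH sH.isLocalHomeomorph) h' :=
  cl_eq.2 (Bord.iso (Y := (X.push sH sH.isLocalHomeomorph).sum (Y.push sH sH.isLocalHomeomorph))
    (h.sum h') (.refl _) (by rintro (a | a) <;> rfl) fun _ => rfl)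

theorem exists_inv : ∃ j : Pre T8, Cpt j ∧ Bord j (j.push sH sH.isLocalHomeomorph) ∧ Lin j ∧
    Has j 0 ∧ Has j 1 := by
  have c := fun α => Lo_cpt (cA α • xc (iA α)) (xc (jA α)) 0
  have c4 := ((c 0).sum (c 1)).sum ((c 2).sum (c 3))
  have l4 := ((Lx_lin 0).sum (Lx_lin 1)).sum ((Lx_lin 2).sum (Lx_lin 3))
  refine ⟨_, c4.sum c4, (cl_eq (Y := Pre.push _ sH sH.isLocalHomeomorph) (h := c4.sum c4)
    (h' := c4.sum c4)).1 ?_, l4.sum l4,
    (Lx_has 0).inl.inl.inl, (Lx_has 1).inr.inl.inl⟩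
  obtain ⟨β, h1, h2, h3⟩ := exists_beta (B := T8)
  have h4 := congrArg AddUnits.val (omega_inv β h2 h3 xc (fun i => (xc i).comp sH.symm) fun i => by
    ext b
    simp [xc, sH, sg])
  have h5 : ∀ α, cl ((Lx α).push sH sH.isLocalHomeomorph) (c α) =
      Lc (cA α • (xc (iA α)).comp sH.symm) ((xc (jA α)).comp sH.symm) 0 := fun α =>
    cl_eq.2 (Lo_push _ _ sH)
  have h6 : ∀ α, cl (Lx α) (c α) = Lc (cA α • xc (iA α)) (xc (jA α)) 0 := fun _ => rfl
  rw [cl_push c4 c4, cl_push ((c 0).sum (c 1)) ((c 2).sum (c 3)), cl_push (c 0) (c 1),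
    cl_push (c 2) (c 3), cl_sum c4 c4, cl_sum ((c 0).sum (c 1)) ((c 2).sum (c 3)),
    cl_sum (c 0) (c 1), cl_sum (c 2) (c 3), h5, h5, h5, h5, h6, h6, h6, h6]
  simp only [AddUnits.val_add, h1] at h4
  refine Eq.trans ?_ (h4.symm.trans ?_) <;>
  · simp only [cA, iA, jA, Matrix.cons_val]
    abel

end Pool.Agent.Lib.MP_029589_gt.Eb
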