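import Pool.Agent.Lib.MP_029589_gt.EbdD

/-! The mapping torus. -/

set_option autoImplicit false

open scoped Topology Matrix
open Set Filter Function Topology Complex

namespace Pool.Agent.Lib.MP_029589_gt.Eb

lemma w8_eq {x y : Fin 8 → ℝ} : w8 x = w8 y ↔ ∃ a : Fin 8 → ℤ, cz a + y = x := by
  constructor
  · intro h
    have : ∀ i, ∃ n : ℤ, n • (1 : ℝ) = x i - y i := fun i => (AddCircle.coe_eq_zero_iff 1).1 (by
      rw [AddCircle.coe_sub]; exact sub_eq_zero.2 (congrFun h i))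
    choose a ha using this
    exact ⟨a, funext fun i => by simpa [eq_sub_iff_add_eq] using ha i⟩
  · rintro ⟨a, rfl⟩
    ext i
    have : ((a i : ℝ) : S1) = 0 := (AddCircle.coe_eq_zero_iff 1).2 ⟨a i, by simp⟩
    simp [w8, this]

lemma qm_iff {g g' : GR} : qm Gf g = qm Gf g' ↔
    ∃ k : ℤ, w8 g.1 = sg k (w8 g'.1) ∧ g.2 = k + g'.2 := by
  rw [qm_eq]
  constructor
  · rintro ⟨x, rfl⟩
    exact ⟨x.k, by rw [sg_w8]; exact w8_eq.2 ⟨x.a, rfl⟩, rfl⟩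
  · rintro ⟨k, h1, h2⟩
    rw [sg_w8] at h1
    obtain ⟨a, ha⟩ := w8_eq.1 h1
    exact ⟨⟨a, k⟩, Prod.ext ha h2.symm⟩

/-- The infinite cyclic covering of the nilmanifold. -/
noncomputable def qc (z : T8 × ℝ) : BB := qm Gf (surjInv w8_oq.surjective z.1, z.2)

lemma qc_iff {z z' : T8 × ℝ} : qc z = qc z' ↔ ∃ k : ℤ, z.1 = sg k z'.1 ∧ z.2 = k + z'.2 := by
  simp only [qc, qm_iff, surjInv_eq]

lemma qc_w8 (g : GR) : qc (w8 g.1, g.2) = qm Gf g :=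
  qm_iff.2 ⟨0, by simp only [surjInv_eq, sg_zero], by simp⟩

lemma int_zero {k : ℤ} {s t : ℝ} (h : s = k + t) (h' : |s - t| < 1) : k = 0 := by
  rwa [h, add_sub_cancel_right, ← Int.cast_abs, ← Int.cast_one, Int.cast_lt, Int.abs_lt_one_iff] at h'

lemma qc_inj {z z' : T8 × ℝ} (h : qc z = qc z') (h' : |z.2 - z'.2| < 1) : z = z' := by
  obtain ⟨k, h1, h2⟩ := qc_iff.1 h
  obtain rfl := int_zero h2 h'
  exact Prod.ext (h1.trans (sg_zero _)) (by simpa using h2)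

lemma qc_fst {g : GR} {z : T8 × ℝ} (h : qm Gf g = qc z) (h1 : g.2 ∈ Ioo (-1 / 4 : ℝ) (1 / 4))
    (h2 : z.2 ∈ Ioo (-1 / 4 : ℝ) (1 / 4)) : w8 g.1 = z.1 :=
  congrArg Prod.fst (qc_inj ((qc_w8 g).trans h) (show |g.2 - z.2| < 1 from
    abs_lt.2 ⟨by linarith [h1.1, h2.2], by linarith [h1.2, h2.1]⟩))

lemma qc_loc : IsLocalHomeomorph qc := by
  have h1 := w8_oq.prodMap (IsOpenQuotientMap.id (X := ℝ))
  have h2 : qc ∘ Prod.map w8 id = qm Gf := funext qc_w8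
  have h3 := (qm_cov GR Gf).isLocalHomeomorph
  refine loc_of (h1.continuous_comp_iff.1 (h2 ▸ h3.continuous))
    (h1.isOpenMap_iff.2 (h2 ▸ h3.isOpenMap)) fun z => ⟨Prod.snd ⁻¹' Ioo (z.2 - 1 / 2) (z.2 + 1 / 2),
      isOpen_Ioo.preimage continuous_snd, ⟨by linarith, by linarith⟩,
      fun a ha b hb h => qc_inj h ?_⟩
  rw [abs_lt]
  constructor <;> linarith [ha.1, ha.2, hb.1, hb.2]

/-- Points with height in `S` modulo integers. -/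
def Ht (S : Set ℝ) : Set BB := qc '' (Prod.snd ⁻¹' S)

lemma Ht_open {S : Set ℝ} (h : IsOpen S) : IsOpen (Ht S) :=
  qc_loc.isOpenMap _ (h.preimage continuous_snd)

lemma Ht_mono {S S' : Set ℝ} (h : S ⊆ S') : Ht S ⊆ Ht S' := image_mono (preimage_mono h)

lemma Ht_of {S : Set ℝ} (a : ℝ) (hS : S ⊆ Ioo a (a + 1)) {z : T8 × ℝ} (hz : z.2 ∈ Ioo a (a + 1))
    (h : qc z ∈ Ht S) : z.2 ∈ S := by
  obtain ⟨z', h1, h2⟩ := h
  rwa [← qc_inj h2 (abs_lt.2 ⟨by linarith [hz.2, (hS h1).1], by linarith [hz.1, (hS h1).2]⟩)]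

lemma Ht_shift {S : Set ℝ} {z : T8 × ℝ} (k : ℤ) (h : z.2 - k ∈ S) : qc z ∈ Ht S :=
  ⟨(sg (-k) z.1, z.2 - k), h, (qc_iff.2 ⟨k, by rw [sg_sg, add_neg_cancel, sg_zero], by ring⟩).symm⟩

/-- The part of `W` over an open set of times, as an object over the nilmanifold. -/
@[reducible] noncomputable def strip (W : Pre (T8 × ℝ)) (a b : ℝ) : Pre BB :=
  (W.res {w | (W.π w).2 ∈ Ioo a b} (isOpen_Ioo.preimage W.loc.continuous.snd)).push qc qc_loc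

lemma strip_agr {V W : Pre (T8 × ℝ)} {U : Set ℝ} (h : Agr V W (Prod.snd ⁻¹' U)) {a b a' b' c d : ℝ}
    (e : ℝ) (h0 : Ioo c d ⊆ U) (h1 : Ioo c d ⊆ Ioo a b) (h2 : Ioo c d ⊆ Ioo a' b')
    (h3 : Ioo a b ⊆ Ioo e (e + 1)) (e' : ℝ) (h4 : Ioo a' b' ⊆ Ioo e' (e' + 1)) :
    Agr (strip V a b) (strip W a' b') (Ht (Ioo c d)) := by
  have o := (isOpen_Ioo (a := c) (b := d)).preimage (continuous_snd (X := T8))
  exact (((Agr.res o _ fun _ hv => h1 hv).trans (h.mono o (preimage_mono h0))).trans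
    (Agr.res o _ fun _ hv => h2 hv).symm).push qc_loc (Ht_open isOpen_Ioo)
    (fun v hv => Ht_of e (h1.trans h3) (h3 v.2) hv) fun v hv => Ht_of e' (h2.trans h4) (h4 v.2) hv

lemma strip_cpt {W : Pre (T8 × ℝ)} (h : Prp W) {a b c d : ℝ} (h1 : Icc c d ⊆ Ioo a b) (e : ℝ)
    (h2 : Ioo a b ⊆ Ioo e (e + 1)) :
    IsCompact {w | (strip W a b).f w = 0 ∧ (strip W a b).π w ∈ Ht (Icc c d)} := by
  rw [show {w | (strip W a b).f w = 0 ∧ (strip W a b).π w ∈ Ht (Icc c d)} =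
      (↑) ⁻¹' {w | W.f w = 0 ∧ W.π w ∈ Prod.snd ⁻¹' Icc c d} from Set.ext fun w =>
    and_congr_right fun _ => ⟨Ht_of e (h1.trans h2) (h2 w.2), fun h => ⟨_, h, rfl⟩⟩]
  exact cpt_val (h _ isCompact_Icc) fun w hw => h1 hw.2

theorem exists_torus {j : Pre T8} (hj : Cpt j) (hb : Bord j (j.push sH sH.isLocalHomeomorph)) :
    ∃ X : Pre BB, Cpt X ∧ Agr (strip j.cyl (-1 / 4) (1 / 4)) X (Ht (Ioo (-1 / 4) (1 / 4))) := by
  obtain ⟨W, h1, h2, h3⟩ := hb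
  let τ := aff (1 / 3) (1 / 3) (by norm_num)
  have a1 := h2.ret τ (isOpen_Iio (a := 1 / 3)) fun t ht => by
    simp only [τ, aff_apply, mem_Iio] at ht ⊢
    linarith
  have a2 := h3.ret τ (isOpen_Ioi (a := 2 / 3)) fun t ht => by
    simp only [τ, aff_apply, mem_Ioi] at ht ⊢
    linarith
  have a3 := h1.ret τ
  have b1 := strip_agr a1 (a := -1 / 4) (b := 1 / 4) (a' := 0) (b' := 1) (c := 0) (d := 1 / 4)
    (-1 / 2) (fun t ht => ht.2.trans (by norm_num)) (Ioo_subset_Ioo (by norm_num) (by norm_num))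
    (Ioo_subset_Ioo (by norm_num) (by norm_num)) (Ioo_subset_Ioo (by norm_num) (by norm_num)) 0
    (Ioo_subset_Ioo (by norm_num) (by norm_num))
  have b2 := strip_agr a2 (a := 3 / 4) (b := 5 / 4) (a' := 0) (b' := 1) (c := 3 / 4) (d := 1)
    (1 / 2) (fun t ht => lt_trans (by norm_num) ht.1) (Ioo_subset_Ioo (by norm_num) (by norm_num))
    (Ioo_subset_Ioo (by norm_num) (by norm_num)) (Ioo_subset_Ioo (by norm_num) (by norm_num)) 0
    (Ioo_subset_Ioo (by norm_num) (by norm_num))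
  have b3 : Agr (strip j.cyl (-1 / 4) (1 / 4))
      (strip (j.push sH sH.isLocalHomeomorph).cyl (3 / 4) (5 / 4)) (Ht (Ioo (3 / 4) 1)) := by
    refine Agr.of_map (Ht_open isOpen_Ioo) (fun z => ⟨(z.1.1, z.1.2 + 1),
      show z.1.2 + 1 ∈ Ioo _ _ from ⟨by linarith [show -1 / 4 < z.1.2 from z.2.1],
        by linarith [show z.1.2 < 1 / 4 from z.2.2]⟩⟩) (by fun_prop) (fun a b h => ?_)
      (fun z => qc_iff.2 ⟨1, rfl, by simp [add_comm]⟩) (fun _ _ => rfl) fun z _ =>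
      ⟨⟨(z.1.1, z.1.2 - 1), show z.1.2 - 1 ∈ Ioo _ _ from
        ⟨by linarith [show 3 / 4 < z.1.2 from z.2.1], by linarith [show z.1.2 < 5 / 4 from z.2.2]⟩⟩,
        Subtype.ext (Prod.ext rfl (sub_add_cancel _ _))⟩
    obtain ⟨e1, e2⟩ := Prod.ext_iff.1 (congrArg Subtype.val h)
    exact Subtype.ext (Prod.ext e1 (add_right_cancel e2))
  have b4 := (b1.union (b3.trans b2) (disjoint_left.2 (by
    rintro _ ⟨z, hz, rfl⟩ h
    have := Ht_of 0 (Ioo_subset_Ioo (by norm_num) (by norm_num))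
      (Ioo_subset_Ioo (by norm_num) (by norm_num) hz) h
    linarith [this.1, hz.2]))).symm
  obtain ⟨X, c1, c2, -⟩ := glue (Ht_open (isOpen_Ioo (a := 0) (b := 1)))
    (Ht_open (isOpen_Ioo (a := -1 / 4) (b := 1 / 4))) (b4.mono
      ((Ht_open isOpen_Ioo).inter (Ht_open isOpen_Ioo)) (by
    rintro _ ⟨⟨z, hz, rfl⟩, z', hz', h⟩
    obtain ⟨k, -, hk⟩ := qc_iff.1 h
    rcases lt_or_ge z.2 (1 / 2) with a | a
    · obtain rfl := int_zero hk (abs_lt.2 ⟨by linarith [hz'.1], by linarith [hz'.2, hz.1]⟩)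
      exact Or.inl ⟨z, ⟨hz.1, by simpa [hk] using hz'.2⟩, rfl⟩
    · have hk' : z'.2 = ((k + 1 : ℤ) : ℝ) + (z.2 - 1) := by push_cast; linarith
      rw [int_zero hk' (abs_lt.2 ⟨by linarith [hz'.1, hz.2], by linarith [hz'.2]⟩)] at hk'
      exact Or.inr ⟨z, ⟨by push_cast at hk'; linarith [hz'.1], hz.2⟩, rfl⟩))
  have p0 : Prp j.cyl := fun K hK => hj.prod hK
  have d1 : Icc (1 / 8 : ℝ) (7 / 8) ⊆ Ioo 0 1 := Icc_subset_Ioo (by norm_num) (by norm_num)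
  have d2 : Icc (-1 / 8 : ℝ) (1 / 8) ⊆ Ioo (-1 / 4) (1 / 4) :=
    Icc_subset_Ioo (by norm_num) (by norm_num)
  refine ⟨X, ?_, c2⟩
  have := (c1.cpt (Ht_mono d1) (strip_cpt a3 d1 0 (Ioo_subset_Ioo (by norm_num) (by norm_num)))).union
    (c2.cpt (Ht_mono d2) (strip_cpt p0 d2 (-1 / 2) (Ioo_subset_Ioo (by norm_num) (by norm_num))))
  refine this.of_isClosed_subset (isClosed_eq X.cf continuous_const) fun x h => ?_
  obtain ⟨g, hg⟩ := Quotient.mk_surjective (X.π x)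
  have hg' : X.π x = qc (w8 g.1, g.2) := ((qc_w8 g).trans hg).symm
  have e1 := Int.floor_le (g.2 + 1 / 8)
  have e2 := Int.lt_floor_add_one (g.2 + 1 / 8)
  rcases le_total (g.2 - ⌊g.2 + 1 / 8⌋) (1 / 8) with a | a
  · exact Or.inr ⟨h, hg' ▸ Ht_shift ⌊g.2 + 1 / 8⌋ ⟨by linarith, a⟩⟩
  · exact Or.inl ⟨h, hg' ▸ Ht_shift ⌊g.2 + 1 / 8⌋ ⟨a, by linarith⟩⟩

lemma strip_rep {j : Pre T8} {p : (strip j.cyl (-1 / 4) (1 / 4)).F} {g : GR}
    (hg : g.2 ∈ Ioo (-1 / 4 : ℝ) (1 / 4)) {φ : (Fin 8 → ℝ) → ℂ}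
    (h : Rep w8 j.π j.f p.1.1 g.1 φ) : Rep (qm Gf) (strip j.cyl (-1 / 4) (1 / 4)).π
      (strip j.cyl (-1 / 4) (1 / 4)).f p g fun g' => φ g'.1 := by
  have hc : Continuous fun z : GR × (strip j.cyl (-1 / 4) (1 / 4)).F => (z.1.1, z.2.1.1) := by
    fun_prop
  filter_upwards [hc.continuousAt.eventually h, (isOpen_Ioo.preimage
    (continuous_snd.comp continuous_fst)).mem_nhds (show (g, p) ∈ _ from hg)] with z h1 h2 h3
  exact h1 (qc_fst h3 h2 z.2.2)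

theorem exists_pre : ∃ X : Pre BB, Cpt X ∧
    (∀ e (g : GR), g.2 ∈ Ioo (-1 / 4 : ℝ) (1 / 4) → qm Gf g = X.π e →
      ∃ α, Rep (qm Gf) X.π X.f e g fun g' => X.f e + lam α (g'.1 - g.1)) ∧
    ∀ α : Fin 4, α = 0 ∨ α = 1 → ∃ e, qm Gf (0 : GR) = X.π e ∧ X.f e = 0 ∧
      Rep (qm Gf) X.π X.f e (0 : GR) fun g' => lam α g'.1 := by
  obtain ⟨j, h1, h2, h3, h4, h5⟩ := exists_inv
  obtain ⟨X, h6, R, a, b⟩ := exists_torus h1 h2
  have hR := fun v w h => And.imp_right And.left (a.val v w h)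
  refine ⟨X, h6, fun e g hg he => ?_, fun α hα => ?_⟩
  · obtain ⟨p, hp⟩ := b.ex e (he ▸ ⟨(w8 g.1, g.2), hg, qc_w8 g⟩)
    obtain ⟨α, h⟩ := h3 p.1.1 g.1 (qc_fst (he.trans (hR p e hp).1.symm) hg p.2)
    exact ⟨α, (hR p e hp).2 ▸ (strip_rep hg h).rel hp hR a.op⟩
  · obtain ⟨e, c1, c2, c3⟩ : Has j α := by rcases hα with rfl | rfl <;> assumption
    have h0 : (0 : ℝ) ∈ Ioo (-1 / 4 : ℝ) (1 / 4) := by norm_num
    obtain ⟨x, hx⟩ := a.ex ⟨(e, 0), h0⟩ ⟨_, h0, rfl⟩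
    refine ⟨x, (qc_w8 0).symm.trans (Eq.trans ?_ (hR _ x hx).1), (hR _ x hx).2.symm.trans c2,
      (strip_rep (p := ⟨(e, 0), h0⟩) (g := 0) h0 c3).rel hx hR a.op⟩
    exact congrArg qc (Prod.ext c1 rfl)

end Pool.Agent.Lib.MP_029589_gt.Eb
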