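import Pool.Agent.Lib.MP_029589_gt.Gmap

/-! The example is enlargeable. -/

set_option autoImplicit false

open scoped Manifold ContDiff Topology RealInnerProductSpace ComplexConjugate
open Set Filter Function

namespace Pool.Agent.Lib.MP_029589_gt

/-- The dilation of the lattice. -/
noncomputable def dh (m : ℕ) : Gam →* Gam :=
  MonoidHom.mk' (fun a => ⟨dil m a.val, mul_mem (natCast_mem _ m) a.int.x1,
    mul_mem (natCast_mem _ m) a.int.x2, fun i => mul_mem (natCast_mem _ m) (a.int.y i),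
    fun i => mul_mem (pow_mem (natCast_mem _ m) 2) (a.int.w i)⟩) fun _ _ => Gam.ext (dil_nmul _ _ _)

/-- The dilated lattice. -/
noncomputable def Gm (m : ℕ) : Subgroup Gam := (dh m).range

variable {m : ℕ}

lemma dil_smul (m : ℕ) (b : Gam) (p : NN) : dil m (b • p) = dh m b • dil m p := dil_nmul _ _ _

lemma dil_inv (hm : m ≠ 0) (p : NN) : dil m (dil (m : ℝ)⁻¹ p) = p := by
  rw [dil_dil, mul_inv_cancel₀ (Nat.cast_ne_zero.2 hm), dil_one]

lemma Gm_inv (hm : m ≠ 0) {W : Type} {F : NN → W} (hF : ∀ (a : Gam) p, F (a • p) = F p) (h : Gm m)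
    (p : NN) : F (dil (m : ℝ)⁻¹ (h • p)) = F (dil (m : ℝ)⁻¹ p) := by
  obtain ⟨_, b, rfl⟩ := h
  have : dh m b • p = dil m (b • dil (m : ℝ)⁻¹ p) := by rw [dil_smul, dil_inv hm]
  change F (dil _ (dh m b • p)) = _
  rw [this, dil_dil, inv_mul_cancel₀ (Nat.cast_ne_zero.2 hm), dil_one, hF]

lemma Gm_cpt (hm : m ≠ 0) (p : NN) : ∃ a : Gm m, ‖a • p‖ ≤ ‖dil m‖ := by
  obtain ⟨b, hb⟩ := cocompact (dil (m : ℝ)⁻¹ p)
  refine ⟨⟨_, b, rfl⟩, ?_⟩
  change ‖dh m b • p‖ ≤ _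
  rw [← dil_inv hm p, ← dil_smul]
  exact (dil m).unit_le_opNorm _ hb

lemma compact_QN (hm : m ≠ 0) : CompactSpace (QN (Gm m)) := by
  refine ⟨((isCompact_closedBall 0 ‖dil m‖).image (qm_cov NN (Gm m)).continuous).of_isClosed_subset
    isClosed_univ fun q _ => ?_⟩
  obtain ⟨p, rfl⟩ := Quotient.mk_surjective q
  obtain ⟨a, ha⟩ := Gm_cpt hm p
  exact ⟨_, mem_closedBall_zero_iff.2 ha, qm_smul a p⟩

/-- A constant. -/
noncomputable def cst : ℂ := s0 (0, 0) * (5 + 5 * Complex.I) / s0 (0, 1 / 2)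

/-- The comparison section. -/
noncomputable def sr (m : ℕ) (x : ℝ × ℝ) : ℂ := cst * s0 ((m ^ 2 : ℕ) * x.1 + 0, x.2 + 0)

/-- The trivialising function. -/
noncomputable def rho (m : ℕ) (x : ℝ × ℝ) : ℂ := (conj (sq x) * (‖sq x‖⁻¹ : ℝ)) ^ (m ^ 2)

/-- The interpolated section. -/
noncomputable def sv (m : ℕ) (τ : ℝ) (p : NN) : ℂ := (1 - τ) • ss (dil m p) + τ • sr m p.1

lemma s0_zero_ne (t : ℝ) : s0 (0, t) ≠ 0 :=
  norm_ne_zero_iff.1 (by simpa using (norm_s0_fst 0 t).trans_ne one_ne_zero)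

lemma five_ne : s0 (0, 0) * (5 + 5 * Complex.I) ≠ 0 :=
  mul_ne_zero (s0_zero_ne _) fun h => by simpa using congrArg Complex.re h

lemma contDiff_sr (m : ℕ) : ContDiff ℝ ∞ (sr m) := by unfold sr; fun_prop

lemma contDiff_rho {x : ℝ × ℝ} (h : sq x ≠ 0) : ContDiffAt ℝ ∞ (rho m) x :=
  ((contDiff_conj.comp contDiff_sq).contDiffAt.mul (contDiff_ofReal.contDiffAt.comp x
    ((contDiff_sq.contDiffAt.norm ℝ h).inv (norm_ne_zero_iff.2 h)))).pow _

lemma norm_rho {x : ℝ × ℝ} (h : sq x ≠ 0) : ‖rho m x‖ = 1 := by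
  simp [rho, mul_inv_cancel₀ (norm_ne_zero_iff.2 h)]

lemma norm_sq_smul (a : Gam) (p : NN) : ‖sq (a • p).1‖ = ‖sq p.1‖ := by
  rw [Gam.smul_def, nmul_x, sq_add a.int.x1 a.int.x2, norm_mul, norm_ee, one_mul]

lemma sv_smul (m : ℕ) (τ : ℝ) (a : Gam) (p : NN) :
    sv m τ (a • p) = ee (-(a.val.1.2 * p.1.1)) ^ (m ^ 2) * sv m τ p := by
  have h1 := s0_add (a := ((m ^ 2 : ℕ) * a.val.1.1, a.val.1.2)) (mul_mem (natCast_mem _ _) a.int.x1)
    a.int.x2 ((m ^ 2 : ℕ) * p.1.1, p.1.2)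
  have h2 : (dh m a).val.1.2 * (dil m p).1.1 = a.val.1.2 * ((m ^ 2 : ℕ) * p.1.1) := by
    change (m * a.val.1.2) * (m * p.1.1) = _
    push_cast; ring
  have h3 : -(a.val.1.2 * ((m ^ 2 : ℕ) * p.1.1)) = (m ^ 2 : ℕ) * -(a.val.1.2 * p.1.1) := by ring
  rw [sv, sv, dil_smul, ss_smul, h2]
  simp only [sr, Gam.smul_def, nmul_x, add_zero, Prod.fst_add, Prod.snd_add, mul_add,
    Prod.mk_add_mk, Complex.real_smul] at h1 ⊢
  rw [h1, h3, ee_nat_mul]
  ring

lemma rho_sv_smul (m : ℕ) (τ : ℝ) (a : Gam) (p : NN) :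
    rho m (a • p).1 * sv m τ (a • p) = rho m p.1 * sv m τ p := by
  have h : conj (ee (-(a.val.1.2 * p.1.1))) * ee (-(a.val.1.2 * p.1.1)) = 1 := by
    rw [← ee_neg, ee_neg_mul]
  rw [sv_smul, rho, rho, norm_sq_smul, Gam.smul_def, nmul_x, sq_add a.int.x1 a.int.x2, map_mul,
    ← mul_assoc, ← mul_pow]
  congr 2
  linear_combination (conj (sq p.1) * (‖sq p.1‖⁻¹ : ℝ)) * h

lemma exists_eta (n : ℕ) : ∃ η > 0, ∀ τ ∈ Icc (0 : ℝ) 1, ∀ p, 1 / 4 ≤ ⟪q0.1, gg p⟫ →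
    η ≤ ‖P0 (gg p)‖ + ‖sv (2 * n) τ p‖ + ‖sq p.1‖ := by
  have c1 := contDiff_gg.continuous
  have c2 := contDiff_ss.continuous
  have c3 := (contDiff_sr (2 * n)).continuous
  have c4 := contDiff_sq.continuous
  obtain ⟨η, h1, h2⟩ := (((isCompact_Icc (a := (0 : ℝ)) (b := 1)).prod
    (isCompact_closedBall (0 : NN) 1)).inter_right (isClosed_le (continuous_const (y := (1 / 4 : ℝ)))
      (g := fun u => ⟪q0.1, gg u.2⟫) (by fun_prop))).exists_forall_le'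
    (f := fun u => ‖P0 (gg u.2)‖ + ‖sv (2 * n) u.1 u.2‖ + ‖sq u.2.1‖) (a := 0)
    (by unfold sv; fun_prop) (by
      rintro ⟨τ, p⟩ ⟨-, h : 1 / 4 ≤ ⟪q0.1, gg p⟫⟩
      refine lt_of_le_of_ne (by positivity) fun e => ?_
      have a1 := norm_nonneg (P0 (gg p))
      have a2 := norm_nonneg (sv (2 * n) τ p)
      have a3 := norm_nonneg (sq p.1)
      obtain ⟨b1, b2⟩ := gg_zero (p := p) (norm_eq_zero.1 (by linarith)) (by linarith)
      obtain ⟨k, l, b3, b4⟩ := sq_eq_zero (x := p.1) (norm_eq_zero.1 (by linarith))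
      have b5 : ∀ j, j ≠ 0 → cc j (dil (2 * n : ℕ) p).2.1 = 5 := fun j hj => by
        simpa [cc, dil_apply] using Finset.sum_congr (s₁ := Finset.univ) rfl fun i _ =>
          cos_one b1 b2 (l := (j, i)) hj (2 * n)
      have b6 : (dil (2 * n : ℕ) p).1 = (0 + ((2 * n * k : ℤ) : ℝ), 0 + ((2 * n * l + n : ℤ) : ℝ)) := by
        ext <;> simp [dil_apply, b3, b4]
        ring
      have b7 := s0_shift (0, 0) (2 * n * k) (2 * n * l + n)
      have b8 := s0_shift (0, 1 / 2) (((2 * n) ^ 2 : ℕ) * k) l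
      have b9 : sv (2 * n) τ p = s0 (0, 0) * (5 + 5 * Complex.I) := by
        have := s0_zero_ne (1 / 2)
        rw [sv, ss, sf, b6, b7, b5 2 (by decide), b5 3 (by decide), zero_add ((_ : ℤ) : ℝ),
          zero_add ((_ : ℤ) : ℝ), s1_int, sr, b3, b4, cst]
        simp only [mul_zero, neg_zero, ee_zero, one_mul, zero_add, Int.cast_mul, Int.cast_natCast,
          add_comm (1 / 2 : ℝ)] at b8
        rw [add_zero, add_zero, b8]
        simp only [mul_zero, neg_zero, ee_zero, Complex.real_smul]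
        push_cast
        field_simp
        ring
      exact five_ne (b9 ▸ norm_eq_zero.1 (by linarith)))
  refine ⟨η, h1, fun τ hτ p hp => ?_⟩
  obtain ⟨a, ha⟩ := cocompact p
  simpa only [gg_smul, sv_smul, norm_sq_smul, norm_mul, norm_pow, norm_ee, one_pow, one_mul] using
    h2 (τ, a • p) ⟨⟨hτ, mem_closedBall_zero_iff.2 ha⟩, by simpa only [mem_ofPred_eq, gg_smul] using hp⟩

lemma cnt_ne {V M : Type} [NormedAddCommGroup V] [NormedSpace ℝ V] [TopologicalSpace M]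
    [ChartedSpace V M] {O : Set M} {G : M → V} {z : V} (hf : {x | x ∈ O ∧ G x = z}.Finite)
    (hn : {x | x ∈ O ∧ G x = z}.Nonempty) {s : ℝ} (h : ∀ x ∈ O, G x = z → 0 < s * jd G x) :
    cnt (fun _ => 1) O G z ≠ 0 := by
  refine right_ne_zero_of_mul (a := s) (ne_of_gt ?_)
  rw [cnt, finsum_mem_eq_finite_toFinset_sum _ hf, Finset.mul_sum]
  refine Finset.sum_pos (fun x hx => ?_) (hf.toFinset_nonempty.2 hn)
  have h1 := hf.mem_toFinset.1 hx
  rcases pos_and_pos_or_neg_and_neg_of_mul_pos (h x h1.1 h1.2) with ⟨a, b⟩ | ⟨a, b⟩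
  · simpa [sign_pos b] using a
  · simpa [sign_neg b] using a

theorem deg_ne {n : ℕ} (hn : 2 * n ≠ 0) {Y : Type} [TopologicalSpace Y] [ChartedSpace (Euc 23) Y]
    [IsManifold (𝓡 23) ∞ Y] [CompactSpace Y] {l : ZT → Y} {oY : Y → ℝ} (M : Model (Gm (2 * n)) l oY)
    {f : Y → Euc 24} (hf : ∀ z, f (l z) = gg (dil ((2 * n : ℕ) : ℝ)⁻¹ z.1)) :
    ∃ y, Reg {x | 1 / 4 < ⟪q0.1, f x⟫} (fun x => P0 (f x)) y ∧
      cnt oY {x | 1 / 4 < ⟪q0.1, f x⟫} (fun x => P0 (f x)) y ≠ 0 := by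
  have := compact_QN hn
  obtain ⟨η, hη, h1⟩ := exists_eta n
  obtain ⟨s, hs⟩ := amb_sign
  set m := 2 * n
  set D := dil (m : ℝ)⁻¹ with hD
  let B : ℝ → NN → NN := fun τ p => DD.J (P0 (gg p), rho m p.1 * sv m τ p)
  let A : ℝ → QN (Gm m) → NN := fun τ => desc (fun p => B τ (D p))
    (Gm_inv hn (F := B τ) fun a p => by simp only [B, gg_smul, rho_sv_smul])
  let T : QN (Gm m) → ℝ × ℝ := desc (fun p => (⟪q0.1, gg (D p)⟫, ‖sq (D p).1‖))
    (Gm_inv hn (F := fun p => (⟪q0.1, gg p⟫, ‖sq p.1‖)) fun a p => by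
      simp only [gg_smul, norm_sq_smul])
  have c1 := contDiff_gg.continuous
  have c4 := contDiff_sq.continuous
  have cT : Continuous T := Continuous.quotient_lift (by fun_prop) _
  have hO : IsOpen (T ⁻¹' Ioi (1 / 4) ×ˢ Ioi 0) := (isOpen_Ioi.prod isOpen_Ioi).preimage cT
  have hK : IsCompact (T ⁻¹' Ici (1 / 2) ×ˢ Ici (η / 3)) :=
    ((isClosed_Ici.prod isClosed_Ici).preimage cT).isCompact
  have hKO : T ⁻¹' Ici (1 / 2) ×ˢ Ici (η / 3) ⊆ T ⁻¹' Ioi (1 / 4) ×ˢ Ioi 0 := preimage_mono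
    (prod_mono (Ici_subset_Ioi.2 (by norm_num)) (Ici_subset_Ioi.2 (by positivity)))
  have sB : ∀ τ p, sq p.1 ≠ 0 → ContDiffAt ℝ ∞ (B τ) p := fun τ p h =>
    DD.J.contDiff.contDiffAt.comp p ((P0.contDiff.comp contDiff_gg).contDiffAt.prodMk
      (((contDiff_rho h).comp p contDiffAt_fst).mul (ContDiff.contDiffAt
        (((contDiff_ss.comp (dil m).contDiff).const_smul _).add
          (((contDiff_sr m).comp contDiff_fst).const_smul _)))))
  have sA : ∀ τ p, sq (D p).1 ≠ 0 → ContMDiffAt 𝓘(ℝ, NN) 𝓘(ℝ, NN) ∞ (A τ) (qm (Gm m) p) :=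
    fun τ p h => desc_smooth _ ((sB τ _ h).comp p D.contDiff.contDiffAt)
  have sO : ∀ τ, ContMDiffOn 𝓘(ℝ, NN) 𝓘(ℝ, NN) ∞ (A τ) (T ⁻¹' Ioi (1 / 4) ×ˢ Ioi 0) :=
    fun τ q hq => by
      obtain ⟨p, rfl⟩ := Quotient.mk_surjective q
      exact (sA τ p (norm_pos_iff.1 hq.2)).contMDiffWithinAt
  have b1 : ∀ w : Euc 24, ‖w‖ = 1 → 1 / 4 < ⟪q0.1, w⟫ → ⟪q0.1, w⟫ < 1 / 2 → 1 / 2 ≤ ‖P0 w‖ :=
    fun w h1 h2 h3 => (sq_le_sq₀ (by norm_num) (norm_nonneg _)).1 (by rw [hP0, h1]; nlinarith)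
  set δ := min (1 / 2) (η / 3) / (‖(DD.J.symm : NN →L[ℝ] Euc 23 × ℂ)‖ + 1)
  have hδ : 0 < δ := by positivity
  have far : ∀ q ∈ T ⁻¹' Ioi (1 / 4) ×ˢ Ioi 0, q ∉ T ⁻¹' Ici (1 / 2) ×ˢ Ici (η / 3) →
      ∀ τ ∈ Icc (0 : ℝ) 1, δ ≤ ‖(1 - τ) • A 0 q + τ • A 1 q‖ := fun q a1 a2 τ hτ => by
    obtain ⟨p, rfl⟩ := Quotient.mk_surjective q
    have e : (1 - τ) • B 0 (D p) + τ • B 1 (D p) = B τ (D p) := by
      simp only [B, ← map_smul, ← map_add]
      congr 1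
      ext1
      · simp [sub_smul]
      · simp [sv]; ring
    have a3 := norm_J (P0 (gg (D p))) (rho m (D p).1 * sv m τ (D p))
    rw [norm_mul, norm_rho (norm_pos_iff.1 a1.2), one_mul] at a3
    have a4 := h1 τ hτ (D p) (le_of_lt a1.1)
    refine le_trans ?_ (le_of_eq (congrArg norm e.symm))
    by_cases h : min (1 / 2) (η / 3) ≤ ‖P0 (gg (D p))‖
    · exact (div_le_div_of_nonneg_right h (by positivity)).trans a3.1
    · refine (div_le_div_of_nonneg_right ((min_le_right _ _).trans ?_) (by positivity)).trans a3.2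
      obtain ⟨a5, a6⟩ := lt_min_iff.1 (not_le.1 h)
      have a7 : ‖sq (D p).1‖ < η / 3 := not_le.1 fun h' =>
        a2 ⟨not_lt.1 fun h'' => (b1 _ (norm_gg _) a1.1 h'').not_gt a5, h'⟩
      linarith
  have far1 : ∀ q ∈ T ⁻¹' Ioi (1 / 4) ×ˢ Ioi 0, q ∉ T ⁻¹' Ici (1 / 2) ×ˢ Ici (η / 3) →
      δ ≤ ‖A 1 q - 0‖ := fun q a1 a2 => by simpa using far q a1 a2 1 (by simp)
  have e1 : ∀ p, sv m 1 p = sr m p.1 := fun p => by simp [sv]
  have dD : D.det ≠ 0 := (det_ne_zero_iff _).2 (LeftInverse.injective (g := dil m) (dil_inv hn))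
  have pos : ∀ q ∈ T ⁻¹' Ioi (1 / 4) ×ˢ Ioi 0, A 1 q = 0 → 0 < s * D.det * jd (A 1) q :=
    fun q a1 a2 => by
      obtain ⟨p, rfl⟩ := Quotient.mk_surjective q
      have a3 : sq (D p).1 ≠ 0 := norm_pos_iff.1 a1.2
      have a4 : rho m (D p).1 ≠ 0 := norm_ne_zero_iff.1 (by rw [norm_rho a3]; exact one_ne_zero)
      obtain ⟨a5, a6⟩ := Prod.ext_iff.1 (DD.J.map_eq_zero_iff.1 a2)
      obtain ⟨a7, a8⟩ := gg_zero a5 (lt_trans (by norm_num) a1.1)
      have a9 := (mul_eq_zero.1 ((e1 _).symm.trans ((mul_eq_zero.1 a6).resolve_left a4))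
        ).resolve_left (div_ne_zero five_ne (s0_zero_ne _))
      obtain ⟨-, k, -, b2⟩ := s0_eq_zero a9
      have b3 := hs (D p) (fun x => rho m x * sr m x) a7 a8
        (kap_half (k := k) (Or.inr (by simpa using b2)))
        (((PosAt.comp (by positivity) 0 0 (posAt_s0 a9)).mul (differentiableAt_const cst)
          (div_ne_zero five_ne (s0_zero_ne _))).mul
          ((contDiff_rho a3).differentiableAt (by simp)) a4)
      have b4 := md_comp ((sA 1 p a3).mdifferentiableAt (by simp)) (ldN (Gm m) p).mdiff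
      have b5 := (((sB 1 _ a3).differentiableAt (by simp)).hasFDerivAt.comp p D.hasFDerivAt).fderiv
      have b6 := congrArg ContinuousLinearMap.det
        (b5.symm.trans ((md_eq_fderiv _ _).symm.trans b4))
      simp only [← e1] at b3
      rw [det_comp', det_comp'] at b6
      refine (mul_pos_iff_of_pos_right (qm_det_pos (smN (Gm m)) (detN (Gm m)) p)).1 ?_
      rw [mul_assoc, jd, ← b6]
      nlinarith [mul_pos b3 (mul_self_pos.2 dD)]
  have k0 : cnt (fun _ => 1) (T ⁻¹' Ioi (1 / 4) ×ˢ Ioi 0) (A 1) 0 ≠ 0 := by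
    refine cnt_ne (kit_finite hO hK hKO (sO 1) (fun q a1 a2 e => ?_)
      fun q a1 a2 => right_ne_zero_of_mul (pos q a1 a2).ne') ?_ pos
    · have := far1 q a1 a2
      rw [e, sub_zero, norm_zero] at this
      exact this.not_gt hδ
    · have hm : (1 : ℝ) ≤ (m ^ 2 : ℕ) := by exact_mod_cast Nat.one_le_pow _ _ (Nat.pos_of_ne_zero hn)
      obtain ⟨p, a1, a2, a3⟩ := exists_zero (x := (1 / 2 / (m ^ 2 : ℕ), 1 / 2))
        (kap_half (k := 0) (Or.inr (by simp)))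
      have a4 : D (dil m p) = p := by
        rw [hD, dil_dil, inv_mul_cancel₀ (Nat.cast_ne_zero.2 hn), dil_one]
      refine ⟨qm (Gm m) (dil m p), ⟨?_, ?_⟩, ?_⟩
      · change 1 / 4 < ⟪q0.1, gg (D (dil m p))⟫
        rw [a4, gg_q0 a2 a3, q0_q0]; norm_num
      · change 0 < ‖sq (D (dil m p)).1‖
        rw [a4, a1, norm_pos_iff]
        intro h
        obtain ⟨k, -, h, -⟩ := sq_eq_zero h
        have a5 : (0 : ℝ) < k := h ▸ (by positivity : (0 : ℝ) < 1 / 2 / (m ^ 2 : ℕ))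
        have a6 : (k : ℝ) < 1 := h ▸ (div_lt_one (by positivity)).2 (by linarith)
        have a7 : 0 < k := by exact_mod_cast a5
        have a8 : k < 1 := by exact_mod_cast a6
        omega
      · change B 1 (D (dil m p)) = 0
        simp only [a4, B, gg_q0 a2 a3, P0_q0, e1, sr, a1, add_zero]
        rw [mul_div_cancel₀ _ (by positivity), s0_half, mul_zero, mul_zero]
        exact map_zero _
  have k1 := kit_near (oriN (Gm m)) hO hK hKO (sO 1) hδ far1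
    fun q a1 a2 => right_ne_zero_of_mul (pos q a1 a2).ne'
  have cJ : Tendsto (fun y : Euc 23 => DD.J (y, 0)) (𝓝 0) (𝓝 0) :=
    Continuous.tendsto' (by fun_prop) _ _ (map_zero _)
  have sf : ContMDiff (𝓡 23) (𝓡 24) ∞ f := fun y => by
    obtain ⟨z, rfl⟩ := M.surj y
    exact (M.ld z).desc ((funext hf : f ∘ l = _) ▸ (contDiff_gg.comp D.contDiff).contMDiff.contMDiffAt.comp z
      (LS.contMDiff_val z))
  have c2 : Continuous fun y => ⟪q0.1, f y⟫ := continuous_const.inner sf.continuous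
  obtain ⟨y, ⟨⟨⟨k2, k3⟩, k4⟩, k5⟩, k6⟩ := kit_sard (isOpen_lt (continuous_const (y := (1 / 4 : ℝ))) c2)
    (isClosed_le (continuous_const (y := (1 / 2 : ℝ))) c2).isCompact
    (fun y hy => lt_of_lt_of_le (by norm_num : (1 / 4 : ℝ) < 1 / 2) hy)
    (P0.contMDiff.comp sf).contMDiffOn (z := 0) (δ := 1 / 2) (by norm_num) (fun x a1 a2 => by
      obtain ⟨z, rfl⟩ := M.surj x
      simpa using b1 _ (by rw [hf, norm_gg]) a1 (not_le.1 a2))
    (inter_mem (inter_mem (cJ k1) (cJ (Metric.closedBall_mem_nhds 0 (half_pos hδ))))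
      (Metric.ball_mem_nhds 0 hη))
  obtain ⟨t1, t2⟩ := transfer (A := A 0) (ρ := fun p => rho m (D p).1) (G := fun x => P0 (f x))
    (F := fun p => P0 (gg (D p))) M.ld M.surj M.orb M.ori (fun z => congrArg P0 (hf z))
    (fun p => by simp [A, B, desc, sv, hD, dil_inv hn]) (P0.contDiff.comp (contDiff_gg.comp D.contDiff))
    (O := T ⁻¹' Ioi (1 / 4) ×ˢ Ioi 0) (fun p hp => ⟨ContDiffAt.comp (g := rho m) p
      (contDiff_rho (norm_pos_iff.1 hp.2)) D.contDiff.contDiffAt.fst, norm_ne_zero_iff.1 (by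
        rw [norm_rho (norm_pos_iff.1 hp.2)]; exact one_ne_zero)⟩)
    (O1 := {x | 1 / 4 < ⟪q0.1, f x⟫}) (y := y) fun z hz => by
      rw [mem_ofPred_eq, hf]
      refine ⟨fun h => ⟨h, ?_⟩, fun h => h.1⟩
      have a1 := h1 0 (by simp) _ h.le
      have a2 : sv m 0 (D z.1) = 0 := by simpa [sv, hD, dil_inv hn] using z.eq
      rw [hz, a2, norm_zero] at a1
      change 0 < ‖sq (D z.1).1‖
      linarith [mem_ball_zero_iff.1 k5]
  refine ⟨y, k6, ?_⟩
  rw [t2, kit_main (oriN _) hO hK hKO (sO 0) (sO 1) (half_pos hδ) (fun q a1 a2 τ hτ => by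
    linarith [far q a1 a2 τ hτ, norm_sub_norm_le ((1 - τ) • A 0 q + τ • A 1 q) (DD.J (y, 0)),
      mem_closedBall_zero_iff.1 k4]) (t1 k6) k2, k3]
  exact k0

/-- The projection to a quotient. -/
noncomputable def qX (H : Subgroup Gam) : ZT → (XX H).M := qm H

lemma qX_ld (H : Subgroup Gam) (z : ZT) : LD (Euc 23) (qX H) z := ldZ H z

lemma qX_surj (H : Subgroup Gam) : Surjective (qX H) := Quotient.mk_surjective

lemma md_pX (H : Subgroup Gam) (z : ZT) : md (Euc 23) (Euc 23) pX z =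
    (md (Euc 23) (Euc 23) (toX H) (qX H z)).comp (md (Euc 23) (Euc 23) (qX H) z) :=
  md_comp (toX_ld _).mdiff (qX_ld H z).mdiff

lemma model_qX (H : Subgroup Gam) :
    Model H (qX H) fun y => 1 * (SignType.sign (jdet 23 (toX H) y) : ℝ) :=
  ⟨qX_ld H, qX_surj H, fun _ _ => qm_eq, fun z => by
    have h6 : 0 < (md (Euc 23) (Euc 23) pX z).det := detZ ⊤ z
    rw [md_pX H, det_comp'] at h6
    rw [one_mul, ← SignType.coe_mul, ← sign_mul]
    exact (congrArg _ (sign_pos h6)).trans SignType.coe_one⟩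

theorem cpt_enlargeable (g : (XX ⊤).Metric) (ε : ℝ) (hε : 0 < ε) :
    ∃ C : Cover (XX ⊤), CompactSpace C.Y.M ∧ C.EpsSpherical g (fun _ => 1) ε := by
  obtain ⟨C, hC, h1⟩ := gg_lip g
  obtain ⟨n, h2⟩ := exists_nat_gt (C / ε)
  have h3 : (0 : ℝ) < n := (div_pos hC hε).trans h2
  have h4 : 0 < n := Nat.cast_pos.1 h3
  have hn : 2 * n ≠ 0 := by omega
  have := compact_XX (Gm_cpt hn)
  have h5 := h1 ((2 * n : ℕ) : ℝ)⁻¹ (by positivity)
    (inv_le_one_of_one_le₀ (by exact_mod_cast Nat.one_le_iff_ne_zero.2 hn))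
  let F : ZT → Sph 23 := fun z => ⟨_, mem_sphere_zero_iff_norm.2 (norm_gg (dil ((2 * n : ℕ) : ℝ)⁻¹ z.1))⟩
  let f : (XX (Gm (2 * n))).M → Sph 23 :=
    desc F fun h z => Subtype.ext (Gm_inv hn gg_smul h z.1)
  have sf : ContMDiff (𝓡 23) (𝓡 23) ∞ f := fun y => by
    obtain ⟨z, rfl⟩ := qX_surj _ y
    have : Fact (Module.finrank ℝ (Euc 24) = 23 + 1) := ⟨finrank_euclideanSpace_fin⟩
    exact (qX_ld _ z).desc (h5.1.codRestrict_sphere (n := 23) (fun z => (F z).2) z)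
  obtain ⟨y, a1, a2⟩ := deg_ne hn (model_qX _) (f := fun y => f y) fun _ => rfl
  obtain ⟨x, a3, rfl⟩ : ∃ x, 1 / 4 < ⟪q0.1, (f x).1⟫ ∧ P0 (f x) = y := by
    by_contra h
    exact a2 (cnt_empty fun x a b => h ⟨x, a, b⟩)
  obtain ⟨r1, r2⟩ := cnt_proj sf hP0 a3 fun y => 1 * (SignType.sign (jdet 23 (toX (Gm (2 * n))) y) : ℝ)
  refine ⟨covX, this, f, sf, fun y v => ?_, ⟨univ, this.1, fun y h => absurd trivial h⟩, f x,
    fun h => ?_, r1.1 a1, r2.1 a2⟩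
  · obtain ⟨z, rfl⟩ := qX_surj _ y
    obtain ⟨v, rfl⟩ := (qX_ld (Gm (2 * n)) z).surj v
    have h6 := h5.2 z v
    have h7 := md_comp ((smooth_coe.comp sf _).mdifferentiableAt (by simp)) (qX_ld _ z).mdiff
    rw [md_pX (Gm (2 * n))] at h6
    refine (le_nrm_iff g _ _ (norm_nonneg _) hε.le).2
      (((congrArg norm (DFunLike.congr_fun h7 v)).symm.trans_le h6).trans
        (mul_le_mul_of_nonneg_right ?_ (nrm_nonneg _ _ _)))
    rw [div_lt_iff₀ hε] at h2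
    rw [← div_eq_mul_inv, div_le_iff₀ (by positivity)]
    push_cast
    nlinarith
  · rw [h] at a3
    linarith [q0_base]

theorem enlargeable (g : (XX ⊤).Metric) : Enlargeable (XX ⊤) g fun _ => 1 :=
  fun ε hε => (cpt_enlargeable g ε hε).imp fun _ h => h.2

/-- The universal covering. -/
noncomputable def covU : Cover (XX ⊤) where
  Y := { M := ZT }
  p := pX
  cov := qm_cov ZT _
  loc := pX_ld

theorem exists_infinite_cover : ∃ (C : Cover (XX ⊤)) (x : (XX ⊤).M), (C.p ⁻¹' {x}).Infinite := by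
  obtain ⟨z⟩ : Nonempty ZT := inferInstance
  let a : ℕ → Gam := fun k => ⟨((k, 0), 0), natCast_mem _ k, zero_mem _, fun _ => zero_mem _,
    fun _ => zero_mem _⟩
  refine ⟨covU, pX z, infinite_of_injective_forall_mem (f := fun k => a k • z) (fun k l h => ?_)
    fun k => pX_smul _ z⟩
  exact Nat.cast_injective (R := ℝ)
    (congrArg (fun b : Gam => b.val.1.1) (IsCancelSMul.right_cancel _ _ z h))

end Pool.Agent.Lib.MP_029589_gt
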