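import Pool.Agent.Lib.MP_029589_gt.Fil
import Pool.Agent.Lib.MP_029589_gt.Col

/-! Etale multivalued maps, the standard torus, and models of the filiform lattice. -/

set_option autoImplicit false

open scoped Manifold ContDiff Topology
open Set Filter Function Topology

namespace Pool.Agent.Lib.MP_029589_gt

/-- Integer vectors in Euclidean four-space. -/
noncomputable def lat (a : Fin 4 → ℤ) : Euc 4 := WithLp.toLp 2 (cz a)

@[simp] lemma lat_apply (a : Fin 4 → ℤ) (i : Fin 4) : lat a i = a i := rfl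

lemma lat_add (a b : Fin 4 → ℤ) : lat (a + b) = lat a + lat b := by ext; simp

@[simp] lemma lat_zero : lat 0 = 0 := by ext; simp

/-- The half open unit cube. -/
def cube : Set (Euc 4) := {u | ∀ i, u i ∈ Ico (0 : ℝ) 1}

/-- Smooth self-maps of the four-torus which are homotopic to the identity. -/
def Eqv4 (κ : Euc 4 → Fin 4 → ℝ) : Prop := ContDiff ℝ ∞ κ ∧ ∀ u a, κ (u + lat a) = κ u + cz a

/-- The corresponding map to the group. -/
def tor (κ : Euc 4 → Fin 4 → ℝ) (u : Euc 4) : GR := (io (κ u), 0)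

/-- Etale multivalued maps over `B`, smooth when read in `P` through `ϖ`, and proper over the
unit ball. -/
structure Et (k : ℕ) {P B : Type} [NormedAddCommGroup P] [NormedSpace ℝ P] [TopologicalSpace B]
    (ϖ : P → B) where
  /-- The total space. -/
  F : Type
  [top : TopologicalSpace F]
  [t2 : T2Space F]
  /-- The projection. -/
  π : F → B
  loc : IsLocalHomeomorph π
  /-- The map. -/
  f : F → Euc k
  sm : ∀ e g, ϖ g = π e → ContDiffAt ℝ ∞ (f ∘ loc.localInverseAt e ∘ ϖ) g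
  prop : ∀ K : Set P, IsCompact K →
    IsCompact {z : P × F | z.1 ∈ K ∧ ϖ z.1 = π z.2 ∧ ‖f z.2‖ ≤ 1}

attribute [instance] Et.top Et.t2

variable {k : ℕ} {P B : Type} [NormedAddCommGroup P] [NormedSpace ℝ P] [TopologicalSpace B]
  {ϖ : P → B}

/-- The differential on the sheet through `e`. -/
noncomputable def Et.df (D : Et k ϖ) (e : D.F) (g : P) : P →L[ℝ] Euc k :=
  fderiv ℝ (D.f ∘ D.loc.localInverseAt e ∘ ϖ) g

/-- The signed number of preimages along `m` over the unit cube. -/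
noncomputable def Et.num (D : Et 4 ϖ) (m : Euc 4 → P) (y : Euc 4) : ℝ :=
  ∑ᶠ z ∈ {z : Euc 4 × D.F | z.1 ∈ cube ∧ ϖ (m z.1) = D.π z.2 ∧ D.f z.2 = y},
    (SignType.sign ((D.df z.2 (m z.1)).comp (fderiv ℝ m z.1)).det : ℝ)

lemma Et.lift_eq (D : Et k ϖ) {Z : Type} [TopologicalSpace Z] {s : Z → D.F} {m : Z → P} {z : Z}
    (hs : ContinuousAt s z) (h : ∀ᶠ w in 𝓝 z, D.π (s w) = ϖ (m w)) :
    D.f ∘ s =ᶠ[𝓝 z] (D.f ∘ D.loc.localInverseAt (s z) ∘ ϖ) ∘ m := by
  filter_upwards [h, hs.eventually ((D.loc.localInverseAt (s z)).open_target.mem_nhds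
    D.loc.self_mem_localInverseAt_target)] with w h1 h2
  have := (D.loc.localInverseAt (s z)).right_inv h2
  rw [IsLocalHomeomorph.localInverseAt_symm, h1] at this
  exact congrArg D.f this.symm

/-- All Jacobians along the standard torus have the same sign, and one of them is non-zero. -/
def Et.Pos (D : Et 4 (qm Gf : GR → BB)) : Prop :=
  ∃ s : ℝ, (∀ u e, qm Gf (tor (fun u => u) u) = D.π e → ‖D.f e‖ ≤ 1 →
      0 ≤ s * ((D.df e (tor (fun u => u) u)).comp (fderiv ℝ (tor fun u => u) u)).det) ∧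
    ∃ u e, qm Gf (tor (fun u => u) u) = D.π e ∧ D.f e = 0 ∧
      0 < s * ((D.df e (tor (fun u => u) u)).comp (fderiv ℝ (tor fun u => u) u)).det

/-- Local smooth lifts of a map to the nilmanifold. -/
def LocLift {n : ℕ} {X : Mfd n} (Φ : X.M → BB) (Φ' : X.M → GR) (x : X.M) : Prop :=
  ∀ᶠ y in 𝓝 x, ContMDiffAt (𝓡 n) 𝓘(ℝ, GR) ∞ Φ' y ∧ qm Gf (Φ' y) = Φ y

/-- The manifold has the filiform lattice as fundamental group and represents the class of the
standard four-torus. -/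
structure IsModel (X : Mfd 4) (o : X.M → ℝ) (Φ : X.M → BB) : Prop where
  sm : ∀ x, ∃ Φ', LocLift Φ Φ' x
  conn : PreconnectedSpace (Pb Φ (qm Gf))
  triv : ∀ (E : Type) [TopologicalSpace E] (p : E → X.M), IsCoveringMap p →
    Lf p (fun z : Pb Φ (qm Gf) => z.1.1) univ
  par : ∃ (U : Set (Euc 4)) (j : Euc 4 → X.M) (κ : Euc 4 → Fin 4 → ℝ), IsOpen U ∧ Eqv4 κ ∧
    (∀ u a, u + lat a ∈ U ↔ u ∈ U) ∧ (∀ u a, j (u + lat a) = j u) ∧
    (∀ u ∈ U, LD (Euc 4) j u ∧ opull (Euc 4) o j u = 1 ∧ Φ (j u) = qm Gf (tor κ u)) ∧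
    (∀ u ∈ U, ∀ u' ∈ U, j u = j u' → ∃ a, u' = u + lat a) ∧
    (∀ u ∉ U, ¬Injective (fderiv ℝ κ u)) ∧
    ∀ x ∉ j '' U, ∃ Φ', LocLift Φ Φ' x ∧ ¬Injective (md (Euc 4) GR Φ' x)

end Pool.Agent.Lib.MP_029589_gt
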