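import Pool.Agent.Lib.MP_029589_gt.Dbl

/-! Coverings of the double glued from two coverings of the manifold. -/

set_option autoImplicit false

open scoped Manifold ContDiff Topology
open Set Filter Function Topology Metric EuclideanGeometry

namespace Pool.Agent.Lib.MP_029589_gt

section Top

variable {P Q X D Y : Type} [TopologicalSpace P] [TopologicalSpace Q] [TopologicalSpace X]
  [TopologicalSpace D] [TopologicalSpace Y] {p : P → X} {q : Q → X} {O U : Set X} {κ : Type}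
  {s : κ → X → P} {t : κ → X → Q} {e e' : X → D}

lemma cov_surj [PreconnectedSpace X] [Nonempty P] (cov : IsCoveringMap p) : Surjective p := by
  refine range_eq_univ.1 (IsClopen.eq_univ ⟨isOpen_compl_iff.1 (isOpen_iff_mem_nhds.2 fun x hx => ?_),
    cov.isOpenMap.isOpen_range⟩ (range_nonempty _))
  obtain ⟨V, hV, h1, s, -, -, -, h2, -⟩ := sections_of_cov cov x
  filter_upwards [hV.mem_nhds h1]
  rintro _ h ⟨a, rfl⟩
  obtain ⟨k, -⟩ := h2 a h
  exact hx ⟨k, k.2⟩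

lemma half_open (hq : IsLocalHomeomorph q) (hs : Secs p U s) (ht : Secs q U t) (hU : IsOpen U)
    (he : IsOpenEmbedding (O.domRestrict e)) (he' : IsOpenEmbedding (O.domRestrict e'))
    (hr : ∀ x ∈ O, ∀ y ∈ O, e x = e' y → x ∈ U ∧ y ∈ U) (W : Set (p ⁻¹' O)) (hW : IsOpen W) :
    IsOpen {a' : q ⁻¹' O | ∃ a ∈ W, e (p a) = e' (q a') ∧ ∃ k, s k (p a) = a ∧ t k (q a') = a'} := by
  obtain ⟨W, hW', rfl⟩ := isOpen_induced_iff.1 hW
  refine isOpen_iff_mem_nhds.2 ?_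
  rintro a' ⟨a, h1, h2, k, h3, h4⟩
  obtain ⟨h5, h6⟩ := hr _ a.2 _ a'.2 h2
  have h7 : Subtype.val ⁻¹' (U ∩ s k ⁻¹' W) ∈ 𝓝 (⟨p a, a.2⟩ : O) :=
    continuous_subtype_val.continuousAt.preimage_mem_nhds (inter_mem (hU.mem_nhds h5)
      ((hs.cont k).continuousAt (hU.mem_nhds h5) (hW'.mem_nhds (h3.symm ▸ h1))))
  have h8 := he.isOpenMap.image_mem_nhds h7
  rw [domRestrict_apply, h2] at h8
  filter_upwards [(he'.continuous.comp (hq.continuous.restrictPreimage (s := O))).continuousAt h8,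
    continuous_subtype_val.continuousAt.eventually (sec_eventually hq.isLocalHomeomorphOn
      ((ht.cont k).continuousAt (hU.mem_nhds h6)) h4 (eventually_of_mem (hU.mem_nhds h6) (ht.sec k)))]
  rintro b ⟨x, ⟨b1, b2⟩, b3⟩ b4
  have b5 := hs.sec k x b1
  exact ⟨⟨s k x, show p _ ∈ O from b5.symm ▸ x.2⟩, b2, b5.symm ▸ b3, k, congrArg (s k) b5, b4⟩

lemma half_cov (cov : IsCoveringMap p) {π : Y → D} {i : p ⁻¹' O → Y} (hi : IsOpenEmbedding i)
    (he : IsOpenEmbedding (O.domRestrict e)) (h : ∀ a, π (i a) = e (p a))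
    (hr : ∀ y, ∀ x ∈ O, π y = e x → ∃ a, i a = y) : IsCoveringMapOn π (range (O.domRestrict e)) := by
  have h1 : range i = π ⁻¹' range (O.domRestrict e) := Set.ext fun y =>
    ⟨by rintro ⟨a, rfl⟩; exact ⟨⟨_, a.2⟩, (h a).symm⟩, fun ⟨x, hx⟩ => hr y x x.2 hx.symm⟩
  refine .of_isCoveringMap_restrictPreimage _ he.isOpen_range (h1 ▸ hi.isOpen_range)
    ((IsCoveringMap.comp_homeomorph_iff (hi.isEmbedding.toHomeomorph.trans (.setCongr h1))).1 ?_)
  convert (cov.restrictPreimage O).homeomorph_comp he.isEmbedding.toHomeomorph using 1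
  exact funext fun a => Subtype.ext (h a)

theorem exists_dcov (cp : IsCoveringMap p) (cq : IsCoveringMap q) (hs : Secs p U s)
    (ht : Secs q U t) (hU : IsOpen U) (hO : IsOpen O) (hne : (p ⁻¹' O).Nonempty)
    (he : IsOpenEmbedding (O.domRestrict e)) (he' : IsOpenEmbedding (O.domRestrict e'))
    (hr : ∀ x ∈ O, ∀ y ∈ O, e x = e' y → x ∈ U ∧ y ∈ U)
    (hu : ∀ z, (∃ x ∈ O, e x = z) ∨ ∃ y ∈ O, e' y = z) :
    ∃ (Y : Type) (_ : TopologicalSpace Y) (π : Y → D) (i : P → Y) (j : Q → Y), IsCoveringMap π ∧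
      IsLocalHomeomorphOn i (p ⁻¹' O) ∧ IsLocalHomeomorphOn j (q ⁻¹' O) ∧ InjOn i (p ⁻¹' O) ∧
      InjOn j (q ⁻¹' O) ∧ (∀ a, p a ∈ O → π (i a) = e (p a)) ∧ (∀ a, q a ∈ O → π (j a) = e' (q a)) ∧
      (∀ y, ∀ x ∈ O, π y = e x → ∃ a, p a = x ∧ i a = y) ∧
      (∀ y, ∀ x ∈ O, π y = e' x → ∃ a, q a = x ∧ j a = y) ∧
      ∀ a a', p a ∈ O → q a' ∈ O →
        (i a = j a' ↔ e (p a) = e' (q a') ∧ ∃ k, s k (p a) = a ∧ t k (q a') = a') := by
  classical
  have ie : InjOn e O := injOn_iff_injective.2 he.injective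
  have ie' : InjOn e' O := injOn_iff_injective.2 he'.injective
  have hr' : ∀ x ∈ O, ∀ y ∈ O, e' x = e y → x ∈ U ∧ y ∈ U := fun x a y b c =>
    (hr y b x a c.symm).symm
  obtain ⟨Y, _, i, j, hi, hj, hy, hR⟩ := exists_glue (A := p ⁻¹' O) (P := q ⁻¹' O)
    (fun a a' => e (p a) = e' (q a') ∧ ∃ k, s k (p a) = a ∧ t k (q a') = a')
    (fun a b b' ⟨h1, k, h2, h3⟩ ⟨h4, k', h5, h6⟩ => Subtype.ext (by
      rw [← h3, ← h6, hs.inj _ _ _ (hr _ a.2 _ b.2 h1).1 (h2.trans h5.symm),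
        ie' b.2 b'.2 (h1.symm.trans h4)]))
    (fun b b' a ⟨h1, k, h2, h3⟩ ⟨h4, k', h5, h6⟩ => Subtype.ext (by
      rw [← h2, ← h5, ht.inj _ _ _ (hr _ b.2 _ a.2 h1).2 (h3.trans h6.symm),
        ie b.2 b'.2 (h1.trans h4.symm)]))
    (half_open cq.isLocalHomeomorph hs ht hU he he' hr) fun W hW => by
      simpa only [eq_comm (a := e _), and_comm (a := s _ _ = _)] using
        half_open cp.isLocalHomeomorph ht hs hU he' he hr' W hW
  let π : Y → D := fun y => if h : ∃ a, i a = y then e (p h.choose) else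
    e' (q ((hy y).resolve_left h).choose)
  have pi : ∀ a, π (i a) = e (p a) := fun a => by
    have h : ∃ a', i a' = i a := ⟨a, rfl⟩
    simp only [π, dif_pos h, hi.injective h.choose_spec]
  have pj : ∀ a, π (j a) = e' (q a) := fun a => by
    by_cases h : ∃ a', i a' = j a
    · obtain ⟨a', h⟩ := h
      rw [← h, pi, ((hR _ _).1 h).1]
    · simp only [π, dif_neg h]
      rw [hj.injective ((hy (j a)).resolve_left h).choose_spec]
  have ri : ∀ y, ∀ x ∈ O, π y = e x → ∃ a, i a = y := fun y x hx h => by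
    rcases hy y with h' | ⟨a, rfl⟩
    · exact h'
    · rw [pj] at h
      obtain ⟨h1, h2⟩ := hr' _ a.2 _ hx h
      obtain ⟨k, hk⟩ := ht.sur _ h1
      have h3 := hs.sec k x h2
      exact ⟨⟨s k x, show p _ ∈ O from h3.symm ▸ hx⟩, (hR _ _).2 ⟨h3.symm ▸ h.symm, k, congrArg (s k) h3, hk⟩⟩
  have rj : ∀ y, ∀ x ∈ O, π y = e' x → ∃ a, j a = y := fun y x hx h => by
    rcases hy y with ⟨a, rfl⟩ | h'
    · rw [pi] at h
      obtain ⟨h1, h2⟩ := hr _ a.2 _ hx h
      obtain ⟨k, hk⟩ := hs.sur _ h1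
      have h3 := ht.sec k x h2
      exact ⟨⟨t k x, show q _ ∈ O from h3.symm ▸ hx⟩, ((hR _ _).2 ⟨h3.symm ▸ h, k, hk, congrArg (t k) h3⟩).symm⟩
    · exact h'
  obtain ⟨a0, ha0⟩ := hne
  let I : P → Y := fun a => if h : p a ∈ O then i ⟨a, h⟩ else i ⟨a0, ha0⟩
  let J : Q → Y := fun a => if h : q a ∈ O then j ⟨a, h⟩ else i ⟨a0, ha0⟩
  have k0 : ∀ a (h : p a ∈ O), I a = i ⟨a, h⟩ := fun a h => dif_pos h
  have k1 : ∀ a (h : q a ∈ O), J a = j ⟨a, h⟩ := fun a h => dif_pos h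
  refine ⟨Y, inferInstance, π, I, J, fun z => ?_,
    locH_ext (hO.preimage cp.continuous) hi fun a => k0 a a.2,
    locH_ext (hO.preimage cq.continuous) hj fun a => k1 a a.2, fun a h a' h' c => ?_,
    fun a h a' h' c => ?_, fun a h => by rw [k0 a h, pi], fun a h => by rw [k1 a h, pj],
    fun y x hx h => ?_, fun y x hx h => ?_, fun a a' h h' => by rw [k0 a h, k1 a' h', hR]⟩
  · rcases hu z with ⟨x, hx, rfl⟩ | ⟨x, hx, rfl⟩
    exacts [half_cov cp hi he pi ri _ ⟨⟨x, hx⟩, rfl⟩, half_cov cq hj he' pj rj _ ⟨⟨x, hx⟩, rfl⟩]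
  · rw [k0 a h, k0 a' h'] at c
    exact congrArg Subtype.val (hi.injective c)
  · rw [k1 a h, k1 a' h'] at c
    exact congrArg Subtype.val (hj.injective c)
  · obtain ⟨a, rfl⟩ := ri y x hx h
    exact ⟨a, ie a.2 hx ((pi a).symm.trans h), k0 a a.2⟩
  · obtain ⟨a, rfl⟩ := rj y x hx h
    exact ⟨a, ie' a.2 hx ((pj a).symm.trans h), k1 a a.2⟩

end Top

variable {n : ℕ} {X : Mfd n}

/-- The total space of a family of coverings. -/
abbrev Tot {ι : Type} (C : ι → Cover X) : Type := Σ k, (C k).Y.M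

/-- The projection of a family of coverings. -/
def totP {ι : Type} (C : ι → Cover X) (a : Tot C) : X.M := (C a.1).p a.2

lemma tot_secs {ι : Type} {C : ι → Cover X} {U : Set X.M} {κ : ι → Type}
    {s : ∀ k, κ k → X.M → (C k).Y.M} (hs : ∀ k, Secs (C k).p U (s k)) :
    Secs (totP C) U fun (c : Σ k, κ k) y => ⟨c.1, s c.1 c.2 y⟩ := by
  refine ⟨fun c => continuous_sigmaMk.comp_continuousOn ((hs _).cont _), fun c => (hs _).sec _, ?_,
    fun a ha => ?_⟩
  · rintro ⟨k, c⟩ ⟨k', c'⟩ y hy a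
    obtain ⟨rfl, a⟩ := Sigma.mk.inj a
    rw [(hs k).inj c c' y hy (eq_of_heq a)]
  · obtain ⟨c, hc⟩ := (hs a.1).sur a.2 ha
    exact ⟨⟨a.1, c⟩, congrArg (Sigma.mk a.1) hc⟩

lemma tot_cov {ι : Type} (C : ι → Cover X) : IsCoveringMap (totP C) := fun x => by
  obtain ⟨φ, h, -⟩ := exists_big x univ_mem
  choose s hs _ using fun k => h.secs (C k).cov
  have hl : IsLocalHomeomorph (totP C) := fun a =>
    IsLocalHomeomorphOn.of_comp_right (s := univ) (f := Sigma.mk a.1) (g := totP C)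
      (C a.1).cov.isLocalHomeomorph.isLocalHomeomorphOn
      IsOpenEmbedding.sigmaMk.isLocalHomeomorph.isLocalHomeomorphOn _ ⟨a.2, trivial, rfl⟩
  have := tot_secs hs
  exact evenly_of_sections φ.open_source (φ.open_source.preimage hl.continuous)
    hl.isLocalHomeomorphOn _ this.cont this.sec this.inj this.sur h.mem

/-- The trivial covering. -/
def triv (X : Mfd n) : Cover X := ⟨X, id, cov_id, LD.id'⟩

end Pool.Agent.Lib.MP_029589_gt
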