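import Pool.Agent.Lib.MP_029589_gt.Flat
import Pool.Agent.Lib.MP_029589_gt.Tree

/-! A hyperspherical covering of the double. -/

set_option autoImplicit false

open scoped Manifold ContDiff Topology
open Set Filter Function Topology Metric EuclideanGeometry

namespace Pool.Agent.Lib.MP_029589_gt

lemma fs_transfer {V M N T : Type} [NormedAddCommGroup V] [NormedSpace ℝ V] [TopologicalSpace M]
    [ChartedSpace V M] [TopologicalSpace N] [ChartedSpace V N] [TopologicalSpace T]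
    [ChartedSpace V T] {o : N → ℝ} {i : M → N} {S : Set M} {S' : Set N} {f : N → T} {f' : M → T}
    (hb : BijOn i S S') (h : ∀ x ∈ S, LD V i x ∧ MDifferentiableAt 𝓘(ℝ, V) 𝓘(ℝ, V) f (i x) ∧
      f ∘ i =ᶠ[𝓝 x] f') (r : ∀ x ∈ S, (md V V f' x).det ≠ 0) :
    ∑ᶠ x ∈ S, opull V o i x * (SignType.sign (md V V f' x).det : ℝ) =
      ∑ᶠ y ∈ S', o y * (SignType.sign (md V V f y).det : ℝ) ∧ ∀ y ∈ S', (md V V f y).det ≠ 0 := by
  have key : ∀ x ∈ S, (md V V f' x).det = (md V V f (i x)).det * (md V V i x).det := fun x h1 => by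
    obtain ⟨a, b, c⟩ := h x h1
    rw [← md_congr c, md_comp b a.mdiff, det_comp']
  refine ⟨finsum_mem_eq_of_bijOn i hb fun x hx => ?_, fun z h1 => ?_⟩
  · rw [key x hx, opull, sign_mul]
    push_cast
    linear_combination o (i x) * (SignType.sign (md V V f (i x)).det : ℝ) * sign_sq' (h x hx).1.det_ne
  · obtain ⟨x, hx, rfl⟩ := hb.surjOn h1
    exact left_ne_zero_of_mul (key x hx ▸ r x hx)

lemma lc_const {E T : Type} [TopologicalSpace E] {S : Set E} (hS : IsPreconnected S) {f : E → T}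
    (h : ∀ a ∈ S, ∀ᶠ a' in 𝓝 a, f a' = f a) {a b : E} (ha : a ∈ S) (hb : b ∈ S) : f a = f b :=
  hS.induction₂ (fun a b => f a = f b)
    (fun a ha => ((h a ha).filter_mono nhdsWithin_le_nhds).mono fun _ h => h.symm)
    (fun _ _ _ _ _ _ => Eq.trans) (fun _ _ _ _ => Eq.symm) ha hb

variable {n : ℕ} {X D : Mfd n} {φ : OpenPartialHomeomorph X.M (Euc n)} {x0 : X.M}
  {e : Bool → X.M → D.M}

lemma jdet_zero (hn : 0 < n) {M N : Type} [TopologicalSpace M] [ChartedSpace (Euc n) M]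
    [TopologicalSpace N] [ChartedSpace (Euc n) N] {f : M → N} {x : M}
    (h : ∀ᶠ y in 𝓝 x, f y = f x) : jdet n f x = 0 := by
  have h1 : dif n n f x = 0 := (md_congr (V := Euc n) (W := Euc n) h).trans mfderiv_const
  by_contra h2
  have : Nonempty (Fin n) := ⟨⟨0, hn⟩⟩
  obtain ⟨v, hv⟩ := exists_ne (0 : Euc n)
  exact hv ((det_ne_zero_iff _).1 h2 (by rw [h1]; rfl))

lemma Dbl.emb (d : Dbl φ x0 e) {O : Set X.M} (hO : IsOpen O) (hx : O ⊆ {x0}ᶜ) (b : Bool) :
    IsOpenEmbedding (O.domRestrict (e b)) := by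
  have : IsLocalDiffeomorphOn (𝓡 n) (𝓡 n) ∞ (e b) O := fun x => d.ld b x (hx x.2)
  refine IsLocalHomeomorph.isOpenEmbedding_of_injective
    (isLocalHomeomorph_iff_isLocalHomeomorphOn_univ.2 (this.isLocalHomeomorphOn.comp
      hO.isOpenEmbedding_subtypeVal.isLocalHomeomorph.isLocalHomeomorphOn fun x _ => x.2))
    (injOn_iff_injective.1 ((d.inj b).mono hx))

/-- Maps which are locally constant over a ball and send a given point to the base-point. -/
lemma good_map (h : Big X φ x0) [CompactSpace X.M] {o : X.M → ℝ} (ho : Ori (Euc n) o)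
    (g : X.Metric) : ∃ A > 0, ∀ (C : Cover X) (c : C.Y.M) (ε : ℝ), C.p c = x0 → 0 ≤ ε →
      A * ε ≤ 1 / 5 → CompactSpace C.Y.M → C.EpsSpherical g o ε → ∃ f : C.Y.M → Sph n,
        ContMDiff (𝓡 n) (𝓡 n) ∞ f ∧ Lip g C.p (A * ε) (fun a => (f a : Euc (n + 1))) ∧
        f c = base n ∧ (∀ a, C.p a ∈ φ.symm '' closedBall 0 2 → ∀ᶠ a' in 𝓝 a, f a' = f a) ∧
        ∃ q, (∀ a, f a = q → jdet n f a ≠ 0) ∧
          ∑ᶠ a ∈ f ⁻¹' {q}, opull (Euc n) o C.p a * (SignType.sign (jdet n f a) : ℝ) ≠ 0 := by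
  obtain ⟨A, hA, H⟩ := flatten_sph g φ.open_source (by
      convert isPreconnected_univ.image _ h.cont.continuousOn using 1
      exact Set.ext fun x => by rw [h.mem_img]; simp)
    ((isCompact_closedBall 0 2).image h.cont).isClosed fun x hx => (h.mem_img.1 hx).1
  refine ⟨A, hA, fun C c ε hc hε hA' _ ⟨f, f1, f2, _, q, f3, f4, f5⟩ => ?_⟩
  obtain ⟨s, hs, -⟩ := h.secs C.cov
  obtain ⟨f', a1, a2, a3, a4⟩ := H (f := f) C.cov C.loc (fun a ha y hy => by
      obtain rfl : C.p y = a := hy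
      obtain ⟨k, hk⟩ := hs.sur y ha
      exact ⟨s k, hs.cont k, hs.sec k, hk⟩) hε hA' ⟨smooth_coe.comp f1, fun y v =>
    (le_nrm_iff g _ _ (norm_nonneg _) hε).1 (f2 y v)⟩
  obtain ⟨q', -, b1, b2⟩ := perturb (ori_pull ho C.loc) f1 a1 a3 isCompact_univ
    (fun _ h => absurd trivial h) f3 f4 f5
  obtain ⟨R, r, r1, r2, r3, r4, r5, r6⟩ := exists_rot (f' c) (base n)
  have j : ∀ a, f' a = q' → jdet n (r ∘ f') a = jdet n r q' * jdet n f' a := fun a ha =>
    ha ▸ (congrArg ContinuousLinearMap.det (md_comp ((r5 _).mdifferentiableAt (by simp))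
      ((a1 a).mdifferentiableAt (by simp)))).trans (det_comp' _ _)
  refine ⟨r ∘ f', r5.comp a1, ?_, r3, fun a ha => (a4 a ha).mono fun _ h => congrArg r h, r q',
    fun a ha => j a (r4 ha) ▸ mul_ne_zero (r6 _) (b1 a (r4 ha)), fun e => b2 ?_⟩
  · rw [show (fun a => ((r ∘ f') a : Euc (n + 1))) = R ∘ fun a => f' a from funext fun a => r2 _]
    refine ⟨R.contMDiff.comp a2.1, fun y v => ?_⟩
    rw [md_clm R ((a2.1 y).mdifferentiableAt (by simp)), ContinuousLinearMap.comp_apply, r1]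
    exact a2.2 y v
  · rw [← mul_zero (SignType.sign (jdet n r q') : ℝ), ← e, mul_finsum_mem]
    refine finsum_mem_congr (Set.ext fun x => r4.eq_iff.symm) fun x hx => ?_
    rw [j x (r4 hx), sign_mul]
    push_cast
    change opull (Euc n) o C.p x * _ = _
    linear_combination -(opull (Euc n) o C.p x * (SignType.sign (jdet n f' x) : ℝ)) * sign_sq' (r6 q')

theorem Dbl.hyperspherical (d : Dbl φ x0 e) (h : Big X φ x0) (hn : 2 ≤ n) [CompactSpace X.M]
    {o : X.M → ℝ} {o' : D.M → ℝ} (ho : Ori (Euc n) o)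
    (hoo : ∀ x, x ≠ x0 → opull (Euc n) o' (e true) x = o x) (g : X.Metric) (g' : D.Metric)
    (hc : ∀ ε > 0, ∃ C : Cover X, CompactSpace C.Y.M ∧ C.EpsSpherical g o ε) {Z : Cover X}
    (hZ : (Z.p ⁻¹' {x0}).Infinite) : HasHypersphericalCover D g' o' := by
  classical
  choose σ hσ hσ' using fun C : Cover X => h.secs C.cov
  choose c0 hc0 using fun C : Cover X => cov_surj C.cov x0
  have := hZ.to_subtype
  obtain ⟨m, hm⟩ : ∃ m : Z.p ⁻¹' {x0} → ℕ, Surjective m :=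
    ⟨_, invFun_surjective (Infinite.natEmbedding _).injective⟩
  choose C0 hC1 hC2 using fun k : ℕ => hc (1 / (k + 1)) Nat.one_div_pos_of_nat
  let C : Z.p ⁻¹' {x0} → Cover X := fun b => C0 (m b)
  let κ := Σ b, (C b).p ⁻¹' {x0}
  let Q : Option {k : κ // k.2.1 ≠ c0 (C k.1)} → Cover X := fun o => o.elim Z fun _ => triv X
  let s : κ → X.M → Tot C := fun k x => ⟨k.1, σ _ k.2 x⟩
  let t : κ → X.M → Tot Q := fun k x =>
    if h : k.2.1 = c0 (C k.1) then ⟨none, σ Z k.1 x⟩ else ⟨some ⟨k, h⟩, x⟩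
  have t0 : ∀ b x, t ⟨b, c0 _, hc0 _⟩ x = ⟨none, σ Z b x⟩ := fun b x => dif_pos rfl
  have t1 : ∀ k h x, t k x = ⟨some ⟨k, h⟩, x⟩ := fun k h x => dif_neg h
  have t2 : ∀ k : κ, (∃ b, k = ⟨b, c0 _, hc0 _⟩) ∨ k.2.1 ≠ c0 (C k.1) := fun k =>
    (em _).imp_left fun a => ⟨k.1, congrArg (Sigma.mk k.1) (Subtype.ext a)⟩
  have ht : Secs (totP Q) φ.source t := by
    refine ⟨fun k => ?_, fun k y hy => ?_, fun k k' y hy a => ?_, ?_⟩
    · rcases t2 k with ⟨b, rfl⟩ | a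
      · rw [funext (t0 b)]; exact continuous_sigmaMk.comp_continuousOn ((hσ Z).cont b)
      · rw [funext (t1 k a)]; exact continuous_sigmaMk.continuousOn
    · rcases t2 k with ⟨b, rfl⟩ | a
      · rw [t0]; exact (hσ Z).sec b y hy
      · rw [t1 k a]; rfl
    · rcases t2 k with ⟨b, rfl⟩ | c <;> rcases t2 k' with ⟨b', rfl⟩ | c'
      · rw [t0, t0] at a
        rw [(hσ Z).inj b b' y hy (eq_of_heq (Sigma.mk.inj a).2)]
      · rw [t0, t1 _ c'] at a; cases a
      · rw [t0, t1 _ c] at a; cases a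
      · rw [t1 _ c', t1 _ c] at a
        exact congrArg Subtype.val (Option.some.inj (Sigma.mk.inj a).1)
    · rintro ⟨_ | k, a⟩ ha
      · obtain ⟨b, hb⟩ := (hσ Z).sur a ha
        exact ⟨_, (t0 b _).trans (congrArg (Sigma.mk none) hb)⟩
      · exact ⟨k, t1 _ k.2 _⟩
  have ob : ∀ {r : ℝ} {x}, x ∉ φ.symm '' ball 0 r → 1 / 2 < r →
      x ∈ (φ.symm '' closedBall 0 (1 / 2))ᶜ := fun a b c =>
    a (image_mono (closedBall_subset_ball b) c)
  set O := (φ.symm '' closedBall 0 (1 / 2))ᶜ with hO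
  have oO : IsOpen O := h.isOpen_out _
  have O0 : O ⊆ {x0}ᶜ := compl_subset_compl.2 (singleton_subset_iff.2
    ⟨0, mem_closedBall_self (by norm_num), h.symm_zero⟩)
  obtain ⟨v, hv⟩ : ∃ v : Euc n, ‖v‖ = 1 := ⟨EuclideanSpace.single ⟨0, by omega⟩ 1, by simp⟩
  have v1 : φ.symm v ∈ O := ob (r := 1) (by simp [h.mem_img, h.rinv, hv]) (by norm_num)
  have v2 : e true (φ.symm v) = e false (φ.symm v) := by
    have := d.swap h true (v := v) (norm_pos_iff.1 (hv ▸ one_pos))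
    rwa [inversion_of_mem_sphere (mem_sphere_zero_iff_norm.2 hv)] at this
  obtain ⟨b0⟩ : Nonempty (Z.p ⁻¹' {x0}) := inferInstance
  have hs : Secs (totP C) φ.source s := tot_secs fun b => hσ (C b)
  have sO : ∀ k, totP C (s k (φ.symm v)) ∈ O := fun k => by rwa [hs.sec k _ (h.src v)]
  have tO : ∀ k, totP Q (t k (φ.symm v)) ∈ O := fun k => by rwa [ht.sec k _ (h.src v)]
  obtain ⟨Y, _, π, i, j, cov, i1, j1, i2, j2, i3, j3, i4, j4, hR⟩ := exists_dcov (tot_cov C)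
    (tot_cov Q) hs ht φ.open_source oO ⟨_, sO ⟨b0, c0 _, hc0 _⟩⟩ (d.emb oO O0 true)
    (d.emb oO O0 false) (fun x a y b c => ((d.rel x y (O0 a) (O0 b)).1 c).imp_right And.left)
    fun z => by
      obtain ⟨_ | _, x, a, b⟩ := d.sur' h z
      exacts [Or.inr ⟨x, ob a (by norm_num), b⟩, Or.inl ⟨x, ob a (by norm_num), b⟩]
  have sur : ∀ y, (∃ a, totP C a ∉ φ.symm '' ball 0 1 ∧ i a = y) ∨
      ∃ a, totP Q a ∉ φ.symm '' ball 0 1 ∧ j a = y := fun y => by
    obtain ⟨_ | _, x, a, b⟩ := d.sur' h (π y)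
    · obtain ⟨a', rfl, c⟩ := j4 y x (ob a (by norm_num)) b.symm
      exact Or.inr ⟨a', a, c⟩
    · obtain ⟨a', rfl, c⟩ := i4 y x (ob a (by norm_num)) b.symm
      exact Or.inl ⟨a', a, c⟩
  obtain ⟨_, _, ld⟩ := exists_pull (V := Euc n) cov.isLocalHomeomorph
  have ic : ∀ a, totP C a ∈ O → ContinuousAt i a := fun a ha => i1.continuousAt ha
  have jc : ∀ a, totP Q a ∈ O → ContinuousAt j a := fun a ha => j1.continuousAt ha
  have link : ∀ k, i (s k (φ.symm v)) = j (t k (φ.symm v)) := fun k =>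
    (hR _ _ (sO k) (tO k)).2 (by
      rw [hs.sec k _ (h.src v), ht.sec k _ (h.src v)]; exact ⟨v2, k, rfl, rfl⟩)
  have conn : ∀ y, y ∈ connectedComponent (j (t ⟨b0, c0 _, hc0 _⟩ (φ.symm v))) := by
    have k0 : ∀ {S : Set Y} {y z}, IsPreconnected S → y ∈ S → y ∈ connectedComponent z →
        S ⊆ connectedComponent z := fun a b c =>
      connectedComponent_eq c ▸ a.subset_connectedComponent b
    have k1 := fun b => (h.precon_out hn (C b).cov (r := 1 / 2) (by norm_num)).image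
      (fun a => i ⟨b, a⟩) fun a ha => ((ic ⟨b, a⟩ ha).comp
        continuous_sigmaMk.continuousAt).continuousWithinAt
    have k2 := fun b => (h.precon_out hn (Q b).cov (r := 1 / 2) (by norm_num)).image
      (fun a => j ⟨b, a⟩) fun a ha => ((jc ⟨b, a⟩ ha).comp
        continuous_sigmaMk.continuousAt).continuousWithinAt
    have k3 : ∀ b, j (t ⟨b, c0 _, hc0 _⟩ (φ.symm v)) ∈ (fun a => j ⟨none, a⟩) '' ((Q none).p ⁻¹' O) :=
      fun b => ⟨σ Z b (φ.symm v), show totP Q ⟨none, _⟩ ∈ O from t0 b _ ▸ tO _, congrArg j (t0 b _).symm⟩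
    have k4 := k0 (k2 none) (k3 b0) mem_connectedComponent
    have k5 := fun b => k0 (k1 b) ⟨_, sO ⟨b, c0 _, hc0 _⟩, link ⟨b, c0 _, hc0 _⟩⟩ (k4 (k3 b))
    intro y
    rcases sur y with ⟨a, a1, rfl⟩ | ⟨⟨_ | k, a⟩, a1, rfl⟩
    · exact k5 a.1 ⟨a.2, ob a1 (by norm_num), rfl⟩
    · exact k4 ⟨a, ob a1 (by norm_num), rfl⟩
    · exact k0 (k2 (some k)) ⟨φ.symm v, v1, (congrArg j (t1 _ k.2 _).symm).trans (link _).symm⟩
        (k5 k.1.1 ⟨_, sO k.1, rfl⟩) ⟨a, ob a1 (by norm_num), rfl⟩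
  have : ConnectedSpace Y := connectedSpace_iff_connectedComponent.2 ⟨_, eq_univ_of_forall conn⟩
  have := t2_of_cov cov
  have := ChartedSpace.locallyConnectedSpace (Euc n) D.M
  have := sc_of_cov cov
  obtain ⟨A, hA, H⟩ := good_map h ho g
  have cK : ∀ r, IsCompact (φ.symm '' ball 0 r)ᶜ := fun r =>
    (h.isOpen_img isOpen_ball).isClosed_compl.isCompact
  obtain ⟨B, hB, cmp⟩ := met_cmp g g' (cK 2) fun x hx => d.ld true x (O0 (ob hx (by norm_num)))
  refine ⟨⟨⟨Y⟩, π, cov, ld⟩, fun ε hε => ?_⟩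
  obtain ⟨k, hk⟩ := exists_nat_one_div_lt (lt_min (div_pos hε (mul_pos hA hB))
    (show 0 < 1 / 5 / A by positivity))
  obtain ⟨b, rfl⟩ := hm k
  rw [lt_min_iff, lt_div_iff₀' (mul_pos hA hB), lt_div_iff₀' hA] at hk
  obtain ⟨f, f1, f2, f3, f4, q, f5, f6⟩ := H (C b) _ _ (hc0 _) Nat.one_div_pos_of_nat.le hk.2.le
    (hC1 _) (hC2 _)
  have f7 : ∀ a, f a = q → (C b).p a ∉ φ.symm '' closedBall 0 2 := fun a ha a' =>
    f5 a ha (jdet_zero (by omega) (f4 a a'))
  have x2 : x0 ∈ φ.symm '' closedBall 0 2 := ⟨0, mem_closedBall_self two_pos.le, h.symm_zero⟩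
  have hq : q ≠ base n := fun a => f7 _ (f3.trans a.symm) ((hc0 _).symm ▸ x2)
  let F : ∀ b', (C b').Y.M → Sph n := update (fun _ _ => base n) b f
  have F1 : ∀ a, F b a = f a := fun a => congrFun (update_self _ _ _) a
  have F2 : ∀ b' a, b' ≠ b → F b' a = base n := fun b' a c => by
    simp only [F, update_of_ne c]
  let G : Option {k : κ // k.2.1 ≠ c0 (C k.1)} → Sph n := fun o =>
    o.elim (base n) fun k => F k.1.1 k.1.2
  have F3 : ∀ (k : κ) y, G (t k y).1 = F k.1 k.2 := fun k y => by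
    rcases t2 k with ⟨b', rfl⟩ | a
    · rw [t0]
      by_cases c : b' = b
      · subst c; exact ((F1 _).trans f3).symm
      · exact (F2 _ _ c).symm
    · rw [t1 k a]; rfl
  have F4 : ∀ a a', totP C a ∈ O → totP Q a' ∈ O → i a = j a' → F a.1 a.2 = G a'.1 := by
    intro a a' a1 a2 a3
    obtain ⟨a4, ⟨b', c⟩, a5, a6⟩ := (hR _ _ a1 a2).1 a3
    obtain ⟨a7, a8, a9⟩ := (d.rel _ _ (O0 a1) (O0 a2)).1 a4
    rw [← a6, F3, ← a5]
    by_cases c' : b' = b
    · subst c'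
      have b1 : totP C a ∈ φ.symm '' closedBall 0 2 := h.mem_img.2 ⟨a7, by
        have := not_le.1 fun c => a2 (h.mem_img.2 ⟨a8, mem_closedBall_zero_iff.2 c⟩)
        rw [a9, norm_inv', one_div] at this
        exact mem_closedBall_zero_iff.2 ((inv_lt_inv₀ two_pos (norm_pos_iff.2
          ((h.ne a7).2 (O0 a1)))).1 this).le⟩
      have b2 : φ.symm '' closedBall 0 2 ⊆ φ.source := fun x hx => (h.mem_img.1 hx).1
      refine (F1 _).trans (Eq.trans ?_ (F1 _).symm)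
      rw [← hσ' _ c]
      refine lc_const ((isPreconnected_closedBall.image _ h.cont.continuousOn).image _
        (((hσ _).cont c).mono b2)) ?_ ⟨_, b1, rfl⟩ ⟨_, x2, rfl⟩
      rintro _ ⟨x, hx, rfl⟩
      exact f4 _ (by rwa [(hσ _).sec c x (b2 hx)])
    · exact (F2 _ _ c').trans (F2 _ _ c').symm
  let u : Y → Sph n := fun y => if h : ∃ a, totP C a ∈ O ∧ i a = y then F h.choose.1 h.choose.2
    else G ((sur y).resolve_left fun ⟨a, a1, a2⟩ => h ⟨a, ob a1 (by norm_num), a2⟩).choose.1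
  have u1 : ∀ a, totP C a ∈ O → u (i a) = F a.1 a.2 := fun a ha => by
    have c : ∃ a', totP C a' ∈ O ∧ i a' = i a := ⟨a, ha, rfl⟩
    simp only [u, dif_pos c]
    rw [i2 c.choose_spec.1 ha c.choose_spec.2]
  have u2 : ∀ a, totP Q a ∈ O → u (j a) = G a.1 := fun a ha => by
    by_cases c : ∃ a', totP C a' ∈ O ∧ i a' = j a
    · obtain ⟨a', c1, c2⟩ := c
      rw [← c2, u1 a' c1, F4 a' a c1 ha c2]
    · simp only [u, dif_neg c]
      generalize_proofs c'
      rw [j2 (ob c'.choose_spec.1 (by norm_num)) ha c'.choose_spec.2]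
  let I : (C b).Y.M → Y := fun a => i ⟨b, a⟩
  have nO : ∀ a, (C b).p a ∈ O → ∀ᶠ a' in 𝓝 a, (C b).p a' ∈ O := fun a ha =>
    (C b).cov.continuous.continuousAt (oO.mem_nhds ha)
  have I1 : ∀ a, (C b).p a ∈ O → u ∘ I =ᶠ[𝓝 a] f := fun a ha =>
    (nO a ha).mono fun a' c => (u1 ⟨b, a'⟩ c).trans (F1 a')
  have I2 : ∀ a, (C b).p a ∈ O → π ∘ I =ᶠ[𝓝 a] e true ∘ (C b).p := fun a ha =>
    (nO a ha).mono fun a' c => i3 ⟨b, a'⟩ c
  have I3 : ∀ a, (C b).p a ∈ O → LD (Euc n) I a := fun a ha =>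
    LD.lift ((ic ⟨b, a⟩ ha).comp continuous_sigmaMk.continuousAt) (ld _)
      ((LD.cmp ((C b).loc a) (d.ld true _ (O0 ha))).congr (I2 a ha))
  have I4 : ∀ a, (C b).p a ∈ O → ContMDiffAt (𝓡 n) (𝓡 n) ∞ u (I a) := fun a ha =>
    (I3 a ha).desc ((f1 a).congr_of_eventuallyEq (I1 a ha))
  have fst : ∀ {ι : Type} {C : ι → Cover X} (a : Tot C), ∀ᶠ a' in 𝓝 a, a'.1 = a.1 := fun a =>
    (isOpen_sigma_fst_preimage {a.1}).mem_nhds rfl
  have alt : ∀ y, (∀ᶠ y' in 𝓝 y, u y' = u y) ∨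
      ∃ a, (C b).p a ∉ φ.symm '' ball 0 2 ∧ I a = y := fun y => by
    rcases sur y with ⟨⟨b', a⟩, a1, rfl⟩ | ⟨a, a1, rfl⟩
    all_goals replace a1 := ob a1 (by norm_num)
    · by_cases c : b' = b
      · subst c
        refine (em _).imp (fun c => ?_) fun c => ⟨a, c, rfl⟩
        change ∀ᶠ y' in 𝓝 (I a), u y' = u (I a)
        rw [← (I3 a a1).map_nhds, eventually_map]
        filter_upwards [I1 a a1, f4 a (image_mono ball_subset_closedBall c)] with a' c1 c2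
        exact (c1.trans c2).trans (I1 a a1).eq_of_nhds.symm
      · refine Or.inl ?_
        rw [← i1.map_nhds_eq a1, eventually_map]
        filter_upwards [fst ⟨b', a⟩, (tot_cov C).continuous.continuousAt (oO.mem_nhds a1)]
          with a' c1 c2
        rw [u1 _ c2, u1 _ a1, F2 _ _ c, F2 _ _ (c1 ▸ c)]
    · refine Or.inl ?_
      rw [← j1.map_nhds_eq a1, eventually_map]
      filter_upwards [fst a, (tot_cov Q).continuous.continuousAt (oO.mem_nhds a1)] with a' c1 c2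
      rw [u2 _ c2, u2 _ a1, c1]
  have su : ContMDiff (𝓡 n) (𝓡 n) ∞ u := fun y => by
    rcases alt y with a | ⟨a, a1, rfl⟩
    exacts [contMDiffAt_const.congr_of_eventuallyEq a, I4 a (ob a1 (by norm_num))]
  have qO : ∀ a, f a = q → (C b).p a ∈ O := fun a ha =>
    ob (fun c => f7 a ha (image_mono ball_subset_closedBall c)) (by norm_num)
  have bij : BijOn I (f ⁻¹' {q}) (u ⁻¹' {q}) := by
    refine ⟨fun a ha => (I1 a (qO a ha)).eq_of_nhds.trans ha, fun a ha a' ha' c =>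
      eq_of_heq (Sigma.mk.inj (i2 (qO a ha) (qO a' ha') c)).2, fun y hy => ?_⟩
    rcases sur y with ⟨⟨b', a⟩, a1, rfl⟩ | ⟨⟨_ | k, a⟩, a1, rfl⟩
    all_goals replace a1 := ob a1 (by norm_num)
    · rw [mem_preimage, u1 _ a1] at hy
      obtain rfl : b' = b := by_contra fun c => hq (hy.symm.trans (F2 _ _ c))
      exact ⟨a, (F1 a).symm.trans hy, rfl⟩
    · exact absurd (hy.symm.trans (u2 _ a1)) hq
    · obtain ⟨⟨b', c⟩, c'⟩ := k
      rw [mem_preimage, u2 _ a1] at hy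
      obtain rfl : b' = b := by_contra fun c => hq (hy.symm.trans (F2 _ _ c))
      exact absurd ((show _ = x0 from c.2).symm ▸ x2) (f7 c ((F1 _).symm.trans hy))
  obtain ⟨d1, d2⟩ := fs_transfer (o := opull (Euc n) o' π) bij (fun a ha =>
    ⟨I3 a (qO a ha), (su _).mdifferentiableAt (by simp), I1 a (qO a ha)⟩) f5
  have fin : {k : {k : κ // k.2.1 ≠ c0 (C k.1)} | k.1.1 = b}.Finite := by
    have := hC1 (m b)
    have := ((C b).cov x0).1
    have : Finite ((C b).p ⁻¹' {x0}) := (isClosed_singleton.preimage (C b).cov.continuous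
      ).isCompact.finite ⟨inferInstance⟩
    refine ((finite_range (Sigma.mk b)).preimage Subtype.val_injective.injOn).subset ?_
    rintro ⟨⟨b', c⟩, c'⟩ rfl
    exact ⟨c, rfl⟩
  refine ⟨u, su, fun y w => (le_nrm_iff g' _ _ (norm_nonneg _) hε.le).2 ?_,
    ⟨I '' ((C b).p ⁻¹' (φ.symm '' ball 0 1)ᶜ) ∪ ⋃ k ∈ {k : {k : κ // k.2.1 ≠ c0 (C k.1)} | k.1.1 = b},
      (fun x => j ⟨some k, x⟩) '' (φ.symm '' ball 0 1)ᶜ, ?_, fun y hy => ?_⟩, q, hq, d2,
    fun c => f6 ((finsum_mem_congr rfl fun a ha => ?_).trans (d1.trans c))⟩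
  · rcases alt y with a | ⟨a, a1, rfl⟩
    · have h1 := (md_congr (V := Euc n) (W := Euc (n + 1))
        (EventuallyEq.fun_comp a Subtype.val)).trans mfderiv_const
      refine (congrArg norm (DFunLike.congr_fun h1 w)).trans_le ?_
      exact norm_zero.trans_le (mul_nonneg hε.le (nrm_nonneg _ _ _))
    · have a2 := ob a1 (by norm_num)
      obtain ⟨w, rfl⟩ := (I3 a a2).surj w
      have h1 := md_comp ((smooth_coe.comp su _).mdifferentiableAt (by simp)) (I3 a a2).mdiff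
      have h2 := md_comp (ld _).mdiff (I3 a a2).mdiff
      rw [md_congr (I2 a a2), md_comp (d.ld true _ (O0 a2)).mdiff (LD.mdiff ((C b).loc a))] at h2
      refine (congrArg norm (DFunLike.congr_fun (h1.symm.trans
        (md_congr ((I1 a a2).fun_comp Subtype.val))) w)).trans_le ((f2.2 a w).trans ?_)
      refine (mul_le_mul_of_nonneg_left (cmp _ a1 _).2 (by positivity)).trans ?_
      rw [← mul_assoc]
      exact mul_le_mul (by linarith [hk.1]) (congrArg₂ _ (I2 a a2).eq_of_nhds.symm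
        (DFunLike.congr_fun h2 w)).le (nrm_nonneg _ _ _) hε.le
  · have := hC1 (m b)
    refine (((cK 1).isClosed.preimage (C b).cov.continuous).isCompact.image_of_continuousOn
      fun a ha => (I3 a (ob ha (by norm_num))).contMDiffAt.continuousAt.continuousWithinAt).union
      (fin.isCompact_biUnion fun k _ => (cK 1).image_of_continuousOn fun x hx => ?_)
    exact ((jc ⟨some k, x⟩ (ob hx (by norm_num))).comp
      continuous_sigmaMk.continuousAt).continuousWithinAt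
  · rcases sur y with ⟨⟨b', a⟩, a1, rfl⟩ | ⟨⟨_ | k, a⟩, a1, rfl⟩
    · exact (u1 _ (ob a1 (by norm_num))).trans (F2 _ _ fun c => hy (Or.inl (by
        subst c; exact ⟨a, a1, rfl⟩)))
    · exact u2 _ (ob a1 (by norm_num))
    · exact (u2 _ (ob a1 (by norm_num))).trans (F2 _ _ fun c => hy (Or.inr
        (mem_biUnion (t := fun k => (fun x => j ⟨some k, x⟩) '' (φ.symm '' ball 0 1)ᶜ) c ⟨a, a1, rfl⟩)))
  · have a2 := qO a ha
    rw [← opull_comp (I3 a a2) (ld _), opull, opull, md_congr (I2 a a2), (I2 a a2).eq_of_nhds,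
      ← hoo _ (O0 a2), ← opull, ← opull, opull_comp ((C b).loc a) (d.ld true _ (O0 a2))]
    rfl

end Pool.Agent.Lib.MP_029589_gt
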