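import Pool.Agent.Lib.MP_029589_gt.NotA2

/-! A hypereuclidean covering of the double gives a hypereuclidean covering of the manifold. -/

set_option autoImplicit false

open scoped Manifold ContDiff Topology
open Set Filter Function Topology

namespace Pool.Agent.Lib.MP_029589_gt

variable {n : ℕ} {X D : Mfd n} {φ : OpenPartialHomeomorph X.M (Euc n)} {x0 : X.M}
  {e : Bool → X.M → D.M}

open Na Metric EuclideanGeometry in
theorem Dbl.hypereuclidean (d : Dbl φ x0 e) (h : Big X φ x0) (hn : 3 ≤ n) [CompactSpace X.M]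
    [CompactSpace D.M] {o : X.M → ℝ} {o' : D.M → ℝ} (ho' : Ori (Euc n) o')
    (hoo : ∀ b x, x ≠ x0 → opull (Euc n) o' (e b) x = cond b 1 (-1) * o x) (g : X.Metric)
    {g' : D.Metric} (H : HasHypereuclideanCover D g' o') : HasHypereuclideanCover X g o := by
  obtain ⟨C, F, h1, h2, ⟨L, h3⟩, q, h4, h5⟩ := H
  have hπ : ∀ w, LD (Euc n) C.p w := C.loc
  have ce : ∀ b, ContinuousOn (e b) {x0}ᶜ := fun b x hx =>
    (d.ld b x hx).contMDiffAt.continuousAt.continuousWithinAt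
  have ne : ∀ v : Euc n, v ≠ 0 → φ.symm v ≠ x0 := fun v hv =>
    (h.ne (h.src _)).1 (by rwa [h.rinv])
  have oA : IsOpen (φ.source ∩ {x0}ᶜ) := φ.open_source.inter isOpen_compl_singleton
  have iA := (d.inj true).mono (inter_subset_right (s := φ.source))
  have oN : IsOpen (e true '' (φ.source ∩ {x0}ᶜ)) := isOpen_iff_mem_nhds.2 (by
    rintro _ ⟨x, hx, rfl⟩
    rw [← (d.ld true x hx.2).map_nhds]
    exact image_mem_map (oA.mem_nhds hx))
  have cN : IsPreconnected (e true '' (φ.source ∩ {x0}ᶜ)) :=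
    (punct h ▸ h.shell (by omega) isPreconnected_Ioi le_rfl).image _
      ((ce true).mono inter_subset_right)
  have : Nonempty X.M := ⟨x0⟩
  have lf : Lf C.p id (e true '' (φ.source ∩ {x0}ᶜ)) :=
    ((lf_compl_zero (by simpa using hn) C.cov (ι := e true ∘ φ.symm)
      ((ce true).comp h.cont.continuousOn ne)).comp (ι' := e true)
      (φ.continuousOn.mono inter_subset_left)
      (fun x hx => (h.ne hx.1).2 hx.2) fun a ha => by rw [comp, φ.left_inv ha.1]).comp
      (inv_cont oA iA fun x hx => (d.ld true x hx.2).map_nhds)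
      (fun _ hy => invFunOn_mem hy) fun _ hy => (invFunOn_eq hy).symm
  have sh : ∀ v : Euc n, ‖v‖ ∈ Icc (1 / 2 : ℝ) 2 → v ≠ 0 := fun v hv =>
    norm_pos_iff.1 (one_half_pos.trans_le hv.1)
  have cS : IsCompact {v : Euc n | ‖v‖ ∈ Icc (1 / 2 : ℝ) 2} :=
    (isCompact_closedBall 0 2).of_isClosed_subset (isClosed_Icc.preimage continuous_norm)
      fun v hv => mem_closedBall_zero_iff.2 hv.2
  obtain ⟨K, hK, fl⟩ := flatten g' oN cN
    (T := ⋃ b, e b '' (φ.symm '' {v | ‖v‖ ∈ Icc (1 / 2) 2}))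
    (isCompact_iUnion fun b => (cS.image h.cont).image_of_continuousOn ((ce b).mono (by
      rintro _ ⟨v, hv, rfl⟩; exact ne v (sh v hv)))).isClosed
    (iUnion_subset (by
      rintro (_ | _) _ ⟨_, ⟨v, hv, rfl⟩, rfl⟩
      · exact ⟨_, ⟨h.src _, ne _ (by
          rw [Ne, inversion_eq_center one_ne_zero]; exact sh v hv)⟩,
          (d.swap h false (sh v hv)).symm⟩
      · exact ⟨_, ⟨h.src _, ne _ (sh v hv)⟩, rfl⟩)) (Euc n)
  obtain ⟨F', f1, f2, f3⟩ := fl (F := F) C.cov hπ lf (abs_nonneg L) ⟨h1, fun x v =>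
    (le_nrm_iff g' _ _ (norm_nonneg _) (abs_nonneg L)).1 (sq_abs L ▸ h3 x v)⟩
  obtain ⟨hP, y, r, hy⟩ := perturbE (o := opull (Euc n) o' C.p) (ori_pull ho' hπ) h1 f1.1
    (fun R => by simpa [preimage] using h2.isCompact_preimage (isCompact_closedBall 0 R)) f2
    (q := q) (fun x _ => h4 x) fun a => h5 (a ▸ finsum_mem_congr (by ext; simp) fun _ _ => rfl)
  have ne' : ∀ x, x ∉ φ.symm '' closedBall 0 1 → x ≠ x0 := fun x hx e =>
    hx ⟨0, mem_closedBall_self one_pos.le, e ▸ h.symm_zero⟩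
  obtain ⟨b, hb⟩ := cnt_split (O := fun b => C.p ⁻¹' (e b '' (φ.symm '' closedBall 0 1)ᶜ))
    (hP.finite f1.1 r) (Set.disjoint_left.2 fun w ⟨x, hx, a⟩ ⟨x', hx', a'⟩ => by
      obtain ⟨b1, b2, b3⟩ := (d.rel x x' (ne' x hx) (ne' x' hx')).1 (a.trans a'.symm)
      refine hx' (h.mem_img.2 ⟨b2, mem_closedBall_zero_iff.2 ?_⟩)
      rw [b3, norm_inv']
      exact inv_le_one_of_one_le₀ (not_le.1 fun c => hx (h.mem_img.2
        ⟨b1, mem_closedBall_zero_iff.2 c⟩)).le) (fun w hw => by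
      obtain ⟨b, x, hx, a⟩ := d.sur' h (C.p w)
      refine ⟨b, x, fun c => ?_, a⟩
      rw [h.mem_img] at hx c
      refine r w trivial hw (jd_const (by omega) (f3 w (mem_iUnion_of_mem b ⟨x, h.mem_img.2
        ⟨c.1, le_trans (by norm_num) (not_lt.1 fun k => hx ⟨c.1, mem_ball_zero_iff.2 k⟩),
          (mem_closedBall_zero_iff.1 c.2).trans one_le_two⟩, a⟩))).2) hy
  exact fill h hn (d.ld b) (d.inj b) C.cov hπ (hoo b) g (by positivity) f1 hP
    (fun w hw => f3 w (mem_iUnion_of_mem b hw)) r hb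

end Pool.Agent.Lib.MP_029589_gt
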