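import Pool.Agent.Lib.MP_029589_gt.Neck

/-! Exactness of the Pontryagin forms passes to the double. -/

set_option autoImplicit false

open scoped Manifold ContDiff Topology Matrix
open Set Filter Function EuclideanGeometry Metric

namespace Pool.Agent.Lib.MP_029589_gt

variable {n k l : ℕ} {κ κ' : Type}

section

variable {M N P : Type} [TopologicalSpace M] [ChartedSpace (Euc n) M] [TopologicalSpace N]
  [ChartedSpace (Euc k) N] [TopologicalSpace P] [ChartedSpace (Euc l) P] {f f' : M → N} {z : M}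

lemma pm_pm {g : N → P} (hg : SmF k l g (f z)) (hf : SmF n k f z) (X : P → Matrix κ κ' (Lm l)) :
    pm n k f (pm k l g X) z = pm n l (g ∘ f) X z :=
  Matrix.ext fun i j => pull_pull hg.mdiff hf.mdiff fun w => X w i j

lemma pm_congr (h : f =ᶠ[𝓝 z] f') (X : N → Matrix κ κ' (Lm k)) : pm n k f X z = pm n k f' X z :=
  Matrix.ext fun i j => pull_congr h fun w => X w i j

lemma pm_ev (hf : SmF n k f z) {X Y : N → Matrix κ κ' (Lm k)} (h : X =ᶠ[𝓝 (f z)] Y) :
    pm n k f X =ᶠ[𝓝 z] pm n k f Y := (hf.cont.eventually h).mono fun w h => by rw [pm, h, pm]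

lemma jm_comp {g : N → Euc l} {f : M → N} (hg : SmF k l g (f z)) (hf : SmF n k f z) :
    jm n (g ∘ f) z = jm k g (f z) * mat (md (Euc n) (Euc k) f z) := by
  rw [jm, md_comp hg.mdiff hf.mdiff, mat_comp, jm]

lemma trace_pm [Fintype κ] [DecidableEq κ] (X : N → Matrix κ κ (Lm k)) (m : ℕ) :
    (pm n k f X z ^ m).trace = pull n k f (fun w => (X w ^ m).trace) z :=
  (congrArg Matrix.trace (map_pow (pA _).mapMatrix _ m).symm).trans
    (AddMonoidHom.map_trace (pA (md (Euc n) (Euc k) f z)) _).symm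

lemma L1.map_zero {X : Matrix κ κ' (Lm k)} (h : L1 X) : X.map (pA (0 : Euc n →L[ℝ] Euc k)) = 0 :=
  Matrix.ext fun i j => (h i j).elim fun v hv => by
    rw [Matrix.map_apply, ← hv, pA_io, show mat 0 = 0 from rfl, Matrix.vecMul_zero, _root_.map_zero]
    rfl

lemma One.eq_zero [Fintype κ] [IsManifold (𝓡 n) ∞ M] {θ F : M → Matrix κ κ (Lm n)} (h : One z θ F)
    (e : θ =ᶠ[𝓝 z] fun _ => 0) : F z = 0 := by
  simpa using ((h.congr e .rfl).1.uniq One.zero.1).self_of_nhds

end

variable {X D : Mfd n}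

theorem compare' (g : X.Metric) {x : X.M → X.M → Euc n} {s : X.M → Euc n → X.M}
    {θ F : X.M → X.M → Matrix (Fin n) (Fin n) (Lm n)} (h : ∀ y, Co y (x y) (s y) ∧
      One y (θ y) (F y) ∧ ∀ᶠ z in 𝓝 y, Gau z (tj (x y) (x z)) (θ y) (θ z)) (m : ℕ) :
    (fun y => (om g y ^ m).trace - (F y y ^ m).trace) ∈ Ex n X.M := by
  have := transgress (fun y => ⟨(h y).2.1, (h y).1.one g, by
    filter_upwards [(h y).1.ev, (h y).2.2] with z a b
    exact ⟨_, (h z).1.sm a.1, a.tj_unit (h z).1, b, a.gau g (h z).1⟩⟩) m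
  simpa only [(h _).1.trace g] using this

variable (φ : OpenPartialHomeomorph X.M (Euc n)) (g : X.Metric)

open Classical in
/-- The map which collapses a ball. -/
noncomputable def clp (x : X.M) : X.M :=
  if x ∈ φ.source then φ.symm (Real.smoothTransition ((‖φ x‖ ^ 2 - 9) / 7) • φ x) else x

open Classical in
/-- Adapted charts. -/
noncomputable def CC (x : X.M) : OpenPartialHomeomorph X.M (Euc n) :=
  if x ∈ φ.source then φ else chartAt (Euc n) x

/-- The modified connection. -/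
noncomputable def thX (x w : X.M) : Matrix (Fin n) (Fin n) (Lm n) :=
  pm n n (clp φ) (lc g (CC φ x) (CC φ x).symm) w + φ.source.indicator (pm n n φ nk) w

variable {φ} {x0 x x' w : X.M}

lemma mem_CC (x : X.M) : x ∈ (CC φ x).source := by
  unfold CC
  split_ifs with a
  exacts [a, mem_chart_source _ _]

namespace Big

variable (h : Big X φ x0)
include h

lemma smF (hx : x ∈ φ.source) : SmF n n φ x :=
  (φ.open_source.eventually_mem hx).mono fun _ a => (h.ld a).contMDiffAt

lemma co (hw : w ∈ (CC φ x).source) : Co w (CC φ x) (CC φ x).symm := by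
  unfold CC at *
  split_ifs at * with a
  exacts [⟨h.smF hw, .of_forall fun v => (h.ld' v).contMDiffAt, φ.eventually_left_inverse hw⟩,
    co_chart hw]

lemma lt_of {r : ℝ} (hw : w ∉ φ.symm '' closedBall 0 r) (a : w ∈ φ.source) : r < ‖φ w‖ :=
  not_le.1 fun b => hw (h.mem_img.2 ⟨a, mem_closedBall_zero_iff.2 b⟩)

lemma clp_out (hw : w ∉ φ.symm '' closedBall 0 4) : clp φ =ᶠ[𝓝 w] id := by
  filter_upwards [(h.isOpen_out 4).eventually_mem hw] with w hw
  unfold clp
  split_ifs with a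
  · rw [Real.smoothTransition.one_of_one_le (by nlinarith [h.lt_of hw a]), one_smul, φ.left_inv a, id]
  · rfl

lemma clp_in (a : w ∈ φ.source) (b : ‖φ w‖ < 3) : clp φ w = x0 := by
  rw [clp, if_pos a, Real.smoothTransition.zero_of_nonpos (by nlinarith [norm_nonneg (φ w)]),
    zero_smul, h.symm_zero]

lemma clp_sm (w : X.M) : SmF n n (clp φ) w := by
  by_cases a : w ∈ φ.source
  · refine SmF.congr (SmF.cmp (g := fun v => φ.symm (Real.smoothTransition ((‖v‖ ^ 2 - 9) / 7) • v))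
      (.of_forall fun v => (h.ld' _).contMDiffAt.comp v ((Real.smoothTransition.contDiff.comp
        (((contDiff_norm_sq ℝ).sub contDiff_const).div_const _)).smul contDiff_id).contMDiff.contMDiffAt)
      (h.smF a)) ((φ.open_source.eventually_mem a).mono fun z b => if_pos b)
  · exact (smF_id w).congr (h.clp_out fun b => a (h.mem_img.1 b).1)

lemma clp_mem (x : X.M) : clp φ x ∈ (CC φ x).source := by
  unfold clp CC
  split_ifs with a
  exacts [h.src _, mem_chart_source _ _]

lemma thX_in (a : w ∈ φ.source) (b : ‖φ w‖ < 3) :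
    (pm n n (clp φ) (lc g (CC φ x) (CC φ x).symm) =ᶠ[𝓝 w] fun _ => 0) ∧
      thX φ g x =ᶠ[𝓝 w] pm n n φ nk := by
  have h1 := (φ.open_source.eventually_mem a).and
    ((h.smF a).cont.norm.eventually_lt continuousAt_const b)
  have h2 : pm n n (clp φ) (lc g (CC φ x) (CC φ x).symm) =ᶠ[𝓝 w] fun _ => 0 :=
    h1.eventually_nhds.mono fun z c => by
      rw [pm, md_congr (c.mono fun v c => h.clp_in c.1 c.2),
        show md _ _ (fun _ => x0) z = 0 from mfderiv_const]
      exact L1.map_zero (L1.map (fun _ _ => ⟨_, rfl⟩) _)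
  exact ⟨h2, (h1.and h2).mono fun z c => by rw [thX, c.2, indicator_of_mem c.1.1, zero_add]⟩

lemma thX_out (hw : w ∉ φ.symm '' closedBall 0 2) :
    thX φ g x =ᶠ[𝓝 w] pm n n (clp φ) (lc g (CC φ x) (CC φ x).symm) :=
  ((h.isOpen_out 2).eventually_mem hw).mono fun z c => by
    rw [thX, indicator_apply_eq_zero.2 fun a => by
      rw [pm, nk_zero (h.lt_of c a).le, Matrix.map_zero _ (map_zero _)], add_zero]

lemma thX_one (hx : x ≠ x0) : ∃ F, One x (thX φ g x) F ∧
    ∀ m, (F x ^ (m + 1)).trace = pull n n (clp φ) (fun y => (om g y ^ (m + 1)).trace) x := by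
  have h1 := h.co (h.clp_mem x)
  have h2 := (h1.one g).pul (h.clp_sm x)
  have h3 : ∀ m, (pm n n (clp φ) (rc g (CC φ x) (CC φ x).symm) x ^ m).trace =
      pull n n (clp φ) (fun y => (om g y ^ m).trace) x := fun m => by
    rw [trace_pm, pull_eq, pull_eq, h1.trace]
  by_cases a : x ∈ φ.source ∧ ‖φ x‖ < 3
  · obtain ⟨F, b1, b2⟩ := nk_one ((h.ne a.1).2 hx)
    refine ⟨_, (b1.pul (h.smF a.1)).congr (h.thX_in g a.1 a.2).2.symm .rfl, fun m => ?_⟩
    rw [← h3, h2.eq_zero (h.thX_in g a.1 a.2).1, trace_pm, pull_eq, b2]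
    simp
  · refine ⟨_, h2.congr (h.thX_out g fun b => a ⟨(h.mem_img.1 b).1, ?_⟩).symm .rfl, fun _ => h3 _⟩
    linarith [mem_closedBall_zero_iff.1 (h.mem_img.1 b).2]

lemma thX_gau (a : w ∈ (CC φ x).source) (a' : w ∈ (CC φ x').source)
    (b : x ∉ φ.source → w ∉ φ.symm '' closedBall 0 4)
    (b' : x' ∉ φ.source → w ∉ φ.symm '' closedBall 0 4) :
    Gau w (tj (CC φ x) (CC φ x')) (thX φ g x) (thX φ g x') := by
  by_cases c : x ∈ φ.source ∧ x' ∈ φ.source
  · have e : CC φ x' = CC φ x := (if_pos c.2).trans (if_pos c.1).symm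
    refine Gau.congr (A := fun _ => 1) (θ := thX φ g x) (φ := thX φ g x)
      (.of_forall fun z => by simp [dm_const]) ((h.co a).ev.mono fun z c => ?_) .rfl
      (.of_forall fun z => by rw [thX, thX, e])
    rw [e, tj, mul_inv' c.unit]
  · have d := (not_and_or.1 c).elim b b'
    have e : ∀ x, lc g (CC φ x) (CC φ x).symm =ᶠ[𝓝 w] thX φ g x := fun x => by
      filter_upwards [h.thX_out g (x := x) fun c => d (image_mono (closedBall_subset_closedBall
        (by norm_num)) c), (h.clp_out d).eventually_nhds] with z c1 c2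
      exact (c1.trans (Matrix.ext fun i j => pull_id c2 fun w => lc g _ _ w i j)).symm
    exact ((h.co a).gau g (h.co a')).congr .rfl (e x) (e x')

end Big

theorem Dbl.tri [CompactSpace X.M] {e : Bool → X.M → D.M} (d : Dbl φ x0 e) (h : Big X φ x0)
    (hX : Tri X) : Tri D := fun g m => by
  obtain ⟨g0⟩ := exists_metric X
  choose b x hx he using d.sur' h
  have n0 : ∀ {r : ℝ} {w}, 0 ≤ r → w ∉ φ.symm '' closedBall 0 r → w ≠ x0 := fun hr hw e =>
    hw ⟨0, mem_closedBall_self hr, h.symm_zero.trans e.symm⟩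
  have h0 : ∀ y, x y ∉ φ.symm '' closedBall 0 (1 / 2) := fun y c =>
    hx y (image_mono (closedBall_subset_ball (by norm_num)) c)
  have h1 : ∀ y, ∃ r : D.M → X.M, r y = x y ∧ SmF n n r y ∧ ∀ᶠ w in 𝓝 y, e (b y) (r w) = w := by
    intro y
    have a := d.ld (b y) (x y) (n0 (by norm_num) (h0 y))
    have c := a.localInverse_open_source.eventually_mem
      (mem_of_eq_of_mem (he y).symm a.localInverse_mem_source)
    exact ⟨a.localInverse, (congrArg _ (he y).symm).trans
      (a.localInverse_left_inv a.localInverse_mem_target), c.mono fun w c =>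
        a.localInverse_contMDiffOn.contMDiffAt (a.localInverse_open_source.mem_nhds c),
      c.mono fun w c => a.localInverse_right_inv c⟩
  choose r r1 r2 r3 using h1
  choose F F1 F2 using fun y => h.thX_one g0 (n0 (by norm_num) (h0 y))
  have r4 : ∀ y, ∀ {U}, IsOpen U → x y ∈ U → ∀ᶠ w in 𝓝 y, r y w ∈ U := fun y U a c =>
    (r2 y).cont.eventually (a.eventually_mem (r1 y ▸ c))
  have r5 : ∀ y, ∀ᶠ w in 𝓝 y, r y w ≠ x0 := fun y => r4 y isOpen_ne (n0 (by norm_num) (h0 y))
  have co : ∀ y, Co y (CC φ (x y) ∘ r y) (e (b y) ∘ (CC φ (x y)).symm) := fun y => by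
    have a := h.co (mem_of_eq_of_mem (r1 y) (mem_CC (x y)))
    refine ⟨a.1.cmp (r2 y), a.smF ((isOpen_ne.eventually_mem (r5 y).self_of_nhds).mono fun w c =>
      (d.ld _ w c).contMDiffAt), ?_⟩
    filter_upwards [r3 y, (r2 y).cont.eventually a.2.2] with w c1 c2
    rw [comp, comp, c2, c1]
  have key : ∀ y, ∀ᶠ z in 𝓝 y, clp φ (x z) = clp φ (r y z) ∧
      Gau z (tj (CC φ (x y) ∘ r y) (CC φ (x z) ∘ r z)) (pm n n (r y) (thX φ g0 (x y)))
        (pm n n (r z) (thX φ g0 (x z))) := fun y => by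
    have a5 : ∀ᶠ z in 𝓝 y, x y ∉ φ.source → r y z ∉ φ.symm '' closedBall 0 4 := by
      by_cases c : x y ∈ φ.source
      · exact .of_forall fun _ c' => absurd c c'
      · exact (r4 y (h.isOpen_out 4) fun c' => c (h.mem_img.1 c').1).mono fun _ c _ => c
    filter_upwards [(r2 y).ev, ((r3 y).and (r5 y)).eventually_nhds, r4 y (CC φ (x y)).open_source
      (mem_CC _), r4 y (h.isOpen_out _) (h0 y), a5] with z a1 a2 a3 a4 a5
    by_cases c : b y = b z
    · have e1 : r y =ᶠ[𝓝 z] r z := by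
        filter_upwards [a2, r3 z, r5 z] with w c1 c2 c3
        exact d.inj (b z) c1.2 c3 ((c ▸ c1.1).trans c2.symm)
      have e2 := e1.self_of_nhds
      have b1 := h.co (e2 ▸ a3)
      have b2 := h.co (mem_of_eq_of_mem (r1 z) (mem_CC (x z)))
      refine ⟨by rw [e2, r1], ((h.thX_gau g0 (e2 ▸ a3) (mem_of_eq_of_mem (r1 z) (mem_CC (x z)))
        (e2 ▸ a5) fun c c' => c (r1 z ▸ (h.mem_img.1 c').1)).pul (r2 z) (b2.sm b1.1)).congr ?_
        (e1.eventuallyEq_nhds.mono fun w c => (pm_congr c _).symm) .rfl⟩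
      filter_upwards [e1.eventuallyEq_nhds, (r2 z).ev, (r2 z).cont.eventually (b1.ev.and b2.ev),
        (co z).ev] with w c1 c2 c3 c4
      have u := c4.unit
      rw [jm_comp c3.2.1 c2] at u
      simp only [tj]
      rw [jm_comp c3.2.1 c2, show jm n (_ ∘ r y) w = jm n (_ ∘ r z) w from
        congrArg mat (md_congr (c1.fun_comp _)), jm_comp c3.1.1 c2, Matrix.mul_inv_rev, mul_assoc, ← mul_assoc (mat _), mul_inv'
        (isUnit_of_mul_isUnit_right u), one_mul]
    · have e1 : ∀ᶠ w in 𝓝 z, r z w ∈ φ.source ∧ r y w ∈ φ.source ∧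
          φ (r y w) = inversion 0 1 (φ (r z w)) := by
        filter_upwards [a2, r3 z, r5 z] with w c1 c2 c3
        exact (d.rel' (b z) c3 c1.2).1 (c2.trans (Bool.eq_not_of_ne c ▸ c1.1).symm)
      obtain ⟨b1, b2, b3⟩ := e1.self_of_nhds
      have b4 := h.lt_of a4 b2
      have b5 : 1 ≤ ‖φ (r z z)‖ := not_lt.1 fun c => hx z (h.mem_img.2
        (r1 z ▸ ⟨b1, mem_ball_zero_iff.2 c⟩))
      have b6 : ‖φ (r y z)‖ ≤ 1 := by rw [b3, norm_inv']; exact inv_le_one_of_one_le₀ b5
      have b7 : ‖φ (r z z)‖ < 3 := by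
        rw [b3, norm_inv', lt_inv_comm₀ (by norm_num) (by linarith)] at b4
        linarith
      have b8 : CC φ (x y) = φ := if_pos (by_contra fun c => (h.lt_of (a5 c) b2).not_ge (by linarith))
      have b9 : CC φ (x z) = φ := if_pos (r1 z ▸ b1)
      have s1 := (h.smF b1).cmp (r2 z)
      have nz : φ (r z z) ≠ 0 := norm_pos_iff.1 (by linarith)
      have e2 : φ ∘ r y =ᶠ[𝓝 z] inversion 0 1 ∘ φ ∘ r z := e1.mono fun _ c => c.2.2
      refine ⟨by rw [← r1, h.clp_in b1 b7, h.clp_in b2 (by linarith)],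
        ((nk_gau nz).pul (f := φ ∘ r z) s1 (AI_sm nz)).congr ?_ ?_ ?_⟩
      · filter_upwards [e2.eventuallyEq_nhds, (co z).ev, s1.cont.eventually (smF_inv nz).ev]
          with w c1 c2 c3
        rw [b9] at c2
        rw [b8, b9, tj, jm, md_congr c1, ← jm, jm_comp c3 c2.1, mul_assoc, ← jm, mul_inv' c2.unit,
          mul_one, AI]
      · refine EventuallyEq.trans ?_ (pm_ev a1 (h.thX_in g0 b2 (by linarith)).2).symm
        filter_upwards [e2.eventuallyEq_nhds, s1.ev, s1.cont.eventually (smF_inv nz).ev, a1.ev, e1]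
          with w c1 c2 c3 c4 c5
        rw [pm_pm c3 c2, pm_pm (h.smF c5.2.1) c4, pm_congr c1]
      · refine EventuallyEq.trans ?_ (pm_ev (r2 z) (h.thX_in g0 b1 b7).2).symm
        filter_upwards [(r2 z).ev, e1] with w c4 c5
        rw [pm_pm (h.smF c5.1) c4]
  have e1 : ∀ y, clp φ ∘ x =ᶠ[𝓝 y] clp φ ∘ r y := fun y => (key y).mono fun _ c => c.1
  obtain ⟨η, hη⟩ := hX g0 m
  have := add_mem (compare' g (F := fun y => pm n n (r y) (F y)) (fun y => ⟨co y,
    One.pul (r2 y) (r1 y ▸ F1 y), (key y).mono fun _ c => c.2⟩) (2 * (m + 1)))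
    ⟨_, fun y => (hη _).pul (((h.clp_sm _).cmp (r2 y)).congr (e1 y))⟩
  convert this using 1
  ext y
  rw [Pi.add_apply, pull_congr (e1 y), ← pull_pull (h.clp_sm _).mdiff (r2 y).mdiff, trace_pm,
    pull_eq (r y), pull_eq (r y), r1, show 2 * (m + 1) = 2 * m + 1 + 1 from rfl, F2, sub_add_cancel]

end Pool.Agent.Lib.MP_029589_gt
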