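import Pool.Agent.Lib.MP_029589_gt.Enl
import Pool.Agent.Lib.MP_029589_gt.HypD
import Pool.Agent.Lib.MP_029589_gt.NotA
import Pool.Agent.Lib.MP_029589_gt.TriD

/-! The double has a hyperspherical covering but no hypereuclidean covering. -/

set_option autoImplicit false

namespace Pool.Agent.Lib.MP_029589_gt

theorem ex_BA : ∃ (X : Mfd 23) (o : X.M → ℝ), CompactSpace X.M ∧ X.IsOrientation o ∧ Tri X ∧
    ∀ g : X.Metric, HasHypersphericalCover X g o ∧ ¬HasHypereuclideanCover X g o := by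
  obtain ⟨Z, x0, hZ⟩ := exists_infinite_cover
  obtain ⟨φ, h, -⟩ := exists_big x0 Filter.univ_mem
  obtain ⟨D, e, _, d⟩ := exists_double (by norm_num) h
  obtain ⟨o, ho, hoo⟩ := d.ori h (oriZ ⊤)
  obtain ⟨g⟩ := exists_metric (XX ⊤)
  exact ⟨D, o, ‹_›, ho, d.tri h tri_XX, fun g' => ⟨d.hyperspherical h (by norm_num) (oriZ ⊤)
    (fun x hx => (hoo true x hx).trans (one_mul _)) g g' (cpt_enlargeable g) hZ,
    fun H => not_hyperspherical g (hyperspherical_of_hypereuclidean
      (d.hypereuclidean h (by norm_num) ho hoo g H))⟩⟩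

end Pool.Agent.Lib.MP_029589_gt
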