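import Pool.Agent.Lib.MP_029589_gt.DefsH
import Pool.Agent.Lib.MP_029589_gt.Base

/-! Exterior algebra lemmas. -/

set_option autoImplicit false

open scoped Manifold ContDiff Topology Matrix
open Set Filter Function

namespace Pool.Agent.Lib.MP_029589_gt

variable {n k l : ℕ}

/-- Covectors as forms. -/
noncomputable abbrev cov1 : (Fin n → ℝ) →ₗ[ℝ] Lm n := ExteriorAlgebra.ι ℝ

/-- The parity involution. -/
noncomputable def iv : Lm n →ₐ[ℝ] Lm n := CliffordAlgebra.involute

/-- The pull-back as an algebra map. -/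
noncomputable def pA (T : Euc n →L[ℝ] Euc k) : Lm k →ₐ[ℝ] Lm n :=
  ExteriorAlgebra.map (mat T).vecMulLinear

/-- The top coefficient as a linear map. -/
noncomputable def tL (n : ℕ) : Lm n →ₗ[ℝ] ℝ :=
  ExteriorAlgebra.liftAlternating (Pi.single n Matrix.detRowAlternating)

/-- The dual basis. -/
noncomputable def dx (i : Fin n) : Lm n := cov1 (Pi.single i 1)

/-- The coordinates of a covector. -/
noncomputable def row (L : Euc n →L[ℝ] ℝ) : Fin n → ℝ := fun i => L (eb i)

lemma pb_eq (T : Euc n →L[ℝ] Euc k) (x : Lm k) : pb T x = pA T x := rfl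

lemma top_eq (x : Lm n) : top x = tL n x := rfl

lemma dxx_eq (i j : Fin n) : dxx i j = dx i * dx j := by
  simp [dxx, wedge, dx, ExteriorAlgebra.ιMulti_apply]

@[simp] lemma iv_io (v : Fin n → ℝ) : iv (cov1 v) = -cov1 v := CliffordAlgebra.involute_ι v

@[simp] lemma iv_iv (x : Lm n) : iv (iv x) = x := CliffordAlgebra.involute_involute x

lemma io_mul (v : Fin n → ℝ) (x : Lm n) : cov1 v * x = iv x * cov1 v := by
  induction x using ExteriorAlgebra.induction with
  | algebraMap r => rw [AlgHom.commutes, Algebra.commutes]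
  | ι w => rw [iv_io, neg_mul, eq_neg_iff_add_eq_zero, ExteriorAlgebra.ι_add_mul_swap]
  | mul a b ha hb => rw [← mul_assoc, ha, mul_assoc, hb, map_mul, mul_assoc]
  | add a b ha hb => rw [mul_add, ha, hb, map_add, add_mul]

lemma io_eq (v : Fin n → ℝ) : cov1 v = ∑ i, v i • dx i := by
  simp only [dx, ← map_smul, ← map_sum]
  exact congrArg _ (pi_eq_sum_univ' v)

@[simp] lemma pA_io (T : Euc n →L[ℝ] Euc k) (v : Fin k → ℝ) : pA T (cov1 v) = cov1 (v ᵥ* mat T) :=
  ExteriorAlgebra.map_apply_ι _ _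

lemma iv_pA (T : Euc n →L[ℝ] Euc k) (x : Lm k) : iv (pA T x) = pA T (iv x) :=
  DFunLike.congr_fun (ExteriorAlgebra.hom_ext (f := iv.comp (pA T)) (g := (pA T).comp iv)
    (LinearMap.ext fun v => by simp)) x

lemma euc_sum (v : Euc n) : ∑ i, v i • eb i = v := by
  simpa [eb] using (EuclideanSpace.basisFun (Fin n) ℝ).sum_repr v

lemma clm_sum {W : Type} [NormedAddCommGroup W] [NormedSpace ℝ W] (L : Euc n →L[ℝ] W) (v : Euc n) :
    L v = ∑ i, v i • L (eb i) := by
  conv_lhs => rw [← euc_sum v]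
  simp

lemma row_comp (L : Euc k →L[ℝ] ℝ) (T : Euc n →L[ℝ] Euc k) : row (L.comp T) = row L ᵥ* mat T := by
  ext i
  simp [row, mat, Matrix.vecMul, dotProduct, clm_sum L (T (eb i)), mul_comm]

lemma mat_eq (T : Euc n →L[ℝ] Euc k) : mat T = LinearMap.toMatrix
    (EuclideanSpace.basisFun (Fin n) ℝ).toBasis (EuclideanSpace.basisFun (Fin k) ℝ).toBasis T := by
  ext i j
  simp [mat, eb, LinearMap.toMatrix_apply]

lemma mat_comp (T : Euc k →L[ℝ] Euc l) (S : Euc n →L[ℝ] Euc k) :
    mat (T.comp S) = mat T * mat S := by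
  simp only [mat_eq]
  exact LinearMap.toMatrix_comp _ _ _ _ _

@[simp] lemma mat_id : mat (ContinuousLinearMap.id ℝ (Euc n)) = 1 := by
  rw [mat_eq]; exact LinearMap.toMatrix_id _

lemma mat_det (T : Euc n →L[ℝ] Euc n) : (mat T).det = T.det := by
  rw [mat_eq]; exact LinearMap.det_toMatrix _ _

lemma pA_comp (T : Euc k →L[ℝ] Euc l) (S : Euc n →L[ℝ] Euc k) (x : Lm l) :
    pA (T.comp S) x = pA S (pA T x) :=
  DFunLike.congr_fun (ExteriorAlgebra.hom_ext (f := pA (T.comp S)) (g := (pA S).comp (pA T))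
    (LinearMap.ext fun v => by simp [mat_comp])) x

@[simp] lemma pA_id (x : Lm n) : pA (ContinuousLinearMap.id ℝ (Euc n)) x = x :=
  DFunLike.congr_fun (ExteriorAlgebra.hom_ext (f := pA (.id ℝ _)) (g := AlgHom.id ℝ _)
    (LinearMap.ext fun v => by simp)) x

lemma tL_wedge (v : Fin n → Fin n → ℝ) : tL n (wedge v) = (Matrix.of v).det := by
  rw [tL, wedge, ExteriorAlgebra.liftAlternating_apply_ιMulti, Pi.single_eq_same]; rfl

lemma tL_wedge_ne (h : k ≠ n) (v : Fin k → Fin n → ℝ) : tL n (wedge v) = 0 := by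
  rw [tL, wedge, ExteriorAlgebra.liftAlternating_apply_ιMulti, Pi.single_eq_of_ne h]; rfl

lemma pA_wedge (T : Euc n →L[ℝ] Euc k) (v : Fin l → Fin k → ℝ) :
    pA T (wedge v) = wedge fun i => v i ᵥ* mat T := ExteriorAlgebra.map_apply_ιMulti _ _

lemma tL_pA (T : Euc n →L[ℝ] Euc n) (x : Lm n) : tL n (pA T x) = T.det * tL n x := by
  refine DFunLike.congr_fun (ExteriorAlgebra.lhom_ext (f := tL n ∘ₗ (pA T).toLinearMap)
    (g := T.det • tL n) fun i => AlternatingMap.ext fun v => ?_) x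
  change tL n (pA T (wedge v)) = T.det * tL n (wedge v)
  rw [pA_wedge]
  by_cases h : i = n
  · subst h
    rw [tL_wedge, tL_wedge, ← mat_det, mul_comm, ← Matrix.det_mul]; rfl
  · rw [tL_wedge_ne h, tL_wedge_ne h, mul_zero]

lemma tL_vol : tL n (vtop n) = 1 := by
  rw [vtop, tL_wedge, ← Matrix.det_one (n := Fin n)]
  congr 1
  ext i j
  simp [Matrix.one_apply, Pi.single_apply, eq_comm]

lemma wedge_top (v : Fin n → Fin n → ℝ) : wedge v = (Matrix.of v).det • vtop n := by
  refine DFunLike.congr_fun ((Pi.basisFun ℝ (Fin n)).ext_alternating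
    (f := ExteriorAlgebra.ιMulti ℝ n) (g := Matrix.detRowAlternating.smulRight (vtop n))
    fun σ hσ => ?_) v
  have e : (fun i => Pi.basisFun ℝ (Fin n) (σ i)) = (fun i => Pi.single i (1 : ℝ)) ∘
    Equiv.ofBijective σ hσ.bijective_of_finite := by ext; simp
  rw [e, AlternatingMap.map_perm, AlternatingMap.map_perm, AlternatingMap.smulRight_apply]
  congr 1
  rw [show Matrix.detRowAlternating (fun i : Fin n => Pi.single i (1 : ℝ)) = 1 from
    (tL_wedge _).symm.trans tL_vol, one_smul]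
  rfl

lemma pA_vol (T : Euc n →L[ℝ] Euc n) : pA T (vtop n) = T.det • vtop n := by
  have h := tL_pA T (vtop n)
  rw [tL_vol, mul_one, vtop, pA_wedge, tL_wedge] at h
  rw [vtop, pA_wedge, wedge_top, h, vtop]

lemma io_vol (v : Fin n → ℝ) : cov1 v * vtop n = 0 := by
  rw [io_eq, Finset.sum_mul]
  refine Finset.sum_eq_zero fun i _ => ?_
  rw [smul_mul_assoc, vtop, wedge, ExteriorAlgebra.ιMulti_apply, dx,
    ExteriorAlgebra.ι_mul_prod_list (fun i : Fin n => (Pi.single i 1 : Fin n → ℝ)), smul_zero]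

lemma sym_dx {c : Fin n → Fin n → ℝ} (h : ∀ i j, c i j = c j i) :
    ∑ i, ∑ j, c i j • (dx i * dx j) = 0 := by
  have : (2 : ℝ) • ∑ i, ∑ j, c i j • (dx i * dx j) = 0 := by
    rw [two_smul]
    nth_rw 2 [Finset.sum_comm]
    simp only [← Finset.sum_add_distrib]
    refine Finset.sum_eq_zero fun i _ => Finset.sum_eq_zero fun j _ => ?_
    rw [h j i, ← smul_add, dx, dx, ExteriorAlgebra.ι_add_mul_swap, smul_zero]
  exact (smul_eq_zero.1 this).resolve_left two_ne_zero

lemma cartan {t : Fin n → Fin n → Fin n → ℝ} (h1 : ∀ i, ∑ j, cov1 (t i j) * dx j = 0)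
    (h2 : ∀ i j, cov1 (t i j) + cov1 (t j i) = 0) (i j : Fin n) : cov1 (t i j) = 0 := by
  have a : ∀ i j m, t i j m = t i m j := fun i j m => by
    have h := congrArg (CliffordAlgebra.contractLeft (LinearMap.proj m)) (h1 i)
    simp only [map_sum, map_zero, dx, CliffordAlgebra.contractLeft_ι_mul,
      CliffordAlgebra.contractLeft_ι, ← Algebra.commutes, ← Algebra.smul_def, ← map_smul,
      ← map_sub] at h
    rw [← map_sum, ExteriorAlgebra.ι_eq_zero_iff] at h
    have := congrFun h j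
    simp [Pi.single_apply, -Finset.sum_apply] at this
    simp [Pi.single_apply] at this
    linarith
  have b : ∀ i j m, t i j m = -t j i m := fun i j m => by
    have h := h2 i j
    rw [← map_add, ExteriorAlgebra.ι_eq_zero_iff] at h
    exact eq_neg_of_add_eq_zero_left (congrFun h m)
  rw [ExteriorAlgebra.ι_eq_zero_iff]
  ext m
  rw [Pi.zero_apply]
  linarith [a i j m, b i m j, a m i j, b m j i, a j m i, b j i m]

lemma trace_tw {κ κ' R : Type} [Fintype κ] [Fintype κ'] [Ring R] (σ : R → R) (A : Matrix κ κ' R)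
    (h : ∀ i j x, A i j * x = σ x * A i j) (X : Matrix κ' κ R) :
    (A * X).trace = (X.map σ * A).trace := by
  simp only [Matrix.trace, Matrix.diag, Matrix.mul_apply, Matrix.map_apply, h]
  exact Finset.sum_comm

instance : Module.Finite ℝ (Lm n) := Module.Finite.of_basis (Pi.basisFun ℝ (Fin n)).ExteriorAlgebra

attribute [local instance] Matrix.linftyOpNormedRing Matrix.linftyOpNormedAlgebra

/-- An algebra norm. -/
noncomputable abbrev lmRing : NormedRing (Lm n) := NormedRing.induced _ _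
  (Algebra.leftMulMatrix (Module.finBasis ℝ (Lm n))) (Algebra.leftMulMatrix_injective _)

attribute [local instance] lmRing in
/-- An algebra norm. -/
noncomputable abbrev lmAlg : NormedAlgebra ℝ (Lm n) := NormedAlgebra.induced ℝ _ _
  (Algebra.leftMulMatrix (Module.finBasis ℝ (Lm n)))

end Pool.Agent.Lib.MP_029589_gt
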