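import Pool.Agent.Lib.MP_029589_gt.Dbl

/-! Comparison of metrics and flattening of Lipschitz maps over trivialising sets. -/

set_option autoImplicit false

open scoped Manifold ContDiff Topology
open Set Filter Function Topology

namespace Pool.Agent.Lib.MP_029589_gt

variable {n : ℕ} {X Y : Mfd n}

lemma met_push (g : X.Metric) (g' : Y.Metric) {e : X.M → Y.M} {x : X.M}
    (h : ∀ᶠ y in 𝓝 x, ContMDiffAt (𝓡 n) (𝓡 n) ∞ e y) : ∃ C > 0, ∀ᶠ y in 𝓝 x, ∀ w,
      nrm g' (e y) (md (Euc n) (Euc n) e y w) ≤ C * nrm g y w := by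
  obtain ⟨C, hC, h1⟩ := met_loc g' (e x)
  have hc := h.self_of_nhds.continuousAt
  have h2 := hc.eventually (chart_source_mem_nhds (Euc n) (e x))
  obtain ⟨D, hD, h3⟩ := met_upper g (h := chartAt (Euc n) (e x) ∘ e) (x := x) (by
    filter_upwards [h, h2] with y a b using (cm_chart b).comp y a)
  refine ⟨C * D, mul_pos hC hD, ?_⟩
  filter_upwards [h, h2, h3, hc.eventually h1] with y a1 a2 a3 a4 w
  have := a3 w
  rw [md_comp ((cm_chart a2).mdifferentiableAt (by simp)) (a1.mdifferentiableAt (by simp))] at this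
  exact (a4 _).2.trans (mul_assoc C D _ ▸ mul_le_mul_of_nonneg_left this hC.le)

lemma LD.ev {V M N : Type} [NormedAddCommGroup V] [NormedSpace ℝ V] [TopologicalSpace M]
    [ChartedSpace V M] [TopologicalSpace N] [ChartedSpace V N] {f : M → N} {x : M} (h : LD V f x) :
    ∀ᶠ y in 𝓝 x, LD V f y :=
  let ⟨Φ, h1, h2⟩ := h
  eventually_of_mem (Φ.open_source.mem_nhds h1) fun _ hy => ⟨Φ, hy, h2⟩

lemma cpt_bound {M : Type} [TopologicalSpace M] {K : Set M} (hK : IsCompact K) {P : ℝ → M → Prop}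
    (hm : ∀ C D x, C ≤ D → P C x → P D x) (h : ∀ x ∈ K, ∃ C, ∀ᶠ y in 𝓝 x, P C y) :
    ∃ C > 0, ∀ x ∈ K, P C x := by
  refine hK.induction_on (p := fun L => ∃ C > 0, ∀ x ∈ L, P C x) ⟨1, one_pos, by simp⟩
    (fun s t hst ⟨C, h0, hC⟩ => ⟨C, h0, fun c hc => hC c (hst hc)⟩)
    (fun s t ⟨C, h0, hC⟩ ⟨D, _, hD⟩ => ⟨max C D, lt_max_of_lt_left h0, fun c hc => hc.elim
      (fun h => hm _ _ _ (le_max_left _ _) (hC c h)) fun h => hm _ _ _ (le_max_right _ _) (hD c h)⟩)
    fun x hx => ?_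
  obtain ⟨C, hC⟩ := h x hx
  exact ⟨_, nhdsWithin_le_nhds hC, max C 1, lt_max_of_lt_right one_pos,
    fun y hy => hm _ _ _ (le_max_left _ _) hy⟩

theorem met_cmp (g : X.Metric) (g' : Y.Metric) {e : X.M → Y.M} {K : Set X.M} (hK : IsCompact K)
    (h : ∀ x ∈ K, LD (Euc n) e x) : ∃ C > 0, ∀ x ∈ K, ∀ w,
      nrm g' (e x) (md (Euc n) (Euc n) e x w) ≤ C * nrm g x w ∧
      nrm g x w ≤ C * nrm g' (e x) (md (Euc n) (Euc n) e x w) := by
  refine cpt_bound hK (fun C D x a b w => ⟨(b w).1.trans (mul_le_mul_of_nonneg_right a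
    (nrm_nonneg _ _ _)), (b w).2.trans (mul_le_mul_of_nonneg_right a (nrm_nonneg _ _ _))⟩)
    fun x hx => ?_
  have h0 := h x hx
  have h1 : LD (Euc n) h0.localInverse (e x) := h0.localInverse_isLocalDiffeomorphAt
  obtain ⟨C, -, h2⟩ := met_push g g' (h0.ev.mono fun _ a => a.contMDiffAt)
  obtain ⟨D, -, h3⟩ := met_push g' g (h1.ev.mono fun _ a => a.contMDiffAt)
  refine ⟨max C D, ?_⟩
  filter_upwards [h2, h0.contMDiffAt.continuousAt.eventually h3, h0.ev,
    h0.contMDiffAt.continuousAt.eventually h1.ev, h0.localInverse_eventuallyEq_left.eventuallyEq_nhds]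
    with y a1 a2 a3 a4 a5 w
  refine ⟨(a1 w).trans (mul_le_mul_of_nonneg_right (le_max_left _ _) (nrm_nonneg _ _ _)),
    (Eq.trans_le ?_ (a2 _)).trans (mul_le_mul_of_nonneg_right (le_max_right _ _) (nrm_nonneg _ _ _))⟩
  rw [← ContinuousLinearMap.comp_apply, ← md_comp a4.mdiff a3.mdiff, md_congr a5, md_id]
  exact congrArg₂ _ a5.eq_of_nhds.symm rfl

lemma md_mix {V W M : Type} [NormedAddCommGroup V] [NormedSpace ℝ V] [NormedAddCommGroup W]
    [NormedSpace ℝ W] [TopologicalSpace M] [ChartedSpace V M] {F : M → W} {b : M → ℝ} {x : M}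
    (hF : MDifferentiableAt 𝓘(ℝ, V) 𝓘(ℝ, W) F x) (hb : MDifferentiableAt 𝓘(ℝ, V) 𝓘(ℝ) b x) (c : W)
    (v : V) : md V W (fun y => F y + b y • (c - F y)) x v =
      (1 - b x) • md V W F x v + md V ℝ b x v • (c - F x) := by
  have d1 := hF.hasMFDerivAt
  have d2 := hb.hasMFDerivAt
  have : HasMFDerivAt 𝓘(ℝ, V) 𝓘(ℝ, W) (fun y => F y + b y • (c - F y)) x
      (md V W F x + (b x • -md V W F x + (md V ℝ b x).smulRight (c - F x)) : V →L[ℝ] W) :=
    ⟨d1.1.add (d2.1.smul (continuousAt_const.sub d1.1)), by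
      simpa only [mfld_simps] using! d1.2.add (d2.2.smul (d1.2.const_sub c))⟩
  rw [md, this.mfderiv]
  simp [sub_smul]
  abel

/-- A Lipschitz map on a covering can be made locally constant over `T`. -/
theorem flatten [CompactSpace X.M] (g : X.Metric) {U T : Set X.M} (hU : IsOpen U)
    (hc : IsPreconnected U) (hT : IsClosed T) (hTU : T ⊆ U) (W : Type) [NormedAddCommGroup W]
    [NormedSpace ℝ W] : ∃ C > 0, ∀ {E : Type} [TopologicalSpace E] [ChartedSpace (Euc n) E]
      [IsManifold (𝓡 n) ∞ E] {p : E → X.M} {L : ℝ} {F : E → W}, IsCoveringMap p →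
      (∀ e, LD (Euc n) p e) → Lf p id U → 0 ≤ L → Lip g p L F → ∃ F' : E → W,
        Lip g p (C * L) F' ∧ (∀ e, ‖F' e - F e‖ ≤ C * L) ∧
        ∀ e, p e ∈ T → ∀ᶠ e' in 𝓝 e, F' e' = F' e := by
  classical
  rcases U.eq_empty_or_nonempty with rfl | ⟨u0, hu⟩
  · exact ⟨1, one_pos, fun _ _ _ hL hF => ⟨_, by rwa [one_mul], by simp [hL], fun e he => (hTU he).elim⟩⟩
  have := ChartedSpace.locallyCompactSpace (Euc n) X.M
  obtain ⟨β, b0, b1, b2⟩ := exists_contMDiffMap_zero_one_nhds_of_isClosed (𝓡 n) (n := ⊤)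
    hU.isClosed_compl hT (disjoint_compl_left_iff_subset.2 hTU)
  have hK : tsupport β ⊆ U := fun x hx => by_contra fun h =>
    notMem_tsupport_iff_eventuallyEq.2 (b0.filter_mono (nhds_le_nhdsSet h)) hx
  obtain ⟨_, _, ld⟩ := exists_pull (V := Euc n) hU.isOpenEmbedding_subtypeVal.isLocalHomeomorph
  have := Subtype.preconnectedSpace hc
  obtain ⟨A, hA, h1⟩ := osc_cpt (W := W) g (fun x => (ld x).contMDiffAt) (cpt_sub
    ((isClosed_tsupport β).isCompact.insert u0) (insert_subset hu hK))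
  obtain ⟨B, hB, h2⟩ := cpt_bound (P := fun C y => ∀ v, ‖md (Euc n) ℝ β y v‖ ≤ C * nrm g y v)
    isCompact_univ (fun C D x a b v => (b v).trans (mul_le_mul_of_nonneg_right a (nrm_nonneg _ _ _)))
    fun x _ => (met_upper g (Eventually.of_forall β.contMDiff)).imp fun _ h => h.2
  refine ⟨A * B + A + 1, by positivity, fun {E} _ _ _ {p L F} cov hp hl hL hF => ?_⟩
  obtain ⟨s, hs, s0⟩ := secs_of_lf cov hc hl hu
  choose k hk using hs.sur
  let c : E → W := fun e => if h : p e ∈ U then F (k e h) else F e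
  have c1 : ∀ e, p e ∈ U → ∀ᶠ e' in 𝓝 e, c e' = c e := fun e he => by
    filter_upwards [cov.continuous.continuousAt (hU.mem_nhds he), sec_eventually
      cov.isLocalHomeomorph.isLocalHomeomorphOn ((hs.cont _).continuousAt (hU.mem_nhds he)) (hk e he)
      (eventually_of_mem (hU.mem_nhds he) (hs.sec _))] with e' a1 a2
    simp only [c, dif_pos he, dif_pos (show p e' ∈ U from a1),
      hs.inj _ _ _ a1 ((hk e' a1).trans a2.symm)]
  have c2 : ∀ e, p e ∈ tsupport β → ‖c e - F e‖ ≤ A * L := fun e he => by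
    have a1 : ∀ x : U, LD (Euc n) (s (k e (hK he)) ∘ Subtype.val) x := fun x =>
      LD.lift (hs.cont _).domRestrict.continuousAt (hp _)
        ((ld x).congr (Eventually.of_forall fun y => hs.sec _ _ y.2))
    have := h1 L hL (F ∘ s (k e (hK he)) ∘ Subtype.val) ⟨fun x => (hF.1 _).comp x (a1 x).contMDiffAt,
      fun x v => ?_⟩ ⟨u0, hu⟩ (mem_insert _ _) ⟨_, hK he⟩ (mem_insert_of_mem _ he)
    · simpa only [c, dif_pos (hK he), comp, hk, s0] using this
    · rw [md_comp ((hF.1 _).mdifferentiableAt (by simp)) (a1 x).mdiff]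
      have a2 := md_comp (hp _).mdiff (a1 x).mdiff
      rw [show p ∘ s (k e (hK he)) ∘ Subtype.val = Subtype.val from
        funext fun y : U => hs.sec _ _ y.2] at a2
      exact (hF.2 _ _).trans_eq (congrArg _ (congrArg₂ _ (hs.sec _ _ x.2)
        (DFunLike.congr_fun a2 v).symm))
  have c3 : ∀ e, p e ∉ tsupport β → (fun e => F e + β (p e) • (c e - F e)) =ᶠ[𝓝 e] F := fun e he => by
    filter_upwards [cov.continuous.continuousAt (notMem_tsupport_iff_eventuallyEq.1 he)] with e' a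
    simp only [show β (p e') = 0 from a, zero_smul, add_zero]
  have c4 : ∀ e, p e ∈ U → (fun e => F e + β (p e) • (c e - F e)) =ᶠ[𝓝 e]
      fun e' => F e' + β (p e') • (c e - F e') := fun e he => (c1 e he).mono fun e' a => by
    simp only [a]
  have sb : ContMDiff (𝓡 n) 𝓘(ℝ) ∞ fun e => β (p e) := fun e =>
    (β.contMDiff _).comp e (hp e).contMDiffAt
  have n0 := fun e v => nrm_nonneg g (p e) v
  refine ⟨fun e => F e + β (p e) • (c e - F e), ⟨fun e => ?_, fun e v => ?_⟩, fun e => ?_,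
    fun e he => ?_⟩
  · by_cases he : p e ∈ tsupport β
    · exact ((hF.1 e).add ((sb e).smul (contMDiffAt_const.sub (hF.1 e)))).congr_of_eventuallyEq
        (c4 e (hK he))
    · exact (hF.1 e).congr_of_eventuallyEq (c3 e he)
  · by_cases he : p e ∈ tsupport β
    · have d3 := md_mix ((hF.1 e).mdifferentiableAt (by simp)) ((sb e).mdifferentiableAt (by simp))
        (c e) v
      have d4 := h2 (p e) trivial (md (Euc n) (Euc n) p e v)
      rw [← ContinuousLinearMap.comp_apply, ← md_comp ((β.contMDiff _).mdifferentiableAt (by simp))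
        (hp e).mdiff] at d4
      rw [md_congr (c4 e (hK he)), d3]
      refine (norm_add_le _ _).trans ?_
      rw [norm_smul, norm_smul, Real.norm_of_nonneg (sub_nonneg.2 (b2 _).2)]
      refine (add_le_add ((mul_le_of_le_one_left (norm_nonneg _) (sub_le_self 1 (b2 (p e)).1)).trans
        (hF.2 e v)) (mul_le_mul d4 (c2 e he) (norm_nonneg _) (mul_nonneg hB.le (n0 _ _)))).trans ?_
      nlinarith [mul_nonneg (mul_nonneg hA.le hL) (n0 e (md (Euc n) (Euc n) p e v))]
    · rw [md_congr (c3 e he)]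
      exact (hF.2 e v).trans (mul_le_mul_of_nonneg_right (le_mul_of_one_le_left hL
        (by nlinarith [mul_pos hA hB])) (n0 _ _))
  · by_cases he : p e ∈ tsupport β
    · rw [add_sub_cancel_left, norm_smul, Real.norm_of_nonneg (b2 _).1]
      nlinarith [mul_le_of_le_one_left (norm_nonneg (c e - F e)) (b2 (p e)).2, c2 e he,
        mul_nonneg (mul_pos hA hB).le hL]
    · refine (congrArg (‖· - F e‖) (c3 e he).eq_of_nhds).trans_le ?_
      rw [sub_self, norm_zero]
      positivity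
  · have a := b1.filter_mono (nhds_le_nhdsSet he)
    filter_upwards [c1 e (hTU he), cov.continuous.continuousAt a] with e' a1 a2
    rw [show β (p e') = 1 from a2, a.self_of_nhds, a1]
    simp

/-- The version for maps to the unit sphere. -/
theorem flatten_sph [CompactSpace X.M] (g : X.Metric) {U T : Set X.M} (hU : IsOpen U)
    (hc : IsPreconnected U) (hT : IsClosed T) (hTU : T ⊆ U) : ∃ C > 0, ∀ {E : Type}
      [TopologicalSpace E] [ChartedSpace (Euc n) E] [IsManifold (𝓡 n) ∞ E] {p : E → X.M} {L : ℝ}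
      {f : E → Sph n}, IsCoveringMap p → (∀ e, LD (Euc n) p e) → Lf p id U → 0 ≤ L → C * L ≤ 1 / 5 →
      Lip g p L (fun e => (f e : Euc (n + 1))) → ∃ f' : E → Sph n, ContMDiff (𝓡 n) (𝓡 n) ∞ f' ∧
        Lip g p (C * L) (fun e => (f' e : Euc (n + 1))) ∧
        (∀ e, ‖(f e : Euc (n + 1)) - f' e‖ ≤ 1 / 5) ∧
        ∀ e, p e ∈ T → ∀ᶠ e' in 𝓝 e, f' e' = f' e := by
  have : Fact (Module.finrank ℝ (Euc (n + 1)) = n + 1) := ⟨finrank_euclideanSpace_fin⟩
  obtain ⟨C, hC, H⟩ := flatten g hU hc hT hTU (Euc (n + 1))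
  have hN : ∀ w : Euc (n + 1), w ≠ 0 → ContDiffAt ℝ ∞ (fun w : Euc (n + 1) => ‖w‖⁻¹ • w) w :=
    fun w hw => ((contDiffAt_norm ℝ hw).inv (norm_ne_zero_iff.2 hw)).smul contDiffAt_id
  obtain ⟨D, hD, h1⟩ := cpt_bound (P := fun D w => ‖fderiv ℝ (fun w : Euc (n + 1) => ‖w‖⁻¹ • w) w‖ ≤ D)
    ((isCompact_closedBall 0 2).diff (Metric.isOpen_ball (x := 0) (ε := 1 / 2)))
    (fun _ _ _ a b => b.trans a) fun w hw => (fderiv_bdd (hN w fun a => hw.2 (by simp [a]))).imp
      fun _ h => h.2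
  refine ⟨(D + 2) * C, by positivity, fun {E} _ _ _ {p L f} cov hp hl hL h2 hf => ?_⟩
  obtain ⟨F, f1, f2, f3⟩ := H cov hp hl hL hf
  have h3 : C * L ≤ 1 / 10 := by nlinarith [mul_nonneg hD.le (mul_nonneg hC.le hL)]
  have h4 : ∀ e, |‖F e‖ - 1| ≤ 1 / 10 := fun e => by
    have := abs_norm_sub_norm_le (F e) (f e)
    rw [norm_eq_of_mem_sphere] at this
    exact this.trans ((f2 e).trans h3)
  have h5 : ∀ e, F e ≠ 0 := fun e a => by have := h4 e; norm_num [a] at this
  have h6 : ContMDiff (𝓡 n) (𝓡 (n + 1)) ∞ fun e => ‖F e‖⁻¹ • F e := fun e =>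
    (hN _ (h5 e)).contMDiffAt.comp e (f1.1 e)
  let f' : E → Sph n := fun e => ⟨‖F e‖⁻¹ • F e,
    mem_sphere_zero_iff_norm.2 (norm_smul_inv_norm (h5 e))⟩
  refine ⟨f', h6.codRestrict_sphere fun e => (f' e).2, ⟨h6, fun e v => ?_⟩, fun e => ?_,
    fun e he => (f3 e he).mono fun e' a => Subtype.ext (by simp only [f', a])⟩
  · have a := abs_le.1 (h4 e)
    refine (congrArg norm (DFunLike.congr_fun (md_clm_comp ((f1.1 e).mdifferentiableAt (by simp))
      ((hN _ (h5 e)).differentiableAt (by simp))) v)).trans_le ?_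
    rw [ContinuousLinearMap.comp_apply, mul_assoc (D + 2), mul_assoc (D + 2)]
    exact (ContinuousLinearMap.le_opNorm _ _).trans (mul_le_mul ((h1 _ ⟨mem_closedBall_zero_iff.2
      (by linarith), fun b => by linarith [mem_ball_zero_iff.1 b]⟩).trans (by linarith)) (f1.2 e v)
      (norm_nonneg _) (by positivity))
  · have a : F e - f' e = (‖F e‖ - 1) • (f' e).1 := by
      simp only [f', sub_smul, one_smul, smul_inv_smul₀ (norm_ne_zero_iff.2 (h5 e))]
    have b := norm_sub_le_norm_sub_add_norm_sub (f e).1 (F e) (f' e)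
    rw [a, norm_smul, norm_eq_of_mem_sphere, norm_sub_rev (f e).1 (F e), Real.norm_eq_abs] at b
    linarith [h4 e, f2 e]

/-- Rotations of the sphere. -/
theorem exists_rot (a b : Sph n) : ∃ (R : Euc (n + 1) →L[ℝ] Euc (n + 1)) (r : Sph n → Sph n),
    (∀ v, ‖R v‖ = ‖v‖) ∧ (∀ x, (r x : Euc (n + 1)) = R x) ∧ r a = b ∧ Injective r ∧
      ContMDiff (𝓡 n) (𝓡 n) ∞ r ∧ ∀ x, jdet n r x ≠ 0 := by
  have : Fact (Module.finrank ℝ (Euc (n + 1)) = n + 1) := ⟨finrank_euclideanSpace_fin⟩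
  let R := (ℝ ∙ (a.1 - b.1))ᗮ.reflection
  let r : Sph n → Sph n := fun x => ⟨R x, mem_sphere_zero_iff_norm.2
    ((R.norm_map _).trans (norm_eq_of_mem_sphere x))⟩
  have h1 : r ∘ r = id := funext fun x => Subtype.ext (Submodule.reflection_reflection _ _)
  have h2 : ContMDiff (𝓡 n) (𝓡 n) ∞ r := ((R : Euc (n + 1) →L[ℝ] Euc (n + 1)).contMDiff.comp
    smooth_coe).codRestrict_sphere fun x => (r x).2
  refine ⟨R, r, R.norm_map, fun _ => rfl, Subtype.ext (Submodule.reflection_sub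
    ((norm_eq_of_mem_sphere a).trans (norm_eq_of_mem_sphere b).symm)),
    LeftInverse.injective (congrFun h1), h2, fun x => ?_⟩
  have h3 := md_comp ((h2 (r x)).mdifferentiableAt (by simp)) ((h2 x).mdifferentiableAt (by simp))
  rw [h1, md_id] at h3
  have h4 := congrArg ContinuousLinearMap.det h3
  rw [det_comp', det_id'] at h4
  exact right_ne_zero_of_mul (h4.symm.trans_ne one_ne_zero)

end Pool.Agent.Lib.MP_029589_gt
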