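import Pool.Agent.Lib.MP_029589_gt.Base

/-! The degree kit on a manifold modelled on a finite dimensional space. -/

set_option autoImplicit false

open scoped Manifold ContDiff Topology
open Set Filter Function

namespace Pool.Agent.Lib.MP_029589_gt

variable {V : Type} [NormedAddCommGroup V] [NormedSpace ℝ V] [FiniteDimensional ℝ V]
variable {M : Type} [TopologicalSpace M] [ChartedSpace V M]

lemma exists_det [Nontrivial V] (c : ℝ) (hc : c ≠ 0) :
    ∃ R : V ≃L[ℝ] V, (R : V →L[ℝ] V).det = c := by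
  classical
  let b := Module.finBasis ℝ V
  let i : Fin (Module.finrank ℝ V) := ⟨0, Module.finrank_pos⟩
  let T : V →L[ℝ] V :=
    LinearMap.toContinuousLinearMap (Matrix.toLin b b (Matrix.diagonal (update 1 i c)))
  have hT : T.det = c := by
    change LinearMap.det (Matrix.toLin b b _) = c
    rw [LinearMap.det_toLin, Matrix.det_diagonal, Finset.prod_update_of_mem (Finset.mem_univ i)]
    simp
  exact ⟨T.toContinuousLinearEquivOfDetNeZero (hT ▸ hc), by simpa using hT⟩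

variable [IsManifold 𝓘(ℝ, V) ∞ M] {o : M → ℝ} {O K : Set M} {z : V} {δ : ℝ}
  {W : Type} [NormedAddCommGroup W] [NormedSpace ℝ W]

omit [FiniteDimensional ℝ V] in
lemma sm_chart {G : M → W} {a x : M} (h : ContMDiffAt 𝓘(ℝ, V) 𝓘(ℝ, W) ∞ G x)
    (hx : x ∈ (chartAt V a).source) : ContDiffAt ℝ ∞ (G ∘ (chartAt V a).symm) (chartAt V a x) := by
  rw [← contMDiffAt_iff_contDiffAt]
  refine ContMDiffAt.comp _ (by rwa [(chartAt V a).left_inv hx]) ?_
  exact (contMDiffOn_chart_symm (I := 𝓘(ℝ, V)) (n := ∞)).contMDiffAt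
    ((chartAt V a).open_target.mem_nhds ((chartAt V a).map_source hx))

omit [FiniteDimensional ℝ V] in
lemma cm_chart {a x : M} (hx : x ∈ (chartAt V a).source) :
    ContMDiffAt 𝓘(ℝ, V) 𝓘(ℝ, V) ∞ (chartAt V a) x :=
  (contMDiffOn_chart (I := 𝓘(ℝ, V)) (n := ∞)).contMDiffAt ((chartAt V a).open_source.mem_nhds hx)

omit [FiniteDimensional ℝ V] in
lemma md_chart {G : M → W} {a x : M} (h : ContMDiffAt 𝓘(ℝ, V) 𝓘(ℝ, W) ∞ G x)
    (hx : x ∈ (chartAt V a).source) :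
    md V W G x = (fderiv ℝ (G ∘ (chartAt V a).symm) (chartAt V a x)).comp
      (md V V (chartAt V a) x) := by
  have e : G =ᶠ[𝓝 x] (G ∘ (chartAt V a).symm) ∘ chartAt V a := by
    filter_upwards [(chartAt V a).open_source.mem_nhds hx] with y hy
    simp [(chartAt V a).left_inv hy]
  unfold md
  rw [e.mfderiv_eq, mfderiv_comp (I' := 𝓘(ℝ, V)) x
    ((sm_chart h hx).differentiableAt (by simp)).mdifferentiableAt
    ((cm_chart hx).mdifferentiableAt (by simp)), mfderiv_eq_fderiv]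
  rfl

omit [FiniteDimensional ℝ V] [IsManifold 𝓘(ℝ, V) ∞ M] in
lemma jd_ext (a x : M) : jd (extChartAt 𝓘(ℝ, V) a) x = jd (chartAt V a) x := rfl

omit [FiniteDimensional ℝ V] in
lemma jd_chart {G : M → V} {a x : M} (h : ContMDiffAt 𝓘(ℝ, V) 𝓘(ℝ, V) ∞ G x)
    (hx : x ∈ (chartAt V a).source) :
    jd G x = (fderiv ℝ (G ∘ (chartAt V a).symm) (chartAt V a x)).det * jd (chartAt V a) x := by
  rw [jd, md_chart h hx, det_comp, jd]

lemma jd_chart_ne {a x : M} (hx : x ∈ (chartAt V a).source) : jd (chartAt V a) x ≠ 0 :=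
  det_ne_zero_of_inj fun _ hv =>
    (((mdifferentiable_chart (I := 𝓘(ℝ, V)) a).mfderiv_injective hx).eq_iff' (map_zero _)).1 hv

omit [FiniteDimensional ℝ V] [IsManifold 𝓘(ℝ, V) ∞ M] in
lemma md_clm {W' : Type} [NormedAddCommGroup W'] [NormedSpace ℝ W'] (L : W →L[ℝ] W') {G : M → W}
    {x : M} (h : MDifferentiableAt 𝓘(ℝ, V) 𝓘(ℝ, W) G x) :
    md V W' (L ∘ G) x = L.comp (md V W G x) := by
  unfold md
  rw [mfderiv_comp (I' := 𝓘(ℝ, W)) x L.differentiableAt.mdifferentiableAt h, mfderiv_eq_fderiv,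
    L.fderiv]
  rfl

omit [FiniteDimensional ℝ V] [IsManifold 𝓘(ℝ, V) ∞ M] in
lemma jd_clm (L : V →L[ℝ] V) {G : M → V} {x : M} (h : MDifferentiableAt 𝓘(ℝ, V) 𝓘(ℝ, V) G x) :
    jd (L ∘ G) x = L.det * jd G x := by
  rw [jd, md_clm L h, det_comp, jd]

lemma two_le : (2 : WithTop ℕ∞) ≤ ∞ := by
  change ((2 : ℕ∞) : WithTop ℕ∞) ≤ ((⊤ : ℕ∞) : WithTop ℕ∞)
  exact_mod_cast le_top

/-- The oriented atlas of an open subset. -/
lemma exists_atl [Nontrivial V] (ho : Ori V o) (hO : IsOpen O) :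
    ∃ A : Atl O V, (∀ x : O, ContMDiffAt 𝓘(ℝ, V) 𝓘(ℝ, V) ∞ (Subtype.val ∘ (A.e x).symm) (A.e x x)) ∧
      ∀ (G : M → V) (x : O), ContMDiffAt 𝓘(ℝ, V) 𝓘(ℝ, V) ∞ G x →
        (A.sgn (G ∘ Subtype.val) x : ℝ) = o x * (SignType.sign (jd G x) : ℝ) := by
  have o0 : ∀ x, o x ≠ 0 := fun x => by rcases ho.1 x with h | h <;> simp [h]
  choose R hR using fun x => exists_det (V := V) (o x) (o0 x)
  choose U hU hUo hxU using fun x => mem_nhds_iff.1 (ho.2 x)
  let O' : TopologicalSpace.Opens M := ⟨O, hO⟩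
  let e : O → OpenPartialHomeomorph O V := fun a =>
    (((chartAt V a.1).restrOpen (U a) (hUo a)).subtypeRestr (s := O') ⟨a⟩).transHomeomorph
      (R a).toHomeomorph
  have src : ∀ a x : O, x ∈ (e a).source ↔ x.1 ∈ (chartAt V a.1).source ∧ x.1 ∈ U a := by
    intro a x
    change x ∈ (((chartAt V a.1).restrOpen (U a) (hUo a)).subtypeRestr (s := O') ⟨a⟩).source ↔ _
    rw [OpenPartialHomeomorph.subtypeRestr_source]
    rfl
  have app : ∀ a x : O, e a x = R a (chartAt V a.1 x) := fun a x => rfl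
  have ev : ∀ a x : O, x ∈ (e a).source →
      Subtype.val ∘ (e a).symm =ᶠ[𝓝 (e a x)] (chartAt V a.1).symm ∘ (R a).symm := by
    intro a x hx
    filter_upwards [(e a).open_target.mem_nhds ((e a).map_source hx)] with u hu
    have h1 := ((src a _).1 ((e a).map_target hu)).1
    have h2 := (e a).right_inv hu
    rw [app] at h2
    simp only [comp]
    rw [← (chartAt V a.1).left_inv h1, ← (R a).symm_apply_apply (chartAt V a.1 _), h2]
  have key : ∀ (G : M → V) (a x : O), x ∈ (e a).source → ContMDiffAt 𝓘(ℝ, V) 𝓘(ℝ, V) ∞ G x →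
      ContDiffAt ℝ 2 ((G ∘ Subtype.val) ∘ (e a).symm) (e a x) ∧
      (fderiv ℝ ((G ∘ Subtype.val) ∘ (e a).symm) (e a x)).det * (o a * jd (chartAt V a.1) x) =
        jd G x := by
    intro G a x hx hG
    have h1 := ((src a x).1 hx).1
    have e1 : (G ∘ Subtype.val) ∘ (e a).symm =ᶠ[𝓝 (e a x)]
        (G ∘ (chartAt V a.1).symm) ∘ (R a).symm := (ev a x hx).fun_comp G
    have h2 : ContDiffAt ℝ ∞ (G ∘ (chartAt V a.1).symm) ((R a).symm (e a x)) := by
      rw [app, (R a).symm_apply_apply]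
      exact sm_chart hG h1
    refine ⟨((h2.comp _ (R a).symm.contDiff.contDiffAt).of_le two_le).congr_of_eventuallyEq e1, ?_⟩
    have h3 : ((R a).symm : V →L[ℝ] V).det * o a = 1 := by
      rw [← hR a, ← det_comp, ContinuousLinearEquiv.coe_symm_comp_coe, det_id']
    rw [e1.fderiv_eq, (R a).symm.comp_right_fderiv, det_comp, jd_chart hG h1, app,
      (R a).symm_apply_apply, mul_assoc, ← mul_assoc _ (o a), h3, one_mul]
  have cb : ∀ b x : O, x ∈ (e b).source →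
      ContMDiffAt 𝓘(ℝ, V) 𝓘(ℝ, V) ∞ ((R b : V →L[ℝ] V) ∘ chartAt V b.1) x := fun b x hx =>
    (R b : V →L[ℝ] V).contMDiff.contMDiffAt.comp _ (cm_chart ((src b x).1 hx).1)
  have mem : ∀ x : O, x ∈ (e x).source := fun x => (src x x).2 ⟨mem_chart_source V x.1, hxU x⟩
  refine ⟨⟨e, mem, fun a b x ha hb => (key _ a x ha (cb b x hb)).1, fun a b x ha hb => ?_⟩,
    fun x => ?_, fun G x hG => ?_⟩
  · have h1 := (key _ a x ha (cb b x hb)).2
    rw [jd_clm _ ((cm_chart ((src b x).1 hb).1).mdifferentiableAt (by simp)), hR] at h1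
    have h2 : 0 < o a * o x * jd (chartAt V a.1) x := hU a ((src a x).1 ha).2
    have h3 : 0 < o b * o x * jd (chartAt V b.1) x := hU b ((src b x).1 hb).2
    change 0 < (fderiv ℝ ((((R b : V →L[ℝ] V) ∘ chartAt V b.1) ∘ Subtype.val) ∘ (e a).symm)
      (e a x)).det
    refine (mul_pos_iff_of_pos_right h2).1 ?_
    rw [mul_right_comm] at h3 ⊢
    rw [← mul_assoc, h1]
    exact h3
  · refine ContMDiffAt.congr_of_eventuallyEq ?_ (ev x x (mem x))
    refine ContMDiffAt.comp _ ?_ (R x).symm.contDiff.contMDiff.contMDiffAt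
    rw [app, (R x).symm_apply_apply]
    exact (contMDiffOn_chart_symm (I := 𝓘(ℝ, V)) (n := ∞)).contMDiffAt
      ((chartAt V x.1).open_target.mem_nhds (mem_chart_target V x.1))
  · have h1 := (key G x x (mem x) hG).2
    have h2 : 0 < o x * o x * jd (chartAt V x.1) x := hU x (hxU x)
    change ((sg (fderiv ℝ ((G ∘ Subtype.val) ∘ (e x).symm) (e x x)) : ℤ) : ℝ) = _
    rw [← h1, sg]
    rcases ho.1 x with h | h <;> rw [h] at h2 ⊢
    · simp [sign_mul, sign_pos (show 0 < jd (chartAt V x.1) x by linarith)]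
    · simp [sign_mul, Left.sign_neg, sign_pos (show 0 < jd (chartAt V x.1) x by linarith)]

omit [FiniteDimensional ℝ V] [IsManifold 𝓘(ℝ, V) ∞ M] in
lemma atl_sm {A : Atl O V}
    (hA : ∀ x : O, ContMDiffAt 𝓘(ℝ, V) 𝓘(ℝ, V) ∞ (Subtype.val ∘ (A.e x).symm) (A.e x x))
    (hO : IsOpen O) {G : M → W} (hG : ContMDiffOn 𝓘(ℝ, V) 𝓘(ℝ, W) ∞ G O) :
    A.Sm (G ∘ Subtype.val) := by
  intro x
  have h : ContMDiffAt 𝓘(ℝ, V) 𝓘(ℝ, W) ∞ G ((Subtype.val ∘ (A.e x).symm) (A.e x x)) :=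
    hG.contMDiffAt (hO.mem_nhds ((A.e x).symm (A.e x x)).2)
  exact (contMDiffAt_iff_contDiffAt.1 (h.comp _ (hA x))).of_le two_le

omit [FiniteDimensional ℝ V] [IsManifold 𝓘(ℝ, V) ∞ M] in
lemma atl_cnt {A : Atl O V}
    (hA : ∀ (G : M → V) (x : O), ContMDiffAt 𝓘(ℝ, V) 𝓘(ℝ, V) ∞ G x →
      (A.sgn (G ∘ Subtype.val) x : ℝ) = o x * (SignType.sign (jd G x) : ℝ))
    (hO : IsOpen O) {G : M → V} (hG : ContMDiffOn 𝓘(ℝ, V) 𝓘(ℝ, V) ∞ G O) (z y : V) :
    (A.cnt (fun x => G x - z) y : ℝ) = cnt o O G (y + z) := by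
  have e : {x | x ∈ O ∧ G x = y + z} = Subtype.val '' ((fun x : O => G x - z) ⁻¹' {y}) := by
    ext x
    simp [sub_eq_iff_eq_add, and_comm]
  rw [cnt, e, finsum_mem_image Subtype.val_injective.injOn, Atl.cnt]
  refine ((Int.castAddHom ℝ).map_finsum_of_injective Int.cast_injective _).trans ?_
  refine finsum_congr fun x => ?_
  refine ((Int.castAddHom ℝ).map_finsum_of_injective Int.cast_injective _).trans ?_
  refine finsum_congr fun _ => ?_
  rw [← hA G x (hG.contMDiffAt (hO.mem_nhds x.2))]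
  exact congrArg _ (Atl.sgn_sub (G ∘ Subtype.val) z x)

omit [FiniteDimensional ℝ V] [IsManifold 𝓘(ℝ, V) ∞ M] in
lemma atl_reg {A : Atl O V} (ho : Ori V o)
    (hA : ∀ (G : M → V) (x : O), ContMDiffAt 𝓘(ℝ, V) 𝓘(ℝ, V) ∞ G x →
      (A.sgn (G ∘ Subtype.val) x : ℝ) = o x * (SignType.sign (jd G x) : ℝ))
    (hO : IsOpen O) {G : M → V} (hG : ContMDiffOn 𝓘(ℝ, V) 𝓘(ℝ, V) ∞ G O) (z : V) (x : O) :
    A.sgn (fun x => G x - z) x ≠ 0 ↔ jd G x ≠ 0 := by
  have h := hA G x (hG.contMDiffAt (hO.mem_nhds x.2))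
  rw [← Atl.sgn_sub (G ∘ Subtype.val) z x] at h
  rw [← Int.cast_ne_zero (α := ℝ)]
  change ((A.sgn (fun x => (G ∘ Subtype.val) x - z) x : ℤ) : ℝ) ≠ 0 ↔ _
  rw [h]
  rcases lt_trichotomy (jd G x) 0 with h' | h' | h'
  · rcases ho.1 x with h | h <;> simp [h, sign_neg h', h'.ne]
  · simp [h']
  · rcases ho.1 x with h | h <;> simp [h, sign_pos h', h'.ne']

omit [IsManifold 𝓘(ℝ, V) ∞ M] in
lemma jd_triv [Subsingleton V] (G : M → V) (x : M) : jd G x ≠ 0 :=
  det_ne_zero_of_inj fun _ _ => Subsingleton.elim _ _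

omit [TopologicalSpace M] in
lemma cpt_sub [TopologicalSpace M] (hK : IsCompact K) (hKO : K ⊆ O) :
    IsCompact (Subtype.val ⁻¹' K : Set O) :=
  Topology.IsInducing.subtypeVal.isCompact_preimage' hK (by simpa using hKO)

theorem kit_finite (hO : IsOpen O) (hK : IsCompact K) (hKO : K ⊆ O) {G : M → V}
    (hG : ContMDiffOn 𝓘(ℝ, V) 𝓘(ℝ, V) ∞ G O) (H : ∀ x ∈ O, x ∉ K → G x ≠ z) (r : Reg O G z) :
    {x | x ∈ O ∧ G x = z}.Finite := by
  have e : {x | x ∈ O ∧ G x = z} = Subtype.val '' (Subtype.val ⁻¹' (G ⁻¹' {z}) : Set K) := by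
    ext x
    simp only [mem_setOf_eq, Subtype.image_preimage_coe, mem_inter_iff, mem_preimage,
      mem_singleton_iff]
    exact ⟨fun h => ⟨by_contra fun h' => H x h.1 h' h.2, h.2⟩, fun h => ⟨hKO h.1, h.2⟩⟩
  have hc : IsCompact {x | x ∈ O ∧ G x = z} := by
    haveI := isCompact_iff_compactSpace.1 hK
    rw [e]
    exact (isClosed_singleton.preimage
      (hG.continuousOn.mono hKO).restrict).isCompact.image continuous_subtype_val
  refine hc.finite (isDiscrete_iff_nhdsNE.2 fun x hx => ?_)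
  rw [inf_principal_eq_bot]
  have h0 := hG.contMDiffAt (hO.mem_nhds hx.1)
  have hm := mem_chart_source V x
  have h1 := eventually_ne_of_det ((sm_chart h0 hm).differentiableAt (by simp))
    (left_ne_zero_of_mul (jd_chart h0 hm ▸ r x hx.1 hx.2)) z
  rw [eventually_nhdsWithin_iff] at h1
  rw [mem_nhdsWithin_iff_eventually]
  filter_upwards [(chartAt V x).continuousAt hm h1, (chartAt V x).open_source.mem_nhds hm]
    with y hy hy' hne h3
  refine hy (fun h4 => hne ((chartAt V x).injOn hy' hm h4)) ?_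
  simpa [(chartAt V x).left_inv hy'] using h3.2

/-- Almost every value is regular on a compact set. -/
theorem kit_ae (hO : IsOpen O) (hK : IsCompact K) (hKO : K ⊆ O) {G : M → V}
    (hG : ContMDiffOn 𝓘(ℝ, V) 𝓘(ℝ, V) ∞ G O) : ∀ᶠ y in aeV V, ∀ x ∈ K, G x = y → jd G x ≠ 0 := by
  obtain ⟨t, -, ht⟩ := hK.elim_nhds_subcover (fun x => (chartAt V x).source)
    fun x _ => (chartAt V x).open_source.mem_nhds (mem_chart_source V x)
  have := (eventually_all_finset t).2 fun a _ => sard (G ∘ (chartAt V a).symm)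
    (chartAt V a '' ((chartAt V a).source ∩ O)) (by
      rintro _ ⟨x, hx, rfl⟩
      exact (sm_chart (hG.contMDiffAt (hO.mem_nhds hx.2)) hx.1).differentiableAt (by simp))
  filter_upwards [this] with y hy x hx hxy
  obtain ⟨a, ha, hxa⟩ := mem_iUnion₂.1 (ht hx)
  rw [jd_chart (hG.contMDiffAt (hO.mem_nhds (hKO hx))) hxa]
  exact mul_ne_zero (hy a ha _ ⟨x, ⟨hxa, hKO hx⟩, rfl⟩
    (by simpa [(chartAt V a).left_inv hxa] using hxy)) (jd_chart_ne hxa)

theorem kit_sard (hO : IsOpen O) (hK : IsCompact K) (hKO : K ⊆ O) {G : M → V}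
    (hG : ContMDiffOn 𝓘(ℝ, V) 𝓘(ℝ, V) ∞ G O) (hδ : 0 < δ)
    (H : ∀ x ∈ O, x ∉ K → δ ≤ ‖G x - z‖) {U : Set V} (hU : U ∈ 𝓝 z) :
    ∃ z' ∈ U, Reg O G z' := by
  refine exists_of_ae (y := z) ?_
  filter_upwards [mem_inf_of_left (inter_mem hU (Metric.ball_mem_nhds z hδ)),
    mem_inf_of_right (kit_ae hO hK hKO hG)] with y h1 h2
  refine ⟨h1.1, fun x hx e => h2 x (by_contra fun h => ?_) e⟩
  exact (H x hx h).not_gt (by rw [e]; exact mem_ball_iff_norm.1 h1.2)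

theorem kit_reg_near (hO : IsOpen O) (hK : IsCompact K) (hKO : K ⊆ O) {G : M → V}
    (hG : ContMDiffOn 𝓘(ℝ, V) 𝓘(ℝ, V) ∞ G O) (hδ : 0 < δ)
    (H : ∀ x ∈ O, x ∉ K → δ ≤ ‖G x - z‖) (r : Reg O G z) : ∀ᶠ z' in 𝓝 z, Reg O G z' := by
  have h1 : ∀ x ∈ K, ∀ᶠ p : V × M in 𝓝 (z, x), G p.2 = p.1 → jd G p.2 ≠ 0 := by
    intro x hx
    have h0 := hG.contMDiffAt (hO.mem_nhds (hKO hx))
    by_cases e : G x = z
    · have hm := mem_chart_source V x
      have h2 := left_ne_zero_of_mul (jd_chart h0 hm ▸ r x (hKO hx) e)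
      have hc : ContinuousAt (fun u => (fderiv ℝ (G ∘ (chartAt V x).symm) u).det)
          (chartAt V x x) := ContinuousLinearMap.continuous_det.continuousAt.comp
        (((sm_chart h0 hm).of_le two_le).fderiv_right (m := 1) (by norm_num)).continuousAt
      have h3 := (chartAt V x).continuousAt hm (hc.eventually_ne h2)
      have h4 : ∀ᶠ y in 𝓝 x, jd G y ≠ 0 := by
        filter_upwards [h3, (chartAt V x).open_source.mem_nhds hm, hO.mem_nhds (hKO hx)]
          with y y1 y2 y3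
        rw [jd_chart (hG.contMDiffAt (hO.mem_nhds y3)) y2]
        exact mul_ne_zero y1 (jd_chart_ne y2)
      filter_upwards [continuousAt_snd.eventually h4] with p hp _ using hp
    · have : ContinuousAt (fun p : V × M => G p.2 - p.1) (z, x) :=
        (h0.continuousAt.comp continuousAt_snd).sub continuousAt_fst
      filter_upwards [this.eventually_ne (sub_ne_zero.2 e)] with p hp h using
        absurd (sub_eq_zero.2 h) hp
  filter_upwards [hK.eventually_forall_of_forall_eventually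
    (P := fun y x => G x = y → jd G x ≠ 0) h1, Metric.ball_mem_nhds z hδ]
    with y h1 h2 x hx e
  refine h1 x (by_contra fun h => ?_) e
  exact (H x hx h).not_gt (by rw [e]; exact mem_ball_iff_norm.1 h2)

variable [T2Space M]

theorem kit_near (ho : Ori V o) (hO : IsOpen O) (hK : IsCompact K) (hKO : K ⊆ O) {G : M → V}
    (hG : ContMDiffOn 𝓘(ℝ, V) 𝓘(ℝ, V) ∞ G O) (hδ : 0 < δ)
    (H : ∀ x ∈ O, x ∉ K → δ ≤ ‖G x - z‖) (r : Reg O G z) :
    ∀ᶠ z' in 𝓝 z, Reg O G z' ∧ cnt o O G z' = cnt o O G z := by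
  refine (kit_reg_near hO hK hKO hG hδ H r).and ?_
  rcases subsingleton_or_nontrivial V with h | h
  · exact Eventually.of_forall fun z' => by rw [Subsingleton.elim z' z]
  obtain ⟨A, a1, a2⟩ := exists_atl ho hO
  have := Atl.cnt_eventually (A := A) (G := fun x => G x - z)
    (atl_sm a1 hO (hG.sub contMDiffOn_const))
    (fun x hx => (atl_reg ho a2 hO hG z x).2 (r x x.2 (sub_eq_zero.1 hx))) (cpt_sub hK hKO) hδ
    fun x hx => by_contra fun h => (H x x.2 h).not_gt hx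
  have hc : Tendsto (fun z' => z' - z) (𝓝 z) (𝓝 0) := by
    simpa using (continuous_sub_right z).tendsto z
  filter_upwards [hc this] with y hy
  have h1 := atl_cnt a2 hO hG z (y - z)
  have h2 := atl_cnt a2 hO hG z 0
  rw [sub_add_cancel] at h1
  rw [zero_add] at h2
  rw [← h1, ← h2]
  exact congrArg _ hy

/-- Invariance under smooth homotopies. -/
theorem kit_homotopy (ho : Ori V o) (hO : IsOpen O) (hK : IsCompact K) (hKO : K ⊆ O)
    {F : ℝ → M → V} (hF : ∀ t, ∀ x ∈ O,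
      ContMDiffAt (𝓘(ℝ, ℝ).prod 𝓘(ℝ, V)) 𝓘(ℝ, V) ∞ (fun p : ℝ × M => F p.1 p.2) (t, x))
    (hδ : 0 < δ) (H : ∀ x ∈ O, x ∉ K → ∀ τ ∈ Icc (0 : ℝ) 1, δ ≤ ‖F τ x - z‖)
    (r0 : Reg O (F 0) z) (r1 : Reg O (F 1) z) : cnt o O (F 0) z = cnt o O (F 1) z := by
  rcases subsingleton_or_nontrivial V with h | h
  · rw [Subsingleton.elim (F 0) (F 1)]
  obtain ⟨A, a1, a2⟩ := exists_atl ho hO
  have hs : ∀ t, ContMDiffOn 𝓘(ℝ, V) 𝓘(ℝ, V) ∞ (F t) O := fun t x hx =>
    ((hF t x hx).comp x (contMDiffAt_const.prodMk contMDiffAt_id)).contMDiffWithinAt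
  have := Atl.cnt_homotopy (A := A) (fun t x => F t x - z) (fun t x => by
      have h1 : ContMDiffAt 𝓘(ℝ, ℝ × V) (𝓘(ℝ, ℝ).prod 𝓘(ℝ, V)) ∞
          (fun p : ℝ × V => (p.1, (Subtype.val ∘ (A.e x).symm) p.2)) (t, A.e x x) :=
        contDiff_fst.contMDiff.contMDiffAt.prodMk
          (ContMDiffAt.comp (f := Prod.snd) (t, A.e x x) (a1 x)
            contDiff_snd.contMDiff.contMDiffAt)
      have h2 := ContMDiffAt.comp (t, A.e x x) (hF t _ ((A.e x).symm (A.e x x)).2) h1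
      exact ((contMDiffAt_iff_contDiffAt.1 h2).sub contDiffAt_const).of_le two_le)
    (cpt_sub hK hKO) hδ (fun t ht x hx => by_contra fun h => (H x x.2 h t ht).not_gt hx)
    (fun x hx => (atl_reg ho a2 hO (hs 0) z x).2 (r0 x x.2 (sub_eq_zero.1 hx)))
    (fun x hx => (atl_reg ho a2 hO (hs 1) z x).2 (r1 x x.2 (sub_eq_zero.1 hx)))
  have h1 := atl_cnt a2 hO (hs 0) z 0
  have h2 := atl_cnt a2 hO (hs 1) z 0
  rw [zero_add] at h1 h2
  rw [← h1, ← h2]
  exact congrArg _ this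

theorem kit_main (ho : Ori V o) (hO : IsOpen O) (hK : IsCompact K) (hKO : K ⊆ O) {G0 G1 : M → V}
    (h0 : ContMDiffOn 𝓘(ℝ, V) 𝓘(ℝ, V) ∞ G0 O) (h1 : ContMDiffOn 𝓘(ℝ, V) 𝓘(ℝ, V) ∞ G1 O)
    (hδ : 0 < δ)
    (H : ∀ x ∈ O, x ∉ K → ∀ τ ∈ Icc (0 : ℝ) 1, δ ≤ ‖(1 - τ) • G0 x + τ • G1 x - z‖)
    (r0 : Reg O G0 z) (r1 : Reg O G1 z) : cnt o O G0 z = cnt o O G1 z := by
  have := kit_homotopy ho hO hK hKO (F := fun τ x => (1 - τ) • G0 x + τ • G1 x)
    (fun t x hx => ((contMDiffAt_const.sub contMDiffAt_fst).smul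
      ((h0.contMDiffAt (hO.mem_nhds hx)).comp (t, x) contMDiffAt_snd)).add
      (contMDiffAt_fst.smul ((h1.contMDiffAt (hO.mem_nhds hx)).comp (t, x) contMDiffAt_snd)))
    hδ H (by simpa using r0) (by simpa using r1)
  simpa using this

end Pool.Agent.Lib.MP_029589_gt
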