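import Pool.Agent.Lib.MP_029589_gt.FAlg
import Pool.Agent.Lib.MP_029589_gt.Kit

/-! Differential forms and the exterior derivative, as a relation. -/

set_option autoImplicit false

open scoped Manifold ContDiff Topology Matrix
open Set Filter Function

namespace Pool.Agent.Lib.MP_029589_gt

variable {n k l : ℕ} {M N P : Type} [TopologicalSpace M] [ChartedSpace (Euc n) M]
  [TopologicalSpace N] [ChartedSpace (Euc k) N] [TopologicalSpace P] [ChartedSpace (Euc l) P]

variable (n k) in
/-- Maps which are smooth near a point. -/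
def SmF (f : M → N) (y : M) : Prop := ∀ᶠ z in 𝓝 y, ContMDiffAt (𝓡 n) (𝓡 k) ∞ f z

variable (n) in
/-- Functions which are smooth near a point. -/
def Sm (a : M → ℝ) (y : M) : Prop := ∀ᶠ z in 𝓝 y, ContMDiffAt (𝓡 n) 𝓘(ℝ, ℝ) ∞ a z

variable (n) in
/-- Functions as forms. -/
noncomputable def cf {M : Type} (a : M → ℝ) (z : M) : Lm n := algebraMap ℝ _ (a z)

variable (n) in
/-- The differential of a function. -/
noncomputable def df (a : M → ℝ) (z : M) : Lm n := cov1 (row (md (Euc n) ℝ a z))

/-- The parity involution on forms. -/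
noncomputable def ivf {M : Type} (η : M → Lm n) (z : M) : Lm n := iv (η z)

lemma SmF.ev {f : M → N} {y : M} (h : SmF n k f y) : ∀ᶠ z in 𝓝 y, SmF n k f z :=
  h.eventually_nhds

lemma Sm.ev {a : M → ℝ} {y : M} (h : Sm n a y) : ∀ᶠ z in 𝓝 y, Sm n a z := h.eventually_nhds

lemma SmF.cont {f : M → N} {y : M} (h : SmF n k f y) : ContinuousAt f y :=
  h.self_of_nhds.continuousAt

lemma SmF.mdiff {f : M → N} {y : M} (h : SmF n k f y) : MDifferentiableAt (𝓡 n) (𝓡 k) f y :=
  h.self_of_nhds.mdifferentiableAt (by simp)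

lemma SmF.cmp {f : M → N} {y : M} {g : N → P} (hg : SmF k l g (f y)) (h : SmF n k f y) :
    SmF n l (g ∘ f) y := by
  filter_upwards [h, h.cont.eventually hg] with z h1 h2 using h2.comp z h1

lemma Sm.cmp {f : M → N} {y : M} {a : N → ℝ} (ha : Sm k a (f y)) (h : SmF n k f y) :
    Sm n (a ∘ f) y := by
  filter_upwards [h, h.cont.eventually ha] with z h1 h2 using h2.comp z h1

lemma SmF.congr {f g : M → N} {y : M} (h : SmF n k f y) (e : g =ᶠ[𝓝 y] f) : SmF n k g y := by
  filter_upwards [h, e.eventuallyEq_nhds] with z h1 h2 using h1.congr_of_eventuallyEq h2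

lemma Sm.congr {a b : M → ℝ} {y : M} (h : Sm n a y) (e : b =ᶠ[𝓝 y] a) : Sm n b y := by
  filter_upwards [h, e.eventuallyEq_nhds] with z h1 h2 using h1.congr_of_eventuallyEq h2

lemma pull_eq (f : M → N) (β : N → Lm k) (x : M) :
    pull n k f β x = pA (md (Euc n) (Euc k) f x) (β (f x)) := rfl

lemma pull_pull {f : M → N} {g : N → P} {x : M} (hg : MDifferentiableAt (𝓡 k) (𝓡 l) g (f x))
    (hf : MDifferentiableAt (𝓡 n) (𝓡 k) f x) (β : P → Lm l) :
    pull n k f (pull k l g β) x = pull n l (g ∘ f) β x := by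
  simp only [pull_eq, md_comp hg hf, pA_comp, comp]

lemma pull_congr {f g : M → N} {x : M} (h : f =ᶠ[𝓝 x] g) (β : N → Lm k) :
    pull n k f β x = pull n k g β x := by
  rw [pull_eq, pull_eq, md_congr h, h.self_of_nhds]

lemma pull_id {f : M → M} {x : M} (h : f =ᶠ[𝓝 x] id) (β : M → Lm n) : pull n n f β x = β x := by
  rw [pull_congr h, pull_eq, md_id, pA_id, id]

lemma pull_df {f : M → N} {x : M} {a : N → ℝ} (ha : MDifferentiableAt (𝓡 k) 𝓘(ℝ, ℝ) a (f x))
    (hf : MDifferentiableAt (𝓡 n) (𝓡 k) f x) : pull n k f (df k a) x = df n (a ∘ f) x := by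
  rw [pull_eq, df, df, md_comp ha hf, row_comp, pA_io]

lemma df_congr {a b : M → ℝ} {x : M} (h : a =ᶠ[𝓝 x] b) : df n a x = df n b x := by
  rw [df, df, md_congr h]

lemma df_const (c : ℝ) : df n (fun _ : M => c) = 0 := funext fun z => by
  rw [df, show md (Euc n) ℝ (fun _ : M => c) z = 0 from mfderiv_const]
  exact map_zero cov1

/-- The relation `θ = dη` near `y`. -/
inductive HD (y : M) : (M → Lm n) → (M → Lm n) → Prop
  | fn {a : M → ℝ} : Sm n a y → HD y (cf n a) (df n a)
  | df {a : M → ℝ} : Sm n a y → HD y (df n a) 0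
  | add {η θ η' θ' : M → Lm n} : HD y η θ → HD y η' θ' → HD y (η + η') (θ + θ')
  | mul {η θ η' θ' : M → Lm n} : HD y η θ → HD y η' θ' → HD y (η * η') (θ * η' + ivf η * θ')
  | congr {η θ η' θ' : M → Lm n} : HD y η θ → η =ᶠ[𝓝 y] η' → θ =ᶠ[𝓝 y] θ' → HD y η' θ'

namespace HD

variable {y : M} {η θ η' θ' : M → Lm n}

lemma cg (h : HD y η θ) (e : ∀ z, η z = η' z) (e' : ∀ z, θ z = θ' z) : HD y η' θ' :=
  h.congr (.of_forall e) (.of_forall e')

lemma const (c : ℝ) : HD y (cf n fun _ => c) 0 :=
  df_const (n := n) (M := M) c ▸ fn (.of_forall fun _ => contMDiffAt_const)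

lemma zero : HD y (0 : M → Lm n) 0 := (const 0).cg (fun _ => map_zero _) fun _ => rfl

lemma one : HD y (1 : M → Lm n) 0 := (const 1).cg (fun _ => map_one _) fun _ => rfl

lemma smul (c : ℝ) (h : HD y η θ) : HD y (c • η) (c • θ) :=
  ((const c).mul h).cg (fun z => by simp [cf, Algebra.smul_def])
    fun z => by simp [cf, ivf, Algebra.smul_def]

lemma neg (h : HD y η θ) : HD y (-η) (-θ) := by simpa using h.smul (-1)

lemma sub (h : HD y η θ) (h' : HD y η' θ') : HD y (η - η') (θ - θ') := by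
  simpa [sub_eq_add_neg] using h.add h'.neg

lemma sum {ι : Type} {s : Finset ι} {η θ : ι → M → Lm n} (h : ∀ i ∈ s, HD y (η i) (θ i)) :
    HD y (∑ i ∈ s, η i) (∑ i ∈ s, θ i) := by
  classical
  induction s using Finset.induction_on with
  | empty => simpa using zero
  | insert a s ha ih =>
    rw [Finset.sum_insert ha, Finset.sum_insert ha]
    exact (h a (Finset.mem_insert_self _ _)).add (ih fun i hi => h i (Finset.mem_insert_of_mem hi))

lemma fsmul {a : M → ℝ} (ha : Sm n a y) (h : HD y η θ) :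
    HD y (fun z => a z • η z) fun z => MP_029589_gt.df n a z * η z + a z • θ z :=
  ((fn ha).mul h).cg (fun z => by simp [cf, Algebra.smul_def])
    fun z => by simp [cf, ivf, Algebra.smul_def]

lemma inv (h : HD y η θ) : HD y (ivf η) (-ivf θ) := by
  induction h with
  | fn h => exact (fn h).cg (fun z => by simp [cf, ivf]) fun z => by simp [ivf, MP_029589_gt.df]
  | df h => exact (df h).neg.cg (fun z => by simp [ivf, MP_029589_gt.df]) fun z => by simp [ivf]
  | add _ _ a b => exact (a.add b).cg (fun z => by simp [ivf]) fun z => by simp [ivf, add_comm]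
  | mul _ _ a b => exact (a.mul b).cg (fun z => by simp [ivf]) fun z => by simp [ivf, add_comm]
  | congr _ e e' a =>
    exact a.congr (e.mono fun z h => congrArg iv h) (e'.mono fun z h => congrArg (fun x => -iv x) h)

lemma dd (h : HD y η θ) : HD y θ 0 := by
  induction h with
  | fn h => exact df h
  | df h => exact zero
  | add _ _ a b => simpa using a.add b
  | mul h h' a b => exact ((a.mul h').add (h.inv.mul b)).cg (fun _ => rfl) fun z => by simp
  | congr _ e e' a => exact a.congr e' .rfl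

lemma ev (h : HD y η θ) : ∀ᶠ z in 𝓝 y, HD z η θ := by
  induction h with
  | fn h => exact h.ev.mono fun _ => fn
  | df h => exact h.ev.mono fun _ => df
  | add _ _ a b => exact (a.and b).mono fun _ h => h.1.add h.2
  | mul _ _ a b => exact (a.and b).mono fun _ h => h.1.mul h.2
  | congr _ e e' a =>
    filter_upwards [a, e.eventuallyEq_nhds, e'.eventuallyEq_nhds] with z h1 h2 h3
    exact h1.congr h2 h3

lemma pul {f : M → N} (hf : SmF n k f y) {η θ : N → Lm k} (h : HD (f y) η θ) :
    HD y (pull n k f η) (pull n k f θ) := by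
  have e : ∀ {a}, Sm k a (f y) → MP_029589_gt.df n (a ∘ f) =ᶠ[𝓝 y]
      pull n k f (MP_029589_gt.df k a) := fun h => by
    filter_upwards [hf.ev, hf.cont.eventually h] with z h1 h2
    exact (pull_df (h2.mdifferentiableAt (by simp)) h1.mdiff).symm
  induction h with
  | fn h => exact (fn (h.cmp hf)).congr (.of_forall fun z => (AlgHom.commutes _ _).symm) (e h)
  | df h => exact (df (h.cmp hf)).congr (e h) (.of_forall fun z => (map_zero _).symm)
  | add _ _ a b => exact (a.add b).cg (fun z => (map_add _ _ _).symm) fun z => (map_add _ _ _).symm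
  | mul _ _ a b =>
    exact (a.mul b).cg (fun z => (map_mul _ _ _).symm) fun z => by simp [pull_eq, ivf, iv_pA]
  | congr _ e e' a =>
    exact a.congr ((hf.cont.eventually e).mono fun z h => congrArg _ h)
      ((hf.cont.eventually e').mono fun z h => congrArg _ h)

end HD

lemma df_euc (a : Euc n → ℝ) (z : Euc n) : df n a z = ∑ i, pd i a z • dx i := by
  rw [df, md_eq_fderiv, io_eq]; rfl

lemma sm_euc {a : Euc n → ℝ} {u : Euc n} : Sm n a u ↔ ∀ᶠ z in 𝓝 u, ContDiffAt ℝ ∞ a z := by
  simp only [Sm, contMDiffAt_iff_contDiffAt]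

lemma contDiffAt_pd {a : Euc n → ℝ} {u : Euc n} (h : ContDiffAt ℝ ∞ a u) (i : Fin n) :
    ContDiffAt ℝ ∞ (pd i a) u :=
  (h.fderiv_right (m := ∞) le_rfl).clm_apply contDiffAt_const

lemma pd_symm {a : Euc n → ℝ} {u : Euc n} (h : ContDiffAt ℝ ∞ a u) (i j : Fin n) :
    pd i (pd j a) u = pd j (pd i a) u := by
  have h1 := (h.fderiv_right (m := ∞) le_rfl).differentiableAt (by simp)
  have h2 : ∀ i j : Fin n, pd i (pd j a) u = fderiv ℝ (fderiv ℝ a) u (eb i) (eb j) := fun i j => by
    unfold pd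
    rw [fderiv_clm_apply h1 (differentiableAt_const _)]
    simp
  rw [h2, h2]
  exact h.isSymmSndFDerivAt (by simpa using two_le) _ _

attribute [local instance] lmRing lmAlg

theorem HD.sem {u : Euc n} {η θ : Euc n → Lm n} (h : HD u η θ) :
    ∀ᶠ z in 𝓝 u, ContDiffAt ℝ ∞ η z ∧ θ z = ∑ i, dx i * fderiv ℝ η z (eb i) := by
  induction h with
  | @fn a h =>
    filter_upwards [sm_euc.1 h] with z hz
    have e : cf n a = fun z => a z • (1 : Lm n) := funext fun z => Algebra.algebraMap_eq_smul_one _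
    refine ⟨e ▸ hz.smul_const _, ?_⟩
    rw [e, fderiv_smul_const (hz.differentiableAt (by simp)), df_euc]
    simp [pd]
  | @df a h =>
    filter_upwards [sm_euc.1 h] with z hz
    have e : MP_029589_gt.df n a = fun z => ∑ i, pd i a z • dx i := funext (df_euc a)
    have h1 := fun i => contDiffAt_pd hz i
    refine ⟨e ▸ ContDiffAt.sum fun i _ => (h1 i).smul_const _, ?_⟩
    rw [e, (HasFDerivAt.fun_sum fun i _ =>
      ((h1 i).differentiableAt (by simp)).hasFDerivAt.smul_const (dx i)).fderiv]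
    refine (sym_dx (pd_symm hz)).symm.trans (Finset.sum_congr rfl fun i _ => ?_)
    simp [Finset.mul_sum, pd]
  | add _ _ a b =>
    filter_upwards [a, b] with z h1 h2
    refine ⟨h1.1.add h2.1, ?_⟩
    rw [fderiv_add (h1.1.differentiableAt (by simp)) (h2.1.differentiableAt (by simp))]
    simp [h1.2, h2.2, mul_add, Finset.sum_add_distrib]
  | @mul η θ η' θ' _ _ a b =>
    filter_upwards [a, b] with z h1 h2
    refine ⟨h1.1.mul h2.1, ?_⟩
    rw [fderiv_mul' (h1.1.differentiableAt (by simp)) (h2.1.differentiableAt (by simp))]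
    simp only [Pi.add_apply, Pi.mul_apply, h1.2, h2.2, ivf, Finset.sum_mul, Finset.mul_sum,
      ← Finset.sum_add_distrib]
    refine Finset.sum_congr rfl fun i _ => ?_
    simp [mul_add, ← mul_assoc, dx, io_mul _ (η z), add_comm]
  | congr _ e e' a =>
    filter_upwards [a, e.eventuallyEq_nhds, e'] with z h1 h2 h3
    exact ⟨h1.1.congr_of_eventuallyEq h2.symm, by rw [← h3, ← h2.fderiv_eq, h1.2]⟩

variable [IsManifold (𝓡 n) ∞ M]

lemma smF_chart {a y : M} (h : y ∈ (chartAt (Euc n) a).source) :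
    SmF n n (chartAt (Euc n) a) y :=
  (Filter.eventually_of_mem ((chartAt (Euc n) a).open_source.mem_nhds h) fun _ => cm_chart :)

lemma smF_symm {a : M} {u : Euc n} (h : u ∈ (chartAt (Euc n) a).target) :
    SmF n n (chartAt (Euc n) a).symm u :=
  (Filter.eventually_of_mem ((chartAt (Euc n) a).open_target.mem_nhds h) fun _ h =>
    (contMDiffOn_chart_symm (I := 𝓡 n) (n := ∞)).contMDiffAt ((chartAt (Euc n) a).open_target.mem_nhds h) :)

lemma pull_chart {a y : M} (h : y ∈ (chartAt (Euc n) a).source) (β : M → Lm n) :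
    pull n n (chartAt (Euc n) a) (pull n n (chartAt (Euc n) a).symm β) y = β y :=
  (pull_pull (smF_symm ((chartAt (Euc n) a).map_source h)).mdiff (smF_chart h).mdiff β).trans
    (pull_id ((chartAt (Euc n) a).eventually_left_inverse h) β)

lemma HD.chart {a y : M} (hy : y ∈ (chartAt (Euc n) a).source) {η θ : M → Lm n} (h : HD y η θ) :
    HD (chartAt (Euc n) a y) (pull n n (chartAt (Euc n) a).symm η)
      (pull n n (chartAt (Euc n) a).symm θ) :=
  HD.pul (smF_symm ((chartAt (Euc n) a).map_source hy)) (by rwa [(chartAt (Euc n) a).left_inv hy])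

theorem HD.uniq {y : M} {η θ θ' : M → Lm n} (h : HD y η θ) (h' : HD y η θ') : θ =ᶠ[𝓝 y] θ' := by
  filter_upwards [h.ev, h'.ev] with z h1 h2
  have hz := mem_chart_source (Euc n) z
  rw [← pull_chart hz θ, ← pull_chart hz θ', pull_eq (chartAt (Euc n) z),
    pull_eq (chartAt (Euc n) z), (h1.chart hz).sem.self_of_nhds.2, (h2.chart hz).sem.self_of_nhds.2]

end Pool.Agent.Lib.MP_029589_gt
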