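import Pool.Agent.Lib.MP_029589_gt.Geo2

/-! JOB F, second part: the gluing maps and the stable framing. -/

set_option autoImplicit false

open scoped Manifold ContDiff Topology Real
open Set Filter Function Topology

namespace Pool.Agent.Lib.MP_029589_gt

variable {γ : Rel → ℝ → Euc 4}

lemma contDiff_nsq : ContDiff ℝ ∞ fun p : W5 => Complex.normSq p.2 := by
  simp only [Complex.normSq_apply]
  have h1 := Complex.reCLM.contDiff (n := ∞) |>.comp (contDiff_snd (E := Fin 3 → ℝ))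
  have h2 := Complex.imCLM.contDiff (n := ∞) |>.comp (contDiff_snd (E := Fin 3 → ℝ))
  exact (h1.mul h1).add (h2.mul h2)

lemma contDiff_psL : ContDiff ℝ ∞ psL := by
  have := contDiff_nsq
  unfold psL
  fun_prop

lemma contDiff_psK : ContDiff ℝ ∞ psK := by
  have := contDiff_nsq
  unfold psK
  fun_prop

lemma contDiff_nuL : ContDiff ℝ ∞ nuL := by
  unfold nuL
  fun_prop

lemma contDiff_nuK : ContDiff ℝ ∞ nuK := by
  have := contDiff_nsq
  refine ContDiff.prodMk (contDiff_pi.2 fun j => ?_) (by fun_prop)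
  fin_cases j <;> simp <;> fun_prop

lemma fderiv_line {V F : Type} [NormedAddCommGroup V] [NormedSpace ℝ V] [NormedAddCommGroup F]
    [NormedSpace ℝ F] {f : V → F} {u v : V} {w : F} (hf : DifferentiableAt ℝ f u)
    (h : HasDerivAt (fun t : ℝ => f (u + t • v)) w 0) : fderiv ℝ f u v = w := by
  have h1 : HasDerivAt (fun t : ℝ => u + t • v) v 0 := by
    simpa using ((hasDerivAt_id (0 : ℝ)).smul_const v).const_add u
  have h2 : HasFDerivAt f (fderiv ℝ f u) (u + (0 : ℝ) • v) := by simpa using hf.hasFDerivAt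
  exact (h2.comp_hasDerivAt (0 : ℝ) h1).unique h

lemma psL_nu {p : W5} (h : psL p = 0) : fderiv ℝ psL p (nuL p) ≠ 0 := by
  have h1 : HasDerivAt (fun t : ℝ => psL (p + t • nuL p))
      (2 * Complex.normSq p.2 + 2 * ∑ j, p.1 j ^ 2) 0 := by
    have h2 : (fun t : ℝ => psL (p + t • nuL p)) =
        fun t => (1 + t) ^ 2 * Complex.normSq p.2 - (1 - t) ^ 2 * ∑ j, p.1 j ^ 2 + 1 := by
      ext t
      simp [psL, nuL, Complex.normSq_apply, Fin.sum_univ_three]
      ring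
    rw [h2]
    have h3 := hasDerivAt_id' (0 : ℝ)
    exact (((((h3.const_add 1).fun_pow 2).mul_const _).fun_sub
      (((h3.const_sub 1).fun_pow 2).mul_const _)).add_const 1).congr_deriv (by simp)
  rw [fderiv_line (contDiff_psL.differentiable (by simp) p) h1]
  rw [psL] at h
  linarith [Complex.normSq_nonneg p.2]

lemma psK_nu' {p : W5} (h : psK p = 0) : fderiv ℝ psK p (nuK p) ≠ 0 := by
  have h1 : HasDerivAt (fun t : ℝ => psK (p + t • nuK p))
      (2 * (p.1 0 ^ 2 + p.1 1 ^ 2 + p.1 2 ^ 2) +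
        8 * (3 - Complex.normSq p.2) ^ 2 * Complex.normSq p.2) 0 := by
    have h2 : (fun t : ℝ => psK (p + t • nuK p)) =
        fun t => (1 + t) ^ 2 * (p.1 0 ^ 2 + p.1 1 ^ 2) -
          ((3 - (1 + t * (2 * (3 - Complex.normSq p.2))) ^ 2 * Complex.normSq p.2) ^ 2 +
            (1 - t) ^ 2 * p.1 2 ^ 2) + 1 := by
      ext t
      simp [psK, nuK, Complex.normSq_apply]
      ring
    rw [h2]
    have h3 := hasDerivAt_id' (0 : ℝ)
    refine (((((h3.const_add 1).fun_pow 2).mul_const _).fun_sub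
      ((((((h3.mul_const _).const_add 1).fun_pow 2).mul_const _).const_sub 3).fun_pow 2 |>.fun_add
      (((h3.const_sub 1).fun_pow 2).mul_const _))).add_const 1).congr_deriv ?_
    simp
    ring
  rw [fderiv_line (contDiff_psK.differentiable (by simp) p) h1]
  rw [psK] at h
  have h0 := Complex.normSq_nonneg p.2
  generalize Complex.normSq p.2 = r at h h0
  intro h2
  have h3 : 0 ≤ (3 - r) ^ 2 * r := by positivity
  have h4 : (3 - r) ^ 2 = 1 := by
    nlinarith [sq_nonneg (p.1 0), sq_nonneg (p.1 1), sq_nonneg (p.1 2)]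
  have h5 : r = 0 := by
    rw [h4] at h2
    nlinarith [sq_nonneg (p.1 0), sq_nonneg (p.1 1), sq_nonneg (p.1 2)]
  rw [h5] at h4
  norm_num at h4

lemma psK_nu {p : W5} (h : psK p = 0) (h' : (3 - Complex.normSq p.2) ^ 2 + p.1 2 ^ 2 < 9) :
    fderiv ℝ psK p (nuK p) ≠ 0 := (fun _ => psK_nu' h) h'

lemma psK_reg {p : W5} (h : psK p = 0) : Surjective (fderiv ℝ psK p) := fun c =>
  ⟨(c / fderiv ℝ psK p (nuK p)) • nuK p, by
    rw [map_smul, smul_eq_mul, div_mul_cancel₀ _ (psK_nu' h)]⟩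

lemma int_of_ee {s t : ℝ} (h : ee s = ee t) : ∃ m : ℤ, s = t + m := by
  obtain ⟨m, hm⟩ := Complex.exp_eq_exp_iff_exists_int.1 h
  refine ⟨m, mul_left_cancel₀ Real.two_pi_pos.ne' ?_⟩
  have := congrArg Complex.im hm
  simp at this
  linarith

lemma int_of_fr {s t : ℝ} (h : fr s = fr t) : ∃ m : ℤ, s = t + m :=
  ⟨round s - round t, by
    rw [fr, fr] at h
    push_cast
    linarith⟩

lemma fr_small {x : ℝ} (h : |x| < 10000) : fr (x / 20000) = x := by
  rw [abs_lt] at h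
  rw [fr, round_eq_zero_iff.2 ⟨by linarith [h.1], by linarith [h.2]⟩]
  push_cast
  ring

lemma polar_ee (w : ℂ) : ‖w‖ • ee (w.arg / (2 * π)) = w := by
  rw [ee, mul_div_cancel₀ _ Real.two_pi_pos.ne', Complex.real_smul]
  exact Complex.norm_mul_exp_arg_mul_I w

lemma nsq_ee (r t : ℝ) : Complex.normSq (r • ee t) = r ^ 2 := by
  rw [Complex.normSq_eq_norm_sq, norm_smul, norm_ee, mul_one, Real.norm_eq_abs, sq_abs]

lemma hasDerivAt_fr {g : ℝ → ℝ} {g' x : ℝ} (hg : HasDerivAt g g' x) (h : |fr (g x)| < 10000) :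
    HasDerivAt (fun t => fr (g t)) (20000 * g') x :=
  ((hg.sub_const _).const_mul 20000).congr_of_eventuallyEq
    (hg.continuousAt.eventually (fr_loc h))

lemma hasDerivAt_polar {r θ : ℝ → ℝ} {r' θ' x : ℝ} (hr : HasDerivAt r r' x)
    (hθ : HasDerivAt θ θ' x) : HasDerivAt (fun t => r t • ee (θ t))
      ((r' + (2 * π * r x * θ' : ℝ) * Complex.I) * ee (θ x)) x := by
  refine (hr.fun_smul ((hasDerivAt_ee (θ x)).scomp x hθ)).congr_deriv ?_
  simp only [Complex.real_smul, Function.comp]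
  push_cast
  ring

lemma hasDerivAt_coord (u v : Euc 4) (j : Fin 4) :
    HasDerivAt (fun t : ℝ => (u + t • v) j) (v j) 0 := by
  simpa using ((hasDerivAt_id (0 : ℝ)).mul_const (v j)).const_add (u j)

lemma Loops.qL_per (h : Loops γ) (l : Rel) (u : Euc 4) (a : Fin 4 → ℤ) :
    qL γ l (u + lat a) = qL γ l u := by
  simp only [qL, h.yL_per]

lemma Loops.contDiffAt_qL (h : Loops γ) {l : Rel} {u : Euc 4} (hu : qL γ l u < 100) :
    ContDiffAt ℝ ∞ (qL γ l) u :=
  ContDiffAt.sum fun j _ => (contDiffAt_pi.1 (h.contDiffAt_yL hu) j).pow 2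

lemma Loops.contDiffAt_JL (h : Loops γ) {l : Rel} {u : Euc 4} (h1 : 1 < qL γ l u)
    (h2 : qL γ l u < 100) : ContDiffAt ℝ ∞ (JL γ l) u := by
  have h3 := ((h.contDiffAt_qL h2).sub contDiffAt_const).sqrt (sub_pos.2 h1).ne'
  have h4 := h.contDiffAt_yL h2
  unfold JL
  fun_prop

lemma Loops.fderiv_JL (h : Loops γ) {l : Rel} {u : Euc 4} (h1 : 1 < qL γ l u)
    (h2 : qL γ l u < 100) (v : Euc 4) : ∃ g : Fin 3 → ℝ, fderiv ℝ (JL γ l) u v =
      (fun j => 20000 * (v j.castSucc - v 3 * g j),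
        (((∑ j, yL γ l u j * (20000 * (v j.castSucc - v 3 * g j))) / √(qL γ l u - 1) : ℝ) +
          (2 * π * √(qL γ l u - 1) * v 3 : ℝ) * Complex.I) * ee (u 3)) := by
  have hμ : 0 < √(qL γ l u - 1) := Real.sqrt_pos.2 (sub_pos.2 h1)
  have h3 := hasDerivAt_coord u v 3
  have h4 := (((h.sm l).differentiable (by simp) _).hasDerivAt).scomp (0 : ℝ) h3
  have hy : ∀ j : Fin 3, HasDerivAt (fun t : ℝ => yL γ l (u + t • v) j)
      (20000 * (v j.castSucc - v 3 * deriv (γ l) (u 3) j.castSucc)) 0 := fun j => by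
    have h5 := (EuclideanSpace.proj j.castSucc : Euc 4 →L[ℝ] ℝ).hasFDerivAt.comp_hasDerivAt
      (0 : ℝ) h4
    refine (hasDerivAt_fr ((hasDerivAt_coord u v j.castSucc).fun_sub h5) ?_).congr_deriv (by simp)
    simpa using abs_fr_lt ((Finset.single_le_sum (f := fun j => yL γ l u j ^ 2)
      (fun _ _ => sq_nonneg _) (Finset.mem_univ j)).trans_lt h2) (by norm_num)
  have hq := (HasDerivAt.fun_sum (u := Finset.univ) fun j _ => (hy j).fun_pow 2).sub_const 1
  have hm := hq.sqrt (by simpa [qL] using (sub_pos.2 h1).ne')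
  refine ⟨fun j => deriv (γ l) (u 3) j.castSucc, fderiv_line
    ((h.contDiffAt_JL h1 h2).differentiableAt (by simp)) (((hasDerivAt_pi.2 hy).prodMk
      (hasDerivAt_polar hm h3)).congr_deriv ?_)⟩
  simp only [zero_smul, add_zero, Fin.sum_univ_three, qL] at hμ ⊢
  congr 4
  field_simp
  simp
  ring

theorem JL_spec (h : Loops γ) (l : Rel) :
    (∀ u a, JL γ l (u + lat a) = JL γ l u) ∧
    (∀ u, 1 < qL γ l u → qL γ l u < 4 → psL (JL γ l u) = 0 ∧ ContDiffAt ℝ ∞ (JL γ l) u ∧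
      Injective (fderiv ℝ (JL γ l) u)) ∧
    (∀ u v, 1 < qL γ l u → JL γ l u = JL γ l v → ∃ a, v = u + lat a) ∧
    ∀ p, psL p = 0 → p.2 ≠ 0 → ∑ j, p.1 j ^ 2 < 4 → ∃ u, JL γ l u = p := by
  refine ⟨fun u a => ?_, fun u h1 h2 => ⟨?_, h.contDiffAt_JL h1 (by linarith), ?_⟩,
    fun u v h1 e => ?_, fun p h1 h2 h3 => ?_⟩
  · simp only [JL, h.yL_per, h.qL_per, PiLp.add_apply, lat_apply, ee_add_int]
  · rw [psL, JL, nsq_ee, Real.sq_sqrt (sub_pos.2 h1).le, qL]
    ring
  · refine (injective_iff_map_eq_zero _).2 fun v hv => ?_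
    obtain ⟨g, h3⟩ := h.fderiv_JL h1 (by linarith) v
    have hμ : 0 < √(qL γ l u - 1) := Real.sqrt_pos.2 (sub_pos.2 h1)
    rw [h3] at hv
    have h4 := congrArg Complex.im ((mul_eq_zero.1 (congrArg Prod.snd hv)).resolve_right (ee_ne _))
    have h5 : v 3 = 0 := by simpa [hμ.ne', Real.pi_ne_zero] using h4
    have h6 : ∀ j : Fin 3, v j.castSucc = 0 := fun j => by
      simpa [h5] using congrFun (congrArg Prod.fst hv) j
    ext j
    exact Fin.lastCases h5 h6 j
  · have e1 : yL γ l u = yL γ l v := congrArg Prod.fst e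
    have e2 : √(qL γ l u - 1) • ee (u 3) = √(qL γ l v - 1) • ee (v 3) := congrArg Prod.snd e
    rw [show qL γ l v = qL γ l u by simp only [qL, e1]] at e2
    obtain ⟨m, hm⟩ := int_of_ee
      (smul_right_injective _ (Real.sqrt_pos.2 (sub_pos.2 h1)).ne' e2).symm
    choose k hk using fun j => int_of_fr (congrFun e1 j).symm
    refine ⟨Fin.lastCases m fun j => k j + m * shf l j.castSucc, ?_⟩
    ext j
    refine Fin.lastCases ?_ (fun j => ?_) j
    · rw [PiLp.add_apply, lat_apply, Fin.lastCases_last]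
      exact hm
    · have := hk j
      rw [hm, h.per_int] at this
      simp at this ⊢
      linarith
  · have h4 : ∀ j, |p.1 j| < 10000 := fun j => abs_lt_of_sq_lt_sq ((Finset.single_le_sum
      (f := fun j => p.1 j ^ 2) (fun _ _ => sq_nonneg _) (Finset.mem_univ j)).trans_lt
        (by linarith)) (by norm_num)
    let u : Euc 4 := γ l (p.2.arg / (2 * π)) + !₂[p.1 0 / 20000, p.1 1 / 20000, p.1 2 / 20000, 0]
    have h5 : u 3 = p.2.arg / (2 * π) := by simp [u, h.last]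
    have h6 : yL γ l u = p.1 := by
      ext j
      rw [yL, h5, ← fr_small (h4 j)]
      fin_cases j <;> simp [u]
    refine ⟨u, Prod.ext h6 ?_⟩
    rw [psL, Complex.normSq_eq_norm_sq] at h1
    simp only [JL, qL, h6, h5]
    rw [show ∑ j, p.1 j ^ 2 - 1 = ‖p.2‖ ^ 2 by linarith, Real.sqrt_sq (norm_nonneg _), polar_ee]

lemma n1_bd {i : Fin 9} {u : Euc 4} (h : qK i u < 4) : -2 < n1 u ∧ n1 u < 2 := by
  rw [qK] at h
  exact abs_lt.1 (abs_lt_of_sq_lt_sq (by linarith [sq_nonneg (n2 i u)]) (by norm_num))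

lemma contDiffAt_qK {i : Fin 9} {u : Euc 4} (h : u ∈ Bx i) : ContDiffAt ℝ ∞ (qK i) u :=
  ((contDiffAt_n1 (abs_fr_lt h.1 (by norm_num)) (abs_fr_lt h.2.1 (by norm_num))).pow 2).add
    ((contDiffAt_n2 (abs_fr_lt h.2.2 (by norm_num))).pow 2)

lemma contDiffAt_roots {i : Fin 9} {u : Euc 4} (h1 : 1 < qK i u) (h2 : qK i u < 4) :
    ContDiffAt ℝ ∞ (fun u => √(qK i u - 1)) u ∧ ContDiffAt ℝ ∞ (fun u => √(n1 u + 360000)) u ∧
      ContDiffAt ℝ ∞ (fun u => √(3 - n1 u)) u := by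
  have hB := mem_Bx (h2.trans (by norm_num : (4 : ℝ) < 6))
  have hn := contDiffAt_n1 (abs_fr_lt hB.1 (by norm_num)) (abs_fr_lt hB.2.1 (by norm_num))
  obtain ⟨h3, h4⟩ := n1_bd h2
  exact ⟨((contDiffAt_qK hB).sub contDiffAt_const).sqrt (sub_pos.2 h1).ne',
    (hn.add contDiffAt_const).sqrt (by linarith), (contDiffAt_const.sub hn).sqrt (by linarith)⟩

lemma contDiffAt_JK {i : Fin 9} {u : Euc 4} (h1 : 1 < qK i u) (h2 : qK i u < 4) :
    ContDiffAt ℝ ∞ (JK i) u := by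
  have hB := mem_Bx (h2.trans (by norm_num : (4 : ℝ) < 6))
  obtain ⟨h3, h4, h5⟩ := contDiffAt_roots h1 h2
  have h6 := h3.div h4 (Real.sqrt_pos.2 (by linarith [n1_bd h2])).ne'
  refine ContDiffAt.prodMk (contDiffAt_pi.2 fun j => ?_) (by fun_prop)
  fin_cases j
  · exact h6.mul ((contDiffAt_fr (abs_fr_lt hB.1 (by norm_num))).comp u
      (f := fun u : Euc 4 => u 0) (by fun_prop))
  · exact h6.mul ((contDiffAt_fr (abs_fr_lt hB.2.1 (by norm_num))).comp u
      (f := fun u : Euc 4 => u 1) (by fun_prop))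
  · exact contDiffAt_n2 (abs_fr_lt hB.2.2 (by norm_num))

lemma fderiv_JK {i : Fin 9} {u : Euc 4} (h1 : 1 < qK i u) (h2 : qK i u < 4) (v : Euc 4)
    {μ ρ σ P A : ℝ} (hμ : μ = √(qK i u - 1)) (hρ : ρ = √(n1 u + 360000)) (hσ : σ = √(3 - n1 u))
    (hP : P = fr (u 0) * v 0 + fr (u 1) * v 1)
    (hA : A = ((40000 * n1 u * P + 20000000 * n2 i u * v 2) / μ * ρ - μ * (20000 * P / ρ)) / ρ ^ 2) :
    fderiv ℝ (JK i) u v =
      (![A * fr (u 0) + μ / ρ * (20000 * v 0), A * fr (u 1) + μ / ρ * (20000 * v 1),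
        20000000 * v 2], ((-(20000 * P / σ) : ℝ) + (2 * π * σ * v 3 : ℝ) * Complex.I) * ee (u 3)) := by
  have hB := mem_Bx (h2.trans (by norm_num : (4 : ℝ) < 6))
  obtain ⟨h3, h4⟩ := n1_bd h2
  have pμ : 0 < μ := hμ ▸ Real.sqrt_pos.2 (sub_pos.2 h1)
  have pρ : 0 < ρ := hρ ▸ Real.sqrt_pos.2 (by linarith)
  have pσ : 0 < σ := hσ ▸ Real.sqrt_pos.2 (by linarith)
  have e0 : u + (0 : ℝ) • v = u := by simp
  have dX := hasDerivAt_fr (hasDerivAt_coord u v 0)
    (by rw [e0]; exact abs_fr_lt hB.1 (by norm_num))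
  have dY := hasDerivAt_fr (hasDerivAt_coord u v 1)
    (by rw [e0]; exact abs_fr_lt hB.2.1 (by norm_num))
  have d1 : HasDerivAt (fun t : ℝ => n1 (u + t • v)) (40000 * P) 0 :=
    (((dX.fun_pow 2).fun_add (dY.fun_pow 2)).sub_const 360000).congr_deriv (by
      rw [e0, hP]; simp; ring)
  have d2 : HasDerivAt (fun t : ℝ => n2 i (u + t • v)) (20000000 * v 2) 0 :=
    ((hasDerivAt_fr ((hasDerivAt_coord u v 2).sub_const _)
      (by rw [e0]; exact abs_fr_lt hB.2.2 (by norm_num))).const_mul 1000).congr_deriv (by ring)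
  have dμ : HasDerivAt (fun t : ℝ => √(qK i (u + t • v) - 1))
      ((40000 * n1 u * P + 20000000 * n2 i u * v 2) / μ) 0 :=
    ((((d1.fun_pow 2).fun_add (d2.fun_pow 2)).sub_const 1).sqrt
      (by rw [e0]; exact (sub_pos.2 h1).ne')).congr_deriv (by
        rw [e0, ← qK, ← hμ]; field_simp; ring)
  have dρ : HasDerivAt (fun t : ℝ => √(n1 (u + t • v) + 360000)) (20000 * P / ρ) 0 :=
    ((d1.add_const 360000).sqrt (by rw [e0]; linarith)).congr_deriv (by
      rw [e0, ← hρ]; field_simp; ring)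
  have dσ : HasDerivAt (fun t : ℝ => √(3 - n1 (u + t • v))) (-(20000 * P / σ)) 0 :=
    ((d1.const_sub 3).sqrt (by rw [e0]; linarith)).congr_deriv (by
      rw [e0, ← hσ]; field_simp; ring)
  have dA : HasDerivAt (fun t : ℝ => √(qK i (u + t • v) - 1) / √(n1 (u + t • v) + 360000)) A 0 :=
    (dμ.fun_div dρ (by rw [e0, ← hρ]; exact pρ.ne')).congr_deriv (by rw [e0, ← hρ, ← hμ, hA])
  refine fderiv_line ((contDiffAt_JK h1 h2).differentiableAt (by simp))
    (HasDerivAt.prodMk (hasDerivAt_pi.2 fun j => ?_) ?_)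
  · fin_cases j
    · exact (dA.fun_mul dX).congr_deriv (by rw [e0, ← hρ, ← hμ]; rfl)
    · exact (dA.fun_mul dY).congr_deriv (by rw [e0, ← hρ, ← hμ]; rfl)
    · exact d2
  · exact (hasDerivAt_polar dσ (hasDerivAt_coord u v 3)).congr_deriv (by rw [e0, ← hσ])

lemma alg_K {X Y n m μ ρ σ s a c P A v0 v1 v2 : ℝ} (pμ : 0 < μ) (pρ : 0 < ρ) (pσ : 0 < σ)
    (s0 : 0 < s) (s1 : s ≤ 1) (hρ : ρ ^ 2 = X ^ 2 + Y ^ 2) (ha : a = σ * μ / (20000 * ρ))
    (hP : P = X * v0 + Y * v1)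
    (hA : A = ((40000 * n * P + 20000000 * m * v2) / μ * ρ - μ * (20000 * P / ρ)) / ρ ^ 2)
    (e0 : s * (A * X + μ / ρ * (20000 * v0)) + (1 - s) * v0 + c * (s * (μ / ρ * X)) = 0)
    (e1 : s * (A * Y + μ / ρ * (20000 * v1)) + (1 - s) * v1 + c * (s * (μ / ρ * Y)) = 0)
    (e2 : s * (20000000 * v2) + (1 - s) * v2 - c * (s * m) = 0)
    (e3 : -(s * (20000 * P / σ)) + c * (s * (2 * n * σ) + (1 - s) * a) = 0) :
    v0 = 0 ∧ v1 = 0 ∧ v2 = 0 ∧ c = 0 := by
  have t0 : 0 ≤ 1 - s := sub_nonneg.2 s1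
  have f1 : X * v1 - Y * v0 = 0 := by
    refine mul_left_cancel₀ (show s * (μ / ρ * 20000) + (1 - s) ≠ 0 by positivity) ?_
    linear_combination X * e1 - Y * e0
  obtain ⟨K, hK⟩ : ∃ K, K = 40000 * s * ρ * n / μ + (1 - s) := ⟨_, rfl⟩
  obtain ⟨κ, hκ⟩ : ∃ κ, κ = 20000000 * s + (1 - s) := ⟨_, rfl⟩
  have pκ : 0 < κ := by rw [hκ]; positivity
  have f2 : P * K + s * ρ * 20000000 / μ * m * v2 + c * (s * μ * ρ) = 0 := by
    have g : s * (A * ρ ^ 2 + μ / ρ * (20000 * P)) + (1 - s) * P + c * (s * (μ / ρ * ρ ^ 2)) = 0 := by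
      rw [hρ, hP]
      linear_combination X * e0 + Y * e1
    rw [hA] at g
    rw [← g, hK]
    field_simp
    ring
  have f3 : v2 = c * (s * m / κ) := by
    field_simp
    rw [hκ]
    linear_combination e2
  have f4 : P = c * (a * σ / (20000 * s) * K) := by
    have g : s * (2 * n * σ) + (1 - s) * a = a * K := by
      rw [hK, ha]
      field_simp
      ring
    rw [g] at e3
    field_simp at e3 ⊢
    linear_combination -e3
  have pa : 0 < a := by rw [ha]; positivity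
  have hc : c = 0 := by
    refine mul_right_cancel₀ (show a * σ / (20000 * s) * K ^ 2 +
      s * ρ * 20000000 / μ * (s / κ) * m ^ 2 + s * μ * ρ ≠ 0 by positivity) ?_
    rw [f4, f3] at f2
    linear_combination f2
  rw [hc, zero_mul] at f3 f4
  refine ⟨?_, ?_, f3, hc⟩
  · refine mul_left_cancel₀ (pow_pos pρ 2).ne' ?_
    rw [hρ]
    linear_combination X * f4 - X * hP - Y * f1
  · refine mul_left_cancel₀ (pow_pos pρ 2).ne' ?_
    rw [hρ]
    linear_combination Y * f4 - Y * hP + X * f1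

lemma JK_per (i : Fin 9) (u : Euc 4) (a : Fin 4 → ℤ) : JK i (u + lat a) = JK i u := by
  simp only [JK, n1_per, n2_per, qK_per, PiLp.add_apply, lat_apply, ee_add_int, fr_add_int]

lemma rho_sq (u : Euc 4) : √(n1 u + 360000) ^ 2 = fr (u 0) ^ 2 + fr (u 1) ^ 2 := by
  rw [n1, sub_add_cancel, Real.sq_sqrt (by positivity)]

lemma nsq_JK {i : Fin 9} {u : Euc 4} (h2 : qK i u < 4) :
    3 - Complex.normSq (JK i u).2 = n1 u := by
  rw [JK, nsq_ee, Real.sq_sqrt (by linarith [n1_bd h2])]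
  ring

/-- The standard frame. -/
noncomputable def stdF (u : Euc 4) : Euc 4 →L[ℝ] W5 :=
  (ContinuousLinearMap.pi fun j : Fin 3 => EuclideanSpace.proj j.castSucc).prod
    ((EuclideanSpace.proj 3 : Euc 4 →L[ℝ] ℝ).smulRight (Complex.I * ee (u 3)))

lemma stdF_apply (u v : Euc 4) :
    stdF u v = (fun j => v j.castSucc, (v 3 : ℂ) * Complex.I * ee (u 3)) := by
  rw [mul_assoc]
  rfl

lemma contDiff_stdF : ContDiff ℝ ∞ stdF := by
  refine contDiff_clm_apply_iff.2 fun v => ?_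
  simp only [stdF_apply]
  fun_prop

/-- The length of the normal field near the unknots. -/
noncomputable def coefK (i : Fin 9) (u : Euc 4) : ℝ :=
  √(3 - n1 u) * √(qK i u - 1) / (20000 * √(n1 u + 360000))

lemma coefK_pos {i : Fin 9} {u : Euc 4} (h1 : 1 < qK i u) (h2 : qK i u < 4) : 0 < coefK i u := by
  obtain ⟨h3, h4⟩ := n1_bd h2
  exact div_pos (mul_pos (Real.sqrt_pos.2 (by linarith)) (Real.sqrt_pos.2 (by linarith)))
    (mul_pos (by norm_num) (Real.sqrt_pos.2 (by linarith)))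

lemma nondeg_std {u : Euc 4} {a : ℝ} (pa : 0 < a) (v : Euc 4) (c : ℝ)
    (h : stdF u v + c • ((0, a • ee (u 3)) : W5) = 0) : v = 0 ∧ c = 0 := by
  have h1 : ((c * a : ℝ) + v 3 * Complex.I) * ee (u 3) = 0 := by
    have := congrArg Prod.snd h
    simp only [stdF_apply, Prod.snd_add, Prod.smul_snd, Complex.real_smul, Prod.snd_zero] at this
    push_cast
    linear_combination this
  have h2 := (mul_eq_zero.1 h1).resolve_right (ee_ne _)
  refine ⟨?_, by simpa [pa.ne'] using congrArg Complex.re h2⟩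
  ext j
  refine Fin.lastCases ?_ (fun j => ?_) j
  · simpa using congrArg Complex.im h2
  · simpa [stdF_apply] using congrFun (congrArg Prod.fst h) j

lemma nondeg_K {i : Fin 9} {u : Euc 4} (h1 : 1 < qK i u) (h2 : qK i u < 4) {s a : ℝ} (s0 : 0 ≤ s)
    (s1 : s ≤ 1) (pa : 0 < a) (ha : 0 < s → a = coefK i u) (v : Euc 4) (c : ℝ)
    (h : s • fderiv ℝ (JK i) u v + (1 - s) • stdF u v +
      c • (s • nuK (JK i u) + (1 - s) • ((0, a • ee (u 3)) : W5)) = 0) : v = 0 ∧ c = 0 := by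
  rcases s0.eq_or_lt with rfl | s0
  · exact nondeg_std pa v c (by simpa using h)
  obtain ⟨h3, h4⟩ := n1_bd h2
  obtain ⟨μ, hμ⟩ : ∃ μ, μ = √(qK i u - 1) := ⟨_, rfl⟩
  obtain ⟨ρ, hρ⟩ : ∃ ρ, ρ = √(n1 u + 360000) := ⟨_, rfl⟩
  obtain ⟨σ, hσ⟩ : ∃ σ, σ = √(3 - n1 u) := ⟨_, rfl⟩
  obtain ⟨P, hP⟩ : ∃ P, P = fr (u 0) * v 0 + fr (u 1) * v 1 := ⟨_, rfl⟩
  obtain ⟨A, hA⟩ : ∃ A, A = ((40000 * n1 u * P + 20000000 * n2 i u * v 2) / μ * ρ -
    μ * (20000 * P / ρ)) / ρ ^ 2 := ⟨_, rfl⟩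
  have pσ : 0 < σ := hσ ▸ Real.sqrt_pos.2 (by linarith)
  rw [fderiv_JK h1 h2 v hμ hρ hσ hP hA, nuK, nsq_JK h2, JK, ← hμ, ← hρ, ← hσ, stdF_apply] at h
  have h5 : ((-(s * (20000 * P / σ)) + c * (s * (2 * n1 u * σ) + (1 - s) * a) : ℝ) +
      ((s * (2 * π * σ) + (1 - s)) * v 3 : ℝ) * Complex.I) * ee (u 3) = 0 := by
    have := congrArg Prod.snd h
    simp only [Prod.snd_add, Prod.smul_snd, Complex.real_smul, Prod.snd_zero] at this
    push_cast at this ⊢
    linear_combination this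
  have h6 := (mul_eq_zero.1 h5).resolve_right (ee_ne _)
  have h7 := congrArg Complex.re h6
  have h8 := congrArg Complex.im h6
  simp only [Complex.add_re, Complex.ofReal_re, Complex.mul_re, Complex.I_re, mul_zero,
    Complex.ofReal_im, sub_zero, add_zero, Complex.zero_re, Complex.add_im,
    Complex.mul_im, Complex.I_im, mul_one, zero_add, Complex.zero_im] at h7 h8
  have t0 : 0 ≤ 1 - s := sub_nonneg.2 s1
  have h9 := congrFun (congrArg Prod.fst h)
  have e0 := h9 0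
  have e1 := h9 1
  have e2 := h9 2
  simp only [Prod.fst_add, Prod.smul_fst, Pi.add_apply, Pi.smul_apply, smul_eq_mul,
    Matrix.cons_val_zero, Matrix.cons_val_one, Matrix.cons_val, Prod.fst_zero, Pi.zero_apply,
    mul_zero, add_zero] at e0 e1 e2
  obtain ⟨a0, a1, a2, a3⟩ := alg_K (hμ ▸ Real.sqrt_pos.2 (sub_pos.2 h1))
    (hρ ▸ Real.sqrt_pos.2 (by linarith)) pσ s0 s1 (hρ ▸ rho_sq u)
    (by rw [ha s0, coefK, hμ, hρ, hσ]) hP hA e0 e1
    (by rw [← e2, mul_neg, mul_neg, sub_eq_add_neg]; rfl) h7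
  refine ⟨?_, a3⟩
  ext j
  fin_cases j
  exacts [a0, a1, a2, (mul_eq_zero.1 h8).resolve_left (by positivity)]

lemma Loops.nondeg (h : Loops γ) {l : Rel} {u : Euc 4} (h1 : 1 < qL γ l u) (h2 : qL γ l u < 100)
    {s : ℝ} (s0 : 0 ≤ s) (s1 : s ≤ 1) (v : Euc 4) (c : ℝ)
    (e : s • fderiv ℝ (JL γ l) u v + (1 - s) • stdF u v +
      c • (s • nuL (JL γ l u) + (1 - s) • ((0, ee (u 3)) : W5)) = 0) : v = 0 ∧ c = 0 := by
  obtain ⟨g, h3⟩ := h.fderiv_JL h1 h2 v
  obtain ⟨μ, hμ⟩ : ∃ μ, μ = √(qL γ l u - 1) := ⟨_, rfl⟩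
  have pμ : 0 < μ := hμ ▸ Real.sqrt_pos.2 (sub_pos.2 h1)
  rw [h3, nuL, JL, ← hμ, stdF_apply] at e
  have h5 : ((s * ((∑ j, yL γ l u j * (20000 * (v j.castSucc - v 3 * g j))) / μ) +
      c * (s * μ + (1 - s)) : ℝ) +
      ((s * (2 * π * μ) + (1 - s)) * v 3 : ℝ) * Complex.I) * ee (u 3) = 0 := by
    have := congrArg Prod.snd e
    simp only [Prod.snd_add, Prod.smul_snd, Complex.real_smul, Prod.snd_zero] at this
    generalize (∑ j, yL γ l u j * (20000 * (v j.castSucc - v 3 * g j))) / μ = d at this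
    push_cast at this ⊢
    linear_combination this
  have h6 := (mul_eq_zero.1 h5).resolve_right (ee_ne _)
  have h7 := congrArg Complex.re h6
  have h8 := congrArg Complex.im h6
  simp only [Complex.add_re, Complex.ofReal_re, Complex.mul_re, Complex.I_re, mul_zero,
    Complex.ofReal_im, sub_zero, add_zero, Complex.zero_re, Complex.add_im,
    Complex.mul_im, Complex.I_im, mul_one, zero_add, Complex.zero_im] at h7 h8
  have t0 : 0 ≤ 1 - s := sub_nonneg.2 s1
  have key : ∀ x : ℝ, 0 < x → 0 < s * x + (1 - s) := fun x hx => by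
    rcases s0.eq_or_lt with rfl | s0
    · simp
    · positivity
  have h9 : v 3 = 0 := (mul_eq_zero.1 h8).resolve_left (key _ (by positivity)).ne'
  have pκ := key 20000 (by norm_num)
  have h10 : ∀ j : Fin 3, v j.castSucc = c * (s / (s * 20000 + (1 - s)) * yL γ l u j) := fun j => by
    have := congrFun (congrArg Prod.fst e) j
    simp only [Prod.fst_add, Prod.smul_fst, Pi.add_apply, Pi.smul_apply, smul_eq_mul,
      Prod.fst_zero, Pi.zero_apply, mul_zero, add_zero, Pi.neg_apply, h9] at this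
    field_simp
    linear_combination this
  have hc : c = 0 := by
    have pq : 0 < qL γ l u := by linarith
    have := key μ pμ
    refine mul_right_cancel₀ (show s * (s / (s * 20000 + (1 - s)) * 20000 * qL γ l u / μ) +
      (s * μ + (1 - s)) ≠ 0 by positivity) ?_
    simp only [h9, h10, Fin.sum_univ_three] at h7
    rw [qL, Fin.sum_univ_three]
    linear_combination h7
  refine ⟨?_, hc⟩
  ext j
  refine Fin.lastCases h9 (fun j => ?_) j
  rw [h10, hc, zero_mul]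
  rfl

theorem JK_spec (i : Fin 9) :
    (∀ u a, JK i (u + lat a) = JK i u) ∧
    (∀ u, 1 < qK i u → qK i u < 4 → psK (JK i u) = 0 ∧ ContDiffAt ℝ ∞ (JK i) u ∧
      Injective (fderiv ℝ (JK i) u) ∧ 3 - Complex.normSq (JK i u).2 = n1 u) ∧
    (∀ u v, 1 < qK i u → qK i u < 4 → 1 < qK i v → qK i v < 4 → JK i u = JK i v →
      ∃ a, v = u + lat a) ∧
    ∀ p, psK p = 0 → (p.1 0, p.1 1) ≠ 0 → (3 - Complex.normSq p.2) ^ 2 + p.1 2 ^ 2 < 4 →
      ∃ u, 1 < qK i u ∧ qK i u < 4 ∧ JK i u = p := by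
  refine ⟨JK_per i, fun u h1 h2 => ⟨?_, contDiffAt_JK h1 h2, ?_, nsq_JK h2⟩,
    fun u v h1 h2 h3 h4 e => ?_, fun p h1 h2 h3 => ?_⟩
  · have pρ : 0 < √(n1 u + 360000) := Real.sqrt_pos.2 (by linarith [n1_bd h2])
    rw [psK, nsq_JK h2]
    simp only [JK, Matrix.cons_val_zero, Matrix.cons_val_one, Matrix.cons_val, mul_pow]
    rw [← mul_add, ← rho_sq, div_pow, div_mul_cancel₀ _ (pow_pos pρ 2).ne',
      Real.sq_sqrt (sub_pos.2 h1).le, qK]
    ring
  · refine (injective_iff_map_eq_zero _).2 fun v hv => ?_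
    exact (nondeg_K h1 h2 zero_le_one le_rfl (coefK_pos h1 h2) (fun _ => rfl) v 0 (by simp [hv])).1
  · have e1 : n1 u = n1 v := by rw [← nsq_JK h2, e, nsq_JK h4]
    have e2 : n2 i u = n2 i v := congrFun (congrArg Prod.fst e) 2
    have e3 : qK i u = qK i v := by rw [qK, qK, e1, e2]
    have pA : √(qK i v - 1) / √(n1 v + 360000) ≠ 0 := (div_pos (Real.sqrt_pos.2 (sub_pos.2 h3))
      (Real.sqrt_pos.2 (by linarith [n1_bd h4]))).ne'
    rw [JK, JK, e1, e3, Prod.mk.injEq] at e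
    obtain ⟨m0, a0⟩ := int_of_fr (mul_left_cancel₀ pA (congrFun e.1 0)).symm
    obtain ⟨m1, a1⟩ := int_of_fr (mul_left_cancel₀ pA (congrFun e.1 1)).symm
    obtain ⟨m2, a2⟩ := int_of_fr (mul_left_cancel₀ (by norm_num : (1000 : ℝ) ≠ 0) e2).symm
    obtain ⟨m3, a3⟩ := int_of_ee
      (smul_right_injective _ (Real.sqrt_pos.2 (by linarith [n1_bd h4])).ne' e.2).symm
    refine ⟨![m0, m1, m2, m3], ?_⟩
    ext j
    fin_cases j
    exacts [a0, a1, show v 2 = u 2 + m2 by linarith, a3]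
  · rw [psK] at h1
    obtain ⟨n, hn⟩ : ∃ n, n = 3 - Complex.normSq p.2 := ⟨_, rfl⟩
    rw [← hn] at h1 h3
    have b1 : |n| < 2 := abs_lt_of_sq_lt_sq (by linarith [sq_nonneg (p.1 2)]) (by norm_num)
    have b2 : |p.1 2| < 2 := abs_lt_of_sq_lt_sq (by linarith [sq_nonneg n]) (by norm_num)
    rw [abs_lt] at b1 b2
    have b3 : 0 < p.1 0 ^ 2 + p.1 1 ^ 2 := by
      by_contra h4
      refine h2 (Prod.ext ?_ ?_) <;>
        exact pow_eq_zero_iff two_ne_zero |>.1 (by nlinarith [sq_nonneg (p.1 0), sq_nonneg (p.1 1)])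
    obtain ⟨r, hr⟩ : ∃ r, r = √(n + 360000) / √(p.1 0 ^ 2 + p.1 1 ^ 2) := ⟨_, rfl⟩
    have b4 : (r * p.1 0) ^ 2 + (r * p.1 1) ^ 2 = n + 360000 := by
      rw [mul_pow, mul_pow, ← mul_add, hr, div_pow, Real.sq_sqrt b3.le, Real.sq_sqrt (by linarith),
        div_mul_cancel₀ _ b3.ne']
    let u : Euc 4 := !₂[r * p.1 0 / 20000, r * p.1 1 / 20000, (i : ℕ) / 20 + p.1 2 / 1000 / 20000,
      p.2.arg / (2 * π)]
    have c0 : fr (u 0) = r * p.1 0 := fr_small (abs_lt_of_sq_lt_sq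
      (by linarith [sq_nonneg (r * p.1 1)]) (by norm_num))
    have c1 : fr (u 1) = r * p.1 1 := fr_small (abs_lt_of_sq_lt_sq
      (by linarith [sq_nonneg (r * p.1 0)]) (by norm_num))
    have c2 : n2 i u = p.1 2 := by
      rw [n2, show u 2 - (i : ℕ) / 20 = p.1 2 / 1000 / 20000 from add_sub_cancel_left _ _,
        fr_small (abs_lt.2 ⟨by linarith, by linarith⟩)]
      ring
    have c3 : n1 u = n := by rw [n1, c0, c1, b4, add_sub_cancel_right]
    have c4 : qK i u - 1 = p.1 0 ^ 2 + p.1 1 ^ 2 := by rw [qK, c2, c3]; linarith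
    have c5 : √(p.1 0 ^ 2 + p.1 1 ^ 2) / √(n + 360000) * r = 1 := by
      have := Real.sqrt_pos.2 b3
      have := Real.sqrt_pos.2 (show 0 < n + 360000 by linarith)
      rw [hr]
      field_simp
    refine ⟨u, by linarith, by rw [qK, c2, c3]; exact h3, Prod.ext (funext fun j => ?_) ?_⟩
    · simp only [JK, c4, c3, c0, c1, c2, ← mul_assoc, c5, one_mul]
      fin_cases j <;> rfl
    · simp only [JK, c3]
      rw [hn, sub_sub_cancel, Complex.normSq_eq_norm_sq, Real.sqrt_sq (norm_nonneg _)]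
      exact polar_ee _

lemma glue_loc {Λ V : Type} [Fintype Λ] [NormedAddCommGroup V] [NormedSpace ℝ V]
    {q : Λ → Euc 4 → ℝ} (hq : ∀ k, Continuous (q k))
    (hs : ∀ k k' u, q k u < 6 → q k' u < 6 → k = k') {T : Euc 4 → V} (hT : ContDiff ℝ ∞ T)
    {D : Λ → Euc 4 → V} (h1 : ∀ k u, 1 < q k u → q k u < 4 → ContDiffAt ℝ ∞ (D k) u)
    (h2 : ∀ k u, 7 / 2 ≤ q k u → D k u = T u) : ∃ G : Euc 4 → V,
    (∀ u u', T u = T u' → (∀ k, D k u = D k u') → G u = G u') ∧ ∀ u,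
    ((∀ k, 1 < q k u) → ContDiffAt ℝ ∞ G u) ∧ (∀ k, q k u < 6 → G u = D k u) ∧
    ((∀ k, 4 ≤ q k u) → G u = T u) := by
  refine ⟨fun u => T u + ∑ k, (D k u - T u), fun u u' a b => by simp only [a, b], fun u =>
    ⟨fun h => hT.contDiffAt.add (ContDiffAt.sum fun k _ => ContDiffAt.sub ?_ hT.contDiffAt),
    fun k hk => ?_, fun h => ?_⟩⟩
  · rcases lt_or_ge (q k u) 4 with h3 | h3
    · exact h1 k u (h k) h3
    · refine hT.contDiffAt.congr_of_eventuallyEq ?_
      filter_upwards [(isOpen_lt continuous_const (hq k)).mem_nhds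
        (show (7 / 2 : ℝ) < q k u by linarith)] with v hv
      exact h2 k v (le_of_lt hv)
  · beta_reduce
    rw [Finset.sum_eq_single k, add_sub_cancel]
    · intro k' _ hk'
      rw [h2 k' u, sub_self]
      by_contra h3
      exact hk' (hs k' k u (by linarith [not_le.1 h3]) hk)
    · simp
  · beta_reduce
    rw [Finset.sum_eq_zero, add_zero]
    intro k _
    rw [h2 k u (by linarith [h k]), sub_self]

lemma fderiv_per {F : Type} [NormedAddCommGroup F] [NormedSpace ℝ F] {f : Euc 4 → F}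
    (h : ∀ u a, f (u + lat a) = f u) (u : Euc 4) (a : Fin 4 → ℤ) :
    fderiv ℝ f (u + lat a) = fderiv ℝ f u := by
  rw [← fderiv_comp_add_right]
  simp only [h]

/-- The frame near a loop. -/
noncomputable def frL (γ : Rel → ℝ → Euc 4) (l : Rel) (u : Euc 4) : (Euc 4 →L[ℝ] W5) × W5 :=
  (st (3 - qL γ l u) • fderiv ℝ (JL γ l) u + (1 - st (3 - qL γ l u)) • stdF u,
    st (3 - qL γ l u) • nuL (JL γ l u) + (1 - st (3 - qL γ l u)) • (0, ee (u 3)))

/-- The frame near an unknot. -/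
noncomputable def frK (i : Fin 9) (u : Euc 4) : (Euc 4 →L[ℝ] W5) × W5 :=
  (st (3 - qK i u) • fderiv ℝ (JK i) u + (1 - st (3 - qK i u)) • stdF u,
    st (3 - qK i u) • nuK (JK i u) + (1 - st (3 - qK i u)) •
      (0, (st (7 - 2 * qK i u) * coefK i u + (1 - st (7 - 2 * qK i u))) • ee (u 3)))

theorem exists_frame (h : Loops γ) : ∃ (B : Euc 4 → Euc 4 →L[ℝ] W5) (ν : Euc 4 → W5),
    (∀ u a, B (u + lat a) = B u ∧ ν (u + lat a) = ν u) ∧
    ∀ u, (∀ i, 1 < qK i u) → (∀ l, 1 < qL γ l u) →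
      ContDiffAt ℝ ∞ B u ∧ ContDiffAt ℝ ∞ ν u ∧
      (∀ v (c : ℝ), B u v + c • ν u = 0 → v = 0 ∧ c = 0) ∧
      (∀ l, qL γ l u < 2 → B u = fderiv ℝ (JL γ l) u ∧ ν u = nuL (JL γ l u)) ∧
      (∀ i, qK i u < 2 → B u = fderiv ℝ (JK i) u ∧ ν u = nuK (JK i u)) ∧
      ((∀ i, 4 ≤ qK i u) → (∀ l, 4 ≤ qL γ l u) → ν u = (0, ee (u 3)) ∧
        ∀ v, B u v = (fun j => v j.castSucc, (v 3 : ℂ) * Complex.I * ee (u 3))) := by
  let T : Euc 4 → (Euc 4 →L[ℝ] W5) × W5 := fun u => (stdF u, (0, ee (u 3)))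
  let D : Rel ⊕ Fin 9 → Euc 4 → (Euc 4 →L[ℝ] W5) × W5 := Sum.elim (frL γ) frK
  have hS := contDiff_stdF
  have key := glue_loc (q := Sum.elim (qL γ) qK) (T := T) (D := D)
    (Sum.rec h.continuous_qL continuous_qK) ?_ (by fun_prop) ?_ ?_
  rotate_left
  · rintro (l | i) (l' | i') u h1 h2
    · rw [h.sep l l' u h1 h2]
    · exact absurd h2 (not_lt.2 (h.av l i' u h1).le)
    · exact absurd h1 (not_lt.2 (h.av l' i u h2).le)
    · rw [qK_sep h1 h2]
  · rintro (l | i) u h1 h2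
    · have h3 := h.contDiffAt_JL h1 (h2.trans (by norm_num))
      have h4 := h3.fderiv_right (m := ∞) (by simp)
      have h5 := h.contDiffAt_qL (h2.trans (by norm_num : (4 : ℝ) < 100))
      have h6 := contDiff_nuL.contDiffAt.comp u h3
      have h7 : ContDiffAt ℝ ∞ (fun u => st (3 - qL γ l u)) u := by fun_prop
      have h8 := (contDiffAt_const (c := (1 : ℝ))).sub h7
      exact ((h7.fun_smul h4).add (h8.fun_smul hS.contDiffAt)).prodMk
        ((h7.fun_smul h6).add (h8.fun_smul (by fun_prop)))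
    · have h3 := contDiffAt_JK h1 h2
      have h4 := h3.fderiv_right (m := ∞) (by simp)
      have h5 := contDiffAt_qK (mem_Bx (h2.trans (by norm_num : (4 : ℝ) < 6)))
      have h6 := contDiff_nuK.contDiffAt.comp u h3
      obtain ⟨a1, a2, a3⟩ := contDiffAt_roots h1 h2
      have h7 : ContDiffAt ℝ ∞ (coefK i) u := (a3.mul a1).div (contDiffAt_const.mul a2)
        (mul_pos (by norm_num) (Real.sqrt_pos.2 (by linarith [n1_bd h2]))).ne'
      have h8 : ContDiffAt ℝ ∞ (fun u => st (3 - qK i u)) u := by fun_prop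
      have h9 := (contDiffAt_const (c := (1 : ℝ))).sub h8
      have h5' : ContDiffAt ℝ ∞ (qK i) u := h5
      exact ((h8.fun_smul h4).add (h9.fun_smul hS.contDiffAt)).prodMk
        ((h8.fun_smul h6).add (h9.fun_smul (by fun_prop)))
  · rintro (l | i) u h1
    · have h2 : st (3 - qL γ l u) = 0 :=
        Real.smoothTransition.zero_of_nonpos (by have : 7 / 2 ≤ qL γ l u := h1; linarith)
      change frL γ l u = _
      refine Prod.ext (ContinuousLinearMap.ext fun v => ?_) ?_ <;> simp [frL, h2, T]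
    · have h0 : 7 / 2 ≤ qK i u := h1
      have h2 : st (3 - qK i u) = 0 := Real.smoothTransition.zero_of_nonpos (by linarith)
      have h3 : st (7 - 2 * qK i u) = 0 := Real.smoothTransition.zero_of_nonpos (by linarith)
      change frK i u = _
      refine Prod.ext (ContinuousLinearMap.ext fun v => ?_) ?_ <;> simp [frK, h2, h3, T]
  obtain ⟨G, k0, key⟩ := key
  refine ⟨fun u => (G u).1, fun u => (G u).2, fun u a => ?_, fun u hK hL => ?_⟩
  · have h1 : T (u + lat a) = T u := by simp only [T, stdF, PiLp.add_apply, lat_apply, ee_add_int]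
    have h2 : ∀ k, D k (u + lat a) = D k u := by
      rintro (l | i)
      · simp only [D, Sum.elim_inl, frL, fderiv_per (JL_spec h l).1, (JL_spec h l).1, h.qL_per,
          stdF, PiLp.add_apply, lat_apply, ee_add_int]
      · simp only [D, Sum.elim_inr, frK, fderiv_per (JK_per i), JK_per, qK_per, coefK, n1_per,
          stdF, PiLp.add_apply, lat_apply, ee_add_int]
    simp only [k0 _ _ h1 h2, and_self]
  obtain ⟨k1, k2, k3⟩ := key u
  have k4 := k1 fun k => Sum.rec hL hK k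
  beta_reduce
  refine ⟨k4.fst, k4.snd, fun v c => ?_, fun l hl => ?_, fun i hi => ?_, fun h1 h2 => ?_⟩
  · by_cases h1 : ∃ l, qL γ l u < 4
    · obtain ⟨l, hl⟩ := h1
      rw [k2 (.inl l) (hl.trans (by norm_num))]
      exact h.nondeg (hL l) (hl.trans (by norm_num)) (Real.smoothTransition.nonneg _)
        (Real.smoothTransition.le_one _) v c
    by_cases h2 : ∃ i, qK i u < 4
    · obtain ⟨i, hi⟩ := h2
      rw [k2 (.inr i) (hi.trans (by norm_num))]
      refine nondeg_K (hK i) hi (Real.smoothTransition.nonneg _)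
        (Real.smoothTransition.le_one _) ?_ (fun h3 => ?_) v c
      · have h3 := coefK_pos (hK i) hi
        have h4 := sub_nonneg.2 (Real.smoothTransition.le_one (7 - 2 * qK i u))
        rcases (Real.smoothTransition.nonneg (7 - 2 * qK i u)).eq_or_lt with h5 | h5
        · simp [st, ← h5]
        · positivity
      · have h4 := not_le.1 (Real.smoothTransition.zero_iff_nonpos.not.1 h3.ne')
        rw [st, Real.smoothTransition.one_of_one_le (by linarith), one_mul, sub_self, add_zero]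
    · rw [k3 (Sum.rec (fun l => not_lt.1 fun h3 => h1 ⟨l, h3⟩)
        fun i => not_lt.1 fun h3 => h2 ⟨i, h3⟩)]
      intro h3
      exact nondeg_std one_pos v c (by rw [one_smul]; exact h3)
  · have h1 : st (3 - qL γ l u) = 1 := Real.smoothTransition.one_of_one_le (by linarith)
    rw [k2 (.inl l) (hl.trans (by norm_num))]
    refine ⟨ContinuousLinearMap.ext fun v => ?_, ?_⟩ <;> simp [D, frL, h1]
  · have h1 : st (3 - qK i u) = 1 := Real.smoothTransition.one_of_one_le (by linarith)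
    rw [k2 (.inr i) (hi.trans (by norm_num))]
    refine ⟨ContinuousLinearMap.ext fun v => ?_, ?_⟩ <;> simp [D, frK, h1]
  · rw [k3 (Sum.rec h2 h1)]
    exact ⟨rfl, stdF_apply u⟩

end Pool.Agent.Lib.MP_029589_gt
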