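import Pool.Agent.Lib.MP_029589_gt.Et

/-! The four-torus, the discs, the loops and the developing map. -/

set_option autoImplicit false

open scoped Manifold ContDiff Topology
open Set Filter Function Topology

namespace Pool.Agent.Lib.MP_029589_gt

/-- The standard lattice. -/
def Lat : Type := Multiplicative (Fin 4 → ℤ)

instance : CommGroup Lat := inferInstanceAs (CommGroup (Multiplicative (Fin 4 → ℤ)))

noncomputable instance : MulAction Lat (Euc 4) where
  smul a u := u + lat (Multiplicative.toAdd a)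
  one_smul u := (congrArg (u + ·) lat_zero).trans (add_zero u)
  mul_smul a b u := by
    change u + lat (Multiplicative.toAdd a + Multiplicative.toAdd b) = u + lat _ + lat _
    rw [lat_add, add_assoc, add_comm (lat (Multiplicative.toAdd a))]

lemma Lat.smul_def (a : Lat) (u : Euc 4) : a • u = u + lat (Multiplicative.toAdd a) := rfl

instance : ContinuousConstSMul Lat (Euc 4) := ⟨fun _ => continuous_id.add continuous_const⟩

instance : IsCancelSMul Lat (Euc 4) where
  right_cancel' a b u h := by
    have h1 := add_left_cancel h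
    refine Multiplicative.toAdd.injective (funext fun i => ?_)
    exact_mod_cast (show ((Multiplicative.toAdd a i : ℤ) : ℝ) = Multiplicative.toAdd b i from
      congrArg (fun v : Euc 4 => v i) h1)

instance : ProperlyDiscontinuousSMul Lat (Euc 4) where
  finite_disjoint_inter_image {K L} hK hL := by
    obtain ⟨R, hR⟩ := (hK.union hL).isBounded.exists_norm_le
    obtain ⟨N, hN⟩ := exists_nat_ge (R + R)
    refine ((finite_Icc (fun _ => -(N : ℤ)) fun _ => (N : ℤ)).preimage
      (f := fun a : Lat => Multiplicative.toAdd a) Multiplicative.toAdd.injective.injOn).subset ?_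
    rintro a ⟨_, ⟨u, hu, rfl⟩, hb⟩
    have h1 : ‖lat (Multiplicative.toAdd a)‖ ≤ N := by
      have := norm_sub_le (a • u) u
      rw [Lat.smul_def, add_sub_cancel_left, ← Lat.smul_def] at this
      linarith [hR _ (Or.inl hu), hR _ (Or.inr hb)]
    have h2 : ∀ i, |Multiplicative.toAdd a i| ≤ N := fun i => by
      have := (PiLp.norm_apply_le (lat (Multiplicative.toAdd a)) i).trans h1
      rw [lat_apply, Real.norm_eq_abs] at this
      exact_mod_cast this
    exact ⟨fun i => (abs_le.1 (h2 i)).1, fun i => (abs_le.1 (h2 i)).2⟩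

/-- The four-torus. -/
abbrev TT : Type := MulAction.orbitRel.Quotient Lat (Euc 4)

lemma lat_smooth (a : Lat) : ContMDiff (𝓡 4) (𝓡 4) ∞ fun u : Euc 4 => a • u :=
  (contDiff_id.add contDiff_const).contMDiff

instance : IsManifold (𝓡 4) ∞ TT := qm_manifold lat_smooth

instance : SecondCountableTopology TT := ContinuousConstSMul.secondCountableTopology

lemma tt_ld (u : Euc 4) : LD (Euc 4) (qm Lat) u := qm_ld lat_smooth u

lemma tt_eq {u v : Euc 4} : qm Lat u = qm Lat v ↔ ∃ a, u = v + lat a :=
  qm_eq.trans ⟨fun ⟨_, h⟩ => ⟨_, h.symm⟩, fun ⟨a, h⟩ => ⟨Multiplicative.ofAdd a, h.symm⟩⟩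

/-- Periodic functions as functions on the torus. -/
noncomputable def dn {α : Type} (f : Euc 4 → α) (t : TT) : α := f t.out

lemma dn_qm {α : Type} {f : Euc 4 → α} (h : ∀ u a, f (u + lat a) = f u) (u : Euc 4) :
    dn f (qm Lat u) = f u := by
  obtain ⟨a, ha⟩ := tt_eq.1 (Quotient.out_eq (qm Lat u))
  rw [dn, ha, h]

/-- The centred fractional part, in units in which the period is `20000`. -/
noncomputable def fr (t : ℝ) : ℝ := 20000 * (t - round t)

/-- The first normal coordinate of the unknots. -/
noncomputable def n1 (u : Euc 4) : ℝ := fr (u 0) ^ 2 + fr (u 1) ^ 2 - 360000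

/-- The second normal coordinate of the unknot number `i`. -/
noncomputable def n2 (i : Fin 9) (u : Euc 4) : ℝ := 1000 * fr (u 2 - (i : ℕ) / 20)

/-- The squared distance to the unknot number `i`. -/
noncomputable def qK (i : Fin 9) (u : Euc 4) : ℝ := n1 u ^ 2 + n2 i u ^ 2

/-- The function with jump one across the disc, as a function of the normal coordinates. -/
noncomputable def jmp (a b : ℝ) : ℝ := if 0 < b then Real.smoothTransition (-a / b - 1) else 0

/-- The staircase. -/
noncomputable def stair (t : ℝ) : ℝ :=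
  ⌊t + 1 / 8⌋ + Real.smoothTransition ((Int.fract (t + 1 / 8) - 27 / 40) / (3 / 10))

/-- The plateaus of the staircase. -/
def Pl : Set ℝ := {t | ∃ m : ℤ, t - m ∈ Icc (-1 / 10 : ℝ) (1 / 2)}

/-- The collapse of the torus. -/
noncomputable def kap (u : Euc 4) : Fin 4 → ℝ := ![stair (u 0), stair (u 1), stair (u 2), u 3]

/-- The generators. -/
def gen (i : Fin 9) : Gf := if h : (i : ℕ) < 8 then ⟨Pi.single ⟨i, h⟩ 1, 0⟩ else ⟨0, 1⟩

/-- The developing map. -/
noncomputable def dev (u : Euc 4) : GR := tor kap u + ∑ i, jmp (n1 u) (n2 i u) • (gen i • (0 : GR))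

/-- The map from the complement of the unknots to the nilmanifold. -/
noncomputable def ph0 : TT → BB := dn fun u => qm Gf (dev u)

/-- The complement of thin tubes around the unknots. -/
def BK : Set TT := {t | ∀ i, 1 < dn (qK i) t}

/-- The index set of the relators. -/
abbrev Rel : Type := (Fin 8 × Fin 8) ⊕ Fin 8 ⊕ Fin 4

/-- The words of the relators. -/
def wd : Rel → List (Fin 9 × Bool)
  | .inl (i, j) => [(7, true), (j.castSucc, false), (i.castSucc, false), (j.castSucc, true),
      (i.castSucc, true)]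
  | .inr (.inl j) => [(7, true), (8, false), (j.castSucc, true), (8, true)] ++
      (List.finRange 8).flatMap fun i : Fin 8 =>
        List.replicate (Nat.choose i j) (i.castSucc, false)
  | .inr (.inr j) => if j = 3 then [(7, true)] else [(7, true), ((ix4 j).castSucc, true)]

/-- The translations of the relators. -/
def shf : Rel → Fin 4 → ℤ
  | .inr (.inr j) => if j = 3 then Pi.single 3 1 else Pi.single 3 1 + Pi.single j 1
  | _ => Pi.single 3 1

/-- Evaluation of words; the first letter acts first. -/
def evw {H : Type} [Group H] (J : Fin 9 → H) : List (Fin 9 × Bool) → H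
  | [] => 1
  | a :: w => evw J w * if a.2 then J a.1 else (J a.1)⁻¹

/-- The normal coordinates of the loop number `l`. -/
noncomputable def yL (γ : Rel → ℝ → Euc 4) (l : Rel) (u : Euc 4) (j : Fin 3) : ℝ :=
  fr (u j.castSucc - γ l (u 3) j.castSucc)

/-- The squared distance to the loop number `l`. -/
noncomputable def qL (γ : Rel → ℝ → Euc 4) (l : Rel) (u : Euc 4) : ℝ := ∑ j, yL γ l u j ^ 2

/-- Disjoint loops in the complement of the unknots. -/
structure Loops (γ : Rel → ℝ → Euc 4) : Prop where
  sm : ∀ l, ContDiff ℝ ∞ (γ l)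
  last : ∀ l t, γ l t 3 = t
  per : ∀ l t, γ l (t + 1) = γ l t + lat (shf l)
  sep : ∀ l l' u, qL γ l u < 6 → qL γ l' u < 6 → l = l'
  av : ∀ l i u, qL γ l u < 6 → 6 < qK i u

/-- The loops realise the relators. -/
structure Relators (γ : Rel → ℝ → Euc 4) : Prop where
  lift : ∀ l, ∃ c : ℝ → GR, ContDiff ℝ ∞ c ∧ Periodic c 1 ∧ ∀ t, qm Gf (c t) = ph0 (qm Lat (γ l t))
  mono : ∀ (E X : Type) [TopologicalSpace E] [TopologicalSpace X] (p : E → X) (ι : TT → X),
    IsCoveringMap p → ContinuousOn ι BK →
    (∀ l (η : ℝ → E), Continuous η → (∀ t, p (η t) = ι (qm Lat (γ l t))) → η 1 = η 0) →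
    Lf p (fun z : TT × GR => ι z.1) {z | z.1 ∈ BK ∧ ph0 z.1 = qm Gf z.2}

/-- The ambient space of the fillings. -/
abbrev W5 : Type := (Fin 3 → ℝ) × ℂ

/-- The equation of the filling of a loop. -/
noncomputable def psL (p : W5) : ℝ := Complex.normSq p.2 - ∑ j, p.1 j ^ 2 + 1

/-- The equation of the filling of an unknot. -/
noncomputable def psK (p : W5) : ℝ :=
  p.1 0 ^ 2 + p.1 1 ^ 2 - ((3 - Complex.normSq p.2) ^ 2 + p.1 2 ^ 2) + 1

/-- A transverse field. -/
noncomputable def nuL (p : W5) : W5 := (-p.1, p.2)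

/-- A transverse field. -/
noncomputable def nuK (p : W5) : W5 :=
  (![p.1 0, p.1 1, -p.1 2], (2 * (3 - Complex.normSq p.2)) • p.2)

/-- The gluing map of a loop. -/
noncomputable def JL (γ : Rel → ℝ → Euc 4) (l : Rel) (u : Euc 4) : W5 :=
  (yL γ l u, √(qL γ l u - 1) • ee (u 3))

/-- The gluing map of an unknot. -/
noncomputable def JK (i : Fin 9) (u : Euc 4) : W5 :=
  (![√(qK i u - 1) / √(n1 u + 360000) * fr (u 0), √(qK i u - 1) / √(n1 u + 360000) * fr (u 1),
    n2 i u], √(3 - n1 u) • ee (u 3))

end Pool.Agent.Lib.MP_029589_gt
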