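import Pool.Agent.Lib.MP_029589_gt.Geo

/-! JOB F, first part: elementary properties of the geometric data, and the presentation. -/

set_option autoImplicit false

open scoped Manifold ContDiff Topology Matrix
open Set Filter Function Topology

namespace Pool.Agent.Lib.MP_029589_gt

lemma fr_add_int (t : ℝ) (m : ℤ) : fr (t + m) = fr t := by
  simp only [fr, round_add_intCast]
  push_cast
  ring

lemma continuous_fr_sq : Continuous fun t => fr t ^ 2 := by
  have h : (fun t => fr t ^ 2) = fun t : ℝ => 20000 ^ 2 * ‖(t : UnitAddCircle)‖ ^ 2 := by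
    ext t
    rw [UnitAddCircle.norm_eq, sq_abs, fr, mul_pow]
  rw [h]
  exact continuous_const.mul ((continuous_norm.comp (AddCircle.continuous_mk' 1)).pow 2)

lemma fr_loc {t : ℝ} (h : |fr t| < 10000) : fr =ᶠ[𝓝 t] fun s => 20000 * (s - round t) := by
  rw [fr, abs_lt] at h
  have h1 : Ioo ((round t : ℝ) - 1 / 2) (round t + 1 / 2) ∈ 𝓝 t :=
    Ioo_mem_nhds (by linarith [h.1]) (by linarith [h.2])
  filter_upwards [h1] with s hs
  rw [fr, round_eq_iff.2 ⟨hs.1.le, hs.2⟩]

lemma contDiffAt_fr {t : ℝ} (h : |fr t| < 10000) : ContDiffAt ℝ ∞ fr t :=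
  ContDiffAt.congr_of_eventuallyEq (by fun_prop) (fr_loc h)

lemma abs_fr_lt {t c : ℝ} (h : fr t ^ 2 < c) (hc : c ≤ 10000 ^ 2) : |fr t| < 10000 :=
  abs_lt_of_sq_lt_sq (h.trans_le hc) (by norm_num)

lemma n1_per (u : Euc 4) (a : Fin 4 → ℤ) : n1 (u + lat a) = n1 u := by
  simp only [n1, PiLp.add_apply, lat_apply, fr_add_int]

lemma n2_per (i : Fin 9) (u : Euc 4) (a : Fin 4 → ℤ) : n2 i (u + lat a) = n2 i u := by
  simp only [n2, PiLp.add_apply, lat_apply]
  rw [add_sub_right_comm, fr_add_int]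

lemma qK_per (i : Fin 9) (u : Euc 4) (a : Fin 4 → ℤ) : qK i (u + lat a) = qK i u := by
  simp only [qK, n1_per, n2_per]

lemma continuous_n1 : Continuous n1 :=
  ((continuous_fr_sq.comp (show Continuous fun u : Euc 4 => u 0 by fun_prop)).add
    (continuous_fr_sq.comp (show Continuous fun u : Euc 4 => u 1 by fun_prop))).sub continuous_const

lemma continuous_frz (i : Fin 9) : Continuous fun u : Euc 4 => fr (u 2 - (i : ℕ) / 20) ^ 2 :=
  continuous_fr_sq.comp (show Continuous fun u : Euc 4 => u 2 - (i : ℕ) / 20 by fun_prop)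

lemma continuous_qK (i : Fin 9) : Continuous (qK i) := by
  have h : qK i = fun u => n1 u ^ 2 + 1000 ^ 2 * fr (u 2 - (i : ℕ) / 20) ^ 2 := by
    ext u
    rw [qK, n2, mul_pow]
  rw [h]
  exact (continuous_n1.pow 2).add (continuous_const.mul (continuous_frz i))

lemma frz_sep {i j : Fin 9} {t : ℝ} (hi : fr (t - (i : ℕ) / 20) ^ 2 < 500 ^ 2)
    (hj : fr (t - (j : ℕ) / 20) ^ 2 < 500 ^ 2) : i = j := by
  have h1 := abs_lt.1 (abs_lt_of_sq_lt_sq hi (by norm_num))
  have h2 := abs_lt.1 (abs_lt_of_sq_lt_sq hj (by norm_num))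
  simp only [fr] at h1 h2
  generalize round (t - (i : ℕ) / 20) = a at h1
  generalize round (t - (j : ℕ) / 20) = b at h2
  have h3 : ((i : ℕ) : ℤ) + 20 * a < ((j : ℕ) : ℤ) + 20 * b + 1 := by
    have : ((i : ℕ) : ℝ) + 20 * a < ((j : ℕ) : ℝ) + 20 * b + 1 := by linarith [h1.1, h2.2]
    exact_mod_cast this
  have h4 : ((j : ℕ) : ℤ) + 20 * b < ((i : ℕ) : ℤ) + 20 * a + 1 := by
    have : ((j : ℕ) : ℝ) + 20 * b < ((i : ℕ) : ℝ) + 20 * a + 1 := by linarith [h1.2, h2.1]
    exact_mod_cast this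
  have := i.2
  have := j.2
  ext
  omega

/-- A box around the disc number `i`. -/
def Bx (i : Fin 9) : Set (Euc 4) :=
  {u | fr (u 0) ^ 2 < 1000 ^ 2 ∧ fr (u 1) ^ 2 < 1000 ^ 2 ∧ fr (u 2 - (i : ℕ) / 20) ^ 2 < 500 ^ 2}

lemma isOpen_Bx (i : Fin 9) : IsOpen (Bx i) :=
  (isOpen_lt (continuous_fr_sq.comp (show Continuous fun u : Euc 4 => u 0 by fun_prop))
    continuous_const).inter ((isOpen_lt (continuous_fr_sq.comp
      (show Continuous fun u : Euc 4 => u 1 by fun_prop)) continuous_const).inter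
        (isOpen_lt (continuous_frz i) continuous_const))

lemma mem_Bx {i : Fin 9} {u : Euc 4} (h : qK i u < 6) : u ∈ Bx i := by
  have h1 : n1 u < 3 := by
    rw [qK] at h
    nlinarith [sq_nonneg (n2 i u), sq_nonneg (n1 u - 3)]
  have h2 : n2 i u ^ 2 < 6 := by
    rw [qK] at h
    nlinarith [sq_nonneg (n1 u)]
  rw [n1] at h1
  rw [n2, mul_pow] at h2
  refine ⟨?_, ?_, ?_⟩ <;> nlinarith [sq_nonneg (fr (u 0)), sq_nonneg (fr (u 1))]

lemma qK_sep {i j : Fin 9} {u : Euc 4} (hi : qK i u < 6) (hj : qK j u < 6) : i = j :=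
  frz_sep (mem_Bx hi).2.2 (mem_Bx hj).2.2

lemma continuous_dn {α : Type} [TopologicalSpace α] {f : Euc 4 → α}
    (h : ∀ u a, f (u + lat a) = f u) (hf : Continuous f) : Continuous (dn f) := by
  refine (isQuotientMap_quotient_mk' (s := MulAction.orbitRel Lat (Euc 4))).continuous_iff.2 ?_
  exact hf.congr fun u => (dn_qm h u).symm

lemma stair_eq {t : ℝ} {m : ℤ} (h1 : -(1 / 40) ≤ t + 1 / 8 - m) (h2 : t + 1 / 8 - m < 1) :
    stair t = m + Real.smoothTransition ((t + 1 / 8 - m - 27 / 40) / (3 / 10)) := by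
  rw [stair, Int.fract]
  rcases le_or_gt 0 (t + 1 / 8 - m) with h | h
  · rw [(Int.floor_eq_iff (z := m)).2 ⟨by linarith, by linarith⟩]
  · have h3 : ⌊t + 1 / 8⌋ = m - 1 :=
      Int.floor_eq_iff.2 ⟨by push_cast; linarith, by push_cast; linarith⟩
    rw [h3, Real.smoothTransition.one_of_one_le, Real.smoothTransition.zero_of_nonpos]
    · push_cast; ring
    · linarith
    · push_cast; linarith

lemma contDiff_stair : ContDiff ℝ ∞ stair := by
  refine contDiff_iff_contDiffAt.2 fun t => ?_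
  have h1 : Ioo ((⌊t + 1 / 8⌋ : ℝ) - 1 / 8 - 1 / 40) (⌊t + 1 / 8⌋ - 1 / 8 + 1) ∈ 𝓝 t :=
    Ioo_mem_nhds (by linarith [Int.floor_le (t + 1 / 8)])
      (by linarith [Int.lt_floor_add_one (t + 1 / 8)])
  refine ContDiffAt.congr_of_eventuallyEq (f := fun s => (⌊t + 1 / 8⌋ : ℝ) +
    Real.smoothTransition ((s + 1 / 8 - ⌊t + 1 / 8⌋ - 27 / 40) / (3 / 10))) (by fun_prop) ?_
  filter_upwards [h1] with s hs
  exact stair_eq (by linarith [hs.1]) (by linarith [hs.2])

lemma stair_add_int (t : ℝ) (m : ℤ) : stair (t + m) = stair t + m := by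
  rw [stair, stair, add_right_comm, Int.floor_add_intCast, Int.fract_add_intCast]
  push_cast
  ring

lemma eqv_kap : Eqv4 kap := by
  refine ⟨contDiff_pi.2 fun i => ?_, fun u a => ?_⟩
  · have := contDiff_stair
    fin_cases i <;> simp [kap] <;> fun_prop
  · ext i
    fin_cases i <;> simp [kap, stair_add_int]

lemma stair_loc {t : ℝ} {m : ℤ} (h : t - m ∈ Icc (-1 / 10 : ℝ) (1 / 2)) :
    stair =ᶠ[𝓝 t] fun _ => (m : ℝ) := by
  have h1 : Ioo ((m : ℝ) - 3 / 20) (m + 11 / 20) ∈ 𝓝 t :=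
    Ioo_mem_nhds (by linarith [h.1]) (by linarith [h.2])
  filter_upwards [h1] with s hs
  rw [stair_eq (m := m) (by linarith [hs.1]) (by linarith [hs.2]),
    Real.smoothTransition.zero_of_nonpos (by linarith [hs.2]), add_zero]

lemma isClosed_Pl : IsClosed Pl := by
  have h : Pl = {t | fr (t - 1 / 5) ^ 2 ≤ 6000 ^ 2} := by
    ext t
    constructor
    · rintro ⟨m, h1, h2⟩
      have h3 : |t - 1 / 5 - m| ≤ 3 / 10 := abs_le.2 ⟨by linarith, by linarith⟩
      have h4 := abs_le.1 ((round_le (t - 1 / 5) m).trans h3)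
      change fr (t - 1 / 5) ^ 2 ≤ 6000 ^ 2
      exact sq_le_sq' (by rw [fr]; linarith [h4.1]) (by rw [fr]; linarith [h4.2])
    · intro h
      have h4 : -6000 ≤ fr (t - 1 / 5) ∧ fr (t - 1 / 5) ≤ 6000 :=
        abs_le.1 (abs_le_of_sq_le_sq h (by norm_num))
      rw [fr] at h4
      exact ⟨round (t - 1 / 5), by linarith [h4.1], by linarith [h4.2]⟩
  rw [h]
  exact isClosed_le (continuous_fr_sq.comp (continuous_id.sub continuous_const)) continuous_const

lemma ioG_smul (a : Fin 4 → ℤ) (g : GR) : ioG a • g = (io (cz a), 0) + g := by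
  rw [gf_smul_eq]
  simp only [ioG, Int.cast_zero, pl_zero]
  congr 2
  ext i
  fin_cases i <;> simp [io]

lemma io_add {K : Type} [AddCommMonoid K] (a b : Fin 4 → K) : io (a + b) = io a + io b := by
  ext i
  fin_cases i <;> simp [io]

lemma dev_per (u : Euc 4) (a : Fin 4 → ℤ) : dev (u + lat a) = ioG a • dev u := by
  simp only [dev, n1_per, n2_per, ioG_smul, tor, eqv_kap.2, io_add]
  rw [← add_assoc, Prod.mk_add_mk (io (cz a)), add_comm (io (kap u)), add_zero]

lemma ph0_qm (u : Euc 4) : ph0 (qm Lat u) = qm Gf (dev u) :=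
  dn_qm (f := fun u => qm Gf (dev u)) (fun u a => by rw [dev_per, qm_smul]) u

lemma jmp_supp {a b : ℝ} (h : jmp a b ≠ 0) : 0 < b ∧ b < -a := by
  rw [jmp] at h
  split_ifs at h with hb
  · refine ⟨hb, ?_⟩
    have h1 := not_le.1 (Real.smoothTransition.zero_iff_nonpos.not.1 h)
    rwa [sub_pos, lt_div_iff₀ hb, one_mul] at h1
  · exact absurd rfl h

lemma jmp_box {i : Fin 9} {u : Euc 4} (h : jmp (n1 u) (n2 i u) ≠ 0) :
    fr (u 0) ^ 2 ≤ 600 ^ 2 ∧ fr (u 1) ^ 2 ≤ 600 ^ 2 ∧ fr (u 2 - (i : ℕ) / 20) ^ 2 ≤ 360 ^ 2 := by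
  obtain ⟨h1, h2⟩ := jmp_supp h
  rw [n2] at h1 h2
  rw [n1] at h2
  have h3 := sq_nonneg (fr (u 0))
  have h4 := sq_nonneg (fr (u 1))
  refine ⟨by linarith, by linarith, sq_le_sq' (by linarith) (by linarith)⟩

lemma jmp_Bx {i : Fin 9} {u : Euc 4} (h : jmp (n1 u) (n2 i u) ≠ 0) : u ∈ Bx i := by
  obtain ⟨h1, h2, h3⟩ := jmp_box h
  exact ⟨by linarith, by linarith, by linarith⟩

lemma Bx_pl {i : Fin 9} {u : Euc 4} (h : u ∈ Bx i) : ∃ m : Fin 3 → ℤ,
    ∀ j : Fin 3, u j.castSucc - m j ∈ Icc (-1 / 10 : ℝ) (1 / 2) := by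
  have h1 := abs_lt.1 (abs_lt_of_sq_lt_sq h.1 (by norm_num))
  have h2 := abs_lt.1 (abs_lt_of_sq_lt_sq h.2.1 (by norm_num))
  have h3 := abs_lt.1 (abs_lt_of_sq_lt_sq h.2.2 (by norm_num))
  have h4 : ((i : ℕ) : ℝ) ≤ 8 := by exact_mod_cast Nat.lt_succ_iff.1 i.2
  have h5 : (0 : ℝ) ≤ (i : ℕ) := by positivity
  rw [fr] at h1 h2 h3
  refine ⟨![round (u 0), round (u 1), round (u 2 - (i : ℕ) / 20)], fun j => ?_⟩
  fin_cases j
  · exact ⟨show _ ≤ u 0 - round (u 0) by linarith [h1.1],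
      show u 0 - round (u 0) ≤ _ by linarith [h1.2]⟩
  · exact ⟨show _ ≤ u 1 - round (u 1) by linarith [h2.1],
      show u 1 - round (u 1) ≤ _ by linarith [h2.2]⟩
  · exact ⟨show _ ≤ u 2 - round (u 2 - (i : ℕ) / 20) by linarith [h3.1],
      show u 2 - round (u 2 - (i : ℕ) / 20) ≤ _ by linarith [h3.2]⟩

lemma dev_off {u : Euc 4} (h : ∃ j : Fin 3, u j.castSucc ∉ Pl) : dev u = tor kap u := by
  obtain ⟨j, hj⟩ := h
  rw [dev, Finset.sum_eq_zero, add_zero]
  intro i _
  by_cases h : jmp (n1 u) (n2 i u) = 0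
  · rw [h, zero_smul]
  · obtain ⟨m, hm⟩ := Bx_pl (jmp_Bx h)
    exact absurd ⟨m j, hm j⟩ hj

lemma dev_Bx {i : Fin 9} {u : Euc 4} (h : u ∈ Bx i) : qm Gf (dev u) =
    qm Gf (((Pi.single 7 (u 3), 0) : GR) + jmp (n1 u) (n2 i u) • (gen i • (0 : GR))) := by
  obtain ⟨m, hm⟩ := Bx_pl h
  rw [← qm_smul (ioG ![m 0, m 1, m 2, 0]) (_ + _), ioG_smul, dev, Finset.sum_eq_single i,
    ← add_assoc]
  · congr 2
    have h0 : stair (u 0) = m 0 := (stair_loc (hm 0)).self_of_nhds
    have h1 : stair (u 1) = m 1 := (stair_loc (hm 1)).self_of_nhds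
    have h2 : stair (u 2) = m 2 := (stair_loc (hm 2)).self_of_nhds
    refine Prod.ext (funext fun k => ?_) (by simp [tor])
    simp only [tor, Prod.fst_add, Pi.add_apply]
    fin_cases k <;> simp [io, kap, h0, h1, h2]
  · intro j _ hj
    by_cases h' : jmp (n1 u) (n2 j u) = 0
    · rw [h', zero_smul]
    · exact absurd (frz_sep (jmp_Bx h').2.2 h.2.2) hj
  · simp

lemma dev_tube {i : Fin 9} {u : Euc 4} (h : qK i u < 6) : qm Gf (dev u) =
    qm Gf (((Pi.single 7 (u 3), 0) : GR) + jmp (n1 u) (n2 i u) • (gen i • (0 : GR))) :=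
  dev_Bx (mem_Bx h)

lemma smul_central (x : Gf) (t : ℝ) :
    x • ((Pi.single 7 t, 0) : GR) = ((Pi.single 7 t, 0) : GR) + x • (0 : GR) := by
  rw [gf_smul_eq, gf_smul_eq, map_zero, add_zero, pl_apply, pas_last, add_comm]

lemma contDiff_central : ContDiff ℝ ∞ fun t : ℝ => ((Pi.single 7 t, 0) : GR) := by
  refine ContDiff.prodMk (contDiff_pi.2 fun k => ?_) contDiff_const
  simp only [Pi.single_apply]
  split_ifs <;> fun_prop

/-- Local lifts on the filling of an unknot, in the normal coordinates. -/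
theorem jmp_loc (i : Fin 9) {w : ℝ × ℝ × ℝ} (h : w.2 ≠ 0) : ∃ F : ℝ × ℝ × ℝ → GR,
    ∀ᶠ v in 𝓝 w, ContDiffAt ℝ ∞ F v ∧
      qm Gf (F v) = qm Gf (((Pi.single 7 v.1, 0) : GR) + jmp v.2.1 v.2.2 • (gen i • (0 : GR))) := by
  have hc := contDiff_central.comp (contDiff_fst (E := ℝ) (F := ℝ × ℝ))
  by_cases hb : 0 < w.2.2
  · refine ⟨fun v => ((Pi.single 7 v.1, 0) : GR) +
      Real.smoothTransition (-v.2.1 / v.2.2 - 1) • (gen i • (0 : GR)), ?_⟩
    filter_upwards [(isOpen_lt continuous_const (by fun_prop : Continuous fun v : ℝ × ℝ × ℝ =>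
      v.2.2)).mem_nhds hb] with v hv
    refine ⟨hc.contDiffAt.add ?_, ?_⟩
    · have : v.2.2 ≠ 0 := ne_of_gt hv
      fun_prop (disch := assumption)
    · rw [jmp, if_pos hv]
  refine ⟨fun v => ((Pi.single 7 v.1, 0) : GR), ?_⟩
  have key : ∀ᶠ v in 𝓝 w, jmp v.2.1 v.2.2 = 0 ∨ jmp v.2.1 v.2.2 = 1 := by
    by_cases h1 : -w.2.1 < w.2.2 ∨ w.2.2 < 0
    · have h2 : IsOpen {v : ℝ × ℝ × ℝ | -v.2.1 < v.2.2 ∨ v.2.2 < 0} :=
        (isOpen_lt (f := fun v : ℝ × ℝ × ℝ => -v.2.1) (by fun_prop) (by fun_prop)).union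
          (isOpen_lt (f := fun v : ℝ × ℝ × ℝ => v.2.2) (by fun_prop) continuous_const)
      filter_upwards [h2.mem_nhds h1] with v hv
      refine Or.inl (by_contra fun h3 => ?_)
      obtain ⟨h4, h5⟩ := jmp_supp h3
      rcases hv with hv | hv <;> linarith
    · obtain ⟨h1, h2⟩ := not_or.1 h1
      have h3 : w.2.2 = 0 := le_antisymm (not_lt.1 hb) (not_lt.1 h2)
      have h4 : 2 * w.2.2 < -w.2.1 := by
        rw [h3] at h1
        have h5 : w.2.1 ≠ 0 := fun h5 => h (Prod.ext h5 h3)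
        rw [h3, mul_zero]
        exact lt_of_le_of_ne (not_lt.1 h1) (neg_ne_zero.2 h5).symm
      filter_upwards [(isOpen_lt (by fun_prop : Continuous fun v : ℝ × ℝ × ℝ => 2 * v.2.2)
        (by fun_prop : Continuous fun v : ℝ × ℝ × ℝ => -v.2.1)).mem_nhds h4] with v hv
      rw [jmp]
      split_ifs with h5
      · refine Or.inr (Real.smoothTransition.one_of_one_le ?_)
        rw [le_sub_iff_add_le, le_div_iff₀ h5]
        have : 2 * v.2.2 < -v.2.1 := hv
        linarith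
      · exact Or.inl rfl
  filter_upwards [key] with v hv
  refine ⟨hc.contDiffAt, ?_⟩
  rcases hv with hv | hv
  · rw [hv, zero_smul, add_zero]
  · rw [hv, one_smul, ← smul_central, qm_smul]

lemma contDiffAt_n1 {u : Euc 4} (h0 : |fr (u 0)| < 10000) (h1 : |fr (u 1)| < 10000) :
    ContDiffAt ℝ ∞ n1 u :=
  ((((contDiffAt_fr h0).comp u (f := fun u : Euc 4 => u 0) (by fun_prop)).pow 2).add
    (((contDiffAt_fr h1).comp u (f := fun u : Euc 4 => u 1) (by fun_prop)).pow 2)).sub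
      contDiffAt_const

lemma contDiffAt_n2 {i : Fin 9} {u : Euc 4} (h : |fr (u 2 - (i : ℕ) / 20)| < 10000) :
    ContDiffAt ℝ ∞ (n2 i) u :=
  contDiffAt_const.mul ((contDiffAt_fr h).comp u (f := fun u : Euc 4 => u 2 - (i : ℕ) / 20)
    (by fun_prop))

lemma contDiff_io : ContDiff ℝ ∞ (io : (Fin 4 → ℝ) → Fin 8 → ℝ) := by
  refine contDiff_pi.2 fun k => ?_
  fin_cases k <;> simp [io] <;> fun_prop

/-- Local lifts away from the unknots. -/
theorem dev_loc {u : Euc 4} (h : ∀ i, 0 < qK i u) : ∃ F : Euc 4 → GR,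
    (∀ᶠ v in 𝓝 u, ContDiffAt ℝ ∞ F v ∧ qm Gf (F v) = qm Gf (dev v)) ∧
    ((∃ j : Fin 3, u j.castSucc ∈ Pl) → ¬Injective (fderiv ℝ F u)) := by
  by_cases hB : ∃ i, u ∈ Bx i
  · obtain ⟨i, hi⟩ := hB
    let H : Euc 4 → ℝ × ℝ × ℝ := fun v => (v 3, n1 v, n2 i v)
    have hH : ∀ v ∈ Bx i, ContDiffAt ℝ ∞ H v := fun v hv =>
      ContDiffAt.prodMk (by fun_prop) ((contDiffAt_n1 (abs_fr_lt hv.1 (by norm_num))
        (abs_fr_lt hv.2.1 (by norm_num))).prodMk (contDiffAt_n2 (abs_fr_lt hv.2.2 (by norm_num))))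
    obtain ⟨F, hF⟩ := jmp_loc i (w := H u) fun h1 => by
      have h2 := h i
      rw [qK, show n1 u = 0 from congrArg Prod.fst h1, show n2 i u = 0 from congrArg Prod.snd h1]
        at h2
      simp at h2
    refine ⟨F ∘ H, ?_, fun _ hinj => ?_⟩
    · filter_upwards [(isOpen_Bx i).mem_nhds hi, (hH u hi).continuousAt.eventually hF] with v h1 h2
      exact ⟨h2.1.comp v (hH v h1), h2.2.trans (dev_Bx h1).symm⟩
    · rw [fderiv_comp u (hF.self_of_nhds.1.differentiableAt (by simp))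
        ((hH u hi).differentiableAt (by simp))] at hinj
      have h1 := LinearMap.finrank_le_finrank_of_injective
        (f := (fderiv ℝ H u : Euc 4 →ₗ[ℝ] ℝ × ℝ × ℝ)) (Injective.of_comp hinj)
      simp at h1
  have hc : ContDiff ℝ ∞ (tor kap) := (contDiff_io.comp eqv_kap.1).prodMk contDiff_const
  refine ⟨tor kap, ?_, ?_⟩
  · have key : ∀ i : Fin 9, ∀ᶠ v in 𝓝 u, jmp (n1 v) (n2 i v) = 0 := fun i => by
      have h1 : IsClosed {u : Euc 4 | fr (u 0) ^ 2 ≤ 600 ^ 2 ∧ fr (u 1) ^ 2 ≤ 600 ^ 2 ∧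
          fr (u 2 - (i : ℕ) / 20) ^ 2 ≤ 360 ^ 2} :=
        (isClosed_le (continuous_fr_sq.comp (show Continuous fun u : Euc 4 => u 0 by fun_prop))
          continuous_const).inter ((isClosed_le (continuous_fr_sq.comp
            (show Continuous fun u : Euc 4 => u 1 by fun_prop)) continuous_const).inter
              (isClosed_le (continuous_frz i) continuous_const))
      filter_upwards [h1.isOpen_compl.mem_nhds fun h2 => hB ⟨i, by linarith [h2.1],
        by linarith [h2.2.1], by linarith [h2.2.2]⟩] with v hv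
      exact by_contra fun h2 => hv (jmp_box h2)
    filter_upwards [eventually_all.2 key] with v hv
    refine ⟨hc.contDiffAt, ?_⟩
    simp [dev, hv]
  · rintro ⟨j, m, hm⟩ hinj
    have h1 : HasDerivAt (fun t : ℝ => u + t • EuclideanSpace.single j.castSucc (1 : ℝ))
        (EuclideanSpace.single j.castSucc (1 : ℝ)) 0 := by
      simpa using ((hasDerivAt_id (0 : ℝ)).smul_const
        (EuclideanSpace.single j.castSucc (1 : ℝ))).const_add u
    have h2 := (hc.differentiable (by simp) _).hasFDerivAt.comp_hasDerivAt (0 : ℝ) h1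
    have h3 : ∀ᶠ t : ℝ in 𝓝 0, stair (u j.castSucc + t) = m := by
      have : Tendsto (fun t : ℝ => u j.castSucc + t) (𝓝 0) (𝓝 (u j.castSucc)) := by
        simpa using (continuous_const.add continuous_id).tendsto (0 : ℝ) (f := fun t : ℝ =>
          u j.castSucc + t)
      exact this.eventually (stair_loc hm)
    have h4 : HasDerivAt (tor kap ∘ fun t : ℝ => u + t • EuclideanSpace.single j.castSucc (1 : ℝ))
        0 0 := by
      refine (hasDerivAt_const (0 : ℝ) (tor kap u)).congr_of_eventuallyEq ?_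
      filter_upwards [h3] with t ht
      rw [← show stair (u j.castSucc) = m from (stair_loc hm).self_of_nhds] at ht
      simp only [Function.comp, tor]
      congr 2
      ext k
      fin_cases j <;> fin_cases k <;> first | (simp [kap]; done) | simpa [kap] using ht
    have h5 := h2.unique h4
    rw [zero_smul, add_zero, ← map_zero (fderiv ℝ (tor kap) u)] at h5
    simpa using congrArg (fun v : Euc 4 => v j.castSucc) (hinj h5)

variable {γ : Rel → ℝ → Euc 4}

lemma Loops.per_int (h : Loops γ) (l : Rel) (t : ℝ) (m : ℤ) :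
    γ l (t + m) = γ l t + lat (m • shf l) := by
  induction m using Int.induction_on with
  | zero => simp
  | succ k ih =>
    rw [Int.cast_add, Int.cast_one, ← add_assoc, h.per, ih, add_smul, one_smul, lat_add, add_assoc]
  | pred k ih =>
    have h1 := h.per l (t + ((-(k : ℤ) - 1 : ℤ) : ℝ))
    rw [show t + ((-(k : ℤ) - 1 : ℤ) : ℝ) + 1 = t + ((-(k : ℤ) : ℤ) : ℝ) by push_cast; ring, ih,
      show (-(k : ℤ)) • shf l = (-(k : ℤ) - 1) • shf l + shf l by rw [sub_smul, one_smul]; abel,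
      lat_add, ← add_assoc] at h1
    exact (add_right_cancel h1).symm

lemma Loops.yL_per (h : Loops γ) (l : Rel) (u : Euc 4) (a : Fin 4 → ℤ) :
    yL γ l (u + lat a) = yL γ l u := by
  ext j
  simp only [yL, PiLp.add_apply, lat_apply, h.per_int]
  rw [← fr_add_int (u j.castSucc - _) (a j.castSucc - (a 3 • shf l) j.castSucc)]
  congr 1
  push_cast
  ring

lemma Loops.contDiff_arg (h : Loops γ) (l : Rel) (j : Fin 3) :
    ContDiff ℝ ∞ fun u : Euc 4 => u j.castSucc - γ l (u 3) j.castSucc := by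
  have := h.sm l
  fun_prop

lemma Loops.continuous_qL (h : Loops γ) (l : Rel) : Continuous (qL γ l) :=
  continuous_finsetSum _ fun j _ => continuous_fr_sq.comp (h.contDiff_arg l j).continuous

lemma Loops.contDiffAt_yL (h : Loops γ) {l : Rel} {u : Euc 4} (hu : qL γ l u < 100) :
    ContDiffAt ℝ ∞ (yL γ l) u := by
  refine contDiffAt_pi.2 fun j => (contDiffAt_fr ?_).comp u (h.contDiff_arg l j).contDiffAt
  exact abs_fr_lt ((Finset.single_le_sum (f := fun j => yL γ l u j ^ 2) (fun _ _ => sq_nonneg _)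
    (Finset.mem_univ j)).trans_lt hu) (by norm_num)

lemma zind {κ : Type} [Fintype κ] [DecidableEq κ] (S : AddSubgroup (κ → ℤ))
    (h : ∀ i, Pi.single i 1 ∈ S) (a : κ → ℤ) : a ∈ S := by
  rw [← Finset.univ_sum_single a]
  refine sum_mem fun i _ => ?_
  have := S.zsmul_mem (h i) (a i)
  rwa [← Pi.single_smul, smul_eq_mul, mul_one] at this

lemma zext {κ H : Type} [Fintype κ] [DecidableEq κ] [Group H]
    (f g : Multiplicative (κ → ℤ) →* H)
    (h : ∀ i, f (.ofAdd (Pi.single i 1)) = g (.ofAdd (Pi.single i 1))) (a : κ → ℤ) :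
    f (.ofAdd a) = g (.ofAdd a) :=
  zind (Subgroup.toAddSubgroup' (f.eqLocus g)) h a

lemma evw_append {H : Type} [Group H] (J : Fin 9 → H) (v w : List (Fin 9 × Bool)) :
    evw J (v ++ w) = evw J w * evw J v := by
  induction v with
  | nil => simp [evw]
  | cons a v ih => simp only [List.cons_append, evw, ih, mul_assoc]

lemma evw_replicate {H : Type} [Group H] (J : Fin 9 → H) (n : ℕ) (i : Fin 9) :
    evw J (List.replicate n (i, false)) = (J i ^ n)⁻¹ := by
  induction n with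
  | zero => simp [evw]
  | succ n ih => simp [List.replicate_succ, evw, ih, pow_succ']

lemma evw_conj {H : Type} [Group H] (J : Fin 9 → H) (α : Multiplicative (Fin 8 → ℤ) →* H)
    (h : ∀ i : Fin 8, α (.ofAdd (Pi.single i 1)) = J i.castSucc) (j : Fin 8) :
    evw J (wd (.inr (.inl j))) = (α (.ofAdd (pas (1 : ℤ) *ᵥ Pi.single j 1)))⁻¹ *
      (J 8 * J j.castSucc * (J 8)⁻¹ * J 7) := by
  have key : ∀ L : List (Fin 8), evw J (L.flatMap fun i : Fin 8 =>
      List.replicate (Nat.choose i j) (i.castSucc, false)) =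
      (α (.ofAdd (L.map fun i : Fin 8 => Nat.choose i j • Pi.single i (1 : ℤ)).sum))⁻¹ := by
    intro L
    induction L with
    | nil => simp [evw]
    | cons a L ih =>
      rw [List.flatMap_cons, evw_append, ih, evw_replicate, List.map_cons, List.sum_cons,
        ofAdd_add, map_mul, mul_inv_rev, ofAdd_nsmul, map_pow, h]
  rw [wd, evw_append, key, ← Fin.sum_univ_def]
  congr 4
  · ext i
    simp [pas, Finset.sum_apply, Pi.single_apply]
  · simp [evw]

/-- The normal abelian subgroup. -/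
def abG : Multiplicative (Fin 8 → ℤ) →* Gf where
  toFun a := ⟨a.toAdd, 0⟩
  map_one' := rfl
  map_mul' a b := by
    refine Gf.ext ?_ (by simp)
    simp [pas_zero_mulVec]

lemma abG_gen (i : Fin 8) : abG (.ofAdd (Pi.single i 1)) = gen i.castSucc := by
  simp [gen, abG]

lemma gen_last : gen 8 = ⟨0, 1⟩ := rfl

lemma gen_zpow (k : ℤ) : gen 8 ^ k = ⟨0, k⟩ := by
  induction k using Int.induction_on with
  | zero => rfl
  | succ k ih => rw [zpow_add_one, ih, gen_last]; exact Gf.ext (by simp) rfl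
  | pred k ih => rw [zpow_sub_one, ih, gen_last]; exact Gf.ext (by simp) rfl

lemma gf_split (x : Gf) : x = abG (.ofAdd x.a) * gen 8 ^ x.k := by
  rw [gen_zpow]
  exact Gf.ext (by simp [abG]) (by simp [abG])

lemma io_single (j : Fin 4) : io (Pi.single j (1 : ℤ)) = Pi.single (ix4 j) 1 := by
  ext i
  fin_cases j <;> fin_cases i <;> simp [io, ix4]

lemma ioG_eq (a : Fin 4 → ℤ) : ioG a = abG (.ofAdd (io a)) := rfl

theorem evw_gen (l : Rel) : evw gen (wd l) = ioG (shf l) := by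
  have h7 : gen 7 = abG (.ofAdd (Pi.single 7 1)) := rfl
  have h3 : ioG (Pi.single 3 1) = gen 7 := by rw [ioG_eq, io_single]; rfl
  rcases l with ⟨i, j⟩ | j | j
  · simp only [wd, evw, shf, h3, ← abG_gen, ← map_inv, ← map_mul, if_true, one_mul,
      Bool.false_eq_true, if_false]
    simp
  · rw [evw_conj gen abG abG_gen, shf, h3, ← abG_gen]
    · have : gen 8 * abG (.ofAdd (Pi.single j 1)) * (gen 8)⁻¹ =
          abG (.ofAdd (pas (1 : ℤ) *ᵥ Pi.single j 1)) :=
        Gf.ext (by simp [gen_last, abG]) (by simp [gen_last, abG])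
      rw [this, inv_mul_cancel_left]
    · simp
  · rw [wd, shf]
    split_ifs with hj
    · simp [evw, h3]
    · simp only [evw, if_true, one_mul]
      rw [ioG_eq, io_add, io_single, io_single, add_comm, ofAdd_add, map_mul, abG_gen, abG_gen]
      rfl

theorem closure_gen : Subgroup.closure (range gen) = ⊤ := by
  refine eq_top_iff.2 fun x _ => ?_
  rw [gf_split x]
  refine mul_mem ?_ (zpow_mem (Subgroup.subset_closure (mem_range_self 8)) _)
  exact zind (Subgroup.toAddSubgroup' ((Subgroup.closure (range gen)).comap abG))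
    (fun i => Subgroup.subset_closure ⟨i.castSucc, (abG_gen i).symm⟩) x.a

theorem presentation {H : Type} [Group H] (J : Fin 9 → H) (T : Lat →* H)
    (h : ∀ l, evw J (wd l) = T (Multiplicative.ofAdd (shf l))) :
    ∃ σ : Gf →* H, (∀ i, σ (gen i) = J i) ∧ ∀ a, σ (ioG a) = T (Multiplicative.ofAdd a) := by
  have h7 : J 7 = T (Multiplicative.ofAdd (Pi.single 3 1)) := by
    simpa [wd, shf, evw] using h (.inr (.inr 3))
  have hc : ∀ i j : Fin 8, Commute (J i.castSucc) (J j.castSucc) := fun i j => by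
    have h1 := h (.inl (i, j))
    simp only [wd, shf, evw, ← h7, if_true, one_mul, Bool.false_eq_true, if_false,
      mul_eq_right] at h1
    exact commutatorElement_eq_one_iff_commute.1 h1
  obtain ⟨α, hα⟩ : ∃ α : Multiplicative (Fin 8 → ℤ) →* H,
      ∀ i : Fin 8, α (.ofAdd (Pi.single i 1)) = J i.castSucc := by
    refine ⟨MonoidHom.noncommPiCoprod (fun i : Fin 8 => zpowersHom H (J i.castSucc))
      fun i j _ x y => (hc i j).zpow_zpow _ _, fun i => ?_⟩
    exact (MonoidHom.noncommPiCoprod_mulSingle (fun i : Fin 8 => zpowersHom H (J i.castSucc)) i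
      (Multiplicative.ofAdd (1 : ℤ))).trans (zpow_one (J i.castSucc))
  have h1 : ∀ a, J 8 * α (.ofAdd a) * (J 8)⁻¹ = α (.ofAdd (pas (1 : ℤ) *ᵥ a)) := by
    refine zext ((MulAut.conj (J 8)).toMonoidHom.comp α)
      (α.comp (AddMonoidHom.toMultiplicative (Matrix.mulVecLin (pas (1 : ℤ))).toAddMonoidHom))
      fun j => ?_
    have h2 := h (.inr (.inl j))
    rw [evw_conj J α hα, shf, ← h7, ← mul_assoc, mul_eq_right, inv_mul_eq_one, ← hα] at h2
    · exact h2.symm
    · simp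
  have h2 : ∀ (k : ℤ) a, J 8 ^ k * α (.ofAdd a) = α (.ofAdd (pas k *ᵥ a)) * J 8 ^ k := by
    intro k
    induction k using Int.induction_on with
    | zero => simp [pas_zero_mulVec]
    | succ k ih =>
      intro a
      rw [← pas_pas, zpow_add_one, ← mul_assoc, ← ih, ← h1]
      group
    | pred k ih =>
      intro a
      have h3 := h1 (pas (-1) *ᵥ a)
      rw [pas_pas, add_neg_cancel, pas_zero_mulVec] at h3
      rw [sub_eq_add_neg, ← pas_pas, zpow_add, ← mul_assoc, ← ih, ← h3]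
      group
  refine ⟨MonoidHom.mk' (fun x => α (.ofAdd x.a) * J 8 ^ x.k) fun x y => ?_, fun i => ?_, ?_⟩
  · rw [Gf.mul_a, Gf.mul_k, ofAdd_add, map_mul, zpow_add, mul_assoc, mul_assoc,
      ← mul_assoc (J 8 ^ _), h2, mul_assoc]
  · refine Fin.lastCases ?_ (fun i => ?_) i
    · change α (.ofAdd 0) * J 8 ^ (1 : ℤ) = J 8
      simp
    · rw [← abG_gen, ← hα]
      change α (.ofAdd (Pi.single i 1)) * J 8 ^ (0 : ℤ) = _
      rw [zpow_zero, mul_one]
  · have h3 := zext (α.comp (AddMonoidHom.toMultiplicative (AddMonoidHom.mk' io io_add))) T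
      fun j => by
        change α (.ofAdd (io (Pi.single j 1))) = _
        rw [io_single, hα]
        have h4 := h (.inr (.inr j))
        rw [wd, shf] at h4
        split_ifs at h4 with hj
        · rw [hj]; exact h7
        · simp only [evw, if_true, one_mul] at h4
          have h5 := map_mul T (Multiplicative.ofAdd (Pi.single j 1))
            (Multiplicative.ofAdd (Pi.single 3 1))
          rw [add_comm] at h4
          exact mul_right_cancel (h4.trans (h5.trans (by rw [h7]; rfl)))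
    intro a
    change α (.ofAdd (io a)) * J 8 ^ (0 : ℤ) = _
    rw [zpow_zero, mul_one]
    exact h3 a

end Pool.Agent.Lib.MP_029589_gt
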