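import Pool.Agent.Lib.MP_029589_gt.Det
import Pool.Agent.Lib.MP_029589_gt.NotB

/-! The invariant map to the sphere, its rescalings and their Lipschitz constants. -/

set_option autoImplicit false

open scoped Manifold ContDiff Topology RealInnerProductSpace
open Set Filter Function

namespace Pool.Agent.Lib.MP_029589_gt

lemma exists_K : ∃ K : (TTs × ℝ) ≃L[ℝ] Euc 24, ⟪K (0, -1), (base 23).1⟫ ≤ 0 := by
  let K : (TTs × ℝ) ≃L[ℝ] Euc 24 := ContinuousLinearEquiv.ofFinrankEq (by simp [Module.finrank_prod])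
  rcases le_total ⟪K (0, -1), (base 23).1⟫ 0 with h | h
  · exact ⟨K, h⟩
  · exact ⟨K.trans (.neg ℝ), by simpa using h⟩

/-- A linear identification. -/
noncomputable def KK : (TTs × ℝ) ≃L[ℝ] Euc 24 := exists_K.choose

/-- The normalising factor. -/
noncomputable def nv (p : NN) : ℝ := ‖KK (G1 p, G0 p)‖⁻¹

/-- The invariant map to the sphere. -/
noncomputable def gg (p : NN) : Euc 24 := nv p • KK (G1 p, G0 p)

lemma KK_ne {u : TTs × ℝ} (h : u ≠ 0) : ‖KK u‖ ≠ 0 := by simpa using h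

lemma nv_pos (p : NN) : 0 < nv p := inv_pos.2 ((norm_nonneg _).lt_of_ne' (KK_ne (G_ne p)))

lemma contDiff_nv : ContDiff ℝ ∞ nv :=
  ((KK.contDiff.comp (contDiff_G1.prodMk contDiff_G0)).norm ℝ
    fun p => norm_ne_zero_iff.1 (KK_ne (G_ne p))).inv fun p => KK_ne (G_ne p)

lemma contDiff_gg : ContDiff ℝ ∞ gg :=
  contDiff_nv.smul (KK.contDiff.comp (contDiff_G1.prodMk contDiff_G0))

lemma norm_gg (p : NN) : ‖gg p‖ = 1 := norm_smul_inv_norm (norm_ne_zero_iff.1 (KK_ne (G_ne p)))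

lemma gg_smul (a : Gam) (p : NN) : gg (a • p) = gg p := by
  simp only [gg, nv, (G_smul a p).1, (G_smul a p).2]

/-- The regular value. -/
noncomputable def q0 : Sph 23 := ⟨‖KK (0, -1)‖⁻¹ • KK (0, -1), mem_sphere_zero_iff_norm.2
  (norm_smul_inv_norm (norm_ne_zero_iff.1 (KK_ne (by simp))))⟩

lemma q0_base : ⟪q0.1, (base 23).1⟫ ≤ 0 := by
  rw [q0, real_inner_smul_left]
  exact mul_nonpos_of_nonneg_of_nonpos (by positivity) exists_K.choose_spec

lemma q0_q0 : ⟪q0.1, q0.1⟫ = 1 := by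
  rw [real_inner_self_eq_norm_sq, norm_eq_of_mem_sphere, one_pow]

/-- The projection along `q0`. -/
noncomputable def P0 : Euc 24 →L[ℝ] Euc 23 := (exists_proj q0).choose

lemma hP0 (y : Euc 24) : ‖P0 y‖ ^ 2 = ‖y‖ ^ 2 - ⟪q0.1, y⟫ ^ 2 := (exists_proj q0).choose_spec y

lemma P0_q0 : P0 q0 = 0 := by
  rw [← norm_eq_zero, ← sq_eq_zero_iff, hP0, q0_q0, norm_eq_of_mem_sphere, sub_self]

lemma KK_zero (r : ℝ) : KK (0, r) = (-r * ‖KK (0, -1)‖) • q0.1 := by
  rw [q0, smul_smul, mul_inv_cancel_right₀ (KK_ne (by simp)), ← map_smul]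
  simp

/-- The linear part. -/
noncomputable def A0 : TTs →L[ℝ] Euc 23 :=
  P0.comp ((KK : TTs × ℝ →L[ℝ] Euc 24).comp (ContinuousLinearMap.inl ℝ TTs ℝ))

lemma A0_zero {t : TTs} (h : A0 t = 0) : t = 0 := by
  have h1 := proj_zero hP0 (y := KK (t, 0)) h
  rw [q0, smul_smul, ← map_smul] at h1
  simpa using congrArg Prod.fst (KK.injective h1)

lemma P0_gg (p : NN) : P0 (gg p) = nv p • A0 (G1 p) := by
  have : KK (G1 p, G0 p) = KK (G1 p, 0) + KK (0, G0 p) := by rw [← map_add]; simp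
  rw [gg, map_smul, this, map_add, KK_zero, map_smul, P0_q0, smul_zero, add_zero]
  rfl

lemma gg_eq {p : NN} (h : G1 p = 0) : gg p = (nv p * (-G0 p * ‖KK (0, -1)‖)) • q0.1 := by
  rw [gg, h, KK_zero, smul_smul]

lemma gg_zero {p : NN} (h : P0 (gg p) = 0) (h' : 0 < ⟪q0.1, gg p⟫) : G1 p = 0 ∧ G0 p ≤ 0 := by
  rw [P0_gg] at h
  have h1 := A0_zero ((smul_eq_zero.1 h).resolve_left (nv_pos p).ne')
  rw [gg_eq h1, real_inner_smul_right, q0_q0, mul_one, mul_pos_iff_of_pos_left (nv_pos p)] at h'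
  exact ⟨h1, by nlinarith [norm_nonneg (KK (0, -1))]⟩

lemma gg_q0 {p : NN} (h : G1 p = 0) (h' : G0 p < 0) : gg p = q0 := by
  have h1 := norm_gg p
  rw [gg_eq h, norm_smul, norm_eq_of_mem_sphere, mul_one, Real.norm_of_nonneg
    (mul_nonneg (nv_pos p).le (mul_nonneg (neg_nonneg.2 h'.le) (norm_nonneg _)))] at h1
  rw [gg_eq h, h1, one_smul]

lemma amb_sign : ∃ s : ℝ, ∀ (p : NN) (σ : ℝ × ℝ → ℂ), G1 p = 0 → G0 p ≤ 0 → 1 / 2 ≤ kpp p.1 →
    PosAt σ p.1 → 0 < s * (fderiv ℝ (fun q => DD.J (P0 (gg q), σ q.1)) p).det := by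
  let L : NN →L[ℝ] NN := DD.amb (A0.comp (.snd ℝ _ _))
    ((Complex.equivRealProdCLM.symm : ℝ × ℝ →L[ℝ] ℂ).comp (.fst ℝ _ _))
  have hL : L.det ≠ 0 := by
    rw [det_ne_zero_iff, injective_iff_map_eq_zero]
    intro u hu
    obtain ⟨h1, h2⟩ := Prod.ext_iff.1 (DD.J.map_eq_zero_iff.1 hu)
    exact Prod.ext (Complex.equivRealProdCLM.symm.map_eq_zero_iff.1 h2) (A0_zero h1)
  refine ⟨L.det, fun p σ h1 h2 h3 ⟨_, α, β, h4, h5⟩ => ?_⟩
  have D := (contDiff_G1.differentiable (by simp) p).hasFDerivAt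
  have d1 := (contDiff_nv.differentiable (by simp) p).hasFDerivAt.smul (A0.hasFDerivAt.comp p D)
  have d2 := (DD.J : Euc 23 × ℂ →L[ℝ] NN).hasFDerivAt.comp p (d1.prodMk (h5.comp p hasFDerivAt_fst))
  have hn := nv_pos p
  have hn' : (nv p : ℂ) ≠ 0 := Complex.ofReal_ne_zero.2 hn.ne'
  have e : fderiv ℝ (fun q => DD.J (P0 (gg q), σ q.1)) p = nv p • L.comp
      (((rp ((nv p : ℂ)⁻¹ * α) ((nv p : ℂ)⁻¹ * β)).comp (.fst ℝ _ _)).prod (fderiv ℝ G1 p)) := by
    simp only [P0_gg]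
    refine d2.fderiv.trans (ContinuousLinearMap.ext fun u => ?_)
    simp only [L, LS.amb, ContinuousLinearMap.comp_apply, smul_apply]
    rw [← (DD.J : Euc 23 × ℂ →L[ℝ] NN).map_smul]
    congr 1
    ext1
    · simp [h1]
    · simp only [rp, ContinuousLinearMap.prod_apply, ContinuousLinearMap.comp_apply,
        ContinuousLinearEquiv.coe_coe, ContinuousLinearEquiv.symm_apply_apply, Prod.smul_snd,
        ContinuousLinearMap.coe_fst', pair_apply, Complex.real_smul]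
      field_simp
  have e2 : ∀ T : NN →L[ℝ] NN, (nv p • T).det = nv p ^ Module.finrank ℝ NN * T.det :=
    fun T => LinearMap.det_smul (nv p) (T : NN →ₗ[ℝ] NN)
  rw [e, e2, det_comp', det_tri' (ContinuousLinearMap.prod _ _) (rp _ _)
    ((fderiv ℝ G1 p).comp (.inr ℝ (ℝ × ℝ) TTs)) (fun _ => rfl) (by simp), det_rp, area_mul,
    mul_left_comm, ← mul_assoc L.det]
  exact mul_pos (pow_pos hn _) (mul_pos (mul_self_pos.2 hL) (mul_pos (mul_pos
    (Complex.normSq_pos.2 (inv_ne_zero hn')) h4) (det_G1 h1 h2 h3)))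

lemma gg_bound : ∃ C > 0, ∀ x u, ‖fderiv ℝ gg x (Lam x u)‖ ≤ C * ‖u‖ := by
  obtain ⟨C, hC⟩ := (isCompact_closedBall (0 : NN) 1).exists_bound_of_continuousOn
    ((contDiff_gg.continuous_fderiv (by simp)).clm_comp continuous_Lam).continuousOn
  refine ⟨max C 1, by positivity, fun x u => ?_⟩
  obtain ⟨a, ha⟩ := cocompact x
  have h1 := ((contDiff_gg.differentiable (by simp) (a • x)).hasFDerivAt.comp x
    (hasFDerivAt_nmul a.val x)).fderiv
  rw [show gg ∘ HSMul.hSMul a = gg from funext (gg_smul a)] at h1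
  rw [h1, ContinuousLinearMap.comp_apply, Lam_Lam, ← Lam_nmul]
  exact (((fderiv ℝ gg (a • x)).comp (Lam (a • x))).le_opNorm u).trans (mul_le_mul_of_nonneg_right
    ((hC _ (mem_closedBall_zero_iff.2 ha)).trans (le_max_left _ _)) (norm_nonneg _))

lemma tan_bound (g : (XX ⊤).Metric) : ∃ C > 0, ∀ (z : ZT) v,
    ‖Lam (-z.1) (LS.tan z v)‖ ≤ C * nrm g (pX z) (md (Euc 23) (Euc 23) pX z v) := by
  obtain ⟨C, hC⟩ : ∃ C ≥ 0, ∀ z ∈ {z : ZT | ‖z.1‖ ≤ 1}, ∀ v,
      ‖LS.tan z v‖ ≤ C * nrm g (pX z) (md (Euc 23) (Euc 23) pX z v) := by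
    refine (cpt_ball 1).induction_on (p := fun K => ∃ C ≥ 0, ∀ z ∈ K, ∀ v,
      ‖LS.tan z v‖ ≤ C * nrm g (pX z) (md (Euc 23) (Euc 23) pX z v)) ⟨0, le_rfl, by simp⟩
      (fun s t h ⟨C, h1, h2⟩ => ⟨C, h1, fun z hz => h2 z (h hz)⟩)
      (fun s t ⟨C, h1, h2⟩ ⟨D, h3, h4⟩ => ⟨C + D, add_nonneg h1 h3, fun z hz v => ?_⟩) fun z _ => ?_
    · have := nrm_nonneg g (pX z) (md (Euc 23) (Euc 23) pX z v)
      rcases hz with h | h
      · nlinarith [h2 z h v]
      · nlinarith [h4 z h v]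
    · have h := pX_ld z
      have h1 : ∀ᶠ y in 𝓝 (pX z), ContMDiffAt (𝓡 23) 𝓘(ℝ, NN) ∞
          ((fun z : ZT => z.1) ∘ h.localInverse) y := by
        filter_upwards [h.localInverse.open_source.mem_nhds h.localInverse_mem_source] with y hy
        exact (LS.contMDiff_val _).comp y (h.localInverse.contMDiffOn_toFun.contMDiffAt
          (h.localInverse.open_source.mem_nhds hy))
      obtain ⟨C, h2, h3⟩ := met_upper g h1
      have hc := h.contMDiffAt.continuousAt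
      refine ⟨_, nhdsWithin_le_nhds (inter_mem (hc (h1.and h3))
        h.localInverse_eventuallyEq_left.eventuallyEq_nhds), C, h2.le, fun w hw v => ?_⟩
      have h4 := md_comp (hw.1.1.mdifferentiableAt (by simp)) (pX_ld w).mdiff
      have h5 := (md_congr (g := fun z : ZT => z.1)
        (hw.2.mono fun u hu => congrArg Subtype.val hu)).symm.trans h4
      exact (congrArg norm (DFunLike.congr_fun h5 v)).trans_le (hw.1.2 _)
  obtain ⟨D, hD⟩ := (isCompact_closedBall (0 : NN) 1).exists_bound_of_continuousOn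
    (continuous_Lam.comp continuous_neg).continuousOn
  refine ⟨max (D * C) 1, by positivity, fun z v => ?_⟩
  obtain ⟨a, ha⟩ := cocompact z.1
  have d := (ZT.smooth a z).mdifferentiableAt (by simp)
  have h1 := md_comp (LS.mdiff_val (a • z)) d
  have h2 := md_comp (g := pX) (pX_ld _).mdiff d
  rw [show pX ∘ (fun z : ZT => a • z) = pX from funext (pX_smul a)] at h2
  have h3 := (LS.md_comp_val (z := z) (hasFDerivAt_nmul a.val z.1).differentiableAt).symm.trans h1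
  rw [(hasFDerivAt_nmul a.val z.1).fderiv] at h3
  have h4 : Lam (-z.1) (LS.tan z v) = Lam (-(a • z).1) (Lam a.val (LS.tan z v)) := by
    rw [Lam_Lam]
    simp only [ZT.smul_val, Gam.smul_def, nmul, Lam_apply, Bl_add_left, Bl_neg_left, Bl_Bl_left]
    abel
  have h5 := hD _ (mem_closedBall_zero_iff.2 ha)
  rw [h4, h2, ← pX_smul a z, show Lam a.val (LS.tan z v) = _ from DFunLike.congr_fun h3 v]
  refine ((Lam _).le_opNorm _).trans ((mul_le_mul h5 (hC.2 _ ha _) (norm_nonneg _)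
    ((norm_nonneg _).trans h5)).trans ?_)
  rw [← mul_assoc]
  exact mul_le_mul_of_nonneg_right (le_max_left _ _) (nrm_nonneg _ _ _)

lemma norm_dil {c : ℝ} (h0 : 0 ≤ c) (h1 : c ≤ 1) (u : NN) : ‖dil c u‖ ≤ c * ‖u‖ := by
  have h2 := norm_snd_le u
  rw [dil_apply]
  refine norm_prod_le_iff.2 ⟨?_, norm_prod_le_iff.2 ⟨?_, ?_⟩⟩ <;>
    rw [norm_smul, Real.norm_of_nonneg (by positivity)]
  · exact mul_le_mul_of_nonneg_left (norm_fst_le u) h0
  · exact mul_le_mul_of_nonneg_left ((norm_fst_le _).trans h2) h0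
  · exact mul_le_mul (by nlinarith) ((norm_snd_le _).trans h2) (norm_nonneg _) h0

theorem gg_lip (g : (XX ⊤).Metric) : ∃ C > 0, ∀ c, 0 ≤ c → c ≤ 1 →
    Lip g pX (C * c) fun z : ZT => gg (dil c z.1) := by
  obtain ⟨C, hC, h1⟩ := gg_bound
  obtain ⟨D, hD, h2⟩ := tan_bound g
  refine ⟨C * D, mul_pos hC hD, fun c h3 h4 => ⟨(contDiff_gg.comp (dil c).contDiff).contMDiff.comp
    LS.contMDiff_val, fun z v => ?_⟩⟩
  have d := (contDiff_gg.differentiable (by simp) (dil c z.1)).hasFDerivAt.comp z.1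
    (dil c).hasFDerivAt
  have h5 := LS.md_comp_val (z := z) d.differentiableAt
  rw [d.fderiv] at h5
  have h6 : LS.tan z v = Lam z.1 (Lam (-z.1) (LS.tan z v)) := by rw [Lam_Lam]; simp
  refine (congrArg norm (DFunLike.congr_fun h5 v)).trans_le ?_
  rw [ContinuousLinearMap.comp_apply, ContinuousLinearMap.comp_apply, h6, dil_Lam]
  refine (h1 _ _).trans ((mul_le_mul_of_nonneg_left ((norm_dil h3 h4 _).trans
    (mul_le_mul_of_nonneg_left (h2 z v) h3)) hC.le).trans_eq ?_)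
  ring

end Pool.Agent.Lib.MP_029589_gt
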