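import Pool.Agent.Lib.MP_029589_gt.CW

/-! The Levi-Civita connection in local coordinates. -/

set_option autoImplicit false

open scoped Manifold ContDiff Topology Matrix
open Set Filter Function Bundle

namespace Pool.Agent.Lib.MP_029589_gt

variable {n k : ℕ} {M N : Type} [TopologicalSpace M] [ChartedSpace (Euc n) M]
  [TopologicalSpace N] [ChartedSpace (Euc k) N] {κ κ' κ'' : Type}

lemma Sm.pd {a : Euc n → ℝ} {u : Euc n} (h : Sm n a u) (i : Fin n) : Sm n (pd i a) u :=
  sm_euc.2 ((sm_euc.1 h).mono fun _ h => contDiffAt_pd h i)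

lemma SmF.coord {x : M → Euc k} {y : M} (h : SmF n k x y) (i : Fin k) : Sm n (fun w => x w i) y :=
  h.mono fun z h => (EuclideanSpace.proj (𝕜 := ℝ) i).contDiff.contMDiff.contMDiffAt.comp z h

lemma smF_id (y : M) : SmF n n id y := .of_forall fun _ => contMDiffAt_id

lemma df_coord {x : M → Euc k} {y : M} (h : SmF n k x y) (i : Fin k) :
    df n (fun w => x w i) y = pA (md (Euc n) (Euc k) x y) (dx i) := by
  rw [df, dx, pA_io, Matrix.single_one_vecMul]
  exact congrArg (fun L => cov1 (row L)) (md_clm (EuclideanSpace.proj (𝕜 := ℝ) i) h.mdiff)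

lemma HD.dx (u : Euc n) (i : Fin n) : HD u (fun _ => dx i) 0 :=
  (HD.df ((smF_id u).coord i)).cg (fun z => by rw [df_coord (smF_id z), md_id, pA_id]) fun _ => rfl

lemma HD.io {c : Fin n → Euc n → ℝ} {u : Euc n} (h : ∀ l, Sm n (c l) u) :
    HD u (fun z => cov1 fun l => c l z) fun z => ∑ l, ∑ m, pd l (c m) z • dxx l m :=
  (HD.sum (s := Finset.univ) fun l _ => (HD.dx u l).fsmul (h l)).cg (fun z => by simp [io_eq])
    fun z => by
      rw [Finset.sum_comm]
      simp [df_euc, Finset.sum_mul, dxx_eq]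

/-- The column of coordinate differentials. -/
noncomputable def dxc (n : ℕ) : Matrix (Fin n) Unit (Lm n) := .of fun i _ => dx i

lemma dxc_map (T : Euc n →L[ℝ] Euc k) : (dxc k).map (pA T) = rm n (mat T) * dxc n := by
  ext i j
  simp [dxc, dx, Matrix.mul_apply, rm, ← Algebra.smul_def, io_eq (Matrix.row _ _)]

lemma rm_tr (A : Matrix κ κ' ℝ) : (rm n A)ᵀ = rm n Aᵀ := rfl

lemma tr_rm_mul [Fintype κ'] (A : Matrix κ κ' ℝ) (X : Matrix κ' κ'' (Lm n)) :
    (rm n A * X)ᵀ = Xᵀ * rm n Aᵀ := by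
  ext i j
  simp [Matrix.mul_apply, rm, Algebra.commutes]

lemma tr_mul_rm [Fintype κ'] (X : Matrix κ κ' (Lm n)) (A : Matrix κ' κ'' ℝ) :
    (X * rm n A)ᵀ = rm n Aᵀ * Xᵀ := by
  ext i j
  simp [Matrix.mul_apply, rm, Algebra.commutes]

lemma rm_cancel [Fintype κ] [DecidableEq κ] {A : Matrix κ κ ℝ} (h : IsUnit A)
    {X : Matrix κ κ' (Lm n)} (e : rm n A * X = 0) : X = 0 := by
  rw [← Matrix.one_mul X, ← rm_one, ← inv_mul' h, rm_mul, Matrix.mul_assoc, e, Matrix.mul_zero]

lemma cartan' {t : Matrix (Fin n) (Fin n) (Lm n)} (h : L1 t) {B : Matrix (Fin n) (Fin n) ℝ}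
    (hB : IsUnit B) (h1 : t * (rm n B * dxc n) = 0) (h2 : t + tᵀ = 0) : t = 0 := by
  choose v hv using (h.mulr B).rmul Bᵀ
  have h3 : rm n Bᵀ * (t * rm n B) = 0 := by
    refine Matrix.ext fun i j => (hv i j).symm.trans (cartan (fun i => ?_) (fun i j => ?_) i j)
    · have : (rm n Bᵀ * (t * rm n B) * dxc n) i () = 0 := by
        rw [Matrix.mul_assoc, Matrix.mul_assoc, h1, Matrix.mul_zero]; rfl
      simp only [hv]
      exact this
    · have : (rm n Bᵀ * (t * rm n B) + (rm n Bᵀ * (t * rm n B))ᵀ) i j = 0 := by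
        rw [tr_rm_mul, tr_mul_rm, Matrix.transpose_transpose, mul_assoc, ← mul_add, ← add_mul, h2]
        simp
      simp only [hv]
      exact this
  have h4 := congrArg Matrix.transpose (rm_cancel ((Matrix.isUnit_transpose _).2 hB) h3)
  rw [tr_mul_rm] at h4
  exact Matrix.transpose_eq_zero.1 (rm_cancel ((Matrix.isUnit_transpose _).2 hB) h4)

section Euc

variable {G : Euc n → Matrix (Fin n) (Fin n) ℝ} {u : Euc n}

/-- The connection matrix. -/
noncomputable def thc (G : Euc n → Matrix (Fin n) (Fin n) ℝ) (u : Euc n) :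
    Matrix (Fin n) (Fin n) (Lm n) := .of fun i j => cov1 fun l => chr G l u i j

lemma th_one (h : SmM n G u) (hu : IsUnit (G u)) : One u (thc G) (curv G) := by
  refine ⟨fun i j => (HD.io (c := fun l z => chr G l z i j) fun l => (Sm.const _ _).mul (Sm.sum fun m => ((h.inv hu).1 i m).mul
    ((smA n u).sub_mem ((smA n u).add_mem ((h m j).pd l) ((h m l).pd j)) ((h l j).pd m)))).cg
    (fun _ => rfl) fun z => ?_, .of_forall fun _ _ _ => ⟨_, rfl⟩⟩
  simp only [curv, thc, Matrix.sub_apply, Matrix.of_apply, Matrix.mul_apply (M := chr _ _ _),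
    Matrix.mul_apply (M := Matrix.of _), add_smul, Finset.sum_add_distrib, io_eq, Finset.sum_mul_sum,
    Finset.sum_smul, smul_mul_smul_comm, dxx_eq]
  rw [add_sub_assoc, left_eq_add, sub_eq_zero]
  exact (Finset.sum_congr rfl fun _ _ => Finset.sum_comm).trans Finset.sum_comm

lemma th_tors (hs : ∀ u i j, G u i j = G u j i) : thc G u * dxc n = 0 := by
  ext i j
  simp only [thc, dxc, Matrix.mul_apply, Matrix.of_apply, io_eq, Finset.sum_mul, smul_mul_assoc]
  rw [Finset.sum_comm]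
  refine sym_dx fun l m => ?_
  simp only [chr, Matrix.of_apply, hs _ l m, add_comm]

lemma th_met (hs : ∀ u i j, G u i j = G u j i) (hu : IsUnit (G u)) :
    dm n G u = rm n (G u) * thc G u + (rm n (G u) * thc G u)ᵀ := by
  have h : ∀ i j, (rm n (G u) * thc G u) i j = cov1 fun l => 1 / 2 *
      (pd l (fun v => G v i j) u + pd j (fun v => G v i l) u - pd i (fun v => G v l j) u) := by
    intro i j
    simp only [Matrix.mul_apply, rm, thc, Matrix.map_apply, Matrix.of_apply, ← Algebra.smul_def,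
      ← map_smul, ← map_sum]
    congr 1
    ext l
    have := congrFun₂ (show G u * chr G l u = (1 / 2 : ℝ) • (G u * (G u)⁻¹ * Matrix.of fun m j =>
      pd l (fun v => G v m j) u + pd j (fun v => G v m l) u - pd m (fun v => G v l j) u) by
        rw [mul_assoc, ← mul_smul_comm]; rfl) i j
    rw [mul_inv' hu, one_mul] at this
    simpa [Matrix.mul_apply] using this
  ext i j
  rw [Matrix.add_apply, Matrix.transpose_apply, h, h, ← map_add, dm, Matrix.of_apply, df,
    md_eq_fderiv]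
  congr 1
  ext l
  simp only [Pi.add_apply, hs _ j i, hs _ j l, hs _ i l]
  change pd l _ _ = _
  ring

end Euc

/-- Local coordinates `x` near `y` with inverse `s`. -/
def Co (y : M) (x : M → Euc n) (s : Euc n → M) : Prop :=
  SmF n n x y ∧ SmF n n s (x y) ∧ ∀ᶠ w in 𝓝 y, s (x w) = w

variable (n) in
/-- The Jacobian matrix. -/
noncomputable def jm (x : M → Euc k) (w : M) : Matrix (Fin k) (Fin n) ℝ :=
  mat (md (Euc n) (Euc k) x w)

/-- The Jacobian matrix of a coordinate change. -/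
noncomputable def tj (x x' : M → Euc n) (w : M) : Matrix (Fin n) (Fin n) ℝ :=
  jm n x w * (jm n x' w)⁻¹

variable {y : M} {x x' : M → Euc n} {s s' : Euc n → M}

lemma Co.ev (h : Co y x s) : ∀ᶠ z in 𝓝 y, Co z x s :=
  h.1.ev.and ((h.1.cont.eventually h.2.1.ev).and h.2.2.eventually_nhds)

lemma Co.inv (h : Co y x s) : mat (md (Euc n) (Euc n) s (x y)) * jm n x y = 1 := by
  rw [jm, ← mat_comp, ← md_comp h.2.1.mdiff h.1.mdiff, md_congr (f := s ∘ x) (g := id) h.2.2, md_id, mat_id]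

lemma Co.unit (h : Co y x s) : IsUnit (jm n x y) := IsUnit.of_mul_eq_one_right _ h.inv

lemma Co.smF (h : Co y x s) {f : M → N} (hf : SmF n k f y) : SmF n k (f ∘ s) (x y) :=
  SmF.cmp (by rwa [h.2.2.self_of_nhds]) h.2.1

lemma Co.sm (h : Co y x s) {f : M → Euc k} (hf : SmF n k f y) :
    SmM n (fun w => jm n f w * (jm n x w)⁻¹) y := fun i j => by
  refine ((((h.smF hf).coord i).pd j).cmp h.1).congr ?_
  filter_upwards [h.ev, hf.ev] with z a b
  have := md_comp (g := f) (f := s) (x := x z) (by rw [a.2.2.self_of_nhds]; exact b.mdiff)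
    a.2.1.mdiff
  rw [a.2.2.self_of_nhds, md_eq_fderiv] at this
  rw [Matrix.inv_eq_left_inv a.inv, jm, ← mat_comp, ← this]
  exact (DFunLike.congr_fun ((EuclideanSpace.proj (𝕜 := ℝ) i).hasFDerivAt.comp _
    (a.smF b).mdiff.differentiableAt.hasFDerivAt).fderiv _).symm

lemma co_chart [IsManifold (𝓡 n) ∞ M] {a : M} (h : y ∈ (chartAt (Euc n) a).source) :
    Co y (chartAt (Euc n) a) (chartAt (Euc n) a).symm :=
  ⟨smF_chart h, smF_symm ((chartAt (Euc n) a).map_source h),
    (chartAt (Euc n) a).eventually_left_inverse h⟩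

lemma Co.tj_unit (h : Co y x s) (h' : Co y x' s') : IsUnit (tj x x' y) :=
  h.unit.mul (Matrix.isUnit_nonsing_inv_iff.2 h'.unit)

section Met

variable {X : Mfd n} (g : X.Metric)

/-- The Gram matrix. -/
noncomputable def gram (w : X.M) : Matrix (Fin n) (Fin n) ℝ := .of fun i j => ip g w (eb i) (eb j)

lemma ip_sum (w : X.M) (u v : Euc n) : ip g w u v = ∑ i, ∑ j, u i * (gram g w i j * v j) := by
  let B : Euc n →L[ℝ] Euc n →L[ℝ] ℝ := g.inner w
  change B u v = ∑ i, ∑ j, u i * (B (eb i) (eb j) * v j)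
  rw [clm_sum B u]
  simp [clm_sum (B _) v, Finset.mul_sum, mul_comm]

lemma gram_unit (w : X.M) : IsUnit (gram g w) := by
  refine (Matrix.isUnit_iff_isUnit_det _).2 (Ne.isUnit fun h => ?_)
  obtain ⟨v, h1, h2⟩ := Matrix.exists_mulVec_eq_zero_iff.2 h
  refine (g.pos w (WithLp.toLp 2 v : Euc n) fun h => h1 (congrArg WithLp.ofLp h)).ne' ((ip_sum g w _ _).trans ?_)
  refine Finset.sum_eq_zero fun i _ => ?_
  rw [← Finset.mul_sum]
  exact mul_eq_zero_of_right _ (congrFun h2 i)

lemma gm_eq (s : Euc n → X.M) (u : Euc n) : gm g s u =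
    (mat (md (Euc n) (Euc n) s u))ᵀ * (gram g (s u) * mat (md (Euc n) (Euc n) s u)) := by
  ext i j
  simp only [gm, Matrix.of_apply, ip_sum, Matrix.mul_apply, Finset.mul_sum]
  rfl

lemma gm_symm (s : Euc n → X.M) (u : Euc n) (i j : Fin n) : gm g s u i j = gm g s u j i :=
  g.symm _ _ _

lemma gm_sm {s : Euc n → X.M} {u : Euc n} (h : SmF n n s u) : SmM n (gm g s) u := fun i j => by
  let : RiemannianBundle fun x : X.M => TangentSpace (𝓡 n) x := ⟨g.toRiemannianMetric⟩
  refine h.mono fun z hz => ?_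
  have h1 : ∀ i, ContMDiffAt (𝓡 n) ((𝓡 n).prod (𝓡 n)) ∞ (fun w => (⟨s w, mfderiv (𝓡 n) (𝓡 n) s w
      (eb i)⟩ : TangentBundle (𝓡 n) X.M)) z := fun i =>
    ContMDiffAt.clm_apply_of_inCoordinates (hz.mfderiv_const (by simp))
      (contMDiffAt_vectorSpace_iff_contDiffAt.2 contDiffAt_const) hz
  exact (h1 i).inner_bundle (h1 j)

variable {y : X.M} {x x' : X.M → Euc n} {s s' : Euc n → X.M}

lemma Co.gm_eq (h : Co y x s) : gm g s (x y) = (jm n x y)⁻¹ᵀ * (gram g y * (jm n x y)⁻¹) := by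
  rw [MP_029589_gt.gm_eq, Matrix.inv_eq_left_inv h.inv, h.2.2.self_of_nhds]

lemma Co.gm_unit (h : Co y x s) : IsUnit (gm g s (x y)) := by
  have := Matrix.isUnit_nonsing_inv_iff.2 h.unit
  rw [h.gm_eq g]
  exact ((Matrix.isUnit_transpose _).2 this).mul ((gram_unit g y).mul this)

/-- The Levi-Civita connection matrix in the coordinates `x`. -/
noncomputable def lc (x : X.M → Euc n) (s : Euc n → X.M) : X.M → Matrix (Fin n) (Fin n) (Lm n) :=
  pm n n x (thc (gm g s))

/-- The Riemannian curvature matrix in the coordinates `x`. -/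
noncomputable def rc (x : X.M → Euc n) (s : Euc n → X.M) : X.M → Matrix (Fin n) (Fin n) (Lm n) :=
  pm n n x (curv (gm g s))

lemma Co.one (h : Co y x s) : One y (lc g x s) (rc g x s) :=
  (th_one (gm_sm g h.2.1) (h.gm_unit g)).pul h.1

lemma lc_tors (y : X.M) : lc g x s y * (rm n (jm n x y) * dxc n) = 0 := by
  rw [jm, ← dxc_map, lc, pm, ← Matrix.map_mul, th_tors (gm_symm g s)]
  exact Matrix.map_zero _ (map_zero _)

lemma Co.met (h : Co y x s) : dm n (fun w => gm g s (x w)) y =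
    rm n (gm g s (x y)) * lc g x s y + (rm n (gm g s (x y)) * lc g x s y)ᵀ := by
  rw [← pm_dm (gm_sm g h.2.1) h.1, ← pm_rm (k := n) x (gm g s), lc]
  simp only [pm]
  rw [← Matrix.map_mul, th_met (gm_symm g s) (h.gm_unit g), Matrix.map_add _ (map_add _)]
  rfl

lemma hm_dx {M : Type} [TopologicalSpace M] [ChartedSpace (Euc n) M] {y : M} {x : M → Euc k}
    (h : SmF n k x y) : HM y (fun w => rm n (jm n x w) * dxc n) fun _ => 0 :=
  (HM.pul h (X := fun _ => dxc k) (X' := fun _ => 0) fun i _ => HD.dx _ i).congr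
    (.of_forall fun _ => dxc_map _) (.of_forall fun _ => Matrix.map_zero _ (map_zero _))

theorem Co.gau (h : Co y x s) (h' : Co y x' s') : Gau y (tj x x') (lc g x s) (lc g x' s') := by
  filter_upwards [h.ev, h'.ev] with z a b
  have hA : SmM n (tj x x') z := b.sm a.1
  have hG := (gm_sm g a.2.1).cmp a.1
  have e1 : ∀ᶠ w in 𝓝 z, tj x x' w * jm n x' w = jm n x w :=
    b.ev.mono fun w c => by rw [tj, mul_assoc, inv_mul' c.unit, mul_one]
  have e2 : ∀ᶠ w in 𝓝 z, gm g s' (x' w) = (tj x x' w)ᵀ * (gm g s (x w) * tj x x' w) :=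
    (a.ev.and b.ev).mono fun w c => by
      rw [c.1.gm_eq g, c.2.gm_eq g, tj, mul_assoc, mul_assoc, ← mul_assoc _ (jm n x w),
        inv_mul' c.1.unit, one_mul, ← mul_assoc _ _ᵀ, ← Matrix.transpose_mul, ← mul_assoc _ (jm n x w),
        inv_mul' c.1.unit, one_mul]
  have e3 := ((hm_dx a.1).uniq (((HM.fn hA).mul (hm_dx b.1)).congr (e1.mono fun w c => by
    simp only [← c, rm_mul, Matrix.mul_assoc]) .rfl)).self_of_nhds
  have e4 := b.met g
  rw [dm_congr e2, dm_mul (A := fun w => (tj x x' w)ᵀ) (fun i j => hA j i) (hG.mul hA),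
    dm_mul hG hA, a.met g] at e4
  have e5 := cartan' (t := rm n (gm g s' (x' z)) * lc g x' s' z - rm n (tj x x' z)ᵀ *
      (rm n (gm g s (x z)) * (lc g x s z * rm n (tj x x' z) + dm n (tj x x') z)))
    ((((b.one g).2.self_of_nhds).rmul _).sub (((((a.one g).2.self_of_nhds.mulr _).add
      (L1.dm _ _)).rmul _).rmul _)) b.unit (by
        simp only [Matrix.mul_zero, add_zero] at e3
        simp only [Matrix.sub_mul, Matrix.add_mul, Matrix.mul_assoc, lc_tors, ← e3]
        rw [← Matrix.mul_assoc (rm n (tj x x' z)), ← rm_mul, e1.self_of_nhds, lc_tors]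
        simp) (by
        rw [Matrix.transpose_sub, sub_add_sub_comm, ← e4]
        simp only [Matrix.transpose_add, tr_rm_mul, tr_mul_rm, Matrix.transpose_transpose]
        simp only [mul_add, ← mul_assoc, rm_mul, add_mul]
        rw [show (gm g s (x z))ᵀ = gm g s (x z) from Matrix.ext fun i j => gm_symm g s _ j i,
          show (dm n (tj x x') z)ᵀ = dm n (fun w => (tj x x' w)ᵀ) z from rfl]
        abel)
  rw [e2.self_of_nhds, rm_mul, rm_mul, mul_assoc, mul_assoc, ← mul_sub, ← mul_sub] at e5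
  exact sub_eq_zero.1 (rm_cancel (a.gm_unit g)
    (rm_cancel ((Matrix.isUnit_transpose _).2 (a.tj_unit b)) e5))

end Met

section Block

variable [Fintype κ] [Fintype κ'] [DecidableEq κ] [DecidableEq κ']

/-- Block diagonal matrix valued functions. -/
def bk {M R : Type} [Zero R] (A : M → Matrix κ κ R) (B : M → Matrix κ' κ' R) (z : M) :
    Matrix (κ ⊕ κ') (κ ⊕ κ') R := Matrix.fromBlocks (A z) 0 0 (B z)

variable {θ φ F : M → Matrix κ κ (Lm n)} {θ' φ' F' : M → Matrix κ' κ' (Lm n)}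
  {A : M → Matrix κ κ ℝ} {A' : M → Matrix κ' κ' ℝ}

omit [DecidableEq κ] [DecidableEq κ'] in
lemma One.bk (h : One y θ F) (h' : One y θ' F') : One y (bk θ θ') (bk F F') := by
  refine ⟨?_, (h.2.and h'.2).mono fun z h => ?_⟩
  · simp only [MP_029589_gt.bk, Matrix.fromBlocks_multiply]
    rintro (i | i) (j | j)
    · exact (h.1 i j).cg (fun _ => rfl) fun _ => by simp
    · exact HD.zero.cg (fun _ => rfl) fun _ => by simp
    · exact HD.zero.cg (fun _ => rfl) fun _ => by simp
    · exact (h'.1 i j).cg (fun _ => rfl) fun _ => by simp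
  · rintro (i | i) (j | j)
    exacts [h.1 i j, zero_mem _, zero_mem _, h.2 i j]

omit [Fintype κ] [Fintype κ'] [DecidableEq κ] [DecidableEq κ'] in
lemma SmM.bk (h : SmM n A y) (h' : SmM n A' y) : SmM n (bk A A') y := by
  rintro (i | i) (j | j)
  exacts [h i j, Sm.const 0 _, Sm.const 0 _, h' i j]

omit [DecidableEq κ] [DecidableEq κ'] in
lemma Gau.bk (h : Gau y A θ φ) (h' : Gau y A' θ' φ') : Gau y (bk A A') (bk θ θ') (bk φ φ') := by
  filter_upwards [h, h'] with z a b
  have e1 : rm n (MP_029589_gt.bk A A' z) = Matrix.fromBlocks (rm n (A z)) 0 0 (rm n (A' z)) := by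
    ext (i | i) (j | j) <;> simp [rm, MP_029589_gt.bk]
  have e2 : dm n (MP_029589_gt.bk A A') z = Matrix.fromBlocks (dm n A z) 0 0 (dm n A' z) := by
    ext (i | i) (j | j)
    exacts [rfl, congrFun (df_const 0) z, congrFun (df_const 0) z, rfl]
  rw [e1, e2]
  simp [MP_029589_gt.bk, Matrix.fromBlocks_multiply, Matrix.fromBlocks_add, a, b]

lemma trace_bk {M : Type} (F : M → Matrix κ κ (Lm n)) (F' : M → Matrix κ' κ' (Lm n)) (z : M)
    (m : ℕ) : (bk F F' z ^ m).trace = (F z ^ m).trace + (F' z ^ m).trace := by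
  simp [bk, Matrix.fromBlocks_diagonal_pow, Matrix.trace]

/-- The curvature matrix in the preferred chart. -/
noncomputable def om {X : Mfd n} (g : X.Metric) (y : X.M) : Matrix (Fin n) (Fin n) (Lm n) :=
  curv (gm g (chartAt (Euc n) y).symm) (chartAt (Euc n) y y)

lemma Co.trace {X : Mfd n} (g : X.Metric) {y : X.M} {x : X.M → Euc n} {s : Euc n → X.M}
    (h : Co y x s) (m : ℕ) : (rc g x s y ^ m).trace = (om g y ^ m).trace := by
  have h' := co_chart (mem_chart_source (Euc n) y)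
  rw [trace_conj (h'.tj_unit h) (((h'.gau g h).conj (h.sm h'.1) (h'.one g) (h.one g)).pow_right m),
    rc, pm, show md _ _ (chartAt (Euc n) y) y = _ from md_chart_self y]
  congr 2
  exact Matrix.ext fun i j => pA_id _

theorem compare {X : Mfd n} (g : X.Metric) {x : X.M → X.M → Euc n} {s : X.M → Euc n → X.M}
    {ψ Ψ : X.M → X.M → Matrix κ κ (Lm n)}
    {θ F : X.M → X.M → Matrix (Fin n ⊕ κ) (Fin n ⊕ κ) (Lm n)}
    (h : ∀ y, Co y (x y) (s y) ∧ One y (ψ y) (Ψ y) ∧ One y (θ y) (F y) ∧ ∀ᶠ z in 𝓝 y, ∃ A,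
      SmM n A z ∧ IsUnit (A z) ∧ Gau z A (ψ y) (ψ z) ∧ Gau z (bk (tj (x y) (x z)) A) (θ y) (θ z))
    (m : ℕ) :
    (fun y => (om g y ^ m).trace + (Ψ y y ^ m).trace - (F y y ^ m).trace) ∈ Ex n X.M := by
  have := transgress (θ1 := fun y => bk (lc g (x y) (s y)) (ψ y))
    (F1 := fun y => bk (rc g (x y) (s y)) (Ψ y)) (fun y => ⟨(h y).2.2.1,
      ((h y).1.one g).bk (h y).2.1, by
        filter_upwards [(h y).1.ev, (h y).2.2.2] with z a ⟨A, b1, b2, b3, b4⟩
        exact ⟨_, ((h z).1.sm a.1).bk b1, Matrix.isUnit_fromBlocks_zero₂₁.2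
          ⟨a.tj_unit (h z).1, b2⟩, b4, (a.gau g (h z).1).bk b3⟩⟩) m
  simpa only [trace_bk, (h _).1.trace g] using this

end Block

end Pool.Agent.Lib.MP_029589_gt
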