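import Pool.Agent.Lib.MP_029589_gt.Int
import Pool.Agent.Lib.MP_029589_gt.LC
import Pool.Agent.Lib.MP_029589_gt.NotB
import Pool.Agent.Lib.MP_029589_gt.DefsA

/-! The A-hat versions agree with the plain versions if the Pontryagin forms are exact. -/

set_option autoImplicit false

open scoped Manifold ContDiff Topology Matrix
open Set Filter Function MeasureTheory

namespace Pool.Agent.Lib.MP_029589_gt

variable {n k : ℕ}

lemma ae_of_aeV {V : Type} [NormedAddCommGroup V] [NormedSpace ℝ V] [FiniteDimensional ℝ V]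
    [m : MeasurableSpace V] [h : BorelSpace V] (μ : Measure V) [μ.IsAddHaarMeasure] {P : V → Prop}
    (hP : ∀ᶠ z in aeV V, P z) : ∀ᵐ z ∂μ, P z := by
  obtain ⟨rfl⟩ := h
  let := borel V
  have : BorelSpace V := ⟨rfl⟩
  exact (Measure.absolutelyContinuous_isAddHaarMeasure μ Measure.addHaar).ae_le hP

lemma HD.cst (u : Euc n) (x : Lm n) : HD u (fun _ => x) 0 := by
  induction x using ExteriorAlgebra.induction with
  | algebraMap r => exact HD.const r
  | ι w => exact (HD.io fun l => Sm.const (w l) u).cg (fun _ => rfl) fun z => by simp [pd]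
  | mul a b ha hb => exact (ha.mul hb).cg (fun _ => rfl) fun z => by simp
  | add a b ha hb => exact (ha.add hb).cg (fun _ => rfl) fun z => by simp

lemma HD.top {u : Euc n} {b : Euc n → ℝ} (h : Sm n b u) : HD u (fun z => b z • vtop n) 0 :=
  ((HD.cst u _).fsmul h).cg (fun _ => rfl) fun z => by simp [MP_029589_gt.df, io_vol]

section Top

variable {N : Type} [TopologicalSpace N] [ChartedSpace (Euc k) N] [IsManifold (𝓡 k) ∞ N]
  {β : N → Lm k}

lemma IsTopForm.chart (h : IsTopForm k β) (a : N) : ∃ b : Euc k → ℝ,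
    ∀ y ∈ (chartAt (Euc k) a).source, Sm k b (chartAt (Euc k) a y) ∧
      β y = pull k k (chartAt (Euc k) a) (fun z => b z • vtop k) y := by
  obtain ⟨b, h1, h2⟩ := h a
  refine ⟨b, fun y hy => ?_⟩
  have h3 := (chartAt (Euc k) a).map_source hy
  exact ⟨sm_euc.2 (((chartAt (Euc k) a).open_target.eventually_mem h3).mono fun z hz =>
    h1.contDiffAt ((chartAt (Euc k) a).open_target.mem_nhds hz)),
    by rw [← pull_chart hy β, pull_eq, h2 _ h3, pull_eq]⟩

lemma hd_top {a y : N} (hy : y ∈ (chartAt (Euc k) a).source) {b : Euc k → ℝ}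
    (h : Sm k b (chartAt (Euc k) a y)) :
    HD y (pull k k (chartAt (Euc k) a) fun z => b z • vtop k) 0 :=
  ((HD.top h).pul (smF_chart hy)).cg (fun _ => rfl) fun _ => map_zero _

omit [IsManifold (𝓡 k) ∞ N] in
lemma pull_top (a y : N) (b : Euc k → ℝ) : pull k k (chartAt (Euc k) a) (fun z => b z • vtop k) y =
    (jd (chartAt (Euc k) a) y * b (chartAt (Euc k) a y)) • vtop k := by
  rw [pull_eq, map_smul, pA_vol, smul_smul, mul_comm, jd]

lemma IsTopForm.hd (h : IsTopForm k β) (y : N) : HD y β 0 := by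
  obtain ⟨b, hb⟩ := h.chart y
  exact (hd_top (mem_chart_source _ y) (hb y (mem_chart_source _ y)).1).congr
    (eventually_of_mem (chart_source_mem_nhds _ y) fun z hz => (hb z hz).2.symm) .rfl

lemma IsTopForm.pt (h : IsTopForm k β) (y : N) : ∃ c : ℝ, β y = c • vtop k :=
  (h.chart y).elim fun b hb => ⟨_, (hb y (mem_chart_source _ y)).2.trans (pull_top y y b)⟩

attribute [local instance] lmRing lmAlg in
lemma isTopForm_of (h : ∀ y, HD y β 0) (h' : ∀ y, ∃ c : ℝ, β y = c • vtop k) : IsTopForm k β :=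
  fun a => ⟨fun u => tL k (pull k k (chartAt (Euc k) a).symm β u), fun u hu =>
    ((tL k).toContinuousLinearMap.contDiff.contDiffAt.comp u
      ((h _).pul (smF_symm hu)).sem.self_of_nhds.1).contDiffWithinAt, fun u _ => by
    obtain ⟨c, hc⟩ := h' ((chartAt (Euc k) a).symm u)
    simp only [pull_eq, hc, map_smul, pA_vol, tL_vol, smul_eq_mul, mul_one, smul_smul]⟩

end Top

/-- The Pontryagin character forms are exact. -/
def Tri (X : Mfd n) : Prop :=
  ∀ (g : X.Metric) (m : ℕ), (fun y => (om g y ^ (2 * (m + 1))).trace) ∈ Ex n X.M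

lemma HD.pow {M : Type} [TopologicalSpace M] [ChartedSpace (Euc n) M] {y : M} {P : M → Lm n}
    (h : HD y P 0) (m : ℕ) : HD y (P ^ m) 0 := by
  induction m with
  | zero => exact pow_zero P ▸ HD.one
  | succ m ih => simpa [pow_succ] using ih.mul h

lemma Tri.ahat {X : Mfd n} (h : Tri X) (g : X.Metric) : ahat g - 1 ∈ Ex n X.M := by
  obtain ⟨η, hη⟩ := (Ex n X.M).sum_mem (t := Finset.range n) fun j _ =>
    (Ex n X.M).smul_mem (cA (j + 1)) (h g j)
  set P := ∑ j ∈ Finset.range n, cA (j + 1) • fun y => (om g y ^ (2 * (j + 1))).trace with hP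
  have := (Ex n X.M).sum_mem (t := Finset.range n) fun j _ =>
    (Ex n X.M).smul_mem (((j + 1).factorial : ℝ)⁻¹) (x := P ^ (j + 1))
      ⟨_, fun y => by simpa [pow_succ'] using (hη y).mul ((hη y).dd.pow j)⟩
  convert this using 1
  ext y
  simp [MP_029589_gt.ahat, ahatOf, Finset.sum_range_succ', hP, om]

variable {X Y : Mfd n} {o : Y.M → ℝ} {K : Set Y.M}

section Red

variable {N : Type} [TopologicalSpace N] [ChartedSpace (Euc k) N] [IsManifold (𝓡 k) ∞ N]
  {β : N → Lm k} {f : Y.M → N}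

omit [IsManifold (𝓡 k) ∞ N] in
lemma Smo.smF (hf : Smo n k f) (y : Y.M) : SmF n k f y := .of_forall hf

lemma hd_pull (hf : Smo n k f) (hβ : IsTopForm k β) (y : Y.M) : HD y (pull n k f β) 0 :=
  ((hβ.hd _).pul (hf.smF y)).cg (fun _ => rfl) fun _ => map_zero _

lemma hat_red (h : Tri X) (g : X.Metric) {p : Y.M → X.M} (hp : Smo n n p) (ho : Ori (Euc n) o)
    (hf : Smo n k f) (hβ : IsTopForm k β) (hK : HasCompactSupport (pull n k f β)) :
    integ o (fun y => pull n n p (ahat g) y * pull n k f β y) = integ o (pull n k f β) := by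
  obtain ⟨η, hη⟩ := h.ahat g
  have h0 := fun y => image_eq_zero_of_notMem_tsupport (f := pull n k f β) (x := y)
  have h1 := fun y => ((hη _).pul (hp.smF y)).mul (hd_pull hf hβ y)
  have h2 : ∀ y ∉ tsupport (pull n k f β), (pull n n p η * pull n k f β) y = 0 := fun y hy =>
    mul_eq_zero_of_right _ (h0 y hy)
  rw [← add_zero (integ o (pull n k f β)), ← stokes ho hK h1 h2,
    ← integ_add ho hK ⟨⟨_, hd_pull hf hβ⟩, h0⟩ (CS.d hK.isClosed h1 h2)]
  congr 1
  ext y
  simp [pull_eq p, sub_mul]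

lemma hat_dim (hβ : IsTopForm k β) (h : integ o (pull n k f β) ≠ 0) : k = n :=
  by_contra fun e => h (integ_zero fun y => by
    obtain ⟨c, hc⟩ := hβ.pt (f y)
    rw [pull_eq, hc, map_smul, vtop, pA_wedge, map_smul, tL_wedge_ne e, smul_zero])

end Red

section Deg

variable {N : Type} [TopologicalSpace N] [ChartedSpace (Euc n) N] [IsManifold (𝓡 n) ∞ N]
  [T2Space N] {β : N → Lm n} {f : Y.M → N}

omit [T2Space N] in
lemma jd_comp (hf : Smo n n f) {a : N} {y : Y.M} (hy : f y ∈ (chartAt (Euc n) a).source) :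
    jd (chartAt (Euc n) a ∘ f) y = jd (chartAt (Euc n) a) (f y) * jdet n f y := by
  rw [jd, md_comp (smF_chart hy).mdiff (hf.smF y).mdiff, det_comp']
  rfl

omit [T2Space N] in
lemma tL_pull (hf : Smo n n f) {a : N} {y : Y.M} (hy : f y ∈ (chartAt (Euc n) a).source)
    {b : Euc n → ℝ} (e : β (f y) = pull n n (chartAt (Euc n) a) (fun z => b z • vtop n) (f y)) :
    tL n (pull n n f β y) = jd (chartAt (Euc n) a ∘ f) y * b (chartAt (Euc n) a (f y)) := by
  rw [pull_eq, tL_pA, e, pull_top, map_smul, tL_vol, jd_comp hf hy, smul_eq_mul]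
  change jdet n f y * _ = _
  ring

theorem deg_of_integ [SigmaCompactSpace N] (hn : 0 < n) (ho : Ori (Euc n) o) (hf : Smo n n f)
    (hβ : IsTopForm n β) (hc : HasCompactSupport β) (hK : IsCompact K)
    (h0 : ∀ y ∉ K, pull n n f β y = 0) (h : integ o (pull n n f β) ≠ 0) (q0 : N) :
    ∃ q ≠ q0, β q ≠ 0 ∧ (∀ y ∈ K, f y = q → jdet n f y ≠ 0) ∧
      ∑ᶠ y ∈ K ∩ f ⁻¹' {q}, o y * (SignType.sign (jdet n f y) : ℝ) ≠ 0 := by
  obtain ⟨T, -, h1⟩ := pou_fin (n := n) hc
  have h2 := fun a => CS.fsmul ⟨⟨_, hd_pull hf hβ⟩, h0⟩ (L := f ⁻¹' tsupport (pou (Euc n) N a))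
    (fun y => (pou_sm a (f y)).cmp (hf.smF y)) fun _ => image_eq_zero_of_notMem_tsupport
  have h3 : ∑ a ∈ T, (fun y => (pou (Euc n) N a ∘ f) y • pull n n f β y) = pull n n f β := by
    ext y
    have := congrFun (sum_pou (fun _ => image_eq_zero_of_notMem_tsupport) h1) (f y)
    conv_rhs => rw [pull_eq, ← this]
    simp [pull_eq]
  rw [← h3, integ_finsum ho hK fun a _ => ⟨(h2 a).1, fun y hy => (h2 a).2 y fun h => hy h.1⟩] at h
  obtain ⟨a, -, h⟩ := Finset.exists_ne_zero_of_sum_ne_zero h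
  obtain ⟨b, hb⟩ := hβ.chart a
  set c := chartAt (Euc n) a with hc
  have h4 := hK.inter_right ((isClosed_tsupport (pou (Euc n) N a)).preimage hf.continuous)
  have h5 : K ∩ f ⁻¹' tsupport (pou (Euc n) N a) ⊆ f ⁻¹' c.source := fun y hy => pou_supp a hy.2
  rw [area_int ho h4 (h2 a) (G := c ∘ f) (fun y hy => (smF_chart (h5 hy)).cmp (hf.smF y))
    (b := fun z => pou (Euc n) N a (c.symm z) * b z) fun y hy => by
      rw [map_smul, tL_pull hf (h5 hy) (hb _ (h5 hy)).2, comp, comp, c.left_inv (h5 hy), smul_eq_mul,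
        mul_left_comm]] at h
  have : Nonempty (Fin n) := ⟨⟨0, hn⟩⟩
  obtain ⟨z, a1, a2, a3⟩ := ((not_eventually.1 fun e => h (integral_eq_zero_of_ae e)).and_eventually
    ((ae_of_aeV volume (kit_ae (c.open_source.preimage hf.continuous) h4 h5 (G := c ∘ f) fun y hy =>
      ((smF_chart hy).cmp (hf.smF y)).self_of_nhds.contMDiffWithinAt)).and
      (Measure.ae_ne volume (c q0)))).exists
  obtain ⟨a4, a5⟩ := mul_ne_zero_iff.1 a1
  obtain ⟨y, hy, rfl⟩ : ∃ y ∈ K ∩ f ⁻¹' tsupport (pou (Euc n) N a), (c ∘ f) y = z :=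
    (nonempty_of_finsum_mem_ne_zero a5 :)
  have h6 : ∀ x ∈ K ∩ f ⁻¹' {f y}, jd (c ∘ f) x = jd c (f y) * jdet n f x := fun x hx =>
    (show f x = f y from hx.2) ▸ jd_comp hf ((show f x = f y from hx.2) ▸ h5 hy)
  refine ⟨f y, fun e => a3 (congrArg c e), ?_, fun x hx e => right_ne_zero_of_mul
    (h6 x ⟨hx, e⟩ ▸ a2 x ⟨hx, mem_preimage.2 (mem_of_eq_of_mem e hy.2)⟩ (congrArg c e)), fun e => a5 ?_⟩
  · rw [(hb _ (h5 hy)).2, pull_top]
    exact smul_ne_zero (mul_ne_zero (jd_chart_ne (h5 hy)) (right_ne_zero_of_mul a4))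
      fun e => one_ne_zero (tL_vol.symm.trans ((congrArg _ e).trans (map_zero _)))
  · rw [← mul_zero (SignType.sign (jd c (f y)) : ℝ), ← e, mul_finsum_mem]
    refine finsum_mem_congr (Set.ext fun x => ⟨fun hx => ⟨hx.1.1, c.injOn (h5 hx.1) (h5 hy) hx.2⟩,
      fun hx => ⟨⟨hx.1, mem_preimage.2 (mem_of_eq_of_mem hx.2 hy.2)⟩,
      congrArg c hx.2⟩⟩) fun x hx => ?_
    rw [h6 x hx, sign_mul]
    push_cast
    ring

theorem integ_of_deg (ho : Ori (Euc n) o) (hf : Smo n n f) (hK : IsCompact K) {q : N} {U : Set N}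
    (hU : U ∈ 𝓝 q) (h0 : ∀ y ∉ K, f y ∉ U) (hr : ∀ y, f y = q → jdet n f y ≠ 0)
    (h : ∑ᶠ y ∈ f ⁻¹' {q}, o y * (SignType.sign (jdet n f y) : ℝ) ≠ 0) :
    ∃ β : N → Lm n, IsTopForm n β ∧ HasCompactSupport β ∧ HasCompactSupport (pull n n f β) ∧
      integ o (pull n n f β) ≠ 0 := by
  set c := chartAt (Euc n) q with hc
  have hq : q ∈ c.source := mem_chart_source _ q
  obtain ⟨r, hr0, h1⟩ := Metric.nhds_basis_closedBall.mem_iff.1 (inter_mem
    (c.open_target.mem_nhds (c.map_source hq)) (c.continuousAt_symm (c.map_source hq)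
      (show U ∈ 𝓝 (c.symm (c q)) by rwa [c.left_inv hq])))
  have h2 := (isCompact_closedBall (c q) r).image_of_continuousOn
    (c.continuousOn_symm.mono fun z hz => (h1 hz).1)
  set L := c.symm '' Metric.closedBall (c q) r with hL
  have h3 : ∀ x ∈ c.source, c x ∈ Metric.closedBall (c q) r → x ∈ L := fun x hx e =>
    ⟨_, e, c.left_inv hx⟩
  have h4 : L ⊆ c.source ∩ U := by
    rintro _ ⟨z, hz, rfl⟩
    exact ⟨c.map_target (h1 hz).1, (h1 hz).2⟩
  have h5 := hK.inter_right (h2.isClosed.preimage hf.continuous)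
  have h6 : ∀ y, f y ∈ L → y ∈ K ∩ f ⁻¹' L := fun y hy => ⟨by_contra fun e => h0 y e (h4 hy).2, hy⟩
  have h7 : ∀ x, f x = q → jd (c ∘ f) x = jdet n f x := fun x e => by
    rw [jd_comp hf (mem_of_eq_of_mem e hq), e, show jd (chartAt (Euc n) q) q = 1 from
      (congrArg ContinuousLinearMap.det (md_chart_self _)).trans det_id', one_mul]
  obtain ⟨b, b1, b2, b3, b4, b5⟩ := exists_contDiff_tsupport_subset (n := ⊤) (inter_mem
    (kit_near ho (c.open_source.preimage hf.continuous) h5 (fun y hy => (h4 hy.2).1) (G := c ∘ f)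
      (fun y hy => ((smF_chart hy).cmp (hf.smF y)).self_of_nhds.contMDiffWithinAt) hr0
      (fun x hx e => not_lt.1 fun e' => e (h6 x (h3 _ hx (mem_closedBall_iff_norm.2 e'.le))))
      fun x hx e => h7 x (c.injOn hx hq e) ▸ hr x (c.injOn hx hq e))
    (Metric.closedBall_mem_nhds (c q) hr0))
  let β := c.source.indicator (pull n n c fun z => b z • vtop n)
  have h8 : ∀ x ∉ L, β x = 0 := fun x hx => indicator_apply_eq_zero.2 fun e => by
    rw [pull_top, image_eq_zero_of_notMem_tsupport fun e' => hx (h3 x e (b1 e').2), mul_zero,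
      zero_smul]
  have h9 : IsTopForm n β := isTopForm_of (fun x => by
    by_cases e : x ∈ c.source
    · exact (hd_top e (sm_euc.2 (.of_forall fun _ => b3.contDiffAt))).congr
        ((c.open_source.eventually_mem e).mono fun z hz => (indicator_of_mem hz _).symm) .rfl
    · exact HD.zero.congr ((h2.isClosed.isOpen_compl.eventually_mem fun e' => e (h4 e').1).mono
        fun z hz => (h8 z hz).symm) .rfl) fun x => by
    by_cases e : x ∈ c.source
    · exact ⟨_, (indicator_of_mem e _).trans (pull_top q x b)⟩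
    · exact ⟨0, (indicator_of_notMem e _).trans (zero_smul _ _).symm⟩
  have h10 : ∀ y ∉ K ∩ f ⁻¹' L, pull n n f β y = 0 := fun y hy => by
    rw [pull_eq, h8 _ fun e => hy (h6 y e), map_zero]
  refine ⟨β, h9, .intro h2 h8, .intro h5 h10, ?_⟩
  rw [area_int ho h5 ⟨⟨_, hd_pull hf h9⟩, h10⟩ (G := c ∘ f)
    (fun y hy => (smF_chart (h4 hy.2).1).cmp (hf.smF y)) (b := b)
    fun y hy => tL_pull hf (h4 hy.2).1 (indicator_of_mem (h4 hy.2).1 _),
    show (fun z => b z * cnt o (K ∩ f ⁻¹' L) (c ∘ f) z) = fun z => b z *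
      ∑ᶠ y ∈ f ⁻¹' {q}, o y * (SignType.sign (jdet n f y) : ℝ) from funext fun z => ?_,
    integral_mul_const]
  · exact mul_ne_zero (b3.continuous.integral_pos_of_hasCompactSupport_nonneg_nonzero b2
      (fun z => (b4 ⟨z, rfl⟩).1) (b5.trans_ne one_ne_zero)).ne' h
  · by_cases e : b z = 0
    · simp [e]
    have e1 := b1 (subset_tsupport _ e)
    refine congrArg _ (Eq.trans ?_ (e1.1.2.trans (finsum_mem_congr (Set.ext fun x =>
      ⟨fun hx => c.injOn hx.1 hq hx.2, fun hx => ⟨mem_preimage.2 (mem_of_eq_of_mem hx hq),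
      congrArg c hx⟩⟩)
      fun x hx => by rw [h7 x hx])))
    exact finsum_mem_congr (Set.ext fun x => ⟨fun hx => ⟨(h4 hx.1.2).1, hx.2⟩,
      fun hx => ⟨h6 x (h3 _ hx.1 (mem_of_eq_of_mem hx.2 e1.2)), hx.2⟩⟩) fun _ _ => rfl

end Deg

variable {p : Y.M → X.M} {g : X.Metric} {o : X.M → ℝ}

theorem epsHat_iff (h : Tri X) (hn : 0 < n) (ho : X.IsOrientation o)
    (hp : IsLocalDiffeomorph (𝓡 n) (𝓡 n) ∞ p) (ε : ℝ) : EpsHat n p g o ε ↔ EpsSph p g o ε := by
  have ho' := ori_pull (V := Euc n) ho hp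
  refine exists_congr fun f => and_congr_right fun hf => and_congr_right fun _ =>
    and_congr_right fun ⟨K, hK, h0⟩ => ⟨fun ⟨β, b1, b2, b3, b4⟩ => ?_, fun ⟨q, b1, b2, b3⟩ => ?_⟩
  · obtain ⟨q, a1, -, a2, a3⟩ := deg_of_integ hn ho' hf b1 b2 hK (fun y hy => by
      obtain ⟨c, hc⟩ := b1.pt (f y)
      have : Nonempty (Fin n) := ⟨⟨0, hn⟩⟩
      rw [pull_eq, hc, map_smul, pA_vol, md_congr (eventually_of_mem
        (hK.isClosed.isOpen_compl.mem_nhds hy) h0), show md _ _ (fun _ => base n) y = 0 from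
        mfderiv_const, show ContinuousLinearMap.det (0 : Euc n →L[ℝ] Euc n) = 0 from
        LinearMap.det_zero'', zero_smul,
        smul_zero]) (hat_red h g hp.contMDiff ho' hf b1 b3 ▸ b4) (base n)
    have e : f ⁻¹' {q} ⊆ K := fun y hy => by_contra fun e => a1 (hy.symm.trans (h0 y e))
    exact ⟨q, a1, fun y hy => a2 y (e hy) hy, inter_eq_right.2 e ▸ a3⟩
  · obtain ⟨β, a1, a2, a3, a4⟩ := integ_of_deg ho' hf hK (compl_singleton_mem_nhds b1)
      (fun y hy e => e (h0 y hy)) b2 b3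
    exact ⟨β, a1, a2, a3, (hat_red h g hp.contMDiff ho' hf a1 a3).trans_ne a4⟩

lemma HatDegNe.dim (h : Tri X) (ho : X.IsOrientation o) (hp : IsLocalDiffeomorph (𝓡 n) (𝓡 n) ∞ p)
    {N : Type} [TopologicalSpace N] [ChartedSpace (Euc k) N] [IsManifold (𝓡 k) ∞ N] {f : Y.M → N}
    (hf : Smo n k f) (H : HatDegNe p g o k f) : k = n :=
  H.elim fun _ ⟨b1, _, b3, b4⟩ =>
    hat_dim b1 (hat_red h g hp.contMDiff (ori_pull (V := Euc n) ho hp) hf b1 b3 ▸ b4)

lemma EpsHat.dim (h : Tri X) (ho : X.IsOrientation o) (hp : IsLocalDiffeomorph (𝓡 n) (𝓡 n) ∞ p)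
    {ε : ℝ} (H : EpsHat k p g o ε) : k = n :=
  H.elim fun _ ⟨hf, _, _, H⟩ => H.dim h ho hp hf

variable (h : Tri X) (hn : 0 < n) (ho : X.IsOrientation o) {S : Set ℕ} (hS : n ∈ S)
include h hn ho hS

theorem propA_iff : PropA S X g o ↔ HasHypereuclideanCover X g o := by
  refine exists_congr fun C => ⟨fun ⟨k, _, F, a1, a2, a3, a4⟩ => ?_, fun ⟨F, a1, a2, a3, q, a4, a5⟩ =>
    ⟨n, hS, F, a1, a2, a3, ?_⟩⟩
  · obtain rfl := a4.dim h ho C.loc a1
    obtain ⟨β, b1, b2, b3, b4⟩ := a4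
    have ho' := ori_pull (V := Euc k) ho C.loc
    obtain ⟨q, -, c1, c2, c3⟩ := deg_of_integ hn ho' a1 b1 b2 (a2.isCompact_preimage b2)
      (fun y hy => by rw [pull_eq, image_eq_zero_of_notMem_tsupport hy, map_zero])
      (hat_red h g C.loc.contMDiff ho' a1 b1 b3 ▸ b4) 0
    have e : F ⁻¹' {q} ⊆ F ⁻¹' tsupport β := fun y hy => subset_tsupport _ (hy ▸ c1 :)
    exact ⟨F, a1, a2, a3, q, fun y hy => c2 y (e hy) hy, inter_eq_right.2 e ▸ c3⟩
  · have ho' := ori_pull (V := Euc n) ho C.loc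
    obtain ⟨β, b1, b2, b3, b4⟩ := integ_of_deg ho' a1 (a2.isCompact_preimage
      (isCompact_closedBall q 1)) (Metric.closedBall_mem_nhds q one_pos) (fun _ => id) a4 a5
    exact ⟨β, b1, b2, b3, (hat_red h g C.loc.contMDiff ho' a1 b1 b3).trans_ne b4⟩

theorem propB_iff : PropB S X g o ↔ HasHypersphericalCover X g o := by
  refine exists_congr fun C => ⟨fun ⟨k, _, H⟩ ε hε => ?_, fun H =>
    ⟨n, hS, fun ε hε => (epsHat_iff h hn ho C.loc ε).2 (H ε hε)⟩⟩
  obtain rfl := (H ε hε).dim h ho C.loc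
  exact (epsHat_iff h hn ho C.loc ε).1 (H ε hε)

theorem propC_iff : PropC S X g o ↔ Enlargeable X g o := by
  refine ⟨fun ⟨k, _, H⟩ ε hε => (H ε hε).imp fun C H => ?_, fun H =>
    ⟨n, hS, fun ε hε => (H ε hε).imp fun C => (epsHat_iff h hn ho C.loc ε).2⟩⟩
  obtain rfl := H.dim h ho C.loc
  exact (epsHat_iff h hn ho C.loc ε).1 H

theorem propD_iff : PropD S X g o ↔ IsoEnlargeable X g o := by
  refine ⟨fun ⟨k, _, H⟩ ε hε => (H ε hε).imp fun Y H => H.imp fun p H => ⟨H.1, ?_⟩, fun H =>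
    ⟨n, hS, fun ε hε => (H ε hε).imp fun Y H => H.imp fun p H =>
      ⟨H.1, (epsHat_iff h hn ho H.1 ε).2 H.2⟩⟩⟩
  obtain rfl := H.2.dim h ho H.1
  exact (epsHat_iff h hn ho H.1 ε).1 H.2

end Pool.Agent.Lib.MP_029589_gt
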