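import Pool.Agent.Lib.MP_029589_gt.Form
import Pool.Agent.Lib.MP_029589_gt.AF0

/-! Integration of forms: additivity, the theorem of Stokes and the area formula. -/

set_option autoImplicit false

open scoped Manifold ContDiff Topology Matrix
open Set Filter Function MeasureTheory

namespace Pool.Agent.Lib.MP_029589_gt

variable {n : ℕ}

section Pou

variable {M : Type} [TopologicalSpace M] [ChartedSpace (Euc n) M] [IsManifold (𝓡 n) ∞ M]

/-- Smooth forms which vanish outside `K`. -/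
def CS (K : Set M) (α : M → Lm n) : Prop := (∃ θ, ∀ y, HD y α θ) ∧ ∀ y ∉ K, α y = 0

omit [IsManifold (𝓡 n) ∞ M] in
lemma CS.add {K : Set M} {α β : M → Lm n} (h : CS K α) (h' : CS K β) : CS K (α + β) :=
  ⟨h.1.elim fun _ a => h'.1.elim fun _ b => ⟨_, fun y => (a y).add (b y)⟩,
    fun y hy => by simp [h.2 y hy, h'.2 y hy]⟩

omit [IsManifold (𝓡 n) ∞ M] in
lemma CS.fsmul {K L : Set M} {α : M → Lm n} (h : CS K α) {a : M → ℝ} (ha : ∀ y, Sm n a y)
    (hL : ∀ y ∉ L, a y = 0) : CS (K ∩ L) fun y => a y • α y :=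
  ⟨h.1.elim fun _ b => ⟨_, fun y => (b y).fsmul (ha y)⟩, fun y hy => by
    rcases not_and_or.1 hy with e | e
    · simp only [h.2 y e, smul_zero]
    · simp only [hL y e, zero_smul]⟩

lemma CS.d {K : Set M} (hK : IsClosed K) {α θ : M → Lm n} (h : ∀ y, HD y α θ)
    (h0 : ∀ y ∉ K, α y = 0) : CS K θ :=
  ⟨⟨_, fun y => (h y).dd⟩, fun y hy => ((h y).uniq (HD.zero.congr
    (eventually_of_mem (hK.isOpen_compl.mem_nhds hy) fun z hz => (h0 z hz).symm) .rfl)).self_of_nhds⟩

variable [T2Space M] [SigmaCompactSpace M]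

lemma pou_sm (a y : M) : Sm n (pou (Euc n) M a) y := .of_forall fun _ =>
  ((SmoothPartitionOfUnity.exists_isSubordinate_chartAt_source (𝓡 n) M).choose a).contMDiff _

lemma pou_supp (a : M) : tsupport (pou (Euc n) M a) ⊆ (chartAt (Euc n) a).source :=
  (SmoothPartitionOfUnity.exists_isSubordinate_chartAt_source (𝓡 n) M).choose_spec a

lemma pou_fin {K : Set M} (hK : IsCompact K) : ∃ T : Finset M,
    (∀ a ∉ T, ∀ y ∈ K, pou (Euc n) M a y = 0) ∧ ∀ y ∈ K, ∑ a ∈ T, pou (Euc n) M a y = 1 := by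
  let ρ := (SmoothPartitionOfUnity.exists_isSubordinate_chartAt_source (𝓡 n) M).choose
  have h := ρ.locallyFinite.finite_nonempty_inter_compact hK
  have h1 : ∀ a ∉ h.toFinset, ∀ y ∈ K, pou (Euc n) M a y = 0 := fun a ha y hy =>
    by_contra fun e => ha (h.mem_toFinset.2 ⟨y, e, hy⟩)
  refine ⟨_, h1, fun y hy => (finsum_eq_sum_of_support_subset _ fun a ha => ?_).symm.trans
    (ρ.sum_eq_one (mem_univ y))⟩
  exact by_contra fun e => ha (h1 a e y hy)

lemma CS.pou {K : Set M} {α : M → Lm n} (h : CS K α) (a : M) :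
    CS (K ∩ tsupport (pou (Euc n) M a)) fun y => pou (Euc n) M a y • α y :=
  h.fsmul (pou_sm a) fun _ => image_eq_zero_of_notMem_tsupport

omit [T2Space M] [SigmaCompactSpace M] [IsManifold (𝓡 n) ∞ M] [ChartedSpace (Euc n) M]
  [TopologicalSpace M] in
lemma sum_pou {K : Set M} {α : M → Lm n} (h : ∀ y ∉ K, α y = 0) {T : Finset M} {ρ : M → M → ℝ}
    (hT : ∀ y ∈ K, ∑ a ∈ T, ρ a y = 1) : ∑ a ∈ T, (fun y => ρ a y • α y) = α := by
  ext y
  rw [Finset.sum_apply, ← Finset.sum_smul]
  by_cases hy : y ∈ K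
  · rw [hT y hy, one_smul]
  · rw [h y hy, smul_zero]

end Pou

lemma sign_rel {a b d e : ℝ} (ha : a = 1 ∨ a = -1) (hb : b = 1 ∨ b = -1) (h : 0 < a * b * (d * e)) :
    b * SignType.sign d = a * SignType.sign e := by
  rcases lt_trichotomy d 0 with h1 | rfl | h1 <;> rcases lt_trichotomy e 0 with h2 | rfl | h2 <;>
    rcases ha with rfl | rfl <;> rcases hb with rfl | rfl <;>
    first | (simp [h1, h2, sign_neg, sign_pos]; done) | (exfalso; nlinarith)

variable {Y : Mfd n} {o : Y.M → ℝ} {K : Set Y.M} {α β η θ : Y.M → Lm n} {a b : Y.M}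

lemma det_symm {u : Euc n} (hu : u ∈ (chartAt (Euc n) a).target) :
    jd (chartAt (Euc n) a) ((chartAt (Euc n) a).symm u) * jdet n (chartAt (Euc n) a).symm u = 1 := by
  refine (det_comp' _ _).symm.trans ?_
  rw [← det_id' (V := Euc n), ← md_id u, ← md_congr (f := chartAt (Euc n) a ∘ _) (g := id)
    ((chartAt (Euc n) a).eventually_right_inverse hu),
    md_comp (smF_chart ((chartAt (Euc n) a).map_target hu)).mdiff (smF_symm hu).mdiff]
  rfl

lemma sg_loc (ho : Ori (Euc n) o) {s : Euc n → Y.M} {v : Euc n} (hs : SmF n n s v)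
    (h0 : jdet n s v ≠ 0) : ∀ᶠ u in 𝓝 v,
      o (s u) * (SignType.sign (jdet n s u) : ℝ) = o (s v) * SignType.sign (jdet n s v) := by
  have h1 : ∀ᶠ u in 𝓝 v, (fderiv ℝ (chartAt (Euc n) (s v) ∘ s) u).det =
      jd (chartAt (Euc n) (s v)) (s u) * jdet n s u := by
    filter_upwards [hs.ev, hs.cont.eventually (chart_source_mem_nhds (Euc n) (s v))] with u a b
    rw [← md_eq_fderiv, md_comp (smF_chart b).mdiff a.mdiff, det_comp']
    rfl
  have h2 := h1.self_of_nhds
  rw [show jd (chartAt (Euc n) (s v)) (s v) = 1 from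
    (congrArg ContinuousLinearMap.det (md_chart_self _)).trans det_id', one_mul] at h2
  have h3 := (ContinuousLinearMap.continuous_det.continuousAt.comp
    ((contMDiffAt_iff_contDiffAt.1 ((smF_chart (mem_chart_source _ _)).cmp
      hs).self_of_nhds).continuousAt_fderiv (by simp))).mul_const (jdet n s v)
  filter_upwards [h1, hs.cont.eventually (ho.2 (s v)), continuousAt_const.eventually_lt h3
    (show 0 < _ * _ by simp only [comp, h2]; exact mul_self_pos.2 h0)] with u a b c
  simp only [comp, a] at c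
  refine sign_rel (ho.1 _) (ho.1 _) (pos_of_mul_pos_left (b := jd (chartAt (Euc n) (s v)) (s u) ^ 2)
    ?_ (sq_nonneg _))
  convert mul_pos b c using 1
  rw [jd_ext]
  ring

variable (o) in
/-- A form in a chart, with the sign of the orientation. -/
noncomputable def lo (a : Y.M) (α : Y.M → Lm n) : Euc n → Lm n :=
  (chartAt (Euc n) a).target.indicator fun u => (o ((chartAt (Euc n) a).symm u) *
    SignType.sign (jdet n (chartAt (Euc n) a).symm u)) • pull n n (chartAt (Euc n) a).symm α u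

lemma intOn_eq (a : Y.M) (α : Y.M → Lm n) :
    intOn o α (chartAt (Euc n) a).symm (chartAt (Euc n) a).target = ∫ u, tL n (lo o a α u) := by
  rw [intOn, ← integral_indicator (chartAt (Euc n) a).open_target.measurableSet]
  refine congrArg _ (funext fun u => ?_)
  by_cases h : u ∈ (chartAt (Euc n) a).target
  · rw [lo, indicator_of_mem h, indicator_of_mem h, map_smul, top_eq, smul_eq_mul]
  · rw [lo, indicator_of_notMem h, indicator_of_notMem h, map_zero]

lemma lo_zero (h : ∀ y ∉ K, α y = 0) {u : Euc n} (hu : u ∉ chartAt (Euc n) a '' K) :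
    lo o a α u = 0 := indicator_apply_eq_zero.2 fun h' => by
  rw [pull_eq, h _ fun h'' => hu ⟨_, h'', (chartAt (Euc n) a).right_inv h'⟩, map_zero, smul_zero]

lemma lo_add (a : Y.M) (α β : Y.M → Lm n) (u : Euc n) :
    lo o a (α + β) u = lo o a α u + lo o a β u := by
  simp only [lo, pull_eq, Pi.add_apply, map_add, smul_add, indicator_add]

lemma lo_hd (ho : Ori (Euc n) o) (hK : IsCompact K) (hs : K ⊆ (chartAt (Euc n) a).source)
    (h : ∀ y, HD y η θ) (h0 : ∀ y ∉ K, η y = 0) (u : Euc n) : HD u (lo o a η) (lo o a θ) := by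
  by_cases hu : u ∈ (chartAt (Euc n) a).target
  · have h1 := (sg_loc ho (smF_symm hu) (right_ne_zero_of_mul_eq_one (det_symm hu))).and
      ((chartAt (Euc n) a).open_target.eventually_mem hu)
    refine (((h _).pul (smF_symm hu)).smul (o ((chartAt (Euc n) a).symm u) *
      SignType.sign (jdet n (chartAt (Euc n) a).symm u))).congr (h1.mono fun v hv => ?_)
      (h1.mono fun v hv => ?_) <;> rw [lo, indicator_of_mem hv.2, hv.1, Pi.smul_apply]
  · have h1 := (hK.image_of_continuousOn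
      ((chartAt (Euc n) a).continuousOn.mono hs)).isClosed.isOpen_compl.eventually_mem
      (x := u) (fun ⟨x, hx, e⟩ => hu (e ▸ (chartAt (Euc n) a).map_source (hs hx)))
    exact HD.zero.congr (h1.mono fun v hv => (lo_zero h0 hv).symm)
      (h1.mono fun v hv => (lo_zero (CS.d hK.isClosed h h0).2 hv).symm)

attribute [local instance] lmRing lmAlg

lemma lo_sm (ho : Ori (Euc n) o) (hK : IsCompact K) (hs : K ⊆ (chartAt (Euc n) a).source)
    (h : CS K α) (T : Lm n →ₗ[ℝ] ℝ) :
    ContDiff ℝ ∞ (fun u => T (lo o a α u)) ∧ HasCompactSupport fun u => T (lo o a α u) :=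
  ⟨T.toContinuousLinearMap.contDiff.comp (contDiff_iff_contDiffAt.2 fun u => h.1.elim fun _ h' =>
    (lo_hd ho hK hs h' h.2 u).sem.self_of_nhds.1), .intro (hK.image_of_continuousOn
      ((chartAt (Euc n) a).continuousOn.mono hs)) fun u hu => by rw [lo_zero h.2 hu, map_zero]⟩

lemma lo_int (ho : Ori (Euc n) o) (hK : IsCompact K) (hs : K ⊆ (chartAt (Euc n) a).source)
    (h : CS K α) : Integrable fun u => tL n (lo o a α u) :=
  (lo_sm ho hK hs h _).1.continuous.integrable_of_hasCompactSupport (lo_sm ho hK hs h _).2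

lemma lo_stokes (ho : Ori (Euc n) o) (hK : IsCompact K) (hs : K ⊆ (chartAt (Euc n) a).source)
    (h : ∀ y, HD y η θ) (h0 : ∀ y ∉ K, η y = 0) : ∫ u, tL n (lo o a θ u) = 0 := by
  have h1 := fun i => lo_sm ho hK hs ⟨⟨_, h⟩, h0⟩ (tL n ∘ₗ LinearMap.mulLeft ℝ (dx i))
  have h2 := fun i => ((h1 i).1.continuous_fderiv (by simp)).clm_apply
    (continuous_const (y := eb i)) |>.integrable_of_hasCompactSupport (μ := volume)
      ((h1 i).2.fderiv_apply ℝ (eb i))
  have h3 : ∀ u, tL n (lo o a θ u) = ∑ i, fderiv ℝ (fun u =>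
      (tL n ∘ₗ LinearMap.mulLeft ℝ (dx i)) (lo o a η u)) u (eb i) := fun u => by
    obtain ⟨a1, a2⟩ := (lo_hd ho hK hs h h0 u).sem.self_of_nhds
    rw [a2, map_sum]
    exact Finset.sum_congr rfl fun i _ => (DFunLike.congr_fun
      ((tL n ∘ₗ LinearMap.mulLeft ℝ (dx i)).toContinuousLinearMap.hasFDerivAt.comp u
        (a1.differentiableAt (by simp)).hasFDerivAt).fderiv _).symm
  simp only [h3]
  rw [integral_finsetSum _ fun i _ => h2 i]
  refine Finset.sum_eq_zero fun i _ => ?_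
  simpa using integral_mul_fderiv_eq_neg_fderiv_mul_of_integrable (μ := volume) (f := fun _ => (1 : ℝ))
    (v := eb i) (by simp) (by simpa using h2 i) (by
      simpa using (h1 i).1.continuous.integrable_of_hasCompactSupport (h1 i).2)
    (fun _ _ => differentiableAt_const _) fun _ _ => (h1 i).1.differentiable (by simp) _

lemma lo_apply {u : Euc n} (hu : u ∈ (chartAt (Euc n) a).target) : tL n (lo o a α u) =
    |jdet n (chartAt (Euc n) a).symm u| *
      (o ((chartAt (Euc n) a).symm u) * tL n (α ((chartAt (Euc n) a).symm u))) := by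
  rw [lo, indicator_of_mem hu, map_smul, pull_eq, tL_pA, ← sign_mul_self, smul_eq_mul]
  change _ * (jdet n _ _ * _) = _
  ring

lemma lo_indep (h : ∀ y ∉ (chartAt (Euc n) a).source ∩ (chartAt (Euc n) b).source, α y = 0) :
    ∫ u, tL n (lo o a α u) = ∫ u, tL n (lo o b α u) := by
  let e := (chartAt (Euc n) a).symm.trans (chartAt (Euc n) b)
  have h1 : ∀ u ∈ e.source, SmF n n e u := fun u hu => (smF_chart hu.2).cmp (smF_symm hu.1)
  rw [← setIntegral_eq_integral_of_forall_compl_eq_zero (s := e.source) fun u hu => by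
      rw [lo_zero h fun ⟨y, hy, e'⟩ => hu (e' ▸ ⟨(chartAt (Euc n) a).map_source hy.1, by
        simpa [(chartAt (Euc n) a).left_inv hy.1] using hy.2⟩), map_zero],
    ← setIntegral_eq_integral_of_forall_compl_eq_zero (s := e.target)
      (f := fun u => tL n (lo o b α u)) fun u hu => by
      rw [lo_zero h fun ⟨y, hy, e'⟩ => hu (e' ▸ ⟨(chartAt (Euc n) b).map_source hy.2, by
        simpa [(chartAt (Euc n) b).left_inv hy.2] using hy.1⟩), map_zero],
    ← e.image_source_eq_target, integral_image_eq_integral_abs_det_fderiv_smul volume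
      e.open_source.measurableSet (fun u hu =>
        (h1 u hu).mdiff.differentiableAt.hasFDerivAt.hasFDerivWithinAt) e.injOn]
  refine setIntegral_congr_fun e.open_source.measurableSet fun u hu => ?_
  have h2 : (chartAt (Euc n) b).symm ∘ e =ᶠ[𝓝 u] (chartAt (Euc n) a).symm :=
    (e.open_source.eventually_mem hu).mono fun v hv => (chartAt (Euc n) b).left_inv hv.2
  have h3 := congrArg ContinuousLinearMap.det ((md_congr h2).symm.trans
    (md_comp (smF_symm (e.map_source hu).1).mdiff (h1 u hu).mdiff))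
  rw [det_comp', md_eq_fderiv] at h3
  simp only [lo_apply hu.1, lo_apply (e.map_source hu).1, smul_eq_mul]
  rw [show (chartAt (Euc n) b).symm (e u) = _ from h2.self_of_nhds, ← mul_assoc |ContinuousLinearMap.det _|,
    ← abs_mul, mul_comm (ContinuousLinearMap.det _)]
  exact congrArg (fun t => |t| * _) h3

lemma integ_sum {T : Finset Y.M} (hT : ∀ a ∉ T, ∀ y ∈ K, pou (Euc n) Y.M a y = 0)
    (h : ∀ y ∉ K, α y = 0) :
    integ o α = ∑ a ∈ T, ∫ u, tL n (lo o a (fun y => pou (Euc n) Y.M a y • α y) u) := by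
  simp only [integ, intOn_eq]
  refine finsum_eq_sum_of_support_subset _ fun a ha => by_contra fun e => ha ?_
  simp only [lo_zero (K := ∅) (fun y _ => show pou (Euc n) Y.M a y • α y = 0 by
    by_cases hy : y ∈ K <;> simp [hy, hT a e, h]) (by simp), map_zero, integral_zero]

lemma cpt_pou (hK : IsCompact K) (a : Y.M) : IsCompact (K ∩ tsupport (pou (Euc n) Y.M a)) :=
  hK.inter_right (isClosed_tsupport _)

theorem integ_add (ho : Ori (Euc n) o) (hK : IsCompact K) (h : CS K α) (h' : CS K β) :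
    integ o (α + β) = integ o α + integ o β := by
  obtain ⟨T, h1, -⟩ := pou_fin (n := n) hK
  rw [integ_sum h1 h.2, integ_sum h1 h'.2, integ_sum h1 (h.add h').2, ← Finset.sum_add_distrib]
  refine Finset.sum_congr rfl fun a _ => ?_
  have h2 := inter_subset_right.trans (pou_supp (n := n) a) (a := K ∩ _)
  rw [← integral_add (lo_int ho (cpt_pou hK a) h2 (h.pou a)) (lo_int ho (cpt_pou hK a) h2 (h'.pou a))]
  simp only [← map_add, ← lo_add, Pi.add_apply, smul_add]
  rfl

lemma integ_zero (h : ∀ y, tL n (α y) = 0) : integ o α = 0 := by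
  simp [integ, intOn, top_eq, pull_eq, tL_pA, h]

lemma CS.sum {ι : Type} {T : Finset ι} {α : ι → Y.M → Lm n} (h : ∀ i ∈ T, CS K (α i)) :
    CS K (∑ i ∈ T, α i) :=
  Finset.sum_induction _ _ (fun _ _ => CS.add) ⟨⟨_, fun _ => HD.zero⟩, fun _ _ => rfl⟩ h

theorem integ_finsum (ho : Ori (Euc n) o) (hK : IsCompact K) {ι : Type} {T : Finset ι}
    {α : ι → Y.M → Lm n} (h : ∀ i ∈ T, CS K (α i)) :
    integ o (∑ i ∈ T, α i) = ∑ i ∈ T, integ o (α i) := by
  classical
  induction T using Finset.induction_on with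
  | empty => exact integ_zero fun _ => map_zero _
  | insert a s ha ih =>
    have h1 := fun i hi => h i (Finset.mem_insert_of_mem hi)
    rw [Finset.sum_insert ha, Finset.sum_insert ha, ← ih h1,
      integ_add ho hK (h a (Finset.mem_insert_self _ _)) (CS.sum h1)]

theorem integ_chart (ho : Ori (Euc n) o) (hK : IsCompact K) (hs : K ⊆ (chartAt (Euc n) a).source)
    (h : CS K α) : integ o α = ∫ u, tL n (lo o a α u) := by
  obtain ⟨T, h1, h2⟩ := pou_fin (n := n) hK
  rw [integ_sum h1 h.2, Finset.sum_congr rfl fun b _ => lo_indep (b := a) fun y hy =>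
    (h.pou b).2 y fun h' => hy ⟨pou_supp b h'.2, hs h'.1⟩, ← integral_finsetSum _ fun b _ =>
      lo_int ho (cpt_pou hK b) (inter_subset_left.trans hs) (h.pou b)]
  refine congrArg _ (funext fun u => ?_)
  conv_rhs => rw [← sum_pou h.2 h2]
  exact (map_sum (AddMonoidHom.mk' (fun α => tL n (lo o a α u)) fun α β => by
    rw [lo_add, map_add]) _ _).symm

theorem stokes (ho : Ori (Euc n) o) (hK : IsCompact K) (h : ∀ y, HD y η θ) (h0 : ∀ y ∉ K, η y = 0) :
    integ o θ = 0 := by
  obtain ⟨T, -, h2⟩ := pou_fin (n := n) hK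
  have h3 := fun a y => (h y).fsmul (pou_sm a y)
  have h4 := fun a => (CS.pou ⟨⟨_, h⟩, h0⟩ a).2
  have h5 := fun a => CS.d (cpt_pou hK a).isClosed (h3 a) (h4 a)
  have h6 := fun a => inter_subset_right.trans (pou_supp (n := n) a) (a := K ∩ _)
  rw [funext fun y => ((h y).uniq (sum_pou h0 h2 ▸ HD.sum fun a _ => h3 a y)).self_of_nhds,
    integ_finsum ho hK fun a _ => ⟨(h5 a).1, fun y hy => (h5 a).2 y fun h' => hy h'.1⟩]
  exact Finset.sum_eq_zero fun a _ => (integ_chart ho (cpt_pou hK a) (h6 a) (h5 a)).trans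
    (lo_stokes ho (cpt_pou hK a) (h6 a) (h3 a) (h4 a))

lemma area_chart (ho : Ori (Euc n) o) (hK : IsCompact K) (hs : K ⊆ (chartAt (Euc n) a).source)
    (h : CS K α) {G : Y.M → Euc n} (hG : ∀ y ∈ K, SmF n n G y) {w : Y.M → ℝ}
    (e : ∀ y ∈ K, tL n (α y) = jd G y * w y) : (∀ᵐ z, (K ∩ G ⁻¹' {z}).Finite) ∧
    Integrable (fun z => ∑ᶠ y ∈ K ∩ G ⁻¹' {z}, o y * SignType.sign (jd G y) * w y) ∧
    integ o α = ∫ z, ∑ᶠ y ∈ K ∩ G ⁻¹' {z}, o y * SignType.sign (jd G y) * w y := by
  set c := chartAt (Euc n) a with hc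
  have h0 := hK.image_of_continuousOn (c.continuousOn.mono hs)
  have h1 : ∀ u ∈ c '' K, ContDiffAt ℝ ∞ (G ∘ c.symm) u := by
    rintro _ ⟨y, hy, rfl⟩
    exact sm_chart (hG y hy).self_of_nhds (hs hy)
  have h2 : ∀ y ∈ K, jd c y * jdet n c.symm (c y) = 1 := fun y hy => by
    have := det_symm (c.map_source (hs hy))
    rwa [c.left_inv (hs hy)] at this
  have h3 : EqOn (fun u => tL n (lo o a α u)) (fun u => (fderiv ℝ (G ∘ c.symm) u).det *
      (o (c.symm u) * SignType.sign (jdet n c.symm u) * w (c.symm u))) (c '' K) := by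
    rintro _ ⟨y, hy, rfl⟩
    simp only [lo_apply (c.map_source (hs hy)), ← hc, c.left_inv (hs hy), e y hy,
      jd_chart (hG y hy).self_of_nhds (hs hy), ← sign_mul_self]
    linear_combination (SignType.sign (jdet n c.symm (c y)) * o y *
      (fderiv ℝ (G ∘ c.symm) (c y)).det * w y) * h2 y hy
  obtain ⟨b1, b2, b3⟩ := area_signed volume h0.measurableSet
    (fun u hu => (h1 u hu).differentiableAt (by simp)) (ContinuousOn.integrableOn_compact h0
      fun u hu => (ContinuousLinearMap.continuous_det.continuousAt.comp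
        ((h1 u hu).continuousAt_fderiv (by simp))).continuousWithinAt)
    ((lo_int ho hK hs h).integrableOn.congr_fun h3 h0.measurableSet)
  have h4 : ∀ z, c '' K ∩ (G ∘ c.symm) ⁻¹' {z} = c '' (K ∩ G ⁻¹' {z}) := fun z => by
    ext u
    constructor
    · rintro ⟨⟨y, hy, rfl⟩, h⟩
      exact ⟨y, ⟨hy, by simpa [c.left_inv (hs hy)] using h⟩, rfl⟩
    · rintro ⟨y, hy, rfl⟩
      exact ⟨⟨y, hy.1, rfl⟩, by simpa [c.left_inv (hs hy.1)] using hy.2⟩
  have h5 := fun z => c.injOn.mono (inter_subset_left.trans hs) (s₁ := K ∩ G ⁻¹' {z})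
  have h6 : ∀ z, ∑ᶠ u ∈ c '' K ∩ (G ∘ c.symm) ⁻¹' {z}, SignType.sign (fderiv ℝ (G ∘ c.symm) u).det *
      (o (c.symm u) * SignType.sign (jdet n c.symm u) * w (c.symm u)) =
      ∑ᶠ y ∈ K ∩ G ⁻¹' {z}, o y * SignType.sign (jd G y) * w y := fun z => by
    rw [h4, finsum_mem_image (h5 z)]
    refine finsum_mem_congr rfl fun y hy => ?_
    rw [c.left_inv (hs hy.1), jd_chart (hG y hy.1).self_of_nhds (hs hy.1), sign_mul,
      ← one_mul (SignType.sign (jdet _ _ _) : ℝ), sign_rel (e := jd c y) (Or.inl rfl) (Or.inl rfl)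
        (by rw [mul_comm (jdet _ _ _), h2 y hy.1]; simp)]
    push_cast
    ring
  simp only [h6] at b2 b3
  refine ⟨b1.mono fun z hz => (h4 z ▸ hz.1).of_finite_image (h5 z), b2, ?_⟩
  rw [integ_chart ho hK hs h, ← b3, ← setIntegral_congr_fun h0.measurableSet h3,
    setIntegral_eq_integral_of_forall_compl_eq_zero fun u hu => by rw [lo_zero h.2 hu, map_zero]]

theorem area_int (ho : Ori (Euc n) o) (hK : IsCompact K) (h : CS K α) {G : Y.M → Euc n}
    (hG : ∀ y ∈ K, SmF n n G y) {b : Euc n → ℝ} (e : ∀ y ∈ K, tL n (α y) = jd G y * b (G y)) :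
    integ o α = ∫ z, b z * cnt o K G z := by
  obtain ⟨T, -, h2⟩ := pou_fin (n := n) hK
  have h3 := fun a => area_chart ho (cpt_pou hK a) (inter_subset_right.trans (pou_supp a)) (h.pou a)
    (fun y hy => hG y hy.1) (w := fun y => pou (Euc n) Y.M a y * b (G y)) fun y hy => by
      rw [map_smul, e y hy.1, smul_eq_mul, mul_left_comm]
  rw [← sum_pou h.2 h2, integ_finsum ho hK fun a _ =>
    ⟨(h.pou a).1, fun y hy => (h.pou a).2 y fun h' => hy h'.1⟩,
    Finset.sum_congr rfl fun a _ => (h3 a).2.2, ← integral_finsetSum _ fun a _ => (h3 a).2.1]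
  refine integral_congr_ae ?_
  filter_upwards [(eventually_all_finset T).2 fun a _ => (h3 a).1] with z hz
  have h4 : {y | y ∈ K ∧ G y = z}.Finite := (T.finite_toSet.biUnion hz).subset fun y hy => by
    obtain ⟨a, ha, h5⟩ := Finset.exists_ne_zero_of_sum_ne_zero ((h2 y hy.1).trans_ne one_ne_zero)
    exact mem_biUnion ha ⟨⟨hy.1, subset_tsupport _ h5⟩, hy.2⟩
  rw [cnt, finsum_mem_eq_finite_toFinset_sum _ h4, Finset.mul_sum, Finset.sum_congr rfl fun a _ =>
    finsum_mem_eq_sum_of_inter_support_eq (t := h4.toFinset) _ ?_, Finset.sum_comm]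
  · refine Finset.sum_congr rfl fun y hy => ?_
    obtain ⟨h5, rfl⟩ := h4.mem_toFinset.1 hy
    rw [← Finset.mul_sum, ← Finset.sum_mul, h2 y h5, one_mul, mul_comm]
  · ext y
    simp only [h4.coe_toFinset]
    exact ⟨fun h => ⟨⟨h.1.1.1, h.1.2⟩, h.2⟩, fun h => ⟨⟨⟨h.1.1, subset_tsupport _
      (left_ne_zero_of_mul (right_ne_zero_of_mul h.2))⟩, h.1.2⟩, h.2⟩⟩

end Pool.Agent.Lib.MP_029589_gt
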