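import Pool.Agent.Lib.MP_029589_gt.Base

/-! Regular level sets as manifolds with an oriented atlas. -/

set_option autoImplicit false

open scoped Manifold ContDiff Topology
open Set Filter Function

namespace Pool.Agent.Lib.MP_029589_gt

/-- Data of a regular level set. -/
structure LS (N V C : Type) [NormedAddCommGroup N] [NormedSpace ℝ N] [NormedAddCommGroup V]
    [NormedSpace ℝ V] [NormedAddCommGroup C] [NormedSpace ℝ C] where
  /-- A fixed identification. -/
  J : (V × C) ≃L[ℝ] N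
  /-- The defining function. -/
  s : N → C
  smooth : ContDiff ℝ ∞ s
  reg : ∀ p, s p = 0 → Surjective (fderiv ℝ s p)
  refl : ∃ R : V →L[ℝ] V, R.det < 0

variable {N V C : Type} [NormedAddCommGroup N] [NormedSpace ℝ N] [NormedAddCommGroup V]
  [NormedSpace ℝ V] [NormedAddCommGroup C] [NormedSpace ℝ C]

namespace LS

variable (D : LS N V C)

/-- The level set. -/
abbrev Z : Type := {p : N // D.s p = 0}

/-- The ambient linear map built from two components. -/
noncomputable def amb (A : N →L[ℝ] V) (B : N →L[ℝ] C) : N →L[ℝ] N :=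
  (D.J : V × C →L[ℝ] N).comp (A.prod B)

/-- A slice chart. -/
structure Slice (p : N) where
  /-- Tangential coordinates. -/
  L : N →L[ℝ] V
  /-- The ambient chart. -/
  Φ : OpenPartialHomeomorph N N
  mem : p ∈ Φ.source
  eq : ⇑Φ = fun x => D.J (L x, D.s x)
  pos : ∀ x ∈ Φ.source, 0 < (D.amb L (fderiv ℝ D.s x)).det
  symm : ContDiffOn ℝ ∞ Φ.symm Φ.target

lemma hasFDerivAt_amb (L : N →L[ℝ] V) (x : N) :
    HasFDerivAt (fun x => D.J (L x, D.s x)) (D.amb L (fderiv ℝ D.s x)) x :=
  (D.J : V × C →L[ℝ] N).hasFDerivAt.comp x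
    (L.hasFDerivAt.prodMk (D.smooth.differentiable (by simp) x).hasFDerivAt)

variable [FiniteDimensional ℝ N] [FiniteDimensional ℝ V] [FiniteDimensional ℝ C]

lemma exists_L {B : N →L[ℝ] C} (hB : Surjective B) : ∃ L : N →L[ℝ] V, 0 < (D.amb L B).det := by
  have h1 : Module.finrank ℝ (LinearMap.ker (B : N →ₗ[ℝ] C)) = Module.finrank ℝ V := by
    have a := LinearMap.finrank_range_add_finrank_ker (B : N →ₗ[ℝ] C)
    have b := D.J.toLinearEquiv.finrank_eq
    rw [LinearMap.range_eq_top.2 hB, finrank_top] at a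
    rw [Module.finrank_prod] at b
    omega
  obtain ⟨K, hK⟩ := (LinearMap.ker (B : N →ₗ[ℝ] C)).exists_isCompl
  let e := LinearEquiv.ofFinrankEq _ _ h1
  let L : N →L[ℝ] V := LinearMap.toContinuousLinearMap
    (e.toLinearMap ∘ₗ (LinearMap.ker (B : N →ₗ[ℝ] C)).projectionOnto K hK)
  have h2 : (D.amb L B).det ≠ 0 := by
    rw [det_ne_zero_iff, injective_iff_map_eq_zero]
    intro x hx
    have h3 : (L x, B x) = 0 := D.J.map_eq_zero_iff.1 hx
    have h4 : x ∈ LinearMap.ker (B : N →ₗ[ℝ] C) := congrArg Prod.snd h3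
    have h5 : e ((LinearMap.ker (B : N →ₗ[ℝ] C)).projectionOnto K hK x) = 0 := congrArg Prod.fst h3
    rw [e.map_eq_zero_iff, Submodule.projectionOnto_apply_of_mem_left hK h4] at h5
    exact congrArg Subtype.val h5
  rcases h2.lt_or_gt with h | h
  · obtain ⟨R, hR⟩ := D.refl
    refine ⟨R.comp L, ?_⟩
    have h3 : D.amb (R.comp L) B = ((D.J : V × C →L[ℝ] N).comp
        ((R.prodMap (.id ℝ C)).comp (D.J.symm : N →L[ℝ] V × C))).comp (D.amb L B) := by
      ext x; simp [amb]
    rw [h3, det_comp', det_conj', det_tri _ R (.id ℝ C) (by simp) (by simp), det_id', mul_one]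
    exact mul_pos_of_neg_of_neg hR h
  · exact ⟨L, h⟩

lemma exists_slice (p : D.Z) : Nonempty (D.Slice p.1) := by
  obtain ⟨L, hL⟩ := D.exists_L (D.reg p.1 p.2)
  have : CompleteSpace N := FiniteDimensional.complete ℝ N
  have hF : ContDiff ℝ ∞ fun x => D.J (L x, D.s x) :=
    D.J.contDiff.comp (L.contDiff.prodMk D.smooth)
  have hd : ∀ x (h : (D.amb L (fderiv ℝ D.s x)).det ≠ 0), HasFDerivAt (fun x => D.J (L x, D.s x))
      ((D.amb L (fderiv ℝ D.s x)).toContinuousLinearEquivOfDetNeZero h : N →L[ℝ] N) x :=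
    fun x h => by simpa using D.hasFDerivAt_amb L x
  have ho : IsOpen {x | 0 < (D.amb L (fderiv ℝ D.s x)).det} := by
    refine isOpen_lt continuous_const (ContinuousLinearMap.continuous_det.comp ?_)
    simp only [← (D.hasFDerivAt_amb L _).fderiv]
    exact hF.continuous_fderiv (by simp)
  let Φ := (hF.contDiffAt.toOpenPartialHomeomorph _ (hd p.1 hL.ne') (by simp)).restrOpen _ ho
  refine ⟨⟨L, Φ, ⟨hF.contDiffAt.mem_toOpenPartialHomeomorph_source _ _, hL⟩, rfl,
    fun x hx => hx.2, fun a ha => ?_⟩⟩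
  exact (Φ.contDiffAt_symm ha (hd _ (Φ.map_target ha).2.ne') hF.contDiffAt).contDiffWithinAt

/-- The chosen slice. -/
noncomputable def sl (p : D.Z) : D.Slice p.1 := (D.exists_slice p).some

variable {D}

omit [FiniteDimensional ℝ N] [FiniteDimensional ℝ V] [FiniteDimensional ℝ C] in
lemma Slice.inv {p : N} (S : D.Slice p) {v : V} {c : C} (h : D.J (v, c) ∈ S.Φ.target) :
    S.L (S.Φ.symm (D.J (v, c))) = v ∧ D.s (S.Φ.symm (D.J (v, c))) = c := by
  have := S.Φ.right_inv h
  rw [S.eq] at this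
  exact Prod.ext_iff.1 (D.J.injective this)

omit [FiniteDimensional ℝ N] [FiniteDimensional ℝ V] [FiniteDimensional ℝ C] in
lemma Slice.apply {p : N} (S : D.Slice p) (z : D.Z) : S.Φ z.1 = D.J (S.L z.1, 0) := by
  rw [S.eq]; simp only [z.2]

open Classical in
/-- The chart of the level set defined by a slice. -/
noncomputable def Slice.chart {p : D.Z} (S : D.Slice p.1) : OpenPartialHomeomorph D.Z V where
  toFun z := S.L z.1
  invFun v := if h : D.J (v, 0) ∈ S.Φ.target then ⟨_, (S.inv h).2⟩ else p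
  source := {z | z.1 ∈ S.Φ.source}
  target := {v | D.J (v, 0) ∈ S.Φ.target}
  map_source' z hz := by
    have := S.Φ.map_source hz
    rwa [S.apply] at this
  map_target' v hv := by
    simp only [mem_ofPred_eq] at hv ⊢
    rw [dif_pos hv]
    exact S.Φ.map_target hv
  left_inv' z hz := by
    have := S.Φ.map_source hz
    rw [S.apply] at this
    simp only [dif_pos this]
    exact Subtype.ext (by simp only [← S.apply, S.Φ.left_inv hz])
  right_inv' v hv := by
    simp only [mem_ofPred_eq] at hv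
    simp only [dif_pos hv]
    exact (S.inv hv).1
  open_source := S.Φ.open_source.preimage continuous_subtype_val
  open_target := S.Φ.open_target.preimage (by fun_prop)
  continuousOn_toFun := (S.L.continuous.comp continuous_subtype_val).continuousOn
  continuousOn_invFun := by
    refine Topology.IsInducing.subtypeVal.continuousOn_iff.2 ?_
    refine (S.Φ.continuousOn_symm.comp (f := fun v => D.J (v, 0)) (by fun_prop)
      fun v hv => hv).congr fun v hv => ?_
    have hv' : D.J (v, 0) ∈ S.Φ.target := hv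
    simp only [comp, dif_pos hv']

omit [FiniteDimensional ℝ N] [FiniteDimensional ℝ V] [FiniteDimensional ℝ C] in
lemma Slice.chart_symm {p : D.Z} (S : D.Slice p.1) {v : V} (h : v ∈ S.chart.target) :
    (S.chart.symm v).1 = S.Φ.symm (D.J (v, 0)) := by
  have h' : D.J (v, 0) ∈ S.Φ.target := h
  exact congrArg Subtype.val (dif_pos h')

omit [FiniteDimensional ℝ N] [FiniteDimensional ℝ V] [FiniteDimensional ℝ C] in
lemma Slice.smooth_symm {p : D.Z} (S : D.Slice p.1) :
    ContDiffOn ℝ ∞ (fun v => (S.chart.symm v).1) S.chart.target :=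
  (S.symm.comp (f := fun v => D.J (v, 0)) (by fun_prop) fun _ hv => hv).congr
    fun _ hv => S.chart_symm hv

noncomputable instance : ChartedSpace V D.Z where
  atlas := range fun p => (D.sl p).chart
  chartAt p := (D.sl p).chart
  mem_chart_source p := (D.sl p).mem
  chart_mem_atlas p := mem_range_self p

lemma chartAt_eq (p : D.Z) : chartAt V p = (D.sl p).chart := rfl

instance : IsManifold 𝓘(ℝ, V) ∞ D.Z := by
  refine isManifold_of_contDiffOn _ _ _ ?_
  rintro _ _ ⟨p, rfl⟩ ⟨q, rfl⟩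
  simp only [modelWithCornersSelf_coe, modelWithCornersSelf_coe_symm, range_id, inter_univ,
    preimage_id, id_comp, comp_id]
  exact (D.sl q).L.contDiff.comp_contDiffOn ((D.sl p).smooth_symm.mono inter_subset_left)

lemma contMDiff_val : ContMDiff 𝓘(ℝ, V) 𝓘(ℝ, N) ∞ fun z : D.Z => z.1 := fun z => by
  rw [contMDiffAt_iff_source]
  simp only [mfld_simps, contMDiffWithinAt_univ, contMDiffAt_iff_contDiffAt]
  exact (D.sl z).smooth_symm.contDiffAt ((D.sl z).chart.open_target.mem_nhds (mem_chart_target V z))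

lemma contMDiffAt_to {W M : Type} [NormedAddCommGroup W] [NormedSpace ℝ W] [TopologicalSpace M]
    [ChartedSpace W M] {f : M → D.Z} {x : M}
    (h : ContMDiffAt 𝓘(ℝ, W) 𝓘(ℝ, N) ∞ (fun x => (f x).1) x) :
    ContMDiffAt 𝓘(ℝ, W) 𝓘(ℝ, V) ∞ f x := by
  rw [contMDiffAt_iff_target]
  exact ⟨Topology.IsInducing.subtypeVal.continuousAt_iff.2 h.continuousAt,
    (D.sl (f x)).L.contDiff.contMDiff.contMDiffAt.comp x h⟩

lemma mdiff_val (z : D.Z) : MDifferentiableAt 𝓘(ℝ, V) 𝓘(ℝ, N) (fun z : D.Z => z.1) z :=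
  (contMDiff_val z).mdifferentiableAt (by simp)

/-- The differential of the inclusion. -/
noncomputable def tan (z : D.Z) : V →L[ℝ] N := md V N (fun z : D.Z => z.1) z

lemma md_comp_val {W : Type} [NormedAddCommGroup W] [NormedSpace ℝ W] {F : N → W} {z : D.Z}
    (hF : DifferentiableAt ℝ F z.1) :
    md V W (fun y : D.Z => F y.1) z = (fderiv ℝ F z.1).comp (tan z) :=
  md_clm_comp (g := F) (mdiff_val z) hF

lemma amb_tan (z : D.Z) (v : V) :
    (D.sl z).L (tan z v) = v ∧ fderiv ℝ D.s z.1 (tan z v) = 0 := by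
  constructor
  · have h := md_comp_val (z := z) (D.sl z).L.differentiableAt
    rw [ContinuousLinearMap.fderiv] at h
    have h2 : md V V (fun y : D.Z => (D.sl z).L y.1) z = .id ℝ V := md_chart_self z
    exact DFunLike.congr_fun (h.symm.trans h2) v
  · have h := md_comp_val (z := z) (D.smooth.differentiable (by simp) z.1)
    have h2 : (fun y : D.Z => D.s y.1) = fun _ => 0 := funext fun y => y.2
    rw [h2] at h
    have h3 : md V C (fun _ : D.Z => (0 : C)) z = 0 := mfderiv_const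
    exact DFunLike.congr_fun (h.symm.trans h3) v

lemma det_amb (z : D.Z) : ∃ c : ℝ, 0 < c ∧ ∀ (A : N →L[ℝ] V) (ρ : C →L[ℝ] C),
    (D.amb A (ρ.comp (fderiv ℝ D.s z.1))).det = c * ρ.det * (A.comp (tan z)).det := by
  have hp := (D.sl z).pos _ (D.sl z).mem
  set B := fderiv ℝ D.s z.1 with hB
  let e := (D.amb (D.sl z).L B).toContinuousLinearEquivOfDetNeZero hp.ne'
  have he : ∀ x, e x = D.J ((D.sl z).L x, B x) := fun _ => rfl
  refine ⟨_, hp, fun A ρ => ?_⟩
  let T : V × C →L[ℝ] V × C :=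
    (A.prod (ρ.comp B)).comp ((e.symm : N →L[ℝ] N).comp (D.J : V × C →L[ℝ] N))
  have h1 : D.amb A (ρ.comp B) = ((D.J : V × C →L[ℝ] N).comp
      (T.comp (D.J.symm : N →L[ℝ] V × C))).comp (e : N →L[ℝ] N) := by
    ext x; simp [amb, T]
  have h2 : ∀ v, e.symm (D.J (v, 0)) = tan z v := fun v => by
    rw [e.symm_apply_eq, he, (amb_tan z v).1, (amb_tan z v).2]
  have h3 : ∀ c, B (e.symm (D.J (0, c))) = c := fun c => by
    have := he (e.symm (D.J (0, c)))
    rw [e.apply_symm_apply] at this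
    exact (congrArg Prod.snd (D.J.injective this)).symm
  rw [h1, det_comp', det_conj', det_tri T (A.comp (tan z)) ρ (fun v => ?_) fun c => ?_]
  · simp only [e, ContinuousLinearMap.coe_toContinuousLinearEquivOfDetNeZero]
    ring
  · simp [T, h2, hB, (amb_tan z v).2]
  · simp [T, h3]

lemma jd_chart_pos {a b : D.Z} (h : b ∈ (chartAt V a).source) : 0 < jd (chartAt V a) b := by
  obtain ⟨c, hc, h1⟩ := det_amb b
  have h2 := h1 (D.sl a).L (.id ℝ C)
  have h3 := (D.sl a).pos _ h
  have h4 := md_comp_val (z := b) (D.sl a).L.differentiableAt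
  rw [ContinuousLinearMap.fderiv] at h4
  rw [ContinuousLinearMap.id_comp, det_id', mul_one, ← h4] at h2
  rw [h2] at h3
  exact (mul_pos_iff_of_pos_left hc).1 h3

lemma det_md_pos {τ : D.Z → D.Z} {T : N → N} (h : ∀ y, (τ y).1 = T y.1) (hT : ContDiff ℝ ∞ T)
    {z : D.Z} (hd : 0 < (fderiv ℝ T z.1).det) {ρ : C →L[ℝ] C} (hρ : 0 < ρ.det)
    (hs : (fderiv ℝ D.s (T z.1)).comp (fderiv ℝ T z.1) = ρ.comp (fderiv ℝ D.s z.1)) :
    0 < (md V V τ z).det := by
  have hT' := hT.differentiable (by simp) z.1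
  have h0 : ContMDiffAt 𝓘(ℝ, V) 𝓘(ℝ, V) ∞ τ z := contMDiffAt_to (by
    simp only [h]
    exact hT.contMDiff.contMDiffAt.comp z (contMDiff_val z))
  have h1 := md_comp (g := extChartAt 𝓘(ℝ, V) (τ z)) (f := τ)
    (mdifferentiableAt_extChartAt (mem_chart_source V _)) (h0.mdifferentiableAt (by simp))
  rw [md_chart_self, ContinuousLinearMap.id_comp] at h1
  have h2 : extChartAt 𝓘(ℝ, V) (τ z) ∘ τ = fun y => ((D.sl (τ z)).L ∘ T) y.1 :=
    funext fun y => congrArg (D.sl (τ z)).L (h y)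
  rw [h2, md_comp_val ((D.sl (τ z)).L.differentiableAt.comp _ hT'),
    fderiv_comp _ (D.sl (τ z)).L.differentiableAt hT', ContinuousLinearMap.fderiv] at h1
  obtain ⟨c, hc, h3⟩ := det_amb z
  have h4 := h3 ((D.sl (τ z)).L.comp (fderiv ℝ T z.1)) ρ
  have h5 := (D.sl (τ z)).pos _ (D.sl (τ z)).mem
  have h6 : D.amb ((D.sl (τ z)).L.comp (fderiv ℝ T z.1)) (ρ.comp (fderiv ℝ D.s z.1)) =
      (D.amb (D.sl (τ z)).L (fderiv ℝ D.s (τ z).1)).comp (fderiv ℝ T z.1) := by
    rw [← hs, ← h]; rfl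
  rw [h6, det_comp', h1] at h4
  exact (mul_pos_iff_of_pos_left (mul_pos hc hρ)).1 (h4 ▸ mul_pos h5 hd)

end LS

end Pool.Agent.Lib.MP_029589_gt
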