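import Pool.Agent.Lib.MP_029589_gt.Base

/-! Local diffeomorphisms and quotients by free properly discontinuous smooth actions. -/

set_option autoImplicit false

open scoped Manifold ContDiff Topology
open Set Filter Function

namespace Pool.Agent.Lib.MP_029589_gt

variable {V W : Type} [NormedAddCommGroup V] [NormedSpace ℝ V] [NormedAddCommGroup W]
  [NormedSpace ℝ W] {M N P R : Type} [TopologicalSpace M] [ChartedSpace V M] [TopologicalSpace N]
  [ChartedSpace V N] [TopologicalSpace P] [ChartedSpace V P] [TopologicalSpace R] [ChartedSpace W R]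

/-- Smooth local diffeomorphisms. -/
abbrev LD (V : Type) [NormedAddCommGroup V] [NormedSpace ℝ V] {M N : Type} [TopologicalSpace M]
    [ChartedSpace V M] [TopologicalSpace N] [ChartedSpace V N] (f : M → N) (x : M) : Prop :=
  IsLocalDiffeomorphAt 𝓘(ℝ, V) 𝓘(ℝ, V) ∞ f x

lemma LD.of_chart (e : OpenPartialHomeomorph M N) (h1 : ContMDiffOn 𝓘(ℝ, V) 𝓘(ℝ, V) ∞ e e.source)
    (h2 : ContMDiffOn 𝓘(ℝ, V) 𝓘(ℝ, V) ∞ e.symm e.target) {x : M} (hx : x ∈ e.source) {f : M → N}
    (hf : EqOn f e e.source) : LD V f x :=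
  ⟨⟨e.toPartialEquiv, e.open_source, e.open_target, h1, h2⟩, hx, hf⟩

lemma LD.congr {f g : M → N} {x : M} (h : LD V f x) (e : g =ᶠ[𝓝 x] f) : LD V g x := by
  obtain ⟨Φ, h1, h2⟩ := h
  obtain ⟨U, hU, hUo, hx⟩ := mem_nhds_iff.1 e
  exact LD.of_chart (Φ.toOpenPartialHomeomorph.restrOpen U hUo)
    (Φ.contMDiffOn_toFun.mono inter_subset_left) (Φ.contMDiffOn_invFun.mono inter_subset_left)
    ⟨h1, hx⟩ fun y hy => (hU hy.2).trans (h2 hy.1)

lemma LD.cmp {f : M → N} {x : M} (h : LD V f x) {g : N → P} (hg : LD V g (f x)) :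
    LD V (g ∘ f) x := IsLocalDiffeomorphAt.comp _ _ h hg

lemma LD.mdiff {f : M → N} {x : M} (h : LD V f x) : MDifferentiableAt 𝓘(ℝ, V) 𝓘(ℝ, V) f x :=
  h.mdifferentiableAt (by simp)

lemma LD.desc {f : M → N} {x : M} (h : LD V f x) {G : N → R}
    (hG : ContMDiffAt 𝓘(ℝ, V) 𝓘(ℝ, W) ∞ (G ∘ f) x) : ContMDiffAt 𝓘(ℝ, V) 𝓘(ℝ, W) ∞ G (f x) := by
  have h1 := h.localInverse_left_inv h.localInverse_mem_target
  refine (ContMDiffAt.comp (f x) (h1.symm ▸ hG) h.localInverse_contMDiffAt).congr_of_eventuallyEq ?_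
  filter_upwards [h.localInverse_eventuallyEq_right] with y hy
  exact (congrArg G hy).symm

lemma LD.of_comp {f : M → N} {x : M} (h : LD V f x) {g : N → P} (hg : LD V (g ∘ f) x) :
    LD V g (f x) := by
  have h1 := h.localInverse_left_inv h.localInverse_mem_target
  refine LD.congr (LD.cmp h.localInverse_isLocalDiffeomorphAt (g := g ∘ f) (h1.symm ▸ hg)) ?_
  filter_upwards [h.localInverse_eventuallyEq_right] with y hy
  exact (congrArg g hy).symm

lemma LD.lift {l : M → N} {x : M} (hl : ContinuousAt l x) {p : N → P} (hp : LD V p (l x))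
    (h : LD V (p ∘ l) x) : LD V l x := by
  refine LD.congr (h.cmp (g := hp.localInverse) hp.localInverse_isLocalDiffeomorphAt) ?_
  filter_upwards [hl.eventually hp.localInverse_eventuallyEq_left] with y hy
  exact hy.symm

lemma LD.det_ne {f : M → N} {x : M} (h : LD V f x) : (md V V f x).det ≠ 0 :=
  (h.mfderivToContinuousLinearEquiv (by simp)).toLinearEquiv.isUnit_det'.ne_zero

lemma LD.surj {f : M → N} {x : M} (h : LD V f x) : Surjective (md V V f x) :=
  (h.mfderivToContinuousLinearEquiv (by simp)).surjective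

section Quot

variable {G : Type} [Group G] [MulAction G M] [ProperlyDiscontinuousSMul G M]
  [ContinuousConstSMul G M] [IsCancelSMul G M] [T2Space M] [LocallyCompactSpace M]

variable (G) in
/-- The projection to the orbit space. -/
abbrev qm : M → MulAction.orbitRel.Quotient G M := Quotient.mk _

variable (G M) in
lemma qm_cov : IsCoveringMap (qm G : M → _) :=
  isQuotientCoveringMap_quotientMk_of_properlyDiscontinuousSMul.isCoveringMap

omit [TopologicalSpace M] [ProperlyDiscontinuousSMul G M]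
  [ContinuousConstSMul G M] [IsCancelSMul G M] [T2Space M] [LocallyCompactSpace M] in
lemma qm_eq {a b : M} : qm G a = qm G b ↔ ∃ g : G, g • b = a := Quotient.eq''

omit [TopologicalSpace M] [ProperlyDiscontinuousSMul G M]
  [ContinuousConstSMul G M] [IsCancelSMul G M] [T2Space M] [LocallyCompactSpace M] in
lemma qm_smul (g : G) (a : M) : qm G (g • a) = qm G a := qm_eq.2 ⟨g, rfl⟩

variable (G) in
/-- The local inverse of the projection. -/
noncomputable def qi (a : M) : OpenPartialHomeomorph (MulAction.orbitRel.Quotient G M) M :=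
  (qm_cov M G).isLocalHomeomorph.localInverseAt a

lemma qi_symm (a : M) : ⇑(qi G a).symm = qm G := IsLocalHomeomorph.localInverseAt_symm _ _

omit [NormedSpace ℝ V] in
lemma qm_chart (q : MulAction.orbitRel.Quotient G M) :
    ∃ a, qm G a = q ∧ chartAt V q = (qi G a).trans (chartAt V a) :=
  ⟨_, (Quotient.mk_surjective.hasRightInverse.choose_spec q), rfl⟩

lemma qi_loc {a b : M} (h : qm G b ∈ (qi G a).source) :
    ∃ g : G, qi G a ∘ qm G =ᶠ[𝓝 b] fun u => g • u := by
  have hc := (qm_cov M G).continuous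
  have h1 : ∀ q ∈ (qi G a).source, qm G (qi G a q) = q := fun q hq => by
    rw [← qi_symm a]; exact (qi G a).left_inv hq
  obtain ⟨g, hg⟩ := qm_eq.1 (h1 _ h)
  refine ⟨g, ?_⟩
  have h2 : (qi G a).target ∈ 𝓝 (g • b) := (qi G a).open_target.mem_nhds (hg ▸ (qi G a).map_source h)
  filter_upwards [hc.continuousAt.eventually ((qi G a).open_source.mem_nhds h),
    (continuous_const_smul g).continuousAt.eventually h2] with u h3 h4
  have := (qi G a).right_inv h4
  rwa [qi_symm, qm_smul] at this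

variable [IsManifold 𝓘(ℝ, V) ∞ M] (hs : ∀ g : G, ContMDiff 𝓘(ℝ, V) 𝓘(ℝ, V) ∞ fun u : M => g • u)
include hs

omit [IsManifold 𝓘(ℝ, V) ∞ M] in
lemma qi_qm {a b : M} (h : qm G b ∈ (qi G a).source) :
    ContMDiffAt 𝓘(ℝ, V) 𝓘(ℝ, V) ∞ (qi G a ∘ qm G) b := by
  obtain ⟨g, hg⟩ := qi_loc h
  exact (hs g b).congr_of_eventuallyEq hg

lemma qm_manifold : IsManifold 𝓘(ℝ, V) ∞ (MulAction.orbitRel.Quotient G M) := by
  refine isManifold_of_contDiffOn _ _ _ ?_
  rintro _ _ ⟨p, rfl⟩ ⟨q, rfl⟩
  simp only [modelWithCornersSelf_coe, modelWithCornersSelf_coe_symm, range_id, inter_univ,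
    preimage_id, id_comp, comp_id]
  set a := Quotient.mk_surjective.hasRightInverse.choose p
  set b := Quotient.mk_surjective.hasRightInverse.choose q
  rintro v ⟨⟨h1, -⟩, h2, h3⟩
  have e := qi_symm (G := G) a
  have h2' : qm G ((chartAt V a).symm v) ∈ (qi G b).source := e ▸ h2
  have h3' : qi G b (qm G ((chartAt V a).symm v)) ∈ (chartAt V b).source := e ▸ h3
  have h4 := ((contMDiffOn_chart (I := 𝓘(ℝ, V)) (n := ∞)).contMDiffAt
    ((chartAt V b).open_source.mem_nhds h3')).comp v ((qi_qm hs h2').comp v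
      (contMDiffOn_chart_symm.contMDiffAt ((chartAt V a).open_target.mem_nhds h1)))
  rw [← e] at h4
  exact h4.contDiffAt.contDiffWithinAt

lemma qm_ld (b : M) : LD V (qm G) b := by
  have h0 : ContMDiff 𝓘(ℝ, V) 𝓘(ℝ, V) ∞ (qm G : M → _) := fun u => by
    rw [contMDiffAt_iff_target]
    refine ⟨(qm_cov M G).continuous.continuousAt, ?_⟩
    obtain ⟨a, h1, h2⟩ := qm_chart (V := V) (qm G u)
    have h3 := mem_chart_source V (qm G u)
    rw [extChart_coe]
    rw [h2] at h3 ⊢
    exact ContMDiffAt.comp (g := chartAt V a) (f := qi G a ∘ qm G) u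
      (contMDiffOn_chart.contMDiffAt ((chartAt V a).open_source.mem_nhds h3.2)) (qi_qm hs h3.1)
  refine LD.of_chart (qi G b).symm ?_ (fun q hq => ?_)
    (IsLocalHomeomorph.self_mem_localInverseAt_target _) (by rw [qi_symm]; exact eqOn_refl _ _)
  · rw [qi_symm]; exact h0.contMDiffOn
  · refine ContMDiffAt.contMDiffWithinAt ?_
    rw [contMDiffAt_iff_source]
    obtain ⟨a, rfl, h2⟩ := qm_chart (V := V) q
    have h3 : qi G a (qm G a) = a := by
      rw [← qi_symm a]
      exact (qi G a).right_inv (IsLocalHomeomorph.self_mem_localInverseAt_target _)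
    simp only [extChartAt, h2, mfld_simps, contMDiffWithinAt_univ, qi_symm, h3]
    have h4 := (chartAt V a).left_inv (mem_chart_source V a)
    exact ContMDiffAt.comp (g := qi G b ∘ qm G) _ (h4.symm ▸ qi_qm hs hq)
      (contMDiffOn_chart_symm.contMDiffAt (chart_target_mem_nhds V a))

lemma qm_chart_md {q : MulAction.orbitRel.Quotient G M} {a b : M}
    (h2 : chartAt V q = (qi G a).trans (chartAt V a)) (hb : b ∈ (qi G a).target)
    (hb' : b ∈ (chartAt V a).source) :
    jd (extChartAt 𝓘(ℝ, V) q) (qm G b) * (md V V (qm G) b).det = jd (chartAt V a) b := by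
  have := qm_manifold hs
  have h3 : ∀ u ∈ (qi G a).target, qi G a (qm G u) = u := fun u hu => by
    rw [← qi_symm a]; exact (qi G a).right_inv hu
  have h4 : qm G b ∈ (chartAt V q).source := by
    rw [h2]
    refine ⟨?_, show qi G a (qm G b) ∈ _ by rwa [h3 b hb]⟩
    rw [← qi_symm a]; exact (qi G a).map_target hb
  rw [jd, ← det_comp', ← md_comp (mdifferentiableAt_extChartAt h4) (qm_ld hs b).mdiff, jd]
  congr 1
  refine md_congr ?_
  filter_upwards [(qi G a).open_target.mem_nhds hb] with u hu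
  simp [extChartAt, h2, h3 u hu]

lemma qm_det_pos (hd : ∀ (g : G) (a : M), 0 < (md V V (fun u : M => g • u) a).det) (b : M) :
    0 < (md V V (qm G) b).det := by
  have := qm_manifold hs
  obtain ⟨a, h1, h2⟩ := qm_chart (V := V) (qm G b)
  have h3 := qm_chart_md hs h2 (IsLocalHomeomorph.self_mem_localInverseAt_target _)
    (mem_chart_source V a)
  have h5 : (ContinuousLinearMap.id ℝ V).det = 1 := LinearMap.det_id
  rw [← h1, ← extChart_coe a, jd, jd, md_chart_self, md_chart_self, h5, one_mul] at h3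
  obtain ⟨g, rfl⟩ := qm_eq.1 h1
  have h4 : md V V (qm G) b = md V V (qm G ∘ fun u : M => g • u) b :=
    md_congr (Eventually.of_forall fun u => (qm_smul g u).symm)
  rw [h4, md_comp (qm_ld hs _).mdiff ((hs g b).mdifferentiableAt (by simp)), det_comp', h3, one_mul]
  exact hd g b

lemma qm_ori (hd : ∀ (g : G) (a : M), 0 < (md V V (fun u : M => g • u) a).det)
    (hM : ∀ a b : M, b ∈ (chartAt V a).source → 0 < jd (chartAt V a) b) :
    Ori V fun _ : MulAction.orbitRel.Quotient G M => (1 : ℝ) := by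
  refine ⟨fun _ => Or.inl rfl, fun q => ?_⟩
  obtain ⟨a, -, h2⟩ := qm_chart (V := V) q
  filter_upwards [chart_source_mem_nhds V q] with y hy
  rw [h2] at hy
  have h3 := qm_chart_md hs h2 ((qi G a).map_source hy.1) hy.2
  have h4 : qm G (qi G a y) = y := by rw [← qi_symm a]; exact (qi G a).left_inv hy.1
  rw [h4] at h3
  rw [one_mul, one_mul]
  exact (mul_pos_iff_of_pos_right (qm_det_pos hs hd _)).1 (h3 ▸ hM a _ hy.2)

end Quot

end Pool.Agent.Lib.MP_029589_gt
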