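import Pool.Agent.Lib.MP_029589_gt.Kit
import Pool.Agent.Lib.MP_029589_gt.Quo

/-! Riemannian metrics: existence, and comparison with charts. -/

set_option autoImplicit false

open scoped Manifold ContDiff Topology RealInnerProductSpace
open Set Filter Function Bundle

namespace Pool.Agent.Lib.MP_029589_gt

variable {n : ℕ} {X : Mfd n}

/-- The length of a tangent vector. -/
noncomputable def nrm (g : X.Metric) (x : X.M) (v : Euc n) : ℝ := √(g.inner x v v)

lemma nrm_nonneg (g : X.Metric) (x : X.M) (v : Euc n) : 0 ≤ nrm g x v := Real.sqrt_nonneg _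

lemma nrm_sq (g : X.Metric) (x : X.M) (v : Euc n) : nrm g x v ^ 2 = g.inner x v v := by
  refine Real.sq_sqrt ?_
  by_cases h : v = 0
  · subst h
    exact (map_zero (g.inner x (0 : Euc n))).ge
  · exact (g.pos x v h).le

lemma le_nrm_iff (g : X.Metric) (x : X.M) (v : Euc n) {a ε : ℝ} (ha : 0 ≤ a) (hε : 0 ≤ ε) :
    a ^ 2 ≤ ε ^ 2 * g.inner x v v ↔ a ≤ ε * nrm g x v := by
  rw [← nrm_sq, ← mul_pow, sq_le_sq₀ ha (mul_nonneg hε (nrm_nonneg g x v))]

theorem exists_metric (X : Mfd n) [CompactSpace X.M] : Nonempty X.Metric := by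
  obtain ⟨k, e, h1, -, h2⟩ := exists_embedding_euclidean_of_compact (I := 𝓡 n) (M := X.M)
  let T : X.M → Euc n →L[ℝ] Euc k := fun x => md (Euc n) (Euc k) e x
  refine ⟨⟨fun x => (innerSL ℝ (E := Euc k) : Euc k →L[ℝ] Euc k →L[ℝ] ℝ).bilinearComp (T x) (T x),
    fun x v w => real_inner_comm (T x w) (T x v), fun x v hv => ?_, fun x => ?_, fun x => ?_⟩⟩
  · exact real_inner_self_pos.2 fun h => hv (h2 x (h.trans (map_zero _).symm))
  · obtain ⟨K, -, hK⟩ := LinearMap.exists_antilipschitzWith (T x : Euc n →ₗ[ℝ] Euc k)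
      (LinearMap.ker_eq_bot.2 (h2 x))
    change Bornology.IsVonNBounded ℝ {v : Euc n | ⟪T x v, T x v⟫ < 1}
    refine (NormedSpace.isVonNBounded_closedBall ℝ (Euc n) K).subset fun v hv => ?_
    have h3 : ‖T x v‖ ≤ 1 := by
      rw [mem_ofPred_eq, real_inner_self_eq_norm_sq] at hv
      nlinarith [norm_nonneg (T x v)]
    have := hK.le_mul_norm (map_zero _) v
    rw [mem_closedBall_zero_iff]
    exact this.trans (mul_le_of_le_one_right K.2 h3)
  · rw [contMDiffAt_section]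
    have h3 := (h1 x).mfderiv_const (m := ∞) (by simp)
    set A := inTangentCoordinates (𝓡 n) (𝓡 k) id e (mfderiv (𝓡 n) (𝓡 k) e) x with hA
    have h4 : ContDiff ℝ ∞ fun B : Euc n →L[ℝ] Euc k =>
        (innerSL ℝ (E := Euc k) : Euc k →L[ℝ] Euc k →L[ℝ] ℝ).bilinearComp B B := by
      refine contDiff_clm_apply_iff.2 fun v => contDiff_clm_apply_iff.2 fun w => ?_
      simp only [ContinuousLinearMap.bilinearComp_apply, innerSL_apply_apply]
      exact ContDiff.inner ℝ (by fun_prop) (by fun_prop)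
    refine (h4.contMDiff.contMDiffAt.comp x h3).congr_of_eventuallyEq ?_
    filter_upwards [chart_source_mem_nhds (Euc n) x] with y hy
    ext v w
    rw [hom_trivializationAt_apply]
    simp only [comp]
    rw [inCoordinates_apply_eq₂ (by simpa using hy) (by simpa using hy) (by simp)]
    simp [hA, inTangentCoordinates, ContinuousLinearMap.inCoordinates, T, md,
      Trivialization.symmL_apply, hy]
    rfl

lemma met_loc (g : X.Metric) (x : X.M) : ∃ C > 0, ∀ᶠ y in 𝓝 x, ∀ v : Euc n,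
    ‖md (Euc n) (Euc n) (chartAt (Euc n) x) y v‖ ≤ C * nrm g y v ∧
      nrm g y v ≤ C * ‖md (Euc n) (Euc n) (chartAt (Euc n) x) y v‖ := by
  let : RiemannianBundle fun x : X.M => TangentSpace (𝓡 n) x := ⟨g.toRiemannianMetric⟩
  have : IsContinuousRiemannianBundle (Euc n) fun x : X.M => TangentSpace (𝓡 n) x :=
    ⟨g.inner, g.contMDiff.continuous, fun _ _ _ => rfl⟩
  obtain ⟨C, hC, h1⟩ :=
    eventually_norm_trivializationAt_lt (Euc n) (fun x : X.M => TangentSpace (𝓡 n) x) x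
  obtain ⟨D, hD, h2⟩ :=
    eventually_norm_symmL_trivializationAt_lt (Euc n) (fun x : X.M => TangentSpace (𝓡 n) x) x
  refine ⟨max C D, lt_max_of_lt_left hC, ?_⟩
  filter_upwards [h1, h2, chart_source_mem_nhds (Euc n) x] with y h3 h4 hy v
  have e1 : md (Euc n) (Euc n) (chartAt (Euc n) x) y v = (trivializationAt (Euc n)
      (fun x : X.M => TangentSpace (𝓡 n) x) x).continuousLinearMapAt ℝ y v := by
    rw [TangentBundle.continuousLinearMapAt_trivializationAt hy]; rfl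
  have e2 : ∀ w : TangentSpace (𝓡 n) y, ‖w‖ = nrm g y w := fun w => norm_eq_sqrt_real_inner w
  rw [e1, ← e2]
  constructor
  · exact (ContinuousLinearMap.le_opNorm _ _).trans
      (mul_le_mul_of_nonneg_right (h3.le.trans (le_max_left _ _)) (norm_nonneg _))
  · conv_lhs => rw [← (trivializationAt (Euc n) (fun x : X.M => TangentSpace (𝓡 n) x)
      x).symmL_continuousLinearMapAt (R := ℝ) (b := y) (by simpa using hy) v]
    exact (ContinuousLinearMap.le_opNorm _ _).trans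
      (mul_le_mul_of_nonneg_right (h4.le.trans (le_max_right _ _)) (norm_nonneg _))

variable {W U : Type} [NormedAddCommGroup W] [NormedSpace ℝ W] [NormedAddCommGroup U]
  [NormedSpace ℝ U]

lemma fderiv_bdd {f : U → W} {u : U} (h : ContDiffAt ℝ ∞ f u) :
    ∃ C > 0, ∀ᶠ y in 𝓝 u, ‖fderiv ℝ f y‖ ≤ C :=
  ⟨‖fderiv ℝ f u‖ + 1, by positivity, ((h.continuousAt_fderiv (by simp)).norm.eventually_lt
    continuousAt_const (lt_add_one _)).mono fun _ h => h.le⟩

lemma met_upper (g : X.Metric) {h : X.M → W} {x : X.M}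
    (hh : ∀ᶠ y in 𝓝 x, ContMDiffAt (𝓡 n) 𝓘(ℝ, W) ∞ h y) :
    ∃ C > 0, ∀ᶠ y in 𝓝 x, ∀ v, ‖md (Euc n) W h y v‖ ≤ C * nrm g y v := by
  obtain ⟨C, hC, h1⟩ := met_loc g x
  have hx := mem_chart_source (Euc n) x
  obtain ⟨D, hD, h2⟩ := fderiv_bdd (sm_chart hh.self_of_nhds hx)
  refine ⟨D * C, mul_pos hD hC, ?_⟩
  filter_upwards [h1, hh, chart_source_mem_nhds (Euc n) x,
    ((chartAt (Euc n) x).continuousAt hx).eventually h2] with y h3 h4 h5 h6 v
  rw [md_chart h4 h5, mul_assoc, ContinuousLinearMap.comp_apply]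
  exact (ContinuousLinearMap.le_opNorm _ _).trans
    (mul_le_mul h6 (h3 v).1 (norm_nonneg _) hD.le)

lemma met_lower (g : X.Metric) {k : U → X.M} {u : U}
    (hk : ∀ᶠ y in 𝓝 u, ContMDiffAt 𝓘(ℝ, U) (𝓡 n) ∞ k y) :
    ∃ C > 0, ∀ᶠ y in 𝓝 u, ∀ v, nrm g (k y) (md U (Euc n) k y v) ≤ C * ‖v‖ := by
  obtain ⟨C, hC, h1⟩ := met_loc g (k u)
  have hc := hk.self_of_nhds.continuousAt
  obtain ⟨D, hD, h2⟩ := fderiv_bdd (contMDiffAt_iff_contDiffAt.1
    ((cm_chart (mem_chart_source (Euc n) (k u))).comp u hk.self_of_nhds))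
  refine ⟨C * D, mul_pos hC hD, ?_⟩
  filter_upwards [hc.eventually h1, hk, hc.eventually (chart_source_mem_nhds (Euc n) (k u)), h2]
    with y h3 h4 h5 h6 v
  refine (h3 _).2.trans ?_
  rw [← ContinuousLinearMap.comp_apply, ← md_comp ((cm_chart h5).mdifferentiableAt (by simp))
    (h4.mdifferentiableAt (by simp)), md_eq_fderiv, mul_assoc]
  exact mul_le_mul_of_nonneg_left ((ContinuousLinearMap.le_opNorm _ _).trans
    (mul_le_mul_of_nonneg_right h6 (norm_nonneg _))) hC.le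

variable {Z : Type} [TopologicalSpace Z] [ChartedSpace (Euc n) Z] [IsManifold (𝓡 n) ∞ Z]

/-- Maps which are `ε`-Lipschitz for the metric pulled back by `ϖ`. -/
def Lip (g : X.Metric) (ϖ : Z → X.M) (ε : ℝ) (f : Z → W) : Prop :=
  ContMDiff (𝓡 n) 𝓘(ℝ, W) ∞ f ∧
    ∀ y v, ‖md (Euc n) W f y v‖ ≤ ε * nrm g (ϖ y) (md (Euc n) (Euc n) ϖ y v)

lemma osc_loc (g : X.Metric) {ϖ : Z → X.M} (hϖ : ContMDiff (𝓡 n) (𝓡 n) ∞ ϖ) (z : Z) :
    ∃ C, ∀ᶠ y in 𝓝 z, ∀ ε ≥ 0, ∀ f : Z → W, Lip g ϖ ε f → ‖f y - f z‖ ≤ C * ε := by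
  set c := chartAt (Euc n) z
  have hz := mem_chart_source (Euc n) z
  have h0 : ∀ u ∈ c.target, ContMDiffAt (𝓡 n) (𝓡 n) ∞ c.symm u := fun u hu =>
    contMDiffOn_chart_symm.contMDiffAt (c.open_target.mem_nhds hu)
  have ht := c.open_target.mem_nhds (c.map_source hz)
  obtain ⟨C, hC, h1⟩ := met_lower g (k := ϖ ∘ c.symm) (u := c z)
    (by filter_upwards [ht] with u hu using (hϖ _).comp u (h0 u hu))
  obtain ⟨r, hr, h2⟩ := Metric.mem_nhds_iff.1 (inter_mem h1 ht)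
  refine ⟨C * r, ?_⟩
  filter_upwards [c.open_source.mem_nhds hz, (c.continuousAt hz).eventually
    (Metric.ball_mem_nhds _ hr)] with y hy hy' ε hε f hf
  have h3 := (convex_ball (c z) r).norm_image_sub_le_of_norm_fderiv_le (𝕜 := ℝ) (f := f ∘ c.symm)
    (C := ε * C) (fun u hu => (contMDiffAt_iff_contDiffAt.1 ((hf.1 _).comp u
      (h0 u (h2 hu).2))).differentiableAt (by simp)) (fun u hu => ?_) (Metric.mem_ball_self hr) hy'
  · simp only [comp, c.left_inv hy, c.left_inv hz] at h3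
    have := mul_le_mul_of_nonneg_left (mem_ball_iff_norm.1 hy').le (mul_nonneg hε hC.le)
    linarith
  · have d := (h0 u (h2 hu).2).mdifferentiableAt (by simp)
    refine ContinuousLinearMap.opNorm_le_bound _ (mul_nonneg hε hC.le) fun v => ?_
    have h4 := (h2 hu).1 v
    rw [md_comp ((hϖ _).mdifferentiableAt (by simp)) d] at h4
    rw [← md_eq_fderiv, md_comp ((hf.1 _).mdifferentiableAt (by simp)) d, mul_assoc]
    exact (hf.2 _ _).trans (mul_le_mul_of_nonneg_left h4 hε)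

lemma osc_cpt [PreconnectedSpace Z] (g : X.Metric) {ϖ : Z → X.M}
    (hϖ : ContMDiff (𝓡 n) (𝓡 n) ∞ ϖ) {K : Set Z} (hK : IsCompact K) :
    ∃ C > 0, ∀ ε ≥ 0, ∀ f : Z → W, Lip g ϖ ε f → ∀ a ∈ K, ∀ b ∈ K, ‖f a - f b‖ ≤ C * ε := by
  let R : ℝ → Z → Z → Prop := fun C a b => ∀ ε ≥ 0, ∀ f : Z → W, Lip g ϖ ε f → ‖f b - f a‖ ≤ C * ε
  have tr : ∀ C D a b c, R C a b → R D b c → R (D + C) a c := fun C D a b c h1 h2 ε hε f hf => by
    rw [add_mul]
    exact (norm_sub_le_norm_sub_add_norm_sub _ (f b) _).trans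
      (add_le_add (h2 ε hε f hf) (h1 ε hε f hf))
  have sy : ∀ C a b, R C a b → R C b a := fun C a b h ε hε f hf => by
    rw [norm_sub_rev]; exact h ε hε f hf
  have mo : ∀ C D a b, C ≤ D → R C a b → R D a b := fun C D a b h h1 ε hε f hf =>
    (h1 ε hε f hf).trans (mul_le_mul_of_nonneg_right h hε)
  have rel : ∀ a b, ∃ C, R C a b := fun a b => by
    refine isPreconnected_univ.induction₂ (fun a b => ∃ C, R C a b) (fun b _ => ?_) ?_ ?_
      (mem_univ a) (mem_univ b)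
    · obtain ⟨C, hC⟩ := osc_loc (W := W) g hϖ b
      exact (hC.filter_mono nhdsWithin_le_nhds).mono fun c hc => ⟨C, hc⟩
    · rintro a b c - - - ⟨C, hC⟩ ⟨D, hD⟩
      exact ⟨_, tr _ _ _ _ _ hC hD⟩
    · rintro a b - - ⟨C, hC⟩
      exact ⟨C, sy _ _ _ hC⟩
  rcases K.eq_empty_or_nonempty with rfl | ⟨a, -⟩
  · exact ⟨1, one_pos, by simp⟩
  obtain ⟨C, hC⟩ : ∃ C, ∀ c ∈ K, R C a c := by
    refine hK.induction_on (p := fun L => ∃ C, ∀ c ∈ L, R C a c) ⟨0, by simp⟩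
      (fun s t hst ⟨C, hC⟩ => ⟨C, fun c hc => hC c (hst hc)⟩)
      (fun s t ⟨C, hC⟩ ⟨D, hD⟩ => ⟨max C D, fun c hc => hc.elim
        (fun h => mo _ _ _ _ (le_max_left _ _) (hC c h))
        fun h => mo _ _ _ _ (le_max_right _ _) (hD c h)⟩) fun b _ => ?_
    obtain ⟨C, hC⟩ := osc_loc (W := W) g hϖ b
    obtain ⟨D, hD⟩ := rel a b
    exact ⟨_, nhdsWithin_le_nhds hC, C + D, fun c hc => tr _ _ _ _ _ hD hc⟩
  exact ⟨max (C + C) 1, lt_max_of_lt_right one_pos, fun ε hε f hf b hb c hc =>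
    mo _ _ _ _ (le_max_left _ _) (tr _ _ _ _ _ (sy _ _ _ (hC c hc)) (hC b hb)) ε hε f hf⟩

end Pool.Agent.Lib.MP_029589_gt
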