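import Pool.Agent.Lib.MP_029589_gt.MzE

/-! The four-manifold. -/

set_option autoImplicit false

open scoped Manifold ContDiff Topology
open Set Filter Function Topology

namespace Pool.Agent.Lib.MP_029589_gt

namespace Mz

variable {γ : Rel → ℝ → Euc 4} {u : Euc 4}

lemma ld_solve {M N : Type} [TopologicalSpace M] [ChartedSpace (Euc 4) M] [TopologicalSpace N]
    [ChartedSpace (Euc 4) N] {e : M → N} {v : M} (h : LD (Euc 4) e v) (A : Euc 4 →L[ℝ] W5) :
    ∃ θ : Euc 4 →L[ℝ] W5, θ.comp (md (Euc 4) (Euc 4) e v) = A :=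
  ⟨A.comp (((md (Euc 4) (Euc 4) e v).toContinuousLinearEquivOfDetNeZero h.det_ne).symm :
      Euc 4 →L[ℝ] Euc 4),
    ContinuousLinearMap.ext fun w => congrArg A
      (((md (Euc 4) (Euc 4) e v).toContinuousLinearEquivOfDetNeZero h.det_ne).symm_apply_apply w)⟩

lemma kap_ninj {j : Fin 3} (h : u j.castSucc ∈ Pl) : ¬Injective (fderiv ℝ kap u) := fun hi => by
  obtain ⟨m, hm⟩ := h
  have h1 := fderiv_line (eqv_kap.1.differentiable (by simp) u)
    (v := EuclideanSpace.single j.castSucc 1) ((hasDerivAt_const (0 : ℝ) (kap u)).congr_of_eventuallyEq (by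
      have : Tendsto (fun t : ℝ => u j.castSucc + t) (𝓝 0) (𝓝 (u j.castSucc)) := by
        simpa using (continuous_const.add continuous_id).tendsto (0 : ℝ) (f := fun t : ℝ =>
          u j.castSucc + t)
      filter_upwards [this.eventually (stair_loc hm)] with t ht
      rw [← show stair (u j.castSucc) = m from (stair_loc hm).self_of_nhds] at ht
      ext k
      fin_cases j <;> fin_cases k <;> first | (simp [kap]; done) | simpa [kap] using ht))
  rw [← map_zero (fderiv ℝ kap u)] at h1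
  simpa using congrArg (fun v : Euc 4 => v j.castSucc) (hi h1)

lemma rho_ninj (h : Loops γ) {l : Rel} (hu : qL γ l u ≤ 4) :
    ¬Injective (fderiv ℝ (rho γ 1) u) := by
  obtain ⟨m, hm⟩ := rho_loc h (hu.trans_lt (by norm_num))
  rw [hm.fderiv_eq]
  exact not_inj (C := ℝ) (by simp) (by fun_prop)
    (((h.sm l).differentiable (by simp) _).add_const _) (.id ℝ _)

lemma pl_per (t : ℝ) (m : ℤ) : t + m ∈ Pl ↔ t ∈ Pl :=
  ⟨fun ⟨a, h⟩ => ⟨a - m, by push_cast; rwa [← sub_add, sub_add_eq_add_sub]⟩,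
    fun ⟨a, h⟩ => ⟨a + m, by push_cast; rwa [add_sub_add_right_eq_sub]⟩⟩

lemma std_sign (J : (Euc 4 × ℝ) ≃L[ℝ] W5) : ∃ c : ℝ, c ≠ 0 ∧
    ∀ u, SignType.sign (c * fd J (stdF u) (0, ee (u 3))) = 1 := by
  have h0 : ∀ u, fd J (stdF u) (0, ee (u 3)) ≠ 0 := fun u => fd_ne J fun v c e =>
    nondeg_std one_pos v c (by rwa [one_smul])
  have h1 : Continuous fun u => SignType.sign (fd J (stdF u) (0, ee (u 3))) :=
    continuous_iff_continuousAt.2 fun u => (continuousAt_sign_of_ne_zero (h0 u)).comp_of_eq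
      (fd_cont J contDiff_stdF.continuous.continuousAt (contDiff_const.prodMk (contDiff_ee.comp
        (f := fun u : Euc 4 => u 3) (by fun_prop))).continuous.continuousAt) rfl
  refine ⟨_, h0 0, fun u => ?_⟩
  rw [sign_mul, PreconnectedSpace.constant inferInstance h1 (x := 0) (y := u), ← sign_mul,
    sign_pos (mul_self_pos.2 (h0 u))]

variable (G : Gl γ) (h : Loops γ)
include h

lemma Gl.exists_fr {B : Euc 4 → Euc 4 →L[ℝ] W5} {ν0 : Euc 4 → W5}
    (h1 : ∀ u a, B (u + lat a) = B u ∧ ν0 (u + lat a) = ν0 u)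
    (h2 : ∀ k u, (∀ k, 1 < qq γ k u) → qq γ k u < 2 →
      B u = fderiv ℝ (JJ γ k) u ∧ ν0 u = nn k (JJ γ k u)) :
    ∃ (θ : G.Y → Euc 4 →L[ℝ] W5) (ν : G.Y → W5), (∀ u, (∀ k, 1 < qq γ k u) →
      (θ (G.i (qm Lat u))).comp (md (Euc 4) (Euc 4) (G.i ∘ qm Lat) u) = B u ∧
        ν (G.i (qm Lat u)) = ν0 u) ∧ ∀ k p, QQ k p.1 < 2 →
      (θ (G.e k p)).comp (md (Euc 4) (Euc 4) (G.e k) p) = LS.tan p ∧ ν (G.e k p) = nn k p.1 := by
  have key : ∀ y, ∃ (θ : Euc 4 →L[ℝ] W5) (ν : W5), (∀ u, (∀ k, 1 < qq γ k u) →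
      G.i (qm Lat u) = y → θ.comp (md (Euc 4) (Euc 4) (G.i ∘ qm Lat) u) = B u ∧ ν = ν0 u) ∧
      ∀ k p, QQ k p.1 < 2 → G.e k p = y →
        θ.comp (md (Euc 4) (Euc 4) (G.e k) p) = LS.tan p ∧ ν = nn k p.1 := fun y => by
    by_cases h3 : ∃ u, (∀ k, 1 < qq γ k u) ∧ G.i (qm Lat u) = y
    · obtain ⟨u, a, rfl⟩ := h3
      obtain ⟨θ, b⟩ := ld_solve (G.jld h a) (B u)
      refine ⟨θ, ν0 u, fun v c d => ?_, fun k p c d => ?_⟩
      · obtain ⟨m, rfl⟩ := G.jinj h c a d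
        have e : (G.i ∘ qm Lat) ∘ (fun w => w + lat m) = G.i ∘ qm Lat :=
          funext fun w => congrArg G.i (tt_eq.2 ⟨m, rfl⟩)
        have f := md_comp (f := fun w => w + lat m) (x := u) (G.jld h c).mdiff
          (differentiableAt_id.add_const _).mdifferentiableAt
        rw [e, md_eq_fderiv, fderiv_add_const, fderiv_fun_id, ContinuousLinearMap.comp_id] at f
        rw [← f, (h1 u m).1, (h1 u m).2]
        exact ⟨b, rfl⟩
      · have c' : QQ k p.1 < 4 := c.trans (by norm_num)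
        obtain ⟨e, f⟩ := (G.rel k u p a c').1 d.symm
        obtain rfl : rr k (JJ γ k u) = p := by rw [f, rr_self]
        obtain ⟨g1, g2⟩ := h2 k u a ((G.jrr h a e).1 ▸ c)
        have g3 : G.i ∘ qm Lat =ᶠ[𝓝 u] G.e k ∘ rr k ∘ JJ γ k := by
          filter_upwards [ev_all h a, ev_q h (a k) e] with w w1 w2 using (G.jrr h w1 w2.2).2
        rw [md_congr g3, md_comp (f := rr k ∘ JJ γ k) (G.eld k _ c').mdiff
          (J_ld h (a k) e).mdiff, g1,
          ← (J_md h (a k) e).2] at b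
        refine ⟨ContinuousLinearMap.ext fun w => ?_, by rw [g2, ← f]⟩
        obtain ⟨w, rfl⟩ := (J_ld h (a k) e).surj w
        exact DFunLike.congr_fun b w
    · obtain ⟨k, p, a, rfl⟩ := (G.sur y).resolve_left h3
      obtain ⟨θ, b⟩ := ld_solve (G.eld k p a) (LS.tan p)
      refine ⟨θ, nn k p.1, fun u c d => (h3 ⟨u, c, d⟩).elim, fun k' p' c d => ?_⟩
      have c' : QQ k' p'.1 < 4 := c.trans (by norm_num)
      obtain rfl := G.dis _ _ _ _ c' a d
      obtain rfl := G.einj _ c' a d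
      exact ⟨b, rfl⟩
  choose θ ν h3 h4 using key
  exact ⟨θ, ν, fun u a => h3 _ u a rfl, fun k p a => h4 _ k p a rfl⟩

end Mz

open Mz in
theorem exists_model4 : ∃ (X : Mfd 4) (o : X.M → ℝ) (Φ : X.M → BB) (θ : X.M → Euc 4 →L[ℝ] W5)
    (ν : X.M → W5), CompactSpace X.M ∧ Ori (Euc 4) o ∧ IsModel X o Φ ∧ Framed W5 X θ ν := by
  obtain ⟨γ, h, h'⟩ := exists_loops
  obtain ⟨G⟩ := exists_gl h
  obtain ⟨c, Φ, H⟩ := G.exists_ph h h'
  have := H.connected
  obtain ⟨B, ν0, b1, b2⟩ := exists_frame h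
  have b3 := fun u (a : ∀ k, 1 < qq γ k u) => b2 u (fun i => a (.inr i)) fun l => a (.inl l)
  obtain ⟨θ, ν, t1, t2⟩ := G.exists_fr h b1 fun k u a => by
    cases k
    exacts [(b3 u a).2.2.2.1 _, (b3 u a).2.2.2.2.1 _]
  let X : Mfd 4 := ⟨G.Y⟩
  have f1 : ∀ x : G.Y, (ContMDiffAt (𝓡 4) 𝓘(ℝ, W5) ∞ ν x ∧ ∃ B : G.Y → Euc 4 →L[ℝ] W5,
      ∀ᶠ y in 𝓝 x, ContMDiffAt (𝓡 4) 𝓘(ℝ, Euc 4 →L[ℝ] W5) ∞ B y ∧
        θ y = (B y).comp (md (Euc 4) (Euc 4) (chartAt (Euc 4) x) y)) ∧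
      ∀ v (c : ℝ), θ x v + c • ν x = 0 → v = 0 ∧ c = 0 := fun x => by
    rcases G.cases h one_lt_two (by norm_num) x with ⟨u, a, rfl⟩ | ⟨k, p, a, rfl⟩
    · have a' : ∀ k, 1 < qq γ k u := fun k => one_lt_two.trans_le (a k)
      refine ⟨frame_desc (G.jld h a') (f := id) (A := B) ((ev_all h a').mono fun v b =>
        ⟨contMDiffAt_id, (b3 v b).1.contMDiffAt, (b3 v b).2.1.contMDiffAt.congr_of_eventuallyEq
          ((ev_all h b).mono fun w d => (t1 w d).2), by rw [md_id]; exact (t1 v b).1⟩),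
        fun v c e => ?_⟩
      obtain ⟨w, rfl⟩ := (G.jld h a').surj v
      rw [← ContinuousLinearMap.comp_apply, (t1 u a').1, (t1 u a').2] at e
      obtain ⟨rfl, e'⟩ := (b3 u a').2.2.1 w c e
      exact ⟨map_zero _, e'⟩
    · have a' := G.eld k p (a.trans (by norm_num))
      refine ⟨frame_desc a' (f := Subtype.val) (A := fun _ => .id ℝ W5) (eventually_of_mem
        ((isOpen_Q k 2).mem_nhds a) fun q b => ⟨LS.contMDiff_val q, contMDiffAt_const,
          ((contDiff_nn k).contMDiff.contMDiffAt.comp q (LS.contMDiff_val q)).congr_of_eventuallyEq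
            (eventually_of_mem ((isOpen_Q k 2).mem_nhds b) fun w d => (t2 k w d).2),
          (t2 k q b).1⟩), fun v c e => ?_⟩
      obtain ⟨w, rfl⟩ := a'.surj v
      rw [← ContinuousLinearMap.comp_apply, (t2 k p a).1, (t2 k p a).2] at e
      have e1 := congrArg (fderiv ℝ (ps k) p.1) e
      rw [map_add, map_smul, map_zero, show fderiv ℝ (ps k) p.1 (LS.tan p w) = 0 from
        (LS.amb_tan p w).2, zero_add] at e1
      obtain rfl : c = 0 := (mul_eq_zero.1 e1).resolve_right (ps_nu p.2)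
      rw [zero_smul, add_zero] at e
      rw [← (LS.amb_tan p w).1, e, map_zero, map_zero]
      exact ⟨rfl, rfl⟩
  have fr : Framed W5 X θ ν := ⟨fun x => (f1 x).1.1, fun x => (f1 x).1.2, fun x => (f1 x).2⟩
  let J : (Euc 4 × ℝ) ≃L[ℝ] W5 := .ofFinrankEq (by simp [Module.finrank_prod])
  obtain ⟨s, s1, s2⟩ := std_sign J
  have hρ := contDiff_rho1 h
  have hU : ∀ u, (∀ j : Fin 3, rho γ 1 u j.castSucc ∉ Pl) → (∀ l, 4 < qL γ l u) →
      ∀ k, 4 ≤ qq γ k u := fun u a b => Sum.rec (fun l => (b l).le) fun i => not_lt.1 fun d => by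
    have d' : qK i u < 6 := lt_trans d (by norm_num)
    obtain ⟨m, hm⟩ := Bx_pl (mem_Bx d')
    rw [rho_far fun l => not_lt.1 fun e => (h.av l i u e).not_gt d'] at a
    exact a 0 ⟨m 0, hm 0⟩
  have h14 : ∀ {u}, (∀ k, 4 ≤ qq γ k u) → ∀ k, 1 < qq γ k u := fun a k =>
    lt_of_lt_of_le (by norm_num) (a k)
  refine ⟨X, _, Φ, θ, ν, G.compact h, ori_of_framed fr J s1, ⟨H.lift, H.conn,
    fun _ _ _ => H.triv h', {u | (∀ j : Fin 3, rho γ 1 u j.castSucc ∉ Pl) ∧ ∀ l, 4 < qL γ l u},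
    G.i ∘ qm Lat, kap ∘ rho γ 1, ?_, ⟨eqv_kap.1.comp hρ, fun u a => ?_⟩, fun u a => ?_,
    fun u a => congrArg G.i (tt_eq.2 ⟨a, rfl⟩), fun u hu => ?_,
    fun u a v b e => G.jinj h (h14 (hU v b.1 b.2)) (h14 (hU u a.1 a.2)) e.symm, fun u hu e => ?_,
    fun x hx => ?_⟩, fr⟩
  · have := hρ.continuous
    refine IsOpen.and ?_ ?_ <;> rw [ofPred_forall]
    · exact isOpen_iInter_of_finite fun j => isClosed_Pl.isOpen_compl.preimage
        (f := fun u => rho γ 1 u j.castSucc) (by fun_prop)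
    · exact isOpen_iInter_of_finite fun l => isOpen_lt continuous_const (h.continuous_qL l)
  · rw [comp, rho_per h, eqv_kap.2]
    rfl
  · simp only [mem_ofPred_eq, rho_per h, h.qL_per, PiLp.add_apply, lat_apply, pl_per]
  · have a := hU u hu.1 hu.2
    have a' := h14 a
    refine ⟨G.jld h a', ?_, (H.ext u (fun i => a' (.inr i)) fun l =>
      le_trans (by norm_num) (a (.inl l))).trans (congrArg _ (dev_off ⟨0, hu.1 0⟩))⟩
    obtain ⟨d, e⟩ := (b3 u a').2.2.2.2.2 (fun i => a (.inr i)) fun l => a (.inl l)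
    have f := s2 u
    rw [← d, ← show B u = stdF u from ContinuousLinearMap.ext fun v =>
      (e v).trans (stdF_apply u v).symm, ← (t1 u a').1, ← (t1 u a').2, fd_comp, ← mul_assoc,
      sign_mul] at f
    exact (SignType.coe_mul _ _).symm.trans (by rw [← SignType.coe_one, ← f]; rfl)
  · obtain ⟨e1, e2⟩ := inj_both (hρ.differentiable (by simp) u)
      (eqv_kap.1.differentiable (by simp) _) e
    exact hu ⟨fun j a => kap_ninj a e1, fun l => not_le.1 fun a => rho_ninj h a e2⟩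
  · rcases G.cases h (by norm_num) le_rfl x with ⟨u, a, rfl⟩ | ⟨k, p, a, rfl⟩
    · obtain ⟨Φ', d, e⟩ := H.lift_i a
      exact ⟨Φ', d, fun f => hx ⟨u, ⟨(e f).1, fun l => not_le.1 fun a => rho_ninj h a (e f).2⟩, rfl⟩⟩
    · exact H.lift_e a

end Pool.Agent.Lib.MP_029589_gt
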