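import Pool.Agent.Lib.MP_029589_gt.MonoE

/-! JOB G: the loops and the monodromy. -/

set_option autoImplicit false

open scoped Manifold ContDiff Topology
open Set Filter Function Topology

namespace Pool.Agent.Lib.MP_029589_gt

theorem precon_dev : IsPreconnected {z : TT × GR | z.1 ∈ BK ∧ ph0 z.1 = qm Gf z.2} :=
  precon_moT

theorem exists_loops : ∃ γ, Loops γ ∧ Relators γ :=
  ⟨moG, loops_moG, lift_moG, fun _ _ _ _ _ _ cov hφ hl => mono_moG cov hφ hl⟩

end Pool.Agent.Lib.MP_029589_gt
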