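import Pool.Agent.Lib.MP_029589_gt.Geo2

/-! The complement of the discs, the cylinders around the discs, and the developing map on them. -/

set_option autoImplicit false

open scoped Manifold ContDiff Topology Matrix
open Set Filter Function Topology

namespace Pool.Agent.Lib.MP_029589_gt

lemma mo_fr {t c : ℝ} (m : ℤ) (h : 20000 * t = c + 20000 * m) (h1 : -10000 < c) (h2 : c < 10000) :
    fr t = c := by
  have : round t = m := round_eq_iff.2 ⟨by linarith, by linarith⟩
  rw [fr, this]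
  linarith

lemma mo_fr_spec (t : ℝ) : ∃ m : ℤ, 20000 * t = fr t + 20000 * m := ⟨round t, by rw [fr]; ring⟩

lemma mo_fr_le (t : ℝ) (m : ℤ) : fr t ^ 2 ≤ (20000 * (t - m)) ^ 2 := by
  have := sq_le_sq.2 (round_le t m)
  rw [fr]
  nlinarith

/-- The complement of the tubes, upstairs. -/
def moB : Set (Euc 4) := {u | ∀ i, 1 < qK i u}

/-- The complement of the tubes and of the discs. -/
def moD : Set (Euc 4) := {u | ∀ i, 1 < qK i u ∧ (n2 i u = 0 → 0 ≤ n1 u)}

/-- The cylinder around a disc. -/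
def moU (i : Fin 9) : Set (Euc 4) :=
  {u | (20000 * u 0) ^ 2 + (20000 * u 1) ^ 2 < 359999 ∧ |20000 * u 2 - 1000 * (i : ℕ)| < 600}

/-- The two halves of the cylinder. -/
def moH (i : Fin 9) (b : Bool) : Set (Euc 4) :=
  moU i ∩ {u | if b then 1000 * ((i : ℕ) : ℝ) < 20000 * u 2 else 20000 * u 2 < 1000 * (i : ℕ)}

lemma moD_sub : moD ⊆ moB := fun _ h i => (h i).1

lemma mo_BK (u : Euc 4) : qm Lat u ∈ BK ↔ u ∈ moB :=
  forall_congr' fun i => by rw [dn_qm (qK_per i)]

lemma moD_per (u : Euc 4) (a : Fin 4 → ℤ) : u + lat a ∈ moD ↔ u ∈ moD := by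
  simp only [moD, mem_setOf_eq, qK_per, n1_per, n2_per]

lemma moB_per (u : Euc 4) (a : Fin 4 → ℤ) : u + lat a ∈ moB ↔ u ∈ moB := by
  simp only [moB, mem_setOf_eq, qK_per]

lemma moD_of_n1 {u : Euc 4} (h : 1 < n1 u) : u ∈ moD := fun i =>
  ⟨by rw [qK]; nlinarith [sq_nonneg (n2 i u)], fun _ => by linarith⟩

lemma moD_of_n2 {u : Euc 4} (h : ∀ i, 1 < n2 i u ^ 2) : u ∈ moD := fun i =>
  ⟨by rw [qK]; nlinarith [sq_nonneg (n1 u), h i], fun h0 => by
    have := h i
    rw [h0] at this
    norm_num at this⟩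

lemma mo_cont_n2_sq (i : Fin 9) : Continuous fun u => n2 i u ^ 2 := by
  simp only [n2, mul_pow]
  exact continuous_const.mul (continuous_fr_sq.comp (by fun_prop))

lemma isOpen_moB : IsOpen moB := by
  rw [moB, setOf_forall]
  exact isOpen_iInter_of_finite fun i => isOpen_lt continuous_const (continuous_qK i)

lemma isOpen_moD : IsOpen moD := by
  have : moD = ⋂ i, ({u | 1 < qK i u} ∩ ({u | 0 < n2 i u ^ 2} ∪ {u | 0 < n1 u})) := by
    ext u
    simp only [moD, mem_setOf_eq, mem_iInter, mem_inter_iff, mem_union]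
    refine forall_congr' fun i => and_congr_right fun h => ⟨fun h1 => ?_, fun h1 h2 => ?_⟩
    · by_cases h2 : n2 i u = 0
      · rw [qK, h2] at h
        exact Or.inr (lt_of_le_of_ne (h1 h2) fun h3 => by rw [← h3] at h; norm_num at h)
      · exact Or.inl (by positivity)
    · rcases h1 with h1 | h1
      · rw [h2] at h1
        norm_num at h1
      · exact h1.le
  rw [this]
  exact isOpen_iInter_of_finite fun i => (isOpen_lt continuous_const (continuous_qK i)).inter
    ((isOpen_lt continuous_const (mo_cont_n2_sq i)).union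
      (isOpen_lt continuous_const continuous_n1))

lemma isOpen_moU (i : Fin 9) : IsOpen (moU i) := by
  rw [moU, setOf_and]
  exact (isOpen_lt (by fun_prop) continuous_const).inter (isOpen_lt (by fun_prop) continuous_const)

lemma convex_moU (i : Fin 9) : Convex ℝ (moU i) := by
  rintro u ⟨h1, h2⟩ v ⟨h3, h4⟩ a b ha hb hab
  obtain rfl : b = 1 - a := by linarith
  rw [abs_lt] at h2 h4
  simp only [moU, mem_setOf_eq, PiLp.add_apply, PiLp.smul_apply, smul_eq_mul, abs_lt]
  rcases ha.eq_or_lt with rfl | ha'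
  · simpa only [zero_mul, sub_zero, one_mul, zero_add] using ⟨h3, h4⟩
  refine ⟨?_, ?_, ?_⟩
  · nlinarith [mul_nonneg (mul_nonneg ha hb) (sq_nonneg (20000 * u 0 - 20000 * v 0)),
      mul_nonneg (mul_nonneg ha hb) (sq_nonneg (20000 * u 1 - 20000 * v 1)),
      mul_pos ha' (sub_pos.2 h1), mul_nonneg hb (sub_pos.2 h3).le]
  · nlinarith [mul_pos ha' (sub_pos.2 h2.1), mul_nonneg hb (sub_pos.2 h4.1).le]
  · nlinarith [mul_pos ha' (sub_pos.2 h2.2), mul_nonneg hb (sub_pos.2 h4.2).le]

lemma mo_lin (c : ℝ) (j : Fin 4) : IsLinearMap ℝ fun u : Euc 4 => c * u j :=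
  ⟨fun u v => by simp [mul_add], fun a u => by simp [mul_left_comm]⟩

lemma convex_moH (i : Fin 9) (b : Bool) : Convex ℝ (moH i b) := by
  refine (convex_moU i).inter ?_
  cases b
  · exact convex_halfSpace_lt (mo_lin 20000 2) _
  · exact convex_halfSpace_gt (mo_lin 20000 2) _

lemma moH_nonempty (i : Fin 9) (b : Bool) : (moH i b).Nonempty := by
  refine ⟨WithLp.toLp 2 ![0, 0, (1000 * (i : ℕ) + if b then 500 else -500) / 20000, 0], ⟨?_, ?_⟩, ?_⟩
  · simp
  · cases b <;> simp <;> rw [abs_lt] <;> constructor <;> linarith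
  · cases b <;> simp <;> linarith

lemma mo_fin (i : Fin 9) : 0 ≤ ((i : ℕ) : ℝ) ∧ ((i : ℕ) : ℝ) ≤ 8 :=
  ⟨Nat.cast_nonneg _, by exact_mod_cast Nat.lt_succ_iff.1 i.2⟩

lemma moU_n1 {i : Fin 9} {u : Euc 4} (h : u ∈ moU i) :
    n1 u = (20000 * u 0) ^ 2 + (20000 * u 1) ^ 2 - 360000 := by
  have h1 := h.1
  rw [n1, mo_fr (c := 20000 * u 0) 0 (by simp) (by nlinarith [sq_nonneg (u 1)])
    (by nlinarith [sq_nonneg (u 1)]), mo_fr (c := 20000 * u 1) 0 (by simp)
    (by nlinarith [sq_nonneg (u 0)]) (by nlinarith [sq_nonneg (u 0)])]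

lemma moU_n1' {i : Fin 9} {u : Euc 4} (h : u ∈ moU i) : n1 u < -1 := by
  rw [moU_n1 h]
  linarith [h.1]

lemma moU_n2 {i : Fin 9} {u : Euc 4} (h : u ∈ moU i) (j : Fin 9) :
    n2 j u = 1000 * (20000 * u 2 - 1000 * (j : ℕ)) := by
  have h2 := abs_lt.1 h.2
  have := mo_fin i
  have := mo_fin j
  rw [n2, mo_fr (c := 20000 * u 2 - 1000 * (j : ℕ)) 0 (by simp; ring) (by linarith) (by linarith)]

lemma moU_sub (i : Fin 9) : moU i ⊆ moB := fun u h j => by
  rw [qK]
  nlinarith [moU_n1' h, sq_nonneg (n2 j u)]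

lemma moU_far {i j : Fin 9} {u : Euc 4} (h : u ∈ moU i) (hij : j ≠ i) :
    n2 j u < -400000 ∨ 400000 < n2 j u := by
  have h2 := abs_lt.1 h.2
  rw [moU_n2 h]
  rcases lt_or_gt_of_ne (Fin.val_ne_of_ne hij) with h3 | h3
  · have : ((j : ℕ) : ℝ) + 1 ≤ (i : ℕ) := by exact_mod_cast h3
    exact Or.inr (by linarith)
  · have : ((i : ℕ) : ℝ) + 1 ≤ (j : ℕ) := by exact_mod_cast h3
    exact Or.inl (by linarith)

lemma moU_moD {i : Fin 9} {u : Euc 4} (h : u ∈ moU i) :
    u ∈ moD ↔ 20000 * u 2 ≠ 1000 * (i : ℕ) := by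
  refine ⟨fun h1 h2 => ?_, fun h1 j => ⟨moU_sub i h j, fun h2 => ?_⟩⟩
  · have := (h1 i).2 (by rw [moU_n2 h, h2]; ring)
    linarith [moU_n1' h]
  · by_cases hj : j = i
    · rw [moU_n2 h, hj] at h2
      exact absurd (by linarith) h1
    · rcases moU_far h hj with h3 | h3 <;> linarith

lemma moH_sub (i : Fin 9) (b : Bool) : moH i b ⊆ moD := by
  rintro u ⟨h1, h2⟩
  rw [moU_moD h1]
  cases b
  · exact ne_of_lt h2
  · exact ne_of_gt h2

lemma moU_cases {i : Fin 9} {u : Euc 4} (h : u ∈ moU i) (h' : u ∈ moD) :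
    u ∈ moH i false ∨ u ∈ moH i true :=
  (lt_or_gt_of_ne ((moU_moD h).1 h')).imp (fun h1 => ⟨h, h1⟩) fun h1 => ⟨h, h1⟩

lemma moU_dense (i : Fin 9) : moU i ⊆ closure (moU i ∩ moD) := by
  have h1 : Dense {u : Euc 4 | 20000 * u 2 ≠ 1000 * (i : ℕ)} := by
    have h2 : IsOpenMap (EuclideanSpace.proj (𝕜 := ℝ) (2 : Fin 4)) :=
      ContinuousLinearMap.isOpenMap _ fun c => ⟨WithLp.toLp 2 fun _ => c, rfl⟩
    refine ((dense_compl_singleton ((i : ℕ) / 20 : ℝ)).preimage h2).mono fun u hu h => ?_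
    exact hu (show u 2 = _ by linarith)
  refine (h1.open_subset_closure_inter (isOpen_moU i)).trans (closure_mono fun u hu => ?_)
  exact ⟨hu.1, (moU_moD hu.1).2 hu.2⟩

lemma moB_cases {u : Euc 4} (h : u ∈ moB) : u ∈ moD ∨ ∃ i a, ∃ v ∈ moU i, u = v + lat a := by
  by_cases hD : u ∈ moD
  · exact Or.inl hD
  obtain ⟨i, hi⟩ := not_forall.1 hD
  rw [not_and, Classical.not_imp] at hi
  obtain ⟨h1, h2⟩ := hi (h i)
  have h3 := h i
  rw [qK, h1] at h3
  have h4 : n1 u < -1 := by nlinarith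
  refine Or.inr ⟨i, ![round (u 0), round (u 1), round (u 2 - (i : ℕ) / 20), 0],
    u - lat ![round (u 0), round (u 1), round (u 2 - (i : ℕ) / 20), 0], ⟨?_, ?_⟩, by simp⟩
  · simp only [n1, fr] at h4
    simp only [PiLp.sub_apply, lat_apply, Matrix.cons_val]
    linarith
  · simp only [n2, fr] at h1
    simp only [PiLp.sub_apply, lat_apply, Matrix.cons_val]
    rw [abs_lt]
    constructor <;> linarith

lemma mo_jmp_zero {a b : ℝ} (h : b ≤ 0 ∨ -a ≤ b) : jmp a b = 0 := by
  rw [jmp]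
  split_ifs with hb
  · refine Real.smoothTransition.zero_of_nonpos (sub_nonpos.2 ((div_le_one hb).2 ?_))
    exact h.resolve_left hb.not_ge
  · rfl

lemma mo_cont_jmp {w : ℝ × ℝ} (h : w.2 = 0 → 0 < w.1) :
    ContinuousAt (fun v : ℝ × ℝ => jmp v.1 v.2) w := by
  rcases lt_trichotomy w.2 0 with hb | hb | hb
  · refine (continuousAt_const (y := (0 : ℝ))).congr ?_
    filter_upwards [continuous_snd.continuousAt.eventually (gt_mem_nhds hb)] with v hv
    exact (mo_jmp_zero (Or.inl hv.le)).symm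
  · refine (continuousAt_const (y := (0 : ℝ))).congr ?_
    have : ∀ᶠ v in 𝓝 w, 0 < v.1 + v.2 :=
      (continuous_fst.add continuous_snd).continuousAt.eventually
        (lt_mem_nhds (by simpa [hb] using h hb))
    filter_upwards [this] with v hv
    exact (mo_jmp_zero (Or.inr (by linarith))).symm
  · have h1 : ContinuousAt (fun v : ℝ × ℝ => Real.smoothTransition (-v.1 / v.2 - 1)) w :=
      Real.smoothTransition.continuousAt.comp
        ((continuousAt_fst.neg.div continuousAt_snd hb.ne').sub continuousAt_const)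
    refine h1.congr ?_
    filter_upwards [continuous_snd.continuousAt.eventually (lt_mem_nhds hb)] with v hv
    exact (if_pos hv).symm

lemma mo_n1_ge (u : Euc 4) : -360000 ≤ n1 u := by
  rw [n1]
  nlinarith [sq_nonneg (fr (u 0)), sq_nonneg (fr (u 1))]

lemma mo_cont_jmp_dev (i : Fin 9) {u : Euc 4} (h : u ∈ moD) :
    ContinuousAt (fun v => jmp (n1 v) (n2 i v)) u := by
  rcases lt_or_ge (360000 ^ 2) (n2 i u ^ 2) with h1 | h1
  · refine (continuousAt_const (y := (0 : ℝ))).congr ?_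
    filter_upwards [(mo_cont_n2_sq i).continuousAt.eventually (lt_mem_nhds h1)] with v hv
    refine (mo_jmp_zero ?_).symm
    by_contra h2
    rw [not_or, not_le, not_le] at h2
    nlinarith [mo_n1_ge v]
  · have h2 : |fr (u 2 - (i : ℕ) / 20)| < 10000 := by
      rw [n2] at h1
      rw [abs_lt]
      constructor <;> nlinarith
    have h3 : ContinuousAt fr (u 2 - (i : ℕ) / 20) :=
      ContinuousAt.congr (by fun_prop) (fr_loc h2).symm
    have h4 : ContinuousAt (n2 i) u :=
      continuousAt_const.mul (ContinuousAt.comp (f := fun v : Euc 4 => v 2 - (i : ℕ) / 20) h3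
        (by fun_prop))
    refine ContinuousAt.comp (f := fun v => (n1 v, n2 i v)) (mo_cont_jmp fun h5 => ?_)
      (continuous_n1.continuousAt.prodMk h4)
    have h6 := (h i).1
    rw [qK, show n2 i u = 0 from h5] at h6
    exact lt_of_le_of_ne ((h i).2 h5) fun h7 => by
      rw [← show 0 = n1 u from h7] at h6
      norm_num at h6

lemma mo_cont_tor : Continuous (tor kap) := by
  have := eqv_kap.1.continuous
  refine Continuous.prodMk (continuous_pi fun j => ?_) continuous_const
  fin_cases j <;> simp [io] <;> fun_prop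

lemma mo_cont_dev : ContinuousOn dev moD := fun _ h =>
  (mo_cont_tor.continuousAt.add (tendsto_finset_sum _ fun i _ =>
    (mo_cont_jmp_dev i h).smul continuousAt_const)).continuousWithinAt

lemma moU_dev {i : Fin 9} {u : Euc 4} (h : u ∈ moU i) :
    dev u = ((Pi.single 7 (u 3), 0) : GR) + jmp (n1 u) (n2 i u) • (gen i • (0 : GR)) := by
  have h1 := h.1
  have h2 := abs_lt.1 h.2
  have := mo_fin i
  have s : ∀ t : ℝ, -1 / 10 ≤ t → t ≤ 1 / 2 → stair t = 0 := fun t a b => by
    simpa using (stair_loc (t := t) (m := 0) ⟨by simpa using a, by simpa using b⟩).self_of_nhds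
  rw [dev, Finset.sum_eq_single i (fun j _ hj => ?_) (by simp)]
  · congr 1
    refine Prod.ext ?_ rfl
    simp only [tor, kap, s (u 0) (by nlinarith [sq_nonneg (u 1)]) (by nlinarith [sq_nonneg (u 1)]),
      s (u 1) (by nlinarith [sq_nonneg (u 0)]) (by nlinarith [sq_nonneg (u 0)]),
      s (u 2) (by linarith) (by linarith)]
    ext j
    fin_cases j <;> simp [io]
  · rw [mo_jmp_zero, zero_smul]
    exact (moU_far h hj).imp (fun h => by linarith) fun h => by linarith [mo_n1_ge u]

/-- The continuation of the jump function across the disc from above. -/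
noncomputable def jmq (a b : ℝ) : ℝ := if 0 < b then Real.smoothTransition (-a / b - 1) else 1

lemma mo_cont_jmq {w : ℝ × ℝ} (h : w.1 < 0) :
    ContinuousAt (fun v : ℝ × ℝ => jmq v.1 v.2) w := by
  rcases le_or_gt w.2 0 with hb | hb
  · refine (continuousAt_const (y := (1 : ℝ))).congr ?_
    have : ∀ᶠ v in 𝓝 w, v.1 + 2 * v.2 < 0 :=
      (by fun_prop : Continuous fun v : ℝ × ℝ => v.1 + 2 * v.2).continuousAt.eventually
        (gt_mem_nhds (by linarith))
    filter_upwards [this] with v hv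
    rw [jmq]
    split_ifs with h1
    · refine (Real.smoothTransition.one_of_one_le ?_).symm
      rw [le_sub_iff_add_le, le_div_iff₀ h1]
      linarith
    · rfl
  · have h1 : ContinuousAt (fun v : ℝ × ℝ => Real.smoothTransition (-v.1 / v.2 - 1)) w :=
      Real.smoothTransition.continuousAt.comp
        ((continuousAt_fst.neg.div continuousAt_snd hb.ne').sub continuousAt_const)
    refine h1.congr ?_
    filter_upwards [continuous_snd.continuousAt.eventually (lt_mem_nhds hb)] with v hv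
    exact (if_pos hv).symm

/-- The continuous branch of the developing map on a cylinder. -/
noncomputable def moF (i : Fin 9) (u : Euc 4) : GR :=
  (gen i)⁻¹ • (((Pi.single 7 (u 3), 0) : GR) + jmq (n1 u) (n2 i u) • (gen i • (0 : GR)))

lemma continuousOn_moF (i : Fin 9) : ContinuousOn (moF i) (moU i) := by
  have h1 : ContinuousOn (n2 i) (moU i) :=
    ContinuousOn.congr (f := fun u : Euc 4 => 1000 * (20000 * u 2 - 1000 * (i : ℕ))) (by fun_prop)
      fun u hu => moU_n2 hu i
  have h2 : ContinuousOn (fun u => jmq (n1 u) (n2 i u)) (moU i) := fun u hu =>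
    ContinuousAt.comp_continuousWithinAt (f := fun v => (n1 v, n2 i v))
      (mo_cont_jmq (by linarith [moU_n1' hu]))
      (continuous_n1.continuousWithinAt.prodMk (h1 u hu))
  have h3 : Continuous fun u : Euc 4 => ((Pi.single 7 (u 3), 0) : GR) :=
    ((continuous_single (A := fun _ => ℝ) 7).comp (by fun_prop)).prodMk continuous_const
  exact (continuous_const_smul (gen i)⁻¹).comp_continuousOn
    (h3.continuousOn.add (h2.smul continuousOn_const))

lemma moF_le {i : Fin 9} {u : Euc 4} (h : u ∈ moU i) (h' : 20000 * u 2 ≤ 1000 * (i : ℕ)) :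
    moF i u = dev u := by
  have h1 : n2 i u ≤ 0 := by
    rw [moU_n2 h]
    linarith
  rw [moU_dev h, mo_jmp_zero (Or.inl h1), zero_smul, add_zero, moF, jmq, if_neg h1.not_gt, one_smul,
    inv_smul_eq_iff]
  rw [gf_smul, gf_smul, pas_last]
  simp [add_comm]

lemma moF_gt {i : Fin 9} {u : Euc 4} (h : u ∈ moU i) (h' : 1000 * ((i : ℕ) : ℝ) < 20000 * u 2) :
    moF i u = (gen i)⁻¹ • dev u := by
  have h1 : 0 < n2 i u := by
    rw [moU_n2 h]
    linarith
  rw [moU_dev h, moF, jmq, jmp, if_pos h1, if_pos h1]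

lemma qm_moF {i : Fin 9} {u : Euc 4} (h : u ∈ moU i) : qm Gf (moF i u) = qm Gf (dev u) := by
  rcases le_or_gt (20000 * u 2) (1000 * (i : ℕ)) with h' | h'
  · rw [moF_le h h']
  · rw [moF_gt h h', qm_smul]

end Pool.Agent.Lib.MP_029589_gt
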