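import Pool.Agent.Lib.MP_029589_gt.MonoA

/-! The complement of the discs is connected, and every covering is trivial over it. -/

set_option autoImplicit false

open scoped Manifold ContDiff Topology Matrix
open Set Filter Function Topology

namespace Pool.Agent.Lib.MP_029589_gt

lemma mo_mid {τ t : ℝ} {k : ℤ} (h : τ ∈ Icc (k : ℝ) (k + 1)) (ht : t ∈ Icc (0 : ℝ) 1) (j : ℤ) :
    (τ - j) ^ 2 ≤ (τ + t * (k + 1 / 2 - τ) - j) ^ 2 ∨
      1 / 4 ≤ (τ + t * (k + 1 / 2 - τ) - j) ^ 2 := by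
  obtain ⟨h1, h2⟩ := h
  obtain ⟨h3, h4⟩ := ht
  rcases le_or_gt j k with hj | hj
  · have hj' : (j : ℝ) ≤ k := by exact_mod_cast hj
    rcases le_total τ (k + 1 / 2) with h5 | h5
    · exact Or.inl (pow_le_pow_left₀ (by linarith)
        (by nlinarith [mul_nonneg h3 (sub_nonneg.2 h5)]) 2)
    · have : 1 / 2 ≤ τ + t * (k + 1 / 2 - τ) - j := by
        nlinarith [mul_nonneg (sub_nonneg.2 h4) (sub_nonneg.2 h5)]
      exact Or.inr (by nlinarith)
  · have hj' : (k : ℝ) + 1 ≤ j := by exact_mod_cast hj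
    rcases le_total τ (k + 1 / 2) with h5 | h5
    · have : τ + t * (k + 1 / 2 - τ) - j ≤ -(1 / 2) := by
        nlinarith [mul_nonneg (sub_nonneg.2 h4) (sub_nonneg.2 h5)]
      exact Or.inr (by nlinarith)
    · have : τ + t * (k + 1 / 2 - τ) - j ≤ τ - j := by nlinarith [mul_nonneg h3 (sub_nonneg.2 h5)]
      exact Or.inl (by nlinarith)

lemma mo_fr_sq (t : ℝ) : fr t ^ 2 ≤ 10000 ^ 2 := by
  have := abs_le.1 (abs_sub_round t)
  rw [fr]
  nlinarith

lemma mo_half (m : ℤ) : fr (m + 1 / 2) = -10000 := by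
  have : round ((m : ℝ) + 1 / 2) = m + 1 := round_eq_iff.2 ⟨by push_cast; linarith, by push_cast; linarith⟩
  rw [fr, this]
  push_cast
  ring

lemma moD_half {u : Euc 4} (h : u 0 = 1 / 2 ∨ ∃ m : ℤ, u 1 = m + 1 / 2) : u ∈ moD := by
  refine moD_of_n1 ?_
  rw [n1]
  rcases h with h | ⟨m, h⟩
  · have := mo_half 0
    rw [Int.cast_zero, zero_add] at this
    rw [h, this]
    nlinarith [sq_nonneg (fr (u 1))]
  · rw [h, mo_half]
    nlinarith [sq_nonneg (fr (u 0))]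

/-- Motion towards a hyperplane. -/
noncomputable def moM (j : Fin 4) (c : ℝ) (q : ℝ × Euc 4) : Euc 4 :=
  q.2 + (q.1 * (c - q.2 j)) • EuclideanSpace.single j 1

lemma continuous_moM (j : Fin 4) (c : ℝ) : Continuous (moM j c) := by
  unfold moM
  fun_prop

lemma moM_zero (j : Fin 4) (c : ℝ) (u : Euc 4) : moM j c (0, u) = u := by simp [moM]

lemma moM_self (j : Fin 4) (c t : ℝ) (u : Euc 4) : moM j c (t, u) j = u j + t * (c - u j) := by
  simp [moM]

lemma moM_ne {j k : Fin 4} (h : k ≠ j) (c t : ℝ) (u : Euc 4) : moM j c (t, u) k = u k := by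
  simp [moM, h]

/-- The slabs. -/
def moS (k : ℤ) : Set (Euc 4) := moD ∩ {u | 20 * u 2 ∈ Icc (k : ℝ) (k + 1)}

lemma mo_n2_eq (i : Fin 9) (u : Euc 4) : ∃ m : ℤ, n2 i u = 1000000 * (20 * u 2 - m) ∧
    ∀ v : Euc 4, n2 i v ^ 2 ≤ (1000000 * (20 * v 2 - m)) ^ 2 := by
  refine ⟨(i : ℕ) + 20 * round (u 2 - (i : ℕ) / 20), by rw [n2, fr]; push_cast; ring, fun v => ?_⟩
  have := mo_fr_le (v 2 - (i : ℕ) / 20) (round (u 2 - (i : ℕ) / 20))
  rw [n2]
  push_cast
  nlinarith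

lemma moS_push {k : ℤ} {u : Euc 4} (h : u ∈ moS k) {t : ℝ} (ht : t ∈ Icc (0 : ℝ) 1) :
    moM 2 ((k + 1 / 2) / 20) (t, u) ∈ moS k := by
  have e : 20 * moM 2 ((k + 1 / 2) / 20) (t, u) 2 = 20 * u 2 + t * (k + 1 / 2 - 20 * u 2) := by
    rw [moM_self]
    ring
  have e1 : n1 (moM 2 ((k + 1 / 2) / 20) (t, u)) = n1 u := by
    rw [n1, moM_ne (by decide), moM_ne (by decide), n1]
  refine ⟨fun i => ?_, ?_⟩
  · obtain ⟨m, h1, h2⟩ := mo_n2_eq i (moM 2 ((k + 1 / 2) / 20) (t, u))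
    have h3 := (h.1 i).1
    have h4 := h2 u
    rw [qK] at h3
    rw [qK, e1, h1, e]
    rcases mo_mid h.2 ht m with h5 | h5
    · refine ⟨by nlinarith, fun h6 => (h.1 i).2 ?_⟩
      have h7 : 20 * u 2 + t * (k + 1 / 2 - 20 * u 2) - m = 0 := by linarith
      rw [h7] at h5
      exact pow_eq_zero_iff two_ne_zero |>.1 (le_antisymm (by nlinarith) (sq_nonneg _))
    · refine ⟨by nlinarith [sq_nonneg (n1 u)], fun h6 => ?_⟩
      have h7 : 20 * u 2 + t * (k + 1 / 2 - 20 * u 2) - m = 0 := by linarith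
      rw [h7] at h5
      norm_num at h5
  · obtain ⟨h1, h2⟩ := h.2
    obtain ⟨h3, h4⟩ := ht
    change _ ∈ Icc _ _
    rw [e]
    constructor <;> nlinarith

lemma mo_plane (k : ℤ) : {u : Euc 4 | 20 * u 2 = k + 1 / 2} ⊆ moS k := fun u h => by
  have h' : 20 * u 2 = k + 1 / 2 := h
  refine ⟨moD_of_n2 fun i => ?_, by constructor <;> linarith⟩
  obtain ⟨m, h1, -⟩ := mo_n2_eq i u
  rw [h1, h']
  rcases le_or_gt m k with h2 | h2
  · have : (m : ℝ) ≤ k := by exact_mod_cast h2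
    nlinarith
  · have : (k : ℝ) + 1 ≤ m := by exact_mod_cast h2
    nlinarith

lemma moS_end (k : ℤ) (u : Euc 4) :
    moM 2 ((k + 1 / 2) / 20) (1, u) ∈ {u : Euc 4 | 20 * u 2 = k + 1 / 2} := by
  change _ = _
  rw [moM_self]
  ring

lemma precon_moS (k : ℤ) : IsPreconnected (moS k) :=
  precon_paths (convex_hyperplane (mo_lin 20 2) _).isPreconnected (mo_plane k) fun u hu =>
    ⟨fun t => moM 2 ((k + 1 / 2) / 20) (t, u),
      ((continuous_moM _ _).comp (by fun_prop)).continuousOn, moM_zero _ _ _, moS_end k u,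
      fun _ ht => moS_push hu ht⟩

lemma mo_lin' (j : Fin 4) : IsLinearMap ℝ fun u : Euc 4 => u j := by simpa using mo_lin 1 j

lemma mo_precon_mirror (k : ℤ) : IsPreconnected (moD ∩ {u | 20 * u 2 = k}) := by
  have h0 : IsPreconnected (({u : Euc 4 | u 0 = 1 / 2} ∩ {u | 20 * u 2 = k}) ∪
      ⋃ m : ℤ, ({u : Euc 4 | u 1 = m + 1 / 2} ∩ {u | 20 * u 2 = k})) := by
    refine precon_spine (κ := ℤ) ((convex_hyperplane (mo_lin' 0) _).inter
      (convex_hyperplane (mo_lin 20 2) _)).isPreconnected (fun m => ((convex_hyperplane (mo_lin' 1)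
        (m + 1 / 2)).inter (convex_hyperplane (mo_lin 20 2) _)).isPreconnected)
      (fun m => ⟨WithLp.toLp 2 ![1 / 2, m + 1 / 2, k / 20, 0], ?_⟩)
      ⟨WithLp.toLp 2 ![1 / 2, 0, k / 20, 0], ?_⟩ rfl <;> simp <;> ring
  refine precon_paths h0 ?_ fun u hu => ⟨fun t => moM 1 (⌊u 1⌋ + 1 / 2) (t, u),
    ((continuous_moM _ _).comp (by fun_prop)).continuousOn, moM_zero _ _ _,
    Or.inr (mem_iUnion.2 ⟨⌊u 1⌋, ?_, ?_⟩), fun t ht => ⟨fun i => ?_, ?_⟩⟩
  · rintro u (hu | hu)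
    · exact ⟨moD_half (Or.inl hu.1), hu.2⟩
    · obtain ⟨m, hm⟩ := mem_iUnion.1 hu
      exact ⟨moD_half (Or.inr ⟨m, hm.1⟩), hm.2⟩
  · change _ = _
    rw [moM_self]
    ring
  · exact (congrArg (20 * ·) (moM_ne (by decide) _ _ _)).trans hu.2
  · have e2 : n2 i (moM 1 (⌊u 1⌋ + 1 / 2) (t, u)) = n2 i u := by rw [n2, moM_ne (by decide), n2]
    have e1 : n1 u ≤ n1 (moM 1 (⌊u 1⌋ + 1 / 2) (t, u)) := by
      rw [n1, n1, moM_ne (by decide), moM_self]
      have h1 := mo_fr_le (u 1) (round (u 1 + t * (⌊u 1⌋ + 1 / 2 - u 1)))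
      have h2 := mo_fr_sq (u 1)
      rw [fr.eq_1 (u 1 + _)]
      rcases mo_mid ⟨Int.floor_le (u 1), (Int.lt_floor_add_one _).le⟩ ht
        (round (u 1 + t * (⌊u 1⌋ + 1 / 2 - u 1))) with h3 | h3 <;> nlinarith
    have h3 := hu.1 i
    rw [qK] at h3
    rw [qK, e2]
    refine ⟨?_, fun h => (h3.2 h).trans e1⟩
    by_cases h4 : n2 i u = 0
    · nlinarith [h3.2 h4]
    · obtain ⟨m, h5, -⟩ := mo_n2_eq i u
      rw [show 20 * u 2 = k from hu.2] at h5
      have h6 : k - m ≠ 0 := fun h => h4 (by rw [h5, ← Int.cast_sub, h]; simp)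
      have h7 : (1 : ℝ) ≤ ((k : ℝ) - m) ^ 2 := by exact_mod_cast (one_le_sq_iff_one_le_abs _).2 (Int.one_le_abs h6)
      rw [h5]
      nlinarith [sq_nonneg (n1 (moM 1 (⌊u 1⌋ + 1 / 2) (t, u)))]
  · exact (congrArg (20 * ·) (moM_ne (by decide) _ _ _)).trans hu.2

lemma precon_moS_inter {k l : ℤ} (h : k ≠ l) : IsPreconnected (moS k ∩ moS l) := by
  rcases (moS k ∩ moS l).eq_empty_or_nonempty with h0 | ⟨u, ⟨-, a1, a2⟩, -, b1, b2⟩
  · rw [h0]
    exact isPreconnected_empty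
  have c1 : k ≤ l + 1 := by exact_mod_cast a1.trans b2
  have c2 : l ≤ k + 1 := by exact_mod_cast b1.trans a2
  have key : ∀ m : ℤ, moS m ∩ moS (m + 1) = moD ∩ {u | 20 * u 2 = (m + 1 : ℤ)} := fun m => by
    ext v
    simp only [moS, mem_inter_iff, mem_setOf_eq, mem_Icc, Int.cast_add, Int.cast_one]
    exact ⟨fun h => ⟨h.1.1, le_antisymm h.1.2.2 h.2.2.1⟩,
      fun h => ⟨⟨h.1, by linarith [h.2], h.2.le⟩, h.1, h.2.ge, by linarith [h.2]⟩⟩
  rcases lt_or_gt_of_ne h with h | h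
  · obtain rfl : l = k + 1 := by omega
    rw [key]
    exact mo_precon_mirror _
  · obtain rfl : k = l + 1 := by omega
    rw [inter_comm, key]
    exact mo_precon_mirror _

lemma moD_eq : moD = {u : Euc 4 | u 0 = 1 / 2} ∪ ⋃ k, moS k := by
  refine Subset.antisymm (fun u hu => Or.inr (mem_iUnion.2 ⟨⌊20 * u 2⌋, hu, Int.floor_le _,
    (Int.lt_floor_add_one _).le⟩)) (union_subset (fun u hu => moD_half (Or.inl hu)) ?_)
  exact iUnion_subset fun k => inter_subset_left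

lemma moS_spine (k : ℤ) : (moS k ∩ {u : Euc 4 | u 0 = 1 / 2}).Nonempty :=
  ⟨WithLp.toLp 2 ![1 / 2, 0, (k + 1 / 2) / 20, 0], mo_plane k (by simp; ring), by simp⟩

lemma moD_nonempty : moD.Nonempty := (moS_spine 0).mono fun _ h => h.1.1

theorem precon_moD : IsPreconnected moD :=
  precon_spine (convex_hyperplane (mo_lin' 0) _).isPreconnected precon_moS moS_spine
    ((moS_spine 0).mono inter_subset_right) moD_eq

variable {E X : Type} [TopologicalSpace E] [TopologicalSpace X] {p : E → X} {ι : Euc 4 → X}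

lemma mo_lf_convex (cov : IsCoveringMap p) {S : Set (Euc 4)} (hι : ContinuousOn ι S)
    (h : Convex ℝ S) : Lf p ι S := fun a ha => lf_star cov hι (h.starConvex ha) a ha

theorem lf_moD (cov : IsCoveringMap p) (hι : ContinuousOn ι moD) : Lf p ι moD := by
  refine lf_spine cov (Λ := {u : Euc 4 | u 0 = 1 / 2}) (mo_lf_convex cov (hι.mono fun u hu => moD_half (Or.inl hu))
    (convex_hyperplane (mo_lin' 0) _)) (fun k => ?_) precon_moS (fun k => ?_) moS_spine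
    (fun k l => precon_moS_inter) (fun k l _ ⟨u, hu⟩ => ?_) moD_eq fun s _ hs u hu => ?_
  · exact Lf.homotopy cov (hι.mono inter_subset_left) (mo_lf_convex cov
      (hι.mono fun u hu => (mo_plane k hu).1) (convex_hyperplane (mo_lin 20 2) _))
      (moM 2 ((k + 1 / 2) / 20)) (continuous_moM _ _).continuousOn (fun t ht u hu => moS_push hu ht)
      (fun u _ => moM_zero _ _ u) fun u _ => moS_end k u
  · have : moS k ∩ {u : Euc 4 | u 0 = 1 / 2} = {u : Euc 4 | u 0 = 1 / 2} ∩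
        ({u | (k : ℝ) ≤ 20 * u 2} ∩ {u | 20 * u 2 ≤ k + 1}) :=
      Subset.antisymm (fun u hu => ⟨hu.2, hu.1.2⟩)
        fun u hu => ⟨⟨moD_half (Or.inl hu.1), hu.2⟩, hu.1⟩
    rw [this]
    exact ((convex_hyperplane (mo_lin' 0) _).inter ((convex_halfSpace_ge (mo_lin 20 2) _).inter
      (convex_halfSpace_le (mo_lin 20 2) _))).isPreconnected
  · have h : (WithLp.toLp 2 ![1 / 2, 0, u 2, 0] : Euc 4) 0 = 1 / 2 := rfl
    exact ⟨WithLp.toLp 2 ![1 / 2, 0, u 2, 0], ⟨⟨moD_half (Or.inl h), hu.1.2⟩,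
      moD_half (Or.inl h), hu.2.2⟩, h⟩
  · have h1 : ∀ k, ContinuousWithinAt s (moS k) u := fun k => by
      by_cases h : u ∈ moS k
      · exact hs k u h
      · refine continuousWithinAt_of_notMem_closure fun h' => h ⟨hu, ?_⟩
        exact closure_minimal inter_subset_right (isClosed_Icc.preimage (by fun_prop)) h'
    refine ((h1 (⌊20 * u 2⌋ - 1)).union (h1 ⌊20 * u 2⌋)).mono_of_mem_nhdsWithin ?_
    have h2 : ∀ᶠ v : Euc 4 in 𝓝 u, 20 * v 2 ∈ Ioo ((⌊20 * u 2⌋ : ℝ) - 1) (⌊20 * u 2⌋ + 1) :=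
      (by fun_prop : Continuous fun v : Euc 4 => 20 * v 2).continuousAt.eventually
        (Ioo_mem_nhds (by linarith [Int.floor_le (20 * u 2)]) (Int.lt_floor_add_one _))
    filter_upwards [mem_nhdsWithin_of_mem_nhds h2, self_mem_nhdsWithin] with v h3 h4
    rcases le_total (20 * v 2) ⌊20 * u 2⌋ with h5 | h5
    · exact Or.inl ⟨h4, by push_cast; exact h3.1.le, by push_cast; linarith⟩
    · exact Or.inr ⟨h4, h5, h3.2.le⟩

end Pool.Agent.Lib.MP_029589_gt
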