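import Pool.Agent.Lib.MP_029589_gt.MonoB

/-! The loops. -/

set_option autoImplicit false

open scoped Manifold ContDiff Topology Matrix
open Set Filter Function Topology
open Real (smoothTransition)

namespace Pool.Agent.Lib.MP_029589_gt

/-- The heights below and above a disc. -/
def moZ (i : Fin 9) (b : Bool) : ℝ := 1000 * (i : ℕ) + if b then 500 else -500

/-- The horizontal motion of a letter. -/
noncomputable def moLx (τ : ℝ) : ℝ := smoothTransition (τ - 3) - smoothTransition (τ - 1)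

/-- The vertical motion of a letter. -/
noncomputable def moLz (h : ℝ) (a : Fin 9 × Bool) (τ : ℝ) : ℝ :=
  smoothTransition τ * (moZ a.1 (!a.2) - h) +
    smoothTransition (τ - 2) * (moZ a.1 a.2 - moZ a.1 (!a.2)) +
    smoothTransition (τ - 4) * (h - moZ a.1 a.2)

lemma mo_st0 {t : ℝ} (h : t ≤ 0) : smoothTransition t = 0 := Real.smoothTransition.zero_of_nonpos h

lemma mo_st1 {t : ℝ} (h : 1 ≤ t) : smoothTransition t = 1 := Real.smoothTransition.one_of_one_le h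

lemma moLx_zero {τ : ℝ} (h : τ ≤ 1 ∨ 4 ≤ τ) : moLx τ = 0 := by
  rcases h with h | h
  · rw [moLx, mo_st0 (by linarith), mo_st0 (by linarith), sub_zero]
  · rw [moLx, mo_st1 (by linarith), mo_st1 (by linarith), sub_self]

lemma moLx_mid {τ : ℝ} (h : 2 ≤ τ) (h' : τ ≤ 3) : moLx τ = -1 := by
  rw [moLx, mo_st0 (by linarith), mo_st1 (by linarith), zero_sub]

lemma moLz_zero (h : ℝ) (a : Fin 9 × Bool) {τ : ℝ} (hτ : τ ≤ 0 ∨ 5 ≤ τ) : moLz h a τ = 0 := by
  rcases hτ with hτ | hτ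
  · rw [moLz, mo_st0 hτ, mo_st0 (by linarith), mo_st0 (by linarith)]
    ring
  · rw [moLz, mo_st1 (by linarith), mo_st1 (by linarith), mo_st1 (by linarith)]
    ring

lemma moLz_mid (h : ℝ) (a : Fin 9 × Bool) {τ : ℝ} (h1 : 1 ≤ τ) (h2 : τ ≤ 4) : h + moLz h a τ =
    moZ a.1 (!a.2) + smoothTransition (τ - 2) * (moZ a.1 a.2 - moZ a.1 (!a.2)) := by
  rw [moLz, mo_st1 h1, mo_st0 (t := τ - 4) (by linarith)]
  ring

lemma moLz_one (h : ℝ) (a : Fin 9 × Bool) {τ : ℝ} (h1 : 1 ≤ τ) (h2 : τ ≤ 2) :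
    h + moLz h a τ = moZ a.1 (!a.2) := by
  rw [moLz_mid h a h1 (by linarith), mo_st0 (by linarith)]
  ring

lemma moLz_two (h : ℝ) (a : Fin 9 × Bool) {τ : ℝ} (h1 : 3 ≤ τ) (h2 : τ ≤ 4) :
    h + moLz h a τ = moZ a.1 a.2 := by
  rw [moLz_mid h a (by linarith) h2, mo_st1 (by linarith)]
  ring

/-- The horizontal motion of a word. -/
noncomputable def moX : List (Fin 9 × Bool) → ℝ → ℝ
  | [], _ => 0
  | _ :: w, τ => moLx τ + moX w (τ - 5)

/-- The vertical motion of a word. -/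
noncomputable def moW (h : ℝ) : List (Fin 9 × Bool) → ℝ → ℝ
  | [], _ => 0
  | a :: w, τ => moLz h a τ + moW h w (τ - 5)

lemma mo_contDiff_st (c : ℝ) : ContDiff ℝ ∞ fun τ => smoothTransition (τ - c) :=
  Real.smoothTransition.contDiff.comp (contDiff_id.sub contDiff_const)

lemma contDiff_moX (w : List (Fin 9 × Bool)) : ContDiff ℝ ∞ (moX w) := by
  induction w with
  | nil => exact contDiff_const
  | cons a w ih =>
    exact ((mo_contDiff_st 3).sub (mo_contDiff_st 1)).add (ih.comp (contDiff_id.sub contDiff_const))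

lemma contDiff_moW (h : ℝ) (w : List (Fin 9 × Bool)) : ContDiff ℝ ∞ (moW h w) := by
  induction w with
  | nil => exact contDiff_const
  | cons a w ih =>
    exact (((Real.smoothTransition.contDiff.mul contDiff_const).add
      ((mo_contDiff_st 2).mul contDiff_const)).add ((mo_contDiff_st 4).mul contDiff_const)).add
      (ih.comp (contDiff_id.sub contDiff_const))

lemma moW_zero (h : ℝ) (w : List (Fin 9 × Bool)) {τ : ℝ} (hτ : τ ≤ 0 ∨ 5 * (w.length : ℝ) ≤ τ) :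
    moX w τ = 0 ∧ moW h w τ = 0 := by
  induction w generalizing τ with
  | nil => exact ⟨rfl, rfl⟩
  | cons a w ih =>
    have h0 : (0 : ℝ) ≤ w.length := Nat.cast_nonneg _
    rw [List.length_cons, Nat.cast_succ] at hτ
    have h1 := ih (τ := τ - 5) (hτ.imp (fun h => by linarith) fun h => by linarith)
    rw [moX, moW, h1.1, h1.2, moLx_zero (hτ.imp (fun h => by linarith) fun h => by linarith),
      moLz_zero h a (hτ.imp id fun h => by linarith)]
    simp

lemma moW_shape (h : ℝ) (w : List (Fin 9 × Bool)) (τ : ℝ) :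
    moX w τ = 0 ∨ moX w τ = -1 ∨ ∃ i b, h + moW h w τ = moZ i b := by
  induction w generalizing τ with
  | nil => exact Or.inl rfl
  | cons a w ih =>
    rcases le_total τ 5 with h5 | h5
    · have h1 := moW_zero h w (τ := τ - 5) (Or.inl (by linarith))
      rw [moX, moW, h1.1, h1.2, add_zero, add_zero]
      rcases le_total τ 1 with h1 | h1
      · exact Or.inl (moLx_zero (Or.inl h1))
      rcases le_total τ 2 with h2 | h2
      · exact Or.inr (Or.inr ⟨_, _, moLz_one h a h1 h2⟩)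
      rcases le_total τ 3 with h3 | h3
      · exact Or.inr (Or.inl (moLx_mid h2 h3))
      rcases le_total τ 4 with h4 | h4
      · exact Or.inr (Or.inr ⟨_, _, moLz_two h a h3 h4⟩)
      · exact Or.inl (moLx_zero (Or.inr h4))
    · rw [moX, moW, moLx_zero (Or.inr (by linarith)), moLz_zero h a (Or.inr h5), zero_add, zero_add]
      exact ih _

/-- Quasi-periodic extension. -/
noncomputable def moE (f : ℝ → ℝ) (v t : ℝ) : ℝ := f (Int.fract t) + ⌊t⌋ * v

lemma moE_add_one (f : ℝ → ℝ) (v t : ℝ) : moE f v (t + 1) = moE f v t + v := by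
  rw [moE, moE, Int.fract_add_one, Int.floor_add_one]
  push_cast
  ring

lemma moE_eq {f : ℝ → ℝ} {v : ℝ} (h : f 1 = f 0 + v) {t : ℝ} (ht : t ∈ Icc (0 : ℝ) 1) :
    moE f v t = f t := by
  rcases ht.2.eq_or_lt with rfl | h1
  · simp [moE, h]
  · rw [moE, Int.fract_eq_self.2 ⟨ht.1, h1⟩, Int.floor_eq_zero_iff.2 ⟨ht.1, h1⟩]
    simp

lemma contDiff_moE {f : ℝ → ℝ} {v : ℝ} (hf : ContDiff ℝ ∞ f) (h0 : ∀ t ≤ 0, f t = f 0)
    (h1 : ∀ t, 1 ≤ t → f t = f 0 + v) : ContDiff ℝ ∞ (moE f v) := by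
  refine contDiff_iff_contDiffAt.2 fun t => ?_
  have h2 : ContDiff ℝ ∞ fun s : ℝ => f (s - ⌊t⌋) + f (s - ⌊t⌋ + 1) - f 0 + (⌊t⌋ - 1) * v :=
    (((hf.comp (contDiff_id.sub contDiff_const)).add (hf.comp
      ((contDiff_id.sub contDiff_const).add contDiff_const))).sub contDiff_const).add contDiff_const
  refine h2.contDiffAt.congr_of_eventuallyEq ?_
  filter_upwards [Ioo_mem_nhds (show (⌊t⌋ : ℝ) - 1 < t by linarith [Int.floor_le t])
    (Int.lt_floor_add_one t)] with s hs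
  rcases le_or_gt (⌊t⌋ : ℝ) s with h | h
  · have : ⌊s⌋ = ⌊t⌋ := Int.floor_eq_iff.2 ⟨h, hs.2⟩
    rw [moE, Int.fract, this, h1 (s - ⌊t⌋ + 1) (by linarith)]
    ring
  · have : ⌊s⌋ = ⌊t⌋ - 1 := Int.floor_eq_iff.2 ⟨by push_cast; exact hs.1.le, by push_cast; linarith⟩
    rw [moE, Int.fract, this, h0 (s - ⌊t⌋) (by linarith)]
    push_cast
    rw [show s - (⌊t⌋ - 1) = s - ⌊t⌋ + 1 by ring]
    ring

/-- A numbering of the relators. -/
noncomputable def moI (l : Rel) : ℕ := Fintype.equivFin Rel l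

lemma moI_lt (l : Rel) : (moI l : ℝ) < 80 := by
  have h1 : moI l < Fintype.card Rel := (Fintype.equivFin Rel l).2
  have h2 : Fintype.card Rel = 76 := by simp
  exact_mod_cast (show moI l < 80 by omega)

lemma moI_inj {l l' : Rel} (h : |5 * (moI l : ℝ) - 5 * moI l'| < 5) : l = l' := by
  rw [abs_lt] at h
  have h1 : moI l < moI l' + 1 := by exact_mod_cast (show (moI l : ℝ) < moI l' + 1 by linarith)
  have h2 : moI l' < moI l + 1 := by exact_mod_cast (show (moI l' : ℝ) < moI l + 1 by linarith)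
  exact (Fintype.equivFin Rel).injective (Fin.ext (show moI l = moI l' by omega))

/-- The path of a relator, in small units. -/
noncomputable def moP (l : Rel) (j : Fin 3) (τ : ℝ) : ℝ :=
  ![(1000 + 5 * moI l) * (1 + moX (wd l) τ), 5 * moI l,
    9000 + 5 * moI l + moW (9000 + 5 * moI l) (wd l) τ] j +
    20000 * shf l j.castSucc * smoothTransition (τ - 5 * (wd l).length)

lemma contDiff_moP (l : Rel) (j : Fin 3) : ContDiff ℝ ∞ (moP l j) := by
  refine ContDiff.add ?_ (contDiff_const.mul (mo_contDiff_st _))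
  fin_cases j
  · exact contDiff_const.mul (contDiff_const.add (contDiff_moX _))
  · exact contDiff_const
  · exact contDiff_const.add (contDiff_moW _ _)

lemma moP_zero (l : Rel) (j : Fin 3) {τ : ℝ} (h : τ ≤ 0) : moP l j τ = moP l j 0 := by
  have h0 : (0 : ℝ) ≤ (wd l).length := Nat.cast_nonneg _
  have h1 := moW_zero (9000 + 5 * moI l) (wd l) (Or.inl h)
  have h2 := moW_zero (9000 + 5 * moI l) (wd l) (Or.inl le_rfl)
  rw [moP, moP, h1.1, h1.2, h2.1, h2.2, mo_st0 (by linarith), mo_st0 (by linarith)]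

lemma moP_one (l : Rel) (j : Fin 3) {τ : ℝ} (h : 5 * ((wd l).length : ℝ) + 1 ≤ τ) :
    moP l j τ = moP l j 0 + 20000 * shf l j.castSucc := by
  have h0 : (0 : ℝ) ≤ (wd l).length := Nat.cast_nonneg _
  have h1 := moW_zero (9000 + 5 * moI l) (wd l) (τ := τ) (Or.inr (by linarith))
  have h2 := moW_zero (9000 + 5 * moI l) (wd l) (Or.inl le_rfl)
  rw [moP, moP, h1.1, h1.2, h2.1, h2.2, mo_st1 (by linarith), mo_st0 (by linarith)]
  ring

/-- The coordinates of the loops. -/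
noncomputable def moQ (l : Rel) (j : Fin 3) : ℝ → ℝ :=
  moE (fun s => moP l j ((5 * (wd l).length + 1) * s) / 20000) (shf l j.castSucc)

/-- The loops. -/
noncomputable def moG (l : Rel) (t : ℝ) : Euc 4 :=
  WithLp.toLp 2 ![moQ l 0 t, moQ l 1 t, moQ l 2 t, t]

lemma moG_cast (l : Rel) (t : ℝ) (j : Fin 3) : moG l t j.castSucc = moQ l j t := by
  fin_cases j <;> rfl

lemma contDiff_moQ (l : Rel) (j : Fin 3) : ContDiff ℝ ∞ (moQ l j) := by
  have h0 : (0 : ℝ) ≤ (wd l).length := Nat.cast_nonneg _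
  refine contDiff_moE (((contDiff_moP l j).comp (contDiff_const.mul contDiff_id)).div_const _)
    (fun t ht => ?_) fun t ht => ?_
  · rw [moP_zero l j (by nlinarith), mul_zero]
  · rw [moP_one l j (by nlinarith), mul_zero]
    ring

lemma moG_eq (l : Rel) (j : Fin 3) {τ : ℝ} (h : τ ∈ Icc (0 : ℝ) (5 * (wd l).length + 1)) :
    20000 * moG l (τ / (5 * (wd l).length + 1)) j.castSucc = moP l j τ := by
  have h0 : (0 : ℝ) < 5 * (wd l).length + 1 := by positivity
  rw [moG_cast, moQ, moE_eq _ ⟨div_nonneg h.1 h0.le, (div_le_one h0).2 h.2⟩,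
    mul_div_cancel₀ _ h0.ne']
  · ring
  · rw [moP_one l j (by linarith), mul_zero]
    ring

lemma mo_shf_last (l : Rel) : shf l 3 = 1 := by
  rcases l with _ | _ | j
  · rfl
  · rfl
  · fin_cases j <;> rfl

lemma mo_shf_cases (l : Rel) :
    (shf l 1 = 0 ∧ (shf l 0 = 0 ∨ shf l 2 = 0)) ∨ (shf l 0 = 0 ∧ shf l 2 = 0) := by
  rcases l with _ | _ | j
  · exact Or.inr ⟨rfl, rfl⟩
  · exact Or.inr ⟨rfl, rfl⟩
  · fin_cases j <;> decide

/-- The shape of the loops. -/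
def Shp (n x y z : ℝ) : Prop :=
  (y = n ∧ (x = 1000 + n ∨ x = 0 ∨ z = 9000 + n ∨ ∃ i b, z = moZ i b)) ∨
    (x = 1000 + n ∧ z = 9000 + n)

lemma moP_le (l : Rel) {τ : ℝ} (h : τ ≤ 5 * (wd l).length) :
    moP l 0 τ = (1000 + 5 * moI l) * (1 + moX (wd l) τ) ∧ moP l 1 τ = 5 * moI l ∧
      moP l 2 τ = 9000 + 5 * moI l + moW (9000 + 5 * moI l) (wd l) τ := by
  simp [moP, mo_st0 (sub_nonpos.2 h)]

lemma moP_ge (l : Rel) {τ : ℝ} (h : 5 * ((wd l).length : ℝ) ≤ τ) :
    (shf l 0 = 0 → moP l 0 τ = 1000 + 5 * moI l) ∧ (shf l 1 = 0 → moP l 1 τ = 5 * moI l) ∧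
      (shf l 2 = 0 → moP l 2 τ = 9000 + 5 * moI l) := by
  have h1 := moW_zero (9000 + 5 * moI l) (wd l) (Or.inr h)
  refine ⟨fun h => ?_, fun h => ?_, fun h => ?_⟩ <;> simp [moP, h, h1.1, h1.2]

lemma moP_shape (l : Rel) (τ : ℝ) : Shp (5 * moI l) (moP l 0 τ) (moP l 1 τ) (moP l 2 τ) := by
  rcases le_total τ (5 * (wd l).length) with h | h
  · obtain ⟨h1, h2, h3⟩ := moP_le l h
    refine Or.inl ⟨h2, ?_⟩
    rcases moW_shape (9000 + 5 * moI l) (wd l) τ with h4 | h4 | h4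
    · exact Or.inl (by rw [h1, h4]; ring)
    · exact Or.inr (Or.inl (by rw [h1, h4]; ring))
    · exact Or.inr (Or.inr (Or.inr (h3 ▸ h4)))
  · obtain ⟨h1, h2, h3⟩ := moP_ge l h
    rcases mo_shf_cases l with ⟨h4, h5 | h5⟩ | h4
    · exact Or.inl ⟨h2 h4, Or.inl (h1 h5)⟩
    · exact Or.inl ⟨h2 h4, Or.inr (Or.inr (Or.inl (h3 h5)))⟩
    · exact Or.inr ⟨h1 h4.1, h3 h4.2⟩

/-- Closeness modulo the period. -/
def Nr (a c : ℝ) : Prop := ∃ (m : ℤ) (δ : ℝ), 20000 * a = c + δ + 20000 * m ∧ -5 / 2 < δ ∧ δ < 5 / 2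

lemma Nr.of_eq {a c : ℝ} (h : 20000 * a = c) : Nr a c := ⟨0, 0, by simpa, by norm_num, by norm_num⟩

lemma Nr.close {a c c' : ℝ} (h : Nr a c) (h' : Nr a c') (h1 : |c - c'| < 10000) :
    |c - c'| < 5 := by
  obtain ⟨m, δ, a1, a2, a3⟩ := h
  obtain ⟨m', δ', b1, b2, b3⟩ := h'
  rw [abs_lt] at h1 ⊢
  have c1 : m < m' + 1 := by exact_mod_cast (show (m : ℝ) < m' + 1 by linarith)
  have c2 : m' < m + 1 := by exact_mod_cast (show (m' : ℝ) < m + 1 by linarith)
  obtain rfl : m = m' := by omega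
  constructor <;> linarith

lemma moZ_bd (i : Fin 9) (b : Bool) : -500 ≤ moZ i b ∧ moZ i b ≤ 8500 := by
  have := mo_fin i
  cases b <;> simp only [moZ, if_true, Bool.false_eq_true, if_false] <;> constructor <;> linarith

lemma moZ_far (i j : Fin 9) (b : Bool) :
    moZ i b - 1000 * (j : ℕ) ≤ -500 ∨ 500 ≤ moZ i b - 1000 * (j : ℕ) := by
  have : (moZ i b - 1000 * (j : ℕ) : ℝ) = ((1000 * (i : ℕ) + (if b then 500 else -500) -
      1000 * (j : ℕ) : ℤ) : ℝ) := by cases b <;> simp [moZ]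
  rw [this]
  have : (1000 * (i : ℕ) + (if b then 500 else -500) - 1000 * (j : ℕ) : ℤ) ≤ -500 ∨
      500 ≤ (1000 * (i : ℕ) + (if b then 500 else -500) - 1000 * (j : ℕ) : ℤ) := by
    split_ifs <;> omega
  exact_mod_cast this

variable {u : Euc 4} {n : ℝ}

lemma mo_far_x (h0 : 0 ≤ n) (h1 : n ≤ 400) (h : Nr (u 0) (1000 + n)) : 3 < n1 u := by
  obtain ⟨m, δ, a1, a2, a3⟩ := h
  rw [n1, mo_fr m a1 (by linarith) (by linarith)]
  nlinarith [sq_nonneg (fr (u 1))]

lemma mo_near (h0 : 0 ≤ n) (h1 : n ≤ 400) (h : Nr (u 0) 0) (h' : Nr (u 1) n) : n1 u < -3 := by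
  obtain ⟨m, δ, a1, a2, a3⟩ := h
  obtain ⟨m', δ', b1, b2, b3⟩ := h'
  rw [n1, mo_fr m a1 (by linarith) (by linarith), mo_fr m' b1 (by linarith) (by linarith)]
  nlinarith

lemma mo_far_z (h0 : 0 ≤ n) (h1 : n ≤ 400) {z : ℝ} (hz : z = 9000 + n ∨ ∃ i b, z = moZ i b)
    (h : Nr (u 2) z) (j : Fin 9) : 6 < n2 j u ^ 2 := by
  obtain ⟨m, δ, a1, a2, a3⟩ := h
  have := mo_fin j
  have e : 20000 * (u 2 - (j : ℕ) / 20) = z - 1000 * (j : ℕ) + δ + 20000 * m := by linarith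
  rcases hz with rfl | ⟨i, b, rfl⟩
  · rw [n2, mo_fr m e (by linarith) (by linarith)]
    nlinarith
  · have := moZ_bd i b
    rw [n2, mo_fr m e (by linarith) (by linarith)]
    rcases moZ_far i j b with h | h <;> nlinarith

lemma moG_near {l : Rel} (h : qL moG l u < 6) :
    ∃ x y z, Shp (5 * moI l) x y z ∧ Nr (u 0) x ∧ Nr (u 1) y ∧ Nr (u 2) z := by
  have key : ∀ j : Fin 3,
      Nr (u j.castSucc) (moP l j ((5 * (wd l).length + 1) * Int.fract (u 3))) := fun j => by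
    have h1 : yL moG l u j ^ 2 < 6 := (Finset.single_le_sum (f := fun j => yL moG l u j ^ 2)
      (fun j _ => sq_nonneg _) (Finset.mem_univ j)).trans_lt h
    obtain ⟨m, hm⟩ := mo_fr_spec (u j.castSucc - moG l (u 3) j.castSucc)
    refine ⟨m + ⌊u 3⌋ * shf l j.castSucc, yL moG l u j, ?_, by nlinarith, by nlinarith⟩
    rw [yL]
    nth_rw 1 [moG_cast, moQ, moE] at hm
    push_cast
    linarith
  exact ⟨_, _, _, moP_shape l _, key 0, key 1, key 2⟩

theorem loops_moG : Loops moG where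
  sm l := by
    refine contDiff_euclidean.2 fun j => ?_
    fin_cases j
    exacts [contDiff_moQ l 0, contDiff_moQ l 1, contDiff_moQ l 2, contDiff_id]
  last _ _ := rfl
  per l t := by
    have h : ∀ j, moQ l j (t + 1) = moQ l j t + shf l j.castSucc := fun j => moE_add_one _ _ _
    ext j
    fin_cases j
    · exact h 0
    · exact h 1
    · exact h 2
    · change t + 1 = t + (shf l 3 : ℝ)
      rw [mo_shf_last, Int.cast_one]
  sep l l' u h h' := by
    obtain ⟨x, y, z, a0, a1, a2, a3⟩ := moG_near h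
    obtain ⟨x', y', z', b0, b1, b2, b3⟩ := moG_near h'
    have c1 := moI_lt l
    have c2 := moI_lt l'
    have c3 : (0 : ℝ) ≤ moI l := Nat.cast_nonneg _
    have c4 : (0 : ℝ) ≤ moI l' := Nat.cast_nonneg _
    have k1 : ∀ {a K : ℝ}, Nr a (K + 5 * moI l) → Nr a (K + 5 * moI l') → l = l' := fun d1 d2 => by
      have := d1.close d2 (by rw [abs_lt]; constructor <;> linarith)
      exact moI_inj (by rwa [add_sub_add_left_eq_sub] at this)
    have k2 : ∀ {a k : ℝ}, 0 ≤ k → k < 80 → Nr a 0 → ¬Nr a (1000 + 5 * k) := fun d1 d2 d3 d4 => by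
      have := abs_lt.1 (d4.close d3 (by rw [abs_lt]; constructor <;> linarith))
      linarith
    have k3 : ∀ {a k : ℝ} {i b}, 0 ≤ k → k < 80 → Nr a (moZ i b) → ¬Nr a (9000 + 5 * k) :=
      fun {_ _ i b} d1 d2 d3 d4 => by
        have := moZ_bd i b
        have := abs_lt.1 (d4.close d3 (by rw [abs_lt]; constructor <;> linarith))
        linarith
    rcases a0 with ⟨rfl, a0⟩ | ⟨rfl, rfl⟩ <;> rcases b0 with ⟨rfl, b0⟩ | ⟨rfl, rfl⟩
    · exact k1 (K := 0) (by rwa [zero_add]) (by rwa [zero_add])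
    · rcases a0 with rfl | rfl | rfl | ⟨i, b, rfl⟩
      exacts [k1 a1 b1, absurd b1 (k2 c4 c2 a1), k1 a3 b3, absurd b3 (k3 c4 c2 a3)]
    · rcases b0 with rfl | rfl | rfl | ⟨i, b, rfl⟩
      exacts [k1 a1 b1, absurd a1 (k2 c3 c1 b1), k1 a3 b3, absurd a3 (k3 c3 c1 b3)]
    · exact k1 a1 b1
  av l i u h := by
    obtain ⟨x, y, z, a0, a1, a2, a3⟩ := moG_near h
    have c1 : (5 * moI l : ℝ) ≤ 400 := by linarith [moI_lt l]
    have c3 : (0 : ℝ) ≤ 5 * moI l := by positivity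
    rw [qK]
    rcases a0 with ⟨rfl, rfl | rfl | a0⟩ | ⟨rfl, -⟩
    · nlinarith [mo_far_x c3 c1 a1, sq_nonneg (n2 i u)]
    · nlinarith [mo_near c3 c1 a1 a2, sq_nonneg (n2 i u)]
    · nlinarith [mo_far_z c3 c1 a0 a3 i, sq_nonneg (n1 u)]
    · nlinarith [mo_far_x c3 c1 a1, sq_nonneg (n2 i u)]

lemma moG_mem (l : Rel) (t : ℝ) : moG l t ∈ moB := fun i => by
  have : qL moG l (moG l t) < 6 := by
    have : fr 0 = 0 := by simp [fr]
    simp [qL, yL, loops_moG.last, this]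
  linarith [loops_moG.av l i _ this]

end Pool.Agent.Lib.MP_029589_gt
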