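import Pool.Agent.Lib.MP_029589_gt.MonoC

/-! Tracking of lifts along the loops. -/

set_option autoImplicit false

open scoped Manifold ContDiff Topology Matrix
open Set Filter Function Topology
open Real (smoothTransition)

namespace Pool.Agent.Lib.MP_029589_gt

variable {E X : Type} [TopologicalSpace E] [TopologicalSpace X] {p : E → X} {ι : Euc 4 → X}

/-- Continuous lifts on a set. -/
def Li (p : E → X) (ι : Euc 4 → X) (W : Set (Euc 4)) (r : Euc 4 → E) : Prop :=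
  ContinuousOn r W ∧ ∀ u ∈ W, p (r u) = ι u

omit [TopologicalSpace X] in
lemma Li.mono {W W' : Set (Euc 4)} {r : Euc 4 → E} (h : Li p ι W r) (h' : W' ⊆ W) : Li p ι W' r :=
  ⟨h.1.mono h', fun u hu => h.2 u (h' hu)⟩

lemma Li.uniq (cov : IsCoveringMap p) {W : Set (Euc 4)} (hW : IsPreconnected W) {r r' : Euc 4 → E}
    (h : Li p ι W r) (h' : Li p ι W r') {a : Euc 4} (ha : a ∈ W) (e : r a = r' a) : EqOn r r' W :=
  lift_unique cov hW h.1 h'.1 (fun b hb => (h.2 b hb).trans (h'.2 b hb).symm) ha e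

lemma Li.step (cov : IsCoveringMap p) {W : Set (Euc 4)} {r : Euc 4 → E} (h : Li p ι W r)
    {c : ℝ → Euc 4} {η : ℝ → E} (hc : Continuous c) (hη : Continuous η) (he : ∀ t, p (η t) = ι (c t))
    {a b : ℝ} (hab : a ≤ b) (hW : ∀ t ∈ Icc a b, c t ∈ W) (h0 : η a = r (c a)) : η b = r (c b) :=
  lift_unique cov isPreconnected_Icc hη.continuousOn (h.1.comp hc.continuousOn hW)
    (fun t ht => (he t).trans (h.2 _ (hW t ht)).symm) (left_mem_Icc.2 hab) h0 b (right_mem_Icc.2 hab)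

/-- Labelled lifts over the complement of the discs and their jumps. -/
structure Trk (p : E → X) (ι : Euc 4 → X) {H S : Type} [Group H] [MulAction H S] (J : Fin 9 → H)
    (sc : S → Euc 4 → E) : Prop where
  li : ∀ s, Li p ι moD (sc s)
  lens : ∀ i s, ∃ r, Li p ι (moU i) r ∧ EqOn r (sc s) (moH i false) ∧
    EqOn r (sc (J i • s)) (moH i true)

variable {H S : Type} [Group H] [MulAction H S] {J : Fin 9 → H} {sc : S → Euc 4 → E}

omit [TopologicalSpace X] in
lemma Trk.lens' (h : Trk p ι J sc) (a : Fin 9 × Bool) (s : S) : ∃ r, Li p ι (moU a.1) r ∧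
    EqOn r (sc s) (moH a.1 (!a.2)) ∧
    EqOn r (sc ((if a.2 then J a.1 else (J a.1)⁻¹) • s)) (moH a.1 a.2) := by
  obtain ⟨i, _ | _⟩ := a
  · obtain ⟨r, h1, h2, h3⟩ := h.lens i ((J i)⁻¹ • s)
    rw [smul_inv_smul] at h3
    exact ⟨r, h1, h3, h2⟩
  · exact h.lens i s

variable {n : ℝ} {c : ℝ → Euc 4} {η : ℝ → E}

lemma moD_x {u : Euc 4} (h0 : 0 ≤ n) (h1 : n ≤ 400) (h : 20000 * u 0 = 1000 + n) : u ∈ moD :=
  moD_of_n1 (by linarith [mo_far_x h0 h1 (Nr.of_eq h)])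

lemma moD_z {u : Euc 4} (h0 : 0 ≤ n) (h1 : n ≤ 400)
    (h : 20000 * u 2 = 9000 + n ∨ ∃ i b, 20000 * u 2 = moZ i b) : u ∈ moD :=
  moD_of_n2 fun i => by linarith [mo_far_z h0 h1 h (Nr.of_eq rfl) i]

lemma Trk.letter (cov : IsCoveringMap p) (h : Trk p ι J sc) (h0 : 0 ≤ n) (h1 : n ≤ 400)
    (hc : Continuous c) (hη : Continuous η) (he : ∀ t, p (η t) = ι (c t)) (a : Fin 9 × Bool)
    (hx : ∀ τ ∈ Icc (0 : ℝ) 5, 20000 * c τ 0 = (1000 + n) * (1 + moLx τ) ∧ 20000 * c τ 1 = n ∧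
      20000 * c τ 2 = 9000 + n + moLz (9000 + n) a τ) {s : S} (hs : η 0 = sc s (c 0)) :
    η 5 = sc ((if a.2 then J a.1 else (J a.1)⁻¹) • s) (c 5) := by
  obtain ⟨r, r1, r2, r3⟩ := h.lens' a s
  have k1 : ∀ τ ∈ Icc (0 : ℝ) 5, τ ≤ 1 ∨ 4 ≤ τ → c τ ∈ moD := fun τ hτ h2 =>
    moD_x h0 h1 (by rw [(hx τ hτ).1, moLx_zero h2]; ring)
  have k2 : ∀ τ ∈ Icc (2 : ℝ) 3, c τ ∈ moU a.1 := fun τ hτ => by
    obtain ⟨e1, e2, e3⟩ := hx τ ⟨by linarith [hτ.1], by linarith [hτ.2]⟩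
    rw [moLx_mid hτ.1 hτ.2] at e1
    rw [moLz_mid _ _ (by linarith [hτ.1]) (by linarith [hτ.2])] at e3
    refine ⟨by rw [e1, e2]; nlinarith, ?_⟩
    have b1 := Real.smoothTransition.nonneg (τ - 2)
    have b2 := Real.smoothTransition.le_one (τ - 2)
    rw [e3, abs_lt]
    cases a.2 <;> simp only [moZ, Bool.not_false, Bool.not_true, if_true, Bool.false_eq_true,
      if_false] <;> constructor <;> linarith
  have k3 : ∀ τ ∈ Icc (2 : ℝ) 3, ∀ b, 20000 * c τ 2 = moZ a.1 b → c τ ∈ moH a.1 b :=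
    fun τ hτ b hb => ⟨k2 τ hτ, by
      rw [mem_setOf_eq, hb]
      cases b <;> simp [moZ]⟩
  have s2 : η 2 = sc s (c 2) := (h.li s).step cov hc hη he (by norm_num) (fun τ hτ => by
    have hτ' : τ ∈ Icc (0 : ℝ) 5 := ⟨hτ.1, by linarith [hτ.2]⟩
    rcases le_total τ 1 with h2 | h2
    · exact k1 τ hτ' (Or.inl h2)
    · exact moD_z h0 h1 (Or.inr ⟨_, _, (hx τ hτ').2.2.trans (moLz_one _ a h2 hτ.2)⟩)) hs
  rw [← r2 (k3 2 (by norm_num) _ ((hx 2 (by norm_num)).2.2.trans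
    (moLz_one _ a (by norm_num) le_rfl)))] at s2
  have s3 := r1.step cov hc hη he (by norm_num) k2 s2
  rw [r3 (k3 3 (by norm_num) _ ((hx 3 (by norm_num)).2.2.trans
    (moLz_two _ a le_rfl (by norm_num))))] at s3
  refine (h.li _).step cov hc hη he (by norm_num) (fun τ hτ => ?_) s3
  have hτ' : τ ∈ Icc (0 : ℝ) 5 := ⟨by linarith [hτ.1], hτ.2⟩
  rcases le_total τ 4 with h2 | h2
  · exact moD_z h0 h1 (Or.inr ⟨_, _, (hx τ hτ').2.2.trans (moLz_two _ a hτ.1 h2)⟩)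
  · exact k1 τ hτ' (Or.inr h2)

lemma Trk.word (cov : IsCoveringMap p) (h : Trk p ι J sc) (h0 : 0 ≤ n) (h1 : n ≤ 400)
    (w : List (Fin 9 × Bool)) (hc : Continuous c) (hη : Continuous η) (he : ∀ t, p (η t) = ι (c t))
    (hx : ∀ τ ∈ Icc (0 : ℝ) (5 * w.length), 20000 * c τ 0 = (1000 + n) * (1 + moX w τ) ∧
      20000 * c τ 1 = n ∧ 20000 * c τ 2 = 9000 + n + moW (9000 + n) w τ) {s : S}
    (hs : η 0 = sc s (c 0)) : η (5 * w.length) = sc (evw J w • s) (c (5 * w.length)) := by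
  induction w generalizing c η s with
  | nil => simpa [evw] using hs
  | cons a w ih =>
    have l0 : (0 : ℝ) ≤ w.length := Nat.cast_nonneg _
    rw [List.length_cons, Nat.cast_succ] at hx ⊢
    have s5 := h.letter cov h0 h1 hc hη he a (fun τ hτ => by
      have e := hx τ ⟨hτ.1, by linarith [hτ.2]⟩
      have e' := moW_zero (9000 + n) w (τ := τ - 5) (Or.inl (by linarith [hτ.2]))
      rwa [moX, moW, e'.1, e'.2, add_zero, add_zero] at e) hs
    have := ih (c := fun τ => c (τ + 5)) (η := fun τ => η (τ + 5)) (by fun_prop) (by fun_prop)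
      (fun t => he _) (fun τ hτ => by
        have e := hx (τ + 5) ⟨by linarith [hτ.1], by linarith [hτ.2]⟩
        rwa [moX, moW, moLx_zero (Or.inr (by linarith [hτ.1])), moLz_zero _ _
          (Or.inr (by linarith [hτ.1])), zero_add, zero_add, add_sub_cancel_right] at e)
      (by simpa only [zero_add] using s5)
    rw [evw, mul_smul, mul_add, mul_one]
    exact this

lemma moG_end (l : Rel) {τ : ℝ} (h : τ ∈ Icc (5 * ((wd l).length : ℝ)) (5 * (wd l).length + 1)) :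
    moG l (τ / (5 * (wd l).length + 1)) ∈ moD := by
  have c1 : (5 * moI l : ℝ) ≤ 400 := by linarith [moI_lt l]
  have c3 : (0 : ℝ) ≤ 5 * moI l := by positivity
  have h' : τ ∈ Icc (0 : ℝ) (5 * (wd l).length + 1) := ⟨le_trans (by positivity) h.1, h.2⟩
  obtain ⟨h1, -, h3⟩ := moP_ge l h.1
  by_cases h4 : shf l 0 = 0
  · exact moD_x c3 c1 ((moG_eq l 0 h').trans (h1 h4))
  · refine moD_z c3 c1 (Or.inl ((moG_eq l 2 h').trans (h3 ?_)))
    rcases mo_shf_cases l with ⟨-, h5 | h5⟩ | h5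
    exacts [absurd h5 h4, h5, h5.2]

lemma moG_one (l : Rel) : moG l 1 = moG l 0 + lat (shf l) := by
  simpa using loops_moG.per l 0

lemma moG_zero (l : Rel) : moG l 0 ∈ moD := by
  have h0 : (0 : ℝ) < 5 * (wd l).length + 1 := by positivity
  have := moG_end l (right_mem_Icc.2 (by linarith))
  rwa [div_self h0.ne', moG_one, moD_per] at this

theorem Trk.loop (cov : IsCoveringMap p) (h : Trk p ι J sc) (l : Rel) (hη : Continuous η)
    (he : ∀ t, p (η t) = ι (moG l t)) {s : S} (hs : η 0 = sc s (moG l 0)) :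
    η 1 = sc (evw J (wd l) • s) (moG l 0 + lat (shf l)) := by
  have h0 : (0 : ℝ) < 5 * (wd l).length + 1 := by positivity
  have hc : Continuous fun τ => moG l (τ / (5 * (wd l).length + 1)) :=
    (loops_moG.sm l).continuous.comp (by fun_prop)
  have hη' : Continuous fun τ => η (τ / (5 * (wd l).length + 1)) := by fun_prop
  have s1 := h.word cov (n := 5 * moI l) (by positivity) (by linarith [moI_lt l]) (wd l) hc hη'
    (fun t => he _) (fun τ hτ => by
      have h' : τ ∈ Icc (0 : ℝ) (5 * (wd l).length + 1) := ⟨hτ.1, by linarith [hτ.2]⟩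
      obtain ⟨h1, h2, h3⟩ := moP_le l hτ.2
      exact ⟨(moG_eq l 0 h').trans h1, (moG_eq l 1 h').trans h2, (moG_eq l 2 h').trans h3⟩)
    (s := s) (by simpa using hs)
  have s2 := (h.li _).step cov hc hη' (fun t => he _) (by linarith) (fun τ hτ => moG_end l hτ) s1
  rwa [div_self h0.ne', moG_one] at s2

lemma trk_dev : Trk (qm Gf) (fun u => qm Gf (dev u)) gen fun (a : Gf) u => a⁻¹ • dev u where
  li a := ⟨(continuous_const_smul a⁻¹).comp_continuousOn mo_cont_dev, fun _ _ => qm_smul _ _⟩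
  lens i a := ⟨fun u => a⁻¹ • moF i u,
    ⟨(continuous_const_smul a⁻¹).comp_continuousOn (continuousOn_moF i),
      fun _ hu => (qm_smul _ _).trans (qm_moF hu)⟩,
    fun _ hu => congrArg (a⁻¹ • ·) (moF_le hu.1 (le_of_lt hu.2)), fun u hu => by
      simp only [moF_gt hu.1 hu.2, smul_eq_mul, mul_inv_rev, mul_smul]⟩

lemma mo_ev_eq {Z : Type} (cov : IsCoveringMap p) {f : Filter Z} {r r' : Z → E} {e : E}
    (h : Tendsto r f (𝓝 e)) (h' : Tendsto r' f (𝓝 e)) (he : ∀ᶠ z in f, p (r z) = p (r' z)) :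
    r =ᶠ[f] r' := by
  obtain ⟨U, hU, hx, hi⟩ := cov.isLocalHomeomorph.isLocallyInjective e
  filter_upwards [h (hU.mem_nhds hx), h' (hU.mem_nhds hx), he] with z h1 h2 h3 using hi h1 h2 h3

theorem lift_moG (l : Rel) : ∃ c : ℝ → GR, ContDiff ℝ ∞ c ∧ Periodic c 1 ∧
    ∀ t, qm Gf (c t) = ph0 (qm Lat (moG l t)) := by
  have cov := qm_cov GR Gf
  have hγ := loops_moG.sm l
  have loc : ∀ t, ∃ F : ℝ → GR, ContDiffAt ℝ ∞ F t ∧
      ∀ᶠ s in 𝓝 t, qm Gf (F s) = qm Gf (dev (moG l s)) := fun t => by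
    obtain ⟨F, hF, -⟩ := dev_loc fun i => zero_lt_one.trans (moG_mem l t i)
    exact ⟨F ∘ moG l, hF.self_of_nhds.1.comp t hγ.contDiffAt,
      (hγ.continuous.continuousAt.eventually hF).mono fun s hs => hs.2⟩
  have hc : Continuous fun t => qm Gf (dev (moG l t)) := continuous_iff_continuousAt.2 fun t => by
    obtain ⟨F, h1, h2⟩ := loc t
    exact (cov.continuous.continuousAt.comp h1.continuousAt).congr h2
  obtain ⟨c, c1, c2, c3⟩ := lf_star cov hc.continuousOn (convex_univ.starConvex (mem_univ (0 : ℝ)))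
    0 (mem_univ _) (dev (moG l 0)) rfl
  rw [continuousOn_univ] at c1
  have c4 : ∀ t, qm Gf (c t) = qm Gf (dev (moG l t)) := fun t => c2 t (mem_univ _)
  refine ⟨c, contDiff_iff_contDiffAt.2 fun t => ?_, fun t => ?_, fun t => by rw [ph0_qm, c4]⟩
  · obtain ⟨F, h1, h2⟩ := loc t
    obtain ⟨a, ha⟩ := qm_eq.1 ((c4 t).trans h2.self_of_nhds.symm)
    have h3 : ContDiffAt ℝ ∞ (fun s => a • F s) t := (contDiff_gf a).contDiffAt.comp t h1
    refine h3.congr_of_eventuallyEq (mo_ev_eq cov c1.continuousAt (ha ▸ h3.continuousAt) ?_)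
    filter_upwards [h2] with s hs
    rw [c4, qm_smul, hs]
  · have h1 := trk_dev.loop cov l c1 c4 (s := 1) (by simpa using c3)
    rw [dev_per, evw_gen, smul_eq_mul, mul_one, inv_smul_smul, ← c3] at h1
    refine congrFun (cov.eq_of_comp_eq (g₁ := fun t => c (t + 1)) (by fun_prop) c1
      (funext fun s => ?_) 0 (by simpa using h1)) t
    rw [comp_apply, comp_apply, c4, c4, loops_moG.per, dev_per, qm_smul]

end Pool.Agent.Lib.MP_029589_gt
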