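import Pool.Agent.Lib.MP_029589_gt.MonoD

/-! Monodromy of coverings of the complement of the unknots. -/

set_option autoImplicit false

open scoped Manifold ContDiff Topology Matrix
open Set Filter Function Topology

namespace Pool.Agent.Lib.MP_029589_gt

variable {E X : Type} [TopologicalSpace E] [TopologicalSpace X] {p : E → X} {ι : Euc 4 → X}

/-- A complete irredundant list of the lifts over the complement of the discs. -/
structure Lab (p : E → X) (ι : Euc 4 → X) {S : Type} (sc : S → Euc 4 → E) : Prop where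
  li : ∀ s, Li p ι moD (sc s)
  sj : ∀ u ∈ moD, ∀ e, p e = ι u → ∃ s, sc s u = e
  inj : ∀ s s', ∀ u ∈ moD, sc s u = sc s' u → s = s'

lemma mo_exists_lab (cov : IsCoveringMap p) (hι : ContinuousOn ι moD) :
    ∃ (S : Type) (sc : S → Euc 4 → E), Lab p ι sc := by
  obtain ⟨b, hb⟩ := moD_nonempty
  choose sc h1 h2 h3 using fun e : {e // p e = ι b} => lf_moD cov hι b hb e.1 e.2
  refine ⟨_, sc, fun s => ⟨h1 s, h2 s⟩, fun u hu e he => ?_, fun s s' u hu h => ?_⟩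
  · obtain ⟨r, r1, r2, r3⟩ := lf_moD cov hι u hu e he
    exact ⟨⟨r b, r2 b hb⟩, (Li.uniq cov precon_moD ⟨h1 _, h2 _⟩ ⟨r1, r2⟩ hb (h3 _) hu).trans r3⟩
  · exact Subtype.ext ((h3 s).symm.trans
      ((Li.uniq cov precon_moD ⟨h1 _, h2 _⟩ ⟨h1 _, h2 _⟩ hu h hb).trans (h3 s')))

variable {S : Type} {sc : S → Euc 4 → E}

lemma Lab.exists_T (h : Lab p ι sc) (cov : IsCoveringMap p) (hp : ∀ u a, ι (u + lat a) = ι u) :
    ∃ T : Lat →* Equiv.Perm S,
      ∀ a s, ∀ u ∈ moD, sc (T (Multiplicative.ofAdd a) s) (u + lat a) = sc s u := by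
  obtain ⟨b, hb⟩ := moD_nonempty
  have key : ∀ a s, ∃ s', ∀ u ∈ moD, sc s' (u + lat a) = sc s u := fun a s => by
    obtain ⟨s', hs⟩ := h.sj _ ((moD_per b a).2 hb) (sc s b) (((h.li s).2 b hb).trans (hp b a).symm)
    exact ⟨s', Li.uniq cov precon_moD ⟨(h.li s').1.comp (by fun_prop) fun u hu => (moD_per u a).2 hu,
      fun u hu => ((h.li s').2 _ ((moD_per u a).2 hu)).trans (hp u a)⟩ (h.li s) hb hs⟩
  choose t ht using key
  letI : MulAction Lat S :=
    { smul := fun a s => t (Multiplicative.toAdd a) s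
      one_smul := fun s => h.inj (t 0 s) _ b hb (by simpa using ht 0 s b hb)
      mul_smul := fun a c s => by
        refine h.inj _ _ _ ((moD_per b (Multiplicative.toAdd a + Multiplicative.toAdd c)).2 hb) ?_
        refine (ht _ s b hb).trans ?_
        rw [lat_add, add_comm (lat _), ← add_assoc]
        exact ((ht _ _ _ ((moD_per b _).2 hb)).trans (ht _ s b hb)).symm }
  exact ⟨MulAction.toPermHom Lat S, ht⟩

lemma Lab.half (h : Lab p ι sc) (cov : IsCoveringMap p) {i : Fin 9} {r : Euc 4 → E}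
    (hr : Li p ι (moU i) r) (b : Bool) : ∃ s, EqOn r (sc s) (moH i b) := by
  obtain ⟨c, hc⟩ := moH_nonempty i b
  obtain ⟨s, hs⟩ := h.sj c (moH_sub i b hc) (r c) (hr.2 c hc.1)
  exact ⟨s, Li.uniq cov (convex_moH i b).isPreconnected (hr.mono inter_subset_left)
    ((h.li s).mono (moH_sub i b)) hc hs.symm⟩

lemma Lab.ext (h : Lab p ι sc) (cov : IsCoveringMap p) (hι : ContinuousOn ι moB) (i : Fin 9)
    (b : Bool) (s : S) : ∃ r, Li p ι (moU i) r ∧ EqOn r (sc s) (moH i b) := by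
  obtain ⟨c, hc⟩ := moH_nonempty i b
  obtain ⟨r, r1, r2, r3⟩ := mo_lf_convex cov (hι.mono (moU_sub i)) (convex_moU i) c hc.1 _
    ((h.li s).2 c (moH_sub i b hc))
  exact ⟨r, ⟨r1, r2⟩, Li.uniq cov (convex_moH i b).isPreconnected
    (Li.mono ⟨r1, r2⟩ inter_subset_left) ((h.li s).mono (moH_sub i b)) hc r3⟩

lemma Lab.eq_of (h : Lab p ι sc) (cov : IsCoveringMap p) {i : Fin 9} {r r' : Euc 4 → E}
    (hr : Li p ι (moU i) r) (hr' : Li p ι (moU i) r') {b b' : Bool} {s s₁ s₂ : S}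
    (h1 : EqOn r (sc s) (moH i b)) (h2 : EqOn r' (sc s) (moH i b)) (h3 : EqOn r (sc s₁) (moH i b'))
    (h4 : EqOn r' (sc s₂) (moH i b')) : s₁ = s₂ := by
  obtain ⟨c, hc⟩ := moH_nonempty i b
  obtain ⟨d, hd⟩ := moH_nonempty i b'
  exact h.inj _ _ d (moH_sub i b' hd) ((h3 hd).symm.trans ((hr.uniq cov (convex_moU i).isPreconnected
    hr' hc.1 ((h1 hc).trans (h2 hc).symm) hd.1).trans (h4 hd)))

lemma Lab.exists_J (h : Lab p ι sc) (cov : IsCoveringMap p) (hι : ContinuousOn ι moB) :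
    ∃ J : Fin 9 → Equiv.Perm S, Trk p ι J sc := by
  choose r r1 r2 using fun i s => h.ext cov hι i false s
  choose j hj using fun i s => h.half cov (r1 i s) true
  refine ⟨fun i => Equiv.ofBijective (j i) ⟨fun s s' e => ?_, fun s' => ?_⟩, h.li,
    fun i s => ⟨r i s, r1 i s, r2 i s, hj i s⟩⟩
  · exact h.eq_of cov (r1 i s) (r1 i s') (hj i s) (e ▸ hj i s') (r2 i s) (r2 i s')
  · obtain ⟨q, q1, q2⟩ := h.ext cov hι i true s'
    obtain ⟨s, hs⟩ := h.half cov q1 false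
    exact ⟨s, h.eq_of cov (r1 i s) q1 (r2 i s) hs (hj i s) q2⟩

section
variable {Z : Type} [TopologicalSpace Z] {A T : Set Z}

lemma mo_uniq (cov : IsCoveringMap p) (hA : A ⊆ T) {b : Z} (hb : b ∈ closure A) {r r' : Z → E}
    (h : ContinuousWithinAt r T b) (h' : ContinuousWithinAt r' T b) (he : p (r b) = p (r' b))
    (hS : ∀ᶠ c in 𝓝[T] b, c ∈ A → r c = r' c) : r b = r' b := by
  by_contra hne
  have := mem_closure_iff_nhdsWithin_neBot.1 hb
  refine (h.mono hA).tendsto.not_tendsto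
    (isSeparatedMap_iff_disjoint_nhds.1 cov.isSeparatedMap _ _ he hne) ((h'.mono hA).tendsto.congr' ?_)
  filter_upwards [nhdsWithin_mono b hA hS, self_mem_nhdsWithin] with c h1 h2 using (h1 h2).symm

lemma mo_ext (cov : IsCoveringMap p) (hA : A ⊆ T) (hcl : T ⊆ closure A) {φ : Z → X} {s : Z → E}
    (loc : ∀ b ∈ T, ∃ r : Z → E, ∀ᶠ c in 𝓝[T] b,
      ContinuousWithinAt r T c ∧ p (r c) = φ c ∧ (c ∈ A → r c = s c)) :
    ∃ R : Z → E, ContinuousOn R T ∧ (∀ b ∈ T, p (R b) = φ b) ∧ ∀ b ∈ A, R b = s b := by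
  have : Nonempty (Z → E) := ⟨s⟩
  choose! r hr using loc
  have h0 := fun b hb => (hr b hb).self_of_nhdsWithin hb
  refine ⟨fun b => r b b, fun b hb => (h0 b hb).1.congr_of_eventuallyEq ?_ rfl,
    fun b hb => (h0 b hb).2.1, fun b hb => (h0 b (hA hb)).2.2 hb⟩
  filter_upwards [eventually_eventually_nhdsWithin.2 (hr b hb), self_mem_nhdsWithin] with c h1 hc
  have h2 := h1.self_of_nhdsWithin hc
  refine mo_uniq cov hA (hcl hc) (h0 c hc).1 h2.1 ((h0 c hc).2.1.trans h2.2.1.symm) ?_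
  filter_upwards [h1, hr c hc] with d h3 h4 hd using (h4.2.2 hd).trans (h3.2.2 hd).symm

end

/-- The pulled back covering. -/
def moT : Set (TT × GR) := {z | z.1 ∈ BK ∧ ph0 z.1 = qm Gf z.2}

lemma moT_mem {u : Euc 4} (hu : u ∈ moB) {g : GR} (h : qm Gf g = qm Gf (dev u)) (a : Gf) :
    (qm Lat u, a • g) ∈ moT := ⟨(mo_BK u).2 hu, by rw [ph0_qm, qm_smul, h]⟩

lemma moT_cases {z : TT × GR} (h : z ∈ moT) : (∃ u ∈ moD, ∃ a : Gf, z = (qm Lat u, a • dev u)) ∨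
    ∃ i, ∃ u ∈ moU i, ∃ a : Gf, z = (qm Lat u, a • moF i u) := by
  obtain ⟨t, g⟩ := z
  obtain ⟨u, rfl⟩ := Quotient.mk_surjective t
  rcases moB_cases ((mo_BK u).1 h.1) with hu | ⟨i, b, v, hv, rfl⟩
  · obtain ⟨a, ha⟩ := qm_eq.1 (h.2.symm.trans (ph0_qm u))
    exact Or.inl ⟨u, hu, a, Prod.ext rfl ha.symm⟩
  · have e : qm Lat (v + lat b) = qm Lat v := tt_eq.2 ⟨b, rfl⟩
    obtain ⟨a, ha⟩ := qm_eq.1 (h.2.symm.trans ((congrArg ph0 e).trans
      ((ph0_qm v).trans (qm_moF hv).symm)))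
    exact Or.inr ⟨i, v, hv, a, Prod.ext e ha.symm⟩

lemma mo_chart {W : Set (Euc 4)} {F : Euc 4 → GR} (hW : IsOpen W) (hF : ContinuousOn F W)
    (hq : ∀ u ∈ W, qm Gf (F u) = qm Gf (dev u)) {u : Euc 4} (hu : u ∈ W) (a : Gf) :
    ∃ e : TT → Euc 4, e (qm Lat u) = u ∧ ∀ᶠ z in 𝓝[moT] (qm Lat u, a • F u),
      ContinuousAt e z.1 ∧ e z.1 ∈ W ∧ z = (qm Lat (e z.1), a • F (e z.1)) := by
  have lh := (qm_cov (Euc 4) Lat).isLocalHomeomorph
  have e0 := lh.localInverseAt_apply_self (x := u)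
  have hs := (lh.localInverseAt u).open_source.mem_nhds lh.apply_self_mem_localInverseAt_source
  have t1 : Tendsto Prod.fst (𝓝[moT] (qm Lat u, a • F u)) (𝓝 (qm Lat u)) :=
    continuous_fst.continuousWithinAt
  have t2 : Tendsto (fun z : TT × GR => lh.localInverseAt u z.1) (𝓝[moT] (qm Lat u, a • F u))
      (𝓝 u) := by
    have := ((lh.localInverseAt u).continuousOn.continuousAt hs).tendsto.comp t1
    rwa [e0] at this
  have t3 : ∀ᶠ z in 𝓝[moT] (qm Lat u, a • F u), z.2 = a • F (lh.localInverseAt u z.1) := by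
    refine mo_ev_eq (qm_cov GR Gf) continuous_snd.continuousWithinAt
      (((hF.continuousAt (hW.mem_nhds hu)).tendsto.comp t2).const_smul a) ?_
    filter_upwards [t1 hs, t2 (hW.mem_nhds hu), self_mem_nhdsWithin] with z h1 h2 h3
    rw [qm_smul, hq _ h2, ← ph0_qm, lh.apply_localInverseAt_of_mem h1, h3.2]
  refine ⟨lh.localInverseAt u, e0, ?_⟩
  filter_upwards [t1 hs, t2 (hW.mem_nhds hu), t3] with z h1 h2 h3
  exact ⟨(lh.localInverseAt u).continuousAt h1, h2,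
    Prod.ext (lh.apply_localInverseAt_of_mem h1).symm h3⟩

/-- Charts of the pulled back covering together with lifts. -/
structure Cht (p : E → X) (ι : Euc 4 → X) (σ : Gf →* Equiv.Perm S) (sc : S → Euc 4 → E)
    (W : Set (Euc 4)) (F : Euc 4 → GR) (r : S → Euc 4 → E) : Prop where
  op : IsOpen W
  den : W ⊆ closure (W ∩ moD)
  cF : ContinuousOn F W
  qF : ∀ u ∈ W, qm Gf (F u) = qm Gf (dev u)
  li : ∀ s, Li p ι W (r s)
  cp : ∀ u ∈ W ∩ moD, ∃ c : Gf, F u = c⁻¹ • dev u ∧ ∀ s, r s u = sc (σ c s) u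
  sj : ∀ u ∈ W, ∀ e, p e = ι u → ∃ s, r s u = e

lemma Lab.cover (h : Lab p ι sc) (cov : IsCoveringMap p) (hι : ContinuousOn ι moB)
    {σ : Gf →* Equiv.Perm S} (hJ : Trk p ι (fun i => σ (gen i)) sc) {z : TT × GR} (hz : z ∈ moT) :
    ∃ W F r, Cht p ι σ sc W F r ∧ ∃ u ∈ W, ∃ a : Gf, z = (qm Lat u, a • F u) := by
  rcases moT_cases hz with hz | ⟨i, hz⟩
  · exact ⟨moD, dev, sc, ⟨isOpen_moD, by rw [inter_self]; exact subset_closure, mo_cont_dev,
      fun _ _ => rfl, h.li, fun u _ => ⟨1, by simp, by simp⟩, h.sj⟩, hz⟩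
  choose r r1 r2 r3 using hJ.lens i
  refine ⟨moU i, moF i, r, ⟨isOpen_moU i, moU_dense i, continuousOn_moF i, fun _ => qm_moF, r1,
    fun u hu => ?_, fun u hu e he => ?_⟩, hz⟩
  · rcases moU_cases hu.1 hu.2 with h1 | h1
    · exact ⟨1, by simpa using moF_le hu.1 (le_of_lt h1.2), fun s => by simpa using r2 s h1⟩
    · exact ⟨gen i, moF_gt hu.1 h1.2, fun s => r3 s h1⟩
  · obtain ⟨q, q1, q2, q3⟩ := mo_lf_convex cov (hι.mono (moU_sub i)) (convex_moU i) u hu e he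
    obtain ⟨s, hs⟩ := h.half cov ⟨q1, q2⟩ false
    obtain ⟨c, hc⟩ := moH_nonempty i false
    exact ⟨s, ((r1 s).uniq cov (convex_moU i).isPreconnected ⟨q1, q2⟩ hc.1
      ((r2 s hc).trans (hs hc).symm) hu).trans q3⟩

theorem mono_moG (cov : IsCoveringMap p) {φ : TT → X} (hφ : ContinuousOn φ BK)
    (hl : ∀ l (η : ℝ → E), Continuous η → (∀ t, p (η t) = φ (qm Lat (moG l t))) → η 1 = η 0) :
    Lf p (fun z : TT × GR => φ z.1) moT := by
  have hι : ContinuousOn (fun u => φ (qm Lat u)) moB :=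
    hφ.comp (qm_cov (Euc 4) Lat).continuous.continuousOn fun u hu => (mo_BK u).2 hu
  obtain ⟨S, sc, h⟩ := mo_exists_lab cov (hι.mono moD_sub)
  obtain ⟨T, hT⟩ := h.exists_T cov fun u a => congrArg φ (tt_eq.2 ⟨a, rfl⟩)
  obtain ⟨J, hJ⟩ := h.exists_J cov hι
  obtain ⟨σ, σ1, σ2⟩ := presentation J T fun l => Equiv.ext fun s => by
    obtain ⟨η, η1, η2, η3⟩ := lf_star (ι := fun t => φ (qm Lat (moG l t))) cov
      (hι.comp_continuous (loops_moG.sm l).continuous (moG_mem l)).continuousOn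
      (convex_univ.starConvex (mem_univ (0 : ℝ))) 0 (mem_univ _) _ ((h.li s).2 _ (moG_zero l))
    rw [continuousOn_univ] at η1
    have h1 := hJ.loop cov l η1 (fun t => η2 t (mem_univ _)) η3
    rw [hl l η η1 fun t => η2 t (mem_univ _), η3, ← hT (shf l) s _ (moG_zero l)] at h1
    exact (h.inj _ _ _ ((moD_per _ _).2 (moG_zero l)) h1).symm
  obtain rfl : (fun i => σ (gen i)) = J := funext σ1
  let A : Set (TT × GR) := {z | ∃ u ∈ moD, ∃ a : Gf, z = (qm Lat u, a • dev u)}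
  have hA : A ⊆ moT := by
    rintro _ ⟨u, hu, a, rfl⟩
    exact moT_mem (moD_sub hu) rfl a
  have hcl : moT ⊆ closure A := fun z hz => by
    obtain ⟨W, F, r, c, u, hu, a, rfl⟩ := h.cover cov hι hJ hz
    refine ContinuousWithinAt.mem_closure (f := fun v => (qm Lat v, a • F v))
      ((qm_cov (Euc 4) Lat).continuous.continuousWithinAt.prodMk
        (((c.cF u hu).mono inter_subset_left).const_smul a)) (c.den hu) fun v hv => ?_
    obtain ⟨d, hd, -⟩ := c.cp v hv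
    exact ⟨v, hv.2, a * d⁻¹, by simp only [hd, mul_smul]⟩
  intro z₀ hz₀ e₀ he₀
  obtain ⟨W₀, F₀, r₀, c₀, u₀, hu₀, a₀, rfl⟩ := h.cover cov hι hJ hz₀
  obtain ⟨s₁, hs₁⟩ := c₀.sj u₀ hu₀ e₀ he₀
  obtain ⟨s₀, rfl⟩ := (σ a₀⁻¹).surjective s₁
  obtain ⟨s, hs⟩ : ∃ s : TT × GR → E, ∀ u ∈ moD, ∀ a : Gf,
      s (qm Lat u, a • dev u) = sc (σ a⁻¹ s₀) u := by
    choose! f f1 g f2 using fun z (hz : z ∈ A) => hz
    refine ⟨fun z => sc (σ (g z)⁻¹ s₀) (f z), fun u hu a => ?_⟩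
    have hz : (qm Lat u, a • dev u) ∈ A := ⟨u, hu, a, rfl⟩
    have h1 := f1 _ hz
    have h2 := f2 _ hz
    beta_reduce
    generalize f _ = v, g _ = b at h1 h2 ⊢
    obtain ⟨m, rfl⟩ := tt_eq.1 (congrArg Prod.fst h2)
    have h3 : a * ioG m = b := IsCancelSMul.right_cancel _ _ (dev v) (by
      rw [mul_smul, ← dev_per]
      exact congrArg Prod.snd h2)
    rw [← hT m _ v h1, ← σ2, ← Equiv.Perm.mul_apply, ← map_mul, ← h3]
    simp
  have loc : ∀ {W F r}, Cht p (fun u => φ (qm Lat u)) σ sc W F r → ∀ u ∈ W, ∀ a : Gf,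
      ∃ q : TT × GR → E, q (qm Lat u, a • F u) = r (σ a⁻¹ s₀) u ∧
        ∀ᶠ z in 𝓝[moT] (qm Lat u, a • F u),
          ContinuousWithinAt q moT z ∧ p (q z) = φ z.1 ∧ (z ∈ A → q z = s z) := by
    intro W F r c u hu a
    obtain ⟨e, e0, he⟩ := mo_chart c.op c.cF c.qF hu a
    refine ⟨fun z => r (σ a⁻¹ s₀) (e z.1), congrArg _ e0, ?_⟩
    filter_upwards [he] with z ⟨h1, h2, h3⟩
    have h4 : z.1 = qm Lat (e z.1) := congrArg Prod.fst h3
    refine ⟨(ContinuousAt.comp (f := fun z : TT × GR => e z.1) ((c.li _).1.continuousAt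
      (c.op.mem_nhds h2)) (h1.comp continuousAt_fst)).continuousWithinAt,
      ((c.li _).2 _ h2).trans (congrArg φ h4.symm), fun ⟨v, hv, b, hb⟩ => ?_⟩
    obtain ⟨m, hm⟩ := tt_eq.1 (h4.symm.trans (congrArg Prod.fst hb))
    have h5 : e z.1 ∈ moD := hm ▸ (moD_per v m).2 hv
    obtain ⟨d, d1, d2⟩ := c.cp _ ⟨h2, h5⟩
    rw [d1, ← mul_smul] at h3
    rw [d2, congrArg s h3, hs _ h5, mul_inv_rev, inv_inv, map_mul, Equiv.Perm.mul_apply]
  obtain ⟨R, R1, R2, R3⟩ := mo_ext cov hA hcl (φ := fun z => φ z.1) (s := s) fun z hz => by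
    obtain ⟨W, F, r, c, u, hu, a, rfl⟩ := h.cover cov hι hJ hz
    exact (loc c u hu a).imp fun q hq => hq.2
  obtain ⟨q, q1, q2⟩ := loc c₀ u₀ hu₀ a₀
  have q3 := q2.self_of_nhdsWithin hz₀
  refine ⟨R, R1, R2, (mo_uniq cov hA (hcl hz₀) (R1 _ hz₀) q3.1 ((R2 _ hz₀).trans q3.2.1.symm)
    ?_).trans (q1.trans hs₁)⟩
  filter_upwards [q2] with z h1 hz using (R3 z hz).trans (h1.2.2 hz).symm

theorem precon_moT : IsPreconnected moT := by
  refine isPreconnected_of_forall_constant fun f hf => ?_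
  have hq := (qm_cov (Euc 4) Lat).continuous
  have k1 : ∀ {W : Set (Euc 4)} {F : Euc 4 → GR}, IsPreconnected W → W ⊆ moB → ContinuousOn F W →
      (∀ u ∈ W, qm Gf (F u) = qm Gf (dev u)) → ∀ a : Gf, ∀ u ∈ W, ∀ v ∈ W,
      f (qm Lat u, a • F u) = f (qm Lat v, a • F v) := fun hW hB hF hq' a u hu v hv =>
    hW.constant (hf.comp (hq.continuousOn.prodMk ((continuous_const_smul a).comp_continuousOn hF))
      fun w hw => moT_mem (hB hw) (hq' w hw) a) hu hv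
  have kD := k1 precon_moD moD_sub mo_cont_dev fun _ _ => rfl
  have kU := fun i => k1 (convex_moU i).isPreconnected (moU_sub i) (continuousOn_moF i)
    fun _ => qm_moF
  obtain ⟨b, hb⟩ := moD_nonempty
  have k2 : ∀ i (a : Gf), ∀ u ∈ moU i, f (qm Lat u, a • moF i u) = f (qm Lat b, a • dev b) :=
    fun i a u hu => by
      obtain ⟨c, hc⟩ := moH_nonempty i false
      rw [kU i a u hu c hc.1, moF_le hc.1 (le_of_lt hc.2), kD a c (moH_sub i _ hc) b hb]
  have k3 : ∀ i (a : Gf), f (qm Lat b, (a * (gen i)⁻¹) • dev b) = f (qm Lat b, a • dev b) :=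
    fun i a => by
      obtain ⟨c, hc⟩ := moH_nonempty i true
      rw [← k2 i a c hc.1, moF_gt hc.1 hc.2, ← mul_smul, kD _ c (moH_sub i _ hc) b hb]
  have k4 : ∀ a : Gf, f (qm Lat b, a • dev b) = f (qm Lat b, (1 : Gf) • dev b) := fun a => by
    refine Subgroup.closure_induction_right
      (p := fun a _ => f (qm Lat b, a • dev b) = f (qm Lat b, (1 : Gf) • dev b)) rfl ?_ ?_
      (closure_gen.ge (Subgroup.mem_top a))
    · rintro x - _ ⟨i, rfl⟩ h
      rw [← k3 i, mul_inv_cancel_right, h]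
    · rintro x - _ ⟨i, rfl⟩ h
      rw [k3, h]
  have k5 : ∀ z ∈ moT, f z = f (qm Lat b, (1 : Gf) • dev b) := fun z hz => by
    rcases moT_cases hz with ⟨u, hu, a, rfl⟩ | ⟨i, u, hu, a, rfl⟩
    · rw [kD a u hu b hb, k4]
    · rw [k2 i a u hu, k4]
  exact fun x hx y hy => (k5 x hx).trans (k5 y hy).symm

end Pool.Agent.Lib.MP_029589_gt
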