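import Pool.Agent.Lib.MP_029589_gt.NotA1
import Pool.Agent.Lib.MP_029589_gt.Frm

/-! General tools for the construction of the four-manifold. -/

set_option autoImplicit false

open scoped Manifold ContDiff Topology Real
open Set Filter Function Topology Metric

namespace Pool.Agent.Lib.MP_029589_gt.Mz

section Top

variable {E X Z : Type} [TopologicalSpace E] [TopologicalSpace X] [TopologicalSpace Z]

lemma precon_unfill [PreconnectedSpace E] {p : E → X} (cov : IsCoveringMap p) {O : Set X}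
    (hO : IsOpen O) {κ : Type} {T : κ → Set X} (hT : ∀ k, IsOpen (T k))
    (hd : Pairwise (Disjoint on T)) (h0 : ∀ k, IsPreconnected (T k))
    (hc : ∀ k, IsConnected (T k ∩ O)) (hl : ∀ k, Lf p id (T k)) (hu : O ∪ ⋃ k, T k = univ) :
    IsPreconnected (p ⁻¹' O) := by
  choose b hb using fun k => (hc k).1
  choose s h _ using fun k => secs_of_lf cov (h0 k) (hl k) (hb k).1
  refine precon_remove (T := fun k : Σ k, p ⁻¹' {b k} => s k.1 k.2 '' T k.1) isPreconnected_univ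
    (hO.preimage cov.continuous)
    (fun k => isOpen_sec cov.isLocalHomeomorph (hT _) ((h _).cont _) ((h _).sec _))
    (fun k k' hne => Set.disjoint_left.2 ?_) (fun k => ?_) (eq_univ_of_forall fun e => ?_).symm
  · rintro _ ⟨y, hy, rfl⟩ ⟨y', hy', e⟩
    obtain rfl : y' = y := ((h _).sec _ _ hy').symm.trans ((congrArg p e).trans ((h _).sec _ _ hy))
    obtain ⟨k, a⟩ := k
    obtain ⟨k', a'⟩ := k'
    obtain rfl : k = k' := by_contra fun h1 => Set.disjoint_left.1 (hd h1) hy hy'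
    exact hne (congrArg _ ((h _).inj _ _ _ hy e.symm))
  · convert (hc k.1).2.image _ (((h _).cont k.2).mono inter_subset_left) using 1
    ext e
    exact ⟨fun ⟨⟨y, hy, a⟩, b⟩ => ⟨y, ⟨hy, by rwa [← a, mem_preimage, (h _).sec _ _ hy] at b⟩, a⟩,
      fun ⟨y, hy, a⟩ => ⟨⟨y, hy.1, a⟩, by
        rw [← a, mem_preimage, (h _).sec _ _ hy.1]; exact hy.2⟩⟩
  · rcases hu.ge (mem_univ (p e)) with a | a
    · exact Or.inl a
    · obtain ⟨k, hk⟩ := mem_iUnion.1 a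
      obtain ⟨c, hc⟩ := (h k).sur e hk
      exact Or.inr (mem_iUnion_of_mem ⟨k, c⟩ ⟨_, hk, hc⟩)

omit [TopologicalSpace X] in
lemma lf_pb {p : E → X} {φ : Z → X} {S : Set Z} (h : Lf p φ S) :
    Lf (fun z : Pb φ p => z.1.1) id S := by
  classical
  rintro _ ha e rfl
  obtain ⟨s, s1, s2, s3⟩ := h _ ha e.1.2 e.2.symm
  let r : Z → Pb φ p := fun b => if hb : b ∈ S then ⟨(b, s b), (s2 b hb).symm⟩ else e
  have hr : ∀ b ∈ S, (r b).1 = (b, s b) := fun b hb => congrArg Subtype.val (dif_pos hb)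
  exact ⟨r, IsInducing.subtypeVal.continuousOn_iff.2 ((continuousOn_id.prodMk s1).congr hr),
    fun b hb => congrArg Prod.fst (hr b hb), Subtype.ext ((hr _ ha).trans (Prod.ext rfl s3))⟩

omit [TopologicalSpace X] in
lemma lf_ext {E' B : Type} [TopologicalSpace E'] {p : E → X} {p' : E' → B} {r : E' → E}
    {ι : B → X} {Λ : Set B} (h1 : ContinuousOn r (p' ⁻¹' Λ))
    (h2 : ∀ b ∈ Λ, BijOn r (p' ⁻¹' {b}) (p ⁻¹' {ι b})) {φ : Z → B} {S : Set Z}
    (h : Lf p' φ S) (hS : MapsTo φ S Λ) : Lf p (ι ∘ φ) S := fun a ha e he => by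
  obtain ⟨e', a1, rfl⟩ := (h2 _ (hS ha)).surjOn he
  obtain ⟨s, s1, s2, s3⟩ := h a ha e' a1
  exact ⟨r ∘ s, h1.comp s1 fun b hb => by rw [mem_preimage, s2 b hb]; exact hS hb,
    fun b hb => (h2 _ (hS hb)).mapsTo (s2 b hb), congrArg r s3⟩

lemma conn_ball (p : W5) (h0 : p.1 0 = 0) (h1 : p.1 1 = 0) {r : ℝ} (hr : 0 < r) :
    IsConnected (ball p r ∩ {v | (v.1 0, v.1 1) ≠ 0}) := by
  have l : ∀ (c : ℝ) (j : Fin 3), IsPreconnected (ball p r ∩ {v : W5 | 0 < c * v.1 j}) :=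
    fun c j => ((convex_ball p r).inter (convex_halfSpace_gt (f := fun v : W5 => c * v.1 j)
      ⟨fun _ _ => mul_add _ _ _, fun _ _ => mul_left_comm _ _ _⟩ 0)).isPreconnected
  have m : ∀ a b : ℝ, |a| = 1 → |b| = 1 → ∃ v, v ∈ ball p r ∩ {v : W5 | 0 < a * v.1 0} ∧
      v ∈ ball p r ∩ {v : W5 | 0 < b * v.1 1} := fun a b ha hb => by
    have h2 : p + (![r / 2 * a, r / 2 * b, 0], 0) ∈ ball p r := by
      rw [mem_ball, dist_self_add_left, Prod.norm_mk, norm_zero, max_lt_iff, and_iff_left hr,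
        pi_norm_lt_iff hr]
      intro j
      fin_cases j <;> simp [ha, hb, abs_of_pos hr, hr]
    have k : ∀ c : ℝ, |c| = 1 → 0 < c * (r / 2 * c) := fun c hc => by
      rw [mul_left_comm, ← abs_mul_abs_self, hc]
      positivity
    exact ⟨_, ⟨h2, by simpa [h0] using k a ha⟩, h2, by simpa [h1] using k b hb⟩
  obtain ⟨a, a1, a2⟩ := m 1 1 abs_one abs_one
  obtain ⟨b, b1, b2⟩ := m (-1) 1 (by simp) abs_one
  obtain ⟨c, c1, c2⟩ := m (-1) (-1) (by simp) (by simp)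
  have := (((l 1 0).union a a1 a2 (l 1 1)).union b (Or.inr b2) b1
    (l (-1) 0)).union c (Or.inr c1) c2 (l (-1) 1)
  refine ⟨⟨a, a1.1, fun h => ?_⟩, ?_⟩
  · have := a1.2
    rw [mem_ofPred_eq, show a.1 0 = 0 from congrArg Prod.fst h] at this
    simp at this
  convert this using 1
  ext v
  simp only [mem_inter_iff, mem_ofPred_eq, mem_union, one_mul, neg_mul,
    Left.neg_pos_iff, ← and_or_left]
  rw [ne_eq, Prod.mk_eq_zero, not_and_or, ← ne_eq, ← ne_eq, ne_iff_lt_or_gt, ne_iff_lt_or_gt]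
  tauto

end Top

lemma arg_loc {w : ℂ} (h : w ≠ 0) : ∃ θ : ℂ → ℝ, ∀ᶠ v in 𝓝 w, ContDiffAt ℝ ∞ θ v ∧
    ∃ m : ℤ, v.arg / (2 * π) = θ v + m := by
  refine ⟨fun v => w.arg / (2 * π) + (Complex.log (v / w)).im / (2 * π), ?_⟩
  have h1 : ∀ᶠ v in 𝓝 w, v / w ∈ Complex.slitPlane := (continuousAt_id.div_const w).eventually_mem
    (Complex.isOpen_slitPlane.mem_nhds (by simp [h]))
  filter_upwards [h1] with v hv
  have h2 : v ≠ 0 := fun e => Complex.slitPlane_ne_zero hv (by rw [e, zero_div])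
  refine ⟨contDiffAt_const.add (ContDiffAt.div_const (Complex.imCLM.contDiff.contDiffAt.comp v
    (((Complex.contDiffAt_log hv).restrict_scalars ℝ).comp v (contDiffAt_id.div_const w))) _),
    int_of_ee (smul_right_injective _ (norm_ne_zero_iff.2 h2) ?_)⟩
  beta_reduce
  rw [polar_ee, ee_add, Complex.log_im]
  nth_rw 1 [← mul_div_cancel₀ v h, ← polar_ee (v / w)]
  nth_rw 1 [← polar_ee w]
  rw [smul_mul_smul, ← norm_mul, mul_div_cancel₀ v h]

section Lin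

variable {V W U C : Type} [NormedAddCommGroup V] [NormedSpace ℝ V] [NormedAddCommGroup W]
  [NormedSpace ℝ W] [NormedAddCommGroup U] [NormedSpace ℝ U] [NormedAddCommGroup C]
  [NormedSpace ℝ C]

lemma not_inj [FiniteDimensional ℝ C] (h : Module.finrank ℝ C < Module.finrank ℝ V) {H : W → C}
    {F : C → U} {p : W} (hH : DifferentiableAt ℝ H p) (hF : DifferentiableAt ℝ F (H p))
    (T : V →L[ℝ] W) : ¬Injective ((fderiv ℝ (F ∘ H) p).comp T) := fun hi => by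
  rw [fderiv_comp p hF hH, ContinuousLinearMap.comp_assoc] at hi
  exact h.not_ge (LinearMap.finrank_le_finrank_of_injective
    (f := (((fderiv ℝ H p).comp T : V →L[ℝ] C) : V →ₗ[ℝ] C)) (Injective.of_comp hi))

lemma inj_both [FiniteDimensional ℝ V] {F : V → U} {H : V → V} {p : V}
    (hH : DifferentiableAt ℝ H p) (hF : DifferentiableAt ℝ F (H p))
    (h : Injective (fderiv ℝ (F ∘ H) p)) :
    Injective (fderiv ℝ F (H p)) ∧ Injective (fderiv ℝ H p) := by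
  rw [fderiv_comp p hF hH] at h
  have h1 : Injective (fderiv ℝ H p) := Injective.of_comp h
  exact ⟨Injective.of_comp_right h (LinearMap.injective_iff_surjective
    (f := (fderiv ℝ H p : V →ₗ[ℝ] V)).1 h1), h1⟩

variable {M N : Type} [TopologicalSpace M] [ChartedSpace V M] [TopologicalSpace N]
  [ChartedSpace V N]

lemma ld_inv {e : M → N} {v : M} (h : LD V e v) : ∃ s : N → M, s (e v) = v ∧
    ∀ᶠ y in 𝓝 (e v), ContMDiffAt 𝓘(ℝ, V) 𝓘(ℝ, V) ∞ s y ∧ LD V e (s y) ∧ e (s y) = y ∧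
      (md V V e (s y)).comp (md V V s y) = .id ℝ V := by
  obtain ⟨Φ, h1, h2⟩ := h
  refine ⟨Φ.symm, by rw [h2 h1]; exact Φ.left_inv h1, ?_⟩
  have h3 : ∀ y ∈ Φ.target, e (Φ.symm y) = y := fun y hy =>
    (h2 (Φ.map_target hy)).trans (Φ.right_inv hy)
  filter_upwards [Φ.open_target.mem_nhds (h2 h1 ▸ Φ.map_source h1)] with y hy
  have h4 := Φ.contMDiffOn_invFun.contMDiffAt (Φ.open_target.mem_nhds hy)
  have h5 : LD V e (Φ.symm y) := ⟨Φ, Φ.map_target hy, h2⟩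
  refine ⟨h4, h5, h3 y hy, ?_⟩
  rw [← md_comp h5.mdiff (h4.mdifferentiableAt (by simp)), ← md_id y]
  exact md_congr (eventually_of_mem (Φ.open_target.mem_nhds hy) h3)

lemma lift_desc {e : M → N} {v : M} (h : LD V e v) {Φ : N → BB} {F : M → GR}
    (hF : ∀ᶠ u in 𝓝 v, ContMDiffAt 𝓘(ℝ, V) 𝓘(ℝ, GR) ∞ F u ∧ qm Gf (F u) = Φ (e u)) :
    ∃ Φ' : N → GR, (∀ᶠ y in 𝓝 (e v), ContMDiffAt 𝓘(ℝ, V) 𝓘(ℝ, GR) ∞ Φ' y ∧ qm Gf (Φ' y) = Φ y) ∧
      (Injective (md V GR Φ' (e v)) → Injective (md V GR F v)) := by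
  obtain ⟨s, s0, hs⟩ := ld_inv h
  have s1 := hs.self_of_nhds
  have s2 : Tendsto s (𝓝 (e v)) (𝓝 v) := by simpa only [s0] using s1.1.continuousAt.tendsto
  refine ⟨F ∘ s, ?_, fun hi => ?_⟩
  · filter_upwards [hs, s2 hF] with y a b
    exact ⟨b.1.comp y a.1, b.2.trans (congrArg Φ a.2.2.1)⟩
  · rw [md_comp ((s0.symm ▸ hF.self_of_nhds.1).mdifferentiableAt (by simp))
      (s1.1.mdifferentiableAt (by simp)), s0] at hi
    refine Injective.of_comp_right hi fun w => ⟨md V V e v w, ?_⟩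
    have a := s1.2.2.2
    rw [s0] at a
    exact (h.mfderivToContinuousLinearEquiv (by simp)).injective (DFunLike.congr_fun a _)

lemma frame_desc [IsManifold 𝓘(ℝ, V) ∞ N] {e : M → N} {v : M} (h : LD V e v) {θ : N → V →L[ℝ] W}
    {ν : N → W} {f : M → U} {A : M → U →L[ℝ] W}
    (hf : ∀ᶠ u in 𝓝 v, ContMDiffAt 𝓘(ℝ, V) 𝓘(ℝ, U) ∞ f u ∧
      ContMDiffAt 𝓘(ℝ, V) 𝓘(ℝ, U →L[ℝ] W) ∞ A u ∧ ContMDiffAt 𝓘(ℝ, V) 𝓘(ℝ, W) ∞ (ν ∘ e) u ∧
      (θ (e u)).comp (md V V e u) = (A u).comp (md V U f u)) :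
    ContMDiffAt 𝓘(ℝ, V) 𝓘(ℝ, W) ∞ ν (e v) ∧ ∃ B : N → V →L[ℝ] W, ∀ᶠ y in 𝓝 (e v),
      ContMDiffAt 𝓘(ℝ, V) 𝓘(ℝ, V →L[ℝ] W) ∞ B y ∧
        θ y = (B y).comp (md V V (chartAt V (e v)) y) := by
  obtain ⟨s, s0, hs⟩ := ld_inv h
  have s2 : Tendsto s (𝓝 (e v)) (𝓝 v) := by
    simpa only [s0] using hs.self_of_nhds.1.continuousAt.tendsto
  refine ⟨h.desc hf.self_of_nhds.2.2.1, fun y => (A (s y)).comp
    (fderiv ℝ ((f ∘ s) ∘ (chartAt V (e v)).symm) (chartAt V (e v) y)), ?_⟩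
  filter_upwards [hs, s2 hf, chart_source_mem_nhds V (e v)] with y a b c
  have d := b.1.comp y a.1
  refine ⟨(b.2.1.comp y a.1).clm_comp (((sm_chart d c).fderiv_right (m := ∞)
    (by simp)).contMDiffAt.comp y (cm_chart c)), ?_⟩
  rw [ContinuousLinearMap.comp_assoc, ← md_chart d c, md_comp (b.1.mdifferentiableAt (by simp))
    (a.1.mdifferentiableAt (by simp)), ← ContinuousLinearMap.comp_assoc, ← b.2.2.2,
    ContinuousLinearMap.comp_assoc, a.2.2.2, a.2.2.1, ContinuousLinearMap.comp_id]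

/-- The determinant of a stable frame. -/
noncomputable def fd (J : (V × ℝ) ≃L[ℝ] W) (A : V →L[ℝ] W) (w : W) : ℝ :=
  ((J.symm : W →L[ℝ] V × ℝ).comp (A.coprod (.toSpanSingleton ℝ w))).det

variable [FiniteDimensional ℝ V] (J : (V × ℝ) ≃L[ℝ] W)

lemma fd_comp (A : V →L[ℝ] W) (w : W) (L : V →L[ℝ] V) : fd J (A.comp L) w = fd J A w * L.det := by
  rw [← mul_one L.det, ← det_id' (V := ℝ), ← det_tri (L.prodMap (.id ℝ ℝ)) L _ (by simp) (by simp),
    fd, fd, ← det_comp']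
  congr 1

lemma fd_ne {A : V →L[ℝ] W} {w : W} (h : ∀ v (c : ℝ), A v + c • w = 0 → v = 0 ∧ c = 0) :
    fd J A w ≠ 0 := (det_ne_zero_iff _).2 (J.symm.injective.comp
  ((injective_iff_map_eq_zero (A.coprod (.toSpanSingleton ℝ w))).2 fun v hv =>
    Prod.ext (h v.1 v.2 hv).1 (h v.1 v.2 hv).2))

omit [FiniteDimensional ℝ V] in
lemma fd_cont {Z : Type} [TopologicalSpace Z] {A : Z → V →L[ℝ] W} {w : Z → W} {z : Z}
    (h : ContinuousAt A z) (h' : ContinuousAt w z) : ContinuousAt (fun z => fd J (A z) (w z)) z := by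
  refine ContinuousLinearMap.continuous_det.continuousAt.comp (continuousAt_const.clm_comp ?_)
  have : (fun z => (A z).coprod (.toSpanSingleton ℝ (w z))) = fun z =>
      (A z).comp (.fst ℝ V ℝ) + (ContinuousLinearMap.snd ℝ V ℝ).smulRight (w z) := by
    ext <;> simp
  rw [this]
  exact (h.clm_comp continuousAt_const).add
    ((ContinuousLinearMap.smulRightL ℝ (V × ℝ) W (.snd ℝ V ℝ)).continuous.continuousAt.comp h')

end Lin

lemma ori_of_framed {n : ℕ} {X : Mfd n} {W : Type} [NormedAddCommGroup W] [NormedSpace ℝ W]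
    {θ : X.M → Euc n →L[ℝ] W} {ν : X.M → W} (h : Framed W X θ ν) (J : (Euc n × ℝ) ≃L[ℝ] W) {c : ℝ}
    (hc : c ≠ 0) : Ori (Euc n) fun x => (SignType.sign (c * fd J (θ x) (ν x)) : ℝ) := by
  have h0 := fun x => mul_ne_zero hc (fd_ne J (h.2.2 x))
  refine ⟨fun x => ?_, fun x => ?_⟩
  · rcases (h0 x).lt_or_gt with a | a
    · simp [sign_neg a]
    · simp [sign_pos a]
  obtain ⟨B, hB⟩ := h.2.1 x
  have h1 := hB.self_of_nhds
  have h2 : θ x = B x := by
    rw [h1.2, ← extChart_coe, md_chart_self, ContinuousLinearMap.comp_id]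
  have h3 := ((fd_cont J h1.1.continuousAt (h.1 x).continuousAt).const_mul c).const_mul
    (c * fd J (θ x) (ν x))
  filter_upwards [hB, continuousAt_const.eventually_lt h3
    (show 0 < _ * _ from h2 ▸ mul_self_pos.2 (h2 ▸ h0 x)), chart_source_mem_nhds (Euc n) x]
    with y a b e
  have d := fd_comp J (B y) (ν y) (md (Euc n) (Euc n) (chartAt (Euc n) x) y)
  rw [← a.2] at d
  rw [jd_ext]
  refine lt_of_mul_lt_mul_left (a := |c * fd J (θ x) (ν x)| * |c * fd J (θ y) (ν y)|) ?_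
    (by positivity)
  rw [mul_zero, ← mul_assoc, mul_mul_mul_comm, abs_mul_sign, abs_mul_sign, d]
  exact (mul_pos b (mul_self_pos.2 (jd_chart_ne e))).trans_eq (by rw [jd]; ring)

end Pool.Agent.Lib.MP_029589_gt.Mz
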