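import Pool.Agent.Lib.MP_029589_gt.MzA
import Pool.Agent.Lib.MP_029589_gt.Mono
import Pool.Agent.Lib.MP_029589_gt.Lev

/-! The fillings, the retraction onto the loops and the maps of the fillings to the group. -/

set_option autoImplicit false

open scoped Manifold ContDiff Topology Real
open Set Filter Function Topology Metric

namespace Pool.Agent.Lib.MP_029589_gt.Mz

/-- The index set of the fillings. -/
abbrev Ik : Type := Rel ⊕ Fin 9

/-- Squared distances to the surgery loci. -/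
noncomputable def qq (γ : Rel → ℝ → Euc 4) : Ik → Euc 4 → ℝ := Sum.elim (qL γ) qK

/-- The gluing maps. -/
noncomputable def JJ (γ : Rel → ℝ → Euc 4) : Ik → Euc 4 → W5 := Sum.elim (JL γ) JK

/-- The equations of the fillings. -/
noncomputable def ps : Ik → W5 → ℝ := Sum.elim (fun _ => psL) fun _ => psK

/-- The transverse fields. -/
noncomputable def nn : Ik → W5 → W5 := Sum.elim (fun _ => nuL) fun _ => nuK

/-- The radial coordinates of the fillings. -/
noncomputable def QQ : Ik → W5 → ℝ :=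
  Sum.elim (fun _ p => ∑ j, p.1 j ^ 2) fun _ p => (3 - Complex.normSq p.2) ^ 2 + p.1 2 ^ 2

variable {γ : Rel → ℝ → Euc 4} {k : Ik} {p : W5} {u v : Euc 4}

lemma ps_nu (h : ps k p = 0) : fderiv ℝ (ps k) p (nn k p) ≠ 0 := by
  cases k
  exacts [psL_nu h, psK_nu' h]

lemma contDiff_ps (k : Ik) : ContDiff ℝ ∞ (ps k) := by
  cases k
  exacts [contDiff_psL, contDiff_psK]

lemma contDiff_nn (k : Ik) : ContDiff ℝ ∞ (nn k) := by
  cases k
  exacts [contDiff_nuL, contDiff_nuK]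

lemma continuous_QQ (k : Ik) : Continuous (QQ k) := by
  cases k
  · exact show Continuous fun p : W5 => ∑ j, p.1 j ^ 2 by fun_prop
  · exact show Continuous fun p : W5 => (3 - Complex.normSq p.2) ^ 2 + p.1 2 ^ 2 by fun_prop

lemma QL {l : Rel} (h : ps (.inl l) p = 0) : QQ (.inl l) p = Complex.normSq p.2 + 1 := by
  have : psL p = 0 := h
  rw [psL] at this
  exact show ∑ j, p.1 j ^ 2 = _ by linarith

lemma QK {i : Fin 9} (h : ps (.inr i) p = 0) : QQ (.inr i) p = p.1 0 ^ 2 + p.1 1 ^ 2 + 1 := by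
  have : psK p = 0 := h
  rw [psK] at this
  exact show (3 - Complex.normSq p.2) ^ 2 + p.1 2 ^ 2 = _ by linarith

lemma cpt_QQ (k : Ik) : IsCompact {p | ps k p = 0 ∧ QQ k p ≤ 2} := by
  refine (isCompact_closedBall 0 3).of_isClosed_subset ((isClosed_eq (contDiff_ps k).continuous
    continuous_const).inter (isClosed_le (continuous_QQ k) continuous_const)) fun p h => ?_
  have key : (∀ j, p.1 j ^ 2 ≤ 3 ^ 2) ∧ Complex.normSq p.2 ≤ 3 ^ 2 := by
    have h0 := sq_nonneg (p.1 0)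
    have h1 := sq_nonneg (p.1 1)
    have h2 := sq_nonneg (p.1 2)
    cases k
    · have h3 := QL h.1
      have h4 : ∑ j, p.1 j ^ 2 ≤ 2 := h.2
      refine ⟨fun j => ?_, by linarith [h.2]⟩
      linarith [Finset.single_le_sum (f := fun j => p.1 j ^ 2) (fun _ _ => sq_nonneg _)
        (Finset.mem_univ j)]
    · have h3 := QK h.1
      have h4 : (3 - Complex.normSq p.2) ^ 2 + p.1 2 ^ 2 ≤ 2 := h.2
      refine ⟨fun j => ?_, by nlinarith⟩
      have := sq_nonneg (3 - Complex.normSq p.2)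
      have := h.2
      fin_cases j <;> simp only [Fin.zero_eta, Fin.mk_one, Fin.reduceFinMk] <;> linarith
  rw [mem_closedBall_zero_iff, Prod.norm_def, max_le_iff, pi_norm_le_iff_of_nonneg (by norm_num)]
  rw [Complex.normSq_eq_norm_sq] at key
  exact ⟨fun j => abs_le_of_sq_le_sq (key.1 j) (by norm_num),
    (le_abs_self _).trans (abs_le_of_sq_le_sq key.2 (by norm_num))⟩

/-- The level set data. -/
noncomputable def DK (k : Ik) : LS W5 (Euc 4) ℝ where
  J := ContinuousLinearEquiv.ofFinrankEq (by simp [Module.finrank_prod])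
  s := ps k
  smooth := contDiff_ps k
  reg := fun p h c => ⟨(c / fderiv ℝ (ps k) p (nn k p)) • nn k p, by
    rw [map_smul, smul_eq_mul, div_mul_cancel₀ _ (ps_nu h)]⟩
  refl := (exists_det (V := Euc 4) (-1) (by norm_num)).elim fun R h =>
    ⟨R, h.trans_lt (by norm_num)⟩

section
variable (h : Loops γ)
include h

lemma qq_per (k : Ik) (u : Euc 4) (a : Fin 4 → ℤ) : qq γ k (u + lat a) = qq γ k u := by
  cases k
  exacts [h.qL_per _ u a, qK_per _ u a]

lemma continuous_qq (k : Ik) : Continuous (qq γ k) := by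
  cases k
  exacts [h.continuous_qL _, continuous_qK _]

lemma qq_sep {k' : Ik} (h1 : qq γ k u < 6) (h2 : qq γ k' u < 6) : k = k' := by
  rcases k with l | i <;> rcases k' with l' | i'
  · rw [h.sep l l' u h1 h2]
  · exact absurd h2 (not_lt.2 (h.av l i' u h1).le)
  · exact absurd h1 (not_lt.2 (h.av l' i u h2).le)
  · rw [qK_sep h1 h2]

lemma JJ_per (k : Ik) (u : Euc 4) (a : Fin 4 → ℤ) : JJ γ k (u + lat a) = JJ γ k u := by
  cases k
  exacts [(JL_spec h _).1 u a, JK_per _ u a]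

lemma JJ_spec (h1 : 1 < qq γ k u) (h2 : qq γ k u < 4) : ps k (JJ γ k u) = 0 ∧
    ContDiffAt ℝ ∞ (JJ γ k) u ∧ Injective (fderiv ℝ (JJ γ k) u) ∧
      QQ k (JJ γ k u) = qq γ k u := by
  rcases k with l | i
  · obtain ⟨a, b, c⟩ := (JL_spec h l).2.1 u h1 h2
    exact ⟨a, b, c, rfl⟩
  · obtain ⟨a, b, c, d⟩ := (JK_spec i).2.1 u h1 h2
    exact ⟨a, b, c, congrArg (· ^ 2 + n2 i u ^ 2) d⟩

lemma JJ_inj (h1 : 1 < qq γ k u) (h2 : qq γ k u < 4) (h3 : 1 < qq γ k v) (h4 : qq γ k v < 4)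
    (e : JJ γ k u = JJ γ k v) : ∃ a, v = u + lat a := by
  rcases k with l | i
  exacts [(JL_spec h l).2.2.1 u v h1 e, (JK_spec i).2.2.1 u v h1 h2 h3 h4 e]

lemma JJ_sur (h0 : ps k p = 0) (h1 : 1 < QQ k p) (h2 : QQ k p < 4) :
    ∃ u, (∀ k, 1 < qq γ k u) ∧ qq γ k u = QQ k p ∧ JJ γ k u = p := by
  suffices H : ∃ u, 1 < qq γ k u ∧ qq γ k u < 4 ∧ JJ γ k u = p by
    obtain ⟨u, a, b, c⟩ := H
    refine ⟨u, fun k' => ?_, by rw [← c, (JJ_spec h a b).2.2.2], c⟩
    by_contra h3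
    exact h3 (qq_sep h (b.trans (by norm_num)) ((not_lt.1 h3).trans_lt (by norm_num)) ▸ a)
  rcases k with l | i
  · obtain ⟨u, rfl⟩ := (JL_spec h l).2.2.2 p h0 (fun e => by simp [QL h0, e] at h1) h2
    exact ⟨u, h1, h2, rfl⟩
  · refine (JK_spec i).2.2.2 p h0 (fun e => ?_) h2
    rw [Prod.mk_eq_zero] at e
    simp [QK h0, e] at h1

end

/-- Normal vectors of the loops. -/
noncomputable def emb (y : Fin 3 → ℝ) : Euc 4 := !₂[y 0 / 20000, y 1 / 20000, y 2 / 20000, 0]

lemma emb_cast (y : Fin 3 → ℝ) (j : Fin 3) : emb y j.castSucc = y j / 20000 := by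
  fin_cases j <;> rfl

lemma contDiff_emb : ContDiff ℝ ∞ emb := contDiff_euclidean.2 fun j => by
  fin_cases j <;> simp [emb] <;> fun_prop

/-- The deformation which contracts tubes onto the loops. -/
noncomputable def rho (γ : Rel → ℝ → Euc 4) (τ : ℝ) (u : Euc 4) : Euc 4 :=
  u - ∑ l, (τ * st (11 / 2 - qL γ l u)) • emb (yL γ l u)

lemma rho_zero (u : Euc 4) : rho γ 0 u = u := by simp [rho]

lemma rho_far (h : ∀ l, 6 ≤ qL γ l u) (τ : ℝ) : rho γ τ u = u := by
  rw [rho, Finset.sum_eq_zero, sub_zero]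
  intro l _
  rw [st, Real.smoothTransition.zero_of_nonpos (by linarith [h l]), mul_zero, zero_smul]

variable (h : Loops γ) {l : Rel}
include h

lemma rho_near (hu : qL γ l u < 6) (τ : ℝ) :
    rho γ τ u = u - (τ * st (11 / 2 - qL γ l u)) • emb (yL γ l u) := by
  rw [rho, Finset.sum_eq_single l _ (by simp)]
  intro l' _ hl
  rw [st, Real.smoothTransition.zero_of_nonpos, mul_zero, zero_smul]
  exact by_contra fun h1 => hl (h.sep _ _ u (by linarith [not_le.1 h1]) hu)

lemma rho_per (τ : ℝ) (u : Euc 4) (a : Fin 4 → ℤ) : rho γ τ (u + lat a) = rho γ τ u + lat a := by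
  simp only [rho, h.qL_per, h.yL_per, add_sub_right_comm]

lemma contDiff_rho : ContDiff ℝ ∞ fun q : ℝ × Euc 4 => rho γ q.1 q.2 := by
  refine contDiff_snd.sub (ContDiff.sum fun l _ => contDiff_iff_contDiffAt.2 fun q => ?_)
  rcases lt_or_ge (qL γ l q.2) 100 with h1 | h1
  · have h2 := (h.contDiffAt_qL h1).comp q contDiffAt_snd
    exact (contDiffAt_fst.mul (Real.smoothTransition.contDiffAt.comp q
      (contDiffAt_const.sub h2))).smul (contDiff_emb.contDiffAt.comp q
        ((h.contDiffAt_yL h1).comp q contDiffAt_snd))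
  · refine (contDiffAt_const (c := 0)).congr_of_eventuallyEq ?_
    filter_upwards [continuousAt_const.eventually_lt ((h.continuous_qL l).comp
      continuous_snd).continuousAt (show (6 : ℝ) < qL γ l q.2 by linarith)] with r hr
    rw [st, Real.smoothTransition.zero_of_nonpos (by have : 6 < qL γ l r.2 := hr; linarith),
      mul_zero, zero_smul]

lemma contDiff_rho1 : ContDiff ℝ ∞ (rho γ 1) := by
  simpa only [comp_def] using (contDiff_rho h).comp (contDiff_prodMk_right (1 : ℝ))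

omit h in
lemma yL_bd (hu : qL γ l u < 6) (j : Fin 3) : |yL γ l u j| < 10000 :=
  abs_fr_lt ((Finset.single_le_sum (f := fun j => yL γ l u j ^ 2) (fun _ _ => sq_nonneg _)
    (Finset.mem_univ j)).trans_lt hu) (by norm_num)

lemma rho_moB {τ : ℝ} (hτ : τ ∈ Icc (0 : ℝ) 1) (hu : u ∈ moB) : rho γ τ u ∈ moB := by
  by_cases h1 : ∀ l, 6 ≤ qL γ l u
  · rwa [rho_far h1]
  obtain ⟨l, hl⟩ := not_forall.1 h1
  rw [not_le] at hl
  obtain ⟨s, s0, s1, hs⟩ : ∃ s, 0 ≤ s ∧ s ≤ 1 ∧ rho γ τ u = u - s • emb (yL γ l u) :=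
    ⟨_, mul_nonneg hτ.1 (Real.smoothTransition.nonneg _),
      mul_le_one₀ hτ.2 (Real.smoothTransition.nonneg _) (Real.smoothTransition.le_one _),
      rho_near h hl τ⟩
  have h2 : ∀ j, yL γ l (rho γ τ u) j = (1 - s) * yL γ l u j := fun j => by
    have h3 := abs_lt.1 (yL_bd hl j)
    obtain ⟨m, hm⟩ := mo_fr_spec (u j.castSucc - γ l (u 3) j.castSucc)
    refine mo_fr m ?_ (by nlinarith) (by nlinarith)
    have h4 : rho γ τ u 3 = u 3 := by simp [hs, emb]
    rw [h4, hs, PiLp.sub_apply, PiLp.smul_apply, emb_cast, yL, smul_eq_mul]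
    linarith
  have h3 : qL γ l (rho γ τ u) = (1 - s) ^ 2 * qL γ l u := by
    simp only [qL, h2, mul_pow, Finset.mul_sum]
  have h4 : 0 ≤ qL γ l u := Finset.sum_nonneg fun _ _ => sq_nonneg _
  have h5 : (1 - s) ^ 2 ≤ 1 := by nlinarith
  exact fun i => lt_trans (by norm_num) (h.av l i _ (by nlinarith))

lemma tube_loc (hu : qL γ l u < 6) :
    ∃ m, ∀ᶠ v in 𝓝 u, v = γ l (v 3) + emb (yL γ l v) + lat m := by
  refine ⟨Fin.lastCases 0 fun j => round (u j.castSucc - γ l (u 3) j.castSucc), ?_⟩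
  filter_upwards [eventually_all.2 fun j => (h.contDiff_arg l j).continuous.continuousAt.eventually
    (fr_loc (yL_bd hu j))] with v hv
  ext j
  refine Fin.lastCases ?_ (fun j => ?_) j
  · simp only [PiLp.add_apply, lat_apply, Fin.lastCases_last]
    exact ((congrArg (· + 0 + ((0 : ℤ) : ℝ)) (h.last l (v 3))).trans (by simp)).symm
  · simp only [PiLp.add_apply, lat_apply, Fin.lastCases_castSucc, emb_cast, yL, hv j]
    ring

lemma rho_loc (hu : qL γ l u < 9 / 2) :
    ∃ m, rho γ 1 =ᶠ[𝓝 u] (fun t => γ l t + lat m) ∘ fun v => v 3 := by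
  obtain ⟨m, hm⟩ := tube_loc h (hu.trans (by norm_num))
  refine ⟨m, ?_⟩
  filter_upwards [hm, (h.continuous_qL l).continuousAt.eventually_lt continuousAt_const hu]
    with v a b
  rw [rho_near h (b.trans (by norm_num)), st, Real.smoothTransition.one_of_one_le (by linarith),
    mul_one, one_smul, sub_eq_iff_eq_add, comp, add_right_comm]
  exact a

lemma tube_eq {D : Set (Fin 3 → ℝ)} (hD : ∀ y ∈ D, ∑ j, y j ^ 2 < 6) :
    {t | dn (yL γ l) t ∈ D} = (fun q => qm Lat (γ l q.2 + emb q.1)) '' D ×ˢ univ := by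
  ext t
  obtain ⟨u, rfl⟩ := Quotient.mk_surjective t
  refine ⟨fun hu => ?_, ?_⟩
  · rw [mem_ofPred_eq, dn_qm (h.yL_per l)] at hu
    obtain ⟨m, hm⟩ := tube_loc h (hD _ hu)
    exact ⟨(_, u 3), ⟨hu, trivial⟩, (tt_eq.2 ⟨m, hm.self_of_nhds⟩).symm⟩
  · rintro ⟨⟨y, s⟩, ⟨hy, -⟩, e⟩
    rw [← e, mem_ofPred_eq, dn_qm (h.yL_per l)]
    convert hy
    ext j
    have h1 : (γ l s + emb y) 3 = s := by simp [emb, h.last]
    rw [yL, h1, PiLp.add_apply, add_sub_cancel_left, emb_cast, fr_small]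
    exact abs_lt_of_sq_lt_sq ((Finset.single_le_sum (f := fun j => y j ^ 2)
      (fun _ _ => sq_nonneg _) (Finset.mem_univ j)).trans_lt ((hD y hy).trans (by norm_num)))
      (by norm_num)

lemma precon_tube {D : Set (Euc 3)} (hD : IsConnected D) (h' : ∀ y ∈ D, ‖y‖ < 2) :
    IsConnected {t | WithLp.toLp 2 (dn (yL γ l) t) ∈ D} := by
  have h1 := (h.sm l).continuous
  have h2 := contDiff_emb.continuous
  have h3 := tube_eq h (l := l) (D := WithLp.toLp 2 ⁻¹' D) fun y hy => by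
    have := EuclideanSpace.real_norm_sq_eq (WithLp.toLp 2 y)
    have := h' _ hy
    nlinarith [norm_nonneg (WithLp.toLp 2 y)]
  refine h3 ▸ (IsConnected.prod ?_ isConnected_univ).image _
    ((qm_cov (Euc 4) Lat).continuous.comp (by fun_prop)).continuousOn
  exact ((PiLp.homeomorph 2 fun _ : Fin 3 => ℝ).symm.isConnected_preimage).2 hD

/-- The maps of the fillings to the group. -/
noncomputable def GG (c : Rel → ℝ → GR) : Ik → W5 → GR :=
  Sum.elim (fun l p => st (2 * Complex.normSq p.2 - 1) • c l (p.2.arg / (2 * π))) fun i p =>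
    ((Pi.single 7 (p.2.arg / (2 * π)), 0) : GR) +
      jmp (3 - Complex.normSq p.2) (p.1 2) • (gen i • (0 : GR))

omit h

lemma qm_central (t : ℝ) (m : ℤ) (x : GR) :
    qm Gf (((Pi.single 7 (t + m), 0) : GR) + x) = qm Gf (((Pi.single 7 t, 0) : GR) + x) := by
  rw [← qm_smul (ioG (Pi.single 3 m)) (((Pi.single 7 t, 0) : GR) + x), ioG_smul, ← add_assoc]
  congr 2
  refine Prod.ext (funext fun j => ?_) (by simp)
  simp only [Prod.fst_add, Pi.add_apply]
  fin_cases j <;> simp [io, cz, add_comm]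

lemma per_int {c : ℝ → GR} (h : Periodic c 1) (t : ℝ) (m : ℤ) : c (t + m) = c t := by
  simpa using h.int_mul m t

lemma arg_ee {r : ℝ} (hr : 0 < r) (t : ℝ) : ∃ m : ℤ, (r • ee t).arg / (2 * π) = t + m := by
  have := polar_ee (r • ee t)
  rw [norm_smul, norm_ee, mul_one, Real.norm_of_nonneg hr.le] at this
  exact int_of_ee (smul_right_injective _ hr.ne' this)

variable {c : Rel → ℝ → GR}

lemma GG_loc (hc : ∀ l, ContDiff ℝ ∞ (c l) ∧ Periodic (c l) 1) (h0 : ps k p = 0) (h1 : QQ k p < 4) :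
    ∃ F : W5 → GR, (∀ᶠ v in 𝓝 p, ContDiffAt ℝ ∞ F v ∧ qm Gf (F v) = qm Gf (GG c k v)) ∧
      ∀ T : Euc 4 →L[ℝ] W5, ¬Injective ((fderiv ℝ F p).comp T) := by
  have hn := contDiff_nsq
  rcases k with l | i
  · obtain ⟨g, hg⟩ : ∃ g : ℂ → GR, ∀ᶠ w in 𝓝 p.2, ContDiffAt ℝ ∞ g w ∧
        g w = st (2 * Complex.normSq w - 1) • c l (w.arg / (2 * π)) := by
      by_cases h2 : p.2 = 0
      · refine ⟨fun _ => 0, ?_⟩
        filter_upwards [Complex.continuous_normSq.continuousAt.eventually_lt continuousAt_const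
          (show Complex.normSq p.2 < 1 / 2 by simp [h2])] with w hw
        rw [st, Real.smoothTransition.zero_of_nonpos (by linarith), zero_smul]
        exact ⟨contDiffAt_const, rfl⟩
      obtain ⟨θ, hθ⟩ := arg_loc h2
      refine ⟨fun w => st (2 * Complex.normSq w - 1) • c l (θ w), hθ.mono fun w ⟨a, m, b⟩ => ⟨?_, ?_⟩⟩
      · exact (Real.smoothTransition.contDiffAt.comp w ((contDiffAt_const.mul
          ((hn.comp (contDiff_prodMk_right 0)).contDiffAt)).sub contDiffAt_const)).smul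
          ((hc l).1.contDiffAt.comp w a)
      · rw [b, per_int (hc l).2]
    exact ⟨g ∘ Prod.snd, (continuousAt_snd.eventually hg).mono fun v a =>
      ⟨a.1.comp v contDiffAt_snd, congrArg _ a.2⟩, not_inj (by simp) differentiableAt_snd
        (hg.self_of_nhds.1.differentiableAt (by simp))⟩
  · have h2 : (3 - Complex.normSq p.2) ^ 2 + p.1 2 ^ 2 < 4 := h1
    obtain ⟨θ, hθ⟩ := arg_loc (w := p.2) fun e => by
      rw [e, map_zero] at h2
      nlinarith [sq_nonneg (p.1 2)]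
    let H : W5 → ℝ × ℝ × ℝ := fun v => (θ v.2, 3 - Complex.normSq v.2, v.1 2)
    have hH : ∀ v : W5, ContDiffAt ℝ ∞ θ v.2 → ContDiffAt ℝ ∞ H v := fun v a =>
      (a.comp v contDiffAt_snd).prodMk ((contDiffAt_const.sub hn.contDiffAt).prodMk (by fun_prop))
    obtain ⟨F, hF⟩ := jmp_loc i (w := H p) fun e => by
      have h3 : (3 - Complex.normSq p.2) ^ 2 + p.1 2 ^ 2 = _ := QK h0
      rw [show 3 - Complex.normSq p.2 = 0 from congrArg Prod.fst e,
        show p.1 2 = 0 from congrArg Prod.snd e] at h3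
      nlinarith [sq_nonneg (p.1 0), sq_nonneg (p.1 1)]
    have h3 := hH p hθ.self_of_nhds.1
    refine ⟨F ∘ H, ?_, not_inj (by simp) (h3.differentiableAt (by simp))
      (hF.self_of_nhds.1.differentiableAt (by simp))⟩
    filter_upwards [continuousAt_snd.eventually hθ, h3.continuousAt.eventually hF]
      with v ⟨a, m, b⟩ d
    refine ⟨d.1.comp v (hH v a), d.2.trans ?_⟩
    rw [GG, Sum.elim_inr, b, qm_central]

lemma GG_JJ (h : Loops γ) (hc : ∀ l, Periodic (c l) 1 ∧ ∀ t, qm Gf (c l t) = ph0 (qm Lat (γ l t)))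
    (h1 : 1 < qq γ k u) (h2 : qq γ k u < 4) (h3 : ∀ l, 2 ≤ qL γ l u) :
    qm Gf (GG c k (JJ γ k u)) = qm Gf (dev (rho γ 1 u)) := by
  rcases k with l | i
  · obtain ⟨m, hm⟩ := arg_ee (Real.sqrt_pos.2 (sub_pos.2 h1)) (u 3)
    obtain ⟨a, ha⟩ := rho_loc h (l := l) (h2.trans (by norm_num))
    change qm Gf (st (2 * Complex.normSq (_ • _) - 1) • c l (Complex.arg (_ • _) / _)) = _
    rw [nsq_ee, Real.sq_sqrt (by linarith [h3 l]), st, Real.smoothTransition.one_of_one_le
      (by linarith [h3 l]), one_smul, ha.self_of_nhds, comp, dev_per, qm_smul, ← ph0_qm,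
      ← (hc l).2, ← per_int (hc l).1 (u 3) m, ← hm]
    rfl
  · have h4 : qK i u < 4 := h2
    obtain ⟨m, hm⟩ := arg_ee (Real.sqrt_pos.2 (show 0 < 3 - n1 u by linarith [n1_bd h4])) (u 3)
    rw [rho_far fun l => not_lt.1 fun a => by linarith [h.av l i u a],
      dev_tube (h4.trans (by norm_num)), ← qm_central _ m, ← hm, GG, JJ, Sum.elim_inr,
      Sum.elim_inr, nsq_JK h4]
    rfl

end Pool.Agent.Lib.MP_029589_gt.Mz
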