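import Pool.Agent.Lib.MP_029589_gt.MzB

/-! The glued manifold and its map to the nilmanifold. -/

set_option autoImplicit false

open scoped Manifold ContDiff Topology Real
open Set Filter Function Topology Metric

namespace Pool.Agent.Lib.MP_029589_gt.Mz

/-- The fillings. -/
abbrev PP (k : Ik) : Type := (DK k).Z

instance (k : Ik) : Nonempty (PP k) := by
  cases k
  · exact ⟨⟨(![1, 0, 0], 0), show psL _ = 0 by simp [psL, Fin.sum_univ_three]⟩⟩
  · exact ⟨⟨(0, 2), show psK _ = 0 by norm_num [psK]⟩⟩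

open Classical in
/-- Points of the ambient space as points of the fillings. -/
noncomputable def rr (k : Ik) (p : W5) : PP k :=
  if h : ps k p = 0 then ⟨p, h⟩ else Classical.arbitrary _

variable {γ : Rel → ℝ → Euc 4} {k : Ik} {u v : Euc 4}

lemma rr_val {p : W5} (h : ps k p = 0) : (rr k p).1 = p := congrArg Subtype.val (dif_pos h)

lemma rr_self (p : PP k) : rr k p.1 = p := Subtype.ext (rr_val p.2)

lemma continuousOn_rr : ContinuousOn (rr k) {p | ps k p = 0} :=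
  IsInducing.subtypeVal.continuousOn_iff.2 (continuousOn_id.congr fun _ h => rr_val h)

lemma isOpen_Q (k : Ik) (c : ℝ) : IsOpen {p : PP k | QQ k p.1 < c} :=
  isOpen_lt ((continuous_QQ k).comp continuous_subtype_val) continuous_const

instance : CompactSpace TT := ⟨by
  refine ((isCompact_Icc (a := (0 : Fin 4 → ℝ)) (b := 1)).image ((qm_cov (Euc 4) Lat).continuous.comp
    (PiLp.continuous_toLp 2 _))).of_isClosed_subset isClosed_univ fun t _ => ?_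
  obtain ⟨u, rfl⟩ := Quotient.mk_surjective t
  exact ⟨fun j => Int.fract (u j), ⟨fun j => Int.fract_nonneg _, fun j => (Int.fract_lt_one _).le⟩,
    (tt_eq.2 ⟨fun j => ⌊u j⌋, by ext j; simp⟩).symm⟩⟩

/-- The result of the surgeries. -/
structure Gl (γ : Rel → ℝ → Euc 4) where
  /-- The manifold. -/
  Y : Type
  [top : TopologicalSpace Y]
  [chart : ChartedSpace (Euc 4) Y]
  [mf : IsManifold (𝓡 4) ∞ Y]
  [t2 : T2Space Y]
  [sc : SecondCountableTopology Y]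
  /-- The exterior. -/
  i : TT → Y
  /-- The fillings. -/
  e : ∀ k, PP k → Y
  ild : ∀ t, (∀ k, 1 < dn (qq γ k) t) → LD (Euc 4) i t
  eld : ∀ k p, QQ k p.1 < 4 → LD (Euc 4) (e k) p
  iinj : InjOn i {t | ∀ k, 1 < dn (qq γ k) t}
  einj : ∀ k, InjOn (e k) {p | QQ k p.1 < 4}
  sur : ∀ y, (∃ u, (∀ k, 1 < qq γ k u) ∧ i (qm Lat u) = y) ∨ ∃ k p, QQ k p.1 < 4 ∧ e k p = y
  rel : ∀ k u p, (∀ k, 1 < qq γ k u) → QQ k p.1 < 4 →
    (i (qm Lat u) = e k p ↔ qq γ k u < 4 ∧ JJ γ k u = p.1)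
  dis : ∀ k k' p p', QQ k p.1 < 4 → QQ k' p'.1 < 4 → e k p = e k' p' → k = k'

attribute [instance] Gl.top Gl.chart Gl.mf Gl.t2 Gl.sc

variable (h : Loops γ)
include h

lemma dq (k : Ik) (u : Euc 4) : dn (qq γ k) (qm Lat u) = qq γ k u := dn_qm (qq_per h k) u

lemma continuous_dq (k : Ik) : Continuous (dn (qq γ k)) :=
  continuous_dn (qq_per h k) (continuous_qq h k)

lemma ev_q (h1 : 1 < qq γ k u) (h2 : qq γ k u < 4) :
    ∀ᶠ v in 𝓝 u, 1 < qq γ k v ∧ qq γ k v < 4 :=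
  (continuous_qq h k).continuousAt.eventually (Ioo_mem_nhds h1 h2)

lemma ev_all {c : Ik → ℝ} (h1 : ∀ k, c k < qq γ k u) : ∀ᶠ v in 𝓝 u, ∀ k, c k < qq γ k v :=
  eventually_all.2 fun k => continuousAt_const.eventually_lt (continuous_qq h k).continuousAt (h1 k)

lemma J_md (h1 : 1 < qq γ k u) (h2 : qq γ k u < 4) :
    ContMDiffAt (𝓡 4) (𝓡 4) ∞ (rr k ∘ JJ γ k) u ∧ (LS.tan (rr k (JJ γ k u))).comp
      (md (Euc 4) (Euc 4) (rr k ∘ JJ γ k) u) = fderiv ℝ (JJ γ k) u := by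
  have e : (fun x => ((rr k ∘ JJ γ k) x).1) =ᶠ[𝓝 u] JJ γ k :=
    (ev_q h h1 h2).mono fun v a => rr_val (JJ_spec h a.1 a.2).1
  have a := LS.contMDiffAt_to ((JJ_spec h h1 h2).2.1.contMDiffAt.congr_of_eventuallyEq e)
  refine ⟨a, ?_⟩
  rw [← md_eq_fderiv, ← md_congr e]
  exact (md_comp (LS.mdiff_val _) (a.mdifferentiableAt (by simp))).symm

lemma J_ld (h1 : 1 < qq γ k u) (h2 : qq γ k u < 4) : LD (Euc 4) (rr k ∘ JJ γ k) u :=
  LD.of_det ((ev_q h h1 h2).mono fun _ a => (J_md h a.1 a.2).1) (Injective.of_comp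
    (f := LS.tan (rr k (JJ γ k u))) ((J_md h h1 h2).2 ▸ (JJ_spec h h1 h2).2.2.1 :
      Injective ((LS.tan (rr k (JJ γ k u))).comp (md (Euc 4) (Euc 4) (rr k ∘ JJ γ k) u))))

lemma gt_all {c : ℝ} (hc : c < 6) (h1 : c < qq γ k u) (h2 : qq γ k u < 6) (k' : Ik) :
    c < qq γ k' u :=
  by_contra fun h3 => h3 (qq_sep h h2 ((not_lt.1 h3).trans_lt hc) ▸ h1)

lemma conn_tube (l : Rel) : IsConnected {t | dn (qq γ (.inl l)) t < 4} ∧
    IsConnected {t | 2 < dn (qq γ (.inl l)) t ∧ dn (qq γ (.inl l)) t < 4} := by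
  have e : ∀ t, dn (qq γ (.inl l)) t = ‖(WithLp.toLp 2 (dn (yL γ l) t) : Euc 3)‖ ^ 2 := fun t =>
    (EuclideanSpace.real_norm_sq_eq (WithLp.toLp 2 (dn (yL γ l) t))).symm
  constructor
  · convert precon_tube h (l := l) (isConnected_ball (x := 0) two_pos)
      fun y hy => mem_ball_zero_iff.1 hy using 3 with t
    rw [e, mem_ball_zero_iff, ← sq_lt_sq₀ (norm_nonneg _) two_pos.le]
    norm_num
  · have h2 : √2 < 2 := Real.sqrt_two_lt_three_halves.trans (by norm_num)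
    convert precon_tube h (l := l) (D := {v | ‖v‖ ∈ Ioo √2 2})
      ⟨⟨EuclideanSpace.single 0 (3 / 2), by
        simpa [abs_of_pos] using ⟨Real.sqrt_two_lt_three_halves, by norm_num⟩⟩,
        precon_shell (by norm_num) isPreconnected_Ioo fun x hx => lt_trans (by positivity) hx.1⟩
      fun y hy => hy.2 using 3 with t
    rw [e, mem_ofPred_eq, mem_Ioo, ← sq_lt_sq₀ (norm_nonneg _) two_pos.le,
      ← sq_lt_sq₀ (Real.sqrt_nonneg _) (norm_nonneg _), Real.sq_sqrt two_pos.le]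
    norm_num

theorem exists_gl : Nonempty (Gl γ) := by
  have hJ : ∀ k u, dn (rr k ∘ JJ γ k) (qm Lat u) = rr k (JJ γ k u) := fun k =>
    dn_qm fun u a => congrArg (rr k) (JJ_per h k u a)
  have hv : ∀ k u, 1 < qq γ k u → qq γ k u < 4 → (rr k (JJ γ k u)).1 = JJ γ k u :=
    fun k u a b => rr_val (JJ_spec h a b).1
  have hQ : ∀ k t, 1 < dn (qq γ k) t → dn (qq γ k) t < 4 →
      QQ k (dn (rr k ∘ JJ γ k) t).1 = dn (qq γ k) t := fun k t => by
    obtain ⟨u, rfl⟩ := Quotient.mk_surjective t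
    rw [dq h, hJ]
    exact fun a b => by rw [hv k u a b, (JJ_spec h a b).2.2.2]
  obtain ⟨Y, _, _, i, e, a1, a2, a3, a4, a5, a6, a7, a8, a9, a10⟩ := exists_glue_mfd (V := Euc 4)
    (A0 := {t | ∀ k, 1 < dn (qq γ k) t}) (P0 := fun k => {p : PP k | QQ k p.1 < 4})
    (T := fun k => dn (qq γ k) ⁻¹' Ioo 1 4) (J := fun k => dn (rr k ∘ JJ γ k))
    (by
      rw [ofPred_forall]
      exact isOpen_iInter_of_finite fun k => isOpen_lt continuous_const (continuous_dq h k))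
    ((conn_tube h (.inl (0, 0))).2.1.mono fun t ht => gt_all h (by norm_num)
      (one_lt_two.trans ht.1) (ht.2.trans (by norm_num)))
    (isOpen_Q · 4) (fun k => isOpen_Ioo.preimage (continuous_dq h k))
    (fun k t ht => gt_all h (by norm_num) ht.1 (ht.2.trans (by norm_num)))
    (fun k k' hk => Set.disjoint_left.2 fun t a b =>
      hk (qq_sep h (a.2.trans (by norm_num)) (b.2.trans (by norm_num))))
    (fun k t ht => by
      obtain ⟨u, rfl⟩ := Quotient.mk_surjective t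
      rw [mem_preimage, dq h] at ht
      exact (tt_ld u).of_comp ((J_ld h ht.1 ht.2).congr (.of_forall (hJ k))))
    (fun k t ht t' ht' e => by
      obtain ⟨u, rfl⟩ := Quotient.mk_surjective t
      obtain ⟨v, rfl⟩ := Quotient.mk_surjective t'
      rw [mem_preimage, dq h] at ht ht'
      rw [hJ, hJ, Subtype.ext_iff, hv k u ht.1 ht.2, hv k v ht'.1 ht'.2] at e
      exact (tt_eq.2 (JJ_inj h ht.1 ht.2 ht'.1 ht'.2 e)).symm)
    (fun k t ht => (hQ k t ht.1 ht.2).trans_lt ht.2)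
    (fun k t h1 h2 q hq => by
      obtain ⟨c, c1, c2⟩ := exists_between (show QQ k q.1 < 4 from hq)
      refine disjoint_of_disjoint_of_mem (s := {p | QQ k p.1 < c}ᶜ) disjoint_compl_left ?_
        ((isOpen_Q k c).mem_nhds c1)
      rw [mem_map]
      filter_upwards [self_mem_nhdsWithin, nhdsWithin_le_nhds (continuousAt_const.eventually_lt
        (continuous_dq h k).continuousAt (c2.trans_le (not_lt.1 fun a => h2 ⟨h1 k, a⟩)))]
        with s s1 s2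
      exact not_lt.2 ((hQ k s s1.1 s1.2).symm ▸ s2.le))
  refine ⟨⟨Y, i, e, a4, a5, a6, a7, fun y => (a8 y).imp_left ?_, fun k u p b c => ?_,
    fun k k' p p' b c => a10 k k' p b p' c⟩⟩
  · rintro ⟨t, ht, rfl⟩
    obtain ⟨u, rfl⟩ := Quotient.mk_surjective t
    exact ⟨u, fun k => dq h k u ▸ ht k, rfl⟩
  · rw [a9 k _ (fun k => (dq h k u).symm ▸ b k) p c, mem_preimage, dq h, hJ, mem_Ioo,
      and_iff_right (b k), Subtype.ext_iff]
    exact and_congr_right fun d => by rw [hv k u (b k) d]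

namespace Gl

variable (G : Gl γ)

lemma jld (hu : ∀ k, 1 < qq γ k u) : LD (Euc 4) (G.i ∘ qm Lat) u :=
  (tt_ld u).cmp (G.ild _ fun k => (dq h k u).symm ▸ hu k)

lemma jinj (hu : ∀ k, 1 < qq γ k u) (hv : ∀ k, 1 < qq γ k v)
    (e : G.i (qm Lat u) = G.i (qm Lat v)) : ∃ a, u = v + lat a :=
  tt_eq.1 (G.iinj (fun k => (dq h k u).symm ▸ hu k) (fun k => (dq h k v).symm ▸ hv k) e)

lemma jrr (hu : ∀ k, 1 < qq γ k u) (h2 : qq γ k u < 4) :
    QQ k (rr k (JJ γ k u)).1 = qq γ k u ∧ G.i (qm Lat u) = G.e k (rr k (JJ γ k u)) := by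
  obtain ⟨a, -, -, b⟩ := JJ_spec h (hu k) h2
  have c : QQ k (rr k (JJ γ k u)).1 = qq γ k u := by rw [rr_val a, b]
  exact ⟨c, (G.rel k u _ hu (c.trans_lt h2)).2 ⟨h2, (rr_val a).symm⟩⟩

lemma cases {c : ℝ} (c1 : 1 < c) (c2 : c ≤ 4) (y : G.Y) :
    (∃ u, (∀ k, c ≤ qq γ k u) ∧ G.i (qm Lat u) = y) ∨ ∃ k p, QQ k p.1 < c ∧ G.e k p = y := by
  rw [or_iff_not_imp_right]
  intro h1
  rcases G.sur y with ⟨u, a, rfl⟩ | ⟨k, p, a, rfl⟩
  · refine ⟨u, fun k => not_lt.1 fun b => ?_, rfl⟩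
    obtain ⟨d, e⟩ := G.jrr h a (b.trans_le c2)
    exact h1 ⟨k, _, d.trans_lt b, e.symm⟩
  · have b : c ≤ QQ k p.1 := not_lt.1 fun b => h1 ⟨k, p, b, rfl⟩
    obtain ⟨u, d, e, f⟩ := JJ_sur h p.2 (c1.trans_le b) a
    refine ⟨u, fun k' => not_lt.1 fun g => ?_, (G.rel k u p d a).2 ⟨e.trans_lt a, f⟩⟩
    rw [← qq_sep h ((e.trans_lt a).trans (by norm_num)) (g.trans (by linarith)), e] at g
    exact g.not_ge b

lemma compact : CompactSpace G.Y := by
  have h1 : IsCompact (G.i '' ⋂ k, {t | 2 ≤ dn (qq γ k) t}) :=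
    (isClosed_iInter fun k => isClosed_le continuous_const
      (continuous_dq h k)).isCompact.image_of_continuousOn fun t ht => (G.ild t fun k =>
        one_lt_two.trans_le (mem_iInter.1 ht k)).contMDiffAt.continuousAt.continuousWithinAt
  have h2 : ∀ k, IsCompact (G.e k '' (rr k '' {p | ps k p = 0 ∧ QQ k p ≤ 2})) := fun k =>
    ((cpt_QQ k).image_of_continuousOn (continuousOn_rr.mono fun _ a => a.1)).image_of_continuousOn
      (by
        rintro _ ⟨p, a, rfl⟩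
        exact (G.eld k _ (by rw [rr_val a.1]; linarith [a.2])).contMDiffAt.continuousAt.continuousWithinAt)
  refine ⟨(h1.union (isCompact_iUnion h2)).of_isClosed_subset isClosed_univ fun y _ => ?_⟩
  rcases G.cases h one_lt_two (by norm_num) y with ⟨u, a, rfl⟩ | ⟨k, p, a, rfl⟩
  · exact Or.inl ⟨_, mem_iInter.2 fun k => (a k).trans_eq (dq h k u).symm, rfl⟩
  · exact Or.inr (mem_iUnion_of_mem k ⟨p, ⟨p.1, ⟨p.2, a.le⟩, rr_self p⟩, rfl⟩)

omit h

/-- The description of the map to the nilmanifold. -/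
structure Ph (c : Rel → ℝ → GR) (Φ : G.Y → BB) : Prop where
  lp : Loops γ
  sm : ∀ l, ContDiff ℝ ∞ (c l) ∧ Periodic (c l) 1
  lf : ∀ l t, qm Gf (c l t) = ph0 (qm Lat (γ l t))
  ext : ∀ u, (∀ i, 1 < qK i u) → (∀ l, 2 ≤ qL γ l u) → Φ (G.i (qm Lat u)) = qm Gf (dev (rho γ 1 u))
  int : ∀ k p, QQ k p.1 < 4 → Φ (G.e k p) = qm Gf (GG c k p.1)

lemma exists_ph (h : Loops γ) (h' : Relators γ) : ∃ c Φ, G.Ph c Φ := by
  choose c c1 c2 c3 using h'.lift
  have hu : ∀ u, (∀ i, 1 < qK i u) → (∀ l, 2 ≤ qL γ l u) → ∀ k, 1 < qq γ k u := fun u a b =>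
    Sum.rec (fun l => one_lt_two.trans_le (b l)) a
  have key : ∀ y, ∃ b, (∀ u, (∀ i, 1 < qK i u) → (∀ l, 2 ≤ qL γ l u) → G.i (qm Lat u) = y →
      b = qm Gf (dev (rho γ 1 u))) ∧ ∀ k p, QQ k p.1 < 4 → G.e k p = y → b = qm Gf (GG c k p.1) := by
    intro y
    by_cases h1 : ∃ k p, QQ k p.1 < 4 ∧ G.e k p = y
    · obtain ⟨k, p, a, rfl⟩ := h1
      refine ⟨qm Gf (GG c k p.1), fun u b d e => ?_, fun k' p' b e => ?_⟩
      · obtain ⟨f, g⟩ := (G.rel k u p (hu u b d) a).1 e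
        rw [← g, GG_JJ h (fun l => ⟨c2 l, c3 l⟩) (hu u b d k) f d]
      · obtain rfl := G.dis _ _ _ _ b a e
        rw [G.einj _ b a e]
    · obtain ⟨u, a, rfl⟩ := (G.sur y).resolve_right h1
      refine ⟨qm Gf (dev (rho γ 1 u)), fun v b d e => ?_, fun k p b e => (h1 ⟨k, p, b, e⟩).elim⟩
      obtain ⟨m, rfl⟩ := G.jinj h (hu v b d) a e
      rw [rho_per h, dev_per, qm_smul]
  choose Φ h1 h2 using key
  exact ⟨c, Φ, h, fun l => ⟨c1 l, c2 l⟩, c3, fun u a b => h1 _ u a b rfl,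
    fun k p a => h2 _ k p a rfl⟩

variable {G} {c : Rel → ℝ → GR} {Φ : G.Y → BB}

lemma Ph.lift_e (H : G.Ph c Φ) {p : PP k} (hp : QQ k p.1 < 4) : ∃ Φ' : G.Y → GR,
    (∀ᶠ y in 𝓝 (G.e k p), ContMDiffAt (𝓡 4) 𝓘(ℝ, GR) ∞ Φ' y ∧ qm Gf (Φ' y) = Φ y) ∧
      ¬Injective (md (Euc 4) GR Φ' (G.e k p)) := by
  obtain ⟨F, h1, h2⟩ := GG_loc H.sm p.2 hp
  obtain ⟨Φ', a, b⟩ := lift_desc (G.eld k p hp) (Φ := Φ) (F := fun q => F q.1) (by
    filter_upwards [continuous_subtype_val.continuousAt.eventually h1,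
      (isOpen_Q k 4).mem_nhds hp] with q a b
    exact ⟨a.1.contMDiffAt.comp q (LS.contMDiff_val q), a.2.trans (H.int k q b).symm⟩)
  refine ⟨Φ', a, fun d => h2 (LS.tan p) ?_⟩
  rw [← LS.md_comp_val (h1.self_of_nhds.1.differentiableAt (by simp))]
  exact b d

lemma Ph.lift_i (H : G.Ph c Φ) (hu : ∀ k, 4 ≤ qq γ k u) : ∃ Φ' : G.Y → GR,
    (∀ᶠ y in 𝓝 (G.i (qm Lat u)), ContMDiffAt (𝓡 4) 𝓘(ℝ, GR) ∞ Φ' y ∧ qm Gf (Φ' y) = Φ y) ∧
      (Injective (md (Euc 4) GR Φ' (G.i (qm Lat u))) →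
        (∀ j : Fin 3, rho γ 1 u j.castSucc ∉ Pl) ∧ Injective (fderiv ℝ (rho γ 1) u)) := by
  have h0 : ∀ k, 2 < qq γ k u := fun k => lt_of_lt_of_le (by norm_num) (hu k)
  have hρ := contDiff_rho1 H.lp
  obtain ⟨F, h1, h2⟩ := dev_loc (u := rho γ 1 u) fun i => one_pos.trans
    (rho_moB H.lp (right_mem_Icc.2 zero_le_one) (fun i => one_lt_two.trans (h0 (.inr i))) i)
  obtain ⟨Φ', a, b⟩ := lift_desc (G.jld H.lp fun k => one_lt_two.trans (h0 k)) (Φ := Φ)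
    (F := F ∘ rho γ 1) (by
    filter_upwards [hρ.continuous.continuousAt.eventually h1, ev_all H.lp h0] with v a b
    exact ⟨(a.1.comp v hρ.contDiffAt).contMDiffAt, a.2.trans (H.ext v
      (fun i => one_lt_two.trans (b (.inr i))) fun l => (b (.inl l)).le).symm⟩)
  refine ⟨Φ', a, fun d => ?_⟩
  have e := b d
  rw [md_eq_fderiv] at e
  obtain ⟨e1, e2⟩ := inj_both (hρ.differentiable (by simp) u)
    (h1.self_of_nhds.1.differentiableAt (by simp)) e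
  exact ⟨fun j hj => h2 ⟨j, hj⟩ e1, e2⟩

lemma Ph.lift (H : G.Ph c Φ) (x : G.Y) : ∃ Φ' : G.Y → GR,
    ∀ᶠ y in 𝓝 x, ContMDiffAt (𝓡 4) 𝓘(ℝ, GR) ∞ Φ' y ∧ qm Gf (Φ' y) = Φ y := by
  rcases G.cases H.lp (by norm_num) le_rfl x with ⟨u, a, rfl⟩ | ⟨k, p, a, rfl⟩
  exacts [(H.lift_i a).imp fun _ b => b.1, (H.lift_e a).imp fun _ b => b.1]

lemma Ph.cont (H : G.Ph c Φ) : Continuous Φ := continuous_iff_continuousAt.2 fun x => by
  obtain ⟨Φ', a⟩ := H.lift x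
  exact ((qm_cov GR Gf).continuous.continuousAt.comp a.self_of_nhds.1.continuousAt).congr
    (a.mono fun _ b => b.2)

end Gl

end Pool.Agent.Lib.MP_029589_gt.Mz
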