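import Pool.Agent.Lib.MP_029589_gt.MzC

/-! Topology of the fillings. -/

set_option autoImplicit false

open scoped Manifold ContDiff Topology Real
open Set Filter Function Topology Metric

namespace Pool.Agent.Lib.MP_029589_gt.Mz

/-- Retractions onto the fillings. -/
structure Ret (k : Ik) (R : W5 → W5) (D : Set W5) : Prop where
  mem : ∀ v ∈ D, ps k (R v) = 0 ∧ QQ k (R v) < 4
  cont : ContinuousOn R D
  fix : ∀ p, ps k p = 0 → QQ k p < 4 → p ∈ D ∧ R p = p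

lemma mem_disc {w : ℂ} : w ∈ ball (0 : ℂ) √3 ↔ Complex.normSq w < 3 := by
  rw [mem_ball_zero_iff, Real.lt_sqrt (norm_nonneg _), Complex.normSq_eq_norm_sq]

lemma ret_L (l : Rel) : Ret (.inl l)
    (fun v => (√((Complex.normSq v.2 + 1) / ∑ j, v.1 j ^ 2) • v.1, v.2)) ({0}ᶜ ×ˢ ball 0 √3) := by
  have h0 : ∀ y : Fin 3 → ℝ, y ≠ 0 → ∑ j, y j ^ 2 ≠ 0 := fun y hy h => hy (funext fun j =>
    pow_eq_zero_iff two_ne_zero |>.1 ((Finset.sum_eq_zero_iff_of_nonneg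
      fun _ _ => sq_nonneg _).1 h j (Finset.mem_univ j)))
  refine ⟨fun v hv => ?_, ?_, fun p h1 h2 => ?_⟩
  · have h1 : ∑ j, (√((Complex.normSq v.2 + 1) / ∑ j, v.1 j ^ 2) • v.1) j ^ 2 =
        Complex.normSq v.2 + 1 := by
      have := Complex.normSq_nonneg v.2
      simp only [Pi.smul_apply, smul_eq_mul, mul_pow, ← Finset.mul_sum]
      rw [Real.sq_sqrt (by positivity), div_mul_cancel₀ _ (h0 _ hv.1)]
    exact ⟨show _ - _ + 1 = _ by rw [h1]; ring, h1.trans_lt (by linarith [mem_disc.1 hv.2])⟩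
  · exact ((ContinuousOn.div (by fun_prop) (by fun_prop) fun v hv => h0 _ hv.1).sqrt.smul
      continuousOn_fst).prodMk continuousOn_snd
  · have h3 : ∑ j, p.1 j ^ 2 = _ := QL h1
    have h4 := Complex.normSq_nonneg p.2
    refine ⟨⟨fun e => ?_, mem_disc.2 (by linarith [QL h1])⟩, ?_⟩
    · rw [show p.1 = 0 from e] at h3
      simp at h3
      linarith
    · rw [h3, div_self (by positivity), Real.sqrt_one, one_smul]

/-- The scaling factor of the retraction onto the filling of an unknot. -/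
noncomputable def sK (v : W5) : ℝ :=
  √((v.1 0 ^ 2 + v.1 1 ^ 2 + 1) / ((3 - Complex.normSq v.2) ^ 2 + v.1 2 ^ 2))

lemma ret_K (i : Fin 9) : Ret (.inr i) (fun v => (![v.1 0, v.1 1, sK v * v.1 2],
    √((3 - sK v * (3 - Complex.normSq v.2)) / Complex.normSq v.2) • v.2))
    {v | 0 < (3 - Complex.normSq v.2) ^ 2 + v.1 2 ^ 2 ∧ 0 < Complex.normSq v.2 ∧
      v.1 0 ^ 2 + v.1 1 ^ 2 < 3} := by
  refine ⟨fun v ⟨h1, h2, h3⟩ => ?_, ?_, fun p h1 h2 => ?_⟩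
  · have h4 : (sK v * (3 - Complex.normSq v.2)) ^ 2 + (sK v * v.1 2) ^ 2 =
        v.1 0 ^ 2 + v.1 1 ^ 2 + 1 := by
      rw [mul_pow, mul_pow, ← mul_add, sK, Real.sq_sqrt (by positivity), div_mul_cancel₀ _ h1.ne']
    have h5 : sK v * (3 - Complex.normSq v.2) ≤ 3 := by nlinarith [sq_nonneg (sK v * v.1 2)]
    have h6 : 3 - Complex.normSq (√((3 - sK v * (3 - Complex.normSq v.2)) / Complex.normSq v.2) •
        v.2) = sK v * (3 - Complex.normSq v.2) := by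
      rw [Complex.real_smul, map_mul, Complex.normSq_ofReal, Real.mul_self_sqrt
        (div_nonneg (sub_nonneg.2 h5) h2.le), div_mul_cancel₀ _ h2.ne', sub_sub_cancel]
    exact ⟨show v.1 0 ^ 2 + v.1 1 ^ 2 - ((3 - _) ^ 2 + (sK v * v.1 2) ^ 2) + 1 = 0 by
      rw [h6, h4]; ring, show (3 - _) ^ 2 + (sK v * v.1 2) ^ 2 < 4 by rw [h6, h4]; linarith⟩
  · have h1 : ContinuousOn sK {v | 0 < (3 - Complex.normSq v.2) ^ 2 + v.1 2 ^ 2 ∧
        0 < Complex.normSq v.2 ∧ v.1 0 ^ 2 + v.1 1 ^ 2 < 3} :=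
      (ContinuousOn.div (by fun_prop) (by fun_prop) fun v hv => hv.1.ne').sqrt
    refine ContinuousOn.prodMk (continuousOn_pi.2 fun j => ?_) ((ContinuousOn.div (by fun_prop)
      (by fun_prop) fun v hv => hv.2.1.ne').sqrt.smul continuousOn_snd)
    fin_cases j
    exacts [show ContinuousOn (fun v : W5 => v.1 0) _ by fun_prop,
      show ContinuousOn (fun v : W5 => v.1 1) _ by fun_prop, h1.mul (by fun_prop)]
  · have h3 : (3 - Complex.normSq p.2) ^ 2 + p.1 2 ^ 2 = _ := QK h1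
    have h4 : (3 - Complex.normSq p.2) ^ 2 + p.1 2 ^ 2 < 4 := h2
    have h5 : 0 < Complex.normSq p.2 := by nlinarith [sq_nonneg (p.1 2)]
    have h6 : sK p = 1 := by rw [sK, h3, div_self (by positivity), Real.sqrt_one]
    refine ⟨⟨by rw [h3]; positivity, h5, by linarith⟩, Prod.ext (funext fun j => ?_) ?_⟩
    · fin_cases j <;> simp [h6]
    · simp [h6, h5.ne']

lemma open_img {M N : Type} [TopologicalSpace M] [TopologicalSpace N] {f : M → N} {A : Set M}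
    (hA : IsOpen A) (h : ∀ x ∈ A, map f (𝓝 x) = 𝓝 (f x)) : IsOpen (f '' A) :=
  isOpen_iff_mem_nhds.2 fun _ ⟨x, a, b⟩ => b ▸ h x a ▸ image_mem_map (hA.mem_nhds a)

variable {γ : Rel → ℝ → Euc 4} {k : Ik} (G : Gl γ)

/-- The thresholds. -/
def thr : Ik → ℝ := Sum.elim (fun _ => 2) fun _ => 1

lemma thr_ge (k : Ik) : 1 ≤ thr k := by
  cases k
  exacts [one_le_two, le_rfl]

variable (γ) in
/-- The complement of the tubes. -/
def Ot : Set TT := {t | ∀ k, thr k < dn (qq γ k) t}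

lemma Ot_gt {t : TT} (h : t ∈ Ot γ) (k : Ik) : 1 < dn (qq γ k) t := (thr_ge k).trans_lt (h k)

lemma isOpen_Ot (h : Loops γ) : IsOpen (Ot γ) := by
  rw [Ot, ofPred_forall]
  exact isOpen_iInter_of_finite fun k => isOpen_lt continuous_const (continuous_dq h k)

lemma shell_sub (h : Loops γ) {l : Rel} {t : TT} (h1 : 2 < dn (qq γ (.inl l)) t)
    (h2 : dn (qq γ (.inl l)) t < 4) : t ∈ Ot γ := fun k =>
  lt_of_le_of_lt (by cases k; exacts [le_rfl, one_le_two])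
    (gt_all h (by norm_num) h1 (h2.trans (by norm_num)) k)

namespace Gl

/-- The images of the fillings. -/
def T (k : Ik) : Set G.Y := G.e k '' {p | QQ k p.1 < 4}

lemma isOpen_T (k : Ik) : IsOpen (G.T k) := open_img (isOpen_Q k 4) fun p a => (G.eld k p a).map_nhds

lemma disj_T : Pairwise (Disjoint on fun l => G.T (.inl l)) := fun _ _ h =>
  Set.disjoint_left.2 fun _ ⟨p, a, b⟩ ⟨p', c, d⟩ =>
    h (Sum.inl_injective (G.dis _ _ p p' a c (b.trans d.symm)))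

lemma cont_i : ContinuousOn G.i (Ot γ) := fun t a =>
  (G.ild t (Ot_gt a)).contMDiffAt.continuousAt.continuousWithinAt

lemma isOpen_O (h : Loops γ) : IsOpen (G.i '' Ot γ) :=
  open_img (isOpen_Ot h) fun t a => (G.ild t (Ot_gt a)).map_nhds

lemma ret_cont {R : W5 → W5} {D : Set W5} (h : Ret k R D) :
    ContinuousOn (fun v => G.e k (rr k (R v))) D := fun v hv =>
  (G.eld k _ (by rw [rr_val (h.mem v hv).1]; exact (h.mem v hv).2)).contMDiffAt.continuousAt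
    |>.comp_continuousWithinAt (f := fun v => rr k (R v))
      ((continuousOn_rr.comp h.cont fun v hv => (h.mem v hv).1) v hv)

lemma ret_fix {R : W5 → W5} {D : Set W5} (h : Ret k R D) {p : PP k} (hp : QQ k p.1 < 4) :
    G.e k (rr k (R p.1)) = G.e k p := by rw [(h.fix _ p.2 hp).2, rr_self]

lemma precon_T (l : Rel) : IsPreconnected (G.T (.inl l)) := by
  have h := ret_L l
  convert ((isConnected_compl_singleton_of_one_lt_rank (by simp) 0).2.prod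
    (convex_ball 0 _).isPreconnected).image _ (G.ret_cont h) using 1
  refine subset_antisymm ?_ ?_
  · rintro _ ⟨p, a, rfl⟩
    exact ⟨p.1, (h.fix _ p.2 a).1, G.ret_fix h a⟩
  · rintro _ ⟨v, a, rfl⟩
    exact ⟨_, by rw [mem_ofPred_eq, rr_val (h.mem v a).1]; exact (h.mem v a).2, rfl⟩

lemma lf_T {E : Type} [TopologicalSpace E] {p : E → G.Y} (cov : IsCoveringMap p) (l : Rel) :
    Lf p id (G.T (.inl l)) := by
  have h := ret_L l
  have h1 := G.ret_cont h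
  have h0 : (0 : ℂ) ∈ ball 0 √3 := mem_ball_self (by positivity)
  have h2 := lf_compl_zero (V := Fin 3 → ℝ) (by simp) cov (h1.comp (f := fun y => (y, 0))
    (by fun_prop) fun y hy => ⟨hy, h0⟩)
  have h3 := Lf.homotopy cov h1 (h2.comp (S' := ({0}ᶜ : Set (Fin 3 → ℝ)) ×ˢ ({0} : Set ℂ))
    continuousOn_fst (fun _ a => a.1) fun a b => by
      rw [show a = (a.1, 0) from Prod.ext rfl b.2]; rfl)
    (S := {0}ᶜ ×ˢ ball 0 √3) (fun q => (q.2.1, (1 - q.1) • q.2.2))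
    (by fun_prop) (fun t ht a b => ⟨b.1, (convex_ball 0 _).smul_mem_of_zero_mem h0 b.2
      ⟨by linarith [ht.2], by linarith [ht.1]⟩⟩) (by simp) fun a b => ⟨b.1, by simp⟩
  refine h3.comp (φ := fun y => (invFunOn (G.e _) {p | QQ (.inl l) p.1 < 4} y).1)
    (continuous_subtype_val.comp_continuousOn (Na.inv_cont (isOpen_Q _ 4) (G.einj _)
      fun p a => (G.eld _ p a).map_nhds)) (fun y a => (h.fix _ (invFunOn (G.e (.inl l)) _ y).2
        (invFunOn_mem a)).1) fun y a => ?_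
  exact ((G.ret_fix h (invFunOn_mem a)).trans (invFunOn_eq a)).symm

variable (h : Loops γ)
include h

lemma mem_T {t : TT} (h1 : t ∈ Ot γ) (k : Ik) : G.i t ∈ G.T k ↔ dn (qq γ k) t < 4 := by
  obtain ⟨u, rfl⟩ := Quotient.mk_surjective t
  have h2 : ∀ k, 1 < qq γ k u := fun k => dq h k u ▸ Ot_gt h1 k
  rw [dq h]
  exact ⟨fun ⟨p, a, b⟩ => ((G.rel k u p h2 a).1 b.symm).1,
    fun a => ⟨_, (G.jrr h h2 a).1.trans_lt a, (G.jrr h h2 a).2.symm⟩⟩

lemma conn_TO (l : Rel) : IsConnected (G.T (.inl l) ∩ G.i '' Ot γ) := by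
  convert (conn_tube h l).2.image _ (G.cont_i.mono fun t a => shell_sub h a.1 a.2) using 1
  refine subset_antisymm ?_ ?_
  · rintro _ ⟨a, t, b, rfl⟩
    exact ⟨t, ⟨b (.inl l), (G.mem_T h b _).1 a⟩, rfl⟩
  · rintro _ ⟨t, a, rfl⟩
    exact ⟨(G.mem_T h (shell_sub h a.1 a.2) _).2 a.2, t, shell_sub h a.1 a.2, rfl⟩

lemma mem_S {u : Euc 4} (hu : ∀ k, 1 < qq γ k u) :
    G.i (qm Lat u) ∈ G.i '' Ot γ ∪ ⋃ l, G.T (.inl l) := by
  by_cases h1 : ∀ l, 2 < qL γ l u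
  · exact Or.inl ⟨_, fun k => (dq h k u).symm ▸ Sum.rec h1 (fun i => hu (.inr i)) k, rfl⟩
  · obtain ⟨l, h2⟩ := not_forall.1 h1
    have h3 : qq γ (.inl l) u < 4 := (not_lt.1 h2).trans_lt (by norm_num)
    exact Or.inr (mem_iUnion_of_mem l ⟨_, (G.jrr h hu h3).1.trans_lt h3, (G.jrr h hu h3).2.symm⟩)

lemma mem_S' {i : Fin 9} {p : PP (.inr i)} (hp : QQ (.inr i) p.1 < 4) :
    G.e _ p ∈ G.i '' Ot γ ∪ ⋃ l, G.T (.inl l) ↔ (p.1.1 0, p.1.1 1) ≠ 0 := by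
  have h0 : (p.1.1 0, p.1.1 1) ≠ 0 ↔ 1 < QQ (.inr i) p.1 := by
    rw [QK p.2, lt_add_iff_pos_left, ne_eq, Prod.mk_eq_zero, ← not_le, not_iff_not]
    exact ⟨fun a => by simp [a], fun a => ⟨by nlinarith [sq_nonneg (p.1.1 1)],
      by nlinarith [sq_nonneg (p.1.1 0)]⟩⟩
  rw [h0]
  refine ⟨?_, fun a => ?_⟩
  · rintro (⟨t, a, b⟩ | a)
    · obtain ⟨u, rfl⟩ := Quotient.mk_surjective t
      have h2 : ∀ k, 1 < qq γ k u := fun k => dq h k u ▸ Ot_gt a k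
      obtain ⟨c, d⟩ := (G.rel _ u p h2 hp).1 b
      rw [← d, (JJ_spec h (h2 _) c).2.2.2]
      exact h2 _
    · obtain ⟨l, q, b, c⟩ := mem_iUnion.1 a
      cases G.dis _ _ _ _ b hp c
  · obtain ⟨u, b, c, d⟩ := JJ_sur h (k := .inr i) p.2 a hp
    exact (G.rel _ u p b hp).2 ⟨c.trans_lt hp, d⟩ ▸ G.mem_S h b

lemma core {b : G.Y} (hb : b ∉ G.i '' Ot γ ∪ ⋃ l, G.T (.inl l)) {W : Set G.Y} (hW : W ∈ 𝓝 b) :
    ∃ W' ∈ 𝓝 b, W' ⊆ W ∧ IsConnected (W' ∩ (G.i '' Ot γ ∪ ⋃ l, G.T (.inl l))) := by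
  obtain ⟨l | i, p, a, rfl⟩ := (G.sur b).resolve_left fun ⟨u, a, e⟩ => hb (e ▸ G.mem_S h a)
  · exact (hb (Or.inr (mem_iUnion_of_mem l ⟨p, a, rfl⟩))).elim
  have h0 := not_not.1 ((G.mem_S' h a).not.1 hb)
  have h1 := ret_K i
  have h2 := G.ret_cont h1
  have hD : IsOpen {v : W5 | 0 < (3 - Complex.normSq v.2) ^ 2 + v.1 2 ^ 2 ∧
      0 < Complex.normSq v.2 ∧ v.1 0 ^ 2 + v.1 1 ^ 2 < 3} := by
    refine IsOpen.and ?_ (IsOpen.and ?_ ?_) <;> exact isOpen_lt (by fun_prop) (by fun_prop)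
  have h3 := hD.mem_nhds (h1.fix _ p.2 a).1
  obtain ⟨r, r0, hr⟩ := Metric.mem_nhds_iff.1 (inter_mem h3 (h2.continuousAt h3
    ((G.ret_fix h1 a).symm ▸ hW :)))
  refine ⟨_ '' ball p.1 r, ?_, image_subset_iff.2 fun v hv => (hr hv).2, ?_⟩
  · rw [← (G.eld _ p a).map_nhds, mem_map]
    filter_upwards [continuous_subtype_val.continuousAt (ball_mem_nhds p.1 r0),
      (isOpen_Q _ 4).mem_nhds a] with q b c using ⟨q.1, b, G.ret_fix h1 c⟩
  · convert (conn_ball p.1 (congrArg Prod.fst h0) (congrArg Prod.snd h0) r0).image _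
      (h2.mono fun v hv => (hr hv.1).1) using 1
    have key := fun v (hv : v ∈ ball p.1 r) => (G.mem_S' h (p := rr _ _)
      ((rr_val (h1.mem v (hr hv).1).1).symm ▸ (h1.mem v (hr hv).1).2 :)).trans
        (by rw [rr_val (h1.mem v (hr hv).1).1]; rfl : _ ↔ (v.1 0, v.1 1) ≠ 0)
    refine subset_antisymm ?_ ?_
    · rintro _ ⟨⟨v, b, rfl⟩, c⟩
      exact ⟨v, ⟨b, (key v b).1 c⟩, rfl⟩
    · rintro _ ⟨v, b, rfl⟩
      exact ⟨⟨v, b.1, rfl⟩, (key v b.1).2 b.2⟩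

end Gl

end Pool.Agent.Lib.MP_029589_gt.Mz
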