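import Pool.Agent.Lib.MP_029589_gt.MzD

/-! The fundamental group of the glued manifold. -/

set_option autoImplicit false

open scoped Manifold ContDiff Topology Real
open Set Filter Function Topology Metric

namespace Pool.Agent.Lib.MP_029589_gt.Mz

variable {γ : Rel → ℝ → Euc 4}

variable (γ) in
/-- The deformation on the torus. -/
noncomputable def rt (τ : ℝ) : TT → TT := dn fun u => qm Lat (rho γ τ u)

variable (γ) in
/-- The pulled back covering over the complement of the unknots. -/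
def S1 : Set (TT × GR) := {z | z.1 ∈ BK ∧ ph0 (rt γ 1 z.1) = qm Gf z.2}

lemma cont_ph0 : ContinuousOn ph0 BK := fun t ht => by
  obtain ⟨u, rfl⟩ := Quotient.mk_surjective t
  obtain ⟨F, hF, -⟩ := dev_loc fun i => one_pos.trans ((mo_BK u).1 ht i)
  have h1 : ContinuousAt (ph0 ∘ qm Lat) u :=
    ((qm_cov GR Gf).continuous.continuousAt.comp hF.self_of_nhds.1.continuousAt).congr
      (hF.mono fun v a => a.2.trans (ph0_qm v).symm)
  refine ContinuousAt.continuousWithinAt ?_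
  rwa [ContinuousAt, ← (tt_ld u).map_nhds, tendsto_map'_iff]

lemma Ot_BK : Ot γ ⊆ BK := fun _ a i => a (.inr i)

lemma conn_sub {s : Set TT} (h : IsConnected s) (hs : s ⊆ BK) :
    IsConnected (Subtype.val ⁻¹' s : Set BK) :=
  ⟨let ⟨t, a⟩ := h.1; ⟨⟨t, hs a⟩, a⟩, IsInducing.subtypeVal.isPreconnected_image.1
    (by rw [Subtype.image_preimage_coe, inter_eq_right.2 hs]; exact h.2)⟩

variable (h : Loops γ)
include h

lemma rt_qm (τ : ℝ) (u : Euc 4) : rt γ τ (qm Lat u) = qm Lat (rho γ τ u) :=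
  dn_qm (f := fun u => qm Lat (rho γ τ u)) (fun u a => tt_eq.2 ⟨a, rho_per h τ u a⟩) u

lemma rt_zero (t : TT) : rt γ 0 t = t := by
  obtain ⟨u, rfl⟩ := Quotient.mk_surjective t
  rw [rt_qm h, rho_zero]

lemma cont_rt : Continuous fun q : ℝ × TT => rt γ q.1 q.2 := by
  refine (IsOpenQuotientMap.id.prodMap (MulAction.isOpenQuotientMap_quotientMk
    (Γ := Lat) (T := Euc 4))).isQuotientMap.continuous_iff.2 ?_
  exact ((qm_cov (Euc 4) Lat).continuous.comp (contDiff_rho h).continuous).congr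
    fun q => (rt_qm h q.1 q.2).symm

lemma rt_BK {τ : ℝ} (hτ : τ ∈ Icc (0 : ℝ) 1) {t : TT} (ht : t ∈ BK) : rt γ τ t ∈ BK := by
  obtain ⟨u, rfl⟩ := Quotient.mk_surjective t
  rw [rt_qm h, mo_BK]
  exact rho_moB h hτ ((mo_BK u).1 ht)

lemma precon_S1 : IsPreconnected (S1 γ) :=
  precon_homotopic (qm_cov GR Gf) (H := fun q => ph0 (rt γ q.1 q.2))
    (cont_ph0.comp (cont_rt h).continuousOn fun q a => rt_BK h a.1 a.2)
    (by simpa only [rt_zero h] using precon_dev)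

lemma tube_BK {l : Rel} : {t | dn (qq γ (.inl l)) t < 4} ⊆ BK := fun _ a i =>
  lt_trans (by norm_num) (h.av l i _ (lt_trans a (by norm_num)))

lemma pieces : (∀ l, IsOpen (Subtype.val ⁻¹' {t | dn (qq γ (.inl l)) t < 4} : Set BK)) ∧
    Pairwise (Disjoint on fun l => (Subtype.val ⁻¹' {t | dn (qq γ (.inl l)) t < 4} : Set BK)) ∧
    (∀ l, IsConnected ((Subtype.val ⁻¹' {t | dn (qq γ (.inl l)) t < 4} : Set BK) ∩
      Subtype.val ⁻¹' Ot γ)) ∧ (Subtype.val ⁻¹' Ot γ : Set BK) ∪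
        ⋃ l, Subtype.val ⁻¹' {t | dn (qq γ (.inl l)) t < 4} = univ := by
  refine ⟨fun l => (isOpen_lt (continuous_dq h _) continuous_const).preimage continuous_subtype_val,
    fun l l' e => Set.disjoint_left.2 fun t a b => e (h.sep l l' _ (lt_trans a (by norm_num))
      (lt_trans b (by norm_num))), fun l => ?_, eq_univ_of_forall fun t => ?_⟩
  · convert conn_sub (conn_tube h l).2 fun t a => tube_BK h a.2 using 1
    exact Set.ext fun t => ⟨fun a => ⟨a.2 (.inl l), a.1⟩, fun a => ⟨a.2, shell_sub h a.1 a.2⟩⟩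
  · by_cases h1 : ∀ l, 2 < dn (qq γ (.inl l)) t.1
    · exact Or.inl (Sum.rec h1 t.2)
    · obtain ⟨l, h2⟩ := not_forall.1 h1
      exact Or.inr (mem_iUnion_of_mem l ((not_lt.1 h2).trans_lt (by norm_num)))

omit h

namespace Gl

variable {G : Gl γ} {c : Rel → ℝ → GR} {Φ : G.Y → BB} (H : G.Ph c Φ)
include H

lemma Ph.ext' {t : TT} (ht : t ∈ Ot γ) : Φ (G.i t) = ph0 (rt γ 1 t) := by
  obtain ⟨u, rfl⟩ := Quotient.mk_surjective t
  rw [rt_qm H.lp, ph0_qm]
  exact H.ext u (fun i => (ht (.inr i)).trans_eq (dq H.lp _ u))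
    fun l => ((ht (.inl l)).trans_eq (dq H.lp _ u)).le

lemma Ph.precon_O : IsPreconnected ((fun z : Pb Φ (qm Gf) => z.1.1) ⁻¹' (G.i '' Ot γ)) := by
  have h := H.lp
  let φ : BK → BB := fun b => ph0 (rt γ 1 b)
  have h1 : Continuous φ := cont_ph0.comp_continuous ((cont_rt h).comp (f := fun b : BK =>
    ((1 : ℝ), b.1)) (by fun_prop)) fun b => rt_BK h (right_mem_Icc.2 zero_le_one) b.2
  have h2 : PreconnectedSpace (Pb φ (qm Gf)) := ⟨((IsInducing.subtypeVal.prodMap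
    IsInducing.id).comp IsInducing.subtypeVal).isPreconnected_image.1 (by
      convert precon_S1 h using 1
      refine subset_antisymm ?_ fun z a => ⟨⟨(⟨z.1, a.1⟩, z.2), a.2⟩, trivial, rfl⟩
      rintro _ ⟨z, -, rfl⟩
      exact ⟨z.1.1.2, z.2⟩)⟩
  obtain ⟨a1, a2, a3, a4⟩ := pieces h
  have h3 := precon_unfill (pb_cov h1 (qm_cov GR Gf))
    ((isOpen_Ot h).preimage continuous_subtype_val) a1 a2
    (fun l => (conn_sub (conn_tube h l).1 (tube_BK h)).2) a3 (fun l => lf_pb fun a ha g hg => by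
      have b1 : ∀ u a, c l ((u + lat a) 3) = c l (u 3) := fun u a => per_int (H.sm l).2 _ _
      have b2 : ∀ b : BK, dn (qq γ (.inl l)) b < 4 → qm Gf (dn (fun u => c l (u 3)) b) = φ b := by
        rintro ⟨t, ht⟩ hb
        obtain ⟨u, rfl⟩ := Quotient.mk_surjective t
        rw [dq h] at hb
        obtain ⟨m, hm⟩ := rho_loc h (l := l) (hb.trans (by norm_num))
        rw [dn_qm b1, H.lf]
        exact congrArg ph0 ((rt_qm h 1 u).trans (tt_eq.2 ⟨m, hm.self_of_nhds⟩)).symm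
      obtain ⟨x, hx⟩ := qm_eq.1 (hg.trans (b2 a ha).symm)
      have := (H.sm l).1.continuous
      exact ⟨fun b => x • dn (fun u => c l (u 3)) b.1, (((continuous_dn b1 (by fun_prop)).comp
        continuous_subtype_val).const_smul x).continuousOn,
        fun b hb => (qm_smul _ _).trans (b2 b hb), hx⟩) a4
  refine IsInducing.subtypeVal.isPreconnected_image.1 ?_
  convert h3.image (fun z => (G.i z.1.1.1, z.1.2)) ((G.cont_i.comp (f := fun z : Pb φ (qm Gf) =>
    z.1.1.1) (by fun_prop) fun _ a => a).prodMk (by fun_prop)) using 1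
  refine subset_antisymm ?_ ?_
  · rintro _ ⟨z, ⟨t, a, b⟩, rfl⟩
    exact ⟨⟨(⟨t, Ot_BK a⟩, z.1.2), (H.ext' a).symm.trans ((congrArg Φ b).trans z.2)⟩, a,
      Prod.ext b rfl⟩
  · rintro _ ⟨z, a, rfl⟩
    exact ⟨⟨_, (H.ext' a).trans z.2⟩, ⟨_, a, rfl⟩, rfl⟩

lemma Ph.lf_O (h' : Relators γ) {E : Type} [TopologicalSpace E] {p : E → G.Y}
    (cov : IsCoveringMap p) : Lf p (fun z : Pb Φ (qm Gf) => z.1.1)
      ((fun z : Pb Φ (qm Gf) => z.1.1) ⁻¹' (G.i '' Ot γ)) := by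
  classical
  have h := H.lp
  rcases isEmpty_or_nonempty E with _ | _
  · exact fun _ _ e => isEmptyElim e
  obtain ⟨a1, a2, a3, a4⟩ := pieces h
  have h1 : ContinuousOn (G.i ∘ Subtype.val) (Subtype.val ⁻¹' Ot γ : Set BK) :=
    G.cont_i.comp continuous_subtype_val.continuousOn fun _ a => a
  obtain ⟨E', _, p', r, c1, c2, c3, c4⟩ := exists_ext cov
    ((isOpen_Ot h).preimage continuous_subtype_val) h1 a1 a2 a3
    (fun l => (G.lf_T cov l).comp (h1.mono inter_subset_right)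
      (fun _ a => (G.mem_T h a.2 _).2 a.1) fun _ _ => rfl) a4
  obtain ⟨b0, -⟩ := (a3 (.inl (0, 0))).1
  let ι : TT → BK := fun t => if ht : t ∈ BK then ⟨t, ht⟩ else b0
  have i1 : ∀ t ∈ BK, (ι t).1 = t := fun t ht => congrArg Subtype.val (dif_pos ht)
  have i2 : ContinuousOn ι BK := IsInducing.subtypeVal.continuousOn_iff.2 (continuousOn_id.congr i1)
  have h2 := h'.mono E' BK p' ι c1 i2 fun l η e1 e2 => by
    have b1 : ∀ t, qm Lat (γ l t) ∈ {t | dn (qq γ (.inl l)) t < 4} := fun t => by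
      rw [mem_ofPred_eq, dq h]
      simp [qq, qL, yL, h.last, fr]
    have b2 : ∀ t, ι (qm Lat (γ l t)) ∈ Subtype.val ⁻¹' {t | dn (qq γ (.inl l)) t < 4} :=
      fun t => by rw [mem_preimage, i1 _ (tube_BK h (b1 t))]; exact b1 t
    obtain ⟨s, s1, s2, s3⟩ := c4 l _ (b2 0) _ (e2 0)
    have b3 := c1.eq_of_comp_eq e1 (s1.comp_continuous (i2.comp_continuous
      ((qm_cov (Euc 4) Lat).continuous.comp (h.sm l).continuous) fun t => tube_BK h (b1 t)) b2)
      (funext fun t => (e2 t).trans (s2 _ (b2 t)).symm) 0 s3.symm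
    have b4 : qm Lat (γ l 1) = qm Lat (γ l 0) := tt_eq.2 ⟨_, by simpa using h.per l 0⟩
    rw [b3]
    simp only [comp, b4]
  have h3 : Lf p' (fun z : TT × GR => ι (rt γ 1 z.1)) (S1 γ) :=
    h2.comp (φ := fun z : TT × GR => (rt γ 1 z.1, z.2)) (((cont_rt h).comp (f := fun z : TT × GR =>
      ((1 : ℝ), z.1)) (by fun_prop)).prodMk continuous_snd).continuousOn
      (fun z a => ⟨rt_BK h (right_mem_Icc.2 zero_le_one) a.1, a.2⟩) fun _ _ => rfl
  have h4 := lf_homotopic c1 (H := fun q : ℝ × TT × GR => ι (rt γ q.1 q.2.1)) (S := S1 γ)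
    (i2.comp ((cont_rt h).comp (f := fun q : ℝ × TT × GR => (q.1, q.2.1))
      (by fun_prop)).continuousOn fun q a => rt_BK h a.1 a.2.1) h3
  simp only [rt_zero h] at h4
  have h5 := lf_ext c2 c3 (h4.mono (T := S1 γ ∩ Prod.fst ⁻¹' Ot γ) inter_subset_left) fun z a => by
    rw [mem_preimage, i1 _ a.1.1]; exact a.2
  have h6 := (Na.inv_cont (isOpen_Ot h) (G.iinj.mono fun _ => Ot_gt) fun t a =>
    (G.ild t (Ot_gt a)).map_nhds).comp (f := fun z : Pb Φ (qm Gf) => z.1.1)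
      (s := (fun z : Pb Φ (qm Gf) => z.1.1) ⁻¹' (G.i '' Ot γ)) (by fun_prop) fun _ a => a
  refine h5.comp (φ := fun z : Pb Φ (qm Gf) => (invFunOn G.i (Ot γ) z.1.1, z.1.2))
    (h6.prodMk (by fun_prop)) (fun z a => ?_) fun z a => ?_
  · have b := invFunOn_mem a
    exact ⟨⟨Ot_BK b, (H.ext' b).symm.trans ((congrArg Φ (invFunOn_eq a)).trans z.2)⟩, b⟩
  · simp only [comp]
    rw [i1 _ (Ot_BK (invFunOn_mem a)), invFunOn_eq a]

lemma Ph.cov : IsCoveringMap fun z : Pb Φ (qm Gf) => z.1.1 := pb_cov H.cont (qm_cov GR Gf)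

lemma Ph.dense : Dense ((fun z : Pb Φ (qm Gf) => z.1.1) ⁻¹' (G.i '' Ot γ ∪ ⋃ l, G.T (.inl l))) := by
  refine Dense.preimage (fun b => by_contra fun a => a (mem_closure_iff_nhds.2 fun W hW => ?_))
    H.cov.isOpenMap
  obtain ⟨W', -, c, d⟩ := G.core H.lp (fun e => a (subset_closure e)) hW
  exact d.1.mono (inter_subset_inter_left _ c)

lemma Ph.conn : PreconnectedSpace (Pb Φ (qm Gf)) :=
  ⟨H.dense.closure_eq ▸ (precon_fill H.cov G.precon_T (fun l => (G.conn_TO H.lp l).1)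
    (G.lf_T H.cov) H.precon_O).closure⟩

lemma Ph.triv (h' : Relators γ) {E : Type} [TopologicalSpace E] {p : E → G.Y}
    (cov : IsCoveringMap p) : Lf p (fun z : Pb Φ (qm Gf) => z.1.1) univ :=
  (lf_fill cov H.cov (G.isOpen_O H.lp) (fun _ => G.isOpen_T _) G.disj_T G.precon_T
    (G.conn_TO H.lp) (G.lf_T cov) (G.lf_T H.cov) (H.lf_O h' cov)).extend cov
    H.cov.continuous.continuousOn (subset_univ _) H.dense.closure_eq.ge
    (fun _ a => nhdsWithin_le_nhds ((((G.isOpen_O H.lp).union (isOpen_iUnion fun _ =>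
      G.isOpen_T _)).preimage H.cov.continuous).mem_nhds a))
    (Acc.pull H.cov.isLocalHomeomorph (subset_univ _) fun _ _ a _ b =>
      let ⟨W', c, d, e⟩ := G.core H.lp a b; ⟨W', c, inter_subset_left.trans d, e.2⟩)

lemma Ph.connected : ConnectedSpace G.Y := by
  have := H.conn
  have h1 : Surjective fun z : Pb Φ (qm Gf) => z.1.1 := fun y =>
    let ⟨g, a⟩ := Quotient.mk_surjective (Φ y); ⟨⟨(y, g), a.symm⟩, rfl⟩
  have : ConnectedSpace (Pb Φ (qm Gf)) := ⟨⟨(h1 (G.i (qm Lat 0))).choose⟩⟩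
  exact h1.connectedSpace H.cov.continuous

end Gl

end Pool.Agent.Lib.MP_029589_gt.Mz
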