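import Pool.Agent.Lib.MP_029589_gt.TriF
import Pool.Agent.Lib.MP_029589_gt.Dbl

/-! A connection on the neck of a double. -/

set_option autoImplicit false

open scoped Manifold ContDiff Topology Matrix
open Set Filter Function EuclideanGeometry

namespace Pool.Agent.Lib.MP_029589_gt

variable {n : ℕ} {κ κ' : Type}

lemma neck_pow {R : Type} [Ring R] [Algebra ℝ R] {E β : R} (h : β * E = -(E * β)) (h' : E * E = 0)
    (c : ℝ) (m : ℕ) : (E * β + c • (β * β)) ^ (m + 1) = c ^ (m + 1) • (β * β ^ (2 * m + 1)) +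
      ((m + 1) * c ^ m) • (E * β ^ (2 * m + 1)) := by
  have h1 : Commute (β * β) E := by
    rw [Commute, SemiconjBy, mul_assoc, h, mul_neg, ← mul_assoc, h, neg_mul, neg_neg, mul_assoc]
  induction m with
  | zero => simp [add_comm]
  | succ m ih =>
    have e1 : β * (β * (E * β ^ (2 * m + 1))) = E * (β * (β * β ^ (2 * m + 1))) := by
      simp only [← mul_assoc, h1.eq]
    have e2 : E * (β * (E * β ^ (2 * m + 1))) = 0 := by
      rw [← mul_assoc β, h, neg_mul, mul_neg, ← mul_assoc, ← mul_assoc, h', zero_mul, zero_mul,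
        neg_zero]
    rw [pow_succ', ih, mul_add 2, mul_one, pow_succ' _ (2 * m + 2), pow_succ' _ (2 * m + 1)]
    simp only [mul_add, add_mul, mul_smul_comm, smul_mul_assoc, mul_assoc, e1, e2]
    push_cast
    module

lemma eq_zero_of_neg {x : Lm n} (h : x = -x) : x = 0 :=
  (smul_eq_zero.1 ((two_smul ℝ x).trans (add_eq_zero_iff_eq_neg.2 h))).resolve_left two_ne_zero

lemma sc_smul (c : ℝ) (x : Lm n) (J : Matrix κ κ' ℝ) : sc (c • x) J = c • sc x J := by
  ext i j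
  simp [sc, smul_comm c]

lemma dm_smul {M : Type} [TopologicalSpace M] [ChartedSpace (Euc n) M] {a : M → ℝ} {y : M}
    (ha : Sm n a y) (J : Matrix κ κ' ℝ) : dm n (fun w => a w • J) y = sc (df n a y) J :=
  Matrix.ext fun i j => df_comp ha (hasDerivAt_mul_const (J i j))

variable [Fintype κ] [DecidableEq κ]

lemma sc_comm (v : Fin n → ℝ) (X : Matrix κ κ (Lm n)) :
    sc (cov1 v) 1 * X = im X * sc (cov1 v) 1 := by
  ext i j
  simp [sc, im, Matrix.mul_apply, Matrix.one_apply, io_mul]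

lemma neck_trace {A : Matrix κ κ ℝ} (hA : IsUnit A) {β : Matrix κ κ (Lm n)} (hβ : L1 β)
    (h : SemiconjBy (rm n A) β (-β)) (v : Fin n → ℝ) (c : ℝ) (m : ℕ) :
    ((sc (cov1 v) 1 * β + c • (β * β)) ^ (m + 1)).trace = 0 := by
  have o : Odd (2 * m + 1) := odd_two_mul_add_one m
  have h1 := hβ.trace (β ^ (2 * m + 1))
  rw [im_pow, hβ.im, o.neg_pow, neg_mul, Matrix.trace_neg, pow_mul_comm'] at h1
  have h2 := trace_conj hA (SemiconjBy.mul_right (show SemiconjBy (rm n A) (sc (cov1 v) 1) _ by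
    rw [SemiconjBy, sc_comm, im_rm]) (h.pow_right (2 * m + 1)))
  rw [o.neg_pow, mul_neg, Matrix.trace_neg] at h2
  rw [neck_pow (by rw [sc_comm, hβ.im, neg_mul, neg_neg]) (by simp [sc_mul]), Matrix.trace_add,
    Matrix.trace_smul, Matrix.trace_smul, eq_zero_of_neg h1, eq_zero_of_neg h2]
  simp

/-- The cut-off profile. -/
noncomputable def chi0 (s : ℝ) : ℝ := Real.smoothTransition (1 / 2 + (1 - s) / (1 + s))

/-- The Jacobian matrix of the inversion. -/
noncomputable def AI (v : Euc n) : Matrix (Fin n) (Fin n) ℝ := jm n (inversion (0 : Euc n) 1) v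

/-- The connection on the neck. -/
noncomputable def nk (v : Euc n) : Matrix (Fin n) (Fin n) (Lm n) := chi0 (‖v‖ ^ 2) • frc n AI v

lemma nk_zero {v : Euc n} (h : 2 ≤ ‖v‖) : nk v = 0 := by
  rw [nk, chi0, Real.smoothTransition.zero_of_nonpos, zero_smul]
  rw [← le_neg_iff_add_nonpos_left, div_le_iff₀ (by positivity)]
  nlinarith

lemma chi0_inv {s : ℝ} (h : 0 < s) : chi0 s⁻¹ = 1 - chi0 s := by
  rw [chi0, chi0, show 1 / 2 + (1 - s⁻¹) / (1 + s⁻¹) = 1 - (1 / 2 + (1 - s) / (1 + s)) by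
    field_simp; ring, eq_sub_iff_add_eq]
  simp only [Real.smoothTransition, sub_sub_cancel]
  rw [add_comm (expNegInvGlue (1 - _)), ← add_div, add_comm,
    div_self (Real.smoothTransition.pos_denom _).ne']

lemma chi0_sm {s : ℝ} (h : 0 ≤ s) : ContDiffAt ℝ ∞ chi0 s :=
  Real.smoothTransition.contDiffAt.comp s (contDiffAt_const.add ((contDiffAt_const.sub
    contDiffAt_id).div (contDiffAt_const.add contDiffAt_id) (by positivity)))

lemma smF_inv {v : Euc n} (h : v ≠ 0) : SmF n n (inversion (0 : Euc n) 1) v :=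
  (isOpen_ne.eventually_mem h).mono fun _ h => (ld_inv h).contMDiffAt

lemma co_inv {v : Euc n} (h : v ≠ 0) : Co v (inversion 0 1) (inversion (0 : Euc n) 1) :=
  ⟨smF_inv h, smF_inv (by rwa [Ne, inversion_eq_center one_ne_zero]),
    .of_forall (inversion_inversion 0 one_ne_zero)⟩

lemma AI_unit {v : Euc n} (h : v ≠ 0) : IsUnit (AI v) := (co_inv h).unit

lemma AI_inv {v : Euc n} (h : v ≠ 0) : AI (inversion 0 1 v) * AI v = 1 := (co_inv h).inv

lemma AI_sm {v : Euc n} (h : v ≠ 0) : SmM n AI v :=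
  (Co.sm ⟨smF_id v, smF_id _, .of_forall fun _ => rfl⟩ (smF_inv h)).congr
    (.of_forall fun w => by simp [AI, jm, md_id])

lemma AI_sq {v : Euc n} (h : v ≠ 0) : AI v * AI v = ((‖v‖ ^ 2)⁻¹ ^ 2) • 1 := by
  rw [AI, jm, ← mat_comp, md_eq_fderiv, (hasFDerivAt_inversion h).fderiv, ← mat_id]
  ext i j
  simp [mat, smul_smul, sq]

lemma sm_nsq (v : Euc n) : Sm n (fun w => ‖w‖ ^ 2) v :=
  sm_euc.2 (.of_forall fun _ => (contDiff_norm_sq ℝ).contDiffAt)

lemma nk_one {v : Euc n} (h : v ≠ 0) : ∃ F, One v nk F ∧ ∀ m, (F v ^ (m + 1)).trace = 0 := by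
  have h1 := One.fr (AI_sm h) (co_inv h).unit
  have h2 : Sm n (fun w : Euc n => chi0 (‖w‖ ^ 2)) v := (sm_nsq v).mono fun w hw =>
    ContMDiffAt.comp (g := chi0) w (chi0_sm (sq_nonneg _)).contMDiffAt hw
  refine ⟨fun w => sc (df n (fun w : Euc n => chi0 (‖w‖ ^ 2)) w) 1 * frc n AI w +
    (chi0 (‖w‖ ^ 2) ^ 2 - chi0 (‖w‖ ^ 2)) • (frc n AI w * frc n AI w),
    ⟨fun i j => ((h1.1 i j).fsmul h2).cg (fun _ => rfl) fun w => ?_,
      h1.2.mono fun _ h => h.smul _⟩, fun m => ?_⟩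
  · simp only [nk, smul_mul_smul_comm, Matrix.sub_apply, Matrix.add_apply, Matrix.smul_apply]
    rw [Matrix.mul_apply (M := sc _ _)]
    simp [sc, Matrix.one_apply]
    module
  have p : 0 < ‖v‖ ^ 2 := by positivity
  have h3 := dm_mul (AI_sm h) (AI_sm h)
  rw [dm_congr ((isOpen_ne.eventually_mem h).mono fun _ => AI_sq), dm_smul (by
    simpa only [sq] using ((sm_nsq v).inv p.ne').mul ((sm_nsq v).inv p.ne')),
    df_comp (sm_nsq v) ((hasDerivAt_inv p.ne').fun_pow 2), sc_smul] at h3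
  simp only [df_comp (sm_nsq v) ((chi0_sm p.le).differentiableAt (by simp)).hasDerivAt]
  generalize (_ * _ ^ (2 - 1) * _ : ℝ) = k at h3
  have h4 : (AI v)⁻¹ = ((‖v‖ ^ 2) ^ 2) • AI v := Matrix.inv_eq_right_inv (by
    rw [mul_smul_comm, AI_sq h, smul_smul, ← mul_pow, mul_inv_cancel₀ p.ne', one_pow, one_smul])
  have h5 : rm n (AI v)⁻¹ = ((‖v‖ ^ 2) ^ 2) • rm n (AI v) := by
    rw [h4, rm_eq, rm_eq]; ext; simp [sc, mul_smul]
  have hD := sc_comm (κ := Fin n) (row (md (Euc n) ℝ (fun w => ‖w‖ ^ 2) v))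
  have hL : L1 (sc (df n (fun w : Euc n => ‖w‖ ^ 2) v) (1 : Matrix (Fin n) (Fin n) ℝ)) :=
    fun i j => Submodule.smul_mem _ _ (LinearMap.mem_range_self _ _)
  have hDD := sc_mul (df n (fun w : Euc n => ‖w‖ ^ 2) v) (df n (fun w : Euc n => ‖w‖ ^ 2) v)
    (1 : Matrix (Fin n) (Fin n) ℝ) (1 : Matrix (Fin n) (Fin n) ℝ)
  rw [show df _ _ _ * df _ _ _ = 0 from ExteriorAlgebra.ι_sq_zero _, sc_zero] at hDD
  have h6 := hD (frc n AI v)
  rw [h1.2.self_of_nhds.im, ← df] at h6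
  refine Eq.trans ?_ (neck_trace (co_inv h).unit (h1.2.self_of_nhds.sub
    (hL.smul (k * (‖v‖ ^ 2) ^ 2 / 2))) ?_ (deriv chi0 (‖v‖ ^ 2) • row (md (Euc n) ℝ
      (fun w => ‖w‖ ^ 2) v)) (chi0 (‖v‖ ^ 2) ^ 2 - chi0 (‖v‖ ^ 2)) m)
  · congr 2
    simp only [map_smul, ← df.eq_1, sc_smul, mul_sub, sub_mul, smul_mul_assoc, mul_smul_comm, hDD,
      h6, neg_mul]
    module
  · have h7 := hD (rm n (AI v))
    rw [im_rm, ← df] at h7
    rw [SemiconjBy, ← AI, frc, mul_sub, ← mul_assoc, ← rm_mul, mul_inv' (AI_unit h), neg_mul,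
      sub_mul, mul_assoc, eq_sub_of_add_eq h3.symm, mul_sub, ← mul_assoc, ← rm_mul,
      inv_mul' (AI_unit h), h5]
    simp only [rm_one, one_mul, smul_mul_assoc, mul_smul_comm, h7]
    module

lemma nk_gau {v : Euc n} (h : v ≠ 0) : Gau v AI (pm n n (inversion 0 1) nk) nk := by
  filter_upwards [isOpen_ne.eventually_mem h] with w hw
  have c := co_inv hw
  have hw' : inversion 0 1 w ≠ 0 := by rwa [Ne, inversion_eq_center one_ne_zero]
  have h1 := dm_mul ((AI_sm hw').cmp c.1) (AI_sm hw)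
  rw [dm_congr (A := fun z => AI (inversion 0 1 z) * AI z) (c.ev.mono fun _ h => h.inv),
    dm_const] at h1
  have h2 : pm n n (inversion 0 1) nk w = (1 - chi0 (‖w‖ ^ 2)) • (rm n (AI w) *
      dm n (fun z => AI (inversion 0 1 z)) w) := by
    rw [← pm_dm (AI_sm hw') c.1, ← chi0_inv (by positivity), pm, pm, nk, frc, norm_inv', inv_pow,
      Matrix.map_smul _ _ (map_smul _ _), Matrix.map_mul, Matrix.inv_eq_right_inv (AI_inv hw)]
    exact congrArg (fun X => _ • (X * _)) (pm_rm _ (fun _ => AI w) w)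
  rw [h2, nk, frc, smul_mul_assoc, mul_assoc, eq_neg_of_add_eq_zero_left h1.symm, mul_smul_comm,
    mul_neg, ← mul_assoc, ← mul_assoc, ← rm_mul, ← rm_mul, mul_inv' (AI_unit hw),
    mul_eq_one_comm.1 (AI_inv hw), rm_one, one_mul]
  module

end Pool.Agent.Lib.MP_029589_gt
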