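import Pool.Agent.Lib.MP_029589_gt.Sec

/-! The two-step nilpotent group, its lattice, and the section whose zero set is the example. -/

set_option autoImplicit false

open Set Filter Topology Real Function
open scoped ContDiff ComplexConjugate

namespace Pool.Agent.Lib.MP_029589_gt

/-- Indices of the unfolded coordinates. -/
abbrev Ix := Fin 4 × Fin 5

/-- The underlying space of the nilpotent group. -/
abbrev NN := (ℝ × ℝ) × (Ix → ℝ) × (Fin 3 → ℝ)

/-- The cocycle. -/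
def Bl (a p : NN) : NN :=
  (0, 0, ![-(a.1.2 * p.1.1) - a.2.1 (0, 1) * p.2.1 (0, 0), -(a.2.1 (0, 0) * p.1.1),
    -(a.2.1 (0, 1) * p.1.1)])

lemma Bl_add_left (a b p : NN) : Bl (a + b) p = Bl a p + Bl b p := by
  ext k <;> simp [Bl]
  fin_cases k <;> simp <;> ring

lemma Bl_add_right (a p q : NN) : Bl a (p + q) = Bl a p + Bl a q := by
  ext k <;> simp [Bl]
  fin_cases k <;> simp <;> ring

lemma Bl_smul_left (c : ℝ) (a p : NN) : Bl (c • a) p = c • Bl a p := by
  ext k <;> simp [Bl]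
  fin_cases k <;> simp <;> ring

lemma Bl_smul_right (c : ℝ) (a p : NN) : Bl a (c • p) = c • Bl a p := by
  ext k <;> simp [Bl]
  fin_cases k <;> simp <;> ring

lemma Bl_neg_left (a p : NN) : Bl (-a) p = -Bl a p := by
  simpa using Bl_smul_left (-1) a p

@[simp] lemma Bl_Bl_left (a b p : NN) : Bl (Bl a b) p = 0 := by
  ext k <;> simp [Bl]
  fin_cases k <;> simp

@[simp] lemma Bl_Bl_right (a b p : NN) : Bl a (Bl b p) = 0 := by
  ext k <;> simp [Bl]
  fin_cases k <;> simp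

@[simp] lemma Bl_zero_left (p : NN) : Bl 0 p = 0 := by simpa using Bl_smul_left 0 0 p

@[simp] lemma Bl_zero_right (p : NN) : Bl p 0 = 0 := by simpa using Bl_smul_right 0 p 0

lemma contDiff_Bl : ContDiff ℝ ∞ fun x : NN × NN => Bl x.1 x.2 := by
  unfold Bl
  refine contDiff_const.prodMk (contDiff_const.prodMk (contDiff_pi.2 fun k => ?_))
  fin_cases k <;> simp <;> fun_prop

/-- The differential of the left translation by `a`. -/
noncomputable def Lam (a : NN) : NN →L[ℝ] NN :=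
  LinearMap.toContinuousLinearMap
    { toFun := fun u => u + Bl a u
      map_add' := fun u v => by rw [Bl_add_right]; abel
      map_smul' := fun c u => by simp [Bl_smul_right] }

lemma Lam_apply (a u : NN) : Lam a u = u + Bl a u := rfl

lemma Lam_Lam (a b u : NN) : Lam a (Lam b u) = Lam (a + b) u := by
  simp only [Lam_apply, Bl_add_left, Bl_add_right, Bl_Bl_right]; abel

@[simp] lemma Lam_zero (u : NN) : Lam 0 u = u := by simp [Lam_apply]

lemma continuous_Lam : Continuous Lam :=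
  continuous_clm_apply.2 fun _ => continuous_const.add
    (contDiff_Bl.continuous.comp (continuous_id.prodMk continuous_const))

lemma det_Lam (a : NN) : 0 < (Lam a).det := by
  have h : ∀ a b : NN, (Lam (a + b)).det = (Lam a).det * (Lam b).det := fun a b => by
    rw [ContinuousLinearMap.det, ContinuousLinearMap.det, ContinuousLinearMap.det,
      ← LinearMap.det_comp]
    congr 1
    exact LinearMap.ext fun u => (Lam_Lam a b u).symm
  have h0 : (Lam 0).det = 1 := by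
    rw [ContinuousLinearMap.det, ← LinearMap.det_id (A := ℝ) (M := NN)]
    congr 1
    exact LinearMap.ext fun u => Lam_zero u
  have h1 := h ((1 / 2 : ℝ) • a) ((1 / 2 : ℝ) • a)
  have h2 := h ((1 / 2 : ℝ) • a) (-((1 / 2 : ℝ) • a))
  rw [add_neg_cancel, h0] at h2
  rw [← add_smul, add_halves, one_smul] at h1
  rw [h1]
  exact mul_self_pos.2 (left_ne_zero_of_mul_eq_one h2.symm)

/-- The group law. -/
noncomputable def nmul (a p : NN) : NN := a + Lam a p

/-- The inverse. -/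
def ninv (a : NN) : NN := -a + Bl a a

lemma nmul_assoc (a b p : NN) : nmul (nmul a b) p = nmul a (nmul b p) := by
  simp only [nmul, Lam_apply, Bl_add_left, Bl_add_right, Bl_Bl_right, Bl_Bl_left]; abel

@[simp] lemma zero_nmul (p : NN) : nmul 0 p = p := by simp [nmul]

@[simp] lemma nmul_zero (p : NN) : nmul p 0 = p := by simp [nmul]

lemma ninv_nmul (a : NN) : nmul (ninv a) a = 0 := by
  simp only [nmul, ninv, Lam_apply, Bl_add_left, Bl_Bl_left, Bl_neg_left]; abel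

lemma nmul_ninv (a : NN) : nmul a (ninv a) = 0 := by
  have := Bl_smul_right (-1) a a
  simp only [neg_smul, one_smul] at this
  simp only [nmul, ninv, Lam_apply, Bl_add_right, Bl_Bl_right, this]; abel

lemma hasFDerivAt_nmul (a p : NN) : HasFDerivAt (nmul a) (Lam a) p :=
  (Lam a).hasFDerivAt.const_add a

lemma contDiff_nmul (a : NN) : ContDiff ℝ ∞ (nmul a) := contDiff_const.add (Lam a).contDiff

lemma Lam_nmul (a p u : NN) : Lam (nmul a p) u = Lam (a + p) u := by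
  simp only [nmul, Lam_apply, Bl_add_left, Bl_Bl_left, add_zero]

@[simp] lemma nmul_x (a p : NN) : (nmul a p).1 = a.1 + p.1 := by simp [nmul, Lam_apply, Bl]

@[simp] lemma nmul_y (a p : NN) : (nmul a p).2.1 = a.2.1 + p.2.1 := by simp [nmul, Lam_apply, Bl]

lemma nmul_w (a p : NN) : (nmul a p).2.2 = a.2.2 + p.2.2 + (Bl a p).2.2 := by
  simp [nmul, Lam_apply, add_assoc]

/-- The integers. -/
abbrev ZZ : Subring ℝ := ⊥

lemma mem_ZZ {x : ℝ} : x ∈ ZZ ↔ ∃ k : ℤ, (k : ℝ) = x := Subring.mem_bot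

/-- Integer points. -/
structure IsInt (a : NN) : Prop where
  x1 : a.1.1 ∈ ZZ
  x2 : a.1.2 ∈ ZZ
  y : ∀ i, a.2.1 i ∈ ZZ
  w : ∀ k, a.2.2 k ∈ ZZ

lemma IsInt.add {a b : NN} (ha : IsInt a) (hb : IsInt b) : IsInt (a + b) :=
  ⟨add_mem ha.x1 hb.x1, add_mem ha.x2 hb.x2, fun i => add_mem (ha.y i) (hb.y i),
    fun i => add_mem (ha.w i) (hb.w i)⟩

lemma IsInt.neg {a : NN} (ha : IsInt a) : IsInt (-a) :=
  ⟨neg_mem ha.x1, neg_mem ha.x2, fun i => neg_mem (ha.y i), fun i => neg_mem (ha.w i)⟩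

lemma IsInt.zero : IsInt 0 := ⟨zero_mem _, zero_mem _, fun _ => zero_mem _, fun _ => zero_mem _⟩

lemma IsInt.bl {a b : NN} (ha : IsInt a) (hb : IsInt b) : IsInt (Bl a b) := by
  refine ⟨zero_mem _, zero_mem _, fun _ => zero_mem _, fun k => ?_⟩
  fin_cases k
  · exact sub_mem (neg_mem (mul_mem ha.x2 hb.x1)) (mul_mem (ha.y _) (hb.y _))
  · exact neg_mem (mul_mem (ha.y _) hb.x1)
  · exact neg_mem (mul_mem (ha.y _) hb.x1)

/-- The lattice. -/
@[ext] structure Gam where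
  /-- The underlying point. -/
  val : NN
  int : IsInt val

noncomputable instance : Mul Gam := ⟨fun a b => ⟨nmul a.val b.val, a.int.add (b.int.add (a.int.bl b.int))⟩⟩

instance : One Gam := ⟨⟨0, IsInt.zero⟩⟩

instance : Inv Gam := ⟨fun a => ⟨ninv a.val, a.int.neg.add (a.int.bl a.int)⟩⟩

noncomputable instance : Group Gam :=
  Group.ofLeftAxioms (fun _ _ _ => Gam.ext (nmul_assoc _ _ _)) (fun _ => Gam.ext (zero_nmul _))
    fun _ => Gam.ext (ninv_nmul _)

lemma Gam.mul_val (a b : Gam) : (a * b).val = nmul a.val b.val := rfl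

lemma Gam.inv_val (a : Gam) : a⁻¹.val = ninv a.val := rfl

lemma Gam.one_val : (1 : Gam).val = 0 := rfl

noncomputable instance : MulAction Gam NN where
  smul a p := nmul a.val p
  one_smul := zero_nmul
  mul_smul _ _ _ := nmul_assoc _ _ _

lemma Gam.smul_def (a : Gam) (p : NN) : a • p = nmul a.val p := rfl

lemma contDiff_smul (a : Gam) : ContDiff ℝ ∞ fun p : NN => a • p := contDiff_nmul _

instance : ContinuousConstSMul Gam NN := ⟨fun a => (contDiff_smul a).continuous⟩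

lemma val_eq {a p q : NN} (h : nmul a p = q) : a = nmul q (ninv p) := by
  rw [← h, nmul_assoc, nmul_ninv, nmul_zero]

instance : IsCancelSMul Gam NN where
  right_cancel' _ _ _ h := Gam.ext ((val_eq h).trans (val_eq rfl).symm)

lemma finite_ZZ (R : ℝ) : {x : ℝ | x ∈ ZZ ∧ ‖x‖ ≤ R}.Finite := by
  refine ((Set.finite_Icc (⌈-R⌉ : ℤ) ⌊R⌋).image (Int.cast : ℤ → ℝ)).subset ?_
  rintro x ⟨h, h'⟩
  obtain ⟨k, rfl⟩ := mem_ZZ.1 h
  rw [Real.norm_eq_abs, abs_le] at h'
  exact ⟨k, ⟨Int.ceil_le.2 h'.1, Int.le_floor.2 h'.2⟩, rfl⟩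

lemma finite_Gam (R : ℝ) : {a : Gam | ‖a.val‖ ≤ R}.Finite := by
  have h := finite_ZZ R
  have h1 := (h.prod h).prod ((Set.Finite.pi' fun _ : Ix => h).prod (Set.Finite.pi' fun _ : Fin 3 => h))
  refine (h1.preimage (f := Gam.val) fun a _ b _ => Gam.ext).subset fun a ha => ?_
  have h2 := (norm_fst_le a.val).trans ha
  have h3 := (norm_snd_le a.val).trans ha
  exact ⟨⟨⟨a.int.x1, (norm_fst_le _).trans h2⟩, a.int.x2, (norm_snd_le _).trans h2⟩,
    fun i => ⟨a.int.y i, (norm_le_pi_norm _ i).trans ((norm_fst_le _).trans h3)⟩,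
    fun i => ⟨a.int.w i, (norm_le_pi_norm _ i).trans ((norm_snd_le _).trans h3)⟩⟩

instance : ProperlyDiscontinuousSMul Gam NN where
  finite_disjoint_inter_image {K L} hK hL := by
    have hB := contDiff_Bl.continuous
    have h1 : Continuous fun x : NN × NN => ninv x.1 :=
      continuous_fst.neg.add (hB.comp (continuous_fst.prodMk continuous_fst))
    have hc : Continuous fun x : NN × NN => nmul x.2 (ninv x.1) :=
      continuous_snd.add (h1.add (hB.comp (continuous_snd.prodMk h1)))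
    obtain ⟨R, hR⟩ := (hK.prod hL).exists_bound_of_continuousOn hc.continuousOn
    refine (finite_Gam R).subset ?_
    rintro a ⟨q, ⟨p, hp, e⟩, hq⟩
    have := hR (p, q) ⟨hp, hq⟩
    rwa [← val_eq e] at this

lemma norm_fract (x : ℝ) : ‖-(⌊x⌋ : ℝ) + x‖ ≤ 1 := by
  rw [Real.norm_eq_abs, abs_le]
  constructor <;> linarith [Int.floor_le x, Int.lt_floor_add_one x]

lemma floor_mem (x : ℝ) : -(⌊x⌋ : ℝ) ∈ ZZ := neg_mem (mem_ZZ.2 ⟨_, rfl⟩)

lemma cocompact (p : NN) : ∃ a : Gam, ‖a • p‖ ≤ 1 := by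
  let a0 : NN := ((-⌊p.1.1⌋, -⌊p.1.2⌋), fun i => -⌊p.2.1 i⌋, 0)
  let a : NN := (a0.1, a0.2.1, fun k => -⌊p.2.2 k + (Bl a0 p).2.2 k⌋)
  refine ⟨⟨a, floor_mem _, floor_mem _, fun _ => floor_mem _, fun _ => floor_mem _⟩, ?_⟩
  refine norm_prod_le_iff.2 ⟨norm_prod_le_iff.2 ⟨?_, ?_⟩, norm_prod_le_iff.2 ⟨?_, ?_⟩⟩
  · simpa [Gam.smul_def, a, a0] using norm_fract p.1.1
  · simpa [Gam.smul_def, a, a0] using norm_fract p.1.2
  · refine (pi_norm_le_iff_of_nonneg zero_le_one).2 fun i => ?_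
    simpa [Gam.smul_def, a, a0] using norm_fract (p.2.1 i)
  · refine (pi_norm_le_iff_of_nonneg zero_le_one).2 fun k => ?_
    rw [Gam.smul_def, nmul_w, add_assoc]
    exact norm_fract (p.2.2 k + (Bl a0 p).2.2 k)

/-- The dilations. -/
noncomputable def dil (c : ℝ) : NN →L[ℝ] NN :=
  (c • ContinuousLinearMap.id ℝ _).prodMap
    ((c • ContinuousLinearMap.id ℝ _).prodMap (c ^ 2 • ContinuousLinearMap.id ℝ _))

lemma dil_apply (c : ℝ) (p : NN) : dil c p = (c • p.1, c • p.2.1, c ^ 2 • p.2.2) := rfl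

lemma dil_dil (c d : ℝ) (p : NN) : dil c (dil d p) = dil (c * d) p := by
  simp only [dil_apply, smul_smul, mul_pow]

@[simp] lemma dil_one (p : NN) : dil 1 p = p := by simp [dil_apply]

lemma dil_Lam (c : ℝ) (a p : NN) : dil c (Lam a p) = Lam (dil c a) (dil c p) := by
  rw [Lam_apply, Lam_apply, map_add]
  congr 1
  ext k <;> simp [Bl, dil_apply]
  fin_cases k <;> simp <;> ring

lemma dil_nmul (c : ℝ) (a p : NN) : dil c (nmul a p) = nmul (dil c a) (dil c p) := by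
  rw [nmul, map_add, dil_Lam, nmul]

/-- Block sums of cosines. -/
noncomputable def cc (j : Fin 4) (y : Ix → ℝ) : ℝ := ∑ i, cos (2 * π * y (j, i))

/-- The defining expression, as a function of the four block sums. -/
noncomputable def sf (x : ℝ × ℝ) (c : Fin 4 → ℝ) : ℂ :=
  s0 x * (c 2 + c 3 * Complex.I) - s1 x * (1 / 16 * (c 0 + c 1 * Complex.I))

/-- The section. -/
noncomputable def ss (p : NN) : ℂ := sf p.1 fun j => cc j p.2.1

@[fun_prop] lemma contDiff_cc (j : Fin 4) : ContDiff ℝ ∞ (cc j) := by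
  unfold cc; fun_prop

lemma contDiff_ss : ContDiff ℝ ∞ ss := by
  have h : ∀ j, ContDiff ℝ ∞ fun p : NN => (cc j p.2.1 : ℂ) := fun j =>
    Complex.ofRealCLM.contDiff.comp ((contDiff_cc j).comp (by fun_prop))
  unfold ss sf
  fun_prop

lemma abs_cc (j : Fin 4) (y : Ix → ℝ) : |cc j y| ≤ 5 := by
  refine (Finset.abs_sum_le_sum_abs _ _).trans ?_
  refine (Finset.sum_le_sum fun i _ => abs_cos_le_one _).trans ?_
  simp

lemma norm_cI (a b : ℝ) : ‖(a + b * Complex.I : ℂ)‖ ≤ |a| + |b| := by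
  refine (norm_add_le _ _).trans ?_
  simp

lemma norm_ss (p : NN) : ‖ss p‖ ≤ 11 := by
  refine (norm_sub_le _ _).trans ?_
  rw [norm_mul, norm_mul, norm_mul]
  have h0 := norm_s0_le p.1
  have h1 := norm_s1_le p.1
  have h2 := norm_cI (cc 2 p.2.1) (cc 3 p.2.1)
  have h3 := norm_cI (cc 0 p.2.1) (cc 1 p.2.1)
  have h4 : ‖(1 / 16 : ℂ)‖ = 1 / 16 := by simp
  have := abs_cc 0 p.2.1
  have := abs_cc 1 p.2.1
  have := abs_cc 2 p.2.1
  have := abs_cc 3 p.2.1
  rw [h4]
  have := mul_le_of_le_one_left (norm_nonneg (cc 2 p.2.1 + cc 3 p.2.1 * Complex.I : ℂ)) h0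
  have := mul_le_of_le_one_left
    (show 0 ≤ 1 / 16 * ‖(cc 0 p.2.1 + cc 1 p.2.1 * Complex.I : ℂ)‖ by positivity) h1
  linarith

lemma cos_add_ZZ {a : ℝ} (h : a ∈ ZZ) (t : ℝ) : cos (2 * π * (a + t)) = cos (2 * π * t) := by
  obtain ⟨k, rfl⟩ := mem_ZZ.1 h
  rw [← ee_re, ← ee_re, add_comm, ee_add_int]

lemma sec_add (f g : ℝ → ℝ) {a : ℝ × ℝ} (h1 : a.1 ∈ ZZ) (h2 : a.2 ∈ ZZ) (x : ℝ × ℝ) :
    sec f g (a + x) = ee (-(a.2 * x.1)) * sec f g x := by
  obtain ⟨k, hk⟩ := mem_ZZ.1 h1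
  obtain ⟨l, hl⟩ := mem_ZZ.1 h2
  have e : a + x = (x.1 + k, x.2 + l) := by
    ext <;> simp [hk, hl, add_comm]
  rw [e, sec_shift, hl]

lemma s0_add {a : ℝ × ℝ} (h1 : a.1 ∈ ZZ) (h2 : a.2 ∈ ZZ) (x : ℝ × ℝ) :
    s0 (a + x) = ee (-(a.2 * x.1)) * s0 x := sec_add _ _ h1 h2 x

lemma s1_add {a : ℝ × ℝ} (h1 : a.1 ∈ ZZ) (h2 : a.2 ∈ ZZ) (x : ℝ × ℝ) :
    s1 (a + x) = ee (-(a.2 * x.1)) * s1 x := sec_add _ _ h1 h2 x

lemma ss_smul (a : Gam) (p : NN) : ss (a • p) = ee (-(a.val.1.2 * p.1.1)) * ss p := by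
  have e2 : ∀ j, cc j (a.val.2.1 + p.2.1) = cc j p.2.1 := fun j =>
    Finset.sum_congr rfl fun i _ => cos_add_ZZ (a.int.y _) _
  simp only [ss, sf, Gam.smul_def, nmul_x, nmul_y, e2, s0_add a.int.x1 a.int.x2,
    s1_add a.int.x1 a.int.x2]
  ring

lemma exists_sin {j : Fin 4} {y : Ix → ℝ} (h : |cc j y| < 1) : ∃ i, sin (2 * π * y (j, i)) ≠ 0 := by
  by_contra hc
  push Not at hc
  have h1 := fun i => sin_eq_zero_iff_cos_eq.1 (hc i)
  rw [cc, Fin.sum_univ_five, abs_lt] at h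
  rcases h1 0 with a | a <;> rcases h1 1 with b | b <;> rcases h1 2 with c | c <;>
    rcases h1 3 with d | d <;> rcases h1 4 with e | e <;> rw [a, b, c, d, e] at h <;> linarith

lemma cc_surj (y : Ix → ℝ) (t : Fin 4 → ℝ) (h : ∀ j, t j ≠ 0 → |cc j y| < 1) :
    ∃ v : Ix → ℝ, ∀ j, HasDerivAt (fun r : ℝ => cc j (y + r • v)) (t j) 0 := by
  have h1 : ∀ j, ∃ i, t j ≠ 0 → sin (2 * π * y (j, i)) ≠ 0 := fun j => by
    by_cases hj : t j = 0
    · exact ⟨0, fun h' => absurd hj h'⟩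
    · exact (exists_sin (h j hj)).imp fun i hi _ => hi
  choose I hI using h1
  refine ⟨fun l => if l.2 = I l.1 then t l.1 / (-sin (2 * π * y l) * (2 * π)) else 0, fun j => ?_⟩
  have d : ∀ (i : Fin 5) (c : ℝ), HasDerivAt (fun r : ℝ => cos (2 * π * (y (j, i) + r * c)))
      (-sin (2 * π * y (j, i)) * (2 * π * c)) 0 := fun i c => by
    have := ((((hasDerivAt_id (0 : ℝ)).mul_const c).const_add (y (j, i))).const_mul (2 * π)).cos
    simpa using this
  have := HasDerivAt.fun_sum (u := Finset.univ) fun i _ => d i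
    (if i = I j then t j / (-sin (2 * π * y (j, i)) * (2 * π)) else 0)
  refine this.congr_deriv ?_
  rw [Finset.sum_eq_single (I j) (fun i _ hi => by simp [hi]) (by simp)]
  by_cases hj : t j = 0
  · simp [hj]
  · have := hI j hj
    simp only [if_true]
    field_simp

lemma ss_dir_y (p : NN) (t : Fin 4 → ℝ) (h : ∀ j, t j ≠ 0 → |cc j p.2.1| < 1) :
    ∃ u, fderiv ℝ ss p u = sf p.1 t := by
  obtain ⟨v, hv⟩ := cc_surj p.2.1 t h
  refine ⟨(0, v, 0), ?_⟩
  have h1 : HasDerivAt (fun r : ℝ => p + r • ((0, v, 0) : NN)) (0, v, 0) 0 := by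
    simpa using ((hasDerivAt_id (0 : ℝ)).smul_const ((0, v, 0) : NN)).const_add p
  have h2 := (contDiff_ss.differentiable (by simp) (p + (0 : ℝ) • ((0, v, 0) : NN))
    ).hasFDerivAt.comp_hasDerivAt 0 h1
  rw [zero_smul, add_zero] at h2
  refine h2.unique ?_
  have h3 := fun j => (hv j).ofReal_comp
  have := (((h3 2).add ((h3 3).mul_const Complex.I)).const_mul (s0 p.1)).sub
    ((((h3 0).add ((h3 1).mul_const Complex.I)).const_mul (1 / 16)).const_mul (s1 p.1))
  refine this.congr_of_eventuallyEq (Eventually.of_forall fun r => ?_)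
  simp [ss, sf]

lemma ss_regular {p : NN} (hp : ss p = 0) : Surjective (fderiv ℝ ss p) := by
  intro c
  by_cases h0 : s0 p.1 = 0
  · have h1 := s1_ne h0
    have h2 : (cc 0 p.2.1 + cc 1 p.2.1 * Complex.I : ℂ) = 0 := by
      simpa [ss, sf, h0, h1] using hp
    have h3 : cc 0 p.2.1 = 0 := by simpa using congrArg Complex.re h2
    have h4 : cc 1 p.2.1 = 0 := by simpa using congrArg Complex.im h2
    obtain ⟨u, hu⟩ := ss_dir_y p ![(-16 * c / s1 p.1).re, (-16 * c / s1 p.1).im, 0, 0] fun j => by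
      fin_cases j <;> simp [h3, h4]
    refine ⟨u, hu.trans ?_⟩
    simp only [sf, h0, zero_mul, Matrix.cons_val_zero, Matrix.cons_val_one, Complex.re_add_im]
    field_simp
    ring
  by_cases h1 : |cc 2 p.2.1| < 1 ∧ |cc 3 p.2.1| < 1
  · obtain ⟨u, hu⟩ := ss_dir_y p ![0, 0, (c / s0 p.1).re, (c / s0 p.1).im] fun j => by
      fin_cases j <;> simp [h1.1, h1.2]
    refine ⟨u, hu.trans ?_⟩
    simp only [sf, Matrix.cons_val_zero, Matrix.cons_val_one, Matrix.cons_val, Complex.re_add_im]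
    simp
    field_simp
  · set u1 : ℂ := cc 2 p.2.1 + cc 3 p.2.1 * Complex.I with hu1
    set u0 : ℂ := 1 / 16 * (cc 0 p.2.1 + cc 1 p.2.1 * Complex.I) with hu0
    have h2 : 1 ≤ ‖u1‖ := by
      have a := Complex.abs_re_le_norm u1
      have b := Complex.abs_im_le_norm u1
      simp only [hu1, Complex.add_re, Complex.add_im, Complex.ofReal_re, Complex.ofReal_im,
        Complex.mul_re, Complex.mul_im, Complex.I_re, Complex.I_im, mul_zero, mul_one, sub_zero,
        add_zero, zero_add] at a b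
      rcases not_and_or.1 h1 with h | h <;> linarith [not_lt.1 h]
    have h3 : ‖u0‖ < 1 := by
      have := norm_cI (cc 0 p.2.1) (cc 1 p.2.1)
      have h4 : ‖(1 / 16 : ℂ)‖ = 1 / 16 := by simp
      rw [hu0, norm_mul, h4]
      linarith [abs_cc 0 p.2.1, abs_cc 1 p.2.1]
    have h4 : s0 p.1 * u1 = s1 p.1 * u0 := sub_eq_zero.1 hp
    have h5 : ‖s0 p.1‖ < 1 := by
      have a := congrArg norm h4
      rw [norm_mul, norm_mul] at a
      have := mul_le_of_le_one_left (norm_nonneg u0) (norm_s1_le p.1)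
      have := le_mul_of_one_le_right (norm_nonneg (s0 p.1)) h2
      linarith
    obtain ⟨E, τ, α, β, a1, a2, a3, a4, a5, a6⟩ := s0_small h5
    have hu : u1 ≠ 0 := by rintro h; rw [h, norm_zero] at h2; linarith
    have h6 : PosAt (fun x => u1 * τ x - u0) p.1 := by
      refine ⟨?_, u1 * α, u1 * β, ?_, ((a2.const_mul u1).sub_const u0).congr_fderiv ?_⟩
      · rw [a5.self_of_nhds, a6.self_of_nhds] at h4
        refine mul_left_cancel₀ a4 ?_
        linear_combination h4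
      · rw [area_mul]; exact mul_pos (Complex.normSq_pos.2 hu) a1
      · ext <;> simp
    obtain ⟨-, α', β', b1, b2⟩ := h6.mul a3 a4
    obtain ⟨v, hv⟩ := pair_surj b1.ne' c
    refine ⟨(v, 0), ?_⟩
    have d1 : HasFDerivAt (fun x : ℝ × ℝ => ((x, p.2) : NN)) (ContinuousLinearMap.inl ℝ _ _) p.1 :=
      hasFDerivAt_prodMk_left _ _
    have d2 := (contDiff_ss.differentiable (by simp) p).hasFDerivAt.comp p.1 d1
    have d3 : HasFDerivAt (ss ∘ fun x : ℝ × ℝ => ((x, p.2) : NN)) (pair α' β') p.1 := by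
      refine b2.congr_of_eventuallyEq ?_
      filter_upwards [a5, a6] with x h5 h6
      simp only [Function.comp, ss, sf, h5, h6, ← hu1, ← hu0]
      ring
    rw [← hv, ← d2.unique d3]
    rfl

end Pool.Agent.Lib.MP_029589_gt
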