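import Pool.Agent.Lib.MP_029589_gt.Flat

/-! Tools for transferring hypereuclidean coverings. -/

set_option autoImplicit false

open scoped Manifold ContDiff Topology
open Set Filter Function Topology Metric

namespace Pool.Agent.Lib.MP_029589_gt.Na

lemma inv_cont {M N : Type} [TopologicalSpace M] [TopologicalSpace N] [Nonempty M] {f : M → N}
    {A : Set M} (hA : IsOpen A) (hi : InjOn f A) (hm : ∀ x ∈ A, map f (𝓝 x) = 𝓝 (f x)) :
    ContinuousOn (invFunOn f A) (f '' A) := by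
  rintro _ ⟨x, hx, rfl⟩
  refine ContinuousAt.continuousWithinAt ?_
  rw [ContinuousAt, ← hm x hx, tendsto_map'_iff, hi.leftInvOn_invFunOn hx]
  exact tendsto_id.congr' (eventually_of_mem (hA.mem_nhds hx) fun u hu =>
    (hi.leftInvOn_invFunOn hu).symm)

lemma const_on {M W : Type} [TopologicalSpace M] {S : Set M} (hS : IsPreconnected S) {f : M → W}
    (h : ∀ x ∈ S, ∀ᶠ y in 𝓝[S] x, f y = f x) {a b : M} (ha : a ∈ S) (hb : b ∈ S) : f a = f b :=
  hS.induction₂' (fun x y => f x = f y) (fun x hx => (h x hx).mono fun _ e => ⟨e.symm, e⟩)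
    (fun _ _ _ _ _ _ => Eq.trans) ha hb

variable {n : ℕ} {X : Mfd n} {E : Type} [TopologicalSpace E] [ChartedSpace (Euc n) E]
  [IsManifold (𝓡 n) ∞ E]

/-- Properness in terms of sublevel sets. -/
def Prp {E : Type} [TopologicalSpace E] (F : E → Euc n) : Prop := ∀ R, IsCompact {x | ‖F x‖ ≤ R}

lemma Prp.sub {E : Type} [TopologicalSpace E] {F : E → Euc n} (h : Prp F) (hc : Continuous F)
    (q : Euc n) (R : ℝ) : IsCompact {x | ‖F x - q‖ ≤ R} :=
  (h (R + ‖q‖)).of_isClosed_subset (isClosed_le (by fun_prop) continuous_const) fun x hx =>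
    (norm_le_norm_sub_add _ q).trans (add_le_add hx le_rfl)

lemma Prp.finite {F : E → Euc n} (h : Prp F) (hF : ContMDiff (𝓡 n) (𝓡 n) ∞ F) {y : Euc n}
    (r : Reg univ F y) : {x | x ∈ univ ∧ F x = y}.Finite :=
  kit_finite isOpen_univ (h ‖y‖) (subset_univ _) hF.contMDiffOn
    (fun _ _ hx e => hx (le_of_eq (congrArg norm e))) r

lemma perturbE [T2Space E] {o : E → ℝ} (ho : Ori (Euc n) o) {F F' : E → Euc n}
    (hF : ContMDiff (𝓡 n) (𝓡 n) ∞ F) (hF' : ContMDiff (𝓡 n) (𝓡 n) ∞ F') (hp : Prp F) {c : ℝ}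
    (hd : ∀ x, ‖F' x - F x‖ ≤ c) {q : Euc n} (r : Reg univ F q)
    (h : cnt o univ F q ≠ 0) : Prp F' ∧ ∃ y, Reg univ F' y ∧ cnt o univ F' y ≠ 0 := by
  refine ⟨fun R => (hp (R + c)).of_isClosed_subset
    (isClosed_le hF'.continuous.norm continuous_const) fun x hx => ?_, ?_⟩
  · have := norm_sub_norm_le (F x) (F' x)
    rw [norm_sub_rev] at this
    have := hd x
    simp only [mem_ofPred_eq] at hx ⊢
    linarith
  have hK := hp.sub hF.continuous q (c + 2)
  have k1 : ∀ x ∉ {x | ‖F x - q‖ ≤ c + 2}, ∀ τ ∈ Icc (0 : ℝ) 1, ∀ z, ‖z - q‖ ≤ 1 →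
      1 ≤ ‖(1 - τ) • F x + τ • F' x - z‖ := fun x hx τ hτ z hz => by
    have a1 : F x - q = ((1 - τ) • F x + τ • F' x - z) + (z - q) - τ • (F' x - F x) := by module
    have a2 : ‖τ • (F' x - F x)‖ ≤ c := by
      rw [norm_smul, Real.norm_of_nonneg hτ.1]
      exact (mul_le_mul hτ.2 (hd x) (norm_nonneg _) one_pos.le).trans (one_mul c).le
    have a3 := norm_sub_le ((1 - τ) • F x + τ • F' x - z + (z - q)) (τ • (F' x - F x))
    have a4 := norm_add_le ((1 - τ) • F x + τ • F' x - z) (z - q)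
    rw [← a1] at a3
    simp only [mem_ofPred_eq, not_le] at hx
    linarith
  have k2 := kit_near ho isOpen_univ hK (subset_univ _) hF.contMDiffOn one_pos
    (fun x _ hx => by simpa using k1 x hx 0 (by simp) q (by simp)) r
  obtain ⟨y, ⟨⟨y1, y2⟩, y3⟩, y4⟩ := kit_sard isOpen_univ hK (subset_univ _) hF'.contMDiffOn one_pos
    (fun x _ hx => by simpa using k1 x hx 1 (by simp) q (by simp))
    (k2.and (closedBall_mem_nhds q one_pos))
  refine ⟨y, y4, ?_⟩
  rwa [← kit_main ho isOpen_univ hK (subset_univ _) hF.contMDiffOn hF'.contMDiffOn one_pos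
    (fun x _ hx τ hτ => k1 x hx τ hτ y (mem_closedBall_iff_norm.1 y3)) y1 y4, y2]

lemma cover_of {p : E → X.M} (cov : IsCoveringMap p) (hp : ∀ e, LD (Euc n) p e) {g : X.Metric}
    {o : X.M → ℝ} {L : ℝ} (hL : 0 ≤ L) {F : E → Euc n} (hF : Lip g p L F) (hP : Prp F) {y : Euc n}
    (r : Reg univ F y) (h : cnt (opull (Euc n) o p) univ F y ≠ 0) :
    HasHypereuclideanCover X g o := by
  obtain ⟨z, hz⟩ := cnt_component (hP.finite hF.1 r) h
  obtain ⟨C, i, i1, i2, i3, i4⟩ := exists_cover cov hp z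
  have d := fun x => (hF.1 x).mdifferentiableAt (by simp)
  obtain ⟨a1, a2⟩ := cnt_transfer (o := opull (Euc n) o p) (i := i) (O := univ)
    (O' := univ ∩ connectedComponent z) (G := F) (G' := F ∘ i) (y := y)
    ⟨fun x hx => ⟨⟨trivial, i2.le ⟨x, rfl⟩⟩, hx.2⟩, i1.injective.injOn, fun w hw => by
      obtain ⟨x, rfl⟩ := i2.ge hw.1.2
      exact ⟨x, ⟨trivial, hw.2⟩, rfl⟩⟩ fun x _ _ => ⟨i3 x, d _, EventuallyEq.rfl⟩
  have sm : ContMDiff (𝓡 n) (𝓡 n) ∞ (F ∘ i) := fun x => (hF.1 _).comp x (i3 x).contMDiffAt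
  refine ⟨C, F ∘ i, sm, isProperMap_iff_isCompact_preimage.2 ⟨sm.continuous, fun K hK => ?_⟩,
    ⟨L, fun x v => ?_⟩, y, fun x hx => a2.2 (fun w _ => r w trivial) x trivial hx,
    fun e => hz (a1 ▸ e ▸ finsum_mem_congr (by ext; simp) fun x _ => ?_)⟩
  · obtain ⟨R, hR⟩ := hK.isBounded.exists_norm_le
    have : IsClosedEmbedding i := ⟨i1.isEmbedding, i2 ▸ isClosed_connectedComponent⟩
    exact (this.isCompact_preimage (hP R)).of_isClosed_subset
      (hK.isClosed.preimage sm.continuous) fun x hx => hR _ hx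
  · refine (le_nrm_iff g _ _ (norm_nonneg _) hL).2 ?_
    change ‖md (Euc n) (Euc n) (F ∘ i) x v‖ ≤ L * nrm g (C.p x) (md (Euc n) (Euc n) C.p x v)
    rw [i4, md_comp (d _) (i3 x).mdiff, md_comp (hp _).mdiff (i3 x).mdiff]
    exact hF.2 _ _
  · rw [← opull_comp (i3 x) (hp _), ← i4]
    rfl

omit [IsManifold (𝓡 n) ∞ E] in
lemma cnt_split {o : E → ℝ} {F : E → Euc n} {y : Euc n} {O : Bool → Set E}
    (hf : {x | x ∈ univ ∧ F x = y}.Finite) (hd : Disjoint (O true) (O false))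
    (hu : ∀ x, F x = y → ∃ b, x ∈ O b) (h : cnt o univ F y ≠ 0) : ∃ b, cnt o (O b) F y ≠ 0 := by
  by_contra! hz
  refine h ?_
  have e : {x | x ∈ univ ∧ F x = y} =
      {x | x ∈ O true ∧ F x = y} ∪ {x | x ∈ O false ∧ F x = y} := by
    ext x
    refine ⟨fun hx => ?_, fun hx => ⟨trivial, hx.elim And.right And.right⟩⟩
    obtain ⟨_ | _, hb⟩ := hu x hx.2
    exacts [Or.inr ⟨hb, hx.2⟩, Or.inl ⟨hb, hx.2⟩]
  rw [cnt, e, finsum_mem_union (hd.mono (fun _ a => a.1) fun _ a => a.1)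
    (hf.subset (e ▸ subset_union_left)) (hf.subset (e ▸ subset_union_right))]
  exact (congrArg₂ (· + ·) (hz true) (hz false)).trans (add_zero 0)

omit [IsManifold (𝓡 n) ∞ E] in
lemma jd_const (hn : 0 < n) {F : E → Euc n} {x : E} (h : ∀ᶠ e in 𝓝 x, F e = F x) :
    md (Euc n) (Euc n) F x = 0 ∧ jd F x = 0 := by
  have a : md (Euc n) (Euc n) F x = 0 :=
    (md_congr (g := fun _ => F x) h).trans mfderiv_const
  refine ⟨a, by_contra fun b => ?_⟩
  have := (det_ne_zero_iff _).1 b (a₁ := EuclideanSpace.single ⟨0, hn⟩ 1) (a₂ := 0) (by simp [a])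
  simp at this

end Pool.Agent.Lib.MP_029589_gt.Na
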