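import Pool.Agent.Lib.MP_029589_gt.NotA1

/-! Filling the hole in a covering of the punctured manifold. -/

set_option autoImplicit false

open scoped Manifold ContDiff Topology
open Set Filter Function Topology Metric

namespace Pool.Agent.Lib.MP_029589_gt.Na

variable {n : ℕ} {X D : Mfd n} {φ : OpenPartialHomeomorph X.M (Euc n)} {x0 : X.M}

lemma punct (h : Big X φ x0) : φ.source ∩ {x0}ᶜ = φ.symm '' {v | ‖v‖ ∈ Ioi 0} := by
  ext x
  rw [h.mem_img]
  exact and_congr_right fun hx => by simpa using (h.ne hx).symm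

lemma Secs.lab {E X : Type} [TopologicalSpace E] [TopologicalSpace X] {p : E → X}
    (hp : IsLocalHomeomorph p) {U : Set X} (hU : IsOpen U) {κ : Type} {s : κ → X → E}
    (h : Secs p U s) (x : X) : ∃ t : E → E, ∀ z, p z ∈ U → ∃ k, s k (p z) = z ∧
      ∀ᶠ w in 𝓝 z, t w = s k x := by
  classical
  choose l hl using h.sur
  refine ⟨fun z => if a : p z ∈ U then s (l z a) x else z, fun z hz => ⟨_, hl z hz, ?_⟩⟩
  filter_upwards [sec_eventually (hp.isLocalHomeomorphOn (s := {z}))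
    ((h.cont (l z hz)).continuousAt (hU.mem_nhds hz)) (hl z hz)
    (eventually_of_mem (hU.mem_nhds hz) (h.sec _)),
    hp.continuous.continuousAt (hU.mem_nhds hz)] with w h1 h2
  rw [dif_pos (show p w ∈ U from h2), h.inj _ _ _ h2 ((hl w h2).trans h1.symm)]

theorem fill (h : Big X φ x0) (hn : 3 ≤ n) [CompactSpace X.M] {ι : X.M → D.M}
    (hι : ∀ x, x ≠ x0 → LD (Euc n) ι x) (hi : InjOn ι {x0}ᶜ) {Y : Mfd n} {π : Y.M → D.M}
    (cov : IsCoveringMap π) (hπ : ∀ w, LD (Euc n) π w) {o : X.M → ℝ} {o' : D.M → ℝ} {c : ℝ}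
    (hoo : ∀ x, x ≠ x0 → opull (Euc n) o' ι x = c * o x) (g : X.Metric) {g' : D.Metric} {L : ℝ}
    (hL : 0 ≤ L) {F : Y.M → Euc n} (hF : Lip g' π L F) (hP : Prp F)
    (hc : ∀ w, π w ∈ ι '' (φ.symm '' {v | ‖v‖ ∈ Icc (1 / 2) 2}) → ∀ᶠ w' in 𝓝 w, F w' = F w)
    {y : Euc n} (r : Reg univ F y)
    (hy : cnt (opull (Euc n) o' π) (π ⁻¹' (ι '' (φ.symm '' closedBall 0 1)ᶜ)) F y ≠ 0) :
    HasHypereuclideanCover X g o := by
  classical
  have cι : ContinuousOn ι {x0}ᶜ := fun x hx =>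
    (hι x hx).contMDiffAt.continuousAt.continuousWithinAt
  obtain ⟨v1, hv1⟩ : ∃ v : Euc n, ‖v‖ = 1 := ⟨EuclideanSpace.single ⟨0, by omega⟩ 1, by simp⟩
  have ne : ∀ v : Euc n, v ≠ 0 → φ.symm v ≠ x0 := fun v hv =>
    (h.ne (h.src _)).1 (by rwa [h.rinv])
  have ne' : ∀ x, x ∉ φ.symm '' ball 0 1 → x ≠ x0 := fun x hx e =>
    hx ⟨0, mem_ball_self one_pos, e ▸ h.symm_zero⟩
  have lf : Lf π ι (φ.source ∩ {x0}ᶜ) :=
    (lf_compl_zero (by simpa using hn) cov (ι := ι ∘ φ.symm)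
      (cι.comp h.cont.continuousOn ne)).comp (φ.continuousOn.mono inter_subset_left)
      (fun x hx => (h.ne hx.1).2 hx.2) fun a ha => by rw [comp, φ.left_inv ha.1]
  obtain ⟨E, _, p, ρ, cov', r1, r2, -⟩ := exists_ext cov (ι := ι) (Λ := {x0}ᶜ)
    isOpen_compl_singleton cι (T := fun _ : Unit => φ.source) (fun _ => φ.open_source)
    Subsingleton.pairwise (fun _ => by
      rw [punct h]
      exact ⟨⟨_, v1, hv1.ge.trans_lt' one_pos, rfl⟩, h.shell (by omega) isPreconnected_Ioi le_rfl⟩)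
    (fun _ => lf) (eq_univ_of_forall fun x => by
      by_cases hx : x = x0
      · exact Or.inr (mem_iUnion_of_mem () (hx ▸ h.mem))
      · exact Or.inl hx)
  obtain ⟨_, _, hp⟩ := exists_pull (V := Euc n) cov'.isLocalHomeomorph
  have oΛ : IsOpen (p ⁻¹' {x0}ᶜ) := isOpen_compl_singleton.preimage cov'.continuous
  have r3 : ∀ z, p z ≠ x0 → π (ρ z) = ι (p z) := fun z hz => (r2 _ hz).mapsTo rfl
  have r4 : ∀ z, p z ≠ x0 → π ∘ ρ =ᶠ[𝓝 z] ι ∘ p := fun z hz =>
    eventually_of_mem (oΛ.mem_nhds hz) r3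
  have r5 : ∀ z, p z ≠ x0 → LD (Euc n) ρ z := fun z hz =>
    LD.lift (r1.continuousAt (oΛ.mem_nhds hz)) (hπ _) (((hp z).cmp (hι _ hz)).congr (r4 z hz))
  have r6 : InjOn ρ (p ⁻¹' {x0}ᶜ) := fun z hz z' hz' e =>
    (r2 _ hz).injOn rfl (hi hz' hz (by rw [← r3 z hz, ← r3 z' hz', e])) e
  have r7 : ∀ w x, x ≠ x0 → π w = ι x → ∃ z, p z = x ∧ ρ z = w := fun w x hx e =>
    (r2 x hx).surjOn e
  obtain ⟨w0⟩ : Nonempty Y.M := inferInstance
  obtain ⟨s, hs, -⟩ := h.secs cov'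
  by_cases hE : Nonempty E
  swap
  · refine absurd (finsum_mem_of_eqOn_zero fun w hw => ?_) hy
    obtain ⟨⟨x, hx, e⟩, -⟩ := hw
    exact absurd ⟨(r7 w x (ne' x fun a => hx (image_mono ball_subset_closedBall a))
      e.symm).choose⟩ hE
  obtain ⟨t, ht⟩ := Secs.lab cov'.isLocalHomeomorph φ.open_source hs (φ.symm v1)
  have d := fun x => (hF.1 x).mdifferentiableAt (by simp)
  have sh : ∀ x ∈ φ.symm '' {v | ‖v‖ ∈ Icc (1 / 2) 2}, x ∈ φ.source ∧ x ≠ x0 := by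
    rintro _ ⟨v, hv, rfl⟩
    exact ⟨h.src v, ne v (norm_pos_iff.1 (one_half_pos.trans_le hv.1))⟩
  have m1 : φ.symm v1 ∈ φ.symm '' {v | ‖v‖ ∈ Icc (1 / 2) 2} :=
    ⟨v1, by simp only [mem_ofPred_eq, hv1]; norm_num, rfl⟩
  have s1 : ∀ k, ∀ x ∈ φ.symm '' {v | ‖v‖ ∈ Icc (1 / 2) 2},
      π (ρ (s k x)) ∈ ι '' (φ.symm '' {v | ‖v‖ ∈ Icc (1 / 2) 2}) := fun k x hx => by
    have := hs.sec k x (sh x hx).1
    rw [r3 _ (this.symm ▸ (sh x hx).2), this]
    exact mem_image_of_mem _ hx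
  have s2 : ∀ k, ∀ x ∈ φ.symm '' {v | ‖v‖ ∈ Icc (1 / 2) 2},
      F (ρ (s k x)) = F (ρ (s k (φ.symm v1))) := fun k x hx =>
    const_on (f := fun x => F (ρ (s k x))) (h.shell (by omega) isPreconnected_Icc
      fun a ha => one_half_pos.trans_le ha.1) (fun u hu => nhdsWithin_le_nhds
        ((((r5 _ ((hs.sec k u (sh u hu).1).symm ▸ (sh u hu).2)).contMDiffAt.continuousAt).comp
          ((hs.cont k).continuousAt (φ.open_source.mem_nhds (sh u hu).1))).eventually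
          (hc _ (s1 k u hu)))) hx m1
  let G : E → Euc n := fun z => if p z ∈ φ.symm '' ball 0 1 then F (ρ (t z)) else F (ρ z)
  have G1 : ∀ z, p z ∈ φ.symm '' ball 0 2 → G z = F (ρ (t z)) := fun z hz => by
    by_cases a : p z ∈ φ.symm '' ball 0 1
    · exact if_pos a
    rw [h.mem_img] at hz
    obtain ⟨k, k1, k2⟩ := ht z hz.1
    rw [k2.self_of_nhds, ← s2 k (p z) (h.mem_img.2 ⟨hz.1, le_trans (by norm_num)
      (not_lt.1 fun b => a (h.mem_img.2 ⟨hz.1, mem_ball_zero_iff.2 b⟩)),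
      (mem_ball_zero_iff.1 hz.2).le⟩), k1]
    exact if_neg a
  have G2 : ∀ z, p z ∈ φ.symm '' ball 0 2 → ∃ k, s k (p z) = z ∧
      ∀ᶠ w in 𝓝 z, G w = F (ρ (s k (φ.symm v1))) := fun z hz => by
    obtain ⟨k, k1, k2⟩ := ht z (h.mem_img.1 hz).1
    refine ⟨k, k1, ?_⟩
    filter_upwards [k2, cov'.continuous.continuousAt ((h.isOpen_img isOpen_ball).mem_nhds hz)]
      with w h1 h2
    rw [G1 w h2, h1]
  have G3 : ∀ z, p z ∉ φ.symm '' ball 0 2 → p z ∉ φ.symm '' closedBall 0 1 ∧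
      p z ∉ φ.symm '' ball 0 1 ∧ G =ᶠ[𝓝 z] F ∘ ρ := fun z hz => by
    have a := fun b => hz (image_mono (closedBall_subset_ball one_lt_two) b)
    refine ⟨a, fun b => a (image_mono ball_subset_closedBall b), ?_⟩
    filter_upwards [cov'.continuous.continuousAt ((h.isOpen_out 1).mem_nhds a)] with w h1
    exact if_neg fun b => h1 (image_mono ball_subset_closedBall b)
  have K1 : IsCompact (φ.symm '' ball 0 1)ᶜ :=
    (h.isOpen_img isOpen_ball).isClosed_compl.isCompact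
  obtain ⟨C, hC, hm⟩ := met_cmp g g' K1 fun x hx => hι x (ne' x hx)
  have sm : ContMDiff (𝓡 n) (𝓡 n) ∞ G := fun z => by
    by_cases a : p z ∈ φ.symm '' ball 0 2
    · obtain ⟨k, -, k2⟩ := G2 z a
      exact contMDiffAt_const.congr_of_eventuallyEq k2
    · obtain ⟨-, a2, a3⟩ := G3 z a
      exact ((hF.1 _).comp z (r5 z (ne' _ a2)).contMDiffAt).congr_of_eventuallyEq a3
  have G4 : ∀ z, G z = y → p z ∉ φ.symm '' ball 0 2 := fun z hz a => by
    obtain ⟨k, -, k2⟩ := G2 z a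
    exact r _ trivial (k2.self_of_nhds.symm.trans hz) (jd_const (by omega) (hc _ (s1 k _ m1))).2
  obtain ⟨a1, a2⟩ := cnt_transfer (o := opull (Euc n) o' π) (i := ρ) (O := univ)
    (O' := π ⁻¹' (ι '' (φ.symm '' closedBall 0 1)ᶜ)) (G := F) (G' := G) (y := y)
    ⟨fun z hz => by
      obtain ⟨b1, b2, b3⟩ := G3 z (G4 z hz.2)
      exact ⟨⟨_, b1, (r3 z (ne' _ b2)).symm⟩, b3.self_of_nhds.symm.trans hz.2⟩,
    fun z hz z' hz' => r6 (ne' _ (G3 z (G4 z hz.2)).2.1) (ne' _ (G3 z' (G4 z' hz'.2)).2.1),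
    fun w ⟨⟨x, hx, e⟩, hw⟩ => by
      have b := fun a => hx (image_mono ball_subset_closedBall a)
      obtain ⟨z, rfl, rfl⟩ := r7 w x (ne' x b) e.symm
      exact ⟨z, ⟨trivial, (if_neg b).trans hw⟩, rfl⟩⟩ fun z _ hz =>
    ⟨r5 z (ne' _ (G3 z (G4 z hz)).2.1), d _, (G3 z (G4 z hz)).2.2⟩
  refine cover_of cov' hp (mul_pos (lt_add_one L |>.trans_le' hL) hC).le (F := G)
    ⟨sm, fun z v => ?_⟩ (fun R => ?_) (a2.2 fun w _ => r w trivial) fun e => hy ?_
  · by_cases a : p z ∈ φ.symm '' ball 0 2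
    · obtain ⟨k, -, k2⟩ := G2 z a
      rw [(jd_const (by omega) (k2.mono fun w hw => hw.trans k2.self_of_nhds.symm)).1]
      have := nrm_nonneg g (p z) (md (Euc n) (Euc n) p z v)
      simp only [zero_apply, norm_zero]
      positivity
    · obtain ⟨-, a2, a3⟩ := G3 z a
      have b := ne' _ a2
      have b1 := hF.2 (ρ z) (md (Euc n) (Euc n) ρ z v)
      have b2 := md_congr (V := Euc n) (W := Euc n) (r4 z b)
      rw [md_comp (hπ _).mdiff (r5 z b).mdiff, md_comp (hι _ b).mdiff (hp z).mdiff] at b2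
      have b3 := DFunLike.congr_fun b2 v
      simp only [ContinuousLinearMap.comp_apply] at b3
      rw [b3, r3 z b] at b1
      rw [md_congr a3, md_comp (d _) (r5 z b).mdiff, mul_assoc]
      exact b1.trans (mul_le_mul (lt_add_one L).le (hm _ a2 _).1 (nrm_nonneg _ _ _)
        (by positivity))
  · have A0 : IsCompact ({w | ‖F w‖ ≤ R} ∩ π ⁻¹' (ι '' (φ.symm '' ball 0 1)ᶜ)) :=
      (hP R).inter_right ((K1.image_of_continuousOn (cι.mono ne')).isClosed.preimage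
        cov.continuous)
    have A1 := A0.image_of_continuousOn ((inv_cont oΛ r6 fun z hz => (r5 z hz).map_nhds).mono
      fun w ⟨_, x, hx, e⟩ => by
        obtain ⟨z, rfl, rfl⟩ := r7 w x (ne' x hx) e.symm
        exact ⟨z, ne' _ hx, rfl⟩)
    have A2 : ∀ z, p z ∉ φ.symm '' ball 0 1 → ‖F (ρ z)‖ ≤ R → z ∈ invFunOn ρ (p ⁻¹' {x0}ᶜ) ''
        ({w | ‖F w‖ ≤ R} ∩ π ⁻¹' (ι '' (φ.symm '' ball 0 1)ᶜ)) := fun z h1 h2 =>
      ⟨ρ z, ⟨h2, _, h1, (r3 z (ne' _ h1)).symm⟩, r6.leftInvOn_invFunOn (ne' _ h1)⟩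
    have A3 := (A1.inter_right ((isClosed_singleton (x := φ.symm v1)).preimage
      cov'.continuous)).finite ((isDiscrete_iff_discreteTopology.2 (cov' _).1).mono
        inter_subset_right)
    have A4 : {k | ‖F (ρ (s k (φ.symm v1)))‖ ≤ R}.Finite :=
      (A3.preimage (f := fun k => s k (φ.symm v1))
        fun k _ k' _ e => hs.inj k k' _ (h.src v1) e).subset fun k hk => by
        have := hs.sec k _ (h.src v1)
        refine ⟨A2 _ ?_ hk, this⟩
        rw [this, h.mem_img, h.rinv, mem_ball_zero_iff, hv1]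
        exact fun a => lt_irrefl _ a.2
    refine (A1.union (A4.isCompact_biUnion fun k _ =>
      ((isCompact_closedBall 0 1).image h.cont).image_of_continuousOn ((hs.cont k).mono
        fun x hx => (h.mem_img.1 hx).1))).of_isClosed_subset
      (isClosed_le sm.continuous.norm continuous_const) fun z hz => ?_
    by_cases a : p z ∈ φ.symm '' ball 0 1
    · obtain ⟨k, k1, k2⟩ := G2 z (image_mono (ball_subset_ball one_le_two) a)
      exact Or.inr (mem_biUnion (x := k) ((congrArg norm k2.self_of_nhds).ge.trans hz)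
        ⟨_, image_mono ball_subset_closedBall a, k1⟩)
    · exact Or.inl (A2 z a ((if_neg a : G z = _) ▸ hz))
  · rw [← a1, ← mul_zero c, ← e, cnt, cnt, mul_finsum_mem]
    refine finsum_mem_congr rfl fun z hz => ?_
    have b := ne' _ (G3 z (G4 z hz.2)).2.1
    have b1 : opull (Euc n) o' (π ∘ ρ) z = opull (Euc n) o' (ι ∘ p) z := by
      rw [opull, opull, md_congr (r4 z b), (r4 z b).self_of_nhds]
    rw [← opull_comp (r5 z b) (hπ _), b1, opull_comp (hp z) (hι _ b), opull, hoo _ b, opull]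
    ring

end Pool.Agent.Lib.MP_029589_gt.Na
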