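import Pool.Agent.Lib.MP_029589_gt.PerA

/-! JOB V1: closed periodic forms and the form of an etale multivalued map. -/

set_option autoImplicit false

open scoped Manifold ContDiff Topology Matrix
open Set Filter Function Topology MeasureTheory

namespace Pool.Agent.Lib.MP_029589_gt

/-- The determinant as a continuous alternating form. -/
noncomputable def vol (k : ℕ) : Euc k [⋀^Fin k]→L[ℝ] ℝ :=
  { (EuclideanSpace.basisFun (Fin k) ℝ).toBasis.det with
    cont := by
      change Continuous fun v : Fin k → Euc k => (EuclideanSpace.basisFun (Fin k) ℝ).toBasis.det v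
      simp only [Module.Basis.det_apply]
      refine Continuous.matrix_det (continuous_pi fun i => continuous_pi fun j => ?_)
      simp only [Module.Basis.toMatrix_apply, OrthonormalBasis.coe_toBasis_repr_apply,
        EuclideanSpace.basisFun_repr]
      fun_prop }

lemma vol_apply {k : ℕ} (T : Euc k →L[ℝ] Euc k) :
    vol k (fun j => T (EuclideanSpace.single j 1)) = T.det := by
  have h := (EuclideanSpace.basisFun (Fin k) ℝ).toBasis.det_comp (T : Euc k →ₗ[ℝ] Euc k)
    (EuclideanSpace.basisFun (Fin k) ℝ).toBasis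
  rw [Module.Basis.det_self, mul_one] at h
  refine Eq.trans (congrArg (EuclideanSpace.basisFun (Fin k) ℝ).toBasis.det ?_) h
  funext j
  simp

section Form

variable {k : ℕ} {P B : Type} [NormedAddCommGroup P] [NormedSpace ℝ P] [TopologicalSpace B]
  {ϖ : P → B}

/-- The sum over all sheets of the pull-back of `b vol`. -/
noncomputable def Et.form (D : Et k ϖ) (b : Euc k → ℝ) (g : P) : P [⋀^Fin k]→L[ℝ] ℝ :=
  ∑ᶠ e ∈ {e | ϖ g = D.π e}, b (D.f e) • (vol k).compContinuousLinearMap (D.df e g)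

lemma Et.form_fib (D : Et k ϖ) {b : Euc k → ℝ} (hb' : ∀ y, b y ≠ 0 → ‖y‖ ≤ 3 / 4) (g : P)
    {S : Set D.F} (h1 : D.fib g ⊆ S) (h2 : ∀ e ∈ S, ϖ g = D.π e) :
    D.form b g = ∑ᶠ e ∈ S, b (D.f e) • (vol k).compContinuousLinearMap (D.df e g) :=
  finsum_mem_inter_support_eq' _ _ _ fun e he => ⟨fun h => h1 ⟨h, (hb' _ fun h0 => he (by
    simp only [h0, zero_smul])).trans (by norm_num)⟩, h2 e⟩

lemma Et.form_sheets (D : Et k ϖ) {b : Euc k → ℝ} (hb' : ∀ y, b y ≠ 0 → ‖y‖ ≤ 3 / 4) {g₀ g : P}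
    (h : (∀ e ∈ D.fib g₀, ϖ g = D.π (D.sec e g) ∧ ContDiffAt ℝ ∞ (D.f ∘ D.sec e) g ∧
      D.df (D.sec e g) g = fderiv ℝ (D.f ∘ D.sec e) g) ∧
    InjOn (fun e => D.sec e g) (D.fib g₀) ∧ D.fib g ⊆ (fun e => D.sec e g) '' D.fib g₀) :
    D.form b g = ∑ e ∈ (D.fib_finite g₀).toFinset,
      (b ((D.f ∘ D.sec e) g) • vol k).compContinuousLinearMap (fderiv ℝ (D.f ∘ D.sec e) g) := by
  rw [D.form_fib hb' g h.2.2 (by rintro _ ⟨e, he, rfl⟩; exact (h.1 e he).1),
    finsum_mem_image h.2.1, finsum_mem_eq_finite_toFinset_sum _ (D.fib_finite g₀)]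
  refine Finset.sum_congr rfl fun e he => ?_
  rw [(h.1 e ((D.fib_finite g₀).mem_toFinset.1 he)).2.2]
  rfl

variable [FiniteDimensional ℝ P] (D : Et k ϖ) (hϖ : Continuous ϖ) {b : Euc k → ℝ}
  (hb : ContDiff ℝ ∞ b) (hb' : ∀ y, b y ≠ 0 → ‖y‖ ≤ 3 / 4)
include hϖ hb hb'

omit hϖ hb' in
lemma contDiffAt_sheet {φ : P → Euc k} {g : P} (h : ContDiffAt ℝ ∞ φ g) :
    ContDiffAt ℝ ∞ (fun g => (b (φ g) • vol k).compContinuousLinearMap (fderiv ℝ φ g)) g :=
  contDiffAt_alt_comp ((hb.contDiffAt.comp g h).smul contDiffAt_const)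
    (h.fderiv_right (by simp))

theorem Et.contDiff_form : ContDiff ℝ ∞ (D.form b) := by
  refine contDiff_iff_contDiffAt.2 fun g => ContDiffAt.congr_of_eventuallyEq ?_
    ((D.sheets hϖ g).mono fun w hw => D.form_sheets hb' hw)
  exact ContDiffAt.sum fun e he =>
    contDiffAt_sheet hb (D.sm' ((D.fib_finite g).mem_toFinset.1 he).1)

theorem Et.closed_form (g : P) : extDeriv (D.form b) g = 0 := by
  have h := fun e (he : e ∈ (D.fib_finite g).toFinset) =>
    D.sm' ((D.fib_finite g).mem_toFinset.1 he).1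
  rw [Filter.EventuallyEq.extDeriv_eq ((D.sheets hϖ g).mono fun w hw => D.form_sheets hb' hw),
    extDeriv_finset_sum _ fun e he => (contDiffAt_sheet hb (h e he)).differentiableAt (by simp)]
  exact Finset.sum_eq_zero fun e he => extDeriv_pull (fun y => b y • vol k)
    ((hb.differentiable (by simp) _).smul_const _) (h e he) (alt_top _)

end Form

section Area

variable {P B : Type} [NormedAddCommGroup P] [NormedSpace ℝ P] [TopologicalSpace B]
  {ϖ : P → B} (D : Et 4 ϖ) (b : Euc 4 → ℝ) (m : Euc 4 → P)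

/-- The preimages over a set. -/
def Et.pre (A : Set (Euc 4)) (y : Euc 4) : Set (Euc 4 × D.F) :=
  {z | z.1 ∈ A ∧ ϖ (m z.1) = D.π z.2 ∧ D.f z.2 = y}

/-- The weighted signed count over a set. -/
noncomputable def Et.numOn (A : Set (Euc 4)) (y : Euc 4) : ℝ :=
  b y * ∑ᶠ z ∈ D.pre m A y, (SignType.sign ((D.df z.2 (m z.1)).comp (fderiv ℝ m z.1)).det : ℝ)

/-- The area formula over a set. -/
def Et.Ar (A : Set (Euc 4)) : Prop :=
  (∀ᵐ y, b y ≠ 0 → (D.pre m A y).Finite) ∧ Integrable (D.numOn b m A) ∧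
    ∫ u in A, D.form b (m u) (fun j => fderiv ℝ m u (EuclideanSpace.single j 1)) =
      ∫ y, D.numOn b m A y

variable {b m}

lemma Et.ar_union {A A' : Set (Euc 4)} (hd : Disjoint A A') (hA' : MeasurableSet A')
    (hi : IntegrableOn
      (fun u => D.form b (m u) fun j => fderiv ℝ m u (EuclideanSpace.single j 1)) (A ∪ A'))
    (h : D.Ar b m A) (h' : D.Ar b m A') : D.Ar b m (A ∪ A') := by
  have e : ∀ y, D.pre m (A ∪ A') y = D.pre m A y ∪ D.pre m A' y := fun y =>
    Set.ext fun z => or_and_right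
  have e2 : D.numOn b m (A ∪ A') =ᵐ[volume] fun y => D.numOn b m A y + D.numOn b m A' y := by
    filter_upwards [h.1, h'.1] with y h1 h2
    by_cases h0 : b y = 0
    · simp [Et.numOn, h0]
    · simp only [Et.numOn]
      rw [e, finsum_mem_union (disjoint_left.2 fun z a a' => disjoint_left.1 hd a.1 a'.1) (h1 h0)
        (h2 h0), mul_add]
  refine ⟨?_, (h.2.1.add h'.2.1).congr e2.symm, ?_⟩
  · filter_upwards [h.1, h'.1] with y h1 h2 h0
    exact e y ▸ (h1 h0).union (h2 h0)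
  · rw [setIntegral_union hd hA' (hi.mono_set subset_union_left) (hi.mono_set subset_union_right),
      h.2.2, h'.2.2, integral_congr_ae e2, integral_add h.2.1 h'.2.1]

variable [FiniteDimensional ℝ P] (hϖ : Continuous ϖ) (hb : ContDiff ℝ ∞ b)
  (hb' : ∀ y, b y ≠ 0 → ‖y‖ ≤ 3 / 4) (hm : ContDiff ℝ ∞ m)
include hϖ hb hb' hm

lemma Et.cont_area :
    Continuous fun u => D.form b (m u) fun j => fderiv ℝ m u (EuclideanSpace.single j 1) :=
  continuous_iff_continuousAt.2 fun u => (contDiffAt_alt_apply (n := 0)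
    (((D.contDiff_form hϖ hb hb').comp hm).of_le (by simp)).contDiffAt (contDiffAt_pi.2 fun _ =>
      (hm.contDiffAt.fderiv_right (by simp)).clm_apply contDiffAt_const)).continuousAt

lemma Et.ar_loc (u₀ : Euc 4) : ∃ r > 0, ∀ A ⊆ Metric.ball u₀ r, MeasurableSet A → D.Ar b m A := by
  obtain ⟨r, hr, h⟩ := Metric.nhds_basis_closedBall.eventually_iff.1
    (hm.continuous.continuousAt.eventually (D.sheets hϖ (m u₀)))
  refine ⟨r, hr, fun A hA hA' => ?_⟩
  replace hA := hA.trans Metric.ball_subset_closedBall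
  have hf := D.fib_finite (m u₀)
  let ψ : D.F → Euc 4 → Euc 4 := fun e => (D.f ∘ D.sec e) ∘ m
  have s1 : ∀ e ∈ D.fib (m u₀), ∀ u ∈ Metric.closedBall u₀ r, ContDiffAt ℝ ∞ (ψ e) u :=
    fun e he u hu => ((h hu).1 e he).2.1.comp u hm.contDiffAt
  have s2 : ∀ e ∈ D.fib (m u₀), ∀ u ∈ Metric.closedBall u₀ r,
      fderiv ℝ (ψ e) u = (fderiv ℝ (D.f ∘ D.sec e) (m u)).comp (fderiv ℝ m u) := fun e he u hu =>
    fderiv_comp u (((h hu).1 e he).2.1.differentiableAt (by simp))
      (hm.differentiable (by simp) u)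
  have s3 : ∀ e ∈ D.fib (m u₀), ContinuousOn (fun u => (fderiv ℝ (ψ e) u).det)
      (Metric.closedBall u₀ r) := fun e he u hu =>
    (ContinuousLinearMap.continuous_det.continuousAt.comp
      ((s1 e he u hu).continuousAt_fderiv (by simp))).continuousWithinAt
  have s4 : ∀ e ∈ D.fib (m u₀), IntegrableOn (fun u => (fderiv ℝ (ψ e) u).det * b (ψ e u)) A :=
    fun e he => (((s3 e he).mul fun u hu => (hb.continuous.continuousAt.comp
      (s1 e he u hu).continuousAt).continuousWithinAt).integrableOn_compact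
        (isCompact_closedBall _ _)).mono_set hA
  have s5 := fun e he => area_signed volume hA'
    (fun u hu => (s1 e he u (hA hu)).differentiableAt (by simp))
    (((s3 e he).integrableOn_compact (isCompact_closedBall _ _)).mono_set hA) (s4 e he)
  have s6 : ∀ y, b y ≠ 0 → D.pre m A y =
      ⋃ e ∈ D.fib (m u₀), (fun u => (u, D.sec e (m u))) '' (A ∩ ψ e ⁻¹' {y}) := fun y hy => by
    ext ⟨u, e⟩
    simp only [mem_iUnion₂]
    constructor
    · rintro ⟨h1, h2, h3⟩
      obtain ⟨e', h4, rfl⟩ := (h (x := u) (hA h1)).2.2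
        (show e ∈ D.fib (m u) from ⟨h2, (h3 ▸ hb' y hy).trans (by norm_num)⟩)
      exact ⟨e', h4, u, ⟨h1, h3⟩, rfl⟩
    · rintro ⟨e', h4, u', ⟨h1, h3⟩, h5⟩
      cases h5
      exact ⟨h1, ((h (hA h1)).1 e' h4).1, h3⟩
  have s7 : ∀ᵐ y, ∀ e ∈ D.fib (m u₀), (A ∩ ψ e ⁻¹' {y}).Finite :=
    (eventually_all_finite hf).2 fun e he => (s5 e he).1.mono fun y hy => hy.1
  have s8 : (fun y => ∑ e ∈ hf.toFinset, ∑ᶠ u ∈ A ∩ ψ e ⁻¹' {y},
      SignType.sign (fderiv ℝ (ψ e) u).det * b (ψ e u)) =ᵐ[volume] D.numOn b m A := by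
    filter_upwards [s7] with y hy
    by_cases h0 : b y = 0
    · rw [Et.numOn, h0, zero_mul]
      refine Finset.sum_eq_zero fun e _ => finsum_mem_of_eqOn_zero fun u hu => ?_
      rw [show ψ e u = y from hu.2, h0, mul_zero]
      rfl
    rw [Et.numOn, s6 y h0, finsum_mem_biUnion ?_ hf fun e he => (hy e he).image _,
      finsum_mem_eq_finite_toFinset_sum _ hf, Finset.mul_sum]
    · refine Finset.sum_congr rfl fun e he => ?_
      rw [hf.mem_toFinset] at he
      rw [finsum_mem_image fun _ _ _ _ h => congrArg Prod.fst h, mul_finsum_mem]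
      refine finsum_mem_congr rfl fun u hu => ?_
      rw [show ψ e u = y from hu.2, mul_comm, s2 e he u (hA hu.1), ((h (hA hu.1)).1 e he).2.2]
    · refine fun e he e' he' hne => disjoint_left.2 ?_
      rintro _ ⟨u, hu, rfl⟩ ⟨u', -, h5⟩
      obtain ⟨rfl, h6⟩ := Prod.mk.inj h5
      exact hne ((h (hA hu.1)).2.1 he he' h6.symm)
  have s9 := fun e (he : e ∈ hf.toFinset) => s5 e (hf.mem_toFinset.1 he)
  refine ⟨s7.mono fun y hy h0 => s6 y h0 ▸ hf.biUnion fun e he => (hy e he).image _,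
    (integrable_finsetSum _ fun e he => (s9 e he).2.1).congr s8, ?_⟩
  rw [← integral_congr_ae s8, integral_finsetSum _ fun e he => (s9 e he).2.1,
    ← Finset.sum_congr rfl fun e he => (s9 e he).2.2,
    ← integral_finsetSum _ fun e he => s4 e (hf.mem_toFinset.1 he)]
  refine setIntegral_congr_fun hA' fun u hu => ?_
  simp only [D.form_sheets hb' (h (hA hu)), ContinuousAlternatingMap.sum_apply]
  refine Finset.sum_congr rfl fun e he => ?_
  rw [s2 e (hf.mem_toFinset.1 he) u (hA hu), ← vol_apply, mul_comm]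
  rfl

end Area

lemma measurableSet_cube : MeasurableSet cube := by
  rw [cube, ofPred_forall]
  exact MeasurableSet.iInter fun i => measurableSet_Ico.preimage (by fun_prop)

theorem Et.area {P B : Type} [NormedAddCommGroup P] [NormedSpace ℝ P] [TopologicalSpace B]
    {ϖ : P → B} [FiniteDimensional ℝ P] (D : Et 4 ϖ) (hϖ : Continuous ϖ) {b : Euc 4 → ℝ}
    (hb : ContDiff ℝ ∞ b) (hb' : ∀ y, b y ≠ 0 → ‖y‖ ≤ 3 / 4) {m : Euc 4 → P}
    (hm : ContDiff ℝ ∞ m) :
    ∫ u in cube, D.form b (m u) (fun j => fderiv ℝ m u (EuclideanSpace.single j 1)) =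
      ∫ y, b y * D.num m y := by
  have hK : IsCompact (WithLp.toLp 2 '' Icc (0 : Fin 4 → ℝ) 1 : Set (Euc 4)) :=
    isCompact_Icc.image (by fun_prop)
  set K : Set (Euc 4) := WithLp.toLp 2 '' Icc (0 : Fin 4 → ℝ) 1
  have hc : cube ⊆ K := fun u hu => ⟨u.ofLp, ⟨fun i => (hu i).1, fun i => (hu i).2.le⟩, rfl⟩
  have hi := (D.cont_area hϖ hb hb' hm).continuousOn.integrableOn_compact (μ := volume) hK
  obtain ⟨U, -, h1, h2⟩ := hK.induction_on
    (p := fun S => ∃ U, IsOpen U ∧ S ⊆ U ∧ ∀ A ⊆ U ∩ K, MeasurableSet A → D.Ar b m A)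
    (by
      obtain ⟨r, -, h⟩ := D.ar_loc hϖ hb hb' hm 0
      exact ⟨_, Metric.isOpen_ball, empty_subset _, fun A hA => h A (hA.trans inter_subset_left)⟩)
    (fun s t h ⟨U, a1, a2, a3⟩ => ⟨U, a1, h.trans a2, a3⟩)
    (fun s t ⟨U, a1, a2, a3⟩ ⟨V, b1, b2, b3⟩ => ⟨U ∪ V, a1.union b1, union_subset_union a2 b2,
      fun A hA hA' => by
        rw [← inter_union_sdiff A U]
        refine D.ar_union disjoint_inf_sdiff (hA'.diff a1.measurableSet) ?_
          (a3 _ (fun u hu => ⟨hu.2, (hA hu.1).2⟩) (hA'.inter a1.measurableSet))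
          (b3 _ (fun u hu => ⟨(hA hu.1).1.resolve_left hu.2, (hA hu.1).2⟩)
            (hA'.diff a1.measurableSet))
        rw [inter_union_sdiff]
        exact hi.mono_set (hA.trans inter_subset_right)⟩)
    fun u _ => by
      obtain ⟨r, hr, h⟩ := D.ar_loc hϖ hb hb' hm u
      exact ⟨_, mem_nhdsWithin_of_mem_nhds (Metric.ball_mem_nhds u hr), _, Metric.isOpen_ball,
        Subset.rfl, fun A hA => h A (hA.trans inter_subset_left)⟩
  exact (h2 cube (subset_inter (hc.trans h1) hc) measurableSet_cube).2.2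

lemma aeV_eq' {V : Type} [NormedAddCommGroup V] [NormedSpace ℝ V] [FiniteDimensional ℝ V]
    [m : MeasurableSpace V] [h : BorelSpace V] (μ : Measure V) [μ.IsAddHaarMeasure] :
    aeV V = ae μ := by
  obtain ⟨rfl⟩ := h
  let := borel V
  have : BorelSpace V := ⟨rfl⟩
  exact le_antisymm (Measure.absolutelyContinuous_isAddHaarMeasure _ μ).ae_le
    (Measure.absolutelyContinuous_isAddHaarMeasure μ _).ae_le

lemma aeV_eq (n : ℕ) : aeV (Euc n) = ae (volume : Measure (Euc n)) := aeV_eq' _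

section Per

variable {d k : ℕ} {β : (Fin d → ℝ) × ℝ → ((Fin d → ℝ) × ℝ) [⋀^Fin k]→L[ℝ] ℝ}

/-- The average of a form over the torus at height `t`. -/
noncomputable def avg (β : (Fin d → ℝ) × ℝ → ((Fin d → ℝ) × ℝ) [⋀^Fin k]→L[ℝ] ℝ) (t : ℝ) :
    (Fin d → ℝ) [⋀^Fin k]→L[ℝ] ℝ :=
  ∫ x in Icc (0 : Fin d → ℝ) 1, (β (x, t)).compContinuousLinearMap (.inl ℝ _ ℝ)

/-- Smooth closed periodic forms. -/
structure PerForm (β : (Fin d → ℝ) × ℝ → ((Fin d → ℝ) × ℝ) [⋀^Fin k]→L[ℝ] ℝ) : Prop where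
  sm : ContDiff ℝ ∞ β
  cl : ∀ g, extDeriv β g = 0
  per : ∀ (a : Fin d → ℤ) x t, β (cz a + x, t) = β (x, t)

theorem avg_apply (h : Continuous β) (t : ℝ) (v : Fin k → Fin d → ℝ) :
    avg β t v = ∫ x in Icc (0 : Fin d → ℝ) 1, β (x, t) fun j => (v j, 0) := by
  refine ((ContinuousAlternatingMap.apply ℝ _ ℝ v).integral_comp_comm ?_).symm
  refine ContinuousOn.integrableOn_compact isCompact_Icc (Continuous.continuousOn ?_)
  exact (ContinuousAlternatingMap.compContinuousLinearMapCLM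
    (ContinuousLinearMap.inl ℝ (Fin d → ℝ) ℝ)).continuous.comp (by fun_prop)

theorem PerForm.avg_const (h : PerForm β) (s t : ℝ) : avg β s = avg β t := by
  ext v
  let γ := fun g : (Fin d → ℝ) × ℝ => ∫ x in Icc (0 : Fin d → ℝ) 1, β (g + (x, 0))
  have hc := h.sm.continuous
  have h1 : ∀ g, HasFDerivAt γ _ g :=
    hasFDerivAt_integral_icc (h.sm.of_le (by simp)) (ψ := fun x => (x, 0)) (by fun_prop)
  have h2 : ∀ g, extDeriv γ g = 0 := fun g =>
    (clm_fderiv_integral_icc (ContinuousAlternatingMap.alternatizeUncurryFinCLM ℝ _ ℝ)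
      (h.sm.of_le (by simp)) (ψ := fun x => (x, 0)) (by fun_prop) g).trans
      ((integral_congr_ae (Eventually.of_forall fun x => h.cl _)).trans (integral_zero _ _))
  have h3 : ∀ y t, γ (y, t) = γ (0, t) := fun y t => by
    simp only [γ, Prod.mk_add_mk, zero_add, add_zero]
    exact integral_per_add (f := fun x => β (x, t)) (fun a x => h.per a x t) y
  have h4 : ∀ t y w, fderiv ℝ (γ · w) (0, t) (y, 0) = 0 := fun t y w => by
    have a1 : DifferentiableAt ℝ (γ · w) (0 + (0 : ℝ) • y, t) :=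
      (h1 _).differentiableAt.continuousAlternatingMap_apply fun _ => differentiableAt_const _
    have a2 := a1.hasFDerivAt.comp_hasDerivAt (0 : ℝ)
      ((((hasDerivAt_id' (0 : ℝ)).smul_const y).const_add 0).prodMk (hasDerivAt_const (0 : ℝ) t))
    simp only [zero_smul, add_zero, one_smul, zero_add, comp_def, h3 (_ • y)] at a2
    exact a2.unique (hasDerivAt_const _ _)
  have h5 : ∀ t, HasDerivAt (fun t => γ (0, t) fun j => (v j, 0)) 0 t := fun t => by
    have a1 : DifferentiableAt ℝ (γ · fun j => (v j, 0)) (0, t) :=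
      (h1 _).differentiableAt.continuousAlternatingMap_apply fun _ => differentiableAt_const _
    have a2 := a1.hasFDerivAt.comp_hasDerivAt t ((hasDerivAt_const t 0).prodMk (hasDerivAt_id' t))
    have a3 := extDeriv_apply (h1 (0, t)).differentiableAt
      (Fin.cons (0, 1) fun j => (v j, 0))
    rw [h2, Fin.sum_univ_succ] at a3
    simp only [Fin.cons_succ, h4, smul_zero, Finset.sum_const_zero, add_zero, Fin.cons_zero,
      Fin.val_zero, pow_zero, one_smul, Fin.removeNth_zero, Fin.tail_cons] at a3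
    rwa [← a3] at a2
  have h6 : ∀ t, avg β t v = γ (0, t) fun j => (v j, 0) := fun t => by
    rw [avg_apply hc]
    simp only [γ, Prod.mk_add_mk, zero_add, add_zero]
    exact (ContinuousAlternatingMap.apply ℝ _ ℝ fun j => (v j, (0 : ℝ))).integral_comp_comm
      (ContinuousOn.integrableOn_compact isCompact_Icc (by fun_prop))
  rw [h6, h6]
  exact is_const_of_deriv_eq_zero (fun t => (h5 t).differentiableAt) (fun t => (h5 t).deriv) s t

/-- Integrals of periodic functions are invariant under translations and integral shears. -/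
theorem integral_per_affine {E : Type} [NormedAddCommGroup E] [NormedSpace ℝ E]
    {f : (Fin 8 → ℝ) → E} (hf : Continuous f) (hp : ∀ (a : Fin 8 → ℤ) x, f (cz a + x) = f x)
    (n : ℤ) (c : Fin 8 → ℝ) :
    ∫ x in Icc (0 : Fin 8 → ℝ) 1, f (c + pas (n : ℝ) *ᵥ x) = ∫ x in Icc (0 : Fin 8 → ℝ) 1, f x :=
  integral_per_lin hf hp (LinearMap.toContinuousLinearMap (Matrix.mulVecLin (pas (n : ℝ))))
    (fun y => ⟨pas (-(n : ℝ)) *ᵥ y, (pas_pas (n : ℝ) (-n) y).trans (by
      rw [add_neg_cancel, pas_zero_mulVec])⟩) (fun a => ⟨_, (cz_pas n a).symm⟩) c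

end Per

/-- The inclusion of the four directions as a linear map. -/
noncomputable def ioL : (Fin 4 → ℝ) →L[ℝ] (Fin 8 → ℝ) :=
  LinearMap.toContinuousLinearMap
    { toFun := io
      map_add' := fun u v => by ext i; fin_cases i <;> simp [io]
      map_smul' := fun c u => by ext i; fin_cases i <;> simp [io] }

lemma ioL_apply (u : Fin 4 → ℝ) : ioL u = io u := rfl

lemma ioL_cz (a : Fin 4 → ℤ) : ioL (cz a) = cz (io a) := by
  ext i; fin_cases i <;> simp [ioL_apply, io]

lemma ioL_single (j : Fin 4) : ioL (Pi.single j 1) = Pi.single (ix4 j) 1 := by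
  ext i; fin_cases i <;> fin_cases j <;> simp [ioL_apply, io, ix4]

lemma Eqv4.contDiff_tor {κ : Euc 4 → Fin 4 → ℝ} (hκ : Eqv4 κ) : ContDiff ℝ ∞ (tor κ) :=
  (ioL.contDiff.comp hκ.1).prodMk contDiff_const

lemma PerForm.comp {d d' k : ℕ} {β : (Fin d → ℝ) × ℝ → ((Fin d → ℝ) × ℝ) [⋀^Fin k]→L[ℝ] ℝ}
    (h : PerForm β) {H : (Fin d' → ℝ) × ℝ → (Fin d → ℝ) × ℝ} (hH : ContDiff ℝ ∞ H)
    (hp : ∀ a : Fin d' → ℤ, ∃ a' : Fin d → ℤ, ∀ x t, H (cz a + x, t) = (cz a', 0) + H (x, t)) :
    PerForm fun p => (β (H p)).compContinuousLinearMap (fderiv ℝ H p) := by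
  refine ⟨contDiff_iff_contDiffAt.2 fun p => contDiffAt_alt_comp (h.sm.comp hH).contDiffAt
    (hH.contDiffAt.fderiv_right (by simp)), fun p => extDeriv_pull β
      (h.sm.differentiable (by simp) _) hH.contDiffAt (h.cl _), fun a x t => ?_⟩
  obtain ⟨a', ha⟩ := hp a
  have h1 : fderiv ℝ H (cz a + x, t) = fderiv ℝ H (x, t) := by
    have h2 := fderiv_comp_add_left (𝕜 := ℝ) (f := H) (x := (x, t)) (cz a, 0)
    have h3 : (fun p => H ((cz a, 0) + p)) = fun p => (cz a', 0) + H p := funext fun p => by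
      rw [← ha p.1 p.2]; congr 1; ext <;> simp
    rw [h3, fderiv_const_add] at h2
    simpa using h2.symm
  have h4 : β ((cz a', 0) + H (x, t)) = β (H (x, t)) := by
    rw [← h.per a' (H (x, t)).1 (H (x, t)).2]; congr 1; ext <;> simp
  simp only [h1, ha, h4]

lemma fderiv_slice {d : ℕ} {E : Type} [NormedAddCommGroup E] [NormedSpace ℝ E]
    {H : (Fin d → ℝ) × ℝ → E} (hH : ContDiff ℝ ∞ H) (x : Fin d → ℝ) (t : ℝ) {A : (Fin d → ℝ) →L[ℝ] E}
    (hA : HasFDerivAt (fun x => H (x, t)) A x) (v : Fin d → ℝ) : fderiv ℝ H (x, t) (v, 0) = A v := by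
  rw [hA.unique ((hH.differentiable (by simp) _).hasFDerivAt.comp x (hasFDerivAt_prodMk_left x t))]
  rfl

theorem PerForm.pull {β : GR → GR [⋀^Fin 4]→L[ℝ] ℝ} (h : PerForm β) {κ : Euc 4 → Fin 4 → ℝ}
    (hκ : Eqv4 κ) :
    ∫ u in cube, β (tor κ u) (fun j => fderiv ℝ (tor κ) u (EuclideanSpace.single j 1)) =
      avg β 0 fun j => Pi.single (ix4 j) 1 := by
  have hc := h.sm.continuous
  rw [avg_apply hc, integral_cube]
  refine integral_per_avg (f := fun x => β (x, 0) fun j => (Pi.single (ix4 j) 1, 0)) (by fun_prop)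
    (fun a x => by rw [h.per]) ioL.continuous fun y => ?_
  let L := (EuclideanSpace.equiv (Fin 4) ℝ).symm
  let H : (Fin 4 → ℝ) × ℝ → GR := fun p =>
    (ioL ((1 - p.2) • κ (L p.1) + p.2 • p.1) + p.2 • y, 0)
  have h1 := hκ.1
  have hH : ContDiff ℝ ∞ H := by fun_prop
  have h2 := h.comp hH fun a => ⟨io a, fun x t => by
    have : L (cz a + x) = L x + lat a := by rw [add_comm, map_add]; rfl
    simp only [H, this, hκ.2, Prod.mk_add_mk, add_zero, ← ioL_cz, ← add_assoc, ← map_add]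
    congr 3
    module⟩
  have h3 := congrArg (fun C => C fun j => Pi.single j 1) (h2.avg_const 1 0)
  simp only [avg_apply h2.sm.continuous, ContinuousAlternatingMap.compContinuousLinearMap_apply,
    comp_def] at h3
  have h4 : ∀ x, H (x, 1) = (ioL x + y, 0) := fun x => by simp [H]
  have h5 : ∀ x, H (x, 0) = tor κ (L x) := fun x => by simp [H, tor, ioL_apply]
  have h6 : ∀ x v, fderiv ℝ H (x, 1) (v, 0) = (ioL v, 0) := fun x v =>
    fderiv_slice hH x 1 (A := ioL.prod 0) (by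
      simp only [h4]
      exact (ioL.hasFDerivAt.add_const y).prodMk (hasFDerivAt_const _ _)) v
  have h7 : ∀ x v, fderiv ℝ H (x, 0) (v, 0) = fderiv ℝ (tor κ) (L x) (L v) := fun x v =>
    fderiv_slice hH x 0 (A := (fderiv ℝ (tor κ) (L x)).comp (L : (Fin 4 → ℝ) →L[ℝ] Euc 4)) (by
      simp only [h5]
      exact (hκ.contDiff_tor.differentiable (by simp) _).hasFDerivAt.comp x L.hasFDerivAt) v
  simp only [h4, h5, h6, h7, ioL_single] at h3
  exact h3

/-- Invariance under one non-trivial element gives invariance under the one parameter group. -/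
theorem inv_real {k : ℕ} {C : (Fin 8 → ℝ) [⋀^Fin k]→L[ℝ] ℝ} {n : ℤ} (hn : n ≠ 0)
    (h : ∀ v, C (fun j => pas (n : ℝ) *ᵥ v j) = C v) (t : ℝ) (v : Fin k → Fin 8 → ℝ) :
    C (fun j => pas t *ᵥ v j) = C v := by
  obtain ⟨p, hp⟩ : ∃ p : Polynomial ℝ, ∀ t, p.eval t = C (fun j => pas t *ᵥ v j) := by
    refine ⟨∑ I : Fin k → Fin 8, (∏ j, (pas Polynomial.X *ᵥ fun i => Polynomial.C (v j i)) (I j)) *
      Polynomial.C (C fun j => Pi.single (I j) 1), fun t => ?_⟩
    have h1 := C.toMultilinearMap.map_sum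
      fun j i => (pas t *ᵥ v j) i • (Pi.single i 1 : Fin 8 → ℝ)
    simp only [← pi_eq_sum_univ', MultilinearMap.map_smul_univ] at h1
    refine Eq.trans ?_ h1.symm
    simp only [Polynomial.eval_finsetSum, Polynomial.eval_prod, pas, Matrix.mulVec, dotProduct,
      Polynomial.eval_mul, Polynomial.eval_C, Polynomial.eval_pow, Polynomial.eval_X,
      Polynomial.eval_natCast, smul_eq_mul]
    rfl
  have h2 : ∀ z : ℕ, p.eval ((z : ℝ) * n) = C v := fun z => by
    rw [hp]
    induction z with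
    | zero => simp [pas_zero_mulVec]
    | succ z ih =>
      rw [← ih, ← h fun j => pas ((z : ℝ) * n) *ᵥ v j]
      simp only [pas_pas, Nat.cast_succ, add_mul, one_mul, add_comm]
  have h3 : p = Polynomial.C (C v) := Polynomial.eq_of_infinite_eval_eq _ _
    (infinite_of_injective_forall_mem (f := fun z : ℕ => (z : ℝ) * n)
      (fun a b e => by exact_mod_cast mul_right_cancel₀ (Int.cast_ne_zero.2 hn) e)
      fun z => by simpa using h2 z)
  rw [← hp, h3, Polynomial.eval_C]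

end Pool.Agent.Lib.MP_029589_gt
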