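import Pool.Agent.Lib.MP_029589_gt.Et
import Pool.Agent.Lib.MP_029589_gt.AF0

/-! Smooth families of alternating maps, integrals of periodic functions, local sheets. -/

set_option autoImplicit false

open scoped Manifold ContDiff Topology Matrix
open Set Filter Function Topology MeasureTheory

namespace Pool.Agent.Lib.MP_029589_gt

section Alt

variable {k : ℕ} {P Q X : Type} [NormedAddCommGroup P] [NormedSpace ℝ P] [NormedAddCommGroup Q]
  [NormedSpace ℝ Q] [NormedAddCommGroup X] [NormedSpace ℝ X] {n : WithTop ℕ∞} {x : X}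

lemma contDiffAt_alt_apply {σ : X → Q [⋀^Fin k]→L[ℝ] ℝ} {w : X → Fin k → Q}
    (hσ : ContDiffAt ℝ n σ x) (hw : ContDiffAt ℝ n w x) : ContDiffAt ℝ n (fun y => σ y (w y)) x :=
  ((ContinuousAlternatingMap.toContinuousMultilinearMapCLM ℝ :
    (Q [⋀^Fin k]→L[ℝ] ℝ) →L[ℝ] _).analyticAt_uncurry_of_multilinear.contDiffAt).comp x
      (hσ.prodMk hw)

lemma contDiffAt_alt [FiniteDimensional ℝ P] {β : X → P [⋀^Fin k]→L[ℝ] ℝ}
    (h : ∀ v, ContDiffAt ℝ n (fun y => β y v) x) : ContDiffAt ℝ n β x := by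
  let b := Module.finBasis ℝ P
  let ev : (P [⋀^Fin k]→L[ℝ] ℝ) →ₗ[ℝ] ((Fin k → Fin (Module.finrank ℝ P)) → ℝ) :=
    LinearMap.pi fun I => (ContinuousAlternatingMap.apply ℝ P ℝ (fun j => b (I j))).toLinearMap
  have hi : LinearMap.ker ev = ⊥ := by
    refine LinearMap.ker_eq_bot'.2 fun C hC => ?_
    refine ContinuousAlternatingMap.toAlternatingMap_injective
      (AlternatingMap.coe_multilinearMap_injective (Module.Basis.ext_multilinear (fun _ => b) ?_))
    exact fun I => congrFun hC I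
  obtain ⟨L, hL⟩ := ev.exists_leftInverse_of_injective hi
  have e : β = LinearMap.toContinuousLinearMap L ∘ fun y I => β y fun j => b (I j) :=
    funext fun y => (LinearMap.congr_fun hL (β y)).symm
  rw [e]
  exact (LinearMap.toContinuousLinearMap L).contDiff.contDiffAt.comp x
    (contDiffAt_pi.2 fun I => h _)

lemma contDiffAt_alt_comp [FiniteDimensional ℝ P] {σ : X → Q [⋀^Fin k]→L[ℝ] ℝ}
    {A : X → P →L[ℝ] Q} (hσ : ContDiffAt ℝ n σ x) (hA : ContDiffAt ℝ n A x) :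
    ContDiffAt ℝ n (fun y => (σ y).compContinuousLinearMap (A y)) x :=
  contDiffAt_alt fun v => contDiffAt_alt_apply (w := fun y j => A y (v j)) hσ
    (contDiffAt_pi.2 fun _ => hA.clm_apply contDiffAt_const)

lemma alt_top (C : Euc k [⋀^Fin (k + 1)]→L[ℝ] ℝ) : C = 0 := by
  ext v
  refine C.toAlternatingMap.map_linearDependent v fun h => ?_
  have := h.fintype_card_le_finrank
  simp at this

lemma extDeriv_finset_sum {ι : Type} (s : Finset ι) {σ : ι → P → P [⋀^Fin k]→L[ℝ] ℝ} {g : P}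
    (h : ∀ i ∈ s, DifferentiableAt ℝ (σ i) g) :
    extDeriv (fun y => ∑ i ∈ s, σ i y) g = ∑ i ∈ s, extDeriv (σ i) g := by
  simp only [extDeriv]
  rw [fderiv_fun_sum h]
  exact map_sum (ContinuousAlternatingMap.alternatizeUncurryFinCLM ℝ P ℝ) _ _

lemma extDeriv_pull (σ : Q → Q [⋀^Fin k]→L[ℝ] ℝ) {f : P → Q} {g : P}
    (hσ : DifferentiableAt ℝ σ (f g)) (hf : ContDiffAt ℝ ∞ f g) (h0 : extDeriv σ (f g) = 0) :
    extDeriv (fun g => (σ (f g)).compContinuousLinearMap (fderiv ℝ f g)) g = 0 := by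
  rw [extDeriv_pullback hσ (hf.of_le (m := 2) ENat.LEInfty.out) (by simp), h0]
  ext v
  rfl

end Alt

section Per

variable {d d' : ℕ} {E : Type} [NormedAddCommGroup E] [NormedSpace ℝ E]

lemma ico_ae_icc : (univ.pi fun _ : Fin d => Ico (0 : ℝ) 1) =ᵐ[volume] Icc (0 : Fin d → ℝ) 1 :=
  Measure.univ_pi_Ico_ae_eq_Icc

lemma vol_icc : volume.real (Icc (0 : Fin d → ℝ) 1) = 1 := by
  simp [Measure.real, Real.volume_Icc_pi]

lemma integral_per_add {f : (Fin d → ℝ) → E} (hp : ∀ (a : Fin d → ℤ) x, f (cz a + x) = f x)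
    (c : Fin d → ℝ) :
    ∫ x in Icc (0 : Fin d → ℝ) 1, f (c + x) = ∫ x in Icc (0 : Fin d → ℝ) 1, f x := by
  have h := ZSpan.isAddFundamentalDomain' (Pi.basisFun ℝ (Fin d)) volume
  have : Countable (Submodule.span ℤ (range (Pi.basisFun ℝ (Fin d)))).toAddSubgroup :=
    inferInstanceAs (Countable (Submodule.span ℤ (range (Pi.basisFun ℝ (Fin d)))))
  have h2 := h.setIntegral_eq (h.vadd_of_comm c) (f := f) fun g x => by
    have h3 := (Module.Basis.mem_span_iff_repr_mem ℤ (Pi.basisFun ℝ (Fin d)) g.1).1 g.2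
    choose a ha using h3
    have : g.1 = cz a := funext fun i => (ha i).symm
    change f (g.1 + x) = f x
    rw [this, hp]
  rw [ZSpan.fundamentalDomain_pi_basisFun] at h2
  rw [← setIntegral_congr_set ico_ae_icc, ← setIntegral_congr_set ico_ae_icc, h2]
  exact ((measurePreserving_add_left volume c).setIntegral_image_emb
    (measurableEmbedding_addLeft c) f _).symm

lemma integral_icc_swap {f : (Fin d → ℝ) → (Fin d' → ℝ) → E} (hf : Continuous (uncurry f)) :
    ∫ x in Icc (0 : Fin d → ℝ) 1, ∫ y in Icc (0 : Fin d' → ℝ) 1, f x y =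
      ∫ y in Icc (0 : Fin d' → ℝ) 1, ∫ x in Icc (0 : Fin d → ℝ) 1, f x y := by
  refine integral_integral_swap ?_
  rw [Measure.prod_restrict]
  exact hf.continuousOn.integrableOn_compact (isCompact_Icc.prod isCompact_Icc)

lemma integral_per_avg {f : (Fin d → ℝ) → E} (hf : Continuous f)
    (hp : ∀ (a : Fin d → ℤ) x, f (cz a + x) = f x) {ψ : (Fin d' → ℝ) → Fin d → ℝ}
    (hψ : Continuous ψ) {I : E} (h : ∀ y, ∫ u in Icc (0 : Fin d' → ℝ) 1, f (ψ u + y) = I) :
    I = ∫ x in Icc (0 : Fin d → ℝ) 1, f x := by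
  by_cases hE : CompleteSpace E
  swap
  · rw [← h 0]; simp [integral, hE]
  have h1 := integral_icc_swap (f := fun u y => f (ψ u + y)) (by fun_prop)
  simp only [h, integral_per_add hp, setIntegral_const, vol_icc, one_smul] at h1
  exact h1.symm

lemma integral_per_lin {f : (Fin d → ℝ) → E} (hf : Continuous f)
    (hp : ∀ (a : Fin d → ℤ) x, f (cz a + x) = f x) (B : (Fin d' → ℝ) →L[ℝ] Fin d → ℝ)
    (hB : Surjective B) (hB' : ∀ a, ∃ a', B (cz a) = cz a') (c : Fin d → ℝ) :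
    ∫ x in Icc (0 : Fin d' → ℝ) 1, f (c + B x) = ∫ x in Icc (0 : Fin d → ℝ) 1, f x := by
  refine integral_per_avg hf hp (ψ := fun x => c + B x) (by fun_prop) fun y => ?_
  obtain ⟨z, rfl⟩ := hB y
  rw [← integral_per_add (f := fun x => f (c + B x)) (fun a x => ?_) z]
  · simp only [map_add, add_assoc, add_comm (B z)]
  · obtain ⟨a', ha⟩ := hB' a
    rw [map_add, ha, add_left_comm, hp]

lemma integral_cube (φ : Euc 4 → E) :
    ∫ u in cube, φ u = ∫ x in Icc (0 : Fin 4 → ℝ) 1, φ (WithLp.toLp 2 x) := by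
  rw [← setIntegral_congr_set ico_ae_icc, ← (PiLp.volume_preserving_toLp (Fin 4)).setIntegral_preimage_emb
    (MeasurableEquiv.toLp 2 _).measurableEmbedding]
  congr 2
  ext x
  simp [cube]

lemma hasFDerivAt_integral_icc {P : Type} [NormedAddCommGroup P] [NormedSpace ℝ P]
    [FiniteDimensional ℝ P] {f : P → E} (hf : ContDiff ℝ 1 f) {ψ : (Fin d → ℝ) → P}
    (hψ : Continuous ψ) (g : P) :
    HasFDerivAt (fun h => ∫ x in Icc (0 : Fin d → ℝ) 1, f (h + ψ x))
      (∫ x in Icc (0 : Fin d → ℝ) 1, fderiv ℝ f (g + ψ x)) g := by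
  have h1 := hf.continuous
  have h2 := hf.continuous_fderiv one_ne_zero
  obtain ⟨C, hC⟩ := ((isCompact_closedBall g 1).prod
    (isCompact_Icc (a := (0 : Fin d → ℝ)) (b := 1))).exists_bound_of_continuousOn
    (f := fun p => fderiv ℝ f (p.1 + ψ p.2)) (by fun_prop)
  refine hasFDerivAt_integral_of_dominated_of_fderiv_le (F' := fun h x => fderiv ℝ f (h + ψ x))
    (bound := fun _ => C) (Metric.closedBall_mem_nhds g one_pos)
    (Eventually.of_forall fun h => Continuous.aestronglyMeasurable (by fun_prop))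
    (ContinuousOn.integrableOn_compact isCompact_Icc (by fun_prop))
    (Continuous.aestronglyMeasurable (by fun_prop))
    ((ae_restrict_mem measurableSet_Icc).mono fun x hx h hh => hC (h, x) ⟨hh, hx⟩)
    (ContinuousOn.integrableOn_compact isCompact_Icc continuousOn_const)
    (Eventually.of_forall fun x h _ => ?_)
  exact (hasFDerivAt_comp_add_right (ψ x)).2 (hf.differentiable one_ne_zero _).hasFDerivAt

lemma clm_fderiv_integral_icc {P G : Type} [NormedAddCommGroup P] [NormedSpace ℝ P]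
    [FiniteDimensional ℝ P] [NormedAddCommGroup G] [NormedSpace ℝ G] [CompleteSpace E]
    [CompleteSpace G] (L : (P →L[ℝ] E) →L[ℝ] G) {f : P → E} (hf : ContDiff ℝ 1 f)
    {ψ : (Fin d → ℝ) → P} (hψ : Continuous ψ) (g : P) :
    L (fderiv ℝ (fun h => ∫ x in Icc (0 : Fin d → ℝ) 1, f (h + ψ x)) g) =
      ∫ x in Icc (0 : Fin d → ℝ) 1, L (fderiv ℝ f (g + ψ x)) := by
  have h2 := hf.continuous_fderiv one_ne_zero
  rw [(hasFDerivAt_integral_icc hf hψ g).fderiv]
  exact (L.integral_comp_comm (ContinuousOn.integrableOn_compact isCompact_Icc (by fun_prop))).symm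

end Per

section Sheets

variable {k : ℕ} {P B : Type} [NormedAddCommGroup P] [NormedSpace ℝ P] [TopologicalSpace B]
  {ϖ : P → B} (D : Et k ϖ)

/-- The local section through `e`. -/
noncomputable def Et.sec (e : D.F) (g : P) : D.F := D.loc.localInverseAt e (ϖ g)

/-- The points over `g` with values in the unit ball. -/
def Et.fib (g : P) : Set D.F := {e | ϖ g = D.π e ∧ ‖D.f e‖ ≤ 1}

lemma Et.df_eq (e : D.F) (g : P) : D.df e g = fderiv ℝ (D.f ∘ D.sec e) g := rfl

lemma Et.sm' {e : D.F} {g : P} (h : ϖ g = D.π e) : ContDiffAt ℝ ∞ (D.f ∘ D.sec e) g := D.sm e g h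

lemma Et.sec_self {e : D.F} {g : P} (h : ϖ g = D.π e) : D.sec e g = e := by
  rw [Et.sec, h, D.loc.localInverseAt_apply_self]

lemma Et.sec_of_mem {e e' : D.F} {g : P} (h : ϖ g = D.π e')
    (h' : e' ∈ (D.loc.localInverseAt e).target) : D.sec e g = e' := by
  have := (D.loc.localInverseAt e).right_inv h'
  rwa [IsLocalHomeomorph.localInverseAt_symm, ← h] at this

lemma Et.fib_finite (g : P) : (D.fib g).Finite := by
  have h : IsCompact (D.fib g) := by
    have := (D.prop {g} isCompact_singleton).image continuous_snd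
    refine (congrArg IsCompact (Set.ext fun e => ?_)).mp this
    refine ⟨?_, fun h => ⟨(g, e), ⟨rfl, h⟩, rfl⟩⟩
    rintro ⟨⟨_, e⟩, ⟨rfl, h⟩, rfl⟩
    exact h
  obtain ⟨t, h1, h2⟩ := h.elim_nhds_subcover (fun e => (D.loc.localInverseAt e).target)
    fun e _ => (D.loc.localInverseAt e).open_target.mem_nhds D.loc.self_mem_localInverseAt_target
  refine t.finite_toSet.subset fun e he => ?_
  obtain ⟨e', h3, h4⟩ := mem_iUnion₂.1 (h2 he)
  exact ((D.sec_self (h1 e' h3).1).symm.trans (D.sec_of_mem he.1 h4)) ▸ h3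

variable (hϖ : Continuous ϖ)
include hϖ

lemma Et.sec_cont {e : D.F} {g : P} (h : ϖ g ∈ (D.loc.localInverseAt e).source) :
    ContinuousAt (D.sec e) g :=
  ((D.loc.localInverseAt e).continuousAt h).comp hϖ.continuousAt

lemma Et.sec_ev {e : D.F} {g : P} (h : ϖ g ∈ (D.loc.localInverseAt e).source) :
    ∀ᶠ w in 𝓝 g, ϖ w ∈ (D.loc.localInverseAt e).source :=
  hϖ.continuousAt.eventually ((D.loc.localInverseAt e).open_source.mem_nhds h)

lemma Et.sec_sec {e : D.F} {g : P} (h : ϖ g ∈ (D.loc.localInverseAt e).source) :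
    D.f ∘ D.sec e =ᶠ[𝓝 g] D.f ∘ D.sec (D.sec e g) :=
  D.lift_eq (m := id) (D.sec_cont hϖ h)
    ((D.sec_ev hϖ h).mono fun _ hw => D.loc.apply_localInverseAt_of_mem hw)

/-- Near a point, finitely many disjoint sheets contain all points with small values. -/
lemma Et.sheets [FiniteDimensional ℝ P] (g₀ : P) : ∀ᶠ g in 𝓝 g₀,
    (∀ e ∈ D.fib g₀, ϖ g = D.π (D.sec e g) ∧ ContDiffAt ℝ ∞ (D.f ∘ D.sec e) g ∧
      D.df (D.sec e g) g = fderiv ℝ (D.f ∘ D.sec e) g) ∧
    InjOn (fun e => D.sec e g) (D.fib g₀) ∧ D.fib g ⊆ (fun e => D.sec e g) '' D.fib g₀ := by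
  have hf := D.fib_finite g₀
  have h0 : ∀ e ∈ D.fib g₀, ϖ g₀ ∈ (D.loc.localInverseAt e).source := fun e he =>
    he.1 ▸ D.loc.apply_self_mem_localInverseAt_source
  refine Eventually.and ((eventually_all_finite hf).2 fun e he => ?_) (Eventually.and ?_ ?_)
  · filter_upwards [D.sec_ev hϖ (h0 e he)] with g hg
    have h1 : ϖ g = D.π (D.sec e g) := (D.loc.apply_localInverseAt_of_mem hg).symm
    exact ⟨h1, (D.sm' h1).congr_of_eventuallyEq (D.sec_sec hϖ hg),
      (D.sec_sec hϖ hg).fderiv_eq.symm⟩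
  · refine (eventually_all_finite hf).2 fun e he => ?_
    refine (eventually_all_finite hf).2 fun e' he' => ?_
    by_cases h : e = e'
    · exact Eventually.of_forall fun _ _ => h
    · have h1 : D.sec e g₀ ≠ D.sec e' g₀ := by rwa [D.sec_self he.1, D.sec_self he'.1]
      exact (((D.sec_cont hϖ (h0 e he)).prodMk (D.sec_cont hϖ (h0 e' he'))).eventually
        (isClosed_diagonal.isOpen_compl.mem_nhds h1)).mono fun g hg h2 => absurd h2 hg
  · have h1 : IsOpen (⋃ e ∈ D.fib g₀, (D.loc.localInverseAt e).target) :=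
      isOpen_biUnion fun e _ => (D.loc.localInverseAt e).open_target
    have h2 := (((D.prop _ (isCompact_closedBall g₀ 1)).diff
      (h1.preimage continuous_snd)).image continuous_fst).isClosed
    have h9 := h2.isOpen_compl.mem_nhds (x := g₀) (by
      rintro ⟨⟨_, e⟩, ⟨⟨-, he⟩, h6⟩, rfl⟩
      exact h6 (mem_iUnion₂.2 ⟨e, he, D.loc.self_mem_localInverseAt_target⟩))
    filter_upwards [h9, Metric.closedBall_mem_nhds g₀ one_pos] with g h3 h4 e he
    by_contra h5
    refine h3 ⟨(g, e), ⟨⟨h4, he⟩, fun h6 => h5 ?_⟩, rfl⟩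
    obtain ⟨e', h7, h8⟩ := mem_iUnion₂.1 h6
    exact ⟨e', h7, D.sec_of_mem he.1 h8⟩

lemma Et.df_bound [FiniteDimensional ℝ P] {K : Set P} (hK : IsCompact K) :
    ∃ C, 0 ≤ C ∧ ∀ g ∈ K, ∀ e ∈ D.fib g, ‖D.df e g‖ ≤ C := by
  refine hK.induction_on (p := fun K => ∃ C, 0 ≤ C ∧ ∀ g ∈ K, ∀ e ∈ D.fib g, ‖D.df e g‖ ≤ C)
    ⟨0, le_rfl, by simp⟩ (fun s t h ⟨C, h0, hC⟩ => ⟨C, h0, fun g hg => hC g (h hg)⟩)
    (fun s t ⟨C, h0, hC⟩ ⟨C', _, hC'⟩ => ⟨max C C', le_max_of_le_left h0, fun g hg e he =>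
      hg.elim (fun h => le_max_of_le_left (hC g h e he))
        fun h => le_max_of_le_right (hC' g h e he)⟩) fun g₀ _ => ?_
  have hf := D.fib_finite g₀
  obtain ⟨C, hC⟩ := (hf.image fun e => ‖D.df e g₀‖).bddAbove
  have h1 : ∀ᶠ g in 𝓝 g₀, ∀ e ∈ D.fib g₀, ‖fderiv ℝ (D.f ∘ D.sec e) g‖ < C + 1 :=
    (eventually_all_finite hf).2 fun e he =>
      ((D.sm' he.1).continuousAt_fderiv (by simp)).norm.eventually_lt continuousAt_const
        (lt_of_le_of_lt (hC ⟨e, he, rfl⟩) (lt_add_one C))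
  refine ⟨_, mem_nhdsWithin_of_mem_nhds (h1.and (D.sheets hϖ g₀)), max (C + 1) 0,
    le_max_right _ _, fun g hg e he => ?_⟩
  obtain ⟨e', h2, rfl⟩ := hg.2.2.2 he
  exact le_max_of_le_left (((hg.2.1 e' h2).2.2.symm ▸ hg.1 e' h2).le)

end Sheets

end Pool.Agent.Lib.MP_029589_gt
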