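import Pool.Agent.Lib.MP_029589_gt.Nil

/-! Smoothing of invariant functions on the lattice, and the dichotomy for subgroups. -/

set_option autoImplicit false

open scoped ContDiff Topology Convolution
open Set Filter Function MeasureTheory

namespace Pool.Agent.Lib.MP_029589_gt

variable {W : Type} [NormedAddCommGroup W] [NormedSpace ℝ W]

/-- The values of `F` lie in the convex hull of the nearby values of `a`. -/
def Conv (R : ℝ) (a : Gam → W) (F : NN → W) : Prop :=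
  ∀ x s, Convex ℝ s → IsClosed s → (∀ γ : Gam, ‖γ⁻¹ • x‖ ≤ R → a γ ∈ s) → F x ∈ s

lemma finite_move (R S : ℝ) : {γ : Gam | ∃ x : NN, ‖x‖ ≤ R ∧ ‖γ • x‖ ≤ S}.Finite :=
  (finite_disjoint_inter_image (Γ := Gam) (isCompact_closedBall (0 : NN) R)
    (isCompact_closedBall (0 : NN) S)).subset fun _ ⟨x, h1, h2⟩ =>
      ⟨_, ⟨x, mem_closedBall_zero_iff.2 h1, rfl⟩, mem_closedBall_zero_iff.2 h2⟩

lemma contDiff_gsum {f : Gam → NN → W} (hf : ∀ γ, ContDiff ℝ ∞ (f γ))
    (h : ∀ γ x, f γ x ≠ 0 → ‖γ⁻¹ • x‖ ≤ 2) : ContDiff ℝ ∞ fun x => ∑ᶠ γ, f γ x := by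
  refine contMDiff_iff_contDiff.1 (contMDiff_finsum (fun γ => (hf γ).contMDiff) fun x => ?_)
  refine ⟨Metric.closedBall 0 (‖x‖ + 1), Metric.closedBall_mem_nhds_of_mem (by simp),
    (finite_move 2 (‖x‖ + 1)).subset ?_⟩
  rintro γ ⟨y, h1, h2⟩
  exact ⟨γ⁻¹ • y, h γ y h1, by simpa using h2⟩

lemma exists_weights : ∃ φ : NN → ℝ, ContDiff ℝ ∞ φ ∧ (∀ x, 0 ≤ φ x) ∧ (∀ x, φ x ≠ 0 → ‖x‖ ≤ 2) ∧
    ∀ x, ∑ᶠ γ : Gam, φ (γ⁻¹ • x) = 1 := by
  let ψ : ContDiffBump (0 : NN) := ⟨1, 2, one_pos, one_lt_two⟩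
  have h1 : ∀ x, ψ x ≠ 0 → ‖x‖ ≤ 2 := fun x hx => by
    have : x ∈ Metric.ball (0 : NN) 2 := ψ.support_eq ▸ hx
    exact (mem_ball_zero_iff.1 this).le
  let Φ : NN → ℝ := fun x => ∑ᶠ γ : Gam, ψ (γ⁻¹ • x)
  have h2 : ContDiff ℝ ∞ Φ := contDiff_gsum (f := fun γ x => ψ (γ⁻¹ • x))
    (fun γ => ψ.contDiff.comp (contDiff_smul _)) fun γ x => h1 _
  have h3 : ∀ x, HasFiniteSupport fun γ : Gam => ψ (γ⁻¹ • x) := fun x =>
    (finite_move 2 ‖x‖).subset fun γ h => ⟨_, h1 _ h, by simp⟩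
  have h4 : ∀ x, 0 < Φ x := fun x => by
    obtain ⟨a, ha⟩ := cocompact x
    refine finsum_pos (fun _ => ψ.nonneg) ⟨a⁻¹, ?_⟩ (h3 x)
    rw [inv_inv, ψ.one_of_mem_closedBall (mem_closedBall_zero_iff.2 ha)]
    exact one_pos
  have h5 : ∀ (a : Gam) x, Φ (a • x) = Φ x := fun a x => by
    simp only [Φ]
    rw [← finsum_comp_equiv (Equiv.mulLeft a)]
    simp [mul_smul]
  refine ⟨fun x => ψ x / Φ x, ψ.contDiff.div h2 fun x => (h4 x).ne',
    fun x => div_nonneg ψ.nonneg (h4 x).le, fun x hx => h1 x fun h => hx (by simp [h]), fun x => ?_⟩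
  simp only [h5, div_eq_mul_inv]
  rw [← finsum_mul' _ _ (h3 x)]
  exact mul_inv_cancel₀ (h4 x).ne'

lemma exists_disc (H : Subgroup Gam) (a : Gam → W) (ha : ∀ (h : H) γ, a (h * γ) = a γ) :
    ∃ F : NN → W, ContDiff ℝ ∞ F ∧ (∀ (h : H) x, F (h • x) = F x) ∧ Conv 2 a F := by
  obtain ⟨φ, h1, h2, h3, h4⟩ := exists_weights
  refine ⟨fun x => ∑ᶠ γ : Gam, φ (γ⁻¹ • x) • a γ, contDiff_gsum (f := fun γ x => φ (γ⁻¹ • x) • a γ)
    (fun γ => (h1.comp (contDiff_smul _)).smul contDiff_const)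
    fun γ x h => h3 _ (left_ne_zero_of_smul h), fun h x => ?_,
    fun x s hs _ h => hs.finsum_mem (fun _ => h2 _) (h4 x) fun γ hγ => h γ (h3 _ hγ)⟩
  simp only
  rw [← finsum_comp_equiv (Equiv.mulLeft h.1)]
  simp [mul_smul, ha, Subgroup.smul_def]

lemma smul_add_central (γ : Gam) (x : NN) (w : Fin 3 → ℝ) :
    γ • (x + (0, 0, w)) = γ • x + (0, 0, w) := by
  have : Bl γ.val (0, 0, w) = 0 := by
    ext k <;> simp [Bl]
    fin_cases k <;> simp
  simp only [Gam.smul_def, nmul, Lam_apply, Bl_add_right, this]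
  abel

lemma exists_avg [CompleteSpace W] {H : Subgroup Gam} {a : Gam → W} {F : NN → W}
    (h1 : ContDiff ℝ ∞ F) (h2 : ∀ (h : H) x, F (h • x) = F x) (h3 : Conv 2 a F) {c : H}
    {w : Fin 3 → ℝ} (hc : c.1.val = (0, 0, w)) :
    ∃ F' : NN → W, ContDiff ℝ ∞ F' ∧ (∀ (h : H) x, F' (h • x) = F' x) ∧ Conv (2 + ‖w‖) a F' ∧
      ∀ x, fderiv ℝ F' x (0, 0, w) = 0 := by
  let G : NN → ℝ → W := fun x t => F (x + (0, 0, t • w))
  have hG : ContDiff ℝ ∞ ↿G := h1.comp (by fun_prop)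
  have hs : ContDiff ℝ ∞ fun x => ∫ t in (0 : ℝ)..1, G x t := by
    let χ : ContDiffBump (0 : ℝ) := ⟨1, 2, one_pos, one_lt_two⟩
    have := contDiffOn_convolution_right_with_param_comp (μ := volume) (n := ⊤)
      (ContinuousLinearMap.lsmul ℝ ℝ) (s := univ) (v := fun _ : NN => (0 : ℝ)) contDiffOn_const
      (f := indicator (Ioc (0 : ℝ) 1) fun _ => (1 : ℝ)) (g := fun x t => χ t • G x (-t))
      isOpen_univ (isCompact_closedBall 0 2)
      (fun p t _ ht => by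
        rw [χ.zero_of_le_dist (not_le.1 ht).le, zero_smul])
      ((locallyIntegrable_const 1).indicator measurableSet_Ioc)
      ((χ.contDiff.comp contDiff_snd).smul
        (hG.comp (contDiff_fst.prodMk contDiff_snd.neg))).contDiffOn
    rw [contDiffOn_univ] at this
    convert this using 2 with x
    rw [intervalIntegral.integral_of_le zero_le_one, ← integral_indicator measurableSet_Ioc,
      convolution_def]
    congr 1
    funext t
    by_cases ht : t ∈ Ioc (0 : ℝ) 1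
    · have := χ.one_of_mem_closedBall (x := -t) (by simpa [abs_of_pos ht.1] using ht.2)
      simp [ht, this]
    · simp [ht]
  have hp : ∀ x, Periodic (G x) 1 := fun x t => by
    simp only [G]
    have e : Bl (0, 0, w) (x + (0, 0, t • w)) = 0 := by
      ext k <;> simp [Bl]
      fin_cases k <;> simp
    rw [← h2 c (x + (0, 0, t • w)), Subgroup.smul_def, Gam.smul_def, hc, nmul, Lam_apply, e]
    congr 1
    ext k <;> simp
    ring
  refine ⟨_, hs, fun h x => ?_, fun x s hs1 hs2 h => ?_, fun x => ?_⟩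
  · simp only [G, Subgroup.smul_def, ← smul_add_central]
    simp only [← Subgroup.smul_def, h2]
  · have : IsProbabilityMeasure (volume.restrict (Ioc (0 : ℝ) 1)) := ⟨by simp⟩
    simp only
    rw [intervalIntegral.integral_of_le zero_le_one]
    refine hs1.integral_mem hs2 ((ae_restrict_iff' measurableSet_Ioc).2
      (Eventually.of_forall fun t ht => h3 _ s hs1 hs2 fun γ hγ => h γ ?_))
      ((hG.continuous.comp (Continuous.prodMk_right x)).integrableOn_Ioc)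
    rw [smul_add_central] at hγ
    have h4 : ‖((0, 0, t • w) : NN)‖ ≤ ‖w‖ := by
      simp only [Prod.norm_def, norm_zero, norm_smul, Real.norm_eq_abs, abs_of_pos ht.1, max_le_iff,
        norm_nonneg, true_and]
      exact mul_le_of_le_one_left (norm_nonneg _) ht.2
    have h5 := norm_sub_le (γ⁻¹ • x + (0, 0, t • w)) (0, 0, t • w)
    rw [add_sub_cancel_right] at h5
    linarith
  · have d1 : HasDerivAt (fun r : ℝ => x + r • ((0, 0, w) : NN)) (0, 0, w) 0 := by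
      simpa using ((hasDerivAt_id (0 : ℝ)).smul_const ((0, 0, w) : NN)).const_add x
    have d2 := (hs.differentiable (by simp) (x + (0 : ℝ) • ((0, 0, w) : NN))
      ).hasFDerivAt.comp_hasDerivAt 0 d1
    rw [zero_smul, add_zero] at d2
    refine d2.unique ((hasDerivAt_const (0 : ℝ) (∫ t in (0 : ℝ)..1, G x t)).congr_of_eventuallyEq
      (Eventually.of_forall fun r => ?_))
    have e : ∀ t, G (x + r • ((0, 0, w) : NN)) t = G x (t + r) := fun t => by
      simp only [G]; congr 1; ext <;> simp; ring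
    simp only [comp, e, intervalIntegral.integral_comp_add_right]
    simpa [add_comm] using (hp x).intervalIntegral_add_eq r 0

/-- The line bundle is trivial on the quotient. -/
def CaseA (H : Subgroup Gam) : Prop := ∃ ρ : NN → ℂ, ContDiff ℝ ∞ ρ ∧ (∀ p, ‖ρ p‖ = 1) ∧
  ∀ (h : H) p, ρ (h • p) * ss (h • p) = ρ p * ss p

lemma caseA_of {H : Subgroup Gam} {l : ℝ × ℝ → ℝ} (hl : ContDiff ℝ ∞ l)
    (h : ∀ (h : H) (x : ℝ × ℝ), ∃ k : ℤ, l (h.1.val.1 + x) - h.1.val.1.2 * x.1 = l x + k) :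
    CaseA H := by
  refine ⟨fun p => ee (l p.1), contDiff_ee.comp (hl.comp contDiff_fst), fun _ => norm_ee _,
    fun a p => ?_⟩
  obtain ⟨k, hk⟩ := h a p.1
  simp only [Subgroup.smul_def, ss_smul, ← mul_assoc, ← ee_add]
  rw [Gam.smul_def, nmul_x, ← sub_eq_add_neg, hk, ee_add_int]

theorem dichotomy (H : Subgroup Gam) :
    CaseA H ∨ ∃ (c : H) (w : Fin 3 → ℝ), w ≠ 0 ∧ c.1.val = (0, 0, w) := by
  refine or_iff_not_imp_right.2 fun hc => ?_
  push Not at hc
  have h1 : ∀ a b : H, a.1.val.1.1 * b.1.val.1.2 = a.1.val.1.2 * b.1.val.1.1 := fun a b => by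
    have e : (a * b * (b * a)⁻¹).1.val = (0, 0, (Bl a.1.val b.1.val - Bl b.1.val a.1.val).2.2) := by
      have : nmul (Bl a.1.val b.1.val - Bl b.1.val a.1.val) (nmul b.1.val a.1.val) =
          nmul a.1.val b.1.val := by
        simp only [nmul, Lam_apply, sub_eq_add_neg, Bl_add_left, Bl_neg_left, Bl_Bl_left]
        abel
      exact (val_eq this).symm.trans (Prod.ext (sub_self _) (Prod.ext (sub_self _) rfl))
    have h2 : (Bl a.1.val b.1.val - Bl b.1.val a.1.val).2.2 = 0 :=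
      by_contra fun h => hc _ _ h e
    have h3 := congrFun h2 0
    have h4 := congrFun h2 1
    have h5 := congrFun h2 2
    simp [Bl] at h3 h4 h5
    refine sub_eq_zero.1 (pow_eq_zero_iff two_ne_zero |>.1 ?_)
    linear_combination (a.1.val.1.1 * b.1.val.1.2 - a.1.val.1.2 * b.1.val.1.1) * h3 -
      (a.1.val.1.2 * b.1.val.2.1 (0, 1) - a.1.val.2.1 (0, 1) * b.1.val.1.2) * h4 +
      (a.1.val.1.2 * b.1.val.2.1 (0, 0) - a.1.val.2.1 (0, 0) * b.1.val.1.2) * h5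
  let T : AddSubgroup ℤ :=
    { carrier := {k | ∃ a : H, a.1.val.1.1 = k}
      zero_mem' := ⟨1, by simp [Gam.one_val]⟩
      add_mem' := by
        rintro _ _ ⟨a, ha⟩ ⟨b, hb⟩
        exact ⟨a * b, by simp [Gam.mul_val, ha, hb]⟩
      neg_mem' := by
        rintro _ ⟨a, ha⟩
        exact ⟨a⁻¹, by simp [Gam.inv_val, ninv, Bl, ha]⟩ }
  obtain ⟨d, hd⟩ := Int.subgroup_cyclic T
  have h2 : ∀ a : H, ∃ k : ℤ, a.1.val.1.1 = k * d := fun a => by
    obtain ⟨k, hk⟩ := mem_ZZ.1 a.1.int.x1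
    have : k ∈ T := ⟨a, hk.symm⟩
    rw [hd, AddSubgroup.mem_closure_singleton] at this
    obtain ⟨n, rfl⟩ := this
    exact ⟨n, by simp [← hk]⟩
  by_cases h0 : d = 0
  · refine caseA_of (l := fun x => x.1 * x.2) (by fun_prop) fun a x => ⟨0, ?_⟩
    obtain ⟨k, hk⟩ := h2 a
    simp [hk, h0]
    ring
  · obtain ⟨p, hp⟩ : d ∈ T := hd ▸ AddSubgroup.mem_closure_singleton_self d
    obtain ⟨e, he⟩ := mem_ZZ.1 p.1.int.x2
    have h3 : (d : ℝ) ≠ 0 := Int.cast_ne_zero.2 h0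
    refine caseA_of (l := fun x => e / (2 * d) * x.1 ^ 2 - e / 2 * x.1) (by fun_prop) fun a x => ?_
    obtain ⟨k, hk⟩ := h2 a
    obtain ⟨m, hm⟩ := Int.even_mul_pred_self k
    have h4 := h1 p a
    rw [hp, ← he, hk] at h4
    have h5 : a.1.val.1.2 = k * e := mul_left_cancel₀ h3 (by linear_combination h4)
    have h6 : (k : ℝ) * (k - 1) = m + m := by exact_mod_cast hm
    refine ⟨m * d * e, ?_⟩
    simp only [Prod.fst_add, hk, h5]
    push_cast
    field_simp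
    linear_combination (e * d ^ 2) * h6

/-- The property which forces the signed count to vanish. -/
def Good (H : Subgroup Gam) (F : NN → W) : Prop :=
  CaseA H ∨ ∃ u : NN, u ≠ 0 ∧ ∀ p, fderiv ℝ F p u = 0 ∧ fderiv ℝ ss p u = 0

theorem exists_smoothing [CompleteSpace W] (H : Subgroup Gam) : ∃ R ≥ (1 : ℝ), ∀ a : Gam → W,
    (∀ (h : H) γ, a (h * γ) = a γ) → ∃ F : NN → W, ContDiff ℝ ∞ F ∧
      (∀ (h : H) x, F (h • x) = F x) ∧ Conv R a F ∧ Good H F := by
  rcases dichotomy H with h | ⟨c, w, hw, hc⟩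
  · refine ⟨2, one_le_two, fun a ha => ?_⟩
    obtain ⟨F, h1, h2, h3⟩ := exists_disc H a ha
    exact ⟨F, h1, h2, h3, Or.inl h⟩
  · refine ⟨2 + ‖w‖, by linarith [norm_nonneg w], fun a ha => ?_⟩
    obtain ⟨F, h1, h2, h3⟩ := exists_disc H a ha
    obtain ⟨F', h4, h5, h6, h7⟩ := exists_avg h1 h2 h3 hc
    refine ⟨F', h4, h5, h6, Or.inr ⟨(0, 0, w), by simpa using hw, fun p => ⟨h7 p, ?_⟩⟩⟩
    have d1 : HasDerivAt (fun r : ℝ => p + r • ((0, 0, w) : NN)) (0, 0, w) 0 := by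
      simpa using ((hasDerivAt_id (0 : ℝ)).smul_const ((0, 0, w) : NN)).const_add p
    have d2 := (contDiff_ss.differentiable (by simp) (p + (0 : ℝ) • ((0, 0, w) : NN))
      ).hasFDerivAt.comp_hasDerivAt 0 d1
    rw [zero_smul, add_zero] at d2
    exact d2.unique ((hasDerivAt_const (0 : ℝ) (ss p)).congr_of_eventuallyEq
      (Eventually.of_forall fun r => by simp [ss]))

end Pool.Agent.Lib.MP_029589_gt
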