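import Pool.Agent.Lib.MP_029589_gt.Nil
import Pool.Agent.Lib.MP_029589_gt.Base

/-! Invariant equations of a genus two surface in the nilmanifold. -/

set_option autoImplicit false

open Set Filter Topology Real Function Complex
open scoped ContDiff ComplexConjugate

namespace Pool.Agent.Lib.MP_029589_gt

/-- The section vanishing at the integer points. -/
noncomputable def sp (x : ℝ × ℝ) : ℂ := ee (x.2 / 2) * s0 (x.1 + 1 / 2, x.2 + 1 / 2)

/-- The section used to trivialise. -/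
noncomputable def sq (x : ℝ × ℝ) : ℂ := ee (x.2 / 2) * s0 (x.1 + 1 / 2, x.2)

@[fun_prop] lemma contDiff_sp : ContDiff ℝ ∞ sp := by unfold sp; fun_prop

@[fun_prop] lemma contDiff_sq : ContDiff ℝ ∞ sq := by unfold sq; fun_prop

lemma sh_add {a : ℝ × ℝ} (h1 : a.1 ∈ ZZ) (h2 : a.2 ∈ ZZ) (x : ℝ × ℝ) (c : ℝ) :
    ee ((a + x).2 / 2) * s0 ((a + x).1 + 1 / 2, (a + x).2 + c) =
      ee (-(a.2 * x.1)) * (ee (x.2 / 2) * s0 (x.1 + 1 / 2, x.2 + c)) := by
  have := s0_add h1 h2 (x.1 + 1 / 2, x.2 + c)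
  rw [show a + (x.1 + 1 / 2, x.2 + c) = ((a + x).1 + 1 / 2, (a + x).2 + c) by
    ext <;> simp [add_assoc]] at this
  rw [this, ← mul_assoc, ← mul_assoc, ← ee_add, ← ee_add]
  congr 2
  simp only [Prod.snd_add]; ring

lemma sp_add {a : ℝ × ℝ} (h1 : a.1 ∈ ZZ) (h2 : a.2 ∈ ZZ) (x : ℝ × ℝ) :
    sp (a + x) = ee (-(a.2 * x.1)) * sp x := sh_add h1 h2 x _

lemma sq_add {a : ℝ × ℝ} (h1 : a.1 ∈ ZZ) (h2 : a.2 ∈ ZZ) (x : ℝ × ℝ) :
    sq (a + x) = ee (-(a.2 * x.1)) * sq x := by simpa [sq] using sh_add h1 h2 x 0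

lemma sp_eq_zero {x : ℝ × ℝ} (h : sp x = 0) : ∃ k l : ℤ, x.1 = k ∧ x.2 = l := by
  obtain ⟨k, l, h1, h2⟩ := s0_eq_zero ((mul_eq_zero.1 h).resolve_left (ee_ne _))
  exact ⟨k, l, by linarith, by linarith⟩

lemma sq_eq_zero {x : ℝ × ℝ} (h : sq x = 0) : ∃ k l : ℤ, x.1 = k ∧ x.2 = l + 1 / 2 := by
  obtain ⟨k, l, h1, h2⟩ := s0_eq_zero ((mul_eq_zero.1 h).resolve_left (ee_ne _))
  exact ⟨k, l, by linarith, h2⟩

lemma int_ne_half (k l : ℤ) : (k : ℝ) ≠ l + 1 / 2 := fun h => by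
  have : 2 * k = 2 * l + 1 := by exact_mod_cast (by linarith : (2 * k : ℝ) = 2 * l + 1)
  omega

lemma s0_ne {x : ℝ × ℝ} (h : sp x = 0) : s0 x ≠ 0 := fun h' => by
  obtain ⟨k, -, h1, -⟩ := sp_eq_zero h
  obtain ⟨l, -, h2, -⟩ := s0_eq_zero h'
  exact int_ne_half k l (h1.symm.trans h2)

lemma norm_sp {x : ℝ × ℝ} {k : ℤ} (h : x.1 = k + 1 / 2 ∨ x.2 = k + 1 / 2) : ‖sp x‖ = 1 := by
  have e : (k + 1 / 2 + 1 / 2 : ℝ) = (k + 1 : ℤ) := by push_cast; ring
  rw [sp, norm_mul, norm_ee, one_mul]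
  rcases h with h | h <;> rw [h, e]
  · exact norm_s0_fst _ _
  · exact norm_s0_snd _ _

lemma posAt_sp {x : ℝ × ℝ} (h : sp x = 0) : PosAt sp x := by
  have h1 := PosAt.comp (x := x) one_pos (1 / 2) (1 / 2)
    (posAt_s0 (by simpa using (mul_eq_zero.1 h).resolve_left (ee_ne _)))
  simp only [one_mul] at h1
  exact h1.mul (g := fun y => ee (y.2 / 2))
    ((contDiff_ee.differentiable (by simp) _).comp _ (by fun_prop)) (ee_ne _)

@[fun_prop] lemma contDiff_normSq : ContDiff ℝ ∞ normSq := by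
  have h1 := reCLM.contDiff (n := ∞)
  have h2 := imCLM.contDiff (n := ∞)
  exact (h1.mul h1).add (h2.mul h2)

@[fun_prop] lemma contDiff_conj : ContDiff ℝ ∞ (conj : ℂ → ℂ) := conjCLE.contDiff

@[fun_prop] lemma contDiff_re : ContDiff ℝ ∞ re := reCLM.contDiff

@[fun_prop] lemma contDiff_im : ContDiff ℝ ∞ im := imCLM.contDiff

@[fun_prop] lemma contDiff_ofReal : ContDiff ℝ ∞ ((↑) : ℝ → ℂ) := ofRealCLM.contDiff

@[fun_prop] lemma contDiff_st : ContDiff ℝ ∞ st := smoothTransition.contDiff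

@[fun_prop] lemma contDiff_glue : ContDiff ℝ ∞ expNegInvGlue := expNegInvGlue.contDiff

/-- A periodic function with a simple zero at the origin. -/
noncomputable def MM (x : ℝ × ℝ) : ℂ := conj (s0 x) * sp x

/-- A periodic function measuring the distance to the origin. -/
noncomputable def kpp (x : ℝ × ℝ) : ℝ := normSq (sp x) / (normSq (sp x) + normSq (s0 x))

lemma kap_den (x : ℝ × ℝ) : 0 < normSq (sp x) + normSq (s0 x) := by
  by_cases h : sp x = 0
  · exact add_pos_of_nonneg_of_pos (normSq_nonneg _) (normSq_pos.2 (s0_ne h))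
  · exact add_pos_of_pos_of_nonneg (normSq_pos.2 h) (normSq_nonneg _)

lemma kap_nonneg (x : ℝ × ℝ) : 0 ≤ kpp x := div_nonneg (normSq_nonneg _) (kap_den x).le

lemma kap_zero {x : ℝ × ℝ} (h : sp x = 0) : kpp x = 0 := by simp [kpp, h]

lemma kap_lt {x : ℝ × ℝ} (h : kpp x < 1 / 2) : normSq (sp x) < normSq (s0 x) := by
  rw [kpp, div_lt_iff₀ (kap_den x)] at h
  linarith

lemma kap_half {x : ℝ × ℝ} {k : ℤ} (h : x.1 = k + 1 / 2 ∨ x.2 = k + 1 / 2) : 1 / 2 ≤ kpp x := by
  refine not_lt.1 fun h' => ?_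
  have h1 := kap_lt h'
  rw [normSq_eq_norm_sq, normSq_eq_norm_sq, norm_sp h] at h1
  nlinarith [norm_s0_le x, norm_nonneg (s0 x)]

@[fun_prop] lemma contDiff_MM : ContDiff ℝ ∞ MM := by unfold MM; fun_prop

@[fun_prop] lemma contDiff_kap : ContDiff ℝ ∞ kpp :=
  ContDiff.div (by fun_prop) (by fun_prop) fun x => (kap_den x).ne'

lemma normSq_ee (t : ℝ) : normSq (ee t) = 1 := by rw [normSq_eq_norm_sq, norm_ee, one_pow]

/-- The second pair of coordinates. -/
def zz (p : NN) : ℝ × ℝ := (p.2.1 (0, 0), p.2.1 (0, 1))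

/-- The height. -/
noncomputable def SS (p : NN) : ℝ := Real.sin (2 * π * p.2.1 (0, 2))

/-- The interpolation parameter. -/
noncomputable def be (p : NN) : ℝ := st (2 * SS p + 1 / 2)

/-- The complex equation. -/
noncomputable def Zc (p : NN) : ℂ := (1 - be p : ℝ) * MM (zz p) - be p * MM p.1

/-- The neck equation. -/
noncomputable def hh (p : NN) : ℝ := SS p ^ 2 - 1 / 4 + st (1 - 4 * (kpp p.1 + kpp (zz p))) / 2

/-- The sections which fix the central coordinates. -/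
noncomputable def AA (p : NN) : Fin 3 → ℂ :=
  ![(1 - be p : ℝ) * (sp p.1 * s0 (zz p)) + be p * (s0 p.1 * sp (zz p)),
    s0 (p.1.1, p.2.1 (0, 0)), s0 (p.1.1, p.2.1 (0, 1))]

/-- The corresponding invariant functions. -/
noncomputable def WW (p : NN) (k : Fin 3) : ℂ := ee (-p.2.2 k) * AA p k

/-- The function excluding the other zeros of `MM`. -/
noncomputable def nu (p : NN) : ℝ := (1 - be p) * (normSq (s0 (zz p)) - normSq (sp (zz p))) +
  be p * (normSq (s0 p.1) - normSq (sp p.1))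

/-- The remaining indices. -/
abbrev Ix' := {l : Ix // l ≠ (0, 0) ∧ l ≠ (0, 1)}

/-- The real equations. -/
noncomputable def HH (p : NN) (l : Ix') : ℝ :=
  if l.1 = (0, 2) then hh p else Real.sin (2 * π * p.2.1 l)

/-- The inequalities. -/
noncomputable def mu (p : NN) : Fin 3 ⊕ Ix' ⊕ Unit → ℝ
  | .inl k => (WW p k).re
  | .inr (.inl l) => Real.cos (2 * π * p.2.1 l)
  | .inr (.inr _) => nu p

/-- The last component. -/
noncomputable def G0 (p : NN) : ℝ :=
  ∑ i, expNegInvGlue (-mu p i) - ∏ i, expNegInvGlue (mu p i)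

/-- Splitting of the coordinates. -/
noncomputable def th : (Ix → ℝ) ≃L[ℝ] (ℝ × ℝ) × (Ix' → ℝ) :=
  LinearEquiv.toContinuousLinearEquiv
    { toFun := fun y => ((y (0, 0), y (0, 1)), fun l => y l)
      map_add' := fun _ _ => rfl
      map_smul' := fun _ _ => rfl
      invFun := fun u l => if h : l = (0, 0) then u.1.1 else if h' : l = (0, 1) then u.1.2 else
        u.2 ⟨l, h, h'⟩
      left_inv := fun y => by
        ext l
        by_cases h : l = (0, 0)
        · simp [h]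
        · by_cases h' : l = (0, 1) <;> simp [h, h']
      right_inv := fun u => by
        ext l
        · simp
        · simp
        · simp [l.2.1, l.2.2] }

lemma th_apply (y : Ix → ℝ) : th y = ((y (0, 0), y (0, 1)), fun l : Ix' => y l) := rfl

/-- The target of the equations. -/
abbrev TTs := (Ix → ℝ) × (Fin 3 → ℝ)

/-- All equations. -/
noncomputable def G1 (p : NN) : TTs :=
  (th.symm (equivRealProdCLM (Zc p), HH p), fun k => (WW p k).im)

@[fun_prop] lemma contDiff_zz : ContDiff ℝ ∞ zz := by unfold zz; fun_prop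

@[fun_prop] lemma contDiff_SS : ContDiff ℝ ∞ SS := by unfold SS; fun_prop

@[fun_prop] lemma contDiff_be : ContDiff ℝ ∞ be := by unfold be; fun_prop

lemma contDiff_AA (k : Fin 3) : ContDiff ℝ ∞ fun p => AA p k := by
  fin_cases k <;> simp only [AA, Matrix.cons_val_zero', Matrix.cons_val_succ'] <;> fun_prop

lemma contDiff_WW (k : Fin 3) : ContDiff ℝ ∞ fun p => WW p k := by
  have := contDiff_AA k
  unfold WW; fun_prop

lemma contDiff_G1 : ContDiff ℝ ∞ G1 := by
  refine (th.symm.contDiff.comp ((equivRealProdCLM.contDiff.comp ?_).prodMk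
    (contDiff_pi.2 fun l => ?_))).prodMk
    (contDiff_pi.2 fun k => contDiff_im.comp (contDiff_WW k))
  · unfold Zc; fun_prop
  · unfold HH hh
    split_ifs <;> fun_prop

lemma contDiff_G0 : ContDiff ℝ ∞ G0 := by
  have h : ∀ i, ContDiff ℝ ∞ fun p => mu p i := by
    rintro (k | l | u)
    · exact contDiff_re.comp (contDiff_WW k)
    · simp only [mu]; fun_prop
    · simp only [mu, nu]; fun_prop
  exact (ContDiff.sum fun i _ => contDiff_glue.comp (h i).neg).sub
    (contDiff_prod fun i _ => contDiff_glue.comp (h i))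

lemma sin_add_ZZ {a : ℝ} (h : a ∈ ZZ) (t : ℝ) :
    Real.sin (2 * π * (a + t)) = Real.sin (2 * π * t) := by
  obtain ⟨k, rfl⟩ := mem_ZZ.1 h
  rw [← ee_im, ← ee_im, add_comm, ee_add_int]

lemma G_smul (a : Gam) (p : NN) : G1 (a • p) = G1 p ∧ G0 (a • p) = G0 p := by
  have e1 : (a • p).1 = a.val.1 + p.1 := nmul_x _ _
  have e2 : ∀ l, (a • p).2.1 l = a.val.2.1 l + p.2.1 l := congrFun (nmul_y _ _)
  have e3 : zz (a • p) = zz a.val + zz p := by simp [zz, e2]
  have x0 := s0_add a.int.x1 a.int.x2 p.1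
  have xp := sp_add a.int.x1 a.int.x2 p.1
  have z0 := s0_add (a := zz a.val) (a.int.y _) (a.int.y _) (zz p)
  have zp := sp_add (a := zz a.val) (a.int.y _) (a.int.y _) (zz p)
  have hc : ∀ t, conj (ee t) * ee t = 1 := fun t => by rw [← ee_neg, ee_neg_mul]
  have m1 : MM (a • p).1 = MM p.1 := by
    simp only [MM, e1, x0, xp, map_mul]
    linear_combination (conj (s0 p.1) * sp p.1) * hc _
  have m2 : MM (zz (a • p)) = MM (zz p) := by
    simp only [MM, e3, z0, zp, map_mul]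
    linear_combination (conj (s0 (zz p)) * sp (zz p)) * hc _
  have hS : SS (a • p) = SS p := by simp only [SS, e2, sin_add_ZZ (a.int.y _)]
  have hb : be (a • p) = be p := by simp only [be, hS]
  have hW : ∀ k, WW (a • p) k = WW p k := fun k => by
    obtain ⟨j, hj⟩ := mem_ZZ.1 (a.int.w k)
    have e4 : ee (-(a • p).2.2 k) = ee (-(Bl a.val p).2.2 k) * ee (-p.2.2 k) := by
      rw [← ee_add]
      exact ee_congr (-j) (by simp [Gam.smul_def, nmul_w, hj]; ring)
    have e5 : AA (a • p) k = ee ((Bl a.val p).2.2 k) * AA p k := by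
      fin_cases k
      · simp only [AA, e1, e3, x0, xp, z0, zp, hb, Bl, Matrix.cons_val_zero', sub_eq_add_neg, ee_add]
        simp only [zz]
        ring
      · simpa [AA, e1, e2, Bl] using s0_add (a := (a.val.1.1, a.val.2.1 (0, 0))) a.int.x1
          (a.int.y _) (p.1.1, p.2.1 (0, 0))
      · simpa [AA, e1, e2, Bl] using s0_add (a := (a.val.1.1, a.val.2.1 (0, 1))) a.int.x1
          (a.int.y _) (p.1.1, p.2.1 (0, 1))
    rw [WW, WW, e4, e5]
    linear_combination (ee (-p.2.2 k) * AA p k) * ee_neg_mul ((Bl a.val p).2.2 k)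
  constructor
  · have : HH (a • p) = HH p := funext fun l => by
      simp only [HH, hh, hS, kpp, e1, e3, x0, xp, z0, zp, map_mul, normSq_ee, one_mul, e2,
        sin_add_ZZ (a.int.y _)]
    simp only [G1, Zc, hb, m1, m2, this, hW]
  · have : mu (a • p) = mu p := by
      funext i
      rcases i with k | l | u
      · simp only [mu, hW]
      · simp only [mu, e2, cos_add_ZZ (a.int.y _)]
      · simp only [mu, nu, hb, e1, e3, x0, xp, z0, zp, map_mul, normSq_ee, one_mul]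
    simp only [G0, this]

lemma G1_eq_zero {p : NN} : G1 p = 0 ↔ Zc p = 0 ∧ (∀ l, HH p l = 0) ∧ ∀ k, (WW p k).im = 0 := by
  simp [G1, Prod.ext_iff, funext_iff, Complex.ext_iff, and_assoc]

lemma be_zero {p : NN} (h : SS p ≤ -1 / 4) : be p = 0 :=
  smoothTransition.zero_of_nonpos (by linarith)

lemma be_one {p : NN} (h : 1 / 4 ≤ SS p) : be p = 1 := smoothTransition.one_of_one_le (by linarith)

lemma three_cases {p : NN} (h1 : Zc p = 0) (h2 : hh p = 0) (h3 : 0 ≤ nu p) :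
    (SS p ≤ -1 / 4 ∧ sp (zz p) = 0 ∧ sp p.1 ≠ 0) ∨ (be p = 1 ∧ sp p.1 = 0 ∧ sp (zz p) ≠ 0) ∨
      (kpp p.1 < 1 / 4 ∧ kpp (zz p) < 1 / 4 ∧ ¬(sp p.1 = 0 ∧ sp (zz p) = 0)) := by
  have h4 : ¬(sp p.1 = 0 ∧ sp (zz p) = 0) := fun h => by
    simp only [hh, kap_zero h.1, kap_zero h.2, add_zero, mul_zero, sub_zero,
      smoothTransition.one] at h2
    nlinarith [sq_nonneg (SS p)]
  have h5 : ∀ x, MM x = 0 → 0 ≤ normSq (s0 x) - normSq (sp x) → sp x = 0 := fun x a b => by
    rcases mul_eq_zero.1 a with h | h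
    · rw [map_eq_zero] at h
      rw [h, map_zero] at b
      exact normSq_eq_zero.1 (le_antisymm (by linarith) (normSq_nonneg _))
    · exact h
  rcases le_or_gt (SS p) (-1 / 4) with a | a
  · have := h5 (zz p) (by simpa [Zc, be_zero a] using h1) (by simpa [nu, be_zero a] using h3)
    exact Or.inl ⟨a, this, fun h => h4 ⟨h, this⟩⟩
  rcases le_or_gt (1 / 4) (SS p) with b | b
  · have := h5 p.1 (by simpa [Zc, be_one b] using h1) (by simpa [nu, be_one b] using h3)
    exact Or.inr (Or.inl ⟨be_one b, this, fun h => h4 ⟨this, h⟩⟩)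
  · have h6 : ¬(1 - 4 * (kpp p.1 + kpp (zz p)) ≤ 0) := fun h => by
      rw [hh, st, smoothTransition.zero_of_nonpos h] at h2
      nlinarith
    exact Or.inr (Or.inr ⟨by linarith [kap_nonneg (zz p)], by linarith [kap_nonneg p.1], h4⟩)

lemma good_part {p : NN} (h1 : Zc p = 0) (h2 : hh p = 0) (h3 : 0 ≤ nu p) :
    0 < nu p ∧ ∀ k, AA p k ≠ 0 := by
  have h4 : kpp p.1 < 1 / 2 → ∀ t, s0 (p.1.1, t) ≠ 0 := fun h t e => by
    obtain ⟨k, -, e, -⟩ := s0_eq_zero e
    exact h.not_ge (kap_half (Or.inl e))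
  rcases three_cases h1 h2 h3 with ⟨a, b, c⟩ | ⟨a, b, c⟩ | ⟨a, b, c⟩
  · obtain ⟨k, l, e1, e2⟩ := sp_eq_zero b
    have h5 : ∀ (t : ℝ) (j : ℤ), s0 (t, j) ≠ 0 := fun t j =>
      norm_ne_zero_iff.1 (by rw [norm_s0_snd]; exact one_ne_zero)
    refine ⟨by simpa [nu, be_zero a, b] using s0_ne b, fun j => ?_⟩
    fin_cases j
    · simpa [AA, be_zero a, c] using s0_ne b
    · change s0 (p.1.1, p.2.1 (0, 0)) ≠ 0
      rw [show p.2.1 (0, 0) = k from e1]; exact h5 _ _
    · change s0 (p.1.1, p.2.1 (0, 1)) ≠ 0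
      rw [show p.2.1 (0, 1) = l from e2]; exact h5 _ _
  · have h5 := h4 (by rw [kap_zero b]; norm_num)
    refine ⟨by simpa [nu, a, b] using s0_ne b, fun j => ?_⟩
    fin_cases j
    · simpa [AA, a, c] using s0_ne b
    · exact h5 _
    · exact h5 _
  · have h5 := h4 (by linarith)
    have h6 := kap_lt (x := p.1) (by linarith)
    have h7 := kap_lt (x := zz p) (by linarith)
    have b0 : 0 ≤ be p := smoothTransition.nonneg _
    have b1 : be p ≤ 1 := smoothTransition.le_one _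
    have hT := (normSq_nonneg _).trans_lt h6
    have hU := (normSq_nonneg _).trans_lt h7
    refine ⟨?_, fun j => ?_⟩
    · rw [nu]
      rcases b0.eq_or_lt with h | h
      · rw [← h]; linarith
      · nlinarith [mul_pos h (sub_pos.2 h6), mul_nonneg (sub_nonneg.2 b1) (sub_pos.2 h7).le]
    fin_cases j
    · intro h
      simp only [AA, Matrix.cons_val_zero'] at h
      have hd : 0 < (1 - be p) ^ 2 * normSq (s0 (zz p)) + be p ^ 2 * normSq (s0 p.1) := by
        rcases b0.eq_or_lt with h | h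
        · rw [← h]; linarith
        · positivity
      have e : (MM p.1 + MM (zz p)) *
          (((1 - be p) ^ 2 * normSq (s0 (zz p)) + be p ^ 2 * normSq (s0 p.1) : ℝ) : ℂ) = 0 := by
        simp only [Zc, MM] at h1 ⊢
        push_cast at h h1 ⊢
        rw [normSq_eq_conj_mul_self, normSq_eq_conj_mul_self]
        linear_combination (conj (s0 p.1) * conj (s0 (zz p))) * h +
          ((1 - be p) * (conj (s0 (zz p)) * s0 (zz p)) - be p * (conj (s0 p.1) * s0 p.1)) * h1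
      have e2 := (mul_eq_zero.1 e).resolve_right (ofReal_ne_zero.2 hd.ne')
      have e3 : MM (zz p) = 0 := by
        simp only [Zc] at h1
        push_cast at h1
        linear_combination h1 + be p * e2
      rw [e3, add_zero] at e2
      exact c ⟨(mul_eq_zero.1 e2).resolve_left (by simpa using hT.ne'),
        (mul_eq_zero.1 e3).resolve_left (by simpa using hU.ne')⟩
    · exact h5 _
    · exact h5 _

/-- The index of the height coordinate. -/
def ir : Ix' := ⟨(0, 2), by decide, by decide⟩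

lemma HH_ir (p : NN) : HH p ir = hh p := if_pos rfl

lemma mu_pos {p : NN} (h : G1 p = 0) (h0 : ∀ i, 0 ≤ mu p i) (i : Fin 3 ⊕ Ix' ⊕ Unit) :
    0 < mu p i := by
  obtain ⟨h1, h2, h3⟩ := G1_eq_zero.1 h
  have h4 := (HH_ir p).symm.trans (h2 ir)
  obtain ⟨h5, h6⟩ := good_part h1 h4 (h0 (.inr (.inr ())))
  refine (h0 i).lt_of_ne' ?_
  rcases i with k | l | u
  · exact fun e => mul_ne_zero (ee_ne _) (h6 k) (Complex.ext e (h3 k))
  · intro (e : Real.cos _ = 0)
    have h7 := Real.sin_sq_add_cos_sq (2 * π * p.2.1 l)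
    have h8 := h2 l
    rw [e] at h7
    unfold HH at h8
    split_ifs at h8 with h9
    · rw [h9] at h7
      have := smoothTransition.nonneg (1 - 4 * (kpp p.1 + kpp (zz p)))
      simp only [hh, SS] at h4
      linarith
    · rw [h8] at h7; norm_num at h7
  · exact h5.ne'

lemma G0_neg {p : NN} (h : ∀ i, 0 < mu p i) : G0 p < 0 := by
  rw [G0, Finset.sum_eq_zero fun i _ => expNegInvGlue.zero_of_nonpos (neg_nonpos.2 (h i).le),
    zero_sub, neg_lt_zero]
  exact Finset.prod_pos fun i _ => expNegInvGlue.pos_of_pos (h i)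

lemma G0_pos {p : NN} {i : Fin 3 ⊕ Ix' ⊕ Unit} (h : mu p i < 0) : 0 < G0 p := by
  rw [G0, Finset.prod_eq_zero (Finset.mem_univ i) (expNegInvGlue.zero_of_nonpos h.le), sub_zero]
  exact Finset.sum_pos' (fun _ _ => expNegInvGlue.nonneg _)
    ⟨i, Finset.mem_univ i, expNegInvGlue.pos_of_pos (neg_pos.2 h)⟩

lemma mu_pos' {p : NN} (h : G1 p = 0) (h0 : G0 p ≤ 0) : ∀ i, 0 < mu p i :=
  mu_pos h fun _ => not_lt.1 fun h' => (G0_pos h').not_ge h0

lemma G_ne (p : NN) : (G1 p, G0 p) ≠ 0 := fun h =>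
  (G0_neg (mu_pos' (congrArg Prod.fst h) (congrArg Prod.snd h).le)).ne (congrArg Prod.snd h)

lemma far_part {p : NN} (h : G1 p = 0) (h0 : G0 p ≤ 0) (hk : 1 / 2 ≤ kpp p.1) :
    SS p = -1 / 2 ∧ sp (zz p) = 0 := by
  obtain ⟨h1, h2, -⟩ := G1_eq_zero.1 h
  have h4 := (HH_ir p).symm.trans (h2 ir)
  rcases three_cases h1 h4 (mu_pos' h h0 (.inr (.inr ()))).le with ⟨a, b, -⟩ | ⟨-, b, -⟩ | ⟨a, -⟩
  · rw [hh, st, smoothTransition.zero_of_nonpos (by linarith [kap_nonneg (zz p)])] at h4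
    exact ⟨by nlinarith, b⟩
  · rw [kap_zero b] at hk; norm_num at hk
  · linarith

end Pool.Agent.Lib.MP_029589_gt
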