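import Pool.Agent.Lib.MP_029589_gt.Cov

/-! Gluing of manifolds, pull-backs of manifold structures, covering manifolds. -/

set_option autoImplicit false

open scoped Manifold ContDiff Topology
open Set Filter Function Topology

namespace Pool.Agent.Lib.MP_029589_gt

section Mf

variable {V : Type} [NormedAddCommGroup V] [NormedSpace ℝ V] {X : Type} [TopologicalSpace X]

/-- A manifold structure from a compatible family of local parametrisations. -/
theorem exists_atlas {κ : Type} {N : κ → Type} [∀ k, TopologicalSpace (N k)]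
    [∀ k, ChartedSpace V (N k)] [∀ k, IsManifold 𝓘(ℝ, V) ∞ (N k)] {U : ∀ k, Set (N k)}
    (hU : ∀ k, IsOpen (U k)) {e : ∀ k, N k → X} (he : ∀ k, IsLocalHomeomorphOn (e k) (U k))
    (hc : ∀ x, ∃ k, ∃ v ∈ U k, e k v = x)
    (hs : ∀ k l, ∀ v ∈ U k, ∀ w ∈ U l, e k v = e l w → ∃ τ : N k → N l,
      ContMDiffAt 𝓘(ℝ, V) 𝓘(ℝ, V) ∞ τ v ∧ τ v = w ∧ ∀ᶠ u in 𝓝 v, e l (τ u) = e k u) :
    ∃ _ : ChartedSpace V X, IsManifold 𝓘(ℝ, V) ∞ X ∧ ∀ k, ∀ v ∈ U k, LD V (e k) v := by
  have h0 : ∀ k (v : U k), ∃ φ : OpenPartialHomeomorph (N k) X, v.1 ∈ φ.source ∧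
      φ.source ⊆ U k ∧ ⇑φ = e k := fun k v => by
    obtain ⟨φ, h1, h2⟩ := he k v v.2
    exact ⟨φ.restrOpen _ (hU k), ⟨h1, v.2⟩, inter_subset_right, h2.symm⟩
  choose φ h1 h2 h3 using h0
  choose k v hv hx using hc
  have key : ∀ k l (w : U l), ∀ u ∈ U k, e k u ∈ (φ l w).target →
      ContMDiffAt 𝓘(ℝ, V) 𝓘(ℝ, V) ∞ ((φ l w).symm ∘ e k) u := fun k l w u hu h => by
    have a1 := (φ l w).map_target h
    obtain ⟨τ, t1, t2, t3⟩ := hs k l u hu _ (h2 l w a1) (h3 l w ▸ ((φ l w).right_inv h).symm)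
    refine t1.congr_of_eventuallyEq ?_
    filter_upwards [t3, t1.continuousAt ((φ l w).open_source.mem_nhds (t2 ▸ a1))] with u' b1 b2
    rw [comp, ← b1, ← h3 l w]
    exact (φ l w).left_inv b2
  let c : X → OpenPartialHomeomorph X V := fun x =>
    (φ (k x) ⟨v x, hv x⟩).symm.trans (chartAt V (v x))
  have a0 : ∀ x, (φ (k x) ⟨v x, hv x⟩).symm x = v x := fun x => by
    have := (φ (k x) ⟨v x, hv x⟩).left_inv (h1 _ _)
    rwa [h3, hx] at this
  have a1 : ∀ x, x ∈ (φ (k x) ⟨v x, hv x⟩).target := fun x => by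
    have := (φ (k x) ⟨v x, hv x⟩).map_source (h1 _ _)
    rwa [h3, hx] at this
  have a2 : ∀ x, (φ (k x) ⟨v x, hv x⟩).symm x ∈ (chartAt V (v x)).source := fun x => by
    rw [a0]; exact mem_chart_source V _
  let C : ChartedSpace V X :=
    { atlas := range c
      chartAt := c
      mem_chart_source x := ⟨a1 x, a2 x⟩
      chart_mem_atlas x := ⟨x, rfl⟩ }
  have hM : IsManifold 𝓘(ℝ, V) ∞ X := by
    refine isManifold_of_contDiffOn _ _ _ ?_
    rintro _ _ ⟨p, rfl⟩ ⟨q, rfl⟩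
    simp only [modelWithCornersSelf_coe, modelWithCornersSelf_coe_symm, range_id, inter_univ,
      preimage_id, id_comp, comp_id]
    rintro z ⟨⟨b1, b2⟩, b3, b4⟩
    have e' := h3 (k p) ⟨v p, hv p⟩
    replace b3 : φ (k p) ⟨v p, hv p⟩ ((chartAt V (v p)).symm z) ∈ (φ (k q) ⟨v q, hv q⟩).target := b3
    replace b4 : (φ (k q) ⟨v q, hv q⟩).symm (φ (k p) ⟨v p, hv p⟩ ((chartAt V (v p)).symm z)) ∈
      (chartAt V (v q)).source := b4
    have h4 := ((contMDiffOn_chart (I := 𝓘(ℝ, V)) (n := ∞)).contMDiffAt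
      ((chartAt V (v q)).open_source.mem_nhds (e' ▸ b4))).comp z
        ((key _ _ _ _ (h2 _ _ b2) (e' ▸ b3)).comp z
        (contMDiffOn_chart_symm.contMDiffAt ((chartAt V (v p)).open_target.mem_nhds b1)))
    rw [← e'] at h4
    exact h4.contDiffAt.contDiffWithinAt
  refine ⟨C, hM, fun l w hw => LD.of_chart (φ l ⟨w, hw⟩) (fun u hu => ?_) (fun q hq => ?_)
    (h1 _ _) (by rw [h3]; exact eqOn_refl _ _)⟩
  · refine ContMDiffAt.contMDiffWithinAt ?_
    rw [contMDiffAt_iff_target, extChart_coe]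
    refine ⟨(φ l ⟨w, hw⟩).continuousAt hu, ?_⟩
    rw [h3]
    exact ContMDiffAt.comp (g := chartAt V (v (e l u))) u
      (contMDiffOn_chart.contMDiffAt ((chartAt V _).open_source.mem_nhds
        (mem_chart_source V (e l u)).2)) (key _ _ _ _ (h2 _ _ hu) (a1 _))
  · refine ContMDiffAt.contMDiffWithinAt ?_
    rw [contMDiffAt_iff_source]
    have b : chartAt V q = c q := rfl
    simp only [extChartAt, b, c, mfld_simps, contMDiffWithinAt_univ, a0, h3]
    have h4 := (chartAt V (v q)).left_inv (mem_chart_source V _)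
    exact ContMDiffAt.comp (g := (φ l ⟨w, hw⟩).symm ∘ e (k q)) _
      (h4.symm ▸ key _ _ _ _ (hv q) ((hx q).symm ▸ hq))
      (contMDiffOn_chart_symm.contMDiffAt (chart_target_mem_nhds V _))

lemma LD.id' {M : Type} [TopologicalSpace M] [ChartedSpace V M] (x : M) : LD V id x :=
  (Diffeomorph.refl 𝓘(ℝ, V) M ∞).isLocalDiffeomorph x

theorem exists_pull {N : Type} [TopologicalSpace N] [ChartedSpace V N] [IsManifold 𝓘(ℝ, V) ∞ N]
    {p : X → N} (hp : IsLocalHomeomorph p) :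
    ∃ _ : ChartedSpace V X, IsManifold 𝓘(ℝ, V) ∞ X ∧ ∀ x, LD V p x := by
  choose φ h1 h2 using hp
  have h3 : ∀ x, ∀ v ∈ (φ x).target, p ((φ x).symm v) = v := fun x v hv => by
    rw [h2 x]; exact (φ x).right_inv hv
  obtain ⟨C, hM, h⟩ := exists_atlas (V := V) (N := fun _ : X => N) (U := fun x => (φ x).target)
    (fun x => (φ x).open_target) (e := fun x => (φ x).symm)
    (fun x y hy => ⟨(φ x).symm, hy, rfl⟩) (fun x => ⟨x, _, (φ x).map_source (h1 x),
      (φ x).left_inv (h1 x)⟩) fun x y v hv w hw e => by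
      obtain rfl : v = w := (h3 x v hv).symm.trans ((congrArg p e).trans (h3 y w hw))
      refine ⟨id, contMDiffAt_id, rfl, ?_⟩
      filter_upwards [(φ x).open_target.mem_nhds hv, (φ x).symm.continuousAt hv
        ((φ y).open_source.mem_nhds (e ▸ (φ y).map_target hw))] with u a1 a2
      have := (φ y).left_inv a2
      rwa [← h2 y, h3 x u a1] at this
  refine ⟨C, hM, fun x => ?_⟩
  have := (h x _ ((φ x).map_source (h1 x))).of_comp (g := p) (LD.congr (LD.id' _) ?_)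
  · rwa [(φ x).left_inv (h1 x)] at this
  · filter_upwards [(φ x).open_target.mem_nhds ((φ x).map_source (h1 x))] with y hy using h3 x y hy

lemma LD.of_fderiv [FiniteDimensional ℝ V] {g : V → V} {a : V}
    (h : ∀ᶠ y in 𝓝 a, ContDiffAt ℝ ∞ g y) (hd : (fderiv ℝ g a).det ≠ 0) : LD V g a := by
  have : CompleteSpace V := FiniteDimensional.complete ℝ V
  have h1 : ∀ y, ContDiffAt ℝ ∞ g y → ∀ h : (fderiv ℝ g y).det ≠ 0,
      HasFDerivAt g ((fderiv ℝ g y).toContinuousLinearEquivOfDetNeZero h : V →L[ℝ] V) y :=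
    fun y h' h => by simpa using (h'.differentiableAt (by simp)).hasFDerivAt
  have h2 : ∀ᶠ y in 𝓝 a, (fderiv ℝ g y).det ≠ 0 :=
    (ContinuousLinearMap.continuous_det.continuousAt.comp
      (h.self_of_nhds.continuousAt_fderiv (by simp))).eventually_ne hd
  obtain ⟨O, hO, ho, ha⟩ := mem_nhds_iff.1 (h.and h2)
  let Φ := (h.self_of_nhds.toOpenPartialHomeomorph _ (h1 a h.self_of_nhds hd) (by simp)).restrOpen _ ho
  refine LD.of_chart Φ (fun y hy => (hO hy.2).1.contMDiffAt.contMDiffWithinAt) (fun y hy => ?_)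
    ⟨h.self_of_nhds.mem_toOpenPartialHomeomorph_source _ _, ha⟩ (eqOn_refl _ _)
  have := hO (Φ.map_target hy).2
  exact (Φ.contDiffAt_symm hy (h1 _ this.1 this.2) this.1).contMDiffAt.contMDiffWithinAt

lemma LD.chart {M : Type} [TopologicalSpace M] [ChartedSpace V M] [IsManifold 𝓘(ℝ, V) ∞ M]
    {x y : M} (h : y ∈ (chartAt V x).source) : LD V (chartAt V x) y :=
  LD.of_chart _ contMDiffOn_chart contMDiffOn_chart_symm h (eqOn_refl _ _)

lemma LD.chart_symm {M : Type} [TopologicalSpace M] [ChartedSpace V M] [IsManifold 𝓘(ℝ, V) ∞ M]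
    {x : M} {y : V} (h : y ∈ (chartAt V x).target) : LD V (chartAt V x).symm y :=
  LD.of_chart _ contMDiffOn_chart_symm contMDiffOn_chart h (eqOn_refl _ _)

theorem LD.of_det [FiniteDimensional ℝ V] {M N : Type} [TopologicalSpace M] [ChartedSpace V M]
    [IsManifold 𝓘(ℝ, V) ∞ M] [TopologicalSpace N] [ChartedSpace V N] [IsManifold 𝓘(ℝ, V) ∞ N]
    {f : M → N} {x : M} (h : ∀ᶠ y in 𝓝 x, ContMDiffAt 𝓘(ℝ, V) 𝓘(ℝ, V) ∞ f y)
    (hd : Injective (md V V f x)) : LD V f x := by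
  have h1 := LD.chart_symm (V := V) (mem_chart_target V x)
  have h2 := (chartAt V x).left_inv (mem_chart_source V x)
  have h3 := LD.chart (V := V) (mem_chart_source V (f x))
  have h4 : LD V ((chartAt V (f x) ∘ f) ∘ (chartAt V x).symm) (chartAt V x x) := by
    refine LD.of_fderiv ?_ ?_
    · have := h1.contMDiffAt.continuousAt
      rw [ContinuousAt, h2] at this
      filter_upwards [chart_target_mem_nhds V x, this.eventually h,
        this.eventually (h.self_of_nhds.continuousAt (chart_source_mem_nhds V (f x)))] with y a1 a2 a3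
      exact (((LD.chart a3).contMDiffAt.comp _ a2).comp _ (LD.chart_symm a1).contMDiffAt).contDiffAt
    · have a := h.self_of_nhds.mdifferentiableAt (by simp)
      rw [← md_eq_fderiv, md_comp (h2.symm ▸ h3.mdiff.comp x a) h1.mdiff, h2, md_comp h3.mdiff a,
        det_comp', det_comp']
      exact mul_ne_zero (mul_ne_zero h3.det_ne ((det_ne_zero_iff _).2 hd)) h1.det_ne
  have h5 := h1.of_comp h4
  rw [h2] at h5
  exact LD.lift h.self_of_nhds.continuousAt h3 h5

lemma LD.map_nhds {M N : Type} [TopologicalSpace M] [ChartedSpace V M] [TopologicalSpace N]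
    [ChartedSpace V N] {f : M → N} {x : M} (h : LD V f x) : map f (𝓝 x) = 𝓝 (f x) := by
  have : IsLocalDiffeomorphOn 𝓘(ℝ, V) 𝓘(ℝ, V) ∞ f {x} := by rintro ⟨_, rfl⟩; exact h
  exact this.isLocalHomeomorphOn.map_nhds_eq rfl

lemma locH_ext {A Y : Type} [TopologicalSpace A] [TopologicalSpace Y] {A0 : Set A} (hA : IsOpen A0)
    {i : A0 → Y} (hi : IsOpenEmbedding i) {e : A → Y} (he : ∀ a : A0, e a = i a) :
    IsLocalHomeomorphOn e A0 := fun a ha =>
  IsLocalHomeomorphOn.of_comp_right (s := univ) (f := (Subtype.val : A0 → A))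
    (by rw [show e ∘ Subtype.val = i from funext he]; exact hi.isLocalHomeomorph.isLocalHomeomorphOn)
    hA.isOpenEmbedding_subtypeVal.isLocalHomeomorph.isLocalHomeomorphOn _ ⟨⟨a, ha⟩, trivial, rfl⟩

/-- Gluing finitely many pieces `P0 l` to `A0` along the maps `J l`. -/
theorem exists_glue_mfd {A : Type} [TopologicalSpace A] [ChartedSpace V A]
    [IsManifold 𝓘(ℝ, V) ∞ A] [T2Space A] [SecondCountableTopology A] {L : Type} [Finite L]
    {P : L → Type} [∀ l, TopologicalSpace (P l)] [∀ l, ChartedSpace V (P l)]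
    [∀ l, IsManifold 𝓘(ℝ, V) ∞ (P l)] [∀ l, T2Space (P l)] [∀ l, SecondCountableTopology (P l)]
    {A0 : Set A} (hA : IsOpen A0) (hne : A0.Nonempty) {P0 : ∀ l, Set (P l)}
    (hP : ∀ l, IsOpen (P0 l)) {T : L → Set A} (hT : ∀ l, IsOpen (T l)) (hTA : ∀ l, T l ⊆ A0)
    (hd : Pairwise (Disjoint on T)) {J : ∀ l, A → P l} (hJ : ∀ l, ∀ a ∈ T l, LD V (J l) a)
    (hi : ∀ l, InjOn (J l) (T l)) (hm : ∀ l, MapsTo (J l) (T l) (P0 l))
    (hc : ∀ l, ∀ a ∈ A0, a ∉ T l → ∀ q ∈ P0 l, Disjoint (map (J l) (𝓝[T l] a)) (𝓝 q)) :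
    ∃ (Y : Type) (_ : TopologicalSpace Y) (_ : ChartedSpace V Y) (e₀ : A → Y) (e : ∀ l, P l → Y),
      IsManifold 𝓘(ℝ, V) ∞ Y ∧ T2Space Y ∧ SecondCountableTopology Y ∧
      (∀ a ∈ A0, LD V e₀ a) ∧ (∀ l, ∀ q ∈ P0 l, LD V (e l) q) ∧ InjOn e₀ A0 ∧
      (∀ l, InjOn (e l) (P0 l)) ∧ (∀ y, (∃ a ∈ A0, e₀ a = y) ∨ ∃ l, ∃ q ∈ P0 l, e l q = y) ∧
      (∀ l, ∀ a ∈ A0, ∀ q ∈ P0 l, e₀ a = e l q ↔ a ∈ T l ∧ J l a = q) ∧
      ∀ l l', ∀ q ∈ P0 l, ∀ q' ∈ P0 l', e l q = e l' q' → l = l' := by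
  classical
  have G := exists_glue (A := A0) (P := Σ l, P0 l)
    (fun a q => a.1 ∈ T q.1 ∧ J q.1 a.1 = q.2.1) ?g1 ?g2 ?g3 ?g4
  case g1 =>
    rintro a ⟨l, q⟩ ⟨l', q'⟩ ⟨h1, h2⟩ ⟨h3, h4⟩
    obtain rfl : l = l' := by_contra fun h => Set.disjoint_left.1 (hd h) h1 h3
    exact congrArg _ (Subtype.ext (h2.symm.trans h4))
  case g2 => exact fun a a' q h h' => Subtype.ext (hi _ h.1 h'.1 (h.2.trans h'.2.symm))
  case g3 =>
    intro U hU
    refine isOpen_sigma_iff.2 fun l => isOpen_iff_mem_nhds.2 ?_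
    rintro q ⟨a, h1, h2, h3⟩
    have h4 := image_mem_map (m := J l) (inter_mem ((hA.isOpenMap_subtype_val U hU).mem_nhds
      ⟨a, h1, rfl⟩) ((hT l).mem_nhds h2))
    rw [(hJ l a h2).map_nhds, show J l a = q from h3] at h4
    filter_upwards [continuous_subtype_val.continuousAt h4]
    rintro q' ⟨_, ⟨⟨a', h5, rfl⟩, h6⟩, h7⟩
    exact ⟨a', h5, h6, h7⟩
  case g4 =>
    intro U hU
    refine isOpen_iff_mem_nhds.2 ?_
    rintro a ⟨⟨l, q⟩, h1, h2, h3⟩
    have h4 := ((hP l).isOpenMap_subtype_val _ (isOpen_sigma_iff.1 hU l)).mem_nhds ⟨q, h1, h3.symm⟩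
    filter_upwards [continuous_subtype_val.continuousAt ((hT l).mem_nhds h2),
      continuous_subtype_val.continuousAt ((hJ l a h2).contMDiffAt.continuousAt h4)]
    rintro a' h5 ⟨q', h6, h7⟩
    exact ⟨⟨l, q'⟩, h6, h5, h7.symm⟩
  obtain ⟨Y, _, i, j, hi', hj, hy, hR⟩ := G
  obtain ⟨a0, ha0⟩ := hne
  let e₀ : A → Y := fun a => if h : a ∈ A0 then i ⟨a, h⟩ else i ⟨a0, ha0⟩
  let e : ∀ l, P l → Y := fun l q => if h : q ∈ P0 l then j ⟨l, q, h⟩ else i ⟨a0, ha0⟩
  have k0 : ∀ a (h : a ∈ A0), e₀ a = i ⟨a, h⟩ := fun a h => dif_pos h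
  have k1 : ∀ l q (h : q ∈ P0 l), e l q = j ⟨l, q, h⟩ := fun l q h => dif_pos h
  have i0 : InjOn e₀ A0 := fun a h a' h' e => by
    rw [k0 a h, k0 a' h'] at e
    exact congrArg Subtype.val (hi'.injective e)
  have i1 : ∀ l, InjOn (e l) (P0 l) := fun l q h q' h' e => by
    rw [k1 l q h, k1 l q' h'] at e
    exact congrArg Subtype.val (eq_of_heq (Sigma.mk.inj (hj.injective e)).2)
  have i2 : ∀ l l', ∀ q ∈ P0 l, ∀ q' ∈ P0 l', e l q = e l' q' → l = l' := fun l l' q h q' h' e => by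
    rw [k1 l q h, k1 l' q' h'] at e
    exact (Sigma.mk.inj (hj.injective e)).1
  have i3 : ∀ l, ∀ a ∈ A0, ∀ q ∈ P0 l, e₀ a = e l q ↔ a ∈ T l ∧ J l a = q := fun l a h q h' => by
    rw [k0 a h, k1 l q h', hR]
  have i4 : ∀ y, (∃ a ∈ A0, e₀ a = y) ∨ ∃ l, ∃ q ∈ P0 l, e l q = y := fun y => by
    rcases hy y with ⟨a, rfl⟩ | ⟨q, rfl⟩
    · exact Or.inl ⟨a, a.2, k0 _ _⟩
    · exact Or.inr ⟨q.1, q.2, q.2.2, k1 _ _ _⟩
  let N : Option L → Type := fun o => Option.rec A P o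
  let tN : ∀ o, TopologicalSpace (N o)
    | none => (‹_› : TopologicalSpace A)
    | some l => (inferInstance : TopologicalSpace (P l))
  let cN : ∀ o, @ChartedSpace V _ (N o) (tN o)
    | none => (‹_› : ChartedSpace V A)
    | some l => (inferInstance : ChartedSpace V (P l))
  have mN : ∀ o, @IsManifold ℝ _ V _ _ V _ 𝓘(ℝ, V) ∞ (N o) (tN o) (cN o)
    | none => (‹_› : IsManifold 𝓘(ℝ, V) ∞ A)
    | some l => (inferInstance : IsManifold 𝓘(ℝ, V) ∞ (P l))
  have G := @exists_atlas V _ _ Y _ _ N tN cN mN (fun o => Option.rec A0 P0 o) ?g1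
    (fun o => Option.rec e₀ e o) ?g2 ?g3 ?g4
  case g1 => rintro (_ | l); exacts [hA, hP l]
  case g2 =>
    rintro (_ | l)
    · exact locH_ext hA hi' fun a => k0 a a.2
    · have := hj.comp (IsOpenEmbedding.sigmaMk (σ := fun l => P0 l) (i := l))
      exact locH_ext (hP l) this fun q => k1 l q q.2
  case g3 =>
    intro y
    rcases i4 y with h | ⟨l, h⟩
    exacts [⟨none, h⟩, ⟨some l, h⟩]
  case g4 =>
    rintro (_ | l) (_ | l') v hv w hw h
    · exact ⟨id, contMDiffAt_id, i0 hv hw h, Eventually.of_forall fun _ => rfl⟩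
    · obtain ⟨h1, h2⟩ := (i3 l' v hv w hw).1 h
      refine ⟨J l', (hJ l' v h1).contMDiffAt, h2, ?_⟩
      filter_upwards [(hT l').mem_nhds h1] with u hu
      exact ((i3 l' u (hTA _ hu) _ (hm _ hu)).2 ⟨hu, rfl⟩).symm
    · obtain ⟨h1, rfl⟩ := (i3 l w hw v hv).1 h.symm
      have h2 := hJ l w h1
      have h3 := h2.localInverse_left_inv h2.localInverse_mem_target
      refine ⟨h2.localInverse, h2.localInverse_contMDiffAt, h3, ?_⟩
      filter_upwards [h2.localInverse_eventuallyEq_right, (hP l).mem_nhds hv,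
        h2.localInverse_contMDiffAt.continuousAt ((hT l).mem_nhds (h3.symm ▸ h1))] with u a1 a2 a3
      exact (i3 l _ (hTA _ a3) u a2).2 ⟨a3, a1⟩
    · obtain rfl := i2 l l' v hv w hw h
      exact ⟨id, contMDiffAt_id, i1 l hv hw h, Eventually.of_forall fun _ => rfl⟩
  obtain ⟨C, hM, hL⟩ := G
  refine ⟨Y, inferInstance, C, e₀, e, hM, t2_of_glue hi' hj hy ?_, ?_, hL none,
    fun l => hL (some l), i0, i1, i4, i3, i2⟩
  · refine isOpen_compl_iff.1 (isOpen_iff_mem_nhds.2 ?_)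
    rintro ⟨a, l, q⟩ h
    have h1 : Disjoint (map (J l) (𝓝[T l] a)) (𝓝 q.1) := by
      by_cases h2 : a.1 ∈ T l
      · exact (disjoint_nhds_nhds.2 fun e => h ((hR _ _).2 ⟨h2, e⟩)).mono_left
          (hJ l a h2).contMDiffAt.continuousAt.continuousWithinAt
      · exact hc l a a.2 h2 q q.2
    obtain ⟨s, hs, t, ht, h2⟩ := Filter.disjoint_iff.1 h1
    refine mem_nhds_prod_iff.2 ⟨_, continuous_subtype_val.continuousAt
      (eventually_nhdsWithin_iff.1 hs), _, IsOpenEmbedding.sigmaMk.isOpenMap.image_mem_nhds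
      (continuous_subtype_val.continuousAt ht), ?_⟩
    rintro ⟨a', _⟩ ⟨h3, q', h4, rfl⟩ h5
    obtain ⟨h6, h7⟩ := (hR _ _).1 h5
    exact Set.disjoint_left.1 h2 (h3 h6) (h7 ▸ h4)
  · have h1 := hi'.isEmbedding.toHomeomorph.symm.secondCountableTopology
    have h2 := hj.isEmbedding.toHomeomorph.symm.secondCountableTopology
    have : ∀ b : Bool, SecondCountableTopology (cond b (range i) (range j) :) := by
      rintro (_ | _) <;> assumption
    refine TopologicalSpace.secondCountableTopology_of_countable_cover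
      (U := fun b : Bool => cond b (range i) (range j)) ?_ (eq_univ_of_forall fun y => ?_)
    · rintro (_ | _); exacts [hj.isOpen_range, hi'.isOpen_range]
    · rcases hy y with h | h
      exacts [mem_iUnion_of_mem true h, mem_iUnion_of_mem false h]

variable {n : ℕ}

/-- A connected component as a manifold. -/
theorem exists_piece {E : Type} [TopologicalSpace E] [ChartedSpace (Euc n) E]
    [IsManifold (𝓡 n) ∞ E] [T2Space E] (z : E) [SecondCountableTopology (connectedComponent z)] :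
    ∃ (Y : Mfd n) (i : Y.M → E), IsOpenEmbedding i ∧ range i = connectedComponent z ∧
      ∀ y, LD (Euc n) i y := by
  have := ChartedSpace.locallyConnectedSpace (Euc n) E
  have h := (isOpen_connectedComponent (x := z)).isOpenEmbedding_subtypeVal
  obtain ⟨_, _, h1⟩ := exists_pull (V := Euc n) h.isLocalHomeomorph
  have := Subtype.connectedSpace (isConnected_connectedComponent (x := z))
  exact ⟨⟨connectedComponent z⟩, Subtype.val, h, Subtype.range_val, h1⟩

/-- A connected component of a covering as a covering manifold. -/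
theorem exists_cover {X : Mfd n} {E : Type} [TopologicalSpace E] [ChartedSpace (Euc n) E]
    [IsManifold (𝓡 n) ∞ E] {p : E → X.M} (cov : IsCoveringMap p) (hp : ∀ e, LD (Euc n) p e)
    (z : E) : ∃ (C : Cover X) (i : C.Y.M → E), IsOpenEmbedding i ∧
      range i = connectedComponent z ∧ (∀ y, LD (Euc n) i y) ∧ C.p = p ∘ i := by
  have := ChartedSpace.locallyConnectedSpace (Euc n) X.M
  have := t2_of_cov cov
  have := Subtype.connectedSpace (isConnected_connectedComponent (x := z))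
  have := sc_of_cov (cov_component cov z)
  obtain ⟨Y, i, h1, h2, h3⟩ := exists_piece (n := n) z
  let H : Y.M ≃ₜ connectedComponent z := h1.isEmbedding.toHomeomorph.trans (.setCongr h2)
  exact ⟨⟨Y, p ∘ i, (cov_component cov z).comp_homeomorph H, fun y => (h3 y).cmp (hp _)⟩, i, h1,
    h2, h3, rfl⟩

end Mf

end Pool.Agent.Lib.MP_029589_gt
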