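import Pool.Agent.Lib.MP_029589_gt.Hat
import Pool.Agent.Lib.MP_029589_gt.Col

/-! Exactness of the Pontryagin forms for framed manifolds and for the example. -/

set_option autoImplicit false

open scoped Manifold ContDiff Topology Matrix
open Set Filter Function

namespace Pool.Agent.Lib.MP_029589_gt

variable {n : ℕ} {κ κ' κ'' : Type}

/-- The product of a form and a real matrix. -/
noncomputable def sc (x : Lm n) (J : Matrix κ κ' ℝ) : Matrix κ κ' (Lm n) := J.map fun c => c • x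

lemma sc_mul [Fintype κ'] (x y : Lm n) (J : Matrix κ κ' ℝ) (J' : Matrix κ' κ'' ℝ) :
    sc x J * sc y J' = sc (x * y) (J * J') := by
  ext i j
  simp [sc, Matrix.mul_apply, Finset.sum_smul, smul_smul, mul_comm]

@[simp] lemma sc_zero (J : Matrix κ κ' ℝ) : sc (0 : Lm n) J = 0 := by
  ext i j; simp [sc]

lemma two_sq (v w : Fin n → ℝ) : cov1 v * cov1 w * (cov1 v * cov1 w) = 0 := by
  rw [mul_assoc, io_mul w, map_mul, iv_io, iv_io, neg_mul_neg, mul_assoc,
    ExteriorAlgebra.ι_sq_zero, mul_zero, mul_zero]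

lemma rm_eq (A : Matrix κ κ' ℝ) : rm n A = sc 1 A :=
  Matrix.ext fun i j => Algebra.algebraMap_eq_smul_one (A i j)

lemma df_comp {M : Type} [TopologicalSpace M] [ChartedSpace (Euc n) M] {a : M → ℝ} {y : M}
    (ha : Sm n a y) {φ : ℝ → ℝ} {c : ℝ} (h : HasDerivAt φ c (a y)) :
    df n (fun w => φ (a w)) y = c • df n a y := by
  rw [df, df, ← map_smul, show md _ _ (fun w => φ (a w)) y = _ from md_clm_comp
    (ha.self_of_nhds.mdifferentiableAt (by simp)) h.differentiableAt, h.hasFDerivAt.fderiv]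
  congr 1
  ext i
  simp [row, mul_comm]

variable {W : Type} [NormedAddCommGroup W] [NormedSpace ℝ W]

/-- The matrix of a linear map with respect to a basis of the target. -/
noncomputable def mb (b : Module.Basis κ ℝ W) (T : Euc n →L[ℝ] W) : Matrix κ (Fin n) ℝ :=
  .of fun i j => b.repr (T (eb j)) i

lemma mb_mulVec (b : Module.Basis κ ℝ W) (T : Euc n →L[ℝ] W) (v : Euc n) :
    mb b T *ᵥ v = b.repr (T v) := by
  ext i
  simp [mb, Matrix.mulVec, dotProduct, clm_sum T v, mul_comm]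

lemma mb_comp (b : Module.Basis κ ℝ W) (T : Euc n →L[ℝ] W) (S : Euc n →L[ℝ] Euc n) :
    mb b (T.comp S) = mb b T * mat S :=
  Matrix.ext fun i j => (congrFun (mb_mulVec b T (S (eb j))) i).symm

variable [FiniteDimensional ℝ W] {X : Mfd n} [Fintype κ] [DecidableEq κ]

theorem tri_fr (b : Module.Basis (Fin n ⊕ κ) ℝ W) {θ : X.M → Euc n →L[ℝ] W}
    (hθ : ∀ a, ∃ B : X.M → Euc n →L[ℝ] W, ∀ᶠ y in 𝓝 a,
      ContMDiffAt (𝓡 n) 𝓘(ℝ, Euc n →L[ℝ] W) ∞ B y ∧
        θ y = (B y).comp (md (Euc n) (Euc n) (chartAt (Euc n) a) y))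
    {ν : X.M → X.M → Matrix (Fin n ⊕ κ) κ ℝ} {ψ Ψ : X.M → X.M → Matrix κ κ (Lm n)}
    (h : ∀ y, SmM n (ν y) y ∧ (∀ v c, b.repr (θ y v) + ν y y *ᵥ c = 0 → v = 0 ∧ c = 0) ∧
      One y (ψ y) (Ψ y) ∧ Ψ y y ^ 2 = 0 ∧ ∀ᶠ z in 𝓝 y, ∃ A, SmM n A z ∧ IsUnit (A z) ∧
        Gau z A (ψ y) (ψ z) ∧ ∀ᶠ w in 𝓝 z, ν z w = ν y w * A w) : Tri X := fun g m => by
  choose B hB using hθ
  let S := fun y w => Matrix.fromCols (mb b (B y w)) (ν y w)
  have h1 : ∀ y, SmM n (S y) y := by
    rintro y i (j | j)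
    · exact (hB y).mono fun z hz => ((b.coord i).toContinuousLinearMap.contDiff.comp
        (contDiff_id.clm_apply contDiff_const)).contMDiff.contMDiffAt.comp z hz.1
    · exact (h y).1 i j
  have h2 : ∀ y, IsUnit (S y y) := fun y => Matrix.mulVec_injective_iff_isUnit.1
    ((injective_iff_map_eq_zero (S y y).mulVecLin).2 fun v hv => by
      have e := (hB y).self_of_nhds.2
      rw [show md _ _ (chartAt (Euc n) y) y = _ from md_chart_self y] at e
      obtain ⟨a1, a2⟩ := (h y).2.1 (WithLp.toLp 2 (v ∘ Sum.inl)) (v ∘ Sum.inr) (by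
        rw [← mb_mulVec, e]
        exact (Matrix.fromCols_mulVec _ _ _).symm.trans hv)
      ext (i | i)
      exacts [congrFun (congrArg WithLp.ofLp a1) i, congrFun a2 i])
  have c := fun y => co_chart (mem_chart_source (Euc n) y) (M := X.M)
  have := compare g (θ := fun y => frc n (S y)) (fun y => ⟨c y, (h y).2.2.1, One.fr (h1 y) (h2 y), by
    filter_upwards [(h y).2.2.2.2, (h1 y).ev, (c y).ev, (hB y).eventually_nhds]
      with z ⟨A, a1, a2, a3, a4⟩ b1 b2 b3
    refine ⟨A, a1, a2, a3, Gau.fr b1 (((c z).sm b2.1).bk a1) (h2 z) ?_⟩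
    filter_upwards [a4, b3, hB z, (c z).ev] with w c1 c2 c3 c4
    simp only [S, bk, Matrix.fromCols_mul_fromBlocks, Matrix.mul_zero, add_zero, zero_add, c1]
    rw [tj, ← Matrix.mul_assoc, jm, ← mb_comp, ← c2.2, c3.2, mb_comp, Matrix.mul_assoc, ← jm,
      mul_inv' c4.unit, Matrix.mul_one]⟩) (2 * (m + 1))
  simpa [pow_mul, (h _).2.2.2.1] using this

theorem Framed.tri {θ : X.M → Euc n →L[ℝ] W} {ν : X.M → W} (hW : Module.finrank ℝ W = n + 1)
    (h : Framed W X θ ν) : Tri X := by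
  let b := (Module.finBasisOfFinrankEq ℝ W hW).reindex (finSuccEquivLast.trans
    (Equiv.optionEquivSumPUnit.{0} _))
  refine tri_fr b h.2.1 (ν := fun _ w => .of fun i _ => b.repr (ν w) i) (ψ := fun _ _ => 0)
    (Ψ := fun _ _ => 0) fun y => ⟨fun i _ => .of_forall fun z =>
      (b.coord i).toContinuousLinearMap.contDiff.contMDiff.contMDiffAt.comp z (h.1 z),
      fun v c e => ?_, One.zero, by simp, .of_forall fun z => ⟨fun _ => 1, SmM.const _ _,
        isUnit_one, .of_forall fun w => by simp [dm_const], .of_forall fun w => by simp⟩⟩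
  refine (h.2.2 y v (c ()) (b.ext_elem fun i => ?_)).imp_right fun e => funext fun _ => e
  simpa [Matrix.mulVec, dotProduct, mul_comm] using congrFun e i

/-- Local lifts to the group. -/
noncomputable def lf0 (y w : (XX ⊤).M) : ZT := qi (⊤ : Subgroup Gam) (Quotient.out y) w

lemma lf0_loc (y : (XX ⊤).M) : ∀ᶠ z in 𝓝 y, SmF 23 23 (lf0 y) z ∧
    qm (⊤ : Subgroup Gam) (lf0 y z) = z ∧ ∃ a : Gam, ∀ᶠ w in 𝓝 z, lf0 z w = a • lf0 y w := by
  have h0 : ∀ y : (XX ⊤).M, y ∈ (qi (⊤ : Subgroup Gam) (Quotient.out y : ZT)).source := fun y =>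
    mem_of_eq_of_mem (Quotient.out_eq y).symm (IsLocalHomeomorph.apply_self_mem_localInverseAt_source _)
  have h1 := (qi (⊤ : Subgroup Gam) (Quotient.out y : ZT)).open_source.eventually_mem (h0 y)
  have h2 : ∀ᶠ z in 𝓝 y, qm (⊤ : Subgroup Gam) (lf0 y z) = z :=
    h1.mono fun z => IsLocalHomeomorph.apply_localInverseAt_of_mem _
  have h3 : SmF 23 23 (lf0 y) y := (h1.and h2).mono fun z h =>
    h.2 ▸ (ldZ ⊤ _).desc (qi_qm (smZ ⊤) (mem_of_eq_of_mem h.2 h.1))
  filter_upwards [h3.ev, h2.eventually_nhds] with z a b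
  obtain ⟨g, hg⟩ := qi_loc (mem_of_eq_of_mem b.self_of_nhds (h0 z))
  exact ⟨a, b.self_of_nhds, g.1, (b.and (a.cont.eventually hg)).mono fun w h => by
    rw [lf0, ← h.1]; exact h.2.trans (by rw [h.1]; rfl)⟩

lemma contDiff_Lam : ContDiff ℝ ∞ Lam := contDiff_clm_apply_iff.2 fun _ => contDiff_const.add
  (contDiff_Bl.comp (contDiff_id.prodMk contDiff_const))

lemma ds_smul (a : Gam) (z : ZT) (u : NN) : fderiv ℝ ss (a • z.1) (Lam (a • z.1) u) =
    ee (-(a.val.1.2 * z.1.1.1)) * fderiv ℝ ss z.1 (Lam z.1 u) := by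
  have h1 := (contDiff_ss.differentiable (by simp) (a • z.1)).hasFDerivAt.comp z.1
    (hasFDerivAt_nmul a.val z.1)
  have h2 := fderiv_rho (ρ := fun p => ee (-(a.val.1.2 * p.1.1))) (p := z.1)
    ((contDiff_ee.differentiable (by simp) _).comp _ (by fun_prop)) z.2
  rw [Gam.smul_def, Lam_nmul, ← Lam_Lam]
  exact DFunLike.congr_fun (h1.unique (h2.congr_of_eventuallyEq (.of_forall (ss_smul a)))) _

theorem tri_XX : Tri (XX ⊤) := by
  let b : Module.Basis (Fin 23 ⊕ Fin 2) ℝ NN :=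
    (Module.finBasisOfFinrankEq ℝ NN (by simp [Module.finrank_prod])).reindex finSumFinEquiv.symm
  let P := fun y w => (lf0 y w).1
  have hP : ∀ y, ∀ᶠ z in 𝓝 y, ContMDiffAt (𝓡 23) 𝓘(ℝ, NN) ∞ (P y) z := fun y =>
    (lf0_loc y).mono fun z h => (LS.contMDiff_val _).comp z h.1.self_of_nhds
  have hs : ∀ y {f : NN → ℝ}, ContDiff ℝ ∞ f → Sm 23 (fun w => f (P y w)) y := fun y f h =>
    (hP y).mono fun z hz => h.contMDiff.contMDiffAt.comp z hz
  let D := fun (p u : NN) => fderiv ℝ ss p (Lam p u)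
  have hD : ∀ u, ContDiff ℝ ∞ fun p => D p u := fun u =>
    (contDiff_ss.fderiv_right le_rfl).clm_apply (contDiff_Lam.clm_apply contDiff_const)
  let J : Matrix (Fin 2) (Fin 2) ℝ := !![0, 1; -1, 0]
  let x := fun y w => (P y w).1.1
  let f := fun y w => -(2 * Real.pi) * (P y w).1.2
  have hx : ∀ y, Sm 23 (x y) y := fun y => hs y (f := fun p => p.1.1) (by fun_prop)
  refine tri_fr b (θ := fun y => (Lam (-P y y)).comp (md (Euc 23) NN (P y) y)) (fun a =>
    ⟨fun w => (Lam (-P a w)).comp (fderiv ℝ (P a ∘ (chartAt (Euc 23) a).symm)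
      (chartAt (Euc 23) a w)), ?_⟩) (ν := fun y w => .of fun i => ![(D (P y w) (b i)).re,
      (D (P y w) (b i)).im]) (ψ := fun y w => sc (f y w • df 23 (x y) w) J)
    (Ψ := fun y w => sc (df 23 (f y) w * df 23 (x y) w) J) fun y => ⟨fun i j => ?_, fun v c e => ?_,
      ⟨fun i j => ?_, .of_forall fun z i j => Submodule.smul_mem _ _ (Submodule.smul_mem _ _
        (LinearMap.mem_range_self _ _))⟩, ?_, ?_⟩
  · filter_upwards [hP a, lf0_loc a, chart_source_mem_nhds (Euc 23) a] with z a1 ⟨_, _, γ, a2⟩ a3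
    refine ⟨((contDiff_Lam.comp contDiff_neg).contMDiff.contMDiffAt.comp z a1).clm_comp
      (((sm_chart a1 a3).fderiv_right le_rfl).contMDiffAt.comp z (cm_chart a3)), ?_⟩
    have e : P z =ᶠ[𝓝 z] nmul γ.val ∘ P a := a2.mono fun w h => congrArg Subtype.val h
    rw [md_congr e, e.self_of_nhds, md_clm_comp (a1.mdifferentiableAt (by simp))
      (hasFDerivAt_nmul _ _).differentiableAt, (hasFDerivAt_nmul _ _).fderiv, md_chart a1 a3]
    ext1 v
    simp [Lam_apply, nmul, Bl_add_left, Bl_add_right, Bl_neg_left]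
    abel
  · fin_cases j
    exacts [hs y (Complex.reCLM.contDiff.comp (hD _)), hs y (Complex.imCLM.contDiff.comp (hD _))]
  · obtain ⟨a1, a2, -⟩ := (lf0_loc y).eventually_nhds.self_of_nhds.self_of_nhds
    have h1 : md (Euc 23) NN (P y) y v = LS.tan (lf0 y y) (md (Euc 23) (Euc 23) (lf0 y) y v) :=
      DFunLike.congr_fun (md_comp (LS.mdiff_val _) a1.mdiff) v
    have h2 : ∀ u, b.repr u ⬝ᵥ (Matrix.of fun i => ![(D (P y y) (b i)).re,
        (D (P y y) (b i)).im]) *ᵥ c = (D (P y y) u).re * c 0 + (D (P y y) u).im * c 1 := fun u => by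
      conv_rhs => rw [← b.sum_repr u]
      simp [D, Matrix.mulVec, dotProduct, Finset.sum_mul, ← Finset.sum_add_distrib, mul_add,
        mul_assoc, -Fintype.sum_sum_type, -Module.Basis.sum_repr]
    have h3 := h2 (((Lam (-P y y)).comp (md (Euc 23) NN (P y) y)) v)
    rw [← neg_eq_of_add_eq_zero_right e, dotProduct_neg, show D _ _ = 0 by
      simp only [D, ContinuousLinearMap.comp_apply, Lam_Lam, add_neg_cancel, Lam_zero, h1]
      exact (LS.amb_tan (lf0 y y) _).2] at h3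
    have h4 : ((Lam (-P y y)).comp (md (Euc 23) NN (P y) y)) v = 0 := by simpa using h3
    rw [h4, map_zero] at e
    obtain ⟨u, hu⟩ := ss_regular (lf0 y y).eq ⟨c 0, c 1⟩
    have h5 := h2 (Lam (-P y y) u)
    rw [show _ *ᵥ c = 0 by simpa using e, dotProduct_zero, show D _ _ = ⟨c 0, c 1⟩ by
      simpa [D, Lam_Lam] using hu] at h5
    refine ⟨?_, funext fun i => by fin_cases i <;> simp <;> nlinarith⟩
    have h6 := congrArg (fun u => (DD.sl (lf0 y y)).L (Lam (P y y) u)) h4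
    simp only [ContinuousLinearMap.comp_apply, Lam_Lam, add_neg_cancel, Lam_zero, h1,
      (LS.amb_tan _ _).1, map_zero] at h6
    have h7 := (md_id y).symm.trans ((md_congr (f := qm (⊤ : Subgroup Gam) ∘ lf0 y) (g := id)
      ((lf0_loc y).mono fun _ h => h.2.1)).symm.trans (md_comp (ldZ ⊤ (lf0 y y)).mdiff a1.mdiff))
    exact (DFunLike.congr_fun h7 v).trans ((congrArg (md (Euc 23) (Euc 23)
      (qm (⊤ : Subgroup Gam)) (lf0 y y)) h6).trans (map_zero _))
  · exact (((HD.df (hx y)).fsmul (hs y (f := fun p => -(2 * Real.pi) * p.1.2) (by fun_prop))).smul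
      (J i j)).cg (fun _ => rfl) fun z => by
        simp only [sc_mul, smul_mul_smul_comm, df, ExteriorAlgebra.ι_sq_zero, smul_zero, sc_zero,
          sub_zero, Pi.smul_apply, Pi.zero_apply, add_zero]
        rfl
  · rw [sq, sc_mul, df, df, two_sq, sc_zero]
  · filter_upwards [lf0_loc y, (hx y).ev, (hP y).eventually_nhds] with z ⟨_, _, γ, a2⟩ a3 a4
    have e : ∀ᶠ w in 𝓝 z, P z w = γ • P y w := a2.mono fun w h => congrArg Subtype.val h
    let t := fun w => 2 * Real.pi * -(γ.val.1.2 * x y w)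
    have s1 : ∀ {φ : ℝ → ℝ}, ContDiff ℝ ∞ φ → Sm 23 (fun w => φ (x y w)) z := fun h =>
      a3.mono fun w hw => h.contMDiff.contMDiffAt.comp w hw
    refine ⟨fun w => !![Real.cos (t w), Real.sin (t w); -Real.sin (t w), Real.cos (t w)],
      fun i j => ?_, (Matrix.isUnit_iff_isUnit_det _).2 (by simp [← sq]), ?_,
      e.mono fun w h => ?_⟩
    · fin_cases i <;> fin_cases j
      exacts [s1 (φ := fun s => Real.cos (2 * Real.pi * -(γ.val.1.2 * s))) (by fun_prop),
        s1 (φ := fun s => Real.sin (2 * Real.pi * -(γ.val.1.2 * s))) (by fun_prop),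
        s1 (φ := fun s => -Real.sin (2 * Real.pi * -(γ.val.1.2 * s))) (by fun_prop),
        s1 (φ := fun s => Real.cos (2 * Real.pi * -(γ.val.1.2 * s))) (by fun_prop)]
    · filter_upwards [e.eventually_nhds, a3.ev] with w b1 b2
      have d := (((hasDerivAt_id' (x y w)).const_mul γ.val.1.2).fun_neg.const_mul (2 * Real.pi))
      have d1 := df_comp b2 d.cos
      have d2 := df_comp b2 d.sin
      have d3 := df_comp b2 d.sin.fun_neg
      have d4 := df_comp b2 ((hasDerivAt_id' (x y w)).const_add γ.val.1.1)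
      simp only [f, b1.self_of_nhds, rm_eq, sc_mul, Gam.smul_def, nmul_x]
      rw [df_congr (a := x z) (b := fun v => γ.val.1.1 + x y v)
        (b1.mono fun v h => by simp only [x, h, Gam.smul_def, nmul_x]; rfl), d4]
      ext i j
      fin_cases i <;> fin_cases j <;> simp [sc, dm, J, t] at d1 d2 d3 ⊢ <;>
        simp only [d1, d2, d3] <;> module
    · ext i j
      simp only [Matrix.of_apply, h, D, ds_smul γ (lf0 y w), P]
      fin_cases j <;> simp [Matrix.mul_apply, ee_re, ee_im, t, x, P] <;> ring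

end Pool.Agent.Lib.MP_029589_gt
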