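import Pool.Agent.Lib.MP_029589_gt.Nil

/-! Every map from the zero set lifts through every covering. -/

set_option autoImplicit false

open Set Filter Topology Real Function
open scoped unitInterval

namespace Pool.Agent.Lib.MP_029589_gt

section Generic

variable {A E X : Type} [TopologicalSpace A] [TopologicalSpace E] [TopologicalSpace X]
  {p : E → X} {φ : A → X} {S T : Set A}

/-- The map `φ` lifts on `S` with any initial value. -/
def Triv (p : E → X) (φ : A → X) (S : Set A) : Prop :=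
  ∀ a ∈ S, ∀ e, p e = φ a → ∃ l : A → E, ContinuousOn l S ∧ (∀ z ∈ S, p (l z) = φ z) ∧ l a = e

lemma preconn_of_contr {H : ℝ × A → A} (hH : Continuous H)
    (hS : ∀ t ∈ Icc (0 : ℝ) 1, ∀ z ∈ S, H (t, z) ∈ S) (h1 : ∀ z ∈ S, H (1, z) = z) {a0 : A}
    (h0 : ∀ z, H (0, z) = a0) : IsPreconnected S := by
  refine isPreconnected_of_forall a0 fun z hz => ⟨(fun t => H (t, z)) '' Icc 0 1, ?_, ?_, ?_, ?_⟩
  · rintro _ ⟨t, ht, rfl⟩
    exact hS t ht z hz
  · exact ⟨0, by simp, h0 z⟩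
  · exact ⟨1, by simp, h1 z hz⟩
  · exact isPreconnected_Icc.image _ (by fun_prop)

lemma triv_of_contr (cov : IsCoveringMap p) (hφ : ContinuousOn φ S) {H : ℝ × A → A}
    (hH : Continuous H) (hS : ∀ t ∈ Icc (0 : ℝ) 1, ∀ z ∈ S, H (t, z) ∈ S)
    (h1 : ∀ z ∈ S, H (1, z) = z) {a0 : A} (h0 : ∀ z, H (0, z) = a0) : Triv p φ S := by
  classical
  intro a ha e he
  let G : C(I × S, X) := ⟨fun x => φ (H (x.1, x.2)),
    hφ.comp_continuous (by fun_prop) fun x => hS _ x.1.2 _ x.2.2⟩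
  let γ : C(I, X) := G.comp ⟨fun t => (σ t, ⟨a, ha⟩), by fun_prop⟩
  have hγ : γ 0 = p e := by simp [γ, G, h1 a ha, he]
  let Γ := cov.liftPath γ e hγ
  have hΓ : ∀ t, p (Γ t) = γ t := congrFun (cov.liftPath_lifts γ e hγ)
  have hG : ∀ z : S, G (0, z) = p (ContinuousMap.const S (Γ 1) z) := fun z => by
    simp [hΓ, γ, G, h0]
  let L := cov.liftHomotopy G (.const S (Γ 1)) hG
  have hL : ∀ x, p (L x) = G x := congrFun (cov.liftHomotopy_lifts G _ hG)
  refine ⟨fun z => if h : z ∈ S then L (1, ⟨z, h⟩) else e, ?_, fun z hz => ?_, ?_⟩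
  · rw [continuousOn_iff_continuous_domRestrict]
    have : Continuous fun z : S => L (1, z) := by fun_prop
    exact this.congr fun z => by simp
  · simp [hz, hL, G, h1 z hz]
  · have := cov.eq_of_comp_eq (g₁ := fun t : I => L (t, ⟨a, ha⟩)) (g₂ := fun t : I => Γ (σ t))
      (by fun_prop) (by fun_prop) (funext fun t => by simp [hL, hΓ, γ]) 0
      (by rw [unitInterval.symm_zero]; exact cov.liftHomotopy_zero G _ hG _)
    simp only [ha, dif_pos, congrFun this 1, unitInterval.symm_one]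
    exact cov.liftPath_zero ..

lemma Triv.union (cov : IsCoveringMap p) (hS : IsClosed S) (hT : IsClosed T) (h1 : Triv p φ S)
    (h2 : Triv p φ T) (hc : IsPreconnected (S ∩ T)) (hn : (S ∩ T).Nonempty) :
    Triv p φ (S ∪ T) := by
  classical
  intro a ha e he
  wlog haS : a ∈ S generalizing S T
  · rw [union_comm]
    exact this hT hS h2 h1 (by rwa [inter_comm]) (by rwa [inter_comm]) ha.symm
      (ha.resolve_left haS)
  obtain ⟨l1, c1, p1, e1⟩ := h1 a haS e he
  obtain ⟨m, hm⟩ := hn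
  obtain ⟨l2, c2, p2, e2⟩ := h2 m hm.2 (l1 m) (p1 m hm.1)
  have h3 : EqOn l1 l2 (S ∩ T) := cov.eqOn_of_comp_eqOn hc (c1.mono inter_subset_left)
    (c2.mono inter_subset_right) (fun z hz => (p1 z hz.1).trans (p2 z hz.2).symm) hm e2.symm
  have h4 : EqOn (S.piecewise l1 l2) l2 T := fun z hz => by
    by_cases h : z ∈ S
    · rw [piecewise_eq_of_mem _ _ _ h, h3 ⟨h, hz⟩]
    · rw [piecewise_eq_of_notMem _ _ _ h]
  refine ⟨S.piecewise l1 l2, ?_, fun z hz => ?_, by rw [piecewise_eq_of_mem _ _ _ haS, e1]⟩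
  · exact (c1.congr (piecewise_eqOn _ _ _)).union_of_isClosed (c2.congr h4) hS hT
  · rcases hz with h | h
    · rw [piecewise_eq_of_mem _ _ _ h, p1 z h]
    · rw [h4 h, p2 z h]

lemma triv_of_mono (cov : IsCoveringMap p) {U : ℕ → Set A} (hm : Monotone U)
    (hs : ∀ n, U n ⊆ S) (h1 : ∀ n, Triv p φ (U n)) (hc : ∀ n, IsPreconnected (U n))
    (hn : ∀ z ∈ S, ∃ n, U n ∈ 𝓝[S] z) : Triv p φ S := by
  classical
  intro a ha e he
  choose! N hN using hn
  have hN' : ∀ z ∈ S, ∀ n, z ∈ U (max n (N z)) := fun z hz n =>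
    hm (le_max_right _ _) (mem_of_mem_nhdsWithin hz (hN z hz))
  choose l c q e' using fun n => h1 (max n (N a)) a (hN' a ha n) e he
  have h2 : ∀ n k, n ≤ k → EqOn (l n) (l k) (U (max n (N a))) := fun n k h =>
    cov.eqOn_of_comp_eqOn (hc _) (c n) ((c k).mono (hm (max_le_max_right _ h)))
      (fun z hz => (q n z hz).trans (q k z (hm (max_le_max_right _ h) hz)).symm) (hN' a ha n)
      ((e' n).trans (e' k).symm)
  have h3 : ∀ z ∈ S, z ∈ U (max (N z) (N a)) := fun z hz =>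
    hm (le_max_left _ _) (mem_of_mem_nhdsWithin hz (hN z hz))
  have h4 : ∀ n, EqOn (fun z => l (N z) z) (l n) (U n) := fun n z hz => by
    rcases le_total (N z) n with h | h
    · exact h2 _ _ h (h3 z (hs n hz))
    · exact (h2 _ _ h (hm (le_max_left _ _) hz)).symm
  refine ⟨fun z => l (N z) z, fun z hz => ?_, fun z hz => q _ z (h3 z hz), e' _⟩
  have h5 := mem_of_mem_nhdsWithin hz (hN z hz)
  exact ((((c (N z)).mono (hm (le_max_left _ _))).congr (h4 _)) z h5).mono_of_mem_nhdsWithin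
    (hN z hz)

lemma unfold_one (cov : IsCoveringMap p) (hS : IsClosed S) {t : A → ℝ} (ht : Continuous t)
    (b : Prop) (h1 : ∀ k : ℤ, IsPreconnected (S ∩ t ⁻¹' Icc k (k + 1)) ∧
      (b → Triv p φ (S ∩ t ⁻¹' Icc k (k + 1))))
    (h2 : ∀ k : ℤ, (S ∩ t ⁻¹' {(k : ℝ)}).Nonempty ∧ (b → IsPreconnected (S ∩ t ⁻¹' {(k : ℝ)}))) :
    IsPreconnected S ∧ (b → Triv p φ S) := by
  have hcl : ∀ u v : ℝ, IsClosed (S ∩ t ⁻¹' Icc u v) := fun u v =>
    hS.inter (isClosed_Icc.preimage ht)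
  have h3 : ∀ (a : ℤ) (n : ℕ), IsPreconnected (S ∩ t ⁻¹' Icc a (a + n + 1)) ∧
      (b → Triv p φ (S ∩ t ⁻¹' Icc a (a + n + 1))) := by
    intro a n
    induction n with
    | zero => simpa using h1 a
    | succ n ih =>
      have hn : (0 : ℝ) ≤ n := n.cast_nonneg
      have e0 : ((a + n + 1 : ℤ) : ℝ) = a + n + 1 := by push_cast; rfl
      have e1 : S ∩ t ⁻¹' Icc a (a + (n + 1 : ℕ) + 1) =
          S ∩ t ⁻¹' Icc a (a + n + 1) ∪ S ∩ t ⁻¹' Icc (a + n + 1) (a + n + 1 + 1) := by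
        rw [← inter_union_distrib_left, ← preimage_union,
          Icc_union_Icc_eq_Icc (by linarith) (by linarith)]
        push_cast
        rw [← add_assoc]
      have e2 : S ∩ t ⁻¹' Icc a (a + n + 1) ∩ (S ∩ t ⁻¹' Icc (a + n + 1) (a + n + 1 + 1)) =
          S ∩ t ⁻¹' {(a + n + 1 : ℝ)} := by
        rw [← inter_inter_distrib_left, ← preimage_inter,
          Icc_inter_Icc_eq_singleton (by linarith) (by linarith)]
      have a1 := h1 (a + n + 1)
      have a2 := h2 (a + n + 1)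
      rw [e0] at a1 a2
      rw [← e2] at a2
      rw [e1]
      exact ⟨ih.1.union' a2.1 a1.1, fun hb =>
        (ih.2 hb).union cov (hcl _ _) (hcl _ _) (a1.2 hb) (a2.2 hb) a2.1⟩
  let U : ℕ → Set A := fun n => S ∩ t ⁻¹' Icc (-n) (n + 1)
  have h4 : ∀ n, IsPreconnected (U n) ∧ (b → Triv p φ (U n)) := fun n => by
    have := h3 (-n) (2 * n)
    have e : ((-n : ℤ) : ℝ) + (2 * n : ℕ) + 1 = n + 1 := by push_cast; ring
    rw [e] at this
    simpa using this
  have hm : Monotone U := fun n k h => inter_subset_inter_right _ (preimage_mono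
    (Icc_subset_Icc (by simpa using h) (by simpa using h)))
  have hn : ∀ z ∈ S, ∃ n, U n ∈ 𝓝[S] z := fun z _ => by
    obtain ⟨n, hn⟩ := exists_nat_gt |t z|
    rw [abs_lt] at hn
    exact ⟨n, inter_mem_nhdsWithin _ (ht.continuousAt.preimage_mem_nhds
      (Icc_mem_nhds hn.1 (by linarith)))⟩
  refine ⟨isPreconnected_of_forall_pair fun x hx y hy => ?_, fun hb =>
    triv_of_mono cov hm (fun _ => inter_subset_left) (fun n => (h4 n).2 hb) (fun n => (h4 n).1) hn⟩
  obtain ⟨n, h⟩ := hn x hx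
  obtain ⟨k, h'⟩ := hn y hy
  exact ⟨U (max n k), inter_subset_left, hm (le_max_left _ _) (mem_of_mem_nhdsWithin hx h),
    hm (le_max_right _ _) (mem_of_mem_nhdsWithin hy h'), (h4 _).1⟩

end Generic

/-- Cells of the unfolding. -/
def cell (F : Finset Ix) (j : Ix → ℤ) (Q : Finset Ix) (a : Ix → ℤ) : Set NN :=
  {p | ss p = 0 ∧ (∀ l ∉ F, 2 * p.2.1 l ∈ Icc (j l : ℝ) (j l + 1)) ∧ ∀ l ∈ Q, 2 * p.2.1 l = a l}

lemma isClosed_cell (F : Finset Ix) (j : Ix → ℤ) (Q : Finset Ix) (a : Ix → ℤ) :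
    IsClosed (cell F j Q a) := by
  simp only [cell, ofPred_and, ofPred_forall]
  refine (isClosed_eq contDiff_ss.continuous continuous_const).inter (IsClosed.inter ?_ ?_)
  · exact isClosed_iInter fun l => isClosed_iInter fun _ =>
      isClosed_Icc.preimage (f := fun p : NN => 2 * p.2.1 l) (by fun_prop)
  · exact isClosed_iInter fun l => isClosed_iInter fun _ => isClosed_eq (by fun_prop) (by fun_prop)

lemma exists_hub {Q : Finset Ix} (hQ : Q.card ≤ 2) (c : Ix → ℝ) (hc : ∀ l, |c l| ≤ 1) :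
    ∃ t : Ix → ℝ, (∀ l, |t l| ≤ 1) ∧ (∀ j, ∑ i, t (j, i) = 0) ∧ ∀ l ∈ Q, t l = c l := by
  let B : Fin 4 → Finset (Fin 5) := fun j => Finset.univ.filter fun i => (j, i) ∈ Q
  have h1 : ∀ j, (B j).card ≤ 2 := fun j => le_trans (Finset.card_le_card_of_injOn
    (fun i => (j, i)) (fun i hi => by simpa [B] using hi) fun _ _ _ _ h => (Prod.ext_iff.1 h).2) hQ
  have h2 : ∀ j, (3 : ℝ) ≤ (B j)ᶜ.card := fun j => by
    have := h1 j
    have h3 : 3 ≤ (B j)ᶜ.card := by rw [Finset.card_compl, Fintype.card_fin]; omega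
    exact_mod_cast h3
  refine ⟨fun l => if l ∈ Q then c l else -(∑ i ∈ B l.1, c (l.1, i)) / (B l.1)ᶜ.card, fun l => ?_,
    fun j => ?_, fun l hl => if_pos hl⟩
  · by_cases h : l ∈ Q
    · simpa [h] using hc l
    · have h3 : |∑ i ∈ B l.1, c (l.1, i)| ≤ 2 := by
        refine (Finset.abs_sum_le_sum_abs _ _).trans
          ((Finset.sum_le_sum fun i _ => hc _).trans ?_)
        simpa using (Nat.cast_le (α := ℝ)).2 (h1 l.1)
      have := h2 l.1
      simp only [h, if_false]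
      rw [abs_div, abs_neg, Nat.abs_cast, div_le_one (by linarith)]
      linarith
  · rw [← Finset.sum_add_sum_compl (B j), Finset.sum_congr rfl (g := fun i => c (j, i)),
      Finset.sum_congr (s₁ := (B j)ᶜ) rfl (g := fun _ => -(∑ i ∈ B j, c (j, i)) / (B j)ᶜ.card)]
    · have := h2 j
      rw [Finset.sum_const, nsmul_eq_mul]
      field_simp
      ring
    · intro i hi
      exact if_neg (by simpa [B] using hi)
    · intro i hi
      exact if_pos (by simpa [B] using hi)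

/-- The inverse of the cosine on the interval number `j`. -/
noncomputable def unc (j : ℤ) (c : ℝ) : ℝ := (j + arccos (cos (j * π) * c) / π) / 2

lemma unc_mem (j : ℤ) (c : ℝ) : 2 * unc j c ∈ Icc (j : ℝ) (j + 1) := by
  have h1 := div_nonneg (arccos_nonneg (cos (j * π) * c)) pi_pos.le
  have h2 := (div_le_one pi_pos).2 (arccos_le_pi (cos (j * π) * c))
  constructor <;> simp only [unc] <;> linarith

lemma cos_unc (j : ℤ) {c : ℝ} (hc : |c| ≤ 1) : cos (2 * π * unc j c) = c := by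
  have h1 : 2 * π * unc j c = j * π + arccos (cos (j * π) * c) := by
    rw [unc]; field_simp
  have h2 : |cos (j * π) * c| ≤ 1 := by
    rw [abs_mul]; exact mul_le_one₀ (abs_cos_le_one _) (abs_nonneg _) hc
  have h3 := sin_sq_add_cos_sq (j * π)
  rw [abs_le] at h2
  rw [h1, cos_add, cos_arccos h2.1 h2.2, sin_int_mul_pi] at *
  linear_combination c * h3

lemma unc_cos {j : ℤ} {y : ℝ} (h : 2 * y ∈ Icc (j : ℝ) (j + 1)) : unc j (cos (2 * π * y)) = y := by
  have h1 : cos (j * π) * cos (2 * π * y) = cos ((2 * y - j) * π) := by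
    rw [sub_mul, cos_sub, sin_int_mul_pi]; ring_nf
  rw [unc, h1, arccos_cos (mul_nonneg (by linarith [h.1]) pi_pos.le)
    (mul_le_of_le_one_left pi_pos.le (by linarith [h.2]))]
  field_simp
  ring

lemma sf_smul (x : ℝ × ℝ) (b : ℝ) (c : Fin 4 → ℝ) : sf x (fun j => b * c j) = b * sf x c := by
  simp only [sf]; push_cast; ring

lemma cell_base {j a : Ix → ℤ} {Q : Finset Ix} (hQ : Q.card ≤ 2)
    (ha : ∀ l ∈ Q, (a l : ℝ) ∈ Icc (j l : ℝ) (j l + 1)) :
    ∃ (H : ℝ × NN → NN) (a0 : NN), Continuous H ∧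
      (∀ t ∈ Icc (0 : ℝ) 1, ∀ z ∈ cell ∅ j Q a, H (t, z) ∈ cell ∅ j Q a) ∧
      (∀ z ∈ cell ∅ j Q a, H (1, z) = z) ∧ (∀ z, H (0, z) = a0) ∧ a0 ∈ cell ∅ j Q a := by
  obtain ⟨T, h1, h2, h3⟩ := exists_hub hQ (fun l => cos (2 * π * (a l / 2))) fun l => abs_cos_le_one _
  let c : ℝ → NN → Ix → ℝ := fun b z l => (1 - b) * T l + b * cos (2 * π * z.2.1 l)
  have h4 : ∀ b ∈ Icc (0 : ℝ) 1, ∀ z j', cc j' (fun l => unc (j l) (c b z l)) = b * cc j' z.2.1 := by
    intro b hb z j'
    have : ∀ l, |c b z l| ≤ 1 := fun l => by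
      refine (abs_add_le _ _).trans ?_
      rw [abs_mul, abs_mul, abs_of_nonneg hb.1, abs_of_nonneg (sub_nonneg.2 hb.2)]
      have := mul_le_of_le_one_right (sub_nonneg.2 hb.2) (h1 l)
      have := mul_le_of_le_one_right hb.1 (abs_cos_le_one (2 * π * z.2.1 l))
      linarith
    simp only [cc, cos_unc _ (this _)]
    simp only [c, Finset.sum_add_distrib, ← Finset.mul_sum, h2, mul_zero, zero_add]
  have h5 : ∀ l ∈ Q, 2 * unc (j l) (T l) = a l := fun l hl => by
    rw [h3 l hl, unc_cos (by rw [mul_div_cancel₀ _ two_ne_zero]; exact ha l hl)]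
    ring
  refine ⟨fun x => (min 1 (2 * x.1) • x.2.1, fun l => unc (j l) (c (max 0 (2 * x.1 - 1)) x.2 l),
    min 1 (2 * x.1) • x.2.2.2), (0, fun l => unc (j l) (T l), 0), ?_, ?_, ?_, ?_, ?_, ?_, h5⟩
  · have := continuous_arccos
    simp only [unc, c]
    fun_prop
  · intro t ht z hz
    refine ⟨?_, fun l _ => unc_mem _ _, fun l hl => ?_⟩
    · have h6 := h4 (max 0 (2 * t - 1)) ⟨le_max_left _ _, max_le zero_le_one (by linarith [ht.2])⟩
      simp only [ss, h6, sf_smul]
      rcases le_total (2 * t) 1 with h | h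
      · simp [max_eq_left (sub_nonpos.2 h)]
      · rw [min_eq_left h, one_smul]
        exact mul_eq_zero_of_right _ hz.1
    · have e : z.2.1 l = a l / 2 := by linarith [hz.2.2 l hl]
      have e2 : ∀ b, c b z l = T l := fun b => by simp only [c, e, h3 l hl]; ring
      simp only [e2, h5 l hl]
  · intro z hz
    have e : ∀ l, unc (j l) (cos (2 * π * z.2.1 l)) = z.2.1 l := fun l =>
      unc_cos (hz.2.1 l (by simp))
    norm_num [c, e]
  · intro z
    norm_num [c]
  · have := h4 0 (by simp) 0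
    simp only [c, sub_zero, one_mul, zero_mul, add_zero] at this
    simp [ss, this, sf]
  · exact fun l _ => unc_mem _ _

lemma cell_main {E X : Type} [TopologicalSpace E] [TopologicalSpace X] {p : E → X}
    (cov : IsCoveringMap p) {φ : NN → X} (hφ : ContinuousOn φ {z | ss z = 0}) (F : Finset Ix) :
    ∀ (j a : Ix → ℤ) (Q : Finset Ix), (∀ l ∈ Q, l ∉ F ∧ (a l : ℝ) ∈ Icc (j l : ℝ) (j l + 1)) →
      (Q.card ≤ 2 → (cell F j Q a).Nonempty) ∧ (Q.card ≤ 1 → IsPreconnected (cell F j Q a) ∧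
        (Q.card = 0 → Triv p φ (cell F j Q a))) := by
  induction F using Finset.induction_on with
  | empty =>
    intro j a Q h
    refine ⟨fun hQ => ?_, fun hQ => ?_⟩
    · obtain ⟨H, a0, -, -, -, -, h1⟩ := cell_base hQ fun l hl => (h l hl).2
      exact ⟨a0, h1⟩
    · obtain ⟨H, a0, h1, h2, h3, h4, -⟩ := cell_base (hQ.trans one_le_two) fun l hl => (h l hl).2
      exact ⟨preconn_of_contr h1 h2 h3 h4, fun _ =>
        triv_of_contr cov (hφ.mono fun z hz => hz.1) h1 h2 h3 h4⟩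
  | insert i F hi ih =>
    intro j a Q h
    have hiQ : i ∉ Q := fun h' => (h i h').1 (Finset.mem_insert_self _ _)
    have hne : ∀ l ∈ Q, l ≠ i := fun l hl e => hiQ (e ▸ hl)
    have hF : ∀ l ∈ Q, l ∉ F := fun l hl e => (h l hl).1 (Finset.mem_insert_of_mem e)
    refine ⟨fun hQ => ((ih j a Q fun l hl => ⟨hF l hl, (h l hl).2⟩).1 hQ).mono fun z hz =>
      ⟨hz.1, fun l hl => hz.2.1 l fun e => hl (Finset.mem_insert_of_mem e), hz.2.2⟩, fun hQ => ?_⟩
    have e1 : ∀ k : ℤ, cell (insert i F) j Q a ∩ (fun z : NN => 2 * z.2.1 i) ⁻¹' Icc k (k + 1) =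
        cell F (update j i k) Q a := fun k => by
      ext z
      refine ⟨fun hz => ⟨hz.1.1, fun l hl => ?_, hz.1.2.2⟩, fun hz => ⟨⟨hz.1, fun l hl => ?_,
        hz.2.2⟩, by simpa using hz.2.1 i hi⟩⟩
      · by_cases e : l = i
        · subst e; simpa using hz.2
        · rw [update_of_ne e]
          exact hz.1.2.1 l (by simp [e, hl])
      · rw [Finset.mem_insert, not_or] at hl
        simpa [update_of_ne hl.1] using hz.2.1 l hl.2
    have e2 : ∀ k : ℤ, cell (insert i F) j Q a ∩ (fun z : NN => 2 * z.2.1 i) ⁻¹' {(k : ℝ)} =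
        cell F (update j i k) (insert i Q) (update a i k) := fun k => by
      ext z
      refine ⟨fun hz => ?_, fun hz => ?_⟩
      · have h1 : 2 * z.2.1 i = k := hz.2
        have h2 : z ∈ cell F (update j i k) Q a := e1 k ▸ ⟨hz.1, by simp [h1]⟩
        refine ⟨hz.1.1, h2.2.1, fun l hl => ?_⟩
        rcases Finset.mem_insert.1 hl with rfl | hl
        · simpa using h1
        · rw [update_of_ne (hne l hl)]
          exact hz.1.2.2 l hl
      · have h2 : z ∈ cell F (update j i k) Q a := ⟨hz.1, hz.2.1, fun l hl => by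
          simpa [update_of_ne (hne l hl)] using hz.2.2 l (by simp [hl])⟩
        rw [← e1] at h2
        exact ⟨h2.1, by simpa using hz.2.2 i (by simp)⟩
    refine unfold_one cov (isClosed_cell _ _ _ _) (t := fun z : NN => 2 * z.2.1 i) (by fun_prop) _
      (fun k => ?_) fun k => ?_
    · rw [e1]
      exact (ih _ a Q fun l hl => ⟨hF l hl, by simpa [update_of_ne (hne l hl)] using (h l hl).2⟩).2 hQ
    · rw [e2]
      have := ih (update j i k) (update a i k) (insert i Q) fun l hl => by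
        rcases Finset.mem_insert.1 hl with rfl | hl
        · simp [hi]
        · exact ⟨hF l hl, by simpa [update_of_ne (hne l hl)] using (h l hl).2⟩
      rw [Finset.card_insert_of_notMem hiQ] at this
      exact ⟨this.1 (by omega), fun hb => (this.2 (by omega)).1⟩

theorem zero_set_triv {E X : Type} [TopologicalSpace E] [TopologicalSpace X] {p : E → X}
    (cov : IsCoveringMap p) {φ : NN → X} (hφ : ContinuousOn φ {z | ss z = 0}) :
    IsConnected {z | ss z = 0} ∧ Triv p φ {z | ss z = 0} := by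
  have h := cell_main cov hφ Finset.univ 0 0 ∅ (by simp)
  have e : cell Finset.univ 0 ∅ 0 = {z | ss z = 0} := by
    ext z; simp [cell]
  rw [e] at h
  exact ⟨⟨h.1 (by simp), (h.2 (by simp)).1⟩, (h.2 (by simp)).2 rfl⟩

end Pool.Agent.Lib.MP_029589_gt
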