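import Pool.Agent.Lib.MP_029589_gt.Xm
import Pool.Agent.Lib.MP_029589_gt.Smo

/-! The vanishing theorem, approximation of Lipschitz maps, and lifting to coverings. -/

set_option autoImplicit false

open scoped Manifold ContDiff Topology RealInnerProductSpace
open Set Filter Function

namespace Pool.Agent.Lib.MP_029589_gt

variable {H : Subgroup Gam}

/-- A model of the quotient of the level set by `H`. -/
structure Model (H : Subgroup Gam) {Y : Type} [TopologicalSpace Y] [ChartedSpace (Euc 23) Y]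
    (l : ZT → Y) (oY : Y → ℝ) : Prop where
  ld : ∀ z, LD (Euc 23) l z
  surj : Surjective l
  orb : ∀ a b, l a = l b ↔ ∃ h : H, h • b = a
  ori : ∀ z, oY (l z) * (SignType.sign (md (Euc 23) (Euc 23) l z).det : ℝ) = 1

lemma cnt_empty {V M : Type} [NormedAddCommGroup V] [NormedSpace ℝ V] [TopologicalSpace M]
    [ChartedSpace V M] {o : M → ℝ} {O : Set M} {G : M → V} {z : V} (h : ∀ x ∈ O, G x ≠ z) :
    cnt o O G z = 0 := by
  rw [cnt, eq_empty_of_forall_notMem (s := {x | x ∈ O ∧ G x = z}) fun x hx => h x hx.1 hx.2,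
    finsum_mem_empty]

/-- An invariant function on the quotient. -/
noncomputable def desc {A W : Type} [MulAction Gam A] (F : A → W) (hF : ∀ (h : H) x, F (h • x) = F x) :
    MulAction.orbitRel.Quotient H A → W :=
  Quotient.lift F fun _ b ⟨h, e⟩ => e ▸ hF h b

lemma desc_smooth {W : Type} [NormedAddCommGroup W] [NormedSpace ℝ W] {F : NN → W}
    (hF : ∀ (h : H) x, F (h • x) = F x) {p : NN} (h : ContDiffAt ℝ ∞ F p) :
    ContMDiffAt 𝓘(ℝ, NN) 𝓘(ℝ, W) ∞ (desc F hF) (qm H p) := (ldN H p).desc h.contMDiffAt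

lemma norm_J (y : Euc 23) (c : ℂ) :
    ‖y‖ / (‖(DD.J.symm : NN →L[ℝ] Euc 23 × ℂ)‖ + 1) ≤ ‖DD.J (y, c)‖ ∧
      ‖c‖ / (‖(DD.J.symm : NN →L[ℝ] Euc 23 × ℂ)‖ + 1) ≤ ‖DD.J (y, c)‖ := by
  have h := (DD.J.symm : NN →L[ℝ] Euc 23 × ℂ).le_opNorm (DD.J (y, c))
  rw [ContinuousLinearEquiv.coe_coe, DD.J.symm_apply_apply] at h
  have h1 := (norm_fst_le (y, c)).trans h
  have h2 := (norm_snd_le (y, c)).trans h
  constructor <;> rw [div_le_iff₀ (by positivity)] <;> nlinarith [norm_nonneg (DD.J (y, c))]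

variable {Y : Type} [TopologicalSpace Y] [ChartedSpace (Euc 23) Y] {l : ZT → Y} {oY : Y → ℝ}

theorem vanish (m : Model H l oY) {W : Type} [NormedAddCommGroup W] [NormedSpace ℝ W]
    {F : NN → W} (hF : ContDiff ℝ ∞ F) (hi : ∀ (h : H) x, F (h • x) = F x) (hg : Good H F)
    (P : W →L[ℝ] Euc 23) {G : Y → Euc 23} (hG : ∀ z : ZT, G (l z) = P (F z.1)) {O' : Set W}
    (hO' : IsOpen O') {O1 : Set Y} {y : Euc 23}
    (hO : ∀ z : ZT, P (F z.1) = y → (l z ∈ O1 ↔ F z.1 ∈ O')) {K : Set NN} (hK : IsCompact K)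
    (hKO : ∀ x ∈ K, F x ∈ O') {δ : ℝ} (hδ : 0 < δ)
    (hfar : ∀ x, F x ∈ O' → (∀ h : H, h • x ∉ K) → δ ≤ ‖P (F x) - y‖) (r : Reg O1 G y) :
    cnt oY O1 G y = 0 := by
  have hPF : ContDiff ℝ ∞ fun x => P (F x) := P.contDiff.comp hF
  rcases hg with ⟨ρ, h1, h2, h3⟩ | ⟨u, hu, h⟩
  · let B : ℂ → NN → NN := fun c p => DD.J (P (F p), ρ p * ss p - c)
    have hB : ∀ c (h : H) p, B c (h • p) = B c p := fun c h p => by simp only [B, hi, h3]
    have sB : ∀ c, ContMDiff 𝓘(ℝ, NN) 𝓘(ℝ, NN) ∞ (desc (B c) (hB c)) := fun c q => by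
      obtain ⟨p, rfl⟩ := Quotient.mk_surjective q
      exact desc_smooth _ (DD.J.contDiff.comp
        (hPF.prodMk ((h1.mul contDiff_ss).sub contDiff_const))).contDiffAt
    have sF : Continuous (desc F hi) := hF.continuous.quotient_lift _
    obtain ⟨t1, t2⟩ := transfer (A := desc (B 0) (hB 0)) (ρ := ρ) m.ld m.surj m.orb m.ori hG
      (fun p => by simp [desc, B]) hPF (O := desc F hi ⁻¹' O')
      (fun p _ => ⟨h1.contDiffAt, norm_ne_zero_iff.1 (by rw [h2]; exact one_ne_zero)⟩) hO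
    have h4 : ∀ q, desc (B 12) (hB 12) q ≠ DD.J (y, 0) := fun q e => by
      obtain ⟨p, rfl⟩ := Quotient.mk_surjective q
      have e2 : ρ p * ss p = 12 := sub_eq_zero.1 (congrArg Prod.snd (DD.J.injective e))
      have := congrArg norm e2
      rw [norm_mul, h2, one_mul] at this
      have := norm_ss p
      norm_num at *
      linarith
    rw [t2, kit_main (oriN H) (hO'.preimage sF) (hK.image (qm_cov NN H).continuous) ?_
      (sB 0).contMDiffOn (sB 12).contMDiffOn (δ := δ / (‖(DD.J.symm : NN →L[ℝ] Euc 23 × ℂ)‖ + 1))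
      (by positivity) ?_ (t1 r) fun q _ e => absurd e (h4 q), cnt_empty fun q _ => h4 q]
    · rintro _ ⟨x, hx, rfl⟩
      exact hKO x hx
    · intro q hq hq' τ _
      obtain ⟨p, rfl⟩ := Quotient.mk_surjective q
      have e : (1 - τ) • B 0 p + τ • B 12 p - DD.J (y, 0) =
          DD.J (P (F p) - y, ρ p * ss p - τ * 12) := by
        simp only [B, ← map_smul, ← map_add, ← map_sub]
        congr 1
        ext1
        · simp [sub_smul]
        · simp; ring
      refine le_trans ?_ (e ▸ (norm_J _ _).1 :)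
      exact div_le_div_of_nonneg_right (hfar p hq fun h hh => hq' ⟨_, hh, qm_smul h p⟩)
        (by positivity)
  · refine cnt_empty fun x hx e => r x hx e ?_
    obtain ⟨z, rfl⟩ := m.surj x
    obtain ⟨c, hc, h1⟩ := LS.det_amb z
    have h2 := h1 (fderiv ℝ (fun x => P (F x)) z.1) (.id ℝ ℂ)
    have e2 : G ∘ l = fun z : ZT => P (F z.1) := funext hG
    have s2 : ContMDiffAt (𝓡 23) (𝓡 23) ∞ G (l z) := (m.ld z).desc (by
      rw [e2]
      exact hPF.contDiffAt.contMDiffAt.comp z (LS.contMDiff_val z))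
    have h4 := md_comp (s2.mdifferentiableAt (by simp)) (m.ld z).mdiff
    rw [e2, LS.md_comp_val (hPF.differentiable (by simp) _)] at h4
    rw [h4, det_comp', det_id'] at h2
    have h5 : (DD.amb (fderiv ℝ (fun x => P (F x)) z.1)
        ((ContinuousLinearMap.id ℝ ℂ).comp (fderiv ℝ DD.s z.1))).det = 0 := by
      by_contra h6
      refine hu ((injective_iff_map_eq_zero _).1 ((det_ne_zero_iff _).1 h6) u ?_)
      have h7 := (P.hasFDerivAt.comp z.1 (hF.differentiable (by simp) z.1).hasFDerivAt).fderiv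
      change DD.J (fderiv ℝ (P ∘ F) z.1 u, fderiv ℝ ss z.1 u) = 0
      rw [h7, (h _).2, ContinuousLinearMap.comp_apply, (h _).1, map_zero]
      exact map_zero _
    rw [h5, mul_one] at h2
    exact (mul_eq_zero.1 ((mul_eq_zero.1 h2.symm).resolve_left hc.ne')).resolve_right
      (m.ld z).det_ne

/-- The projection to the example. -/
noncomputable def pX : ZT → (XX ⊤).M := qm (⊤ : Subgroup Gam)

lemma pX_ld (z : ZT) : LD (Euc 23) pX z := ldZ ⊤ z

lemma pX_smul (a : Gam) (z : ZT) : pX (a • z) = pX z := qm_smul (⟨a, trivial⟩ : (⊤ : Subgroup Gam)) z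

lemma Lip.smul {W : Type} [NormedAddCommGroup W] [NormedSpace ℝ W] {g : (XX ⊤).Metric} {ε : ℝ}
    {f : ZT → W} (h : Lip g pX ε f) (a : Gam) : Lip g pX ε fun z => f (a • z) := by
  refine ⟨h.1.comp (ZT.smooth a), fun z v => ?_⟩
  have d := (ZT.smooth a z).mdifferentiableAt (by simp)
  have h1 := md_comp (g := f) ((h.1 _).mdifferentiableAt (by simp)) d
  have h2 := md_comp (g := pX) (pX_ld _).mdiff d
  have h3 : pX ∘ (fun z : ZT => a • z) = pX := funext (pX_smul a)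
  rw [h3] at h2
  rw [h2, ← pX_smul a z]
  exact (congrArg norm (DFunLike.congr_fun h1 v)).trans_le (h.2 _ _)

lemma cpt_ball (R : ℝ) : IsCompact {z : ZT | ‖z.1‖ ≤ R} :=
  (isClosed_eq contDiff_ss.continuous continuous_const).isClosedEmbedding_subtypeVal.isCompact_preimage
    (K := Metric.closedBall 0 R) (isCompact_closedBall _ _) |>.of_isClosed_subset
    (isClosed_le (by fun_prop) continuous_const) fun _ hz => mem_closedBall_zero_iff.2 hz

theorem approx (g : (XX ⊤).Metric) (H : Subgroup Gam) (W : Type) [NormedAddCommGroup W]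
    [NormedSpace ℝ W] [CompleteSpace W] : ∃ D > 0, ∀ ε ≥ 0, ∀ f : ZT → W, Lip g pX ε f →
      (∀ (h : H) z, f (h • z) = f z) → ∃ F : NN → W, ContDiff ℝ ∞ F ∧
        (∀ (h : H) x, F (h • x) = F x) ∧ Good H F ∧ (∀ z : ZT, ‖F z.1 - f z‖ ≤ D * ε) ∧
        (∀ x, ∃ z, ‖F x - f z‖ ≤ D * ε) ∧
        ∀ K : Set ZT, IsCompact K → ∃ K' : Set NN, IsCompact K' ∧ ∀ x, (∀ h : H, h • x ∉ K') →
          (∃ z, (∀ h : H, h • z ∉ K) ∧ ‖F x - f z‖ ≤ D * ε) ∧
          ∀ b, (∀ z, (∀ h : H, h • z ∉ K) → f z = b) → F x = b := by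
  obtain ⟨R, hR, h1⟩ := exists_smoothing (W := W) H
  obtain ⟨z0⟩ : Nonempty ZT := inferInstance
  have hS := finite_move R R
  obtain ⟨D, hD, h2⟩ := osc_cpt (W := W) g (fun z => (pX_ld z).contMDiffAt)
    ((cpt_ball R).union (hS.image fun a : Gam => a • z0).isCompact)
  have h0 : z0 ∈ {z : ZT | ‖z.1‖ ≤ R} ∪ (fun a : Gam => a • z0) ''
      {γ : Gam | ∃ x : NN, ‖x‖ ≤ R ∧ ‖γ • x‖ ≤ R} :=
    Or.inr ⟨1, ⟨0, by simpa using zero_le_one.trans hR⟩, one_smul _ _⟩
  refine ⟨D, hD, fun ε hε f hf hi => ?_⟩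
  obtain ⟨F, a1, a2, a3, a4⟩ := h1 (fun γ => f (γ • z0)) fun h γ => by
    simp only [mul_smul]; exact hi h _
  have h3 : ∀ x (γ : Gam), ‖γ⁻¹ • x‖ ≤ R → ‖F x - f (γ • z0)‖ ≤ D * ε := fun x γ hγ => by
    refine mem_closedBall_iff_norm.1 (a3 x _ (convex_closedBall _ _) Metric.isClosed_closedBall
      fun β hβ => mem_closedBall_iff_norm.2 ?_)
    have := h2 ε hε _ (hf.smul γ) ((γ⁻¹ * β) • z0)
      (Or.inr ⟨_, ⟨_, hβ, by simpa [mul_smul] using hγ⟩, rfl⟩) z0 h0
    simpa [mul_smul] using this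
  have h4 : ∀ x : NN, ∃ γ : Gam, ‖γ⁻¹ • x‖ ≤ R := fun x =>
    (cocompact x).elim fun a ha => ⟨a⁻¹, by simpa using ha.trans hR⟩
  refine ⟨F, a1, a2, a4, fun z => ?_, fun x => (h4 x).elim fun γ hγ => ⟨_, h3 x γ hγ⟩,
    fun K hK => ?_⟩
  · refine mem_closedBall_iff_norm.1 (a3 _ _ (convex_closedBall _ _) Metric.isClosed_closedBall
      fun β hβ => mem_closedBall_iff_norm.2 ?_)
    simpa using h2 ε hε _ (hf.smul β) z0 h0 (β⁻¹ • z) (Or.inl hβ)
  · have hT : {a : Gam | a • z0 ∈ K}.Finite :=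
      (finite_disjoint_inter_image (Γ := Gam) (isCompact_singleton (x := z0)) hK).subset
        fun a ha => ⟨_, ⟨z0, rfl, rfl⟩, ha⟩
    refine ⟨⋃ a ∈ {a : Gam | a • z0 ∈ K}, (a • ·) '' Metric.closedBall 0 R,
      hT.isCompact_biUnion fun a _ => (isCompact_closedBall _ _).image (continuous_const_smul a),
      fun x hx => ?_⟩
    have h5 : ∀ γ : Gam, ‖γ⁻¹ • x‖ ≤ R → ∀ h : H, h • γ • z0 ∉ K := fun γ hγ h hh =>
      hx h (mem_biUnion (x := h.1 * γ) (by simpa [mul_smul, Subgroup.smul_def] using hh)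
        ⟨γ⁻¹ • x, mem_closedBall_zero_iff.2 hγ, by simp [mul_smul, Subgroup.smul_def]⟩)
    exact ⟨(h4 x).elim fun γ hγ => ⟨_, h5 γ hγ, h3 x γ hγ⟩, fun b hb =>
      a3 x {b} (convex_singleton b) isClosed_singleton fun γ hγ => hb _ (h5 γ hγ)⟩

lemma Model.cpt (m : Model H l oY) {K : Set Y} (hK : IsCompact K) :
    ∃ K' : Set ZT, IsCompact K' ∧ K ⊆ l '' K' := by
  refine hK.induction_on (p := fun K => ∃ K' : Set ZT, IsCompact K' ∧ K ⊆ l '' K')
    ⟨∅, isCompact_empty, empty_subset _⟩ (fun s t h ⟨K', h1, h2⟩ => ⟨K', h1, h.trans h2⟩)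
    (fun s t ⟨A, a1, a2⟩ ⟨B, b1, b2⟩ => ⟨A ∪ B, a1.union b1, image_union l A B ▸
      union_subset_union a2 b2⟩) fun y _ => ?_
  obtain ⟨z, rfl⟩ := m.surj y
  obtain ⟨L, h1, h2⟩ := exists_compact_mem_nhds z
  have h : IsLocalDiffeomorph (𝓡 23) (𝓡 23) ∞ l := m.ld
  exact ⟨_, nhdsWithin_le_nhds (h.isOpenMap.image_mem_nhds h2), L, h1, subset_rfl⟩

theorem exists_model (C : Cover (XX ⊤)) : ∃ (H : Subgroup Gam) (l : ZT → C.Y.M),
    C.p ∘ l = pX ∧ Model H l fun y => (SignType.sign (jdet 23 C.p y) : ℝ) := by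
  classical
  have hc : Continuous pX := (qm_cov ZT _).continuous
  obtain ⟨y0⟩ : Nonempty C.Y.M := inferInstance
  obtain ⟨z0, hz0⟩ : ∃ z, pX z = C.p y0 := Quotient.mk_surjective (C.p y0)
  let φ : NN → (XX ⊤).M := fun x => if h : ss x = 0 then pX ⟨x, h⟩ else pX z0
  have hφ : ∀ z : ZT, φ z.1 = pX z := fun z => dif_pos z.2
  obtain ⟨L, h1, h2, h3⟩ := (zero_set_triv C.cov (φ := φ)
    (continuousOn_iff_continuous_domRestrict.2 (hc.congr fun z => (hφ z).symm))).2 z0.1 z0.2 y0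
    (by rw [hφ, hz0])
  let l : ZT → C.Y.M := fun z => L z.1
  have hl : Continuous l := continuousOn_iff_continuous_domRestrict.1 h1
  have hp : C.p ∘ l = pX := funext fun z => (h2 _ z.2).trans (hφ z)
  have hp' : ∀ z, C.p (l z) = pX z := congrFun hp
  have hld : ∀ z, LD (Euc 23) l z := fun z => LD.lift hl.continuousAt (C.loc _) (hp ▸ pX_ld z)
  let H : Subgroup Gam :=
    { carrier := {a | ∀ z, l (a • z) = l z}
      one_mem' := fun z => by rw [one_smul]
      mul_mem' := fun ha hb z => by rw [mul_smul, ha, hb]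
      inv_mem' := fun {a} ha z => by rw [← ha, smul_inv_smul] }
  refine ⟨H, l, hp, hld, fun y => ?_, fun a b => ⟨fun h => ?_, ?_⟩, fun z => ?_⟩
  · have := ChartedSpace.locallyPathConnectedSpace (Euc 23) C.Y.M
    have := (pathConnectedSpace_iff_connectedSpace.2 C.Y.conn)
    let γ : C(unitInterval, C.Y.M) := (PathConnectedSpace.somePath y0 y).toContinuousMap
    let β : C(unitInterval, (XX ⊤).M) := ⟨C.p ∘ γ, C.cov.continuous.comp γ.continuous⟩
    have cv : IsCoveringMap pX := qm_cov ZT _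
    have h4 : β 0 = pX z0 := by simp [β, γ, hz0]
    have h5 := C.cov.eq_of_comp_eq (g₁ := l ∘ cv.liftPath β z0 h4) (g₂ := γ) (by fun_prop)
      γ.continuous (by rw [← comp_assoc, hp, cv.liftPath_lifts]; rfl) 0
      (by simp [γ, cv.liftPath_zero, l, h3])
    exact ⟨_, (congrFun h5 1).trans (by simp [γ])⟩
  · obtain ⟨c, rfl⟩ := qm_eq.1 ((hp' a).symm.trans (h ▸ hp' b))
    refine ⟨⟨c.1, congrFun (C.cov.eq_of_comp_eq (g₁ := fun z => l (c.1 • z))
      (hl.comp (continuous_const_smul _)) hl (funext fun z => ?_) b h)⟩, rfl⟩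
    simp only [comp, hp', pX_smul]
  · rintro ⟨h, rfl⟩
    exact h.2 b
  · have h4 := md_comp (LD.mdiff (C.loc (l z))) (hld z).mdiff
    have h5 : 0 < (md (Euc 23) (Euc 23) pX z).det := detZ ⊤ z
    rw [← hp, h4, det_comp'] at h5
    rw [← SignType.coe_mul, ← sign_mul]
    exact (congrArg _ (sign_pos h5)).trans SignType.coe_one

end Pool.Agent.Lib.MP_029589_gt
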