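import Pool.Agent.Lib.MP_029589_gt.VnegC

/-! The cup square obstruction. -/

set_option autoImplicit false

open scoped Manifold ContDiff Topology Matrix
open Set Filter Function Topology MeasureTheory

namespace Pool.Agent.Lib.MP_029589_gt

namespace Vn

variable {I : Type} {D : Sh 4 I} {b : Euc 4 → ℝ} [MulAction Gf I] (h : ∀ γ, D.Inv γ)
  (hb' : ∀ y, b y ≠ 0 → ‖y‖ ≤ 1 / 2) (hb : ContDiff ℝ ∞ b)
include h hb' hb

lemma Sh.avg_smul (n : ℤ) (e : I) (w : Fin 4 → Fin 8 → ℝ) :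
    avg (D.fm b (orb ((⟨0, n⟩ : Gf) • e))) 0 (fun j => pas (n : ℝ) *ᵥ w j) =
      avg (D.fm b (orb e)) 0 w := by
  have hb3 : ∀ y, b y ≠ 0 → ‖y‖ ≤ 3 / 4 := fun y hy => (hb' y hy).trans (by norm_num)
  have P := fun e => D.per hb3 hb (fun _ => h _) (tr_orb · e)
  have c1 := (P ((⟨0, n⟩ : Gf) • e)).sm.continuous
  rw [(P _).avg_const 0 n, avg_apply c1, avg_apply (P _).sm.continuous,
    ← integral_per_affine (by fun_prop) (fun a x => by rw [(P _).per]) n 0]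
  refine integral_congr_ae (.of_forall fun x => ?_)
  simpa [gf_smul, pl_apply] using
    (h ⟨0, n⟩).fm hb3 (smul_orb ⟨0, n⟩ e) (x, 0) fun j => (w j, 0)

lemma Sh.avg_orb (e : I) : avg (D.fm b (orb e)) 0 (fun j => bv (ix4 j)) = 0 := by
  classical
  obtain ⟨T, hT⟩ := D.exists_T (fun y hy => (hb' y hy).trans (by norm_num))
    ((isCompact_Icc (a := (0 : Fin 8 → ℝ)) (b := 1)).prod (isCompact_singleton (x := (0 : ℝ))))
  obtain ⟨n, -, m, -, hn, e1⟩ := (infinite_univ (α := ℤ)).exists_ne_map_eq_of_mapsTo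
    (f := fun n => avg (D.fm b (orb ((⟨0, n⟩ : Gf) • e))) 0) (fun n _ => by
      by_cases h0 : ∃ i ∈ T, i ∈ orb ((⟨0, n⟩ : Gf) • e)
      · obtain ⟨i, h1, h2⟩ := h0
        exact Or.inr ⟨i, h1, by simp only [orb_eq h2]⟩
      · refine Or.inl (setIntegral_eq_zero_of_forall_eq_zero fun x hx => ?_)
        rw [Sh.fm_sum (hT (x, 0) ⟨hx, rfl⟩), Finset.filter_false_of_mem fun i h1 h2 =>
          h0 ⟨i, h1, h2⟩, Finset.sum_empty]
        rfl)
    ((T.finite_toSet.image fun i => avg (D.fm b (orb i)) 0).insert 0)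
  refine alg8 (inv_real (sub_ne_zero.2 hn) fun w => ?_) (Sh.cup_avg (fun _ => h _) hb' hb e)
  rw [← Sh.avg_smul h hb' hb m, ← Sh.avg_smul h hb' hb n e w, e1]
  simp only [pas_pas, Int.cast_sub, add_sub_cancel]

lemma Sh.avg_univ : avg (D.fm b univ) 0 (fun j => bv (ix4 j)) = 0 := by
  classical
  have hb3 : ∀ y, b y ≠ 0 → ‖y‖ ≤ 3 / 4 := fun y hy => (hb' y hy).trans (by norm_num)
  obtain ⟨T, hT⟩ := D.exists_T hb3
    ((isCompact_Icc (a := (0 : Fin 8 → ℝ)) (b := 1)).prod (isCompact_singleton (x := (0 : ℝ))))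
  have key : ∀ V, avg (D.fm b V) 0 (fun j => bv (ix4 j)) = ∑ i ∈ T with i ∈ V,
      ∫ x in Icc (0 : Fin 8 → ℝ) 1, D.cs b i (x, 0) fun j => (bv (ix4 j), 0) := fun V => by
    rw [avg_apply (D.sm_fm hb3 hb V).continuous, ← integral_finsetSum _ fun i _ => ?_]
    · refine setIntegral_congr_fun measurableSet_Icc fun x hx => ?_
      simp only [Sh.fm_sum (hT (x, 0) ⟨hx, rfl⟩), ContinuousAlternatingMap.sum_apply]
    · have := D.cont_cs hb3 hb i
      exact Continuous.integrableOn_Icc (by fun_prop)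
  simp only [key univ, mem_univ, Finset.filter_true]
  rw [← Finset.sum_fiberwise_of_maps_to (g := orb) fun i hi => Finset.mem_image_of_mem _ hi]
  refine Finset.sum_eq_zero fun V hV => ?_
  obtain ⟨e, -, rfl⟩ := Finset.mem_image.1 hV
  exact (Finset.sum_congr (Finset.filter_congr fun i _ => ⟨fun e => e ▸ self_orb i, orb_eq⟩)
    fun _ _ => rfl).trans ((key _).symm.trans (Sh.avg_orb h hb' hb e))

omit h hb' hb in
lemma sm_tor {κ : Euc 4 → Fin 4 → ℝ} (hκ : ContDiff ℝ ∞ κ) : ContDiff ℝ ∞ (tor κ) :=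
  ContDiff.prodMk (contDiff_pi.2 fun i => by
    have := contDiff_pi.1 hκ
    fin_cases i
    exacts [this 0, this 1, contDiff_const, contDiff_const, contDiff_const, contDiff_const, this 2,
      this 3]) contDiff_const

end Vn

open Vn in
theorem vanish8 {S : Type} [MulAction Gf S] {G : GR → S → Euc 4} {O : S → Set GR}
    (hO : ∀ e, IsOpen (O e)) (inv : ∀ (γ : Gf) g e, γ • g ∈ O (γ • e) ↔ g ∈ O e)
    (invG : ∀ (γ : Gf) g e, G (γ • g) (γ • e) = G g e)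
    (sm : ∀ e, ContDiffOn ℝ ∞ (fun g => G g e) (O e))
    (cl : ∀ e, IsClosed {g | g ∈ O e ∧ ‖G g e‖ ≤ 1})
    (fin : ∃ (R : ℝ) (T : Finset S), ∀ g e, g ∈ O e → ‖G g e‖ ≤ 1 →
      ∃ γ : Gf, ‖γ • g‖ ≤ R ∧ γ • e ∈ T)
    {κ : Euc 4 → Fin 4 → ℝ} (hκ : Eqv4 κ) {N : ℝ}
    (h : ∀ᶠ y in aeV (Euc 4), ‖y‖ < 1 / 2 →
      ∑ᶠ z ∈ {z : Euc 4 × S | z.1 ∈ cube ∧ tor κ z.1 ∈ O z.2 ∧ G (tor κ z.1) z.2 = y},
        (SignType.sign (fderiv ℝ (fun u => G (tor κ u) z.2) z.1).det : ℝ) = N) : N = 0 := by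
  let D : Sh 4 S := ⟨O, fun e g => G g e, hO, sm, cl, fun K hK => by
    obtain ⟨R, T, hT⟩ := fin
    obtain ⟨R', hR⟩ := hK.isBounded.exists_norm_le
    refine ((gf_finite (max R R')).image2 (fun γ e => γ⁻¹ • e) T.finite_toSet).subset ?_
    rintro e ⟨g, h1, h2, h3⟩
    obtain ⟨γ, h4, h5⟩ := hT g e h2 h3
    exact ⟨γ, ⟨g, (hR g h1).trans (le_max_right _ _), h4.trans (le_max_left _ _)⟩, _, h5,
      inv_smul_smul _ _⟩⟩
  let b : ContDiffBump (0 : Euc 4) := ⟨1 / 4, 1 / 2, by norm_num, by norm_num⟩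
  have b1 : ∀ y, b y ≠ 0 → ‖y‖ < 1 / 2 := fun y hy =>
    mem_ball_zero_iff.1 (b.support_eq.subset hy)
  have b3 : ∀ y, b y ≠ 0 → ‖y‖ ≤ 3 / 4 := fun y hy => (b1 y hy).le.trans (by norm_num)
  have hD : ∀ γ, D.Inv γ := fun γ e g => ⟨inv γ g e, invG γ g e⟩
  have hm := sm_tor hκ.1
  have e1 := (D.res univ).et.area continuous_id b.contDiff b3 hm
  rw [D.form_eq, (D.per b3 b.contDiff (fun _ => hD _) fun _ _ => Iff.rfl).pull hκ] at e1
  have e2 := (Sh.avg_univ hD (fun y hy => (b1 y hy).le) b.contDiff).symm.trans e1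
  rw [aeV_eq] at h
  rw [integral_congr_ae (g := fun y => b y * N), integral_mul_const] at e2
  · exact (mul_eq_zero.1 e2.symm).resolve_left b.integral_pos.ne'
  filter_upwards [h] with y hy
  by_cases h0 : b y = 0
  · simp only [h0, zero_mul]
  rw [← hy (b1 y h0)]
  refine congrArg _ (finsum_mem_eq_of_bijOn (fun z => (z.1, z.2.1)) ⟨?_, ?_, ?_⟩ ?_)
  · rintro ⟨u, e, g, hg⟩ ⟨h1, h2, h3⟩
    obtain rfl : tor κ u = g := h2
    exact ⟨h1, hg.1, h3⟩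
  · rintro ⟨u, e, g, hg⟩ ⟨-, h1, -⟩ ⟨u', e', g', hg'⟩ ⟨-, h2, -⟩ ⟨⟩
    obtain rfl : tor κ u = g := h1
    obtain rfl : tor κ u = g' := h2
    rfl
  · rintro ⟨u, e⟩ ⟨h1, h2, h3⟩
    exact ⟨(u, ⟨e, _, h2, trivial⟩), ⟨h1, rfl, h3⟩, rfl⟩
  · rintro ⟨u, e, g, hg⟩ ⟨-, h1, -⟩
    obtain rfl : tor κ u = g := h1
    exact congrArg (fun L : Euc 4 →L[ℝ] Euc 4 => (SignType.sign L.det : ℝ))
      ((congrArg (fun L : GR →L[ℝ] Euc 4 => L.comp (fderiv ℝ (tor κ) u))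
        ((D.res univ).df ⟨e, _, hg⟩)).trans (fderiv_comp u
        ((D.at hg.1).differentiableAt (by simp)) (hm.differentiable (by simp) u)).symm)

end Pool.Agent.Lib.MP_029589_gt
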