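import Pool.Agent.Lib.MP_029589_gt.Fil

/-! Invariant four-forms on the filiform algebra and their cup squares. -/

set_option autoImplicit false

open scoped Matrix
open Set Function

namespace Pool.Agent.Lib.MP_029589_gt.Vn

lemma lin8 (c : ℕ → ℕ → ℕ → ℕ → ℝ)
    (r : ∀ a b x y : ℕ, (a + 1) * c (a + 1) b x y + (b + 1) * c a (b + 1) x y +
      (x + 1) * c a b (x + 1) y + (y + 1) * c a b x (y + 1) = 0)
    (z1 : ∀ a x y, c a a x y = 0) (z2 : ∀ a x y, c a x x y = 0) (z3 : ∀ a x y, c a x y y = 0)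
    (z8 : ∀ a x y, c a x y 8 = 0) :
    (∀ a b x y, a < b → b < x → x < y → y < 8 → 14 < a + b + x + y → c a b x y = 0) ∧
      c 0 2 5 7 = -3 * c 0 1 6 7 ∧ c 0 3 4 7 = 5 * c 0 1 6 7 ∧ c 1 2 4 7 = 0 ∧
      c 1 2 5 6 = 21 * c 0 1 6 7 ∧ c 1 3 4 6 = -35 * c 0 1 6 7 ∧ c 2 3 4 5 = 105 * c 0 1 6 7 := by
  have r0157 := r 0 1 5 7
  have r0247 := r 0 2 4 7
  have r0256 := r 0 2 5 6
  have r0346 := r 0 3 4 6
  have r1237 := r 1 2 3 7
  have r1246 := r 1 2 4 6
  have r1345 := r 1 3 4 5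
  have r0167 := r 0 1 6 7
  have r0257 := r 0 2 5 7
  have r0347 := r 0 3 4 7
  have r0356 := r 0 3 5 6
  have r1247 := r 1 2 4 7
  have r1256 := r 1 2 5 6
  have r1346 := r 1 3 4 6
  have r0267 := r 0 2 6 7
  have r0357 := r 0 3 5 7
  have r0456 := r 0 4 5 6
  have r1257 := r 1 2 5 7
  have r1347 := r 1 3 4 7
  have r1356 := r 1 3 5 6
  have r2346 := r 2 3 4 6
  have r0367 := r 0 3 6 7
  have r0457 := r 0 4 5 7
  have r1267 := r 1 2 6 7
  have r1357 := r 1 3 5 7
  have r1456 := r 1 4 5 6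
  have r0467 := r 0 4 6 7
  have r1367 := r 1 3 6 7
  have r1457 := r 1 4 5 7
  have r2357 := r 2 3 5 7
  have r2456 := r 2 4 5 6
  have r0567 := r 0 5 6 7
  have r1467 := r 1 4 6 7
  have r2457 := r 2 4 5 7
  have r1567 := r 1 5 6 7
  have r2467 := r 2 4 6 7
  have r2567 := r 2 5 6 7
  have r3567 := r 3 5 6 7
  simp only [Nat.reduceAdd, z1, z2, z3, z8, Nat.cast_ofNat, Nat.cast_zero, Nat.cast_one]
    at r0157 r0247 r0256 r0346 r1237 r1246 r1345 r0167 r0257 r0347 r0356 r1247 r1256 r1346 r0267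
      r0357 r0456 r1257 r1347 r1356 r2346 r0367 r0457 r1267 r1357 r1456 r0467 r1367 r1457 r2357
      r2456 r0567 r1467 r2457 r1567 r2467 r2567 r3567
  refine ⟨fun a b x y h1 h2 h3 h4 h5 => ?_, ?_, ?_, ?_, ?_, ?_, ?_⟩
  · interval_cases y <;> interval_cases x <;> interval_cases b <;> interval_cases a <;>
      first | omega | linarith
  all_goals linarith

lemma cases8 : ∀ a b : Fin 8, a < b → ∀ x, b < x → ∀ y, x < y → ∀ a' b' : Fin 8, a' < b' →
    ∀ x', b' < x' → ∀ y', x' < y' → [a, b, x, y, a', b', x', y'].Nodup →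
    14 < a.1 + b.1 + x.1 + y.1 ∨ 14 < a'.1 + b'.1 + x'.1 + y'.1 ∨
      [a, b, x, y, a', b', x', y'] ∈ [[0, 1, 6, 7, 2, 3, 4, 5], [0, 2, 5, 7, 1, 3, 4, 6],
        [0, 3, 4, 7, 1, 2, 5, 6], [0, 3, 5, 6, 1, 2, 4, 7], [1, 2, 4, 7, 0, 3, 5, 6],
        [1, 2, 5, 6, 0, 3, 4, 7], [1, 3, 4, 6, 0, 2, 5, 7], [2, 3, 4, 5, 0, 1, 6, 7]] := by
  decide +kernel

/-- Basis vectors. -/
def bv (i : Fin 8) : Fin 8 → ℝ := Pi.single i 1

/-- Basis vectors indexed by natural numbers. -/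
def nb (n : ℕ) : Fin 8 → ℝ := fun r => if (r : ℕ) = n then 1 else 0

lemma bv_eq (i : Fin 8) : bv i = nb i := by
  funext r
  simp [bv, nb, Pi.single_apply, Fin.ext_iff]

lemma pas_nb (n : ℕ) : HasDerivAt (fun t : ℝ => pas t *ᵥ nb n) ((n + 1 : ℝ) • nb (n + 1)) 0 := by
  refine hasDerivAt_pi.2 fun r => ?_
  have e : ∀ t : ℝ, (pas t *ᵥ nb n) r = Nat.choose r n * t ^ ((r : ℕ) - n) := fun t => by
    simp only [pas, nb, Matrix.mulVec, dotProduct, mul_ite, mul_one, mul_zero]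
    by_cases hn : n < 8
    · rw [Finset.sum_eq_single ⟨n, hn⟩ (fun j _ hj => if_neg fun e => hj (Fin.ext e)) (by simp),
        if_pos rfl]
    · rw [Finset.sum_eq_zero fun j _ => if_neg (by omega), Nat.choose_eq_zero_of_lt (by omega),
        Nat.cast_zero, zero_mul]
  simp only [e]
  refine ((hasDerivAt_pow _ _).const_mul _).congr_deriv ?_
  simp only [nb, Pi.smul_apply, smul_eq_mul]
  split_ifs with h
  · simp [h]
  · rcases le_or_gt (r : ℕ) n with h1 | h1
    · simp [Nat.sub_eq_zero_of_le h1]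
    · rw [zero_pow (by omega)]
      simp

/-- The splitting of the eight indices. -/
def e8 : Fin 4 ⊕ Fin 4 ≃ Fin 8 := finSumFinEquiv

section
variable {ι κ : Type} [Fintype κ] [DecidableEq κ]

lemma exists_dt (e : κ ≃ ι) : ∃ D : (κ → ℝ) [⋀^ι]→ₗ[ℝ] ℝ,
    ∀ v, D v = Matrix.det (Matrix.of fun p => v (e p)) :=
  ⟨Matrix.detRowAlternating.domDomCongr e, fun _ => rfl⟩

lemma det_perm (σ : Equiv.Perm κ) :
    Matrix.det (Matrix.of fun p => (Pi.single (σ p) 1 : κ → ℝ)) = (Equiv.Perm.sign σ : ℤ) := by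
  have h2 : (Matrix.of fun p => (Pi.single (σ p) 1 : κ → ℝ)) =
      (1 : Matrix κ κ ℝ).submatrix σ id := by
    ext i j
    simp [Matrix.one_apply, Pi.single_apply, eq_comm]
  rw [h2, Matrix.det_permute, Matrix.det_one, mul_one]

end

/-- The determinant of two blocks of four rows. -/
noncomputable def dt : (Fin 8 → ℝ) [⋀^Fin 4 ⊕ Fin 4]→ₗ[ℝ] ℝ := (exists_dt e8.symm).choose

lemma dt_apply (v : Fin 4 ⊕ Fin 4 → Fin 8 → ℝ) :
    dt v = Matrix.det (Matrix.of fun p => v (e8.symm p)) := (exists_dt e8.symm).choose_spec v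

lemma dt_expand (v : Fin 4 ⊕ Fin 4 → Fin 8 → ℝ) :
    dt v = ∑ K : Fin 4 ⊕ Fin 4 → Fin 8, (∏ p, v p (K p)) * dt fun p => bv (K p) := by
  have e : v = fun p => ∑ k, v p k • bv k := by
    funext p r
    simp [bv, Pi.single_apply]
  conv_lhs => rw [e]
  exact (dt.toMultilinearMap.map_sum fun p k => v p k • bv k).trans
    (Finset.sum_congr rfl fun K _ => dt.map_smul_univ (fun p => v p (K p)) fun p => bv (K p))

lemma dt_perm (v : Fin 4 ⊕ Fin 4 → Fin 8 → ℝ) (σ τ : Equiv.Perm (Fin 4)) :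
    dt (v ∘ σ.sumCongr τ) = ((Equiv.Perm.sign σ : ℤ) : ℝ) * (Equiv.Perm.sign τ : ℤ) * dt v := by
  rw [dt.map_perm, Equiv.Perm.sign_sumCongr]
  simp [Units.smul_def]

lemma dt_one {K : Fin 4 ⊕ Fin 4 → Fin 8} (L : Fin 8 → Fin 8) (e : ∀ p, K (e8.symm p) = L p)
    (h : Bijective L) (h' : ∏ i, ∏ j ∈ Finset.Ioi i, (if L i < L j then 1 else -1 : ℤˣ) = 1) :
    dt (fun p => bv (K p)) = 1 := by
  have h1 := det_perm (Equiv.ofBijective L h)
  rw [Equiv.Perm.sign_eq_prod_prod_Ioi] at h1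
  simp only [Equiv.ofBijective_apply, h', Units.val_one, Int.cast_one] at h1
  rw [dt_apply]
  simp only [e, bv]
  exact h1

/-- The cup product of two arrays of coefficients. -/
noncomputable def cup (c c' : (Fin 4 → Fin 8) → ℝ) : ℝ :=
  ∑ K : Fin 4 ⊕ Fin 4 → Fin 8, c (K ∘ .inl) * c' (K ∘ .inr) * dt fun p => bv (K p)

lemma cup_det (A B : Fin 4 → Fin 8 → ℝ) :
    cup (fun I => Matrix.det (Matrix.of fun i j => A i (I j)))
      (fun I => Matrix.det (Matrix.of fun i j => B i (I j))) = 576 * dt (Sum.elim A B) := by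
  have s : ∀ σ : Equiv.Perm (Fin 4),
      ((Equiv.Perm.sign σ : ℤ) : ℝ) * (Equiv.Perm.sign σ : ℤ) = 1 := fun σ => by
    rw [← Int.cast_mul, ← Units.val_mul, Int.units_mul_self]
    simp
  have e : ∀ σ τ : Equiv.Perm (Fin 4), dt (Sum.elim A B) = ∑ K : Fin 4 ⊕ Fin 4 → Fin 8,
      (((Equiv.Perm.sign σ : ℤ) : ℝ) * ∏ i, A (σ i) (K (.inl i))) *
        (((Equiv.Perm.sign τ : ℤ) : ℝ) * ∏ i, B (τ i) (K (.inr i))) * dt fun p => bv (K p) :=
    fun σ τ => by
      have h := dt_perm (Sum.elim A B) σ τ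
      rw [dt_expand, eq_comm] at h
      have h2 := congrArg (((Equiv.Perm.sign σ : ℤ) : ℝ) * (Equiv.Perm.sign τ : ℤ) * ·) h
      simp only [Finset.mul_sum, Fintype.prod_sum_type, comp, Equiv.sumCongr_apply, Sum.map_inl,
        Sum.map_inr, Sum.elim_inl, Sum.elim_inr] at h2
      refine Eq.trans ?_ (h2.trans (Finset.sum_congr rfl fun K _ => by ring))
      linear_combination (-dt (Sum.elim A B) * ((Equiv.Perm.sign τ : ℤ) : ℝ) *
        (Equiv.Perm.sign τ : ℤ)) * s σ - dt (Sum.elim A B) * s τ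
  simp only [cup, Matrix.det_apply', Finset.sum_mul_sum, Matrix.of_apply, comp]
  simp only [Finset.sum_mul]
  rw [Finset.sum_comm, Finset.sum_congr rfl fun σ _ => Finset.sum_comm]
  simp only [← e, Finset.sum_const, Finset.card_univ, Fintype.card_perm, Fintype.card_fin,
    nsmul_eq_mul]
  norm_num [Nat.factorial]
  ring

theorem alg8 {C : (Fin 8 → ℝ) [⋀^Fin 4]→L[ℝ] ℝ}
    (h : ∀ (t : ℝ) v, C (fun j => pas t *ᵥ v j) = C v)
    (hQ : cup (fun I => C fun j => bv (I j)) (fun I => C fun j => bv (I j)) = 0) :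
    C (fun j => bv (ix4 j)) = 0 := by
  let c : ℕ → ℕ → ℕ → ℕ → ℝ := fun a b x y => C ![nb a, nb b, nb x, nb y]
  obtain ⟨h1, h2, h3, h4, h5, h6, h7⟩ := lin8 c (fun a b x y => by
      let n : Fin 4 → ℕ := ![a, b, x, y]
      have d1 := (C.hasFDerivAt fun j => pas (0 : ℝ) *ᵥ nb (n j)).comp_hasDerivAt (0 : ℝ)
        (hasDerivAt_pi.2 fun j => pas_nb (n j))
      have d2 := d1.unique ((hasDerivAt_const (0 : ℝ) (C fun j => nb (n j))).congr_of_eventuallyEq
        (.of_forall fun t => h t _))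
      simp only [ContinuousMultilinearMap.linearDeriv_apply, pas_zero_mulVec,
        ContinuousMultilinearMap.map_update_smul, Fin.sum_univ_four, smul_eq_mul] at d2
      refine Eq.trans ?_ d2
      have e : ∀ (j : Fin 4) (u : Fin 8 → ℝ), update (fun j => nb (n j)) j u =
          ![if j = 0 then u else nb a, if j = 1 then u else nb b, if j = 2 then u else nb x,
            if j = 3 then u else nb y] := fun j u => by
        funext i
        fin_cases i <;> fin_cases j <;> rfl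
      simp only [e]
      rfl)
    (fun a x y => C.map_eq_zero_of_eq _ (i := 0) (j := 1) rfl (by decide))
    (fun a x y => C.map_eq_zero_of_eq _ (i := 1) (j := 2) rfl (by decide))
    (fun a x y => C.map_eq_zero_of_eq _ (i := 2) (j := 3) rfl (by decide))
    (fun a x y => C.map_coord_zero 3 (funext fun r => if_neg r.2.ne))
  have ec : ∀ I : Fin 4 → Fin 8, C (fun j => bv (I j)) = c (I 0) (I 1) (I 2) (I 3) := fun I =>
    congrArg C (funext fun j => by fin_cases j <;> exact bv_eq _)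
  have cp : ∀ (I : Fin 4 → Fin 8) (σ : Equiv.Perm (Fin 4)), C (fun j => bv (I (σ j))) =
      ((Equiv.Perm.sign σ : ℤ) : ℝ) * C fun j => bv (I j) := fun I σ => by
    simpa [Units.smul_def, comp_def] using C.toAlternatingMap.map_perm (fun j => bv (I j)) σ
  have key : ∀ K : Fin 4 ⊕ Fin 4 → Fin 8, Monotone (K ∘ .inl) → Monotone (K ∘ .inr) →
      0 ≤ (C fun j => bv (K (.inl j))) * (C fun j => bv (K (.inr j))) * dt fun p => bv (K p) := by
    intro K m1 m2
    by_cases hK : Injective K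
    swap
    · rw [dt.map_eq_zero_of_not_injective (fun p => bv (K p)) fun e => hK (.of_comp (f := bv) e),
        mul_zero]
    have s1 := m1.strictMono_of_injective (hK.comp Sum.inl_injective)
    have s2 := m2.strictMono_of_injective (hK.comp Sum.inr_injective)
    have l1 : ∀ i j : Fin 4, i < j → K (.inl i) < K (.inl j) := fun i j e => s1 e
    have l2 : ∀ i j : Fin 4, i < j → K (.inr i) < K (.inr j) := fun i j e => s2 e
    have d := dt_one (K := K) ![K (.inl 0), K (.inl 1), K (.inl 2), K (.inl 3), K (.inr 0),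
      K (.inr 1), K (.inr 2), K (.inr 3)] fun p => by fin_cases p <;> rfl
    rw [ec, ec]
    rcases cases8 _ _ (l1 0 1 (by decide)) _ (l1 1 2 (by decide)) _ (l1 2 3 (by decide)) _ _
      (l2 0 1 (by decide)) _ (l2 1 2 (by decide)) _ (l2 2 3 (by decide)) (by simp [hK.eq_iff])
      with e | e | e
    · rw [h1 _ _ _ _ (l1 0 1 (by decide)) (l1 1 2 (by decide)) (l1 2 3 (by decide)) (Fin.is_lt _) e,
        zero_mul, zero_mul]
    · rw [h1 _ _ _ _ (l2 0 1 (by decide)) (l2 1 2 (by decide)) (l2 2 3 (by decide)) (Fin.is_lt _) e,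
        mul_zero, zero_mul]
    · simp only [List.mem_cons, List.cons.injEq, List.not_mem_nil, or_false, and_true] at e
      rcases e with e | e | e | e | e | e | e | e <;> obtain ⟨e1, e2, e3, e4, e5, e6, e7, e8⟩ := e <;>
        rw [e1, e2, e3, e4, e5, e6, e7, e8] at d ⊢ <;> rw [d (by decide) (by decide)] <;>
        simp only [Fin.coe_ofNat_eq_mod, Nat.reduceMod, h2, h3, h4, h5, h6, h7] <;>
        nlinarith [mul_self_nonneg (c 0 1 6 7)]
  have all : ∀ K : Fin 4 ⊕ Fin 4 → Fin 8,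
      0 ≤ (C fun j => bv (K (.inl j))) * (C fun j => bv (K (.inr j))) * dt fun p => bv (K p) := by
    intro K
    have := key (K ∘ (Tuple.sort (K ∘ .inl)).sumCongr (Tuple.sort (K ∘ .inr)))
      (Tuple.monotone_sort (K ∘ .inl)) (Tuple.monotone_sort (K ∘ .inr))
    have d := dt_perm (fun p => bv (K p)) (Tuple.sort (K ∘ .inl)) (Tuple.sort (K ∘ .inr))
    simp only [comp_def, Equiv.sumCongr_apply, Sum.map_inl, Sum.map_inr] at this d
    rw [d, cp fun j => K (.inl j), cp fun j => K (.inr j)] at this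
    generalize Tuple.sort (fun j => K (.inl j)) = σ, Tuple.sort (fun j => K (.inr j)) = τ at this
    rcases Int.units_eq_one_or (Equiv.Perm.sign σ) with e | e <;>
      rcases Int.units_eq_one_or (Equiv.Perm.sign τ) with e' | e' <;> simpa [e, e'] using this
  have z := (Finset.sum_eq_zero_iff_of_nonneg fun K _ => all K).1 hQ
    (Sum.elim ![0, 1, 6, 7] ![2, 3, 4, 5]) (Finset.mem_univ _)
  rw [dt_one ![0, 1, 6, 7, 2, 3, 4, 5] (by decide) (by decide) (by decide), ec, ec] at z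
  change c 0 1 6 7 * c 2 3 4 5 * 1 = 0 at z
  rw [ec]
  change c 0 1 6 7 = 0
  rw [h7] at z
  nlinarith [mul_self_eq_zero.1 (show c 0 1 6 7 * c 0 1 6 7 = 0 by linarith)]

end Pool.Agent.Lib.MP_029589_gt.Vn
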