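import Pool.Agent.Lib.MP_029589_gt.Per
import Pool.Agent.Lib.MP_029589_gt.VnegA

/-! Locally finite families of sheets and their forms. -/

set_option autoImplicit false

open scoped Manifold ContDiff Topology Matrix
open Set Filter Function Topology MeasureTheory

namespace Pool.Agent.Lib.MP_029589_gt.Vn

/-- Locally finite families of smooth maps on open sets. -/
structure Sh (k : ℕ) (I : Type) where
  /-- The domains. -/
  U : I → Set GR
  /-- The maps. -/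
  g : I → GR → Euc k
  op : ∀ i, IsOpen (U i)
  sm : ∀ i, ContDiffOn ℝ ∞ (g i) (U i)
  cl : ∀ i, IsClosed {p | p ∈ U i ∧ ‖g i p‖ ≤ 1}
  fin : ∀ K, IsCompact K → {i | ∃ p ∈ K, p ∈ U i ∧ ‖g i p‖ ≤ 1}.Finite

variable {k : ℕ} {I : Type} (D : Sh k I)

lemma Sh.loc : IsLocalHomeomorph fun z : Σ i, D.U i => z.2.1 := fun z =>
  IsLocalHomeomorphOn.of_comp_right (f := Sigma.mk z.1) (s := univ)
    (D.op z.1).isOpenEmbedding_subtypeVal.isLocalHomeomorph.isLocalHomeomorphOn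
    IsOpenEmbedding.sigmaMk.isLocalHomeomorph.isLocalHomeomorphOn z ⟨z.2, trivial, rfl⟩

lemma Sh.ev (z : Σ i, D.U i) : (fun z : Σ i, D.U i => D.g z.1 z.2.1) ∘ D.loc.localInverseAt z ∘ id
    =ᶠ[𝓝 z.2.1] D.g z.1 := by
  have h1 := D.loc.apply_self_mem_localInverseAt_source (x := z)
  have h2 := (D.loc.localInverseAt z).continuousAt h1
  rw [ContinuousAt, D.loc.localInverseAt_apply_self] at h2
  filter_upwards [(D.loc.localInverseAt z).open_source.mem_nhds h1,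
    h2.eventually (isOpen_range_sigmaMk.mem_nhds ⟨z.2, rfl⟩)] with p h3 ⟨q, h4⟩
  have h5 := D.loc.apply_localInverseAt_of_mem h3
  simp only [comp, id, ← h4] at h5 ⊢
  rw [h5]

lemma Sh.at {i : I} {p : GR} (h : p ∈ D.U i) : ContDiffAt ℝ ∞ (D.g i) p :=
  (D.sm i).contDiffAt ((D.op i).mem_nhds h)

/-- The etale space of a family. -/
def Sh.et : Et k (id : GR → GR) where
  F := Σ i, D.U i
  π z := z.2.1
  loc := D.loc
  f z := D.g z.1 z.2.1
  sm z p h := by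
    obtain rfl : p = z.2.1 := h
    exact (D.at z.2.2).congr_of_eventuallyEq (D.ev z)
  prop K hK := by
    have e : {z : GR × Σ i, D.U i | z.1 ∈ K ∧ id z.1 = z.2.2.1 ∧ ‖D.g z.2.1 z.2.2.1‖ ≤ 1} =
        ⋃ i ∈ {i | ∃ p ∈ K, p ∈ D.U i ∧ ‖D.g i p‖ ≤ 1},
          (fun p : D.U i => (p.1, ⟨i, p⟩)) '' {p | p.1 ∈ K ∧ ‖D.g i p‖ ≤ 1} := by
      ext ⟨p, i, q⟩
      simp only [mem_iUnion, mem_image]
      constructor
      · rintro ⟨h1, h2, h3⟩
        obtain rfl : p = q := h2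
        exact ⟨i, ⟨_, h1, q.2, h3⟩, q, ⟨h1, h3⟩, rfl⟩
      · rintro ⟨j, -, r, h1, ⟨⟩⟩
        exact ⟨h1.1, rfl, h1.2⟩
    rw [e]
    refine (D.fin K hK).isCompact_biUnion fun i _ => IsCompact.image ?_
      (continuous_subtype_val.prodMk continuous_sigmaMk)
    rw [Subtype.isCompact_iff]
    refine (congrArg IsCompact ?_).mp (hK.inter_right (D.cl i))
    ext p
    exact ⟨fun h => ⟨⟨p, h.2.1⟩, ⟨h.1, h.2.2⟩, rfl⟩, by
      rintro ⟨q, h, rfl⟩
      exact ⟨h.1, q.2, h.2⟩⟩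

lemma Sh.df (z : Σ i, D.U i) : D.et.df z z.2.1 = fderiv ℝ (D.g z.1) z.2.1 := (D.ev z).fderiv_eq

/-- Subfamilies. -/
def Sh.res (V : Set I) : Sh k I where
  U i := {p | p ∈ D.U i ∧ i ∈ V}
  g := D.g
  op i := (D.op i).inter isOpen_const
  sm i := (D.sm i).mono fun _ h => h.1
  cl i := (congrArg IsClosed (by ext; simp [and_right_comm])).mp
    ((D.cl i).inter (isClosed_const (p := i ∈ V)))
  fin K hK := (D.fin K hK).subset fun _ ⟨p, h1, h2, h3⟩ => ⟨p, h1, h2.1, h3⟩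

variable (b : Euc k → ℝ)

/-- The form of one sheet. -/
noncomputable def Sh.cs (i : I) : GR → GR [⋀^Fin k]→L[ℝ] ℝ :=
  (D.U i).indicator fun p => b (D.g i p) • (vol k).compContinuousLinearMap (fderiv ℝ (D.g i) p)

lemma Sh.cs_mem {i : I} {p : GR} (h : p ∈ D.U i) : D.cs b i p =
    b (D.g i p) • (vol k).compContinuousLinearMap (fderiv ℝ (D.g i) p) := indicator_of_mem h _

lemma Sh.cs_not {i : I} {p : GR} (h : p ∉ D.U i) : D.cs b i p = 0 := indicator_of_notMem h _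

/-- The form of a subfamily. -/
noncomputable def Sh.fm (V : Set I) (p : GR) : GR [⋀^Fin k]→L[ℝ] ℝ := ∑ᶠ i ∈ V, D.cs b i p

lemma Sh.form_eq (V : Set I) : (D.res V).et.form b = D.fm b V := by
  funext p
  refine (finsum_mem_eq_of_bijOn (t := {i | p ∈ D.U i ∧ i ∈ V}) (g := fun i => D.cs b i p)
    Sigma.fst ⟨?_, ?_, fun i hi => ⟨⟨i, p, hi⟩, rfl, rfl⟩⟩ ?_).trans
    (finsum_mem_inter_support_eq' _ _ _ fun i hi => and_iff_right (mem_of_indicator_ne_zero hi))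
  · rintro ⟨i, q⟩ rfl
    exact q.2
  · rintro ⟨i, q⟩ rfl ⟨j, r⟩ h rfl
    exact congrArg _ (Subtype.ext h)
  · rintro z rfl
    exact (congrArg (fun L => b (D.g z.1 z.2.1) • (vol k).compContinuousLinearMap L)
      ((D.res V).df z)).trans (D.cs_mem b z.2.2.1).symm

/-- Invariance of a family. -/
def Sh.Inv [MulAction Gf I] (γ : Gf) : Prop :=
  ∀ i p, (γ • p ∈ D.U (γ • i) ↔ p ∈ D.U i) ∧ D.g (γ • i) (γ • p) = D.g i p

/-- Integral translations. -/
def tr (a : Fin 8 → ℤ) : Gf := ⟨a, 0⟩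

lemma tr_smul (a : Fin 8 → ℤ) (x : Fin 8 → ℝ) (t : ℝ) : tr a • ((x, t) : GR) = (cz a + x, t) := by
  simp [gf_smul, tr, pas_zero_mulVec]

lemma mul_tr (γ : Gf) (a : Fin 8 → ℤ) : γ * tr a = tr (pas γ.k *ᵥ a) * γ := by
  ext1 <;> simp [tr, pas_zero_mulVec, add_comm]

lemma tr_mul (a a' : Fin 8 → ℤ) : tr a * tr a' = tr (a + a') := by
  ext1 <;> simp [tr, pas_zero_mulVec]

/-- Orbits of the translations. -/
def orb [MulAction Gf I] (e : I) : Set I := {i | ∃ a, i = tr a • e}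

lemma smul_orb [MulAction Gf I] (γ : Gf) (e i : I) : γ • i ∈ orb (γ • e) ↔ i ∈ orb e := by
  have h : ∀ (γ : Gf) (e i : I), i ∈ orb e → γ • i ∈ orb (γ • e) := by
    rintro γ e _ ⟨a, rfl⟩
    exact ⟨_, by rw [smul_smul, mul_tr, mul_smul]⟩
  exact ⟨fun h1 => by simpa using h γ⁻¹ _ _ h1, h γ e i⟩

lemma tr_orb [MulAction Gf I] (a : Fin 8 → ℤ) (e i : I) : tr a • i ∈ orb e ↔ i ∈ orb e := by
  have h : ∀ (a : Fin 8 → ℤ) (i : I), i ∈ orb e → tr a • i ∈ orb e := by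
    rintro a _ ⟨a', rfl⟩
    exact ⟨_, by rw [smul_smul, tr_mul]⟩
  refine ⟨fun h1 => ?_, h a i⟩
  have := h (-a) _ h1
  rwa [smul_smul, tr_mul, neg_add_cancel, show tr 0 = 1 from rfl, one_smul] at this

lemma self_orb [MulAction Gf I] (e : I) : e ∈ orb e := ⟨0, (one_smul Gf e).symm⟩

lemma orb_eq [MulAction Gf I] {e i : I} (h : i ∈ orb e) : orb i = orb e := by
  obtain ⟨a, rfl⟩ := h
  ext j
  rw [← tr_orb (-a), ← smul_orb (tr (-a)), ← tr_orb (-a) e j, tr_orb, smul_smul (tr _) (tr a), tr_mul,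
    neg_add_cancel, show tr 0 = 1 from rfl, one_smul]

variable {D b}

lemma Sh.Inv.cs [MulAction Gf I] {γ : Gf} (h : D.Inv γ) (i : I) (p : GR) (v : Fin k → GR) :
    D.cs b (γ • i) (γ • p) (fun j => pl γ.k (v j)) = D.cs b i p v := by
  by_cases hp : p ∈ D.U i
  · have e : fderiv ℝ (D.g i) p = (fderiv ℝ (D.g (γ • i)) (γ • p)).comp (pl γ.k) := by
      rw [← funext fun q => (h i q).2]
      exact ((((D.at ((h i p).1.2 hp)).differentiableAt (by simp)).hasFDerivAt).comp p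
        (hasFDerivAt_gf γ p)).fderiv
    rw [D.cs_mem b hp, D.cs_mem b ((h i p).1.2 hp), (h i p).2, e]
    rfl
  · rw [D.cs_not b hp, D.cs_not b (mt (h i p).1.1 hp)]
    rfl

variable (hb' : ∀ y, b y ≠ 0 → ‖y‖ ≤ 3 / 4)
include hb'

lemma Sh.exists_T {K : Set GR} (hK : IsCompact K) :
    ∃ T : Finset I, ∀ p ∈ K, ∀ i, D.cs b i p ≠ 0 → i ∈ T := by
  refine ⟨(D.fin K hK).toFinset, fun p hp i hi => ?_⟩
  have h1 := mem_of_indicator_ne_zero hi
  rw [D.cs_mem b h1] at hi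
  exact (Finite.mem_toFinset _).2 ⟨p, hp, h1, (hb' _ (left_ne_zero_of_smul hi)).trans (by norm_num)⟩

omit hb' in
open Classical in
lemma Sh.fm_sum {T : Finset I} {p : GR} (h : ∀ i, D.cs b i p ≠ 0 → i ∈ T) (V : Set I) :
    D.fm b V p = ∑ i ∈ T with i ∈ V, D.cs b i p :=
  finsum_mem_eq_sum_of_inter_support_eq _ (by
    ext i
    simp only [mem_inter_iff, Finset.coe_filter, mem_support, mem_ofPred_eq]
    exact and_congr_left fun hi => (and_iff_right (h i hi)).symm)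

lemma Sh.fm_apply (V : Set I) (p : GR) (v : Fin k → GR) :
    D.fm b V p v = ∑ᶠ i ∈ V, D.cs b i p v := by
  obtain ⟨T, hT⟩ := D.exists_T hb' (isCompact_singleton (x := p))
  exact (ContinuousAlternatingMap.apply ℝ GR ℝ v).toLinearMap.toAddMonoidHom.map_finsum_mem'
    (T.finite_toSet.subset fun i hi => hT p rfl i hi.2)

lemma Sh.Inv.fm [MulAction Gf I] {γ : Gf} (h : D.Inv γ) {V V' : Set I}
    (hV : ∀ i, γ • i ∈ V' ↔ i ∈ V) (p : GR) (v : Fin k → GR) :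
    D.fm b V' (γ • p) (fun j => pl γ.k (v j)) = D.fm b V p v := by
  rw [D.fm_apply hb', D.fm_apply hb', eq_comm]
  exact finsum_mem_eq_of_bijOn (γ • ·) ⟨fun i => (hV i).2, (MulAction.injective γ).injOn,
    fun i hi => ⟨γ⁻¹ • i, (hV _).1 (by simpa), smul_inv_smul γ i⟩⟩ fun i _ => (h.cs i p v).symm

variable (hb : ContDiff ℝ ∞ b)
include hb

lemma Sh.sm_fm (V : Set I) : ContDiff ℝ ∞ (D.fm b V) :=
  D.form_eq b V ▸ (D.res V).et.contDiff_form continuous_id hb hb'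

lemma Sh.cont_cs (i : I) : Continuous (D.cs b i) := by
  have := (D.sm_fm hb' hb {i}).continuous
  rwa [show D.fm b {i} = D.cs b i from funext fun p => finsum_mem_singleton] at this

lemma Sh.per [MulAction Gf I] (h : ∀ a, D.Inv (tr a)) {V : Set I}
    (hV : ∀ a i, tr a • i ∈ V ↔ i ∈ V) : PerForm (D.fm b V) where
  sm := D.sm_fm hb' hb V
  cl := D.form_eq b V ▸ (D.res V).et.closed_form continuous_id hb hb'
  per a x t := by
    ext v
    simpa [tr_smul, show (tr a).k = 0 from rfl, pl_zero] using (h a).fm hb' (hV a) (x, t) v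

end Pool.Agent.Lib.MP_029589_gt.Vn
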