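import Pool.Agent.Lib.MP_029589_gt.VnegB

/-! The cup square of the class of an orbit vanishes. -/

set_option autoImplicit false

open scoped Manifold ContDiff Topology Matrix
open Set Filter Function Topology MeasureTheory

namespace Pool.Agent.Lib.MP_029589_gt.Vn

lemma vol_apply {k : ℕ} (v : Fin k → Euc k) :
    vol k v = Matrix.det (Matrix.of fun r j => v j r) :=
  Module.Basis.det_apply _ _

lemma exists_cup : ∃ B : ((Fin 4 → Fin 8) → ℝ) →L[ℝ] ((Fin 4 → Fin 8) → ℝ) →L[ℝ] ℝ,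
    ∀ c c', B c c' = cup c c' :=
  ⟨LinearMap.toContinuousLinearMap (LinearMap.toContinuousLinearMap.toLinearMap ∘ₗ
    LinearMap.mk₂ ℝ cup
      (fun _ _ _ => by simp only [cup, Pi.add_apply, add_mul, Finset.sum_add_distrib])
      (fun _ _ _ => by simp only [cup, Pi.smul_apply, smul_eq_mul, Finset.mul_sum, mul_assoc])
      (fun _ _ _ => by simp only [cup, Pi.add_apply, add_mul, mul_add, Finset.sum_add_distrib])
      fun _ _ _ => by
        simp only [cup, Pi.smul_apply, smul_eq_mul, Finset.mul_sum, mul_assoc, mul_left_comm]),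
    fun _ _ => rfl⟩

/-- The cup product as a continuous bilinear map. -/
noncomputable def cupL := exists_cup.choose

lemma cupL_apply (c c' : (Fin 4 → Fin 8) → ℝ) : cupL c c' = cup c c' := exists_cup.choose_spec c c'

lemma cupL_smul (s s' : ℝ) (c c' : (Fin 4 → Fin 8) → ℝ) :
    cupL (s • c) (s' • c') = s * s' * cup c c' := by
  rw [map_smul, map_smul, smul_apply, cupL_apply, smul_eq_mul, smul_eq_mul, mul_left_comm, mul_assoc]

lemma exists_E8 : ∃ E : Euc 8 ≃L[ℝ] Euc 4 × Euc 4,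
    ∀ u w r, E.symm (u, w) r = Sum.elim u w (e8.symm r) :=
  ⟨EuclideanSpace.finAddEquivProd (n := 4) (m := 4), fun u w r => by
    obtain ⟨p | p, rfl⟩ := e8.surjective r <;> rw [e8.symm_apply_apply] <;> fin_cases p <;> rfl⟩

/-- The splitting of Euclidean eight-space. -/
noncomputable def E8 := exists_E8.choose

lemma E8_apply (u w : Euc 4) (r : Fin 8) : E8.symm (u, w) r = Sum.elim u w (e8.symm r) :=
  exists_E8.choose_spec u w r

lemma norm_E8 (u w : Euc 4) : ‖E8.symm (u, w)‖ ^ 2 = ‖u‖ ^ 2 + ‖w‖ ^ 2 := by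
  simp only [EuclideanSpace.norm_sq_eq, E8_apply]
  rw [e8.symm.sum_comp fun p => ‖Sum.elim u w p‖ ^ 2, Fintype.sum_sum_type]
  rfl

/-- Projection along a direction. -/
noncomputable def pr (a : Fin 8 → ℝ) : GR →L[ℝ] GR :=
  (ContinuousLinearMap.inl ℝ _ ℝ).comp (.fst ℝ _ ℝ + (ContinuousLinearMap.snd ℝ _ ℝ).smulRight a)

lemma pr_apply (a x : Fin 8 → ℝ) (t : ℝ) : pr a (x, t) = (x + t • a, 0) := rfl

variable {I : Type} (D : Sh 4 I)

lemma E8_le {u w : Euc 4} (h : ‖E8.symm (u, w)‖ ≤ 1) : ‖u‖ ≤ 1 ∧ ‖w‖ ≤ 1 := by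
  have := norm_E8 u w
  have h2 := pow_le_one₀ (n := 2) (norm_nonneg _) h
  constructor <;> refine (sq_le_one_iff₀ (norm_nonneg _)).1 ?_ <;>
    linarith [sq_nonneg ‖u‖, sq_nonneg ‖w‖]

lemma Sh.sm_two (a : Fin 8 → ℝ) (i : I) :
    ContDiffOn ℝ ∞ (fun p => E8.symm (D.g i (pr 0 p), D.g i (pr a p)))
      (pr 0 ⁻¹' D.U i ∩ pr a ⁻¹' D.U i) :=
  E8.symm.contDiff.comp_contDiffOn
    (((D.sm i).comp (pr 0).contDiff.contDiffOn fun _ h => h.1).prodMk
      ((D.sm i).comp (pr a).contDiff.contDiffOn fun _ h => h.2))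

/-- The family of pairs of values at points which differ by a multiple of `a`. -/
noncomputable def Sh.two (a : Fin 8 → ℝ) : Sh 8 I where
  U i := pr 0 ⁻¹' D.U i ∩ pr a ⁻¹' D.U i
  g i p := E8.symm (D.g i (pr 0 p), D.g i (pr a p))
  op i := ((D.op i).preimage (pr 0).continuous).inter ((D.op i).preimage (pr a).continuous)
  sm := D.sm_two a
  cl i := by
    refine (congrArg IsClosed ?_).mp (((D.sm_two a i).continuousOn.mono
      fun p h => ⟨h.1.1, h.2.1⟩).norm.preimage_isClosed_of_isClosed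
      (((D.cl i).preimage (pr 0).continuous).inter ((D.cl i).preimage (pr a).continuous))
      (isClosed_Iic (a := 1)))
    ext p
    exact ⟨fun h => ⟨⟨h.1.1.1, h.1.2.1⟩, h.2⟩,
      fun h => ⟨⟨⟨h.1.1, (E8_le h.2).1⟩, h.1.2, (E8_le h.2).2⟩, h.2⟩⟩
  fin K hK := (D.fin _ (hK.image (pr 0).continuous)).subset
    fun _ ⟨p, h1, h2, h3⟩ => ⟨_, ⟨p, h1, rfl⟩, h2.1, (E8_le h3).1⟩

/-- The coefficients of a form. -/
def co (β : GR [⋀^Fin 4]→L[ℝ] ℝ) (J : Fin 4 → Fin 8) : ℝ := β fun j => (bv (J j), 0)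

/-- The product of two copies of a function. -/
noncomputable def b2 (b : Euc 4 → ℝ) (y : Euc 8) : ℝ := b (E8 y).1 * b (E8 y).2

variable {b : Euc 4 → ℝ}

lemma co_zero : co 0 = 0 := rfl

lemma Sh.co_cs {i : I} {p : GR} (h : p ∈ D.U i) : co (D.cs b i p) = b (D.g i p) •
    fun J => Matrix.det (Matrix.of fun r j => fderiv ℝ (D.g i) p (bv (J j), 0) r) := by
  funext J
  rw [D.cs_mem b h, Pi.smul_apply, ← vol_apply]
  rfl

lemma Sh.cup_self (i : I) (p : GR) : cupL (co (D.cs b i p)) (co (D.cs b i p)) = 0 := by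
  by_cases h : p ∈ D.U i
  · rw [D.co_cs h, cupL_smul,
      cup_det (fun r j => fderiv ℝ (D.g i) p (bv j, 0) r) fun r j => fderiv ℝ (D.g i) p (bv j, 0) r,
      dt.map_eq_zero_of_eq _ (i := .inl 0) (j := .inr 0) rfl (by simp)]
    simp
  · rw [D.cs_not b h, co_zero, map_zero]

lemma Sh.two_cs (a : Fin 8 → ℝ) (i : I) (p : GR) :
    576 * (D.two a).cs (b2 b) i p (fun j => (bv j, 0)) =
      cupL (co (D.cs b i (pr 0 p))) (co (D.cs b i (pr a p))) := by
  by_cases h : p ∈ (D.two a).U i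
  · have d : ∀ a : Fin 8 → ℝ, pr a p ∈ D.U i → HasFDerivAt (fun p => D.g i (pr a p))
        ((fderiv ℝ (D.g i) (pr a p)).comp (pr a)) p := fun a h =>
      ((D.at h).differentiableAt (by simp)).hasFDerivAt.comp p (pr a).hasFDerivAt
    have e := (E8.symm.hasFDerivAt.comp p ((d 0 h.1).prodMk (d a h.2))).fderiv
    rw [(D.two a).cs_mem _ h, show fderiv ℝ ((D.two a).g i) p = _ from e, D.co_cs h.1, D.co_cs h.2,
      cupL_smul, cup_det (fun r j => fderiv ℝ (D.g i) (pr 0 p) (bv j, 0) r)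
        fun r j => fderiv ℝ (D.g i) (pr a p) (bv j, 0) r, dt_apply,
      ContinuousAlternatingMap.smul_apply, ContinuousAlternatingMap.compContinuousLinearMap_apply,
      vol_apply, ← mul_left_comm, smul_eq_mul]
    simp only [b2, Sh.two, E8.apply_symm_apply]
    refine congrArg _ (congrArg _ (congrArg Matrix.det ?_))
    ext r j
    simp only [Matrix.of_apply, comp, ContinuousLinearMap.comp_apply, ContinuousLinearEquiv.coe_coe,
      ContinuousLinearMap.prod_apply, pr_apply, zero_smul, add_zero, E8_apply]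
    rcases e8.symm r with q | q <;> rfl
  · rw [(D.two a).cs_not _ h]
    rcases not_and_or.1 h with h | h <;> rw [D.cs_not b h, co_zero] <;> simp

open Classical in
lemma fsum {f : I → ℝ} {T : Finset I} (h : ∀ i, f i ≠ 0 → i ∈ T) (V : Set I) :
    ∑ᶠ i ∈ V, f i = ∑ i ∈ T with i ∈ V, f i :=
  finsum_mem_eq_sum_of_inter_support_eq _ (by
    ext i
    simp only [mem_inter_iff, Finset.coe_filter, mem_support, mem_ofPred_eq]
    exact and_congr_left fun hi => (and_iff_right (h i hi)).symm)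

lemma co_sum (T : Finset I) (β : I → GR [⋀^Fin 4]→L[ℝ] ℝ) :
    co (∑ i ∈ T, β i) = ∑ i ∈ T, co (β i) := by
  funext J
  simp only [co, ContinuousAlternatingMap.sum_apply, Finset.sum_apply]

lemma b2_supp (hb' : ∀ y, b y ≠ 0 → ‖y‖ ≤ 1 / 2) (y : Euc 8) (h : b2 b y ≠ 0) : ‖y‖ ≤ 3 / 4 := by
  have h1 := norm_E8 (E8 y).1 (E8 y).2
  have h2 := pow_le_pow_left₀ (norm_nonneg _) (hb' _ (left_ne_zero_of_mul h)) 2
  have h3 := pow_le_pow_left₀ (norm_nonneg _) (hb' _ (right_ne_zero_of_mul h)) 2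
  rw [Prod.mk.eta, E8.symm_apply_apply] at h1
  exact abs_le_of_sq_le_sq' (by linarith) (by norm_num) |>.2

variable {D} [MulAction Gf I] (h : ∀ a, D.Inv (tr a)) (hb' : ∀ y, b y ≠ 0 → ‖y‖ ≤ 1 / 2)
  (hb : ContDiff ℝ ∞ b)
include h

lemma Sh.co_tr (n : Fin 8 → ℤ) (i : I) (x : Fin 8 → ℝ) :
    co (D.cs b (tr n • i) (cz n + x, 0)) = co (D.cs b i (x, 0)) := by
  funext J
  simpa [co, tr_smul, show (tr n).k = 0 from rfl, pl_zero] using
    (h n).cs (b := b) i (x, 0) fun j => (bv (J j), 0)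

lemma Sh.inv_two (a : Fin 8 → ℝ) (n : Fin 8 → ℤ) : (D.two a).Inv (tr n) := by
  rintro i ⟨x, t⟩
  have e : ∀ a, pr a (tr n • ((x, t) : GR)) = tr n • pr a (x, t) := fun a => by
    rw [tr_smul, pr_apply, pr_apply, tr_smul, add_assoc]
  simp only [Sh.two, mem_inter_iff, mem_preimage, e, (h n i _).1, (h n i _).2, and_self]

include hb' hb

lemma Sh.hom (a : Fin 8 → ℝ) (e : I) : ∫ x in Icc (0 : Fin 8 → ℝ) 1,
    (D.two a).fm (b2 b) (orb e) (x, 1) (fun j => (bv j, 0)) = 0 := by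
  have P := (D.two a).per (b2_supp hb') ((hb.comp (contDiff_fst.comp E8.contDiff)).mul
    (hb.comp (contDiff_snd.comp E8.contDiff))) (Sh.inv_two h a) (tr_orb · e)
  rw [← avg_apply P.sm.continuous, P.avg_const 1 0, avg_apply P.sm.continuous]
  refine (integral_congr_ae (.of_forall fun x => ?_)).trans (integral_zero _ _)
  refine ((D.two a).fm_apply (b2_supp hb') _ _ _).trans
    (finsum_mem_eq_zero_of_forall_eq_zero fun i _ => ?_)
  have := D.two_cs (b := b) a i (x, 0)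
  rw [pr_apply, pr_apply, zero_smul, zero_smul, D.cup_self] at this
  linarith

lemma Sh.unfold (a : Fin 8 → ℝ) (e : I) : ∫ x in Icc (0 : Fin 8 → ℝ) 1,
    cupL (co (D.fm b (orb e) (x, 0))) (co (D.fm b (orb e) (x + a, 0))) = 0 := by
  classical
  have hb3 : ∀ y, b y ≠ 0 → ‖y‖ ≤ 3 / 4 := fun y hy => (hb' y hy).trans (by norm_num)
  have c0 : ∀ a : Fin 8 → ℝ, Continuous fun x : Fin 8 → ℝ => ((x + a, 0) : GR) := fun a => by
    fun_prop
  obtain ⟨T, hT⟩ := D.exists_T hb3 (((isCompact_Icc (a := 0) (b := 1)).image (c0 0)).union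
    ((isCompact_Icc (a := 0) (b := 1)).image (c0 a)))
  choose! n hn using fun (j : I) (hj : j ∈ orb e) => hj
  have cm : ∀ i ∈ orb e, ∀ j ∈ orb e, tr (n j) • i = tr (n i) • j := fun i hi j hj => by
    conv_lhs => rw [hn i hi, smul_smul, tr_mul, add_comm, ← tr_mul, mul_smul, ← hn j hj]
  have iv : ∀ m : Fin 8 → ℤ, ∀ i ∈ orb e, (tr m)⁻¹ • i ∈ orb e := fun m i hi => by
    rwa [← tr_orb m, smul_inv_smul]
  let W := T.filter (· ∈ orb e)
  let J := W.biUnion fun i => W.image ((tr (n i))⁻¹ • ·)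
  have hJ : ∀ j ∈ J, j ∈ orb e := fun j hj => by
    obtain ⟨i, -, hj⟩ := Finset.mem_biUnion.1 hj
    obtain ⟨i', hi', rfl⟩ := Finset.mem_image.1 hj
    exact iv _ _ (Finset.mem_filter.1 hi').2
  have key : ∀ x ∈ Icc (0 : Fin 8 → ℝ) 1,
      cupL (co (D.fm b (orb e) (x, 0))) (co (D.fm b (orb e) (x + a, 0))) = ∑ j ∈ J,
        576 * (D.two (a - cz (n j))).fm (b2 b) (orb e) (x, 1) (fun j => (bv j, 0)) := by
    intro x hx
    have t1 := hT (x, 0) (Or.inl ⟨x, hx, by simp⟩)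
    have t2 := hT (x + a, 0) (Or.inr ⟨x, hx, rfl⟩)
    have e1 : ∀ j ∈ J, 576 * (D.two (a - cz (n j))).fm (b2 b) (orb e) (x, 1)
        (fun j => (bv j, 0)) = ∑ i ∈ W,
        cupL (co (D.cs b i (x, 0))) (co (D.cs b (tr (n i) • j) (x + a, 0))) := fun j hj => by
      have e2 := fun i => D.two_cs (b := b) (a - cz (n j)) i (x, 1)
      simp only [pr_apply, smul_zero, add_zero, one_smul] at e2
      rw [Sh.fm_apply (b2_supp hb'), fsum (T := T) fun i hi => t1 i fun e3 => hi (by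
        have := e2 i
        rw [e3, co_zero, map_zero, zero_apply] at this
        linarith), Finset.mul_sum]
      refine Finset.sum_congr rfl fun i hi => ?_
      rw [e2, ← cm i (Finset.mem_filter.1 hi).2 j (hJ j hj), ← Sh.co_tr h (n j) i (x + _)]
      congr 4
      abel
    rw [Finset.sum_congr rfl e1, Finset.sum_comm, Sh.fm_sum t1, Sh.fm_sum t2, co_sum, co_sum,
      map_sum cupL, sum_apply]
    refine Finset.sum_congr rfl fun i hi => ?_
    rw [map_sum, ← Finset.sum_subset (Finset.subset_biUnion_of_mem _ hi) fun j hj hj' => ?_,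
      Finset.sum_image (MulAction.injective _).injOn]
    · simp only [smul_inv_smul]
      rfl
    · rw [of_not_not (a := D.cs b (tr (n i) • j) (x + a, 0) = 0) fun e3 => hj' (Finset.mem_image.2
        ⟨_, Finset.mem_filter.2 ⟨t2 _ e3, (tr_orb _ _ _).2 (hJ j hj)⟩, inv_smul_smul _ _⟩),
        co_zero, map_zero]
  rw [setIntegral_congr_fun measurableSet_Icc key, integral_finsetSum]
  · exact Finset.sum_eq_zero fun j _ => by rw [integral_const_mul, Sh.hom h hb' hb, mul_zero]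
  · intro j _
    have := ((D.two (a - cz (n j))).sm_fm (b2_supp hb') ((hb.comp (contDiff_fst.comp
      E8.contDiff)).mul (hb.comp (contDiff_snd.comp E8.contDiff))) (orb e)).continuous
    exact Continuous.integrableOn_Icc (by fun_prop)

theorem Sh.cup_avg (e : I) : cup (fun J => avg (D.fm b (orb e)) 0 fun j => bv (J j))
    (fun J => avg (D.fm b (orb e)) 0 fun j => bv (J j)) = 0 := by
  have P := D.per (fun y hy => (hb' y hy).trans (by norm_num)) hb h (tr_orb · e)
  have c1 := P.sm.continuous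
  obtain ⟨φ, hφ⟩ : ∃ φ : (Fin 8 → ℝ) → (Fin 4 → Fin 8) → ℝ,
    φ = fun x => co (D.fm b (orb e) (x, 0)) := ⟨_, rfl⟩
  have c2 : Continuous φ := hφ ▸ continuous_pi fun J => by
    unfold co
    fun_prop
  have e1 : (fun J => avg (D.fm b (orb e)) 0 fun j => bv (J j)) = ∫ x in Icc 0 1, φ x := by
    funext J
    rw [avg_apply c1, eval_integral (f := φ) fun J =>
      ((continuous_apply J).comp c2).integrableOn_Icc, hφ]
    rfl
  have e2 : ∀ x, ∫ a in Icc 0 1, φ (x + a) = ∫ x in Icc 0 1, φ x := fun x => by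
    simpa [pas_zero_mulVec] using integral_per_affine c2 (fun a x => by rw [hφ]; simp only [P.per])
      0 x
  have e3 : ∀ x, cupL (φ x) (∫ x in Icc 0 1, φ x) = ∫ a in Icc 0 1, cupL (φ x) (φ (x + a)) :=
    fun x => by
      rw [← e2 x, (cupL (φ x)).integral_comp_comm (Continuous.integrableOn_Icc (by fun_prop))]
  rw [e1, ← cupL_apply, ← cupL.flip_apply, ← (cupL.flip _).integral_comp_comm c2.integrableOn_Icc]
  simp only [cupL.flip_apply, e3]
  rw [integral_integral_swap]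
  · refine (integral_congr_ae (.of_forall fun a => ?_)).trans (integral_zero _ _)
    rw [hφ]
    exact Sh.unfold h hb' hb a e
  · rw [Measure.prod_restrict]
    exact ContinuousOn.integrableOn_compact (isCompact_Icc.prod isCompact_Icc)
      (Continuous.continuousOn (by fun_prop))

end Pool.Agent.Lib.MP_029589_gt.Vn
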