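import Pool.Agent.Lib.MP_029589_gt.Per

/-! The expanding self-covering of the nilmanifold and invariance of the form. -/

set_option autoImplicit false

open scoped Manifold ContDiff Topology Matrix
open Set Filter Function Topology MeasureTheory

namespace Pool.Agent.Lib.MP_029589_gt

/-- The diagonal dilation. -/
noncomputable def dgl (c : ℝ) : (Fin 8 → ℝ) →L[ℝ] (Fin 8 → ℝ) :=
  .pi fun i => c ^ ((i : ℕ) + 1) • .proj i

lemma dgl_apply (c : ℝ) (x : Fin 8 → ℝ) (i : Fin 8) : dgl c x i = c ^ ((i : ℕ) + 1) * x i := rfl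

lemma dgl_pas (c t : ℝ) (x : Fin 8 → ℝ) : dgl c (pas t *ᵥ x) = pas (c * t) *ᵥ dgl c x := by
  ext i
  simp only [dgl_apply, pas, Matrix.mulVec, dotProduct, Finset.mul_sum]
  refine Finset.sum_congr rfl fun j _ => ?_
  rcases lt_or_ge (i : ℕ) j with h | h
  · simp [Nat.choose_eq_zero_of_lt h]
  · obtain ⟨r, hr⟩ := Nat.exists_eq_add_of_le h
    rw [hr, Nat.add_sub_cancel_left]
    ring

lemma dgl_dgl (c c' : ℝ) (x : Fin 8 → ℝ) : dgl c (dgl c' x) = dgl (c * c') x := by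
  ext i
  simp only [dgl_apply, mul_pow, mul_assoc]

lemma dgl_one (x : Fin 8 → ℝ) : dgl 1 x = x := by
  ext i
  simp [dgl_apply]

/-- The dilation of the real group. -/
noncomputable def dlt (c : ℝ) : GR →L[ℝ] GR := (dgl c).prodMap (c • .id ℝ ℝ)

lemma dlt_apply (c : ℝ) (g : GR) : dlt c g = (dgl c g.1, c * g.2) := rfl

lemma dlt_dlt (c c' : ℝ) (g : GR) : dlt c (dlt c' g) = dlt (c * c') g := by
  simp only [dlt_apply, dgl_dgl, mul_assoc]

lemma dlt_one (g : GR) : dlt 1 g = g := by simp only [dlt_apply, dgl_one, one_mul]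

lemma dlt_pl (c t : ℝ) (g : GR) : dlt c (pl t g) = pl (c * t) (dlt c g) := by
  simp only [dlt_apply, pl_apply, dgl_pas]

lemma norm_dlt {c : ℝ} (h0 : 0 ≤ c) (h1 : c ≤ 1) (g : GR) : ‖dlt c g‖ ≤ c * ‖g‖ := by
  rw [dlt_apply, Prod.norm_mk]
  refine max_le ((pi_norm_le_iff_of_nonneg (by positivity)).2 fun i => ?_) ?_
  · rw [dgl_apply, norm_mul, norm_pow, Real.norm_of_nonneg h0]
    exact mul_le_mul (pow_le_of_le_one h0 h1 (by simp))
      ((norm_le_pi_norm g.1 i).trans (norm_fst_le g)) (norm_nonneg _) h0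
  · rw [norm_mul, Real.norm_of_nonneg h0]
    exact mul_le_mul_of_nonneg_left (norm_snd_le g) h0

/-- The dilation of the lattice. -/
def dlG (m : ℕ) (γ : Gf) : Gf := ⟨fun i => m ^ ((i : ℕ) + 1) * γ.a i, m * γ.k⟩

lemma dlt_smul (m : ℕ) (γ : Gf) (g : GR) : dlt m (γ • g) = dlG m γ • dlt m g := by
  rw [gf_smul_eq, gf_smul_eq, map_add, dlt_pl]
  congr 1
  · ext i <;> simp [dlt_apply, dgl_apply, dlG]
  · simp [dlG]

/-- The expanding map of the nilmanifold. -/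
noncomputable def dlB (m : ℕ) : BB → BB :=
  Quotient.lift (fun g => qm Gf (dlt m g)) fun a b h => by
    obtain ⟨γ, rfl⟩ := qm_eq.1 (Quotient.sound h : qm Gf a = qm Gf b)
    rw [dlt_smul, qm_smul]

lemma dlB_qm (m : ℕ) (g : GR) : dlB m (qm Gf g) = qm Gf (dlt m g) := rfl

lemma cont_qm : Continuous (qm Gf : GR → BB) := (qm_cov GR Gf).continuous

variable {m : ℕ} (hm : m ≠ 0)
include hm

lemma dlt_inv (g : GR) : dlt m (dlt (m : ℝ)⁻¹ g) = g := by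
  rw [dlt_dlt, mul_inv_cancel₀ (Nat.cast_ne_zero.2 hm), dlt_one]

lemma inv_dlt (g : GR) : dlt (m : ℝ)⁻¹ (dlt m g) = g := by
  rw [dlt_dlt, inv_mul_cancel₀ (Nat.cast_ne_zero.2 hm), dlt_one]

lemma dlB_loc : IsLocalHomeomorph (dlB m) := by
  have h := (qm_cov GR Gf).isLocalHomeomorph
  have h1 : IsLocalHomeomorph (dlB m ∘ qm Gf) := h.comp (ContinuousLinearEquiv.equivOfInverse
    (dlt m) (dlt (m : ℝ)⁻¹) (inv_dlt hm) (dlt_inv hm)).toHomeomorph.isLocalHomeomorph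
  have h2 := IsLocalHomeomorphOn.of_comp_right (s := univ) h1.isLocalHomeomorphOn
    h.isLocalHomeomorphOn
  rw [image_univ, Quotient.mk_surjective.range_eq] at h2
  exact isLocalHomeomorph_iff_isLocalHomeomorphOn_univ.2 h2

lemma inv_dlt_smul (ν : Gf) (g : GR) : dlt (m : ℝ)⁻¹ (dlG m ν • g) = ν • dlt (m : ℝ)⁻¹ g := by
  rw [← dlt_inv hm g, ← dlt_smul, inv_dlt hm, inv_dlt hm]

lemma qm_dlt_eq {γ γ' : Gf} {g : GR} :
    qm Gf (dlt (m : ℝ)⁻¹ (γ • g)) = qm Gf (dlt (m : ℝ)⁻¹ (γ' • g)) ↔ ∃ ν, dlG m ν * γ' = γ := by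
  refine qm_eq.trans (exists_congr fun ν => ?_)
  rw [← inv_dlt_smul hm, ← mul_smul]
  refine ⟨fun h => ?_, fun h => by rw [h]⟩
  have := congrArg (dlt m) h
  rw [dlt_inv hm, dlt_inv hm] at this
  exact IsCancelSMul.right_cancel _ _ _ this

/-- The fibres of the expanding map. -/
lemma exists_reps : ∃ R : Set Gf, R.Finite ∧ R.Nonempty ∧
    (∀ g q, qm Gf g = dlB m q ↔ ∃ μ ∈ R, qm Gf (dlt (m : ℝ)⁻¹ (μ • g)) = q) ∧
    ∀ g : GR, InjOn (fun μ : Gf => qm Gf (dlt (m : ℝ)⁻¹ (μ • g))) R := by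
  obtain ⟨r, hr⟩ := gf_cocompact
  let φ := fun μ : Gf => qm Gf (dlt (m : ℝ)⁻¹ (μ • (0 : GR)))
  have hf := gf_finite (max (‖dlt m‖ * r) 0)
  obtain ⟨R, h1, h2⟩ := exists_subset_bijOn
    {x : Gf | ∃ g : GR, ‖g‖ ≤ max (‖dlt m‖ * r) 0 ∧ ‖x • g‖ ≤ max (‖dlt m‖ * r) 0} φ
  have h3 : ∀ γ, ∃ μ ∈ R, ∃ ν, dlG m ν * γ = μ := fun γ => by
    obtain ⟨ν, hν⟩ := hr (dlt (m : ℝ)⁻¹ (γ • 0))
    obtain ⟨μ, h4, h5⟩ := h2.surjOn ⟨dlG m ν * γ, ⟨0, by simp, le_max_of_le_left (by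
      rw [mul_smul, ← dlt_inv hm (γ • 0), ← dlt_smul]
      exact (dlt m).le_opNorm_of_le hν)⟩, rfl⟩
    exact ⟨μ, h4, (qm_dlt_eq hm).1 (h5.trans ((qm_dlt_eq hm).2 ⟨ν, rfl⟩))⟩
  refine ⟨R, hf.subset h1, (h3 1).imp fun _ h => h.1, fun g q => ⟨fun h => ?_, ?_⟩,
    fun g μ a μ' a' h => h2.injOn a a' ((qm_dlt_eq hm).2 ((qm_dlt_eq hm).1 h))⟩
  · obtain ⟨g₁, rfl⟩ := Quotient.mk_surjective q
    obtain ⟨γ, hγ⟩ := qm_eq.1 (h.trans (dlB_qm m g₁)).symm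
    obtain ⟨μ, h4, h5⟩ := h3 γ
    exact ⟨μ, h4, ((qm_dlt_eq hm).2 h5).trans (by rw [hγ, inv_dlt hm])⟩
  · rintro ⟨μ, -, rfl⟩
    rw [dlB_qm, dlt_inv hm, qm_smul]

omit hm

lemma linv_eq {F B Z : Type} [TopologicalSpace F] [TopologicalSpace B] [TopologicalSpace Z]
    {p : F → B} (loc : IsLocalHomeomorph p) {s : Z → F} {w : Z → B} {z : Z}
    (hs : ContinuousAt s z) (h : ∀ᶠ y in 𝓝 z, p (s y) = w y) :
    loc.localInverseAt (s z) ∘ w =ᶠ[𝓝 z] s := by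
  filter_upwards [h, hs.eventually ((loc.localInverseAt (s z)).open_target.mem_nhds
    loc.self_mem_localInverseAt_target)] with y h1 h2
  have := (loc.localInverseAt (s z)).right_inv h2
  rwa [IsLocalHomeomorph.localInverseAt_symm, h1] at this

lemma Et.form_apply {k : ℕ} {P B : Type} [NormedAddCommGroup P] [NormedSpace ℝ P]
    [TopologicalSpace B] {ϖ : P → B} (D : Et k ϖ) {b : Euc k → ℝ}
    (hb' : ∀ y, b y ≠ 0 → ‖y‖ ≤ 3 / 4) (g : P) (v : Fin k → P) :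
    D.form b g v = ∑ᶠ e ∈ D.fib g, b (D.f e) * vol k fun j => D.df e g (v j) := by
  rw [D.form_fib hb' g Subset.rfl fun _ h => h.1,
    finsum_mem_eq_finite_toFinset_sum _ (D.fib_finite g),
    finsum_mem_eq_finite_toFinset_sum _ (D.fib_finite g), ContinuousAlternatingMap.sum_apply]
  rfl

variable {k : ℕ} (D : Et k (qm Gf : GR → BB))

lemma Et.df_smul {e : D.F} {g : GR} (h : qm Gf g = D.π e) (γ : Gf) (v : GR) :
    D.df e (γ • g) (pl γ.k v) = D.df e g v := by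
  have h1 := (((D.sm' ((qm_smul γ g).trans h)).differentiableAt (by simp)).hasFDerivAt.comp g
    (hasFDerivAt_gf γ g)).fderiv
  have h2 : (D.f ∘ D.sec e) ∘ (fun b : GR => γ • b) = D.f ∘ D.sec e :=
    funext fun b => by simp only [comp, Et.sec, qm_smul]
  rw [h2] at h1
  rw [D.df_eq e g, h1]
  rfl

lemma Et.fib_smul (γ : Gf) (g : GR) : D.fib (γ • g) = D.fib g := by simp only [Et.fib, qm_smul]

lemma Et.df_le : ∃ C, 0 ≤ C ∧ ∀ g, ∀ e ∈ D.fib g, ∀ v, ‖D.df e g v‖ ≤ C * ‖pl (-g.2) v‖ := by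
  obtain ⟨r, hr⟩ := gf_cocompact
  obtain ⟨C, h0, hC⟩ := D.df_bound cont_qm (isCompact_closedBall 0 r)
  obtain ⟨C', hC'⟩ := (isCompact_closedBall (0 : ℝ) r).exists_bound_of_continuousOn
    continuous_pl.continuousOn
  refine ⟨C * max C' 0, by positivity, fun g e he v => ?_⟩
  obtain ⟨γ, hγ⟩ := hr g
  have h1 : pl γ.k v = pl (γ • g).2 (pl (-g.2) v) := by
    rw [pl_pl, gf_smul, add_neg_cancel_right]
  rw [← D.df_smul he.1 γ, h1, mul_assoc]
  refine (D.df e (γ • g)).le_of_opNorm_le_of_le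
    (hC _ (mem_closedBall_zero_iff.2 hγ) e (by rwa [D.fib_smul])) ?_
  exact (pl _).le_of_opNorm_le (le_max_of_le_left
    (hC' _ (mem_closedBall_zero_iff.2 ((norm_snd_le _).trans hγ)))) _

variable {b : Euc k → ℝ} (hb : ContDiff ℝ ∞ b) (hb' : ∀ y, b y ≠ 0 → ‖y‖ ≤ 3 / 4)
include hb'

lemma Et.form_smul (γ : Gf) (g : GR) (v : Fin k → GR) :
    D.form b (γ • g) (fun j => pl γ.k (v j)) = D.form b g v := by
  rw [D.form_apply hb', D.form_apply hb', D.fib_smul]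
  exact finsum_mem_congr rfl fun e he => by simp only [D.df_smul he.1]

include hb

lemma Et.perForm : PerForm (D.form b) :=
  ⟨D.contDiff_form cont_qm hb hb', D.closed_form cont_qm hb hb', fun a x t => by
    ext v
    rw [← D.form_smul hb' ⟨a, 0⟩ (x, t) v]
    simp [gf_smul, pas_zero_mulVec, pl_zero]⟩

lemma Et.avg_pas (t : ℝ) (v : Fin k → Fin 8 → ℝ) :
    avg (D.form b) 0 (fun j => pas t *ᵥ v j) = avg (D.form b) 0 v := by
  have h := D.perForm hb hb'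
  have hc := h.sm.continuous
  refine inv_real one_ne_zero (fun v => ?_) t v
  conv_lhs => rw [h.avg_const 0 ((1 : ℤ) + 0)]
  rw [avg_apply hc, avg_apply hc,
    ← integral_per_affine (by fun_prop) (fun a x => by rw [h.per]) 1 (cz 0)]
  exact integral_congr_ae (Eventually.of_forall fun x =>
    D.form_smul hb' ⟨0, 1⟩ (x, 0) fun j => (v j, 0))

end Pool.Agent.Lib.MP_029589_gt
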