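import Pool.Agent.Lib.MP_029589_gt.Met
import Pool.Agent.Lib.MP_029589_gt.Lev
import Pool.Agent.Lib.MP_029589_gt.Triv

/-! The manifold, its quotients, and the comparison of signed counts with ambient counts. -/

set_option autoImplicit false

open scoped Manifold ContDiff Topology
open Set Filter Function

namespace Pool.Agent.Lib.MP_029589_gt

/-- The level set data. -/
noncomputable def DD : LS NN (Euc 23) ℂ where
  J := ContinuousLinearEquiv.ofFinrankEq (by simp [Module.finrank_prod])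
  s := ss
  smooth := contDiff_ss
  reg := fun _ => ss_regular
  refl := ⟨(-1 : ℝ) • .id ℝ _, by
    have := LinearMap.det_smul (-1 : ℝ) (LinearMap.id : Euc 23 →ₗ[ℝ] Euc 23)
    rw [LinearMap.det_id, finrank_euclideanSpace_fin] at this
    refine lt_of_eq_of_lt this (by norm_num)⟩

/-- The universal covering of the example. -/
abbrev ZT : Type := DD.Z

lemma ZT.eq (z : ZT) : ss z.1 = 0 := z.2

noncomputable instance : MulAction Gam ZT where
  smul a z := ⟨a • z.1, (ss_smul a z.1).trans (mul_eq_zero_of_right _ z.2)⟩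
  one_smul z := Subtype.ext (one_smul Gam z.1)
  mul_smul a b z := Subtype.ext (mul_smul a b z.1)

lemma ZT.smul_val (a : Gam) (z : ZT) : (a • z).1 = a • z.1 := rfl

instance : ContinuousConstSMul Gam ZT :=
  ⟨fun a => ((continuous_const_smul a).comp continuous_subtype_val).subtype_mk _⟩

instance : IsCancelSMul Gam ZT where
  right_cancel' a b z h := IsCancelSMul.right_cancel a b z.1 (congrArg Subtype.val h)

instance : ProperlyDiscontinuousSMul Gam ZT where
  finite_disjoint_inter_image hK hL := by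
    refine (finite_disjoint_inter_image (Γ := Gam) (hK.image continuous_subtype_val)
      (hL.image continuous_subtype_val)).subset ?_
    rintro a ⟨_, ⟨p, hp, rfl⟩, hq⟩
    exact ⟨_, ⟨_, ⟨p, hp, rfl⟩, rfl⟩, _, hq, rfl⟩

instance : LocallyCompactSpace ZT := ChartedSpace.locallyCompactSpace (Euc 23) ZT

instance : ConnectedSpace ZT := isConnected_iff_connectedSpace.1
  (zero_set_triv (IsCoveringMap.of_discreteTopology (id : Unit → Unit)) (φ := fun _ => ())
    continuousOn_const).1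

instance (H : Subgroup Gam) {A : Type} [MulAction Gam A] [IsCancelSMul Gam A] :
    IsCancelSMul H A where
  right_cancel' a b z h := Subtype.ext (IsCancelSMul.right_cancel a.1 b.1 z h)

instance (H : Subgroup Gam) {A : Type} [MulAction Gam A] [TopologicalSpace A]
    [ContinuousConstSMul Gam A] : ContinuousConstSMul H A :=
  ⟨fun a => continuous_const_smul a.1⟩

lemma ZT.smooth (a : Gam) : ContMDiff (𝓡 23) (𝓡 23) ∞ fun z : ZT => a • z := fun z =>
  LS.contMDiffAt_to ((contDiff_smul a).contMDiff.contMDiffAt.comp z (LS.contMDiff_val z))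

lemma det_mul_complex (c : ℂ) : (ContinuousLinearMap.mul ℝ ℂ c).det = Complex.normSq c :=
  (Algebra.norm_apply ℝ c).symm.trans (Algebra.norm_complex_apply c)

lemma fderiv_rho {ρ : NN → ℂ} {p : NN} (h : DifferentiableAt ℝ ρ p) (hp : ss p = 0) :
    HasFDerivAt (fun x => ρ x * ss x) ((ContinuousLinearMap.mul ℝ ℂ (ρ p)).comp (fderiv ℝ ss p)) p := by
  refine (h.hasFDerivAt.mul (contDiff_ss.differentiable (by simp) p).hasFDerivAt).congr_fderiv ?_
  ext v <;> simp [hp]

lemma fderiv_smul_eq (a : Gam) (p : NN) : fderiv ℝ (fun p : NN => a • p) p = Lam a.val :=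
  (hasFDerivAt_nmul _ _).fderiv

lemma ZT.det_pos (a : Gam) (z : ZT) : 0 < (md (Euc 23) (Euc 23) (fun z : ZT => a • z) z).det := by
  refine LS.det_md_pos (T := fun p => a • p) (fun _ => rfl) (contDiff_smul a)
    (by rw [fderiv_smul_eq]; exact det_Lam _)
    (ρ := ContinuousLinearMap.mul ℝ ℂ (ee (-(a.val.1.2 * z.1.1.1))))
    (by rw [det_mul_complex]; exact Complex.normSq_pos.2 (ee_ne _)) ?_
  have h1 := (contDiff_ss.differentiable (by simp) (a • z.1)).hasFDerivAt.comp z.1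
    ((contDiff_smul a).differentiable (by simp) z.1).hasFDerivAt
  have h2 := fderiv_rho (ρ := fun p => ee (-(a.val.1.2 * p.1.1))) (p := z.1)
    ((contDiff_ee.differentiable (by simp) _).comp _ (by fun_prop)) z.2
  exact h1.unique (h2.congr_of_eventuallyEq (Eventually.of_forall (ss_smul a)))

/-- Quotients of the level set. -/
abbrev QZ (H : Subgroup Gam) : Type := MulAction.orbitRel.Quotient H ZT

/-- Quotients of the group. -/
abbrev QN (H : Subgroup Gam) : Type := MulAction.orbitRel.Quotient H NN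

variable (H : Subgroup Gam)

lemma smZ (a : H) : ContMDiff (𝓡 23) (𝓡 23) ∞ fun z : ZT => a • z := ZT.smooth a.1

lemma smN (a : H) : ContMDiff 𝓘(ℝ, NN) 𝓘(ℝ, NN) ∞ fun z : NN => a • z :=
  (contDiff_smul a.1).contMDiff

lemma detN (a : H) (p : NN) : 0 < (md NN NN (fun z : NN => a • z) p).det := by
  rw [md_eq_fderiv]
  exact (fderiv_smul_eq a.1 p).symm ▸ det_Lam _

instance : IsManifold (𝓡 23) ∞ (QZ H) := qm_manifold (smZ H)

instance : IsManifold 𝓘(ℝ, NN) ∞ (QN H) := qm_manifold (smN H)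

lemma ldZ (z : ZT) : LD (Euc 23) (qm H) z := qm_ld (smZ H) z

lemma ldN (p : NN) : LD NN (qm H) p := qm_ld (smN H) p

lemma detZ (z : ZT) : 0 < (md (Euc 23) (Euc 23) (qm H) z).det :=
  qm_det_pos (smZ H) (fun a => ZT.det_pos a.1) z

lemma oriZ : Ori (Euc 23) fun _ : QZ H => (1 : ℝ) :=
  qm_ori (smZ H) (fun a => ZT.det_pos a.1) fun _ _ => LS.jd_chart_pos

lemma oriN : Ori NN fun _ : QN H => (1 : ℝ) :=
  qm_ori (smN H) (detN H) fun a b _ => by
    rw [chartAt_self_eq, jd]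
    exact lt_of_lt_of_eq one_pos ((congrArg ContinuousLinearMap.det (md_id b)).trans det_id').symm

/-- The quotient manifolds. -/
noncomputable def XX : Mfd 23 where
  M := QZ H
  sc := ContinuousConstSMul.secondCountableTopology

variable {H}

lemma compact_XX {R : ℝ} (h : ∀ p : NN, ∃ a : H, ‖a • p‖ ≤ R) : CompactSpace (XX H).M := by
  have hK : IsCompact {z : ZT | ‖z.1‖ ≤ R} :=
    (isClosed_eq contDiff_ss.continuous continuous_const).isClosedEmbedding_subtypeVal.isCompact_preimage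
      (K := Metric.closedBall 0 R) (isCompact_closedBall _ _) |>.of_isClosed_subset
      (isClosed_le (by fun_prop) continuous_const) fun z hz => mem_closedBall_zero_iff.2 hz
  refine ⟨(hK.image (qm_cov ZT H).continuous).of_isClosed_subset isClosed_univ fun q _ => ?_⟩
  obtain ⟨z, rfl⟩ := Quotient.mk_surjective q
  obtain ⟨a, ha⟩ := h z.1
  exact ⟨a • z, ha, qm_smul a z⟩

instance : CompactSpace (XX ⊤).M :=
  compact_XX fun p => (cocompact p).elim fun a ha => ⟨⟨a, trivial⟩, ha⟩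

variable (H) in
/-- The projection to the example. -/
noncomputable def toX : (XX H).M → (XX ⊤).M := Quotient.map' id fun _ _ ⟨a, ha⟩ => ⟨⟨a.1, trivial⟩, ha⟩

lemma toX_ld (y : (XX H).M) : LD (Euc 23) (toX H) y := by
  obtain ⟨z, rfl⟩ := Quotient.mk_surjective y
  exact (ldZ H z).of_comp (ldZ ⊤ z)

/-- The compact coverings. -/
noncomputable def covX [CompactSpace (XX H).M] : Cover (XX ⊤) where
  Y := XX H
  p := toX H
  cov := by
    have h : IsLocalDiffeomorph (𝓡 23) (𝓡 23) ∞ (toX H) := toX_ld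
    exact isCoveringMap_iff_isCoveringMapOn_univ.2 (.of_isLocalHomeomorphOn h.contMDiff.continuous
      h.isLocalHomeomorph.isLocalHomeomorphOn)
  loc := toX_ld

section Transfer

variable {Y : Type} [TopologicalSpace Y] [ChartedSpace (Euc 23) Y] {l : ZT → Y} {oY : Y → ℝ}
  {F : NN → Euc 23} {G : Y → Euc 23} {ρ : NN → ℂ} {A : QN H → NN}

lemma transfer_pt (hG : ∀ z : ZT, G (l z) = F z.1)
    (hA : ∀ p, A (qm H p) = DD.J (F p, ρ p * ss p)) {z : ZT} (hl : LD (Euc 23) l z)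
    (hF : ContDiffAt ℝ ∞ F z.1) (hρ : ContDiffAt ℝ ∞ ρ z.1) (h0 : ρ z.1 ≠ 0) :
    ∃ c > 0, jd A (qm H z.1) = c * (jd G (l z) * (md (Euc 23) (Euc 23) l z).det) := by
  obtain ⟨c, hc, h1⟩ := LS.det_amb z
  have h2 := h1 (fderiv ℝ F z.1) (ContinuousLinearMap.mul ℝ ℂ (ρ z.1))
  have dF := hF.differentiableAt (by simp)
  have e1 : A ∘ qm H = fun p => DD.J (F p, ρ p * ss p) := funext hA
  have e2 : G ∘ l = fun z : ZT => F z.1 := funext hG
  have s1 : ContMDiffAt 𝓘(ℝ, NN) 𝓘(ℝ, NN) ∞ A (qm H z.1) := (ldN H z.1).desc (by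
    rw [e1]
    exact (DD.J.contDiff.contDiffAt.comp _
      (hF.prodMk (hρ.mul contDiff_ss.contDiffAt))).contMDiffAt)
  have s2 : ContMDiffAt (𝓡 23) (𝓡 23) ∞ G (l z) := hl.desc (by
    rw [e2]
    exact hF.contMDiffAt.comp z (LS.contMDiff_val z))
  have h3 := md_comp (s1.mdifferentiableAt (by simp)) (ldN H z.1).mdiff
  have h4 := md_comp (s2.mdifferentiableAt (by simp)) hl.mdiff
  have h5 := (DD.J : Euc 23 × ℂ →L[ℝ] NN).hasFDerivAt.comp z.1
    (dF.hasFDerivAt.prodMk (fderiv_rho (hρ.differentiableAt (by simp)) z.2))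
  rw [e1, md_eq_fderiv] at h3
  rw [e2, LS.md_comp_val dF] at h4
  rw [h4, det_comp', det_mul_complex] at h2
  have h6 := (congrArg ContinuousLinearMap.det (h3.symm.trans h5.fderiv)).trans h2
  have h7 := qm_det_pos (smN H) (detN H) z.1
  rw [det_comp'] at h6
  refine ⟨c * Complex.normSq (ρ z.1) / (md NN NN (qm H) z.1).det,
    div_pos (mul_pos hc (Complex.normSq_pos.2 h0)) h7, ?_⟩
  rw [div_mul_eq_mul_div, eq_div_iff h7.ne']
  exact h6

theorem transfer (hl : ∀ z, LD (Euc 23) l z) (hs : Surjective l)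
    (hH : ∀ a b, l a = l b ↔ ∃ h : H, h • b = a)
    (ho : ∀ z, oY (l z) * (SignType.sign (md (Euc 23) (Euc 23) l z).det : ℝ) = 1)
    (hG : ∀ z : ZT, G (l z) = F z.1) (hA : ∀ p, A (qm H p) = DD.J (F p, ρ p * ss p))
    (hF : ContDiff ℝ ∞ F) {O : Set (QN H)} (hρ : ∀ p, qm H p ∈ O → ContDiffAt ℝ ∞ ρ p ∧ ρ p ≠ 0)
    {O1 : Set Y} {y : Euc 23} (hO : ∀ z : ZT, F z.1 = y → (l z ∈ O1 ↔ qm H z.1 ∈ O)) :
    (Reg O1 G y → Reg O A (DD.J (y, 0))) ∧ cnt oY O1 G y = cnt (fun _ => 1) O A (DD.J (y, 0)) := by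
  have h1 : ∀ q ∈ O, A q = DD.J (y, 0) → ∃ z : ZT, qm H z.1 = q ∧ F z.1 = y := fun q hq h => by
    obtain ⟨p, rfl⟩ := Quotient.mk_surjective q
    obtain ⟨h2, h3⟩ := Prod.ext_iff.1 (DD.J.injective ((hA p).symm.trans h))
    exact ⟨⟨p, (mul_eq_zero.1 h3).resolve_left (hρ p hq).2⟩, rfl, h2⟩
  have h2 := fun (z : ZT) (hz : qm H z.1 ∈ O) =>
    transfer_pt hG hA (hl z) hF.contDiffAt (hρ _ hz).1 (hρ _ hz).2
  refine ⟨fun r q hq h => ?_, ?_⟩
  · obtain ⟨z, rfl, hz⟩ := h1 q hq h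
    obtain ⟨c, hc, e⟩ := h2 z hq
    rw [e]
    exact mul_ne_zero hc.ne' (mul_ne_zero (r _ ((hO z hz).2 hq) ((hG z).trans hz)) (hl z).det_ne)
  · have h3 : ∀ x, l (surjInv hs x) = x := surjInv_eq hs
    have h4 : ∀ x, x ∈ O1 ∧ G x = y → F (surjInv hs x).1 = y ∧ qm H (surjInv hs x).1 ∈ O :=
      fun x hx => by
        have : F (surjInv hs x).1 = y := by rw [← hG, h3, hx.2]
        exact ⟨this, (hO _ this).1 (by rw [h3]; exact hx.1)⟩
    refine finsum_mem_eq_of_bijOn (fun x => qm H (surjInv hs x).1) ⟨fun x hx => ⟨(h4 x hx).2, ?_⟩,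
      fun x _ x' _ h => ?_, fun q hq => ?_⟩ fun x hx => ?_
    · rw [hA, (h4 x hx).1, ZT.eq, mul_zero]
    · obtain ⟨a, ha⟩ := qm_eq.1 h
      rw [← h3 x, ← h3 x']
      exact (hH _ _).2 ⟨a, Subtype.ext ha⟩
    · obtain ⟨z, rfl, hz⟩ := h1 q hq.1 hq.2
      obtain ⟨a, ha⟩ := (hH _ _).1 (h3 (l z))
      exact ⟨l z, ⟨(hO z hz).2 hq.1, (hG z).trans hz⟩, qm_eq.2 ⟨a, congrArg Subtype.val ha⟩⟩
    · obtain ⟨c, hc, e⟩ := h2 _ (h4 x hx).2
      have h5 := ho (surjInv hs x)
      rw [e, sign_mul_pos hc, sign_mul, h3] at *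
      push_cast
      have h6 : (SignType.sign (md (Euc 23) (Euc 23) l (surjInv hs x)).det : ℝ) ^ 2 = 1 := by
        rcases (hl (surjInv hs x)).det_ne.lt_or_gt with h | h
        · simp [sign_neg h]
        · simp [sign_pos h]
      linear_combination (SignType.sign (jd G x) : ℝ) *
        ((SignType.sign (md (Euc 23) (Euc 23) l (surjInv hs x)).det : ℝ) * h5 - oY x * h6)

end Transfer

end Pool.Agent.Lib.MP_029589_gt
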